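import Pool.Agent.MDB.Targets2

/-!
# Mixed Doob-Burkholder: basic facts on the conditional expectations
-/

open scoped ENNReal NNReal Topology
open Finset

namespace MDB

open Mc

universe u

namespace H_A_E

variable {H : Type u} [NormedAddCommGroup H] [InnerProductSpace ℂ H] [CompleteSpace H]
variable {𝓜 : TVN H}

lemma op_inj {x y : Mc 𝓜} (h : x.op = y.op) : x = y := Subtype.ext h

lemma op_add (x y : Mc 𝓜) : (x + y).op = x.op + y.op := rfl
lemma op_sub (x y : Mc 𝓜) : (x - y).op = x.op - y.op := rfl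
lemma op_mul (x y : Mc 𝓜) : (x * y).op = x.op * y.op := rfl
lemma op_star (x : Mc 𝓜) : (star x).op = star x.op := rfl
lemma op_one : (1 : Mc 𝓜).op = 1 := rfl
lemma op_zero : (0 : Mc 𝓜).op = 0 := rfl
lemma op_smul (c : ℂ) (x : Mc 𝓜) : (c • x).op = c • x.op := rfl
lemma op_mem (x : Mc 𝓜) : x.op ∈ 𝓜.M := x.2

/-- every element is a combination of four positive ones -/
lemma lin_ext (f g : Mc 𝓜 →ₗ[ℂ] Mc 𝓜) (h : ∀ x : Mc 𝓜, 0 ≤ x.op → f x = g x) (x : Mc 𝓜) :
    f x = g x := by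
  -- self-adjoint elements
  have hsa : ∀ y : Mc 𝓜, IsSelfAdjoint y.op → f y = g y := by
    intro y hy
    have hmem : (algebraMap ℂ (Mc 𝓜) ((‖y.op‖ : ℝ) : ℂ)).op
        = algebraMap ℝ (H →L[ℂ] H) ‖y.op‖ := by
      rw [Algebra.algebraMap_eq_smul_one, op_smul, op_one, Algebra.algebraMap_eq_smul_one]
      exact (Complex.coe_smul _ _)
    have h1 : 0 ≤ (algebraMap ℂ (Mc 𝓜) ((‖y.op‖ : ℝ) : ℂ)).op := by
      rw [hmem]
      exact algebraMap_nonneg _ (norm_nonneg _)
    have h2 : 0 ≤ (algebraMap ℂ (Mc 𝓜) ((‖y.op‖ : ℝ) : ℂ) + y).op := by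
      rw [op_add, hmem]
      have := hy.neg_algebraMap_norm_le_self
      rw [neg_le_iff_add_nonneg] at this
      rwa [add_comm]
    have e1 := h _ h1
    have e2 := h _ h2
    rw [map_add, map_add, e1] at e2
    exact add_left_cancel e2
  have hx : x = ((1 / 2 : ℂ)) • (x + star x) + (-(Complex.I) / 2) • (Complex.I • (x - star x)) := by
    rw [smul_smul]
    have : -Complex.I / 2 * Complex.I = 1 / 2 := by
      ring_nf
      rw [Complex.I_sq]
      ring
    rw [this, ← smul_add]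
    have : x + star x + (x - star x) = (2 : ℂ) • x := by
      rw [two_smul]; abel
    rw [this, smul_smul]
    norm_num
  have e1 := hsa (x + star x) (by
    rw [op_add, op_star]
    exact IsSelfAdjoint.add_star_self _)
  have e2 := hsa (Complex.I • (x - star x)) (by
    rw [op_smul, op_sub, op_star]
    rw [IsSelfAdjoint, star_smul, star_sub, star_star]
    rw [RCLike.star_def, Complex.conj_I, neg_smul, ← smul_neg, neg_sub])
  rw [hx, map_add, map_add, map_smul f, map_smul f (-Complex.I / 2), map_smul g,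
    map_smul g (-Complex.I / 2), e1, e2]

lemma E_star (F : Filtr 𝓜) (n : ℕ) (x : Mc 𝓜) : F.E n (star x) = star (F.E n x) := by
  -- self-adjoint
  have hpos : ∀ y : Mc 𝓜, 0 ≤ y.op → star (F.E n y) = F.E n y := by
    intro y hy
    apply op_inj
    rw [op_star]
    exact (IsSelfAdjoint.of_nonneg (F.E_nonneg n y hy)).star_eq
  let G : Mc 𝓜 →ₗ[ℂ] Mc 𝓜 :=
    { toFun := fun x => star (F.E n (star x))
      map_add' := by
        intro a b
        simp [star_add]
      map_smul' := by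
        intro c a
        simp [star_smul] }
  have := lin_ext G (F.E n) (by
    intro y hy
    change star (F.E n (star y)) = F.E n y
    have : star y = y := by
      apply op_inj
      rw [op_star]
      exact (IsSelfAdjoint.of_nonneg hy).star_eq
    rw [this]
    exact hpos y hy) x
  change star (F.E n (star x)) = F.E n x at this
  rw [← this, star_star]

lemma E_one (F : Filtr 𝓜) (n : ℕ) : F.E n 1 = 1 :=
  F.E_fix n 1 (one_mem (F.N n))

lemma E_tower' (F : Filtr 𝓜) (m n : ℕ) (h : m ≤ n) (x : Mc 𝓜) : F.E n (F.E m x) = F.E m x :=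
  F.E_fix n _ (F.mono m n h (F.E_mem m x))

lemma E_mono (F : Filtr 𝓜) (n : ℕ) (x y : Mc 𝓜) (h : x.op ≤ y.op) :
    (F.E n x).op ≤ (F.E n y).op := by
  have := F.E_nonneg n (y - x) (by rw [op_sub]; exact sub_nonneg.mpr h)
  rw [map_sub, op_sub] at this
  exact sub_nonneg.mp this

lemma E_schwarz (F : Filtr 𝓜) (n : ℕ) (x : Mc 𝓜) :
    (star (F.E n x) * F.E n x).op ≤ (F.E n (star x * x)).op := by
  have h0 : 0 ≤ (star (x - F.E n x) * (x - F.E n x)).op := by
    rw [op_mul, op_star]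
    exact star_mul_self_nonneg _
  have h1 := F.E_nonneg n _ h0
  have hm : (F.E n x).op ∈ F.N n := F.E_mem n x
  have hms : (star (F.E n x)).op ∈ F.N n := by
    rw [op_star]; exact star_mem hm
  have e : star (x - F.E n x) * (x - F.E n x)
      = star x * x - 1 * star x * F.E n x - star (F.E n x) * x * 1
        + star (F.E n x) * F.E n x := by
    rw [star_sub]
    noncomm_ring
  have e2 : F.E n (1 * star x * F.E n x) = star (F.E n x) * F.E n x := by
    rw [F.E_bimod n 1 (star x) (F.E n x) (one_mem _) hm, E_star, one_mul]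
  have e3 : F.E n (star (F.E n x) * x * 1) = star (F.E n x) * F.E n x := by
    rw [F.E_bimod n (star (F.E n x)) x 1 hms (one_mem _), mul_one]
  have e4 : F.E n (star (F.E n x) * F.E n x) = star (F.E n x) * F.E n x :=
    F.E_fix n _ (by rw [op_mul]; exact mul_mem hms hm)
  rw [e, map_add, map_sub, map_sub, e2, e3, e4] at h1
  rw [sub_add_cancel, op_sub] at h1
  exact sub_nonneg.mp h1

lemma E_norm (F : Filtr 𝓜) (n : ℕ) (x : Mc 𝓜) : ‖(F.E n x).op‖ ≤ ‖x.op‖ := by
  have h1 := E_schwarz F n x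
  have hmem : (algebraMap ℂ (Mc 𝓜) (((‖x.op‖ ^ 2 : ℝ)) : ℂ)).op
        = algebraMap ℝ (H →L[ℂ] H) (‖x.op‖ ^ 2) := by
    rw [Algebra.algebraMap_eq_smul_one, op_smul, op_one, Algebra.algebraMap_eq_smul_one]
    exact (Complex.coe_smul _ _)
  have h2 : (star x * x).op ≤ (algebraMap ℂ (Mc 𝓜) (((‖x.op‖ ^ 2 : ℝ)) : ℂ)).op := by
    rw [hmem, op_mul, op_star]
    exact CStarAlgebra.star_mul_le_algebraMap_norm_sq
  have h3 := E_mono F n _ _ h2
  have h4 : F.E n (algebraMap ℂ (Mc 𝓜) (((‖x.op‖ ^ 2 : ℝ)) : ℂ))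
      = algebraMap ℂ (Mc 𝓜) (((‖x.op‖ ^ 2 : ℝ)) : ℂ) := by
    rw [Algebra.algebraMap_eq_smul_one, map_smul, E_one]
  rw [h4, hmem] at h3
  have h5 := h1.trans h3
  have h6 : 0 ≤ (star (F.E n x) * F.E n x).op := by
    rw [op_mul, op_star]
    exact star_mul_self_nonneg _
  have h7 := CStarAlgebra.norm_le_norm_of_nonneg_of_le h6 h5
  rw [op_mul, op_star, CStarRing.norm_star_mul_self] at h7
  have h8 : ‖algebraMap ℝ (H →L[ℂ] H) (‖x.op‖ ^ 2)‖ ≤ ‖x.op‖ ^ 2 := by
    rw [Algebra.algebraMap_eq_smul_one]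
    refine (norm_smul_le _ _).trans ?_
    rw [Real.norm_of_nonneg (by positivity)]
    have : ‖(1 : H →L[ℂ] H)‖ ≤ 1 := ContinuousLinearMap.norm_id_le
    calc ‖x.op‖ ^ 2 * ‖(1 : H →L[ℂ] H)‖ ≤ ‖x.op‖ ^ 2 * 1 := by gcongr
      _ = _ := mul_one _
  have h9 := h7.trans h8
  rw [← sq] at h9
  exact (sq_le_sq₀ (norm_nonneg _) (norm_nonneg _)).mp h9


/-- if `tr (c* u c) = tr (c* v c)` for all `c` in `N`, then `u ≤ v` -/
lemma le_of_tr (h1 : A_tr.{u}) (h4 : A_cfc.{u}) (F : Filtr 𝓜) (m : ℕ) (u v : H →L[ℂ] H)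
    (hu : u ∈ F.N m) (hv : v ∈ F.N m) (hu0 : 0 ≤ u) (hv0 : 0 ≤ v)
    (h : ∀ c : H →L[ℂ] H, c ∈ F.N m → 𝓜.tr (star c * u * c) = 𝓜.tr (star c * v * c)) :
    u ≤ v := by
  set w : H →L[ℂ] H := u - v with hw
  have hwm : w ∈ F.N m := sub_mem hu hv
  have hwsa : IsSelfAdjoint w := (IsSelfAdjoint.of_nonneg hu0).sub (IsSelfAdjoint.of_nonneg hv0)
  set p : H →L[ℂ] H := cfc (fun t : ℝ => max t 0) w with hp
  set q : H →L[ℂ] H := cfc (fun t : ℝ => max (-t) 0) w with hq
  have hpm : p ∈ F.N m := h4 H (F.N m) w _ hwm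
  have hqm : q ∈ F.N m := h4 H (F.N m) w _ hwm
  have hp0 : 0 ≤ p := cfc_nonneg (fun x _ => le_max_right _ _)
  have hq0 : 0 ≤ q := cfc_nonneg (fun x _ => le_max_right _ _)
  have hwpq : w = p - q := by
    rw [hp, hq, ← cfc_sub (fun t : ℝ => max t 0) (fun t : ℝ => max (-t) 0) w
      (by fun_prop) (by fun_prop)]
    conv_lhs => rw [← cfc_id' ℝ w hwsa]
    refine cfc_congr fun x _ => ?_
    rcases le_total 0 x with hx | hx
    · rw [max_eq_left hx, max_eq_right (by linarith)]; ring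
    · rw [max_eq_right hx, max_eq_left (by linarith)]; ring
  have hpq : p * q = 0 := by
    rw [hp, hq, ← cfc_mul (fun t : ℝ => max t 0) (fun t : ℝ => max (-t) 0) w
      (by fun_prop) (by fun_prop)]
    have : (fun x : ℝ => max x 0 * max (-x) 0) = fun _ => (0 : ℝ) := by
      funext x
      rcases le_total 0 x with hx | hx
      · rw [max_eq_right (a := -x) (by linarith), mul_zero]
      · rw [max_eq_right hx, zero_mul]
    rw [this]
    exact cfc_const_zero ℝ w
  by_cases hpz : p = 0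
  · have : u - v = -q := by rw [← hw, hwpq, hpz, zero_sub]
    have h2 : u - v ≤ 0 := by rw [this]; exact neg_nonpos.mpr hq0
    exact sub_nonpos.mp h2
  exfalso
  obtain ⟨z, hzm, hz0, hzp, hzne, hztr⟩ := F.semifinite m p hpm hp0 hpz
  set s : H →L[ℂ] H := cfc Real.sqrt z with hs
  have hsm : s ∈ F.N m := h4 H (F.N m) z _ hzm
  have hs0 : 0 ≤ s := cfc_nonneg (fun x _ => Real.sqrt_nonneg _)
  have hssa : star s = s := (IsSelfAdjoint.of_nonneg hs0).star_eq
  have hzsa : IsSelfAdjoint z := IsSelfAdjoint.of_nonneg hz0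
  have hss : s * s = z := by
    rw [hs, ← cfc_mul Real.sqrt Real.sqrt z (by fun_prop) (by fun_prop)]
    conv_rhs => rw [← cfc_id' ℝ z hzsa]
    refine cfc_congr fun x hx => ?_
    exact Real.mul_self_sqrt (spectrum_nonneg_of_nonneg hz0 hx)
  have hqsa : star q = q := (IsSelfAdjoint.of_nonneg hq0).star_eq
  have hsq : s * q = 0 := by
    have h2 : star q * z * q ≤ star q * p * q := star_left_conjugate_le_conjugate hzp q
    have h3 : star q * p * q = 0 := by rw [mul_assoc, hpq, mul_zero]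
    have h4 : 0 ≤ star q * z * q := star_left_conjugate_nonneg hz0 q
    have h5 : star q * z * q = 0 := le_antisymm (h3 ▸ h2) h4
    have h6 : star (s * q) * (s * q) = 0 := by
      rw [star_mul, hssa, ← mul_assoc, mul_assoc (star q) s s, hss, h5]
    exact CStarRing.star_mul_self_eq_zero_iff _ |>.mp h6
  have hsws : s * w * s = s * p * s := by
    rw [hwpq, mul_sub, sub_mul, hsq, zero_mul, sub_zero]
  have hle : z * z ≤ s * w * s := by
    rw [hsws]
    have := star_left_conjugate_le_conjugate hzp s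
    rw [hssa] at this
    calc z * z = s * z * s := by
          rw [← hss]; noncomm_ring
      _ ≤ _ := this
  have hzz0 : 0 ≤ z * z := by
    have := star_mul_self_nonneg z
    rwa [hzsa.star_eq] at this
  have hcut : 𝓜.tr (s * v * s) < ⊤ := by
    have h2 : s * v * s ≤ ((‖v‖₊ : ℝ) : ℂ) • z := by
      have h3 : v ≤ algebraMap ℝ (H →L[ℂ] H) ‖v‖ :=
        (IsSelfAdjoint.of_nonneg hv0).le_algebraMap_norm_self
      have h4 := star_left_conjugate_le_conjugate h3 s
      rw [hssa] at h4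
      refine h4.trans (le_of_eq ?_)
      rw [Algebra.algebraMap_eq_smul_one, mul_smul_comm, mul_one, smul_mul_assoc, hss]
      exact (Complex.coe_smul _ _).symm
    have h5 : s * v * s ∈ 𝓜.M := F.le m (mul_mem (mul_mem hsm hv) hsm)
    have h6 : ((‖v‖₊ : ℝ) : ℂ) • z ∈ 𝓜.M := F.le m ((F.N m).toStarSubalgebra.smul_mem hzm _)
    have h7 : 0 ≤ s * v * s := by
      have := star_left_conjugate_nonneg hv0 s
      rwa [hssa] at this
    have h8 := (h1 H 𝓜).2.1 _ _ h5 h6 h7 h2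
    rw [𝓜.tr_smul _ z (F.le m hzm) hz0] at h8
    exact lt_of_le_of_lt h8 (ENNReal.mul_lt_top ENNReal.coe_lt_top hztr)
  have heq := h s hsm
  rw [hssa] at heq
  have hadd : s * u * s = s * v * s + s * w * s := by rw [hw]; noncomm_ring
  have hsws0 : 0 ≤ s * w * s := hzz0.trans hle
  have hvm : s * v * s ∈ 𝓜.M := F.le m (mul_mem (mul_mem hsm hv) hsm)
  have hwm' : s * w * s ∈ 𝓜.M := F.le m (mul_mem (mul_mem hsm hwm) hsm)
  have hv0' : 0 ≤ s * v * s := by
    have := star_left_conjugate_nonneg hv0 s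
    rwa [hssa] at this
  rw [hadd, 𝓜.tr_add _ _ hvm hwm' hv0' hsws0] at heq
  have htr0 : 𝓜.tr (s * w * s) = 0 := by
    have : 𝓜.tr (s * v * s) + 𝓜.tr (s * w * s) = 𝓜.tr (s * v * s) + 0 := by rw [heq, add_zero]
    exact (ENNReal.add_right_inj hcut.ne).mp this
  have hzero := 𝓜.tr_faithful _ hwm' hsws0 htr0
  rw [hzero] at hle
  have hzz : z * z = 0 := le_antisymm hle hzz0
  have : star z * z = 0 := by rw [hzsa.star_eq]; exact hzz
  exact hzne (CStarRing.star_mul_self_eq_zero_iff _ |>.mp this)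

lemma tr_conj (F : Filtr 𝓜) (n : ℕ) (x c : Mc 𝓜) (hx : 0 ≤ x.op) (hc : c.op ∈ F.N n) :
    𝓜.tr (star c.op * (F.E n x).op * c.op) = 𝓜.tr (star c.op * x.op * c.op) := by
  have h0 : 0 ≤ (star c * x * c).op := by
    rw [op_mul, op_mul, op_star]
    exact star_left_conjugate_nonneg hx _
  have h1 := F.E_tr n _ h0
  have hcs : (star c).op ∈ F.N n := by rw [op_star]; exact star_mem hc
  rw [F.E_bimod n (star c) x c hcs hc] at h1
  exact h1

lemma E_tower (h1 : A_tr.{u}) (h4 : A_cfc.{u}) (F : Filtr 𝓜) (m n : ℕ) (hmn : m ≤ n)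
    (x : Mc 𝓜) : F.E m (F.E n x) = F.E m x := by
  refine lin_ext (F.E m ∘ₗ F.E n) (F.E m) ?_ x
  intro y hy
  change F.E m (F.E n y) = F.E m y
  have hEn : 0 ≤ (F.E n y).op := F.E_nonneg n y hy
  have key : ∀ c : H →L[ℂ] H, c ∈ F.N m →
      𝓜.tr (star c * (F.E m (F.E n y)).op * c) = 𝓜.tr (star c * (F.E m y).op * c) := by
    intro c hc
    have hcM : c ∈ 𝓜.M := F.le m hc
    have e1 := tr_conj F m (F.E n y) ⟨c, hcM⟩ hEn hc
    have e2 := tr_conj F n y ⟨c, hcM⟩ hy (F.mono m n hmn hc)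
    have e3 := tr_conj F m y ⟨c, hcM⟩ hy hc
    exact e1.trans (e2.trans e3.symm)
  apply op_inj
  apply le_antisymm
  · exact le_of_tr h1 h4 F m _ _ (F.E_mem m _) (F.E_mem m _) (F.E_nonneg m _ hEn)
      (F.E_nonneg m _ hy) key
  · exact le_of_tr h1 h4 F m _ _ (F.E_mem m _) (F.E_mem m _) (F.E_nonneg m _ hy)
      (F.E_nonneg m _ hEn) (fun c hc => (key c hc).symm)

end H_A_E

theorem q_E (h1 : A_tr.{u}) (_h2 : A_fin.{u}) (_h3 : A_supg.{u}) (h4 : A_cfc.{u}) : A_E.{u} := by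
  intro H _ _ _ 𝓜 F
  exact ⟨H_A_E.E_star F, H_A_E.E_one F, fun m n x h => H_A_E.E_tower h1 h4 F m n h x,
    fun m n x h => H_A_E.E_tower' F m n h x, H_A_E.E_schwarz F, H_A_E.E_mono F, H_A_E.E_norm F⟩

end MDB
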