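import Pool.Agent.MDB.A_norm

/-!
# Mixed Doob-Burkholder: density of the subalgebras of the filtration
-/

open scoped ENNReal NNReal Topology

namespace MDB

universe u

namespace H_A_dense

variable {H : Type u} [NormedAddCommGroup H] [InnerProductSpace ℂ H] [CompleteSpace H]

/-- square summable sequences in `H` -/
abbrev HH (H : Type u) [NormedAddCommGroup H] [InnerProductSpace ℂ H] : Type u :=
  lp (fun _ : ℕ => H) 2

theorem amp_mem (a : H →L[ℂ] H) (w : HH H) : Memℓp (fun i => a (w i)) 2 := by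
  have h1 : Memℓp (fun i => ‖((‖a‖ : ℂ) • (w : ∀ _ : ℕ, H)) i‖) 2 :=
    ((lp.memℓp w).const_smul (‖a‖ : ℂ)).norm
  refine Memℓp.mono h1 (fun i => ?_)
  have h2 : ((‖a‖ : ℂ) • (w : ∀ _ : ℕ, H)) i = (‖a‖ : ℂ) • w i := rfl
  rw [h2, norm_smul]
  simpa using a.le_opNorm (w i)

/-- the linear amplification of an operator -/
noncomputable def ampL (a : H →L[ℂ] H) : HH H →ₗ[ℂ] HH H where
  toFun w := ⟨fun i => a (w i), amp_mem a w⟩
  map_add' x y := by
    ext i
    exact a.map_add (x i) (y i)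
  map_smul' c x := by
    ext i
    exact a.map_smul c (x i)

theorem ampL_apply (a : H →L[ℂ] H) (w : HH H) (i : ℕ) : (ampL a w) i = a (w i) := rfl

theorem ampL_norm (a : H →L[ℂ] H) (w : HH H) : ‖ampL a w‖ ≤ ‖a‖ * ‖w‖ := by
  have h1 : ‖ampL a w‖ ≤ ‖(‖a‖ : ℂ) • w‖ := by
    refine lp.norm_mono (by norm_num) (fun i => ?_)
    have h2 : ((‖a‖ : ℂ) • w) i = (‖a‖ : ℂ) • w i := rfl
    rw [ampL_apply, h2, norm_smul]
    simpa using a.le_opNorm (w i)
  rw [norm_smul] at h1
  simpa using h1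

/-- the amplification of an operator -/
noncomputable def amp (a : H →L[ℂ] H) : HH H →L[ℂ] HH H :=
  (ampL a).mkContinuous ‖a‖ (ampL_norm a)

theorem amp_apply (a : H →L[ℂ] H) (w : HH H) (i : ℕ) : (amp a w) i = a (w i) := rfl

theorem amp_inner (a : H →L[ℂ] H) (w z : HH H) :
    inner ℂ (amp a w) z = inner ℂ w (amp (star a) z) := by
  rw [lp.inner_eq_tsum, lp.inner_eq_tsum]
  refine tsum_congr (fun i => ?_)
  rw [amp_apply, amp_apply, ContinuousLinearMap.star_eq_adjoint,
    ContinuousLinearMap.adjoint_inner_right]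

theorem amp_single (a : H →L[ℂ] H) (j : ℕ) (h : H) :
    amp a (lp.single 2 j h) = lp.single 2 j (a h) := by
  ext i
  rw [amp_apply]
  by_cases hij : i = j
  · subst hij
    rw [lp.single_apply_self, lp.single_apply_self]
  · rw [lp.single_apply_ne _ _ _ hij, lp.single_apply_ne _ _ _ hij, map_zero]

/-- matrix entries -/
noncomputable def entry (p : HH H →L[ℂ] HH H) (i j : ℕ) : H →L[ℂ] H :=
  (lp.evalCLM ℂ (fun _ : ℕ => H) 2 i).comp
    (p.comp (lp.singleContinuousLinearMap ℂ (fun _ : ℕ => H) 2 j))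

theorem entry_apply (p : HH H →L[ℂ] HH H) (i j : ℕ) (h : H) :
    entry p i j h = (p (lp.single 2 j h)) i := rfl

/-- amplification applied to a fixed vector, as a linear map -/
noncomputable def ampV (v : HH H) : (H →L[ℂ] H) →ₗ[ℂ] HH H where
  toFun a := amp a v
  map_add' a b := by
    ext i
    rfl
  map_smul' c a := by
    ext i
    rfl

/-- the closed cyclic subspace -/
noncomputable def cyc (U : Subalgebra ℂ (H →L[ℂ] H)) (v : HH H) : Submodule ℂ (HH H) :=
  (Submodule.map (ampV v) (Subalgebra.toSubmodule U)).topologicalClosure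

theorem mem_cyc (U : Subalgebra ℂ (H →L[ℂ] H)) (v : HH H) {b : H →L[ℂ] H} (hb : b ∈ U) :
    amp b v ∈ cyc U v :=
  Submodule.le_topologicalClosure _ ⟨b, hb, rfl⟩

theorem cyc_inv (U : Subalgebra ℂ (H →L[ℂ] H)) (v : HH H) {a : H →L[ℂ] H} (ha : a ∈ U)
    {w : HH H} (hw : w ∈ cyc U v) : amp a w ∈ cyc U v := by
  have h2 : (cyc U v : Set (HH H)) ⊆ (amp a) ⁻¹' (cyc U v : Set (HH H)) := by
    refine closure_minimal ?_ (IsClosed.preimage (amp a).continuous
      (Submodule.isClosed_topologicalClosure _))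
    rintro _ ⟨b, hb, rfl⟩
    have h3 : amp a (amp b v) = amp (a * b) v := by
      ext i
      rfl
    show amp a (amp b v) ∈ cyc U v
    rw [h3]
    exact mem_cyc U v (U.mul_mem ha hb)
  exact h2 hw

instance (U : Subalgebra ℂ (H →L[ℂ] H)) (v : HH H) : CompleteSpace (cyc U v) :=
  (Submodule.isClosed_topologicalClosure _).completeSpace_coe

theorem proj_comm (U : Subalgebra ℂ (H →L[ℂ] H)) (v : HH H) {a : H →L[ℂ] H} (ha : a ∈ U)
    (ha' : star a ∈ U) (w : HH H) :
    (cyc U v).starProjection (amp a w) = amp a ((cyc U v).starProjection w) := by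
  refine Submodule.eq_starProjection_of_mem_of_inner_eq_zero
    (cyc_inv U v ha (Submodule.starProjection_apply_mem _ w)) (fun k hk => ?_)
  rw [← map_sub, amp_inner]
  exact Submodule.starProjection_inner_eq_zero _ _ (cyc_inv U v ha' hk)

theorem entry_comm (U : Subalgebra ℂ (H →L[ℂ] H)) (v : HH H) {a : H →L[ℂ] H} (ha : a ∈ U)
    (ha' : star a ∈ U) (i j : ℕ) :
    a * entry (cyc U v).starProjection i j = entry (cyc U v).starProjection i j * a := by
  ext h
  show a (entry (cyc U v).starProjection i j h) = entry (cyc U v).starProjection i j (a h)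
  rw [entry_apply, entry_apply, ← amp_single, proj_comm U v ha ha', amp_apply]

theorem comm_of_entry (p : HH H →L[ℂ] HH H) (x : H →L[ℂ] H)
    (h : ∀ i j, x * entry p i j = entry p i j * x) (w : HH H) :
    p (amp x w) = amp x (p w) := by
  have hs := lp.hasSum_single (p := 2) (by norm_num) w
  have h1 : HasSum (fun j => p (amp x (lp.single 2 j (w j)))) (p (amp x w)) :=
    (hs.mapL (amp x)).mapL p
  have h2 : HasSum (fun j => amp x (p (lp.single 2 j (w j)))) (amp x (p w)) :=
    (hs.mapL p).mapL (amp x)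
  have h3 : (fun j => p (amp x (lp.single 2 j (w j))))
      = (fun j => amp x (p (lp.single 2 j (w j)))) := by
    funext j
    ext i
    rw [amp_single, amp_apply, ← entry_apply, ← entry_apply]
    exact (congrArg (fun T : H →L[ℂ] H => T (w j)) (h i j)).symm
  rw [h3] at h1
  exact h1.unique h2

/-- every element of the bicommutant is approximated -/
theorem approx (U : Subalgebra ℂ (H →L[ℂ] H)) (hU : ∀ a ∈ U, star a ∈ U) (x : H →L[ℂ] H)
    (hx : ∀ c : H →L[ℂ] H, (∀ a ∈ U, a * c = c * a) → x * c = c * x) (v : HH H)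
    (ε : ℝ) (hε : 0 < ε) : ∃ b ∈ U, ‖amp (x - b) v‖ < ε := by
  have h1 : (cyc U v).starProjection (amp x v) = amp x ((cyc U v).starProjection v) :=
    comm_of_entry _ x (fun i j => hx _ (fun a ha => entry_comm U v ha (hU a ha) i j)) v
  have hv : v ∈ cyc U v := by
    have := mem_cyc U v U.one_mem
    have h0 : amp (1 : H →L[ℂ] H) v = v := by
      ext i
      rfl
    rwa [h0] at this
  rw [Submodule.starProjection_eq_self_iff.mpr hv] at h1
  have h2 : amp x v ∈ cyc U v := Submodule.starProjection_eq_self_iff.mp h1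
  have h3 : amp x v ∈ closure ((Submodule.map (ampV v) (Subalgebra.toSubmodule U) :
      Submodule ℂ (HH H)) : Set (HH H)) := h2
  obtain ⟨y, ⟨b, hb, rfl⟩, hy⟩ := Metric.mem_closure_iff.mp h3 ε hε
  refine ⟨b, hb, ?_⟩
  have h4 : amp (x - b) v = amp x v - amp b v := by
    ext i
    rfl
  rw [h4, ← dist_eq_norm]
  exact hy

end H_A_dense

open H_A_dense

theorem q_dense (h1 : A_normle.{u}) : A_dense.{u} := by
  intro H _ _ _ 𝓜 F g x hg hgN hgt ε hε
  obtain ⟨v, hv, hv'⟩ := h1 H 𝓜 g.op g.2 hg hgt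
  -- the union of the subalgebras
  let U : Subalgebra ℂ (H →L[ℂ] H) :=
    { carrier := ⋃ n, (F.N n : Set (H →L[ℂ] H))
      mul_mem' := by
        rintro a b ha hb
        obtain ⟨m, hm⟩ := Set.mem_iUnion.mp ha
        obtain ⟨n, hn⟩ := Set.mem_iUnion.mp hb
        exact Set.mem_iUnion.mpr ⟨max m n, mul_mem (F.mono m _ (le_max_left m n) hm)
          (F.mono n _ (le_max_right m n) hn)⟩
      add_mem' := by
        rintro a b ha hb
        obtain ⟨m, hm⟩ := Set.mem_iUnion.mp ha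
        obtain ⟨n, hn⟩ := Set.mem_iUnion.mp hb
        exact Set.mem_iUnion.mpr ⟨max m n, add_mem (F.mono m _ (le_max_left m n) hm)
          (F.mono n _ (le_max_right m n) hn)⟩
      algebraMap_mem' := fun r => Set.mem_iUnion.mpr ⟨0,
        (F.N 0).toStarSubalgebra.toSubalgebra.algebraMap_mem r⟩ }
  have hU : ∀ a ∈ U, star a ∈ U := by
    intro a ha
    obtain ⟨m, hm⟩ := Set.mem_iUnion.mp ha
    exact Set.mem_iUnion.mpr ⟨m, star_mem hm⟩
  -- the von Neumann algebra generated by the union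
  let V : VonNeumannAlgebra H :=
    { toStarSubalgebra := StarSubalgebra.centralizer ℂ
        (StarSubalgebra.centralizer ℂ (U : Set (H →L[ℂ] H)) : Set (H →L[ℂ] H))
      centralizer_centralizer' := by
        have e : (StarSubalgebra.centralizer ℂ
            (StarSubalgebra.centralizer ℂ (U : Set (H →L[ℂ] H)) : Set (H →L[ℂ] H))).carrier
            = ((U : Set (H →L[ℂ] H)) ∪ star (U : Set (H →L[ℂ] H))).centralizer.centralizer :=
          StarSubalgebra.coe_centralizer_centralizer ℂ _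
        rw [e, Set.centralizer_centralizer_centralizer] }
  have hV : ∀ y : H →L[ℂ] H, y ∈ V ↔ y ∈ StarSubalgebra.centralizer ℂ
        (StarSubalgebra.centralizer ℂ (U : Set (H →L[ℂ] H)) : Set (H →L[ℂ] H)) :=
    fun y => Iff.rfl
  have hNV : ∀ n, F.N n ≤ V := by
    intro n y hy
    rw [hV, StarSubalgebra.mem_centralizer_iff]
    intro c hc
    have hyU : y ∈ U := Set.mem_iUnion.mpr ⟨n, hy⟩
    have hc' := (StarSubalgebra.mem_centralizer_iff ℂ).mp hc y hyU
    have hc'' := (StarSubalgebra.mem_centralizer_iff ℂ).mp (star_mem hc) y hyU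
    exact ⟨hc'.1.symm, hc''.1.symm⟩
  have hMV : 𝓜.M ≤ V := F.gen V hNV
  have hxV : x.op ∈ V := hMV x.2
  have hx : ∀ c : H →L[ℂ] H, (∀ a ∈ U, a * c = c * a) → x.op * c = c * x.op := by
    intro c hc
    rw [hV, StarSubalgebra.mem_centralizer_iff] at hxV
    refine (hxV c ?_).1.symm
    show c ∈ StarSubalgebra.centralizer ℂ (U : Set (H →L[ℂ] H))
    rw [StarSubalgebra.mem_centralizer_iff]
    intro a ha
    exact ⟨hc a ha, hc (star a) (hU a ha)⟩
  -- the vector
  let w : HH H := ⟨v, by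
    refine memℓp_gen ?_
    simpa using hv⟩
  obtain ⟨b, hb, hbx⟩ := approx U hU x.op hx w (Real.sqrt ε) (Real.sqrt_pos.mpr hε)
  obtain ⟨n, hn⟩ := Set.mem_iUnion.mp hb
  refine ⟨n, Mc.mk b (F.le n hn), hn, ?_⟩
  have hop : (star ((x - Mc.mk b (F.le n hn)) * g) * ((x - Mc.mk b (F.le n hn)) * g)).op
      = star ((x.op - b) * g.op) * ((x.op - b) * g.op) := rfl
  rw [hop]
  refine lt_of_le_of_lt (hv' (x.op - b) (sub_mem x.2 (F.le n hn))) ?_
  have hsum : HasSum (fun i => ‖(amp (x.op - b) w) i‖ ^ (2 : ℝ≥0∞).toReal)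
      (‖amp (x.op - b) w‖ ^ (2 : ℝ≥0∞).toReal) := lp.hasSum_norm (by norm_num) _
  have hsum2 : HasSum (fun i => ‖(x.op - b) (v i)‖ ^ 2) (‖amp (x.op - b) w‖ ^ 2) := by
    have e2 : (2 : ℝ≥0∞).toReal = ((2 : ℕ) : ℝ) := by norm_num
    rw [e2] at hsum
    simp only [Real.rpow_natCast] at hsum
    exact hsum
  rw [← ENNReal.ofReal_tsum_of_nonneg (fun i => by positivity) hsum2.summable, hsum2.tsum_eq]
  refine (ENNReal.ofReal_lt_ofReal_iff hε).mpr ?_
  have h5 : ‖amp (x.op - b) w‖ ^ 2 < (Real.sqrt ε) ^ 2 :=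
    pow_lt_pow_left₀ hbx (norm_nonneg _) (by norm_num)
  rwa [Real.sq_sqrt hε.le] at h5

end MDB
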