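import Pool.Agent.MDB.Targets2

/-!
# Mixed Doob-Burkholder: the finite functional of a projection of finite trace
-/

open scoped ENNReal NNReal Topology

namespace MDB

universe u

open Mc

namespace H_A_fin

variable {H : Type u} [NormedAddCommGroup H] [InnerProductSpace ℂ H] [CompleteSpace H]

/-- the functional on positive elements -/
noncomputable def phi (𝓜 : TVN H) (g x : Mc 𝓜) : ℝ := (𝓜.tr (g * x * g).op).toReal

/-- the functional on self-adjoint elements -/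
noncomputable def tsa (𝓜 : TVN H) (g x : Mc 𝓜) : ℝ :=
  phi 𝓜 g (x + ((‖x.op‖ : ℝ) : ℂ) • (1 : Mc 𝓜)) - phi 𝓜 g (((‖x.op‖ : ℝ) : ℂ) • (1 : Mc 𝓜))

/-- monotonicity of the trace -/
def Mono (𝓜 : TVN H) : Prop :=
  ∀ x y, x ∈ 𝓜.M → y ∈ 𝓜.M → 0 ≤ x → x ≤ y → 𝓜.tr x ≤ 𝓜.tr y

variable {𝓜 : TVN H} {g : Mc 𝓜}

theorem op_mem (x : Mc 𝓜) : x.op ∈ 𝓜.M := x.2

theorem op_ext {x y : Mc 𝓜} (h : x.op = y.op) : x = y := Subtype.ext h

theorem conj_nonneg (hg : IsP g) {x : Mc 𝓜} (hx : 0 ≤ x.op) : 0 ≤ (g * x * g).op := by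
  have h1 := star_left_conjugate_nonneg hx g.op
  have h2 : star g.op = g.op := IsStarProjection.isSelfAdjoint hg |>.star_eq
  rw [h2] at h1
  exact h1

theorem smul_one_nonneg {c : ℝ} (hc : 0 ≤ c) : 0 ≤ ((c : ℂ) • (1 : Mc 𝓜)).op := by
  have h1 : ((c : ℂ) • (1 : Mc 𝓜)).op = algebraMap ℝ (H →L[ℂ] H) c := by
    change (c : ℂ) • (1 : H →L[ℂ] H) = algebraMap ℝ (H →L[ℂ] H) c
    rw [Algebra.algebraMap_eq_smul_one]
    ext v
    change (c : ℂ) • v = c • v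
    rw [Complex.coe_smul]
  rw [h1]
  exact algebraMap_nonneg _ hc

theorem tr_fin (hm : Mono 𝓜) (hg : IsP g) (hf : 𝓜.tr g.op < ⊤) {x : Mc 𝓜} (hx : 0 ≤ x.op) :
    𝓜.tr (g * x * g).op < ⊤ := by
  have hsa : IsSelfAdjoint x.op := IsSelfAdjoint.of_nonneg hx
  have h1 : x.op ≤ algebraMap ℝ (H →L[ℂ] H) ‖x.op‖ := hsa.le_algebraMap_norm_self
  have h2 := star_left_conjugate_le_conjugate h1 g.op
  have hgs : star g.op = g.op := IsStarProjection.isSelfAdjoint hg |>.star_eq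
  have hgi : g.op * g.op = g.op := IsStarProjection.isIdempotentElem hg
  have h3 : star g.op * algebraMap ℝ (H →L[ℂ] H) ‖x.op‖ * g.op =
      (((‖x.op‖₊ : ℝ≥0) : ℝ) : ℂ) • g.op := by
    rw [Algebra.algebraMap_eq_smul_one, mul_smul_comm, mul_one, smul_mul_assoc, hgs, hgi]
    ext v
    change (‖x.op‖ : ℝ) • (g.op v) = ((‖x.op‖ : ℝ) : ℂ) • (g.op v)
    rw [Complex.coe_smul]
  rw [h3, hgs] at h2
  have hgn : 0 ≤ g.op := by
    have := star_mul_self_nonneg g.op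
    rwa [hgs, hgi] at this
  have h4 := 𝓜.tr_smul ‖x.op‖₊ g.op g.2 hgn
  have hmem : (((‖x.op‖₊ : ℝ≥0) : ℝ) : ℂ) • g.op ∈ 𝓜.M := 𝓜.M.toStarSubalgebra.smul_mem g.2 _
  have h5 := hm (g * x * g).op _ (op_mem _) hmem (conj_nonneg hg hx) h2
  rw [h4] at h5
  exact h5.trans_lt (ENNReal.mul_lt_top ENNReal.coe_lt_top hf)

theorem phi_add (hm : Mono 𝓜) (hg : IsP g) (hf : 𝓜.tr g.op < ⊤) {x y : Mc 𝓜} (hx : 0 ≤ x.op)
    (hy : 0 ≤ y.op) : phi 𝓜 g (x + y) = phi 𝓜 g x + phi 𝓜 g y := by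
  have h1 : (g * (x + y) * g).op = (g * x * g).op + (g * y * g).op := by
    have : g * (x + y) * g = g * x * g + g * y * g := by rw [mul_add, add_mul]
    rw [this]
    rfl
  unfold phi
  rw [h1, 𝓜.tr_add _ _ (op_mem _) (op_mem _) (conj_nonneg hg hx) (conj_nonneg hg hy),
    ENNReal.toReal_add (tr_fin hm hg hf hx).ne (tr_fin hm hg hf hy).ne]

theorem phi_smul (hg : IsP g) {x : Mc 𝓜} (hx : 0 ≤ x.op) {c : ℝ} (hc : 0 ≤ c) :
    phi 𝓜 g ((c : ℂ) • x) = c * phi 𝓜 g x := by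
  have h1 : (g * ((c : ℂ) • x) * g).op = (((⟨c, hc⟩ : ℝ≥0) : ℝ) : ℂ) • (g * x * g).op := by
    have : g * ((c : ℂ) • x) * g = (c : ℂ) • (g * x * g) := by
      rw [mul_smul_comm, smul_mul_assoc]
    rw [this]
    rfl
  have h2 := 𝓜.tr_smul ⟨c, hc⟩ _ (op_mem _) (conj_nonneg hg hx)
  unfold phi
  rw [h1]
  refine (congrArg ENNReal.toReal h2).trans ?_
  rw [ENNReal.toReal_mul]
  rfl

theorem phi_zero (hm : Mono 𝓜) (hg : IsP g) (hf : 𝓜.tr g.op < ⊤) : phi 𝓜 g 0 = 0 := by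
  have h0 : 0 ≤ (0 : Mc 𝓜).op := le_rfl
  have h1 := phi_add hm hg hf h0 h0
  rw [add_zero] at h1
  linarith

theorem add_nonneg' {x y : Mc 𝓜} (hx : 0 ≤ x.op) (hy : 0 ≤ y.op) : 0 ≤ (x + y).op :=
  add_nonneg hx hy

theorem shift_nonneg {x : Mc 𝓜} (hx : star x = x) :
    0 ≤ (x + ((‖x.op‖ : ℝ) : ℂ) • (1 : Mc 𝓜)).op := by
  have hsa : IsSelfAdjoint x.op := congrArg Mc.op hx
  have h1 : -x.op ≤ algebraMap ℝ (H →L[ℂ] H) ‖-x.op‖ :=
    (IsSelfAdjoint.neg hsa).le_algebraMap_norm_self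
  rw [norm_neg] at h1
  have h2 : (((‖x.op‖ : ℝ) : ℂ) • (1 : Mc 𝓜)).op = algebraMap ℝ (H →L[ℂ] H) ‖x.op‖ := by
    change ((‖x.op‖ : ℝ) : ℂ) • (1 : H →L[ℂ] H) = algebraMap ℝ (H →L[ℂ] H) ‖x.op‖
    rw [Algebra.algebraMap_eq_smul_one]
    ext v
    change ((‖x.op‖ : ℝ) : ℂ) • v = ‖x.op‖ • v
    rw [Complex.coe_smul]
  have h3 : (x + ((‖x.op‖ : ℝ) : ℂ) • (1 : Mc 𝓜)).op =
      x.op + (((‖x.op‖ : ℝ) : ℂ) • (1 : Mc 𝓜)).op := rfl
  rw [h3, h2]
  have h4 := add_le_add_right h1 x.op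
  rw [add_neg_cancel] at h4
  exact h4

theorem tsa_eq (hm : Mono 𝓜) (hg : IsP g) (hf : 𝓜.tr g.op < ⊤) {x a b : Mc 𝓜}
    (hx : star x = x) (ha : 0 ≤ a.op) (hb : 0 ≤ b.op) (h : x + a = b) :
    tsa 𝓜 g x = phi 𝓜 g b - phi 𝓜 g a := by
  unfold tsa
  have hn : 0 ≤ (((‖x.op‖ : ℝ) : ℂ) • (1 : Mc 𝓜)).op := smul_one_nonneg (norm_nonneg _)
  have hs := shift_nonneg hx
  have h1 := phi_add hm hg hf hs ha
  have h2 := phi_add hm hg hf hb hn
  have h3 : x + ((‖x.op‖ : ℝ) : ℂ) • (1 : Mc 𝓜) + a = b + ((‖x.op‖ : ℝ) : ℂ) • (1 : Mc 𝓜) := by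
    rw [← h]; abel
  rw [h3] at h1
  linarith

theorem tsa_add (hm : Mono 𝓜) (hg : IsP g) (hf : 𝓜.tr g.op < ⊤) {x y : Mc 𝓜}
    (hx : star x = x) (hy : star y = y) : tsa 𝓜 g (x + y) = tsa 𝓜 g x + tsa 𝓜 g y := by
  have hnx : 0 ≤ (((‖x.op‖ : ℝ) : ℂ) • (1 : Mc 𝓜)).op := smul_one_nonneg (norm_nonneg _)
  have hny : 0 ≤ (((‖y.op‖ : ℝ) : ℂ) • (1 : Mc 𝓜)).op := smul_one_nonneg (norm_nonneg _)
  have hsx := shift_nonneg hx
  have hsy := shift_nonneg hy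
  have hxy : star (x + y) = x + y := by rw [star_add, hx, hy]
  rw [tsa_eq hm hg hf hxy (add_nonneg' hnx hny) (add_nonneg' hsx hsy) (by abel),
    phi_add hm hg hf hnx hny, phi_add hm hg hf hsx hsy]
  unfold tsa
  ring

theorem star_rsmul (c : ℝ) (x : Mc 𝓜) : star ((c : ℂ) • x) = (c : ℂ) • star x := by
  rw [star_smul]
  congr 1
  exact Complex.conj_ofReal c

theorem rsmul_nonneg {x : Mc 𝓜} (hx : 0 ≤ x.op) {c : ℝ} (hc : 0 ≤ c) :
    0 ≤ ((c : ℂ) • x).op := by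
  have h1 : ((c : ℂ) • x).op = c • x.op := by
    ext v
    change (c : ℂ) • (x.op v) = c • (x.op v)
    rw [Complex.coe_smul]
  rw [h1]
  exact smul_nonneg hc hx

theorem tsa_neg (hm : Mono 𝓜) (hg : IsP g) (hf : 𝓜.tr g.op < ⊤) {x : Mc 𝓜}
    (hx : star x = x) : tsa 𝓜 g (-x) = -tsa 𝓜 g x := by
  have hn : 0 ≤ (((‖x.op‖ : ℝ) : ℂ) • (1 : Mc 𝓜)).op := smul_one_nonneg (norm_nonneg _)
  have hs := shift_nonneg hx
  have hxn : star (-x) = -x := by rw [star_neg, hx]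
  rw [tsa_eq hm hg hf hxn hs hn (by abel)]
  unfold tsa
  ring

theorem tsa_smul_nonneg (hm : Mono 𝓜) (hg : IsP g) (hf : 𝓜.tr g.op < ⊤) {x : Mc 𝓜}
    (hx : star x = x) {c : ℝ} (hc : 0 ≤ c) : tsa 𝓜 g ((c : ℂ) • x) = c * tsa 𝓜 g x := by
  have hn : 0 ≤ (((‖x.op‖ : ℝ) : ℂ) • (1 : Mc 𝓜)).op := smul_one_nonneg (norm_nonneg _)
  have hs := shift_nonneg hx
  have hxc : star ((c : ℂ) • x) = (c : ℂ) • x := by rw [star_rsmul, hx]
  rw [tsa_eq hm hg hf hxc (rsmul_nonneg hn hc) (rsmul_nonneg hs hc) (smul_add _ _ _).symm,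
    phi_smul hg hn hc, phi_smul hg hs hc]
  unfold tsa
  ring

theorem tsa_smul (hm : Mono 𝓜) (hg : IsP g) (hf : 𝓜.tr g.op < ⊤) {x : Mc 𝓜}
    (hx : star x = x) (c : ℝ) : tsa 𝓜 g ((c : ℂ) • x) = c * tsa 𝓜 g x := by
  rcases le_total 0 c with hc | hc
  · exact tsa_smul_nonneg hm hg hf hx hc
  · have h1 : (c : ℂ) • x = -(((-c : ℝ) : ℂ) • x) := by
      rw [Complex.ofReal_neg, neg_smul, neg_neg]
    have hxc : star (((-c : ℝ) : ℂ) • x) = ((-c : ℝ) : ℂ) • x := by rw [star_rsmul, hx]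
    rw [h1, tsa_neg hm hg hf hxc, tsa_smul_nonneg hm hg hf hx (by linarith : 0 ≤ -c)]
    ring

theorem real_smul_eq (c : ℝ) (x : Mc 𝓜) : c • x = (c : ℂ) • x := by
  exact (Complex.coe_smul c x).symm

theorem sa_add_star (x : Mc 𝓜) : star (x + star x) = x + star x := by
  rw [star_add, star_star, add_comm]

/-- the functional -/
noncomputable def tf (hm : Mono 𝓜) (hg : IsP g) (hf : 𝓜.tr g.op < ⊤) : Mc 𝓜 →ₗ[ℝ] ℝ where
  toFun x := tsa 𝓜 g (x + star x) / 2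
  map_add' x y := by
    have h1 : x + y + star (x + y) = (x + star x) + (y + star y) := by
      rw [star_add]; abel
    rw [h1, tsa_add hm hg hf (sa_add_star x) (sa_add_star y)]
    ring
  map_smul' c x := by
    have h1 : c • x + star (c • x) = (c : ℂ) • (x + star x) := by
      rw [real_smul_eq, star_rsmul, smul_add]
    rw [h1, tsa_smul hm hg hf (sa_add_star x)]
    simp only [RingHom.id_apply, smul_eq_mul]
    ring

theorem tf_pos (hm : Mono 𝓜) (hg : IsP g) (hf : 𝓜.tr g.op < ⊤) {x : Mc 𝓜} (hx : 0 ≤ x.op) :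
    tf hm hg hf x = phi 𝓜 g x := by
  have hs : star x = x := op_ext (IsSelfAdjoint.of_nonneg hx).star_eq
  change tsa 𝓜 g (x + star x) / 2 = phi 𝓜 g x
  have h0 : 0 ≤ (0 : Mc 𝓜).op := le_rfl
  have h1 := tsa_eq hm hg hf (sa_add_star x) h0 (add_nonneg' hx hx) (by rw [add_zero, hs])
  rw [h1, phi_add hm hg hf hx hx, phi_zero hm hg hf]
  ring

theorem tf_star (hm : Mono 𝓜) (hg : IsP g) (hf : 𝓜.tr g.op < ⊤) (x : Mc 𝓜) :
    tf hm hg hf (star x) = tf hm hg hf x := by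
  change tsa 𝓜 g (star x + star (star x)) / 2 = tsa 𝓜 g (x + star x) / 2
  rw [star_star, add_comm]

theorem star_comm (hg : IsP g) {x : Mc 𝓜} (hx : g * x = x * g) : g * star x = star x * g := by
  have hgs : star g = g := op_ext (IsStarProjection.isSelfAdjoint hg).star_eq
  have h1 := congrArg star hx
  rw [star_mul, star_mul, hgs] at h1
  exact h1.symm

theorem tf_sq (hm : Mono 𝓜) (hg : IsP g) (hf : 𝓜.tr g.op < ⊤) {x : Mc 𝓜} (hx : g * x = x * g) :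
    tf hm hg hf (star x * x) = tf hm hg hf (x * star x) := by
  have hgs : star g = g := op_ext (IsStarProjection.isSelfAdjoint hg).star_eq
  have hgi : g * g = g := op_ext (IsStarProjection.isIdempotentElem hg)
  have hx' := star_comm hg hx
  have p1 : 0 ≤ (star x * x).op := star_mul_self_nonneg x.op
  have p2 : 0 ≤ (x * star x).op := mul_star_self_nonneg x.op
  rw [tf_pos hm hg hf p1, tf_pos hm hg hf p2]
  unfold phi
  have e1 : g * (star x * x) * g = star (x * g) * (x * g) := by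
    rw [star_mul, hgs]; simp only [mul_assoc]
  have e2 : g * (x * star x) * g = (x * g) * star (x * g) := by
    rw [star_mul, hgs]
    calc g * (x * star x) * g = (g * x) * (star x * g) := by simp only [mul_assoc]
      _ = (x * g) * (g * star x) := by rw [hx, hx']
  rw [e1, e2]
  have := 𝓜.tr_star (x * g).op (op_mem _)
  congr 1

theorem tf_comm (hm : Mono 𝓜) (hg : IsP g) (hf : 𝓜.tr g.op < ⊤) {x y : Mc 𝓜}
    (hx : g * x = x * g) (hy : g * y = y * g) : tf hm hg hf (x * y) = tf hm hg hf (y * x) := by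
  set t := tf hm hg hf with ht
  have hx' := star_comm hg hx
  have hxy : g * (star x + y) = (star x + y) * g := by rw [mul_add, add_mul, hx', hy]
  have h1 := tf_sq hm hg hf hxy
  have h2 := tf_sq hm hg hf hx'
  have h3 := tf_sq hm hg hf hy
  rw [← ht] at h1 h2 h3
  rw [star_add, star_star] at h1
  rw [star_star] at h2
  have e1 : (x + star y) * (star x + y) = x * star x + x * y + star y * star x + star y * y := by
    rw [add_mul, mul_add, mul_add]; abel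
  have e2 : (star x + y) * (x + star y) = star x * x + star x * star y + y * x + y * star y := by
    rw [add_mul, mul_add, mul_add]; abel
  rw [e1, e2] at h1
  simp only [map_add] at h1
  have h4 : t (star y * star x) = t (x * y) := by
    rw [← star_mul]; exact tf_star hm hg hf _
  have h5 : t (star x * star y) = t (y * x) := by
    rw [← star_mul]; exact tf_star hm hg hf _
  rw [h4, h5] at h1
  linarith

end H_A_fin

open H_A_fin

theorem q_fin (h1 : A_tr.{u}) (_ : A_cfc.{u}) : A_fin.{u} := by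
  intro H _ _ _ 𝓜 g hg hf
  have hm : Mono 𝓜 := (h1 H 𝓜).2.1
  refine ⟨tf hm hg hf, fun x hx => ⟨tf_pos hm hg hf hx, tr_fin hm hg hf hx⟩,
    fun x => tf_star hm hg hf x, fun x y hx hy => tf_comm hm hg hf hx hy⟩

end MDB
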