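import Pool.Agent.MDB.Defs

/-!
# Exact targets of part I (the tracial core).  Each `T_xxx` is a statement to be proved as
`theorem p_xxx ... : T_xxx` in `Pool/Agent/MDB/xxx.lean`.
-/

open Finset

namespace MDB

universe u

/-- Two-variable positivity. -/
def T_two : Prop :=
  ∀ (A : Type u) [CStarAlgebra A] [PartialOrder A] [StarOrderedRing A] (T : TrFun A)
    (ι : Type) (S : Finset ι) (f g : ι → ℝ → ℝ) (a b : A) (α β α' β' : ℝ),
    IsSelfAdjoint a → IsSelfAdjoint b →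
    spectrum ℝ a ⊆ Set.Icc α β → spectrum ℝ b ⊆ Set.Icc α' β' →
    (∀ i ∈ S, ContinuousOn (f i) (Set.Icc α β)) →
    (∀ i ∈ S, ContinuousOn (g i) (Set.Icc α' β')) →
    (∀ s ∈ Set.Icc α β, ∀ t ∈ Set.Icc α' β', 0 ≤ ∑ i ∈ S, f i s * g i t) →
    0 ≤ ∑ i ∈ S, T.t (cfc (f i) a * cfc (g i) b)

/-- Klein's inequality. -/
def T_klein : Prop :=
  ∀ (A : Type u) [CStarAlgebra A] [PartialOrder A] [StarOrderedRing A] (T : TrFun A)
    (f f' : ℝ → ℝ) (a b : A) (α β : ℝ),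
    IsSelfAdjoint a → IsSelfAdjoint b →
    spectrum ℝ a ⊆ Set.Icc α β → spectrum ℝ b ⊆ Set.Icc α β →
    ContinuousOn f (Set.Icc α β) → ContinuousOn f' (Set.Icc α β) →
    (∀ s ∈ Set.Icc α β, ∀ t ∈ Set.Icc α β, (s - t) * f' t ≤ f s - f t) →
    T.t ((a - b) * cfc f' b) ≤ T.t (cfc f a) - T.t (cfc f b)

/-- Young type trace inequality for two positive elements. -/
def T_young : Prop :=
  ∀ (A : Type u) [CStarAlgebra A] [PartialOrder A] [StarOrderedRing A] (T : TrFun A)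
    (f g φ ψ : ℝ → ℝ) (a b : A), 0 ≤ a → 0 ≤ b →
    ContinuousOn f (Set.Ici 0) → ContinuousOn g (Set.Ici 0) →
    ContinuousOn φ (Set.Ici 0) → ContinuousOn ψ (Set.Ici 0) →
    (∀ s, 0 ≤ s → ∀ t, 0 ≤ t → f s * g t ≤ φ s + ψ t) →
    T.t (cfc f a * cfc g b) ≤ T.t (cfc φ a) + T.t (cfc ψ b)

/-- Monotonicity of the trace of powers. -/
def T_mono : Prop :=
  ∀ (A : Type u) [CStarAlgebra A] [PartialOrder A] [StarOrderedRing A] (T : TrFun A)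
    (r : ℝ) (a b : A), 0 < r → 0 ≤ a → a ≤ b → T.pw r a ≤ T.pw r b

/-- Monotonicity of the trace of convex increasing functions. -/
def T_monoC : Prop :=
  ∀ (A : Type u) [CStarAlgebra A] [PartialOrder A] [StarOrderedRing A] (T : TrFun A)
    (f f' : ℝ → ℝ) (a b : A), IsSelfAdjoint a → IsSelfAdjoint b → a ≤ b →
    Continuous f → Continuous f' → (∀ t, 0 ≤ f' t) →
    (∀ s t, (s - t) * f' t ≤ f s - f t) → T.t (cfc f a) ≤ T.t (cfc f b)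

/-- Quasi-subadditivity of the trace of powers. -/
def T_qs : Prop :=
  ∀ r : ℝ, 0 < r → ∃ K : ℝ, 0 < K ∧
  ∀ (A : Type u) [CStarAlgebra A] [PartialOrder A] [StarOrderedRing A] (T : TrFun A)
    (a b : A), 0 ≤ a → 0 ≤ b → T.pw r (a + b) ≤ K * (T.pw r a + T.pw r b)

/-- Facts about `nrm`. -/
def T_nrm : Prop :=
  ∀ p : ℝ, 0 < p → ∃ K : ℝ, 0 < K ∧
  ∀ (A : Type u) [CStarAlgebra A] [PartialOrder A] [StarOrderedRing A] (T : TrFun A),
    (∀ x y : A, T.nrm p (x + y) ≤ K * (T.nrm p x + T.nrm p y)) ∧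
    (∀ x : A, 0 ≤ T.nrm p x) ∧
    (∀ x : A, T.nrm p (star x) = T.nrm p x) ∧
    (∀ x : A, T.nrm p (-x) = T.nrm p x) ∧
    (∀ c x : A, ‖c‖ ≤ 1 → T.nrm p (c * x) ≤ T.nrm p x) ∧
    (∀ c x : A, ‖c‖ ≤ 1 → T.nrm p (x * c) ≤ T.nrm p x) ∧
    (∀ x : A, IsSelfAdjoint x → T.nrm p x = T.t (cfc (fun s : ℝ => |s| ^ p) x))

/-- Continuous functional calculus stays in the subalgebras. -/
def T_Ecfc : Prop :=
  ∀ (A : Type u) [CStarAlgebra A] [PartialOrder A] [StarOrderedRing A] (T : TrFun A)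
    (F : Filt T) (n : ℕ) (a : A) (f : ℝ → ℝ), IsSelfAdjoint a → F.E n a = a →
    ContinuousOn f (spectrum ℝ a) → F.E n (cfc f a) = cfc f a

/-- Hoelder inequality for row times column, exponents powers of two. -/
def T_hold : Prop :=
  ∀ (A : Type u) [CStarAlgebra A] [PartialOrder A] [StarOrderedRing A] (T : TrFun A)
    (j N : ℕ) (X Y : ℕ → A),
    (T.t ((star (∑ n ∈ range N, star (X n) * Y n) * (∑ n ∈ range N, star (X n) * Y n))
        ^ (2 ^ j))) ^ 2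
      ≤ T.t ((∑ n ∈ range N, star (X n) * X n) ^ (2 ^ (j + 1)))
        * T.t ((∑ n ∈ range N, star (Y n) * Y n) ^ (2 ^ (j + 1)))

/-- Triangular truncation, exponents powers of two. -/
def T_T1 : Prop :=
  ∀ j : ℕ, ∃ K : ℝ, 0 < K ∧
  ∀ (A : Type u) [CStarAlgebra A] [PartialOrder A] [StarOrderedRing A] (T : TrFun A)
    (N : ℕ) (f Y : ℕ → A), (∀ n, IsStarProjection (f n)) →
    (∀ m n, m ≤ n → f n * f m = f m) →
    T.t ((∑ n ∈ range N, f n * (star (Y n) * Y n) * f n) ^ (2 ^ j))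
      ≤ K * T.t ((∑ n ∈ range N, star (Y n) * Y n) ^ (2 ^ j))

/-- Triangular truncation, dual exponents. -/
def T_T1d : Prop :=
  ∀ j : ℕ, ∃ K : ℝ, 0 < K ∧
  ∀ (A : Type u) [CStarAlgebra A] [PartialOrder A] [StarOrderedRing A] (T : TrFun A)
    (N : ℕ) (f Y : ℕ → A), (∀ n, IsStarProjection (f n)) →
    (∀ m n, m ≤ n → f n * f m = f m) →
    T.pw (pj j / 2) (∑ n ∈ range N, f n * (star (Y n) * Y n) * f n)
      ≤ K * T.pw (pj j / 2) (∑ n ∈ range N, star (Y n) * Y n)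

/-- The conditioned square function controls the martingale for `1 < p ≤ 2`. -/
def T_I1 : Prop :=
  ∀ (p : ℝ), 1 < p → p ≤ 2 →
  ∀ (A : Type u) [CStarAlgebra A] [PartialOrder A] [StarOrderedRing A] (T : TrFun A)
    (F : Filt T) (N : ℕ) (d : ℕ → A),
    (∀ n, n < N → F.E (n + 1) (d n) = d n) → (∀ n, n < N → F.E n (d n) = 0) →
    T.nrm p (∑ n ∈ range N, d n)
      ≤ 3 / 2 * T.pw (p / 2) (∑ n ∈ range N, F.E n (star (d n) * d n))

/-- Existence of Cuculescu projections. -/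
def T_cuc : Prop :=
  ∀ (A : Type u) [CStarAlgebra A] [PartialOrder A] [StarOrderedRing A] (T : TrFun A)
    (F : Filt T), HasSP F → ∀ (N : ℕ) (d : ℕ → A) (lam : ℝ), 0 < lam →
    (∀ n, n < N → IsSelfAdjoint (d n)) →
    (∀ n, n < N → F.E (n + 1) (d n) = d n) → Nonempty (Cuc F N d lam)

/-- Decomposition of the martingale by its Cuculescu projections. -/
def T_dec : Prop :=
  ∀ (A : Type u) [CStarAlgebra A] [PartialOrder A] [StarOrderedRing A] (T : TrFun A)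
    (F : Filt T) (N : ℕ) (d : ℕ → A) (lam : ℝ), 0 < lam →
    (∀ n, n < N → IsSelfAdjoint (d n)) →
    (∀ n, n < N → F.E (n + 1) (d n) = d n) → (∀ n, n < N → F.E n (d n) = 0) →
    ∀ c : Cuc F N d lam, ∃ V : A, IsSelfAdjoint V ∧ V ≤ lam • (1 : A) ∧ -(lam • (1 : A)) ≤ V ∧
      ps d N = V + ∑ n ∈ range N, (c.P n + c.Q n) * d n * (c.P n + c.Q n)
        + ∑ n ∈ range N, ((1 - c.R n) * d n + c.R n * d n * (1 - c.R n))

/-- Weak type estimate for the Cuculescu projections. -/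
def T_weak : Prop :=
  ∀ (A : Type u) [CStarAlgebra A] [PartialOrder A] [StarOrderedRing A] (T : TrFun A)
    (F : Filt T) (N : ℕ) (d : ℕ → A) (lam : ℝ), 0 < lam →
    (∀ n, n < N → IsSelfAdjoint (d n)) →
    (∀ n, n < N → F.E (n + 1) (d n) = d n) → (∀ n, n < N → F.E n (d n) = 0) →
    ∀ c : Cuc F N d lam,
      lam * T.t (1 - c.R N) ≤ 2 * T.t (cfc (fun s : ℝ => max (|s| - lam / 2) 0) (ps d N))

/-- The jump part. -/
def T_jump : Prop :=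
  ∀ (p q : ℝ), 1 < p → p < q → ∀ ε : ℝ, 0 < ε → ∃ K : ℝ, 0 < K ∧
  ∀ (A : Type u) [CStarAlgebra A] [PartialOrder A] [StarOrderedRing A] (T : TrFun A)
    (F : Filt T) (N : ℕ) (φ a : ℕ → A) (A0 : A) (lam : ℝ), 0 < lam →
    (∀ n, IsStarProjection (φ n)) → (∀ m n, m ≠ n → φ m * φ n = 0) →
    (∀ n, F.E (n + 1) (φ n) = φ n) → 0 ≤ A0 →
    (∀ n, n < N → IsSelfAdjoint (a n)) → (∀ n, n < N → F.E (n + 1) (a n) = a n) →
    (∀ n, n < N → a n ≤ F.E (n + 1) A0) → (∀ n, n < N → -(F.E (n + 1) A0) ≤ a n) →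
    T.nrm p (∑ n ∈ range N, φ n * a n * φ n)
      ≤ ε * lam ^ p * T.t (∑ n ∈ range N, φ n)
        + K * (lam ^ (p - q) * T.t (cfc (fun s : ℝ => (min s lam) ^ q) A0)
          + T.t (cfc (fun s : ℝ => (max (s - lam) 0) ^ p) A0))

/-- The part after stopping. -/
def T_after : Prop :=
  ∀ (j : ℕ), 1 ≤ j → ∀ ε : ℝ, 0 < ε → ∃ K : ℝ, 0 < K ∧
  ∀ (A : Type u) [CStarAlgebra A] [PartialOrder A] [StarOrderedRing A] (T : TrFun A)
    (F : Filt T) (N : ℕ) (f z : ℕ → A) (lam : ℝ), 0 < lam →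
    (∀ n, IsStarProjection (f n)) → (∀ m n, m ≤ n → f n * f m = f m) →
    (∀ n, F.E n (f n) = f n) →
    (∀ n, n < N → F.E (n + 1) (z n) = z n) → (∀ n, n < N → F.E n (z n) = 0) →
    T.nrm (pj j) (∑ n ∈ range N, (f n * star (z n) + (1 - f n) * z n * f n))
      ≤ ε * lam ^ (pj j) * T.t (f N)
        + K * (lam ^ (pj j - qj j) * T.t (cfc (fun s : ℝ => (min (Real.sqrt s) lam) ^ (qj j))
              (∑ n ∈ range N, F.E n (star (z n) * z n)))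
          + T.t (cfc (fun s : ℝ => (max (Real.sqrt s - lam) 0) ^ (pj j))
              (∑ n ∈ range N, F.E n (star (z n) * z n))))

/-- The estimate at one level, in robust form. -/
def T_level : Prop :=
  ∀ (j : ℕ), 1 ≤ j → ∀ ε : ℝ, 0 < ε → ∃ K : ℝ, 0 < K ∧ ∀ N : ℕ, ∃ K' : ℝ, 0 < K' ∧
  ∀ (A : Type u) [CStarAlgebra A] [PartialOrder A] [StarOrderedRing A] (T : TrFun A)
    (F : Filt T), HasSP F → ∀ (d z a : ℕ → A) (A0 : A) (lam : ℝ), 0 < lam →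
    (∀ n, n < N → IsSelfAdjoint (d n)) →
    (∀ n, n < N → F.E (n + 1) (d n) = d n) → (∀ n, n < N → F.E n (d n) = 0) →
    (∀ n, n < N → F.E (n + 1) (z n) = z n) → (∀ n, n < N → F.E n (z n) = 0) →
    0 ≤ A0 →
    (∀ n, n < N → IsSelfAdjoint (a n)) → (∀ n, n < N → F.E (n + 1) (a n) = a n) →
    (∀ n, n < N → a n ≤ F.E (n + 1) A0) → (∀ n, n < N → -(F.E (n + 1) A0) ≤ a n) →
    T.t (cfc (fun s : ℝ => (max (|s| - lam) 0) ^ (pj j)) (ps d N))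
      ≤ ε * lam ^ (pj j - 1) * T.t (cfc (fun s : ℝ => max (|s| - lam / 2) 0) (ps d N))
        + K * (lam ^ (pj j - qj j) * T.t (cfc (fun s : ℝ => (min s lam) ^ (qj j)) A0)
          + T.t (cfc (fun s : ℝ => (max (s - lam) 0) ^ (pj j)) A0)
          + lam ^ (pj j - qj j) * T.t (cfc (fun s : ℝ => (min (Real.sqrt s) lam) ^ (qj j))
              (∑ n ∈ range N, F.E n (star (z n) * z n)))
          + T.t (cfc (fun s : ℝ => (max (Real.sqrt s - lam) 0) ^ (pj j))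
              (∑ n ∈ range N, F.E n (star (z n) * z n))))
        + K' * ∑ n ∈ range N, (T.nrm (pj j) (d n - z n) + T.nrm (pj j) (d n - a n))

/-- Scalar facts about the dyadic sums. -/
def T_scal : Prop :=
  ∀ (Phi : ℝ → ℝ) (p1 q1 C0 p q : ℝ), Gr Phi p1 q1 C0 → 1 < p → p < p1 → q1 < q → 0 < q →
    ∃ C : ℝ, 0 < C ∧
      (∀ (J : ℕ) (t : ℝ), 0 ≤ t →
        ∑ i ∈ Finset.Icc (-(J : ℤ)) (J : ℤ),
          Phi ((2 : ℝ) ^ i) * ((2 : ℝ) ^ i) ^ (-q) * (min t ((2 : ℝ) ^ i)) ^ q ≤ C * Phi t) ∧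
      (∀ (J : ℕ) (t : ℝ), 0 ≤ t → PJ Phi p J t ≤ C * Phi t) ∧
      (∀ (J : ℕ) (t : ℝ), 0 ≤ t →
        ∑ i ∈ Finset.Icc (-(J : ℤ)) (J : ℤ),
          Phi ((2 : ℝ) ^ i) * ((2 : ℝ) ^ i) ^ (-1 : ℝ) * max (t - (2 : ℝ) ^ i / 2) 0
          ≤ C * PJ Phi p J t + C * Phi ((2 : ℝ) ^ (-(J : ℤ)))) ∧
      (∀ t : ℝ, 0 < t → ∃ J0 : ℕ, ∀ J : ℕ, J0 ≤ J → Phi t ≤ C * PJ Phi p J t)

/-- The core inequality, robust form. -/
def T_core : Prop :=
  ∀ (Phi : ℝ → ℝ) (p1 q1 C0 : ℝ), Gr Phi p1 q1 C0 → 1 < p1 →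
  ∃ p : ℝ, 1 < p ∧ p ≤ 2 ∧ p < p1 ∧ ∃ C : ℝ, 0 < C ∧
    (∀ t : ℝ, 0 < t → ∃ J0 : ℕ, ∀ J : ℕ, J0 ≤ J → Phi t ≤ C * PJ Phi p J t) ∧
    (∀ (J : ℕ) (t : ℝ), 0 ≤ t → PJ Phi p J t ≤ C * Phi t) ∧
    ∀ J N : ℕ, ∃ K : ℝ, 0 < K ∧
  ∀ (A : Type u) [CStarAlgebra A] [PartialOrder A] [StarOrderedRing A] (T : TrFun A)
    (F : Filt T), HasSP F → ∀ (d z a : ℕ → A) (A0 : A),
    (∀ n, n < N → IsSelfAdjoint (d n)) →
    (∀ n, n < N → F.E (n + 1) (d n) = d n) → (∀ n, n < N → F.E n (d n) = 0) →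
    (∀ n, n < N → F.E (n + 1) (z n) = z n) → (∀ n, n < N → F.E n (z n) = 0) →
    0 ≤ A0 →
    (∀ n, n < N → IsSelfAdjoint (a n)) → (∀ n, n < N → F.E (n + 1) (a n) = a n) →
    (∀ n, n < N → a n ≤ F.E (n + 1) A0) → (∀ n, n < N → -(F.E (n + 1) A0) ≤ a n) →
    T.t (cfc (fun s : ℝ => PJ Phi p J |s|) (ps d N))
      ≤ C * (T.t (cfc Phi A0)
          + T.t (cfc (fun s : ℝ => Phi (Real.sqrt s)) (∑ n ∈ range N, F.E n (star (z n) * z n))))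
        + C * Phi ((2 : ℝ) ^ (-(J : ℤ))) * T.t 1
        + K * ∑ n ∈ range N, (T.nrm p (d n - z n) + T.nrm p (d n - a n))

end MDB
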