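import Pool.Agent.MDB.Targets2
import Pool.Agent.MDB.Targets

open scoped ENNReal NNReal Topology
open Finset

namespace MDB

universe u

namespace H_A_meet

variable {H : Type u} [NormedAddCommGroup H] [InnerProductSpace ℂ H] [CompleteSpace H]

/-- the intersection of two projections -/
theorem meet2 (h1 : A_rp.{u}) (h2 : A_rptr.{u}) (h3 : A_tr.{u}) (𝓜 : TVN H)
    (e f : H →L[ℂ] H) (he : e ∈ 𝓜.M) (hf : f ∈ 𝓜.M) (pe : IsStarProjection e)
    (pf : IsStarProjection f) :
    ∃ h : H →L[ℂ] H, h ∈ 𝓜.M ∧ IsStarProjection h ∧ e * h = h ∧ f * h = h ∧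
      𝓜.tr (1 - h) ≤ 𝓜.tr (1 - e) + 𝓜.tr (1 - f) := by
  have hfe : f * (1 - e) ∈ 𝓜.M := mul_mem hf (sub_mem (one_mem _) he)
  obtain ⟨r1, r2, r3, r4⟩ := h1 H (f * (1 - e))
  set r := rp (f * (1 - e)) with hr
  have rM : r ∈ 𝓜.M := r4 _ hfe
  have ff : f * f = f := pf.isIdempotentElem
  have ee : e * e = e := pe.isIdempotentElem
  have fr : f * r = r := by
    have h := r3 (1 - f) (by rw [← mul_assoc, sub_mul, one_mul, ff, sub_self, zero_mul])
    rw [sub_mul, one_mul, sub_eq_zero] at h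
    exact h.symm
  have rf : r * f = r := by
    have h := congrArg star fr
    rwa [star_mul, r1.isSelfAdjoint.star_eq, pf.isSelfAdjoint.star_eq] at h
  have ph : IsStarProjection (f - r) := IsStarProjection.sub_of_mul_eq_left r1 pf rf
  have key : (f - r) * (1 - e) = 0 := by
    have h : r * (1 - e) = f * (1 - e) := by
      rw [← mul_assoc, rf] at r2; exact r2
    rw [sub_mul, h, sub_self]
  have key2 : (1 - e) * (f - r) = 0 := by
    have h := congrArg star key
    rwa [star_mul, star_zero, ph.isSelfAdjoint.star_eq, star_sub, star_one,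
      pe.isSelfAdjoint.star_eq] at h
  refine ⟨f - r, sub_mem hf rM, ph, ?_, ?_, ?_⟩
  · rw [sub_mul, one_mul, sub_eq_zero] at key2
    exact key2.symm
  · rw [mul_sub, ff, fr]
  · have e1 : (1 : H →L[ℂ] H) - (f - r) = (1 - f) + r := by abel
    have m1 : (1 : H →L[ℂ] H) - f ∈ 𝓜.M := sub_mem (one_mem _) hf
    have m2 : (1 : H →L[ℂ] H) - e ∈ 𝓜.M := sub_mem (one_mem _) he
    rw [e1, 𝓜.tr_add _ _ m1 rM pf.one_sub.nonneg r1.nonneg, add_comm]
    refine add_le_add ?_ le_rfl
    have e2 : star (f * (1 - e)) = (1 - e) * f := by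
      rw [star_mul, star_sub, star_one, pe.isSelfAdjoint.star_eq, pf.isSelfAdjoint.star_eq]
    rw [hr, h2 H 𝓜 _ hfe, e2]
    obtain ⟨s1, s2, s3, s4⟩ := h1 H ((1 - e) * f)
    have es : e * rp ((1 - e) * f) = 0 := by
      refine s3 e ?_
      rw [← mul_assoc, mul_sub, mul_one, ee, sub_self, zero_mul]
    obtain ⟨-, t2, -⟩ := h3 H 𝓜
    refine t2 _ _ (s4 _ (mul_mem m2 hf)) m2 s1.nonneg ?_
    refine s1.le_of_mul_eq_right pe.one_sub ?_
    rw [sub_mul, one_mul, es, sub_zero]

/-- the decreasing sequence of finite intersections -/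
theorem seq (h1 : A_rp.{u}) (h2 : A_rptr.{u}) (h3 : A_tr.{u}) (𝓜 : TVN H)
    (e : ℕ → (H →L[ℂ] H)) (he : ∀ k, e k ∈ 𝓜.M) (pe : ∀ k, IsStarProjection (e k)) :
    ∃ h : ℕ → (H →L[ℂ] H), (∀ n, h n ∈ 𝓜.M) ∧ (∀ n, IsStarProjection (h n)) ∧
      (∀ n, h n * h (n + 1) = h (n + 1)) ∧ (∀ n, e n * h (n + 1) = h (n + 1)) ∧
      ∀ n, 𝓜.tr (1 - h n) ≤ ∑ k ∈ range n, 𝓜.tr (1 - e k) := by
  classical
  have step : ∀ (n : ℕ) (x : {x : H →L[ℂ] H // x ∈ 𝓜.M ∧ IsStarProjection x}),
      ∃ y : {x : H →L[ℂ] H // x ∈ 𝓜.M ∧ IsStarProjection x},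
        x.1 * y.1 = y.1 ∧ e n * y.1 = y.1 ∧ 𝓜.tr (1 - y.1) ≤ 𝓜.tr (1 - x.1) + 𝓜.tr (1 - e n) := by
    intro n x
    obtain ⟨h, a, b, c, d, f⟩ := meet2 h1 h2 h3 𝓜 x.1 (e n) x.2.1 (he n) x.2.2 (pe n)
    exact ⟨⟨h, a, b⟩, c, d, f⟩
  choose g hg1 hg2 hg3 using step
  let h : ℕ → {x : H →L[ℂ] H // x ∈ 𝓜.M ∧ IsStarProjection x} := fun n =>
    Nat.rec ⟨1, one_mem _, IsStarProjection.one _⟩ (fun n x => g n x) n
  have hs : ∀ n, h (n + 1) = g n (h n) := fun n => rfl
  refine ⟨fun n => (h n).1, fun n => (h n).2.1, fun n => (h n).2.2, fun n => ?_, fun n => ?_,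
    fun n => ?_⟩
  · simp only [hs]; exact hg1 n (h n)
  · simp only [hs]; exact hg2 n (h n)
  · induction n with
    | zero =>
      have : (h 0).1 = 1 := rfl
      simp only [this, sub_self, range_zero, sum_empty]
      exact (h3 H 𝓜).1.le
    | succ n ih =>
      rw [sum_range_succ]
      simp only [hs]
      exact (hg3 n (h n)).trans (add_le_add ih le_rfl)

/-- increasing projections of the algebra have a least upper bound which is a projection of the
algebra -/
theorem lub (𝓜 : TVN H) (g : ℕ → (H →L[ℂ] H)) (gM : ∀ n, g n ∈ 𝓜.M)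
    (pg : ∀ n, IsStarProjection (g n)) (mono : Monotone g) :
    ∃ P : H →L[ℂ] H, P ∈ 𝓜.M ∧ IsStarProjection P ∧ (∀ n, P * g n = g n) ∧
      IsLUB (Set.range g) P := by
  classical
  have hp : ∀ n, ∃ (_ : (g n).range.HasOrthogonalProjection),
      g n = (g n).range.starProjection := fun n =>
    isStarProjection_iff_eq_starProjection_range.mp (pg n)
  have inst : ∀ n, (g n).range.HasOrthogonalProjection := fun n => (hp n).1
  have geq : ∀ n, g n = (g n).range.starProjection := fun n => (hp n).2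
  set U : ℕ → Submodule ℂ H := fun n => (g n).range with hU
  have : ∀ n, (U n).HasOrthogonalProjection := inst
  have Umono : Monotone U := by
    intro m n hmn
    have h := mono hmn
    rw [geq m, geq n] at h
    exact Submodule.starProjection_le_starProjection_iff.mp h
  set K : Submodule ℂ H := (⨆ n, U n).topologicalClosure with hK
  have : CompleteSpace K := (Submodule.isClosed_topologicalClosure _).completeSpace_coe
  have : K.HasOrthogonalProjection := inferInstance
  have UK : ∀ n, U n ≤ K := fun n => (le_iSup U n).trans (Submodule.le_topologicalClosure _)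
  have pP : IsStarProjection K.starProjection := isStarProjection_starProjection
  have Pg : ∀ n, K.starProjection * g n = g n := by
    intro n
    ext x
    rw [mul_apply_eq_comp]
    exact Submodule.starProjection_eq_self_iff.mpr (UK n ⟨x, rfl⟩)
  have lim : ∀ x, Filter.Tendsto (fun n => g n x) Filter.atTop (𝓝 (K.starProjection x)) := by
    intro x
    have h := Submodule.starProjection_tendsto_closure_iSup U Umono x
    refine h.congr fun n => ?_
    conv_rhs => rw [geq n]
  refine ⟨K.starProjection, ?_, pP, Pg, ?_, ?_⟩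
  · rw [VonNeumannAlgebra.IsStarProjection.mem_iff pP]
    intro y hy
    rw [Module.End.mem_invtSubmodule]
    have rK : K.starProjection.range = K := by
      ext x
      constructor
      · rintro ⟨z, rfl⟩
        exact Submodule.starProjection_apply_mem _ _
      · intro hx
        exact ⟨x, Submodule.starProjection_eq_self_iff.mpr hx⟩
    rw [rK]
    have hcl : IsClosed ((K.comap (y : H →ₗ[ℂ] H) : Submodule ℂ H) : Set H) :=
      (Submodule.isClosed_topologicalClosure (⨆ n, U n)).preimage y.continuous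
    refine Submodule.topologicalClosure_minimal _ (iSup_le fun n => ?_) hcl
    rintro _ ⟨x, rfl⟩
    have hc : g n * y = y * g n := VonNeumannAlgebra.mem_commutant_iff.mp hy _ (gM n)
    refine UK n ⟨y x, ?_⟩
    exact congrArg (fun T : H →L[ℂ] H => T x) hc
  · rintro _ ⟨n, rfl⟩
    exact (pg n).le_of_mul_eq_right pP (Pg n)
  · intro c hc
    rw [ContinuousLinearMap.le_def, ContinuousLinearMap.isPositive_iff_complex]
    intro x
    have h1 : Filter.Tendsto (fun n => inner ℂ ((c - g n) x) x) Filter.atTop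
        (𝓝 (inner ℂ ((c - K.starProjection) x) x)) := by
      refine Filter.Tendsto.inner ?_ tendsto_const_nhds
      exact tendsto_const_nhds.sub (lim x)
    have h2 : ∀ n, ((RCLike.re (inner ℂ ((c - g n) x) x) : ℝ) : ℂ) = inner ℂ ((c - g n) x) x ∧
        0 ≤ RCLike.re (inner ℂ ((c - g n) x) x) := by
      intro n
      have h := hc ⟨n, rfl⟩
      rw [ContinuousLinearMap.le_def, ContinuousLinearMap.isPositive_iff_complex] at h
      exact h x
    have h3 : Filter.Tendsto (fun n => RCLike.re (inner ℂ ((c - g n) x) x)) Filter.atTop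
        (𝓝 (RCLike.re (inner ℂ ((c - K.starProjection) x) x))) :=
      (RCLike.continuous_re.tendsto _).comp h1
    refine ⟨?_, ge_of_tendsto' h3 fun n => (h2 n).2⟩
    refine tendsto_nhds_unique ?_ h1
    refine ((Complex.continuous_ofReal.tendsto _).comp h3).congr fun n => ?_
    exact (h2 n).1

end H_A_meet

open H_A_meet in
theorem q_meet (h1 : A_rp.{u}) (h2 : A_rptr.{u}) (h3 : A_tr.{u}) : A_meet.{u} := by
  intro H _ _ _ 𝓜
  refine ⟨fun e f he hf pe pf => meet2 h1 h2 h3 𝓜 e f he hf pe pf, fun e he pe => ?_⟩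
  obtain ⟨h, hM, ph, hh, eh, ht⟩ := seq h1 h2 h3 𝓜 e he pe
  have pg : ∀ n, IsStarProjection (1 - h n) := fun n => (ph n).one_sub
  have mono : Monotone fun n => (1 - h n : H →L[ℂ] H) := by
    refine monotone_nat_of_le_succ fun n => ?_
    refine sub_le_sub_left ?_ 1
    exact (ph (n + 1)).le_of_mul_eq_right (ph n) (hh n)
  obtain ⟨P, PM, pP, Pg, hP⟩ := lub 𝓜 (fun n => 1 - h n) (fun n => sub_mem (one_mem _) (hM n))
    pg mono
  refine ⟨1 - P, sub_mem (one_mem _) PM, pP.one_sub, fun k => ?_, ?_⟩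
  · have a1 : (1 - P) * (1 - h (k + 1)) = 0 := by
      rw [sub_mul, one_mul, Pg (k + 1), sub_self]
    have a2 : (1 - h (k + 1)) * (1 - P) = 0 := by
      have a3 := congrArg star a1
      rwa [star_mul, star_zero, (pg (k + 1)).isSelfAdjoint.star_eq,
        pP.one_sub.isSelfAdjoint.star_eq] at a3
    have a4 : h (k + 1) * (1 - P) = 1 - P := by
      rw [sub_mul, one_mul, sub_eq_zero] at a2
      exact a2.symm
    rw [← a4, ← mul_assoc, eh k]
  · rw [sub_sub_cancel]
    rw [𝓜.tr_normal (Set.range fun n => 1 - h n) P ⟨_, 0, rfl⟩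
      (directedOn_range.mpr mono.directed_le)
      (by rintro _ ⟨n, rfl⟩; exact ⟨sub_mem (one_mem _) (hM n), (pg n).nonneg⟩) hP]
    refine iSup₂_le ?_
    rintro _ ⟨n, rfl⟩
    exact (ht n).trans (ENNReal.sum_le_tsum _)

end MDB
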