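import Pool.Agent.MDB.Targets2

/-!
# Mixed Doob-Burkholder: martingale convergence in `L_2`, with cutting
-/

open scoped ENNReal NNReal Topology
open Finset

namespace MDB

open Mc

universe u

namespace H_A_mgl

variable {H : Type u} [NormedAddCommGroup H] [InnerProductSpace ℂ H] [CompleteSpace H]
variable {𝓜 : TVN H}

lemma op_inj {x y : Mc 𝓜} (h : x.op = y.op) : x = y := Subtype.ext h
lemma op_add (x y : Mc 𝓜) : (x + y).op = x.op + y.op := rfl
lemma op_sub (x y : Mc 𝓜) : (x - y).op = x.op - y.op := rfl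
lemma op_mul (x y : Mc 𝓜) : (x * y).op = x.op * y.op := rfl
lemma op_star (x : Mc 𝓜) : (star x).op = star x.op := rfl
lemma op_one : (1 : Mc 𝓜).op = 1 := rfl
lemma op_zero : (0 : Mc 𝓜).op = 0 := rfl
lemma op_smul (c : ℂ) (x : Mc 𝓜) : (c • x).op = c • x.op := rfl
lemma op_mem (x : Mc 𝓜) : x.op ∈ 𝓜.M := x.2

lemma sq_nonneg' (x : Mc 𝓜) : 0 ≤ (star x * x).op := by
  rw [op_mul, op_star]
  exact star_mul_self_nonneg _

lemma para (u v : Mc 𝓜) : (star u * u + star u * u) + (star v * v + star v * v)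
    - star (u + v) * (u + v) = star (u - v) * (u - v) := by
  rw [star_add, star_sub]; noncomm_ring

/-- scalar multiples of the identity -/
lemma shift (y : Mc 𝓜) (hy : IsSelfAdjoint y.op) :
    ∃ l : Mc 𝓜, 0 ≤ l.op ∧ 0 ≤ (l + y).op ∧ (∀ (F : Filtr 𝓜) (n : ℕ), F.E n l = l) := by
  have hmem : (algebraMap ℂ (Mc 𝓜) ((‖y.op‖ : ℝ) : ℂ)).op
      = algebraMap ℝ (H →L[ℂ] H) ‖y.op‖ := by
    rw [Algebra.algebraMap_eq_smul_one, op_smul, op_one, Algebra.algebraMap_eq_smul_one]
    exact (Complex.coe_smul _ _)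
  refine ⟨algebraMap ℂ (Mc 𝓜) ((‖y.op‖ : ℝ) : ℂ), ?_, ?_, ?_⟩
  · rw [hmem]
    exact algebraMap_nonneg _ (norm_nonneg _)
  · rw [op_add, hmem]
    have := hy.neg_algebraMap_norm_le_self
    rw [neg_le_iff_add_nonneg] at this
    rwa [add_comm]
  · intro F n
    rw [Algebra.algebraMap_eq_smul_one, map_smul]
    rw [F.E_fix n 1 (one_mem (F.N n))]

/-- the functional `t` of a projection of `N 0` is invariant under `E n` -/
lemma t_E (F : Filtr 𝓜) (g : Mc 𝓜) (hg0 : g.op ∈ F.N 0) (hg : IsP g)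
    (t : Mc 𝓜 →ₗ[ℝ] ℝ) (ht : ∀ x : Mc 𝓜, 0 ≤ x.op → t x = (𝓜.tr (g * x * g).op).toReal ∧
      𝓜.tr (g * x * g).op < ⊤) (n : ℕ) (y : Mc 𝓜) (hy : IsSelfAdjoint y.op) :
    t (F.E n y) = t y := by
  have hgs : star g = g := by
    apply op_inj
    rw [op_star]
    exact hg.isSelfAdjoint.star_eq
  have hpos : ∀ x : Mc 𝓜, 0 ≤ x.op → t (F.E n x) = t x := by
    intro x hx
    have hEx := F.E_nonneg n x hx
    rw [(ht _ hEx).1, (ht x hx).1]
    have hgn : g.op ∈ F.N n := F.mono 0 n (Nat.zero_le n) hg0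
    rw [← F.E_bimod n g x g hgn hgn]
    rw [F.E_tr n (g * x * g)]
    have : g * x * g = star g * x * g := by rw [hgs]
    rw [this, op_mul, op_mul, op_star]
    exact star_left_conjugate_nonneg hx _
  obtain ⟨l, hl1, hl2, hl3⟩ := shift y hy
  have e1 := hpos _ hl2
  have e2 := hpos _ hl1
  rw [map_add, map_add, map_add, e2] at e1
  exact add_left_cancel e1

end H_A_mgl

open H_A_mgl in
theorem q_mgl (h1 : A_dense.{u}) (h2 : A_supg.{u}) (h3 : A_E.{u}) (h4 : A_fin.{u})
    (h5 : A_tr.{u}) : A_mgl.{u} := by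
  intro H _ _ _ 𝓜 F x hx ε hε
  obtain ⟨htr0, htrmono, htrl, -, -⟩ := h5 H 𝓜
  obtain ⟨g, hg, hg0, hgt, hgx⟩ := h2 H 𝓜 F x hx (ε / 4) (by positivity)
  obtain ⟨n0, b, hb, hbx⟩ := h1 H 𝓜 F g x hg hg0 hgt (ε / 4) (by positivity)
  obtain ⟨t, ht1, ht2, ht3⟩ := h4 H 𝓜 g hg hgt
  obtain ⟨hE1, hE2, hE3, hE4, hE5, hE6, hE7⟩ := h3 H 𝓜 F
  refine ⟨g, hg, hg0, hgt, n0, fun n hn => ?_⟩
  have hgs : star g = g := by
    apply op_inj
    rw [op_star]
    exact hg.isSelfAdjoint.star_eq
  have hbn : b.op ∈ F.N n := F.mono n0 n hn hb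
  -- the two parts
  set y := x - F.E n x with hy
  set c := F.E n x - b with hc
  have hxb : x - b = y + c := by rw [hy, hc]; abel
  have hcn : c.op ∈ F.N n := by
    rw [hc, op_sub]
    exact sub_mem (F.E_mem n x) hbn
  have hEy : F.E n y = 0 := by
    rw [hy, map_sub, hE3 n n x le_rfl, sub_self]
  have hEys : F.E n (star y) = 0 := by rw [hE1, hEy, star_zero]
  -- orthogonality
  have horth : t (star y * c + star c * y) = 0 := by
    have hsa : IsSelfAdjoint (star y * c + star c * y).op := by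
      rw [IsSelfAdjoint, ← op_star, star_add, star_mul, star_mul, star_star, star_star, add_comm]
    rw [← t_E F g hg0 hg t ht1 n _ hsa]
    have e1 : F.E n (star y * c) = 0 := by
      have := F.E_bimod n 1 (star y) c (one_mem _) hcn
      rw [one_mul, hEys, mul_zero, zero_mul] at this
      exact this
    have e2 : F.E n (star c * y) = 0 := by
      have hcs : (star c).op ∈ F.N n := by rw [op_star]; exact star_mem hcn
      have := F.E_bimod n (star c) y 1 hcs (one_mem _)
      rw [mul_one, hEy, mul_zero, zero_mul] at this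
      exact this
    rw [map_add, e1, e2, add_zero, map_zero]
  have hexp : t (star (x - b) * (x - b)) = t (star y * y) + t (star c * c) := by
    have : star (x - b) * (x - b)
        = (star y * y + star c * c) + (star y * c + star c * y) := by
      rw [hxb, star_add]; noncomm_ring
    rw [this, map_add, horth, add_zero, map_add]
  have htnn : ∀ z : Mc 𝓜, 0 ≤ z.op → 0 ≤ t z := by
    intro z hz
    rw [(ht1 z hz).1]
    exact ENNReal.toReal_nonneg
  have htle : t (star y * y) ≤ t (star (x - b) * (x - b)) := by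
    rw [hexp]
    have := htnn _ (sq_nonneg' c)
    linarith
  have hsq : ∀ z : Mc 𝓜, 𝓜.tr (star (z * g) * (z * g)).op = ENNReal.ofReal (t (star z * z)) := by
    intro z
    have e : star (z * g) * (z * g) = g * (star z * z) * g := by
      rw [star_mul, hgs]; noncomm_ring
    rw [e, (ht1 _ (sq_nonneg' z)).1, ENNReal.ofReal_toReal (ht1 _ (sq_nonneg' z)).2.ne]
  have hy1 : 𝓜.tr (star (y * g) * (y * g)).op < ENNReal.ofReal (ε / 4) := by
    refine lt_of_le_of_lt ?_ hbx
    rw [hsq, hsq]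
    exact ENNReal.ofReal_le_ofReal htle
  -- multiply by g on the left
  have hgn : ‖g.op‖ ≤ 1 := hg.norm_le
  have hy2 : 𝓜.tr (star (g * (y * g)) * (g * (y * g))).op < ENNReal.ofReal (ε / 4) := by
    refine lt_of_le_of_lt ?_ hy1
    have := htrl (y * g).op g.op (op_mem _) (op_mem _)
    have e1 : (star (g * (y * g)) * (g * (y * g))).op
        = star (g.op * (y * g).op) * (g.op * (y * g).op) := rfl
    rw [e1]
    refine this.trans ?_
    have e2 : (star (y * g) * (y * g)).op = star (y * g).op * (y * g).op := rfl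
    rw [e2]
    have hle : ENNReal.ofReal (‖g.op‖ ^ 2) ≤ 1 := by
      rw [ENNReal.ofReal_le_one]
      exact pow_le_one₀ (norm_nonneg _) hgn
    calc ENNReal.ofReal (‖g.op‖ ^ 2) * 𝓜.tr (star (y * g).op * (y * g).op)
        ≤ 1 * 𝓜.tr (star (y * g).op * (y * g).op) := mul_le_mul_left hle _
      _ = _ := one_mul _
  -- sum of the two parts
  set u := x - g * x * g with hu
  set v := g * (y * g) with hv
  have hsum : x - g * F.E n x * g = u + v := by
    rw [hu, hv, hy]; noncomm_ring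
  have hle : (star (u + v) * (u + v)).op ≤
      ((star u * u).op + (star u * u).op) + ((star v * v).op + (star v * v).op) := by
    have h0 := sq_nonneg' (u - v)
    have e : ((star u * u).op + (star u * u).op) + ((star v * v).op + (star v * v).op)
        - (star (u + v) * (u + v)).op = (star (u - v) * (u - v)).op := by
      rw [← para u v]; rfl
    rw [← sub_nonneg, e]
    exact h0
  have htot : 𝓜.tr (star (u + v) * (u + v)).op ≤
      (𝓜.tr (star u * u).op + 𝓜.tr (star u * u).op)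
        + (𝓜.tr (star v * v).op + 𝓜.tr (star v * v).op) := by
    have hu0 := sq_nonneg' u
    have hv0 := sq_nonneg' v
    have m1 := op_mem (star u * u)
    have m2 := op_mem (star v * v)
    have t1 := 𝓜.tr_add _ _ m1 m1 hu0 hu0
    have t2 := 𝓜.tr_add _ _ m2 m2 hv0 hv0
    have t3 := 𝓜.tr_add _ _ (add_mem m1 m1) (add_mem m2 m2) (add_nonneg hu0 hu0)
      (add_nonneg hv0 hv0)
    rw [← t1, ← t2, ← t3]
    exact htrmono _ _ (op_mem _) (add_mem (add_mem m1 m1) (add_mem m2 m2)) (sq_nonneg' _) hle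
  rw [hsum]
  refine lt_of_le_of_lt htot ?_
  have hfin : ENNReal.ofReal ε = (ENNReal.ofReal (ε / 4) + ENNReal.ofReal (ε / 4))
      + (ENNReal.ofReal (ε / 4) + ENNReal.ofReal (ε / 4)) := by
    rw [← ENNReal.ofReal_add (by positivity) (by positivity),
      ← ENNReal.ofReal_add (by positivity) (by positivity)]
    congr 1; ring
  rw [hfin]
  exact ENNReal.add_lt_add (ENNReal.add_lt_add hgx hgx) (ENNReal.add_lt_add hy2 hy2)

end MDB
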