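import Pool.Agent.MDB.Targets2

/-!
# The trace of a finite projection as a sum of vector functionals
-/

open scoped ENNReal NNReal Topology
open Finset

namespace MDB

universe u

namespace H_A_norm

open Mc

variable {H : Type u} [NormedAddCommGroup H] [InnerProductSpace ℂ H] [CompleteSpace H]

/-- partial sums of orthogonal projections are projections -/
lemma proj_add {p q : H →L[ℂ] H} (hp : IsStarProjection p) (hq : IsStarProjection q)
    (h : p * q = 0) : IsStarProjection (p + q) := by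
  have h' : q * p = 0 := by
    have := congrArg star h
    rwa [star_mul, hp.isSelfAdjoint.star_eq, hq.isSelfAdjoint.star_eq, star_zero] at this
  refine ⟨?_, hp.isSelfAdjoint.add hq.isSelfAdjoint⟩
  have h1 := hp.isIdempotentElem.eq
  have h2 := hq.isIdempotentElem.eq
  show (p + q) * (p + q) = p + q
  rw [add_mul, mul_add, mul_add, h1, h2, h, h', add_zero, zero_add]

lemma proj_sum {p : ℕ → (H →L[ℂ] H)} (hp : ∀ n, IsStarProjection (p n))
    (ho : ∀ m n, m ≠ n → p m * p n = 0) (n : ℕ) :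
    IsStarProjection (∑ i ∈ range n, p i) := by
  induction n with
  | zero => simp [IsStarProjection.zero]
  | succ n ih =>
    rw [sum_range_succ]
    refine proj_add ih (hp n) ?_
    rw [sum_mul]
    exact sum_eq_zero fun i hi => ho _ _ (by have := mem_range.mp hi; omega)

lemma sum_mul_self {p : ℕ → (H →L[ℂ] H)} (hp : ∀ n, IsStarProjection (p n))
    (ho : ∀ m n, m ≠ n → p m * p n = 0) {n k : ℕ} (h : k < n) :
    (∑ i ∈ range n, p i) * p k = p k := by
  rw [sum_mul, sum_eq_single k]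
  · exact (hp k).isIdempotentElem.eq
  · intro b _ hb
    exact ho _ _ hb
  · intro hk
    exact absurd (mem_range.mpr h) hk

/-- The sum of a sequence of orthogonal projections. -/
lemma exists_sum (p : ℕ → (H →L[ℂ] H)) (hp : ∀ n, IsStarProjection (p n))
    (ho : ∀ m n, m ≠ n → p m * p n = 0) :
    ∃ s : H →L[ℂ] H, IsStarProjection s ∧
      (∀ v : H, Filter.Tendsto (fun n => (∑ i ∈ range n, p i) v) Filter.atTop (𝓝 (s v))) ∧
      (∀ V : VonNeumannAlgebra H, (∀ n, p n ∈ V) → s ∈ V) := by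
  have hS := proj_sum hp ho
  have hfix : ∀ {m n : ℕ}, m ≤ n → (∑ i ∈ range n, p i) * (∑ i ∈ range m, p i)
      = ∑ i ∈ range m, p i := by
    intro m n hmn
    rw [mul_sum]
    exact sum_congr rfl fun k hk => sum_mul_self hp ho (by have := mem_range.mp hk; omega)
  choose hop heq using fun n =>
    (isStarProjection_iff_eq_starProjection_range.mp (hS n))
  set U : ℕ → Submodule ℂ H := fun n => (∑ i ∈ range n, p i : H →L[ℂ] H).range with hU
  have : ∀ n, (U n).HasOrthogonalProjection := hop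
  have hmono : Monotone U := by
    intro m n hmn v hv
    obtain ⟨w, rfl⟩ := hv
    refine ⟨(∑ i ∈ range m, p i : H →L[ℂ] H) w, ?_⟩
    have := congrArg (fun T : H →L[ℂ] H => T w) (hfix hmn)
    simpa using this
  have hlim : ∀ v : H, Filter.Tendsto (fun n => (∑ i ∈ range n, p i) v) Filter.atTop
      (𝓝 ((⨆ i, U i).topologicalClosure.starProjection v)) := by
    intro v
    have := Submodule.starProjection_tendsto_closure_iSup U hmono v
    refine this.congr fun n => ?_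
    exact (congrArg (fun T : H →L[ℂ] H => T v) (heq n)).symm
  refine ⟨(⨆ i, U i).topologicalClosure.starProjection, isStarProjection_starProjection, hlim, ?_⟩
  intro V hV
  have hcc : V.commutant.commutant = V := VonNeumannAlgebra.commutant_commutant V
  rw [← hcc, VonNeumannAlgebra.mem_commutant_iff]
  intro y hy
  rw [VonNeumannAlgebra.mem_commutant_iff] at hy
  have hSy : ∀ n, (∑ i ∈ range n, p i) * y = y * (∑ i ∈ range n, p i) := by
    intro n
    rw [sum_mul, mul_sum]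
    exact sum_congr rfl fun i _ => hy _ (hV i)
  ext v
  have h1 := hlim (y v)
  have h2 : Filter.Tendsto (fun n => y ((∑ i ∈ range n, p i) v)) Filter.atTop
      (𝓝 (y ((⨆ i, U i).topologicalClosure.starProjection v))) :=
    (y.continuous.tendsto _).comp (hlim v)
  have h3 : (fun n => y ((∑ i ∈ range n, p i) v)) = fun n => (∑ i ∈ range n, p i) (y v) := by
    funext n
    exact (congrArg (fun T : H →L[ℂ] H => T v) (hSy n)).symm
  rw [h3] at h2
  exact tendsto_nhds_unique h2 h1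

lemma inner_self_proj {p : H →L[ℂ] H} (hp : IsStarProjection p) (v w : H) :
    inner ℂ (p v) w = inner ℂ v (p w) := by
  have h := hp.isSelfAdjoint
  rw [ContinuousLinearMap.isSelfAdjoint_iff'] at h
  conv_lhs => rw [← h]
  rw [ContinuousLinearMap.adjoint_inner_left]

lemma s_mul {p : ℕ → (H →L[ℂ] H)} (hp : ∀ n, IsStarProjection (p n))
    (ho : ∀ m n, m ≠ n → p m * p n = 0) {s : H →L[ℂ] H}
    (hlim : ∀ v : H, Filter.Tendsto (fun n => (∑ i ∈ range n, p i) v) Filter.atTop (𝓝 (s v)))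
    (k : ℕ) : s * p k = p k := by
  ext v
  have h1 := hlim (p k v)
  have h2 : Filter.Tendsto (fun n => (∑ i ∈ range n, p i) (p k v)) Filter.atTop (𝓝 (p k v)) := by
    refine tendsto_const_nhds.congr' ?_
    filter_upwards [Filter.eventually_gt_atTop k] with n hn
    exact (congrArg (fun T : H →L[ℂ] H => T v) (sum_mul_self hp ho hn)).symm
  exact tendsto_nhds_unique h1 h2

lemma tr_fsum (𝓜 : TVN H) (h0 : 𝓜.tr 0 = 0) {a : ℕ → (H →L[ℂ] H)} (ha : ∀ n, a n ∈ 𝓜.M)
    (hn : ∀ n, 0 ≤ a n) (n : ℕ) : 𝓜.tr (∑ i ∈ range n, a i) = ∑ i ∈ range n, 𝓜.tr (a i) := by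
  induction n with
  | zero => simpa using h0
  | succ n ih =>
    rw [sum_range_succ, sum_range_succ, 𝓜.tr_add _ _ (sum_mem fun i _ => ha i) (ha n)
      (sum_nonneg fun i _ => hn i) (hn n), ih]

lemma tr_sum (𝓜 : TVN H) (h0 : 𝓜.tr 0 = 0) {p : ℕ → (H →L[ℂ] H)}
    (hp : ∀ n, IsStarProjection (p n)) (ho : ∀ m n, m ≠ n → p m * p n = 0)
    (hM : ∀ n, p n ∈ 𝓜.M) {s : H →L[ℂ] H} (hs : IsStarProjection s)
    (hlim : ∀ v : H, Filter.Tendsto (fun n => (∑ i ∈ range n, p i) v) Filter.atTop (𝓝 (s v)))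
    {x : H →L[ℂ] H} (hx : x ∈ 𝓜.M) :
    𝓜.tr (x * s * star x) = ∑' n, 𝓜.tr (x * p n * star x) := by
  have hsx : star x ∈ 𝓜.M := star_mem hx
  have hmem : ∀ a, a ∈ 𝓜.M → x * a * star x ∈ 𝓜.M := fun a ha => mul_mem (mul_mem hx ha) hsx
  have hnn : ∀ n, 0 ≤ x * p n * star x := fun n => star_right_conjugate_nonneg (hp n).nonneg x
  have hSn : ∀ n, x * (∑ i ∈ range n, p i) * star x = ∑ i ∈ range n, x * p i * star x := by
    intro n
    rw [mul_sum, sum_mul]
  have hSs : ∀ n, (∑ i ∈ range n, p i) ≤ s := by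
    intro n
    refine (proj_sum hp ho n).le_of_mul_eq_right hs ?_
    rw [mul_sum]
    exact sum_congr rfl fun k _ => s_mul hp ho hlim k
  have hlub : IsLUB (Set.range fun n => x * (∑ i ∈ range n, p i) * star x) (x * s * star x) := by
    constructor
    · rintro _ ⟨n, rfl⟩
      exact star_right_conjugate_le_conjugate (hSs n) x
    · intro c hc
      have hc0 : 0 ≤ c := by
        have := hc ⟨0, rfl⟩
        simpa using this
      have hcsa : IsSelfAdjoint c := IsSelfAdjoint.of_nonneg hc0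
      rw [ContinuousLinearMap.le_def, ContinuousLinearMap.isPositive_def]
      refine ⟨?_, ?_⟩
      · have : IsSelfAdjoint (x * s * star x) := by
          have h := hs.isSelfAdjoint.star_eq
          rw [IsSelfAdjoint, star_mul, star_mul, star_star, h, mul_assoc]
        have h3 : IsSelfAdjoint (c - x * s * star x) := hcsa.sub this
        first | exact h3 | exact h3.isSymmetric
      · intro v
        have h1 : ∀ n, 0 ≤ (c - x * (∑ i ∈ range n, p i) * star x).reApplyInnerSelf v := by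
          intro n
          have := hc ⟨n, rfl⟩
          rw [ContinuousLinearMap.le_def] at this
          exact this.re_inner_nonneg_left v
        have h2 : Filter.Tendsto
            (fun n => (c - x * (∑ i ∈ range n, p i) * star x).reApplyInnerSelf v) Filter.atTop
            (𝓝 ((c - x * s * star x).reApplyInnerSelf v)) := by
          have hc2 : Filter.Tendsto (fun n => (c - x * (∑ i ∈ range n, p i) * star x) v)
              Filter.atTop (𝓝 ((c - x * s * star x) v)) := by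
            have := (x.continuous.tendsto _).comp (hlim (star x v))
            exact tendsto_const_nhds.sub this
          simp only [ContinuousLinearMap.reApplyInnerSelf_apply]
          exact (RCLike.continuous_re.tendsto _).comp (hc2.inner tendsto_const_nhds)
        exact ge_of_tendsto' h2 h1
  have hdir : DirectedOn (· ≤ ·) (Set.range fun n => x * (∑ i ∈ range n, p i) * star x) := by
    have hm : Monotone fun n => x * (∑ i ∈ range n, p i) * star x := by
      intro m n hmn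
      refine star_right_conjugate_le_conjugate ?_ x
      exact sum_le_sum_of_subset_of_nonneg (range_mono hmn) fun i _ _ => (hp i).nonneg
    exact directedOn_range.mpr hm.directed_le
  have h := 𝓜.tr_normal _ _ (Set.range_nonempty _) hdir (by
    rintro _ ⟨n, rfl⟩
    refine ⟨hmem _ (sum_mem fun i _ => hM i), ?_⟩
    exact star_right_conjugate_nonneg (proj_sum hp ho n).nonneg x) hlub
  rw [h, iSup_range, ENNReal.tsum_eq_iSup_nat]
  refine iSup_congr fun n => ?_
  rw [hSn, tr_fsum 𝓜 h0 (fun i => hmem _ (hM i)) hnn]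

/-- Exhaustion by orthogonal projections of a class `C`. -/
lemma exhaust (𝓜 : TVN H)
    (hmono : ∀ x y, x ∈ 𝓜.M → y ∈ 𝓜.M → 0 ≤ x → x ≤ y → 𝓜.tr x ≤ 𝓜.tr y) (h0 : 𝓜.tr 0 = 0)
    (C : (H →L[ℂ] H) → Prop) (hC0 : C 0) {r : H →L[ℂ] H} (hr : IsStarProjection r)
    (hrM : r ∈ 𝓜.M) (hrf : 𝓜.tr r < ⊤) :
    ∃ p : ℕ → (H →L[ℂ] H),
      (∀ n, C (p n) ∧ IsStarProjection (p n) ∧ p n ∈ 𝓜.M ∧ r * p n = p n) ∧
      (∀ m n, m ≠ n → p m * p n = 0) ∧
      ∀ q, C q → IsStarProjection q → q ∈ 𝓜.M → r * q = q → (∀ n, p n * q = 0) → q = 0 := by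
  classical
  set G : (H →L[ℂ] H) → (H →L[ℂ] H) → Prop := fun r' q =>
    C q ∧ IsStarProjection q ∧ q ∈ 𝓜.M ∧ r' * q = q with hG
  set S : (H →L[ℂ] H) → ℝ≥0∞ := fun r' => ⨆ (q) (_ : G r' q), 𝓜.tr q with hS
  have hle : ∀ {r' q : H →L[ℂ] H}, IsStarProjection r' → IsStarProjection q → r' * q = q →
      q ≤ r' := fun h1 h2 h3 => h2.le_of_mul_eq_right h1 h3
  have hstep : ∀ r', IsStarProjection r' → r' ∈ 𝓜.M → 𝓜.tr r' < ⊤ →
      ∃ q, G r' q ∧ S r' ≤ 2 * 𝓜.tr q := by
    intro r' h1 h2 h3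
    by_cases hz : S r' = 0
    · refine ⟨0, ⟨hC0, IsStarProjection.zero _, zero_mem _, mul_zero _⟩, ?_⟩
      rw [hz]; exact zero_le
    · have hfin : S r' ≤ 𝓜.tr r' := by
        refine iSup₂_le fun q hq => ?_
        exact hmono _ _ hq.2.2.1 h2 hq.2.1.nonneg (hle h1 hq.2.1 hq.2.2.2)
      have hlt : S r' / 2 < S r' := ENNReal.half_lt_self hz (ne_top_of_le_ne_top h3.ne hfin)
      rw [hS] at hlt
      obtain ⟨q, hq⟩ := lt_iSup_iff.mp hlt
      obtain ⟨hq1, hq2⟩ := lt_iSup_iff.mp hq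
      refine ⟨q, hq1, ?_⟩
      have h4 : S r' / 2 ≤ 𝓜.tr q := hq2.le
      calc S r' = 2 * (S r' / 2) := by
            rw [ENNReal.mul_div_cancel two_ne_zero ENNReal.ofNat_ne_top]
        _ ≤ 2 * 𝓜.tr q := by gcongr
  set step : (H →L[ℂ] H) → (H →L[ℂ] H) := fun r' =>
    if h : ∃ q, G r' q ∧ S r' ≤ 2 * 𝓜.tr q then Classical.choose h else 0 with hstepdef
  have hstep' : ∀ r', IsStarProjection r' → r' ∈ 𝓜.M → 𝓜.tr r' < ⊤ →
      G r' (step r') ∧ S r' ≤ 2 * 𝓜.tr (step r') := by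
    intro r' h1 h2 h3
    have h := hstep r' h1 h2 h3
    rw [hstepdef]
    simp only [dif_pos h]
    exact Classical.choose_spec h
  let rr : ℕ → (H →L[ℂ] H) := fun n => Nat.rec r (fun _ a => a - step a) n
  have rr0 : rr 0 = r := rfl
  have rrs : ∀ n, rr (n + 1) = rr n - step (rr n) := fun n => rfl
  have hsub : ∀ {a q : H →L[ℂ] H}, IsStarProjection a → IsStarProjection q → a * q = q →
      q * a = q := by
    intro a q h1 h2 h3
    have := congrArg star h3
    rwa [star_mul, h1.isSelfAdjoint.star_eq, h2.isSelfAdjoint.star_eq] at this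
  have inv : ∀ n, IsStarProjection (rr n) ∧ rr n ∈ 𝓜.M ∧ 𝓜.tr (rr n) < ⊤ ∧ rr n ≤ r ∧
      r * rr n = rr n := by
    intro n
    induction n with
    | zero => exact ⟨hr, hrM, hrf, le_rfl, hr.isIdempotentElem.eq⟩
    | succ n ih =>
      obtain ⟨h1, h2, h3, h4, h5⟩ := ih
      obtain ⟨⟨_, g2, g3, g4⟩, _⟩ := hstep' _ h1 h2 h3
      have g5 := hsub h1 g2 g4
      have e1 : IsStarProjection (rr (n + 1)) := by
        rw [rrs]
        exact (g2.le_tfae h1 |>.out 1 3).mp g4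
      have e2 : rr (n + 1) ∈ 𝓜.M := by rw [rrs]; exact sub_mem h2 g3
      have e3 : rr (n + 1) ≤ rr n := by
        rw [rrs]; exact sub_le_self _ g2.nonneg
      refine ⟨e1, e2, lt_of_le_of_lt (hmono _ _ e2 h2 e1.nonneg e3) h3, e3.trans h4, ?_⟩
      rw [rrs, mul_sub, h5]
      congr 1
      rw [← g4, ← mul_assoc, h5, g4]
  have hP : ∀ n, G (rr n) (step (rr n)) ∧ S (rr n) ≤ 2 * 𝓜.tr (step (rr n)) := fun n =>
    hstep' _ (inv n).1 (inv n).2.1 (inv n).2.2.1
  have hzero : ∀ n m, n < m → rr m * step (rr n) = 0 := by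
    intro n m hnm
    induction m, hnm using Nat.le_induction with
    | base =>
      rw [rrs, sub_mul, (hP n).1.2.2.2, (hP n).1.2.1.isIdempotentElem.eq, sub_self]
    | succ m hm ih =>
      rw [rrs, sub_mul, ih]
      have g := hP m
      have g5 := hsub (inv m).1 g.1.2.1 g.1.2.2.2
      rw [← g5, mul_assoc, ih, mul_zero, sub_zero]
  have horth : ∀ m n, m ≠ n → step (rr m) * step (rr n) = 0 := by
    have key : ∀ n m, n < m → step (rr m) * step (rr n) = 0 := by
      intro n m hnm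
      have g := hP m
      have g5 := hsub (inv m).1 g.1.2.1 g.1.2.2.2
      rw [← g5, mul_assoc, hzero n m hnm, mul_zero]
    intro m n hmn
    rcases lt_or_gt_of_ne hmn with h | h
    · have := congrArg star (key m n h)
      rwa [star_mul, (hP m).1.2.1.isSelfAdjoint.star_eq, (hP n).1.2.1.isSelfAdjoint.star_eq,
        star_zero] at this
    · exact key n m h
  refine ⟨fun n => step (rr n), fun n => ⟨(hP n).1.1, (hP n).1.2.1, (hP n).1.2.2.1, ?_⟩, horth, ?_⟩
  · show r * step (rr n) = step (rr n)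
    rw [← (hP n).1.2.2.2, ← mul_assoc, (inv n).2.2.2.2]
  intro q hCq hq hqM hrq hpq
  have hrrq : ∀ n, rr n * q = q := by
    intro n
    induction n with
    | zero => exact hrq
    | succ n ih => rw [rrs, sub_mul, ih, hpq n, sub_zero]
  have hsum : ∀ n, ∑ i ∈ range n, step (rr i) = r - rr n := by
    intro n
    induction n with
    | zero => simp [rr0]
    | succ n ih => rw [sum_range_succ, ih, rrs]; abel
  have htsum : ∑' n, 𝓜.tr (step (rr n)) ≤ 𝓜.tr r := by
    rw [ENNReal.tsum_eq_iSup_nat]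
    refine iSup_le fun n => ?_
    rw [← tr_fsum 𝓜 h0 (fun i => (hP i).1.2.2.1) (fun i => (hP i).1.2.1.nonneg)]
    refine hmono _ _ (sum_mem fun i _ => (hP i).1.2.2.1) hrM
      (sum_nonneg fun i _ => (hP i).1.2.1.nonneg) ?_
    rw [hsum]
    exact sub_le_self _ (inv n).1.nonneg
  have hlim := ENNReal.tendsto_atTop_zero_of_tsum_ne_top (ne_top_of_le_ne_top hrf.ne htsum)
  have hqle : ∀ n, 𝓜.tr q ≤ 2 * 𝓜.tr (step (rr n)) := by
    intro n
    refine le_trans ?_ (hP n).2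
    exact le_iSup₂_of_le q ⟨hCq, hq, hqM, hrrq n⟩ le_rfl
  have hlim2 : Filter.Tendsto (fun n => 2 * 𝓜.tr (step (rr n))) Filter.atTop (𝓝 (2 * 0)) :=
    ENNReal.Tendsto.const_mul hlim (Or.inr ENNReal.ofNat_ne_top)
  rw [mul_zero] at hlim2
  have h1 : 𝓜.tr q ≤ 0 := ge_of_tendsto' hlim2 hqle
  exact 𝓜.tr_faithful q hqM hq.nonneg (le_antisymm h1 zero_le)

/-- `2^k`-adic layering -/
lemma layer (𝓜 : TVN H) (hspec : ∀ (y : H →L[ℂ] H) (lam : ℝ), IsSelfAdjoint y →
    ∃ P : H →L[ℂ] H, IsStarProjection P ∧ P * y = y * P ∧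
      (lam : ℂ) • P ≤ P * y * P ∧ (1 - P) * y * (1 - P) ≤ (lam : ℂ) • (1 - P) ∧
      (∀ c : H →L[ℂ] H, c * y = y * c → c * P = P * c) ∧
      (∀ V : VonNeumannAlgebra H, y ∈ V → P ∈ V))
    (hmono : ∀ x y, x ∈ 𝓜.M → y ∈ 𝓜.M → 0 ≤ x → x ≤ y → 𝓜.tr x ≤ 𝓜.tr y)
    {f : H →L[ℂ] H} (hf : IsStarProjection f) (hfM : f ∈ 𝓜.M) (ξ : H)
    (hdom : ∀ q, IsStarProjection q → q ∈ 𝓜.M → f * q = q →
      𝓜.tr q ≤ ENNReal.ofReal (‖q ξ‖ ^ 2)) (n : ℕ) :
    ∀ (c : ℝ≥0) (x : H →L[ℂ] H), x ∈ 𝓜.M → 0 ≤ x → f * x = x → x ≤ (((c : ℝ≥0) : ℝ) : ℂ) • 1 →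
      𝓜.tr x ≤ ENNReal.ofReal (RCLike.re (inner ℂ (x ξ) ξ)) + (c / 2 ^ n : ℝ≥0) * 𝓜.tr f := by
  have hxf : ∀ x : H →L[ℂ] H, 0 ≤ x → f * x = x → x * f = x := by
    intro x hx hfx
    have := congrArg star hfx
    rwa [star_mul, hf.isSelfAdjoint.star_eq, (IsSelfAdjoint.of_nonneg hx).star_eq] at this
  have hff := hf.isIdempotentElem.eq
  induction n with
  | zero =>
    intro c x hx hx0 hfx hxc
    have h1 : x ≤ (((c : ℝ≥0) : ℝ) : ℂ) • f := by
      have := star_left_conjugate_le_conjugate hxc f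
      rw [hf.isSelfAdjoint.star_eq, hfx, hxf x hx0 hfx, mul_smul_comm, mul_one, smul_mul_assoc,
        hff] at this
      exact this
    refine le_add_left ?_
    have hm : (((c : ℝ≥0) : ℝ) : ℂ) • f ∈ 𝓜.M := 𝓜.M.toStarSubalgebra.smul_mem hfM _
    refine (hmono _ _ hx hm hx0 h1).trans ?_
    rw [𝓜.tr_smul c f hfM hf.nonneg]
    simp
  | succ n ih =>
    intro c x hx hx0 hfx hxc
    have hxsa : IsSelfAdjoint x := IsSelfAdjoint.of_nonneg hx0
    obtain ⟨P, hP, hPx, hP1, hP2, hP3, hP4⟩ := hspec x ((c / 2 : ℝ≥0) : ℝ) hxsa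
    have hPM := hP4 _ hx
    have hPP := hP.isIdempotentElem.eq
    have hPs := hP.isSelfAdjoint.star_eq
    by_cases hc : c = 0
    · subst hc
      have : x = 0 := le_antisymm (by simpa using hxc) hx0
      subst this
      have h00 : 𝓜.tr 0 = 0 := by
        have := 𝓜.tr_smul 0 (0 : H →L[ℂ] H) (zero_mem _) le_rfl
        simpa using this
      rw [h00]
      exact zero_le
    have hcpos : (0 : ℝ) < ((c / 2 : ℝ≥0) : ℝ) := by
      have : 0 < c := pos_iff_ne_zero.mpr hc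
      have h2 : 0 < c / 2 := by positivity
      exact_mod_cast h2
    set d : ℝ≥0 := c / 2 with hd
    have hcf : f * P = P * f := hP3 f (by rw [hfx, hxf x hx0 hfx])
    -- P is under f
    have hfP : f * P = P := by
      set r := (1 - f) * P with hr
      have hrr : star r * r = P * (1 - f) * P := by
        rw [hr, star_mul, hPs, star_sub, star_one, hf.isSelfAdjoint.star_eq]
        have : (1 - f) * (1 - f) = 1 - f := hf.one_sub.isIdempotentElem.eq
        calc P * (1 - f) * ((1 - f) * P) = P * ((1 - f) * (1 - f)) * P := by noncomm_ring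
          _ = _ := by rw [this]
      have h1 := star_left_conjugate_le_conjugate hP1 (1 - f)
      have h1f : star (1 - f) = 1 - f := hf.one_sub.isSelfAdjoint.star_eq
      rw [h1f] at h1
      have h2 : (1 - f) * (P * x * P) * (1 - f) = 0 := by
        have e1 : (1 - f) * P = P * (1 - f) := by rw [sub_mul, mul_sub, one_mul, mul_one, hcf]
        have e2 : (1 - f) * x = 0 := by rw [sub_mul, one_mul, hfx, sub_self]
        calc (1 - f) * (P * x * P) * (1 - f) = ((1 - f) * P) * x * P * (1 - f) := by noncomm_ring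
          _ = P * ((1 - f) * x) * P * (1 - f) := by rw [e1]; noncomm_ring
          _ = 0 := by rw [e2]; simp
      rw [h2, mul_smul_comm, smul_mul_assoc] at h1
      have h3 : 0 ≤ (1 - f) * P * (1 - f) := by
        have := star_left_conjugate_nonneg hP.nonneg (1 - f)
        rwa [h1f] at this
      have h4 : ((d : ℝ) : ℂ) • ((1 - f) * P * (1 - f)) = 0 := by
        refine le_antisymm h1 ?_
        have : ((d : ℝ) : ℂ) • ((1 - f) * P * (1 - f)) = (d : ℝ) • ((1 - f) * P * (1 - f)) := by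
          ext v
          simp
        rw [this]
        exact smul_nonneg hcpos.le h3
      have h5 : (1 - f) * P * (1 - f) = 0 := by
        rcases smul_eq_zero.mp h4 with h | h
        · exfalso
          exact hcpos.ne' (by exact_mod_cast h)
        · exact h
      have h6 : (1 - f) * P = 0 := by
        have e1 : (1 - f) * P = P * (1 - f) := by rw [sub_mul, mul_sub, one_mul, mul_one, hcf]
        have e3 : (1 - f) * (1 - f) = 1 - f := hf.one_sub.isIdempotentElem.eq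
        calc (1 - f) * P = ((1 - f) * (1 - f)) * P := by rw [e3]
          _ = (1 - f) * ((1 - f) * P) := by rw [mul_assoc]
          _ = (1 - f) * (P * (1 - f)) := by rw [e1]
          _ = (1 - f) * P * (1 - f) := by rw [mul_assoc]
          _ = 0 := h5
      rw [sub_mul, one_mul, sub_eq_zero] at h6
      exact h6.symm
    set x' := x - ((d : ℝ) : ℂ) • P with hx'
    have hx'M : x' ∈ 𝓜.M := sub_mem hx (𝓜.M.toStarSubalgebra.smul_mem hPM _)
    have hdec : ∀ y : H →L[ℂ] H, P * y = y * P → y = P * y * P + (1 - P) * y * (1 - P) := by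
      intro y hy
      have e1 : P * y * P = y * P := by rw [hy, mul_assoc, hPP]
      have e2 : (1 - P) * y * (1 - P) = y - y * P := by
        have : (1 - P) * y = y - y * P := by rw [sub_mul, one_mul, hy]
        rw [this, mul_sub, mul_one, sub_mul, mul_assoc, hPP]
        abel
      rw [e1, e2]
      abel
    have h1 : P * x' * P = P * x * P - ((d : ℝ) : ℂ) • P := by
      rw [hx', mul_sub, sub_mul, mul_smul_comm, smul_mul_assoc, hPP, hPP]
    have h2 : (1 - P) * x' * (1 - P) = (1 - P) * x * (1 - P) := by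
      have : (1 - P) * P = 0 := by rw [sub_mul, one_mul, hPP, sub_self]
      calc (1 - P) * x' * (1 - P)
          = (1 - P) * x * (1 - P) - (1 - P) * (((d : ℝ) : ℂ) • P) * (1 - P) := by
            rw [hx']; noncomm_ring
        _ = (1 - P) * x * (1 - P) := by
            rw [mul_smul_comm, this, smul_zero, zero_mul, sub_zero]
    have hPx' : P * x' = x' * P := by
      rw [hx', mul_sub, sub_mul, hPx, mul_smul_comm, smul_mul_assoc]
    have hPc : star (1 - P) = 1 - P := hP.one_sub.isSelfAdjoint.star_eq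
    have hx'0 : 0 ≤ x' := by
      rw [hdec x' hPx', h1, h2]
      refine add_nonneg (sub_nonneg.mpr hP1) ?_
      have := star_left_conjugate_nonneg hx0 (1 - P)
      rwa [hPc] at this
    have hx'c : x' ≤ ((d : ℝ) : ℂ) • 1 := by
      rw [hdec x' hPx', h1, h2]
      have e1 : P * x * P ≤ ((c : ℝ) : ℂ) • P := by
        have := star_left_conjugate_le_conjugate hxc P
        rwa [hPs, mul_smul_comm, smul_mul_assoc, mul_one, hPP] at this
      have e2 : ((c : ℝ) : ℂ) • P - ((d : ℝ) : ℂ) • P = ((d : ℝ) : ℂ) • P := by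
        rw [← sub_smul]
        congr 1
        rw [hd]
        push_cast
        ring
      calc P * x * P - ((d : ℝ) : ℂ) • P + (1 - P) * x * (1 - P)
          ≤ (((c : ℝ) : ℂ) • P - ((d : ℝ) : ℂ) • P) + ((d : ℝ) : ℂ) • (1 - P) := by
            gcongr
        _ = ((d : ℝ) : ℂ) • 1 := by
            rw [e2, ← smul_add]
            congr 1
            abel
    have hfx' : f * x' = x' := by
      rw [hx', mul_sub, hfx, mul_smul_comm, hfP]
    have key := ih d x' hx'M hx'0 hfx' hx'c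
    have hxe : x = x' + ((d : ℝ) : ℂ) • P := by rw [hx']; abel
    have htr : 𝓜.tr x = 𝓜.tr x' + d * 𝓜.tr P := by
      conv_lhs => rw [hxe]
      rw [𝓜.tr_add _ _ hx'M (𝓜.M.toStarSubalgebra.smul_mem hPM _) hx'0 ?_, 𝓜.tr_smul d P hPM
        hP.nonneg]
      have : ((d : ℝ) : ℂ) • P = (d : ℝ) • P := by
        ext v
        simp
      rw [this]
      exact smul_nonneg d.2 hP.nonneg
    have hin : RCLike.re (inner ℂ (x ξ) ξ)
        = RCLike.re (inner ℂ (x' ξ) ξ) + (d : ℝ) * ‖P ξ‖ ^ 2 := by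
      conv_lhs => rw [hxe]
      have e1 : (x' + ((d : ℝ) : ℂ) • P) ξ = x' ξ + ((d : ℝ) : ℂ) • P ξ := rfl
      rw [e1, inner_add_left, map_add]
      congr 1
      have e2 : inner ℂ (((d : ℝ) : ℂ) • P ξ) ξ = ((d : ℝ) : ℂ) * inner ℂ (P ξ) ξ := by
        rw [inner_smul_left]
        simp
      have e3 : inner ℂ (P ξ) ξ = inner ℂ (P ξ) (P ξ) := by
        rw [inner_self_proj hP, inner_self_proj hP]
        congr 1
        exact (congrArg (fun T : H →L[ℂ] H => T ξ) hPP).symm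
      rw [e2, e3, inner_self_eq_norm_sq_to_K]
      have : (((d : ℝ) : ℂ) * ((‖P ξ‖ : ℝ) : ℂ) ^ 2) = (((d : ℝ) * ‖P ξ‖ ^ 2 : ℝ) : ℂ) := by
        push_cast; ring
      erw [this]
      exact Complex.ofReal_re _
    have hin0 : 0 ≤ RCLike.re (inner ℂ (x' ξ) ξ) := by
      have := (ContinuousLinearMap.nonneg_iff_isPositive _).mp hx'0
      exact this.re_inner_nonneg_left ξ
    rw [htr, hin, ENNReal.ofReal_add hin0 (by positivity),
      ENNReal.ofReal_mul (NNReal.coe_nonneg d)]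
    have hdP : (d : ℝ≥0∞) * 𝓜.tr P ≤ ENNReal.ofReal (d : ℝ) * ENNReal.ofReal (‖P ξ‖ ^ 2) := by
      rw [ENNReal.ofReal_coe_nnreal]
      gcongr
      exact hdom P hP hPM hfP
    have hcd : (c / 2 ^ (n + 1) : ℝ≥0) = d / 2 ^ n := by
      rw [hd, pow_succ, div_div, mul_comm (2 ^ n) (2 : ℝ≥0)]
    rw [hcd]
    calc 𝓜.tr x' + d * 𝓜.tr P
        ≤ (ENNReal.ofReal (RCLike.re (inner ℂ (x' ξ) ξ)) + (d / 2 ^ n : ℝ≥0) * 𝓜.tr f) +
          ENNReal.ofReal (d : ℝ) * ENNReal.ofReal (‖P ξ‖ ^ 2) := add_le_add key hdP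
      _ = _ := by ring

/-- a projection is well dominated by a vector functional -/
def Good (𝓜 : TVN H) (f : H →L[ℂ] H) : Prop :=
  ∃ η : H, ENNReal.ofReal (‖η‖ ^ 2) ≤ 2 * 𝓜.tr f ∧
    ∀ x, x ∈ 𝓜.M → 𝓜.tr (star (x * f) * (x * f)) ≤ ENNReal.ofReal (‖x η‖ ^ 2)

lemma norm_proj_sq {p : H →L[ℂ] H} (hp : IsStarProjection p) (ξ : H) :
    ‖p ξ‖ ^ 2 = RCLike.re (inner ℂ (p ξ) ξ) := by
  have e3 : inner ℂ (p ξ) ξ = inner ℂ (p ξ) (p ξ) := by
    rw [inner_self_proj hp, inner_self_proj hp]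
    congr 1
    exact (congrArg (fun T : H →L[ℂ] H => T ξ) hp.isIdempotentElem.eq).symm
  rw [e3, ← norm_sq_eq_re_inner]

/-- domination of positive elements from the one of projections -/
lemma dom_all (𝓜 : TVN H) (hspec : ∀ (y : H →L[ℂ] H) (lam : ℝ), IsSelfAdjoint y →
    ∃ P : H →L[ℂ] H, IsStarProjection P ∧ P * y = y * P ∧
      (lam : ℂ) • P ≤ P * y * P ∧ (1 - P) * y * (1 - P) ≤ (lam : ℂ) • (1 - P) ∧
      (∀ c : H →L[ℂ] H, c * y = y * c → c * P = P * c) ∧
      (∀ V : VonNeumannAlgebra H, y ∈ V → P ∈ V))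
    (hmono : ∀ x y, x ∈ 𝓜.M → y ∈ 𝓜.M → 0 ≤ x → x ≤ y → 𝓜.tr x ≤ 𝓜.tr y)
    {f : H →L[ℂ] H} (hf : IsStarProjection f) (hfM : f ∈ 𝓜.M) (hft : 𝓜.tr f < ⊤) (ξ : H)
    (hdom : ∀ q, IsStarProjection q → q ∈ 𝓜.M → f * q = q →
      𝓜.tr q ≤ ENNReal.ofReal (‖q ξ‖ ^ 2)) {x : H →L[ℂ] H} (hx : x ∈ 𝓜.M) :
    𝓜.tr (star (x * f) * (x * f)) ≤ ENNReal.ofReal (‖x (f ξ)‖ ^ 2) := by
  set y := star (x * f) * (x * f) with hy
  have hyM : y ∈ 𝓜.M := mul_mem (star_mem (mul_mem hx hfM)) (mul_mem hx hfM)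
  have hy0 : 0 ≤ y := star_mul_self_nonneg _
  have hfy : f * y = y := by
    rw [hy, star_mul, hf.isSelfAdjoint.star_eq]
    calc f * (f * star x * (x * f)) = (f * f) * star x * (x * f) := by noncomm_ring
      _ = _ := by rw [hf.isIdempotentElem.eq]
  have hyc : y ≤ (((‖y‖₊ : ℝ≥0) : ℝ) : ℂ) • 1 := by
    have h1 : y ≤ algebraMap ℝ (H →L[ℂ] H) ‖y‖ :=
      (IsSelfAdjoint.of_nonneg hy0).le_algebraMap_norm_self
    refine h1.trans (le_of_eq ?_)
    rw [Algebra.algebraMap_eq_smul_one]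
    ext v
    simp
  have hin : RCLike.re (inner ℂ (y ξ) ξ) = ‖x (f ξ)‖ ^ 2 := by
    have e1 : inner ℂ (y ξ) ξ = inner ℂ ((x * f) ξ) ((x * f) ξ) := by
      have : y ξ = (star (x * f)) ((x * f) ξ) := rfl
      rw [this, ContinuousLinearMap.star_eq_adjoint, ContinuousLinearMap.adjoint_inner_left]
    rw [e1, ← norm_sq_eq_re_inner]
    rfl
  have hall := fun n => layer 𝓜 hspec hmono hf hfM ξ hdom n ‖y‖₊ y hyM hy0 hfy hyc
  rw [hin] at hall
  have hlim : Filter.Tendsto (fun n : ℕ => ENNReal.ofReal (‖x (f ξ)‖ ^ 2) +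
      ((‖y‖₊ / 2 ^ n : ℝ≥0) : ℝ≥0∞) * 𝓜.tr f) Filter.atTop
      (𝓝 (ENNReal.ofReal (‖x (f ξ)‖ ^ 2) + ((0 : ℝ≥0) : ℝ≥0∞) * 𝓜.tr f)) := by
    refine Filter.Tendsto.add tendsto_const_nhds ?_
    refine ENNReal.Tendsto.mul_const ?_ (Or.inr hft.ne)
    refine ENNReal.tendsto_coe.mpr ?_
    have h2 : Filter.Tendsto (fun n : ℕ => ‖y‖₊ * (1 / 2 : ℝ≥0) ^ n) Filter.atTop
        (𝓝 (‖y‖₊ * 0)) := by
      refine Filter.Tendsto.const_mul _ ?_
      have h3 : (1 / 2 : ℝ≥0) < 1 := by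
        rw [← NNReal.coe_lt_coe]; push_cast; norm_num
      exact tendsto_pow_atTop_nhds_zero_of_lt_one zero_le h3
    rw [mul_zero] at h2
    refine h2.congr fun n => ?_
    rw [one_div, inv_pow, div_eq_mul_inv]
  rw [ENNReal.coe_zero, zero_mul, add_zero] at hlim
  exact ge_of_tendsto' hlim hall

lemma local_dom (𝓜 : TVN H) (hspec : ∀ (y : H →L[ℂ] H) (lam : ℝ), IsSelfAdjoint y →
    ∃ P : H →L[ℂ] H, IsStarProjection P ∧ P * y = y * P ∧
      (lam : ℂ) • P ≤ P * y * P ∧ (1 - P) * y * (1 - P) ≤ (lam : ℂ) • (1 - P) ∧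
      (∀ c : H →L[ℂ] H, c * y = y * c → c * P = P * c) ∧
      (∀ V : VonNeumannAlgebra H, y ∈ V → P ∈ V))
    (hmono : ∀ x y, x ∈ 𝓜.M → y ∈ 𝓜.M → 0 ≤ x → x ≤ y → 𝓜.tr x ≤ 𝓜.tr y) (h0 : 𝓜.tr 0 = 0)
    {e : H →L[ℂ] H} (he : IsStarProjection e) (heM : e ∈ 𝓜.M) (het : 𝓜.tr e < ⊤)
    (hne : e ≠ 0) :
    ∃ f, f ≠ 0 ∧ IsStarProjection f ∧ f ∈ 𝓜.M ∧ e * f = f ∧ Good 𝓜 f := by
  classical
  obtain ⟨v, hv⟩ : ∃ v, e v ≠ 0 := by
    by_contra hcon
    push Not at hcon
    exact hne (ContinuousLinearMap.ext hcon)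
  have hv' : 0 < ‖e v‖ := norm_pos_iff.mpr hv
  set T := (𝓜.tr e).toReal with hT
  have hT0 : 0 ≤ T := ENNReal.toReal_nonneg
  set ξ : H := (((T + 1) / ‖e v‖ : ℝ) : ℂ) • e v with hξ
  have hξn : ‖ξ‖ = T + 1 := by
    rw [hξ, norm_smul, Complex.norm_real, Real.norm_of_nonneg (by positivity)]
    field_simp
  have heξ : e ξ = ξ := by
    rw [hξ, map_smul]
    congr 1
    exact congrArg (fun T : H →L[ℂ] H => T v) he.isIdempotentElem.eq
  obtain ⟨p, hp, ho, hmax⟩ := exhaust 𝓜 hmono h0 (fun p => ENNReal.ofReal (‖p ξ‖ ^ 2) ≤ 𝓜.tr p)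
    (by simp) he heM het
  have hpp := fun n => (hp n).2.1
  have hpM := fun n => (hp n).2.2.1
  have hep := fun n => (hp n).2.2.2
  obtain ⟨s, hs, hslim, hsV⟩ := exists_sum p hpp ho
  have hsM := hsV _ hpM
  have hes : e * s = s := by
    ext w
    have h1 := (e.continuous.tendsto _).comp (hslim w)
    have h2 : (⇑e ∘ fun n => (∑ i ∈ range n, p i) w) = fun n => (∑ i ∈ range n, p i) w := by
      funext n
      have : e * (∑ i ∈ range n, p i) = ∑ i ∈ range n, p i := by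
        rw [mul_sum]
        exact sum_congr rfl fun i _ => hep i
      exact congrArg (fun T : H →L[ℂ] H => T w) this
    rw [h2] at h1
    exact tendsto_nhds_unique h1 (hslim w)
  have htrs : 𝓜.tr s = ∑' n, 𝓜.tr (p n) := by
    have := tr_sum 𝓜 h0 hpp ho hpM hs hslim (one_mem 𝓜.M)
    simpa using this
  have hsn : ENNReal.ofReal (‖s ξ‖ ^ 2) ≤ 𝓜.tr s := by
    have h1 : Filter.Tendsto (fun n => ENNReal.ofReal (‖(∑ i ∈ range n, p i) ξ‖ ^ 2)) Filter.atTop
        (𝓝 (ENNReal.ofReal (‖s ξ‖ ^ 2))) :=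
      ENNReal.tendsto_ofReal ((hslim ξ).norm.pow 2)
    refine le_of_tendsto' h1 fun n => ?_
    rw [norm_proj_sq (proj_sum hpp ho n)]
    have h2 : RCLike.re (inner ℂ ((∑ i ∈ range n, p i) ξ) ξ)
        = ∑ i ∈ range n, ‖p i ξ‖ ^ 2 := by
      rw [_root_.sum_apply, sum_inner, map_sum]
      exact sum_congr rfl fun i _ => (norm_proj_sq (hpp i) ξ).symm
    rw [h2, ENNReal.ofReal_sum_of_nonneg fun i _ => by positivity, htrs]
    exact (sum_le_sum fun i _ => (hp i).1).trans (ENNReal.sum_le_tsum _)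
  set f1 := e - s with hf1
  have hf1p : IsStarProjection f1 := (hs.le_tfae he |>.out 1 3).mp hes
  have hf1M : f1 ∈ 𝓜.M := sub_mem heM hsM
  have hf1e : f1 ≤ e := sub_le_self _ hs.nonneg
  have hf1t : 𝓜.tr f1 < ⊤ := lt_of_le_of_lt (hmono _ _ hf1M heM hf1p.nonneg hf1e) het
  have hf1ne : f1 ≠ 0 := by
    intro h
    have hes' : e = s := sub_eq_zero.mp h
    rw [← hes', heξ, hξn] at hsn
    have h3 : ENNReal.ofReal ((T + 1) ^ 2) ≤ ENNReal.ofReal T := by
      rwa [hT, ENNReal.ofReal_toReal het.ne, ← hT]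
    have h4 : ENNReal.ofReal T < ENNReal.ofReal ((T + 1) ^ 2) :=
      (ENNReal.ofReal_lt_ofReal_iff (by positivity)).mpr (by nlinarith)
    exact absurd h3 (not_le.mpr h4)
  have hef1 : e * f1 = f1 := by rw [hf1, mul_sub, he.isIdempotentElem.eq, hes]
  have hpf1 : ∀ n, p n * f1 = 0 := by
    intro n
    have h1 : p n * e = p n := by
      have := congrArg star (hep n)
      rwa [star_mul, he.isSelfAdjoint.star_eq, (hpp n).isSelfAdjoint.star_eq] at this
    have h2 : p n * s = p n := by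
      have := congrArg star (s_mul hpp ho hslim n)
      rwa [star_mul, hs.isSelfAdjoint.star_eq, (hpp n).isSelfAdjoint.star_eq] at this
    rw [hf1, mul_sub, h1, h2, sub_self]
  have hdom1 : ∀ q, IsStarProjection q → q ∈ 𝓜.M → f1 * q = q →
      𝓜.tr q ≤ ENNReal.ofReal (‖q ξ‖ ^ 2) := by
    intro q hq hqM hfq
    by_cases hC : ENNReal.ofReal (‖q ξ‖ ^ 2) ≤ 𝓜.tr q
    · have : q = 0 := by
        refine hmax q hC hq hqM ?_ ?_
        · rw [← hfq, ← mul_assoc, hef1]
        · intro n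
          rw [← hfq, ← mul_assoc, hpf1, zero_mul]
      rw [this, h0]
      exact zero_le
    · exact (not_le.mp hC).le
  -- the scale
  have hex : ∃ k : ℕ, ∃ q, IsStarProjection q ∧ q ∈ 𝓜.M ∧ f1 * q = q ∧ q ≠ 0 ∧
      ENNReal.ofReal (‖q ξ‖ ^ 2) ≤ 2 ^ (k + 1) * 𝓜.tr q := by
    have hpos : 𝓜.tr f1 ≠ 0 := fun h => hf1ne (𝓜.tr_faithful _ hf1M hf1p.nonneg h)
    obtain ⟨n, hn⟩ := ENNReal.exists_nat_mul_gt hpos
      (ENNReal.ofReal_ne_top (r := ‖f1 ξ‖ ^ 2))
    refine ⟨n, f1, hf1p, hf1M, hf1p.isIdempotentElem.eq, hf1ne, hn.le.trans ?_⟩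
    gcongr
    have : n ≤ 2 ^ (n + 1) := (Nat.lt_two_pow_self).le.trans (Nat.pow_le_pow_right (by norm_num)
      (Nat.le_succ n))
    exact_mod_cast this
  set k := Nat.find hex with hk
  obtain ⟨f, hf, hfM, hf1f, hfne, hfk⟩ := Nat.find_spec hex
  have hlow : ∀ q, IsStarProjection q → q ∈ 𝓜.M → f1 * q = q →
      2 ^ k * 𝓜.tr q ≤ ENNReal.ofReal (‖q ξ‖ ^ 2) := by
    intro q hq hqM hfq
    rcases Nat.eq_zero_or_pos k with hk0 | hkpos
    · rw [hk0, pow_zero, one_mul]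
      exact hdom1 q hq hqM hfq
    · by_cases hq0 : q = 0
      · rw [hq0, h0, mul_zero]
        exact zero_le
      have h1 := Nat.find_min hex (m := k - 1) (by omega)
      push Not at h1
      have h2 := h1 q hq hqM hfq hq0
      rw [Nat.sub_add_cancel hkpos] at h2
      exact h2.le
  have hef : e * f = f := by rw [← hf1f, ← mul_assoc, hef1]
  have hfe : f ≤ e := hf.le_of_mul_eq_right he hef
  have hft : 𝓜.tr f < ⊤ := lt_of_le_of_lt (hmono _ _ hfM heM hf.nonneg hfe) het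
  set c : ℝ := (Real.sqrt (2 ^ k))⁻¹ with hc
  have hc2 : c ^ 2 = (2 ^ k)⁻¹ := by
    rw [hc, inv_pow, Real.sq_sqrt (by positivity)]
  have hq' : ∀ q : H →L[ℂ] H, 2 ^ k * ENNReal.ofReal (‖q ((c : ℂ) • ξ)‖ ^ 2)
      = ENNReal.ofReal (‖q ξ‖ ^ 2) := by
    intro q
    have h1 : ‖q ((c : ℂ) • ξ)‖ ^ 2 = (2 ^ k)⁻¹ * ‖q ξ‖ ^ 2 := by
      rw [map_smul, norm_smul, mul_pow, Complex.norm_real, Real.norm_eq_abs, sq_abs, hc2]
    have h2 : (2 : ℝ≥0∞) ^ k = ENNReal.ofReal (2 ^ k) := by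
      rw [ENNReal.ofReal_pow (by norm_num), ENNReal.ofReal_ofNat]
    rw [h1, h2, ← ENNReal.ofReal_mul (by positivity), ← mul_assoc,
      mul_inv_cancel₀ (by positivity), one_mul]
  have h2k : (2 : ℝ≥0∞) ^ k ≠ 0 := by positivity
  have h2k' : (2 : ℝ≥0∞) ^ k ≠ ⊤ := by finiteness
  refine ⟨f, hfne, hf, hfM, hef, f ((c : ℂ) • ξ), ?_, ?_⟩
  · have h1 := hfk
    have h3 : (2 : ℝ≥0∞) ^ (k + 1) * 𝓜.tr f = 2 ^ k * (2 * 𝓜.tr f) := by ring
    rw [← hk, ← hq' f, h3] at h1
    exact (ENNReal.mul_le_mul_iff_right h2k h2k').mp h1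
  · intro x hx
    refine dom_all 𝓜 hspec hmono hf hfM hft ((c : ℂ) • ξ) ?_ hx
    intro q hq hqM hfq
    have h1 := hlow q hq hqM (by rw [← hfq, ← mul_assoc, hf1f])
    rw [← hq' q] at h1
    exact (ENNReal.mul_le_mul_iff_right h2k h2k').mp h1

end H_A_norm

open H_A_norm

/-- Domination of the trace of a finite projection by a sum of vector functionals. -/
def A_normle : Prop :=
  ∀ (H : Type u) [NormedAddCommGroup H] [InnerProductSpace ℂ H] [CompleteSpace H]
    (𝓜 : TVN H) (g : H →L[ℂ] H), g ∈ 𝓜.M → IsStarProjection g → 𝓜.tr g < ⊤ →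
    ∃ v : ℕ → H, Summable (fun i => ‖v i‖ ^ 2) ∧
      ∀ x, x ∈ 𝓜.M → 𝓜.tr (star (x * g) * (x * g)) ≤ ∑' i, ENNReal.ofReal (‖x (v i)‖ ^ 2)

theorem q_normle (h2 : A_spec.{u}) (h3 : A_tr.{u}) : A_normle.{u} := by
  intro H _ _ _ 𝓜 g hgM hg hgt
  obtain ⟨h0, hmono, -⟩ := h3 H 𝓜
  have hspec : ∀ (y : H →L[ℂ] H) (lam : ℝ), IsSelfAdjoint y →
    ∃ P : H →L[ℂ] H, IsStarProjection P ∧ P * y = y * P ∧
      (lam : ℂ) • P ≤ P * y * P ∧ (1 - P) * y * (1 - P) ≤ (lam : ℂ) • (1 - P) ∧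
      (∀ c : H →L[ℂ] H, c * y = y * c → c * P = P * c) ∧
      (∀ V : VonNeumannAlgebra H, y ∈ V → P ∈ V) := by
    intro y lam hy
    obtain ⟨P, a1, a2, a3, a4, a5, a6, -⟩ := h2 H y lam hy
    exact ⟨P, a1, a2, a3, a4, a5, a6⟩
  obtain ⟨p, hp, ho, hmax⟩ := exhaust 𝓜 hmono h0 (fun p => Good 𝓜 p)
    ⟨0, by simp, fun x _ => by simp [h0]⟩ hg hgM hgt
  have hpp := fun n => (hp n).2.1
  have hpM := fun n => (hp n).2.2.1
  have hgp := fun n => (hp n).2.2.2
  obtain ⟨s, hs, hslim, hsV⟩ := exists_sum p hpp ho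
  have hsM := hsV _ hpM
  have hgs : g * s = s := by
    ext w
    have h1 := (g.continuous.tendsto _).comp (hslim w)
    have h2 : (⇑g ∘ fun n => (∑ i ∈ range n, p i) w) = fun n => (∑ i ∈ range n, p i) w := by
      funext n
      have : g * (∑ i ∈ range n, p i) = ∑ i ∈ range n, p i := by
        rw [mul_sum]
        exact sum_congr rfl fun i _ => hgp i
      exact congrArg (fun T : H →L[ℂ] H => T w) this
    rw [h2] at h1
    exact tendsto_nhds_unique h1 (hslim w)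
  have hgeqs : g = s := by
    by_contra hcon
    have he : IsStarProjection (g - s) := (hs.le_tfae hg |>.out 1 3).mp hgs
    have heM : g - s ∈ 𝓜.M := sub_mem hgM hsM
    have hele : g - s ≤ g := sub_le_self _ hs.nonneg
    have het : 𝓜.tr (g - s) < ⊤ := lt_of_le_of_lt (hmono _ _ heM hgM he.nonneg hele) hgt
    obtain ⟨f, hfne, hf, hfM, hef, hgood⟩ := local_dom 𝓜 hspec hmono h0 he heM het
      (sub_ne_zero.mpr hcon)
    refine hfne (hmax f hgood hf hfM ?_ ?_)
    · have : g * (g - s) = g - s := by rw [mul_sub, hg.isIdempotentElem.eq, hgs]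
      rw [← hef, ← mul_assoc, this]
    · intro n
      have h1 : p n * g = p n := by
        have := congrArg star (hgp n)
        rwa [star_mul, hg.isSelfAdjoint.star_eq, (hpp n).isSelfAdjoint.star_eq] at this
      have h2 : p n * s = p n := by
        have := congrArg star (s_mul hpp ho hslim n)
        rwa [star_mul, hs.isSelfAdjoint.star_eq, (hpp n).isSelfAdjoint.star_eq] at this
      rw [← hef, ← mul_assoc, mul_sub, h1, h2, sub_self, zero_mul]
  choose η hη1 hη2 using fun n => (hp n).1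
  have htrs : 𝓜.tr s = ∑' n, 𝓜.tr (p n) := by
    have := tr_sum 𝓜 h0 hpp ho hpM hs hslim (one_mem 𝓜.M)
    simpa using this
  refine ⟨η, ?_, ?_⟩
  · have h1 : ∑' n, ENNReal.ofReal (‖η n‖ ^ 2) ≠ ⊤ := by
      refine ne_top_of_le_ne_top ?_ (ENNReal.tsum_le_tsum hη1)
      rw [ENNReal.tsum_mul_left, ← htrs, ← hgeqs]
      exact ENNReal.mul_ne_top ENNReal.ofNat_ne_top hgt.ne
    have h2 := ENNReal.summable_toReal h1
    refine h2.congr fun n => ?_
    exact ENNReal.toReal_ofReal (by positivity)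
  · intro x hx
    have h1 : 𝓜.tr (star (x * g) * (x * g)) = 𝓜.tr (x * g * star x) := by
      rw [𝓜.tr_star _ (mul_mem hx hgM), star_mul, hg.isSelfAdjoint.star_eq]
      congr 1
      calc x * g * (g * star x) = x * (g * g) * star x := by noncomm_ring
        _ = _ := by rw [hg.isIdempotentElem.eq]
    rw [h1, hgeqs, tr_sum 𝓜 h0 hpp ho hpM hs hslim hx]
    refine ENNReal.tsum_le_tsum fun n => ?_
    refine le_trans (le_of_eq ?_) (hη2 n x hx)
    rw [𝓜.tr_star _ (mul_mem hx (hpM n)), star_mul, (hpp n).isSelfAdjoint.star_eq]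
    congr 1
    calc x * p n * star x = x * (p n * p n) * star x := by rw [(hpp n).isIdempotentElem.eq]
      _ = _ := by noncomm_ring

end MDB
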