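import Pool.Agent.MDB.Targets2

/-!
# Mixed Doob-Burkholder: range projections and functional calculus in a von Neumann algebra
-/

open scoped ENNReal NNReal Topology

namespace MDB

universe u

namespace H_A_rp

variable {H : Type u} [NormedAddCommGroup H] [InnerProductSpace ℂ H] [CompleteSpace H]

theorem mem_range_cl (a : H →L[ℂ] H) (v : H) :
    a v ∈ (LinearMap.range (a : H →ₗ[ℂ] H)).topologicalClosure :=
  Submodule.le_topologicalClosure _ ⟨v, rfl⟩

theorem rp_apply_mem (a : H →L[ℂ] H) (v : H) :
    rp a v ∈ (LinearMap.range (a : H →ₗ[ℂ] H)).topologicalClosure :=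
  Submodule.starProjection_apply_mem _ v

theorem rp_of_mem (a : H →L[ℂ] H) {v : H}
    (hv : v ∈ (LinearMap.range (a : H →ₗ[ℂ] H)).topologicalClosure) : rp a v = v :=
  Submodule.starProjection_eq_self_iff.mpr hv

/-- an operator mapping the range of `a` into a closed set maps the closure into it -/
theorem maps_cl (a b : H →L[ℂ] H) (S : Set H) (hS : IsClosed S) (h : ∀ v, b (a v) ∈ S) {v : H}
    (hv : v ∈ (LinearMap.range (a : H →ₗ[ℂ] H)).topologicalClosure) : b v ∈ S := by
  have h1 : v ∈ closure ((LinearMap.range (a : H →ₗ[ℂ] H) : Submodule ℂ H) : Set H) := hv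
  have h2 : closure ((LinearMap.range (a : H →ₗ[ℂ] H) : Submodule ℂ H) : Set H) ⊆ b ⁻¹' S := by
    refine closure_minimal ?_ (hS.preimage b.continuous)
    rintro _ ⟨w, rfl⟩
    exact h w
  exact h2 h1

theorem rp_proj (a : H →L[ℂ] H) : IsStarProjection (rp a) :=
  isStarProjection_starProjection

theorem rp_mul (a : H →L[ℂ] H) : rp a * a = a := by
  ext v
  exact rp_of_mem a (mem_range_cl a v)

theorem mul_rp (a b : H →L[ℂ] H) (h : b * a = 0) : b * rp a = 0 := by
  ext v
  have h0 : ∀ w, b (a w) ∈ ({0} : Set H) := fun w => by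
    have := congrArg (fun T : H →L[ℂ] H => T w) h
    exact this
  have h1 := maps_cl a b {0} isClosed_singleton h0 (rp_apply_mem a v)
  exact h1

theorem rp_comm (a c : H →L[ℂ] H) (h : c * a = a * c) (h' : star c * a = a * star c) :
    c * rp a = rp a * c := by
  have inv : ∀ d : H →L[ℂ] H, d * a = a * d → rp a * (d * rp a) = d * rp a := by
    intro d hd
    ext v
    refine rp_of_mem a ?_
    have h0 : ∀ w, d (a w) ∈
        (((LinearMap.range (a : H →ₗ[ℂ] H)).topologicalClosure : Submodule ℂ H) : Set H) := by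
      intro w
      have h1 : d (a w) = a (d w) := by
        have := congrArg (fun T : H →L[ℂ] H => T w) hd
        exact this
      rw [h1]
      exact mem_range_cl a (d w)
    exact maps_cl a d _ (Submodule.isClosed_topologicalClosure _) h0 (rp_apply_mem a v)
  have h1 := inv c h
  have h2 := inv (star c) h'
  have hs : star (rp a) = rp a := (rp_proj a).isSelfAdjoint.star_eq
  have h3 : rp a * c * rp a = rp a * c := by
    have h4 := congrArg star h2
    rw [star_mul, star_mul, star_star, hs] at h4
    exact h4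
  calc c * rp a = rp a * (c * rp a) := h1.symm
    _ = rp a * c * rp a := (mul_assoc _ _ _).symm
    _ = rp a * c := h3

theorem mem_of_comm (V : VonNeumannAlgebra H) (x : H →L[ℂ] H)
    (h : ∀ c : H →L[ℂ] H, (∀ y ∈ V, y * c = c * y) → c * x = x * c) : x ∈ V := by
  have h1 : x ∈ Set.centralizer (Set.centralizer (V : Set (H →L[ℂ] H))) := by
    rw [Set.mem_centralizer_iff]
    intro c hc
    rw [Set.mem_centralizer_iff] at hc
    exact h c hc
  rw [VonNeumannAlgebra.centralizer_centralizer] at h1
  exact h1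

theorem rp_mem (V : VonNeumannAlgebra H) (a : H →L[ℂ] H) (ha : a ∈ V) : rp a ∈ V := by
  refine mem_of_comm V _ fun c hc => rp_comm a c (hc a ha).symm ?_
  have h1 := congrArg star (hc (star a) (star_mem ha))
  rw [star_mul, star_mul, star_star] at h1
  exact h1

theorem cfc_mem (V : VonNeumannAlgebra H) (a : H →L[ℂ] H) (f : ℝ → ℝ) (ha : a ∈ V) :
    cfc f a ∈ V := by
  refine mem_of_comm V _ fun c hc => ?_
  have h1 : Commute a c := hc a ha
  exact (h1.cfc_real f).symm

end H_A_rp

open H_A_rp

theorem q_rp : A_rp.{u} := by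
  intro H _ _ _ a
  exact ⟨rp_proj a, rp_mul a, fun b hb => mul_rp a b hb, fun V hV => rp_mem V a hV⟩

theorem q_cfc : A_cfc.{u} := by
  intro H _ _ _ V a f ha
  exact cfc_mem V a f ha

end MDB
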