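import Pool.Agent.MDB.Targets2

/-!
# Range projection and support projection have the same trace
-/

open scoped ENNReal NNReal Topology
open Finset

namespace MDB

open Mc

universe u

namespace H_A_rptr

variable {H : Type u} [NormedAddCommGroup H] [InnerProductSpace ℂ H] [CompleteSpace H]

/-- the approximating functions -/
noncomputable def fn (n : ℕ) (s : ℝ) : ℝ := s / (s + 1 / ((n : ℝ) + 1))

/-- the quotients -/
noncomputable def gn (n : ℕ) (s : ℝ) : ℝ := 1 / (s + 1 / ((n : ℝ) + 1))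

lemma pos_n (n : ℕ) : (0 : ℝ) < 1 / ((n : ℝ) + 1) := by positivity

lemma fn_cont (n : ℕ) : ContinuousOn (fn n) (Set.Ici 0) := by
  unfold fn
  apply ContinuousOn.div continuousOn_id (by fun_prop)
  intro s hs
  have hs' : (0 : ℝ) ≤ s := hs
  have := pos_n n
  positivity

lemma gn_cont (n : ℕ) : ContinuousOn (gn n) (Set.Ici 0) := by
  unfold gn
  apply ContinuousOn.div continuousOn_const (by fun_prop)
  intro s hs
  have hs' : (0 : ℝ) ≤ s := hs
  have := pos_n n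
  positivity

lemma fn_zero (n : ℕ) : fn n 0 = 0 := by simp [fn]

lemma fn_nonneg (n : ℕ) (s : ℝ) (hs : 0 ≤ s) : 0 ≤ fn n s := by
  have := pos_n n
  unfold fn
  positivity

lemma fn_le_one (n : ℕ) (s : ℝ) (hs : 0 ≤ s) : fn n s ≤ 1 := by
  have := pos_n n
  unfold fn
  rw [div_le_one (by positivity)]
  linarith

lemma fn_mono {m n : ℕ} (h : m ≤ n) (s : ℝ) (hs : 0 ≤ s) : fn m s ≤ fn n s := by
  have h1 := pos_n n
  have h2 := pos_n m
  have h3 : 1 / ((n : ℝ) + 1) ≤ 1 / ((m : ℝ) + 1) := by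
    apply one_div_le_one_div_of_le (by positivity)
    have : (m : ℝ) ≤ n := by exact_mod_cast h
    linarith
  unfold fn
  apply div_le_div_of_nonneg_left hs (by positivity)
  linarith

lemma spec_nonneg {b : H →L[ℂ] H} (hb : 0 ≤ b) {s : ℝ} (hs : s ∈ spectrum ℝ b) : 0 ≤ s :=
  spectrum_nonneg_of_nonneg hb hs

lemma rp_mul_star (h1 : A_rp.{u}) (a : H →L[ℂ] H) : rp (a * star a) = rp a := by
  obtain ⟨pP, pa, pb, -⟩ := h1 H a
  obtain ⟨qP, qa, qb, -⟩ := h1 H (a * star a)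
  have e1 : (1 - rp a) * rp (a * star a) = 0 := by
    apply qb
    rw [sub_mul, one_mul, ← mul_assoc, pa, sub_self]
  have e2 : (1 - rp (a * star a)) * a = 0 := by
    have h : ((1 - rp (a * star a)) * a) * star ((1 - rp (a * star a)) * a) = 0 := by
      rw [star_mul, mul_assoc, ← mul_assoc a, ← mul_assoc, sub_mul, one_mul, qa, sub_self, zero_mul]
    exact CStarRing.mul_star_self_eq_zero_iff _ |>.mp h
  have e3 := pb _ e2
  have e4 : rp (a * star a) = rp a * rp (a * star a) := by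
    rw [sub_mul, one_mul, sub_eq_zero] at e1
    exact e1
  have e5 : rp a = rp (a * star a) * rp a := by
    rw [sub_mul, one_mul, sub_eq_zero] at e3
    exact e3
  have e6 : rp a = rp a * rp (a * star a) := by
    have := congrArg star e5
    rw [star_mul] at this
    rwa [pP.isSelfAdjoint.star_eq, qP.isSelfAdjoint.star_eq] at this
  rw [e4]
  exact e6.symm

lemma cfc_eq_mul (b : H →L[ℂ] H) (hb : 0 ≤ b) (n : ℕ) :
    cfc (fn n) b = b * cfc (gn n) b := by
  have hsa : IsSelfAdjoint b := IsSelfAdjoint.of_nonneg hb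
  have hc : ContinuousOn (gn n) (spectrum ℝ b) := (gn_cont n).mono (fun s hs => spec_nonneg hb hs)
  have h := cfc_mul (fun s : ℝ => s) (gn n) b (by fun_prop) hc
  rw [cfc_id' ℝ b hsa] at h
  rw [← h]
  apply cfc_congr
  intro s _
  simp [fn, gn, div_eq_mul_inv]

lemma nrm_le (b : H →L[ℂ] H) (hb : 0 ≤ b) (n : ℕ) :
    ‖cfc (fn n) b * b - b‖ ≤ 1 / ((n : ℝ) + 1) := by
  have hsa : IsSelfAdjoint b := IsSelfAdjoint.of_nonneg hb
  have hc : ContinuousOn (fn n) (spectrum ℝ b) := (fn_cont n).mono (fun s hs => spec_nonneg hb hs)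
  have h := cfc_mul (fn n) (fun s : ℝ => s) b hc (by fun_prop)
  have h2 := cfc_sub (fun s : ℝ => fn n s * s) (fun s : ℝ => s) b (hc.mul (by fun_prop))
    (by fun_prop)
  rw [h, cfc_id' ℝ b hsa] at h2
  rw [← h2]
  have hp := pos_n n
  apply norm_cfc_le hp.le
  intro s hs
  have hs0 := spec_nonneg hb hs
  have hden : 0 < s + 1 / ((n : ℝ) + 1) := by positivity
  have e : fn n s * s - s = -(1 / ((n : ℝ) + 1) * fn n s) := by
    unfold fn
    field_simp
    ring
  rw [e, norm_neg, norm_mul, Real.norm_of_nonneg hp.le, Real.norm_of_nonneg (fn_nonneg n s hs0)]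
  nlinarith [fn_le_one n s hs0, fn_nonneg n s hs0]

lemma F_nonneg (b : H →L[ℂ] H) (hb : 0 ≤ b) (n : ℕ) : 0 ≤ cfc (fn n) b :=
  cfc_nonneg (fun s hs => fn_nonneg n s (spec_nonneg hb hs))

lemma F_le_one (b : H →L[ℂ] H) (hb : 0 ≤ b) (n : ℕ) : cfc (fn n) b ≤ 1 :=
  cfc_le_one (fn n) b (fun s hs => fn_le_one n s (spec_nonneg hb hs))

lemma F_norm_le (b : H →L[ℂ] H) (hb : 0 ≤ b) (n : ℕ) : ‖cfc (fn n) b‖ ≤ 1 := by
  apply norm_cfc_le zero_le_one
  intro s hs
  have hs0 := spec_nonneg hb hs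
  rw [Real.norm_of_nonneg (fn_nonneg n s hs0)]
  exact fn_le_one n s hs0

lemma F_mono (b : H →L[ℂ] H) (hb : 0 ≤ b) {m n : ℕ} (h : m ≤ n) :
    cfc (fn m) b ≤ cfc (fn n) b :=
  cfc_mono (fun s hs => fn_mono h s (spec_nonneg hb hs))
    ((fn_cont m).mono (fun _ hs => spec_nonneg hb hs))
    ((fn_cont n).mono (fun _ hs => spec_nonneg hb hs))

lemma rp_F (h1 : A_rp.{u}) (b : H →L[ℂ] H) (hb : 0 ≤ b) (n : ℕ) :
    rp b * cfc (fn n) b = cfc (fn n) b := by
  rw [cfc_eq_mul b hb n, ← mul_assoc, (h1 H b).2.1]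

lemma F_rp (h1 : A_rp.{u}) (b : H →L[ℂ] H) (hb : 0 ≤ b) (n : ℕ) :
    cfc (fn n) b * rp b = cfc (fn n) b := by
  have := congrArg star (rp_F h1 b hb n)
  rw [star_mul, (h1 H b).1.isSelfAdjoint.star_eq] at this
  have h2 : star (cfc (fn n) b) = cfc (fn n) b := (cfc_predicate (fn n) b : IsSelfAdjoint _).star_eq
  rwa [h2] at this

lemma F_le_rp (h1 : A_rp.{u}) (b : H →L[ℂ] H) (hb : 0 ≤ b) (n : ℕ) :
    cfc (fn n) b ≤ rp b := by
  have h := star_left_conjugate_le_conjugate (F_le_one b hb n) (rp b)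
  rw [(h1 H b).1.isSelfAdjoint.star_eq, mul_one, (h1 H b).1.isIdempotentElem.eq, rp_F h1 b hb n,
    F_rp h1 b hb n] at h
  exact h

lemma F_tendsto_cl (b : H →L[ℂ] H) (hb : 0 ≤ b) (w : H)
    (hw : w ∈ (LinearMap.range (b : H →ₗ[ℂ] H)).topologicalClosure) :
    Filter.Tendsto (fun n => cfc (fn n) b w) Filter.atTop (𝓝 w) := by
  rw [Metric.tendsto_atTop]
  intro ε hε
  have hw' : w ∈ closure ((LinearMap.range (b : H →ₗ[ℂ] H) : Submodule ℂ H) : Set H) := hw
  rw [Metric.mem_closure_iff] at hw'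
  obtain ⟨z, ⟨u, rfl⟩, hz⟩ := hw' (ε / 3) (by positivity)
  obtain ⟨N, hN⟩ := exists_nat_gt (3 * ‖u‖ / ε)
  refine ⟨N, fun n hn => ?_⟩
  have hb1 : ‖w - b u‖ < ε / 3 := by
    rw [← dist_eq_norm]; exact hz
  have e : cfc (fn n) b w - w = cfc (fn n) b (w - b u) + (cfc (fn n) b * b - b) u - (w - b u) := by
    have e0 : (cfc (fn n) b * b) u = cfc (fn n) b (b u) := rfl
    simp only [map_sub, _root_.sub_apply, e0]
    abel
  have h2 : ‖cfc (fn n) b (w - b u)‖ < ε / 3 := by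
    calc _ ≤ ‖cfc (fn n) b‖ * ‖w - b u‖ := ContinuousLinearMap.le_opNorm _ _
      _ ≤ 1 * ‖w - b u‖ := by gcongr; exact F_norm_le b hb n
      _ < ε / 3 := by rw [one_mul]; exact hb1
  have h3 : ‖(cfc (fn n) b * b - b) u‖ < ε / 3 := by
    have h4 : (0 : ℝ) < (n : ℝ) + 1 := by positivity
    have h5 : 3 * ‖u‖ / ε < (n : ℝ) + 1 := by
      have : (N : ℝ) ≤ n := by exact_mod_cast hn
      linarith
    rw [div_lt_iff₀ hε] at h5
    calc _ ≤ ‖cfc (fn n) b * b - b‖ * ‖u‖ := ContinuousLinearMap.le_opNorm _ _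
      _ ≤ 1 / ((n : ℝ) + 1) * ‖u‖ := by gcongr; exact nrm_le b hb n
      _ < ε / 3 := by
          rw [one_div_mul_eq_div, div_lt_iff₀ h4]
          linarith
  rw [dist_eq_norm, e]
  calc _ ≤ ‖cfc (fn n) b (w - b u) + (cfc (fn n) b * b - b) u‖ + ‖w - b u‖ := _root_.norm_sub_le _ _
    _ ≤ ‖cfc (fn n) b (w - b u)‖ + ‖(cfc (fn n) b * b - b) u‖ + ‖w - b u‖ := by
        gcongr; exact norm_add_le _ _
    _ < ε := by linarith

lemma F_tendsto (h1 : A_rp.{u}) (b : H →L[ℂ] H) (hb : 0 ≤ b) (v : H) :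
    Filter.Tendsto (fun n => cfc (fn n) b v) Filter.atTop (𝓝 (rp b v)) := by
  have h := F_tendsto_cl b hb (rp b v) (by
    unfold rp
    exact Submodule.starProjection_apply_mem _ v)
  refine h.congr (fun n => ?_)
  have := congrArg (fun T : H →L[ℂ] H => T v) (F_rp h1 b hb n)
  simpa using this

lemma isLUB_F (h1 : A_rp.{u}) (b : H →L[ℂ] H) (hb : 0 ≤ b) :
    IsLUB (Set.range (fun n : ℕ => cfc (fn n) b)) (rp b) := by
  constructor
  · rintro _ ⟨n, rfl⟩
    exact F_le_rp h1 b hb n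
  · intro c hc
    have hc' : ∀ n, cfc (fn n) b ≤ c := fun n => hc ⟨n, rfl⟩
    have hsc : IsSelfAdjoint c := by
      have : 0 ≤ c := (F_nonneg b hb 0).trans (hc' 0)
      exact IsSelfAdjoint.of_nonneg this
    rw [ContinuousLinearMap.le_def]
    rw [ContinuousLinearMap.isPositive_def]
    refine ⟨(hsc.sub (h1 H b).1.isSelfAdjoint).isSymmetric, fun v => ?_⟩
    have hlim : Filter.Tendsto (fun n => (c - cfc (fn n) b).reApplyInnerSelf v) Filter.atTop
        (𝓝 ((c - rp b).reApplyInnerSelf v)) := by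
      unfold ContinuousLinearMap.reApplyInnerSelf
      have h2 : Filter.Tendsto (fun n => (c - cfc (fn n) b) v) Filter.atTop
          (𝓝 ((c - rp b) v)) := by
        simp only [_root_.sub_apply]
        exact tendsto_const_nhds.sub (F_tendsto h1 b hb v)
      exact (RCLike.continuous_re.tendsto _).comp (h2.inner tendsto_const_nhds)
    refine ge_of_tendsto' hlim (fun n => ?_)
    have := hc' n
    rw [ContinuousLinearMap.le_def, ContinuousLinearMap.isPositive_def] at this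
    exact this.2 v

end H_A_rptr

open H_A_rptr in
theorem q_rptr (h1 : A_rp.{u}) (h2 : A_cfc.{u}) (h3 : A_tr.{u}) : A_rptr.{u} := by
  intro H _ _ _ 𝓜 a ha
  have hsa : star a ∈ 𝓜.M := star_mem ha
  have key : ∀ b : H →L[ℂ] H, 0 ≤ b → b ∈ 𝓜.M →
      𝓜.tr (rp b) = ⨆ n : ℕ, 𝓜.tr (cfc (fn n) b) := by
    intro b hb hbM
    rw [𝓜.tr_normal (Set.range (fun n : ℕ => cfc (fn n) b)) (rp b) (Set.range_nonempty _) ?_ ?_
      (isLUB_F h1 b hb), iSup_range]
    · rw [directedOn_range]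
      exact Monotone.directed_le (fun m n h => F_mono b hb h)
    · rintro _ ⟨n, rfl⟩
      exact ⟨h2 H 𝓜.M b (fn n) hbM, F_nonneg b hb n⟩
  have e1 : rp a = rp (a * star a) := (rp_mul_star h1 a).symm
  have e2 : rp (star a) = rp (star a * a) := by
    have := (rp_mul_star h1 (star a)).symm
    rwa [star_star] at this
  rw [e1, e2, key _ (mul_star_self_nonneg a) (mul_mem ha hsa),
    key _ (star_mul_self_nonneg a) (mul_mem hsa ha)]
  refine iSup_congr (fun n => ?_)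
  exact ((h3 H 𝓜).2.2.2.2 (fn n) a ha (fn_cont n) (fn_zero n) (fn_nonneg n)).symm

end MDB
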