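import Pool.Agent.MDB.Targets2
import Pool.Agent.MDB.Targets

open scoped ENNReal NNReal Topology
open Finset

namespace MDB

universe u

namespace H_A_spec

variable {H : Type u} [NormedAddCommGroup H] [InnerProductSpace ℂ H] [CompleteSpace H]

/-- the positive part of `y - lam` -/
noncomputable def pa (y : H →L[ℂ] H) (lam : ℝ) : H →L[ℂ] H :=
  cfc (fun s : ℝ => max (s - lam) 0) y

/-- the negative part of `y - lam` -/
noncomputable def pb (y : H →L[ℂ] H) (lam : ℝ) : H →L[ℂ] H :=
  cfc (fun s : ℝ => max (lam - s) 0) y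

theorem pa_nonneg (y : H →L[ℂ] H) (lam : ℝ) : 0 ≤ pa y lam :=
  cfc_nonneg fun _ _ => le_max_right _ _

theorem pb_nonneg (y : H →L[ℂ] H) (lam : ℝ) : 0 ≤ pb y lam :=
  cfc_nonneg fun _ _ => le_max_right _ _

theorem ca (y : H →L[ℂ] H) (lam : ℝ) :
    ContinuousOn (fun s : ℝ => max (s - lam) 0) (spectrum ℝ y) := by
  fun_prop

theorem cb (y : H →L[ℂ] H) (lam : ℝ) :
    ContinuousOn (fun s : ℝ => max (lam - s) 0) (spectrum ℝ y) := by
  fun_prop

theorem sub_eq (y : H →L[ℂ] H) (hy : IsSelfAdjoint y) (lam : ℝ) :
    pa y lam - pb y lam = y - (lam : ℂ) • 1 := by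
  unfold pa pb
  rw [← cfc_sub _ _ y (ca y lam) (cb y lam)]
  have e : ∀ s : ℝ, max (s - lam) 0 - max (lam - s) 0 = s - lam := by
    intro s
    rcases le_total s lam with h | h
    · rw [max_eq_right (by linarith), max_eq_left (by linarith)]; ring
    · rw [max_eq_left (by linarith), max_eq_right (by linarith)]; ring
  rw [cfc_congr (g := fun s : ℝ => s - lam) fun s _ => e s,
    cfc_sub _ _ y (by fun_prop) (by fun_prop), cfc_id' ℝ y, cfc_const lam y,
    Algebra.algebraMap_eq_smul_one]
  rfl

theorem mul_ab (y : H →L[ℂ] H) (lam : ℝ) : pa y lam * pb y lam = 0 := by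
  unfold pa pb
  rw [← cfc_mul _ _ y (ca y lam) (cb y lam)]
  have e : ∀ s : ℝ, max (s - lam) 0 * max (lam - s) 0 = 0 := by
    intro s
    rcases le_total s lam with h | h
    · rw [max_eq_right (a := s - lam) (by linarith), zero_mul]
    · rw [max_eq_right (a := lam - s) (by linarith), mul_zero]
  rw [cfc_congr (g := fun _ : ℝ => (0 : ℝ)) fun s _ => e s, cfc_const_zero]

theorem comm_a (y c : H →L[ℂ] H) (hy : IsSelfAdjoint y) (lam : ℝ) (h : c * y = y * c) :
    c * pa y lam = pa y lam * c := by
  have h1 : Commute y c := h.symm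
  have h2 : Commute (star y) c := by rw [hy.star_eq]; exact h1
  exact (h1.cfc h2 _).symm

theorem comm_b (y c : H →L[ℂ] H) (hy : IsSelfAdjoint y) (lam : ℝ) (h : c * y = y * c) :
    c * pb y lam = pb y lam * c := by
  have h1 : Commute y c := h.symm
  have h2 : Commute (star y) c := by rw [hy.star_eq]; exact h1
  exact (h1.cfc h2 _).symm

end H_A_spec

open H_A_spec in
theorem q_spec (h1 : A_rp.{u}) (h2 : A_cfc.{u}) : A_spec.{u} := by
  intro H _ _ _ y lam hy
  set a := pa y lam with ha
  set b := pb y lam with hb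
  obtain ⟨r1, r2, r3, r4⟩ := h1 H a
  set P := rp a with hP
  have a0 : 0 ≤ a := pa_nonneg y lam
  have b0 : 0 ≤ b := pb_nonneg y lam
  have asa : star a = a := (IsSelfAdjoint.of_nonneg a0).star_eq
  have bsa : star b = b := (IsSelfAdjoint.of_nonneg b0).star_eq
  have PP : P * P = P := r1.isIdempotentElem
  have Psa : star P = P := r1.isSelfAdjoint.star_eq
  have ab : a * b = 0 := mul_ab y lam
  have ba : b * a = 0 := by
    have h := congrArg star ab
    rwa [star_mul, star_zero, asa, bsa] at h
  have bP : b * P = 0 := r3 b ba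
  have Pb : P * b = 0 := by
    have h := congrArg star bP
    rwa [star_mul, star_zero, Psa, bsa] at h
  have aP : a * P = a := by
    have h := congrArg star r2
    rwa [star_mul, Psa, asa] at h
  have hsub : a - b = y - (lam : ℂ) • 1 := sub_eq y hy lam
  have hy2 : y = a - b + (lam : ℂ) • 1 := by rw [hsub]; abel
  have Py : P * y = a + (lam : ℂ) • P := by
    rw [hy2, mul_add, mul_sub, r2, Pb, sub_zero, mul_smul_comm, mul_one]
  have yP : y * P = a + (lam : ℂ) • P := by
    rw [hy2, add_mul, sub_mul, aP, bP, sub_zero, smul_mul_assoc, one_mul]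
  refine ⟨P, r1, Py.trans yP.symm, ?_, ?_, ?_, ?_, ?_⟩
  · rw [Py, add_mul, aP, smul_mul_assoc, PP]
    exact le_add_of_nonneg_left a0
  · have e : (1 - P) * y * (1 - P) = (lam : ℂ) • (1 - P) - b := by
      have e1 : (1 - P) * y = (lam : ℂ) • (1 - P) - b := by
        rw [sub_mul, one_mul, Py]
        nth_rewrite 1 [hy2]
        rw [smul_sub]; abel
      rw [e1, sub_mul, mul_sub b, mul_one, bP, sub_zero, smul_mul_assoc]
      have e2 : (1 - P) * (1 - P) = 1 - P := r1.one_sub.isIdempotentElem
      rw [e2]
    rw [e]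
    exact sub_le_self _ b0
  · intro c hc
    have key : ∀ d : H →L[ℂ] H, d * y = y * d → (1 - P) * d * P = 0 := by
      intro d hd
      refine r3 _ ?_
      rw [mul_assoc, comm_a y d hy lam hd, ← mul_assoc, sub_mul, one_mul, r2, sub_self, zero_mul]
    have k1 := key c hc
    have hc' : star c * y = y * star c := by
      have h := congrArg star hc
      rw [star_mul, star_mul, hy.star_eq] at h
      exact h.symm
    have k2 := congrArg star (key (star c) hc')
    rw [star_mul, star_mul, star_star, star_zero, Psa, r1.one_sub.isSelfAdjoint.star_eq] at k2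
    rw [sub_mul, one_mul, sub_mul, sub_eq_zero] at k1
    rw [mul_sub, mul_one, mul_sub, sub_eq_zero, ← mul_assoc] at k2
    exact k1.trans k2.symm
  · intro V hV
    exact r4 V (h2 H V y _ hV)
  · intro e pe he c hc
    have ee : e * e = e := pe.isIdempotentElem
    have esa : star e = e := pe.isSelfAdjoint.star_eq
    have ea : e * a = a * e := comm_a y e hy lam he
    have eb : e * b = b * e := comm_b y e hy lam he
    have h3 : (a - b) * e = ((c - lam : ℝ) : ℂ) • e := by
      rw [hsub, sub_mul, hc, smul_mul_assoc, one_mul, ← sub_smul]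
      push_cast
      rfl
    rcases le_or_gt c lam with hcl | hcl
    · left
      have h4 : star (a * e) * (a * e) = ((c - lam : ℝ) : ℂ) • (e * a * e) := by
        rw [star_mul, esa, asa]
        have : e * a * (a * e) = e * a * ((a - b) * e) := by
          rw [sub_mul a b e, mul_sub, mul_assoc e a (b * e), ← mul_assoc a b e, ab, zero_mul,
            mul_zero, sub_zero]
        rw [this, h3, mul_smul_comm]
      have h5 : 0 ≤ e * a * e := by
        have := star_left_conjugate_nonneg a0 e
        rwa [esa] at this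
      have h6 : star (a * e) * (a * e) ≤ 0 := by
        rw [h4]
        have h7 : (((c - lam : ℝ) : ℂ) • (e * a * e) : H →L[ℂ] H) =
            -((lam - c : ℝ) • (e * a * e)) := by
          rw [← neg_smul, neg_sub]
          rfl
        rw [h7]
        exact neg_nonpos.mpr (smul_nonneg (by linarith) h5)
      have h8 : star (a * e) * (a * e) = 0 := le_antisymm h6 (star_mul_self_nonneg _)
      have h9 : a * e = 0 := CStarRing.star_mul_self_eq_zero_iff _ |>.mp h8
      have h10 : e * P = 0 := r3 e (by rw [ea, h9])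
      have h11 := congrArg star h10
      rwa [star_mul, star_zero, Psa, esa] at h11
    · right
      have h4 : star (b * e) * (b * e) = -(((c - lam : ℝ) : ℂ) • (e * b * e)) := by
        rw [star_mul, esa, bsa]
        have : e * b * (b * e) = -(e * b * ((a - b) * e)) := by
          rw [sub_mul a b e, mul_sub, mul_assoc e b (a * e), ← mul_assoc b a e, ba, zero_mul,
            mul_zero, zero_sub, neg_neg]
        rw [this, h3, mul_smul_comm]
      have h5 : 0 ≤ e * b * e := by
        have := star_left_conjugate_nonneg b0 e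
        rwa [esa] at this
      have h6 : star (b * e) * (b * e) ≤ 0 := by
        rw [h4]
        have h7 : (((c - lam : ℝ) : ℂ) • (e * b * e) : H →L[ℂ] H) = (c - lam : ℝ) • (e * b * e) :=
          rfl
        rw [h7]
        exact neg_nonpos.mpr (smul_nonneg (by linarith) h5)
      have h8 : star (b * e) * (b * e) = 0 := le_antisymm h6 (star_mul_self_nonneg _)
      have h9 : b * e = 0 := CStarRing.star_mul_self_eq_zero_iff _ |>.mp h8
      rw [sub_mul, h9, sub_zero] at h3
      have hne : ((c - lam : ℝ) : ℂ) ≠ 0 := by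
        exact_mod_cast (sub_pos.mpr hcl).ne'
      have h10 : e = (((c - lam : ℝ) : ℂ))⁻¹ • (a * e) := by
        rw [h3, smul_smul, inv_mul_cancel₀ hne, one_smul]
      have h11 : P * (a * e) = a * e := by rw [← mul_assoc, r2]
      calc P * e = P * ((((c - lam : ℝ) : ℂ))⁻¹ • (a * e)) := by rw [← h10]
        _ = (((c - lam : ℝ) : ℂ))⁻¹ • (a * e) := by rw [mul_smul_comm, h11]
        _ = e := h10.symm

end MDB
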