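import Pool.Agent.MDB.Targets2
import Pool.Agent.MDB.Targets

/-!
# Cutting by finite projections of the first algebra
-/

open scoped ENNReal NNReal Topology
open Finset

namespace MDB

open Mc

universe u

namespace H_A_supg

variable {H : Type u} [NormedAddCommGroup H] [InnerProductSpace ℂ H] [CompleteSpace H]

/-- the restriction of the trace to the first algebra -/
def N0 (𝓜 : TVN H) (F : Filtr 𝓜) : TVN H where
  M := F.N 0
  tr := 𝓜.tr
  tr_add x y hx hy h0 h1 := 𝓜.tr_add x y (F.le 0 hx) (F.le 0 hy) h0 h1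
  tr_smul c x hx h0 := 𝓜.tr_smul c x (F.le 0 hx) h0
  tr_star x hx := 𝓜.tr_star x (F.le 0 hx)
  tr_normal D s hD hd hm hs := 𝓜.tr_normal D s hD hd (fun x hx => ⟨F.le 0 (hm x hx).1, (hm x hx).2⟩) hs
  tr_semifinite x hx h0 hne := F.semifinite 0 x hx h0 hne
  tr_faithful x hx h0 h := 𝓜.tr_faithful x (F.le 0 hx) h0 h

/-- finite projections of the first algebra -/
def Pf (𝓜 : TVN H) (F : Filtr 𝓜) : Set (H →L[ℂ] H) :=
  {g | g ∈ F.N 0 ∧ IsStarProjection g ∧ 𝓜.tr g < ⊤}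

theorem zero_mem_Pf (h4 : A_tr.{u}) (𝓜 : TVN H) (F : Filtr 𝓜) : (0 : H →L[ℂ] H) ∈ Pf 𝓜 F :=
  ⟨zero_mem _, IsStarProjection.zero _, by rw [(h4 H 𝓜).1]; exact ENNReal.zero_lt_top⟩

/-- joins -/
theorem join (h3 : A_meet.{u}) (𝓜 : TVN H) (F : Filtr 𝓜) {g h : H →L[ℂ] H}
    (hg : g ∈ Pf 𝓜 F) (hh : h ∈ Pf 𝓜 F) :
    ∃ k ∈ Pf 𝓜 F, k * g = g ∧ k * h = h := by
  obtain ⟨g1, g2, g3⟩ := hg
  obtain ⟨k1, k2, k3⟩ := hh
  obtain ⟨m, mM, pm, m1, m2, mt⟩ := (h3 H (N0 𝓜 F)).1 (1 - g) (1 - h) (sub_mem (one_mem _) g1)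
    (sub_mem (one_mem _) k1) g2.one_sub k2.one_sub
  have key : ∀ e : H →L[ℂ] H, IsStarProjection e → (1 - e) * m = m → (1 - m) * e = e := by
    intro e pe he
    have a1 : e * m = 0 := by
      rw [sub_mul, one_mul] at he
      exact sub_eq_self.mp he
    have a2 := congrArg star a1
    rw [star_mul, star_zero, pm.isSelfAdjoint.star_eq, pe.isSelfAdjoint.star_eq] at a2
    rw [sub_mul, one_mul, a2, sub_zero]
  refine ⟨1 - m, ⟨sub_mem (one_mem _) mM, pm.one_sub, ?_⟩, key g g2 m1, key h k2 m2⟩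
  rw [sub_sub_cancel, sub_sub_cancel] at mt
  exact lt_of_le_of_lt mt (ENNReal.add_lt_top.mpr ⟨g3, k3⟩)

/-- the union of the ranges of the finite projections -/
noncomputable def Kf (𝓜 : TVN H) (F : Filtr 𝓜) : Submodule ℂ H :=
  (⨆ g : Pf 𝓜 F, LinearMap.range (g.1 : H →ₗ[ℂ] H)).topologicalClosure

theorem range_le (𝓜 : TVN H) (F : Filtr 𝓜) {g : H →L[ℂ] H} (hg : g ∈ Pf 𝓜 F) :
    LinearMap.range (g : H →ₗ[ℂ] H) ≤ Kf 𝓜 F :=
  (le_iSup (fun g : Pf 𝓜 F => LinearMap.range (g.1 : H →ₗ[ℂ] H)) ⟨g, hg⟩).trans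
    (Submodule.le_topologicalClosure _)

theorem Kf_top (h2 : A_spec.{u}) (h4 : A_tr.{u}) (𝓜 : TVN H) (F : Filtr 𝓜) : Kf 𝓜 F = ⊤ := by
  classical
  have : CompleteSpace (Kf 𝓜 F) :=
    (Submodule.isClosed_topologicalClosure _).completeSpace_coe
  have : (Kf 𝓜 F).HasOrthogonalProjection := inferInstance
  set Q : H →L[ℂ] H := (Kf 𝓜 F).starProjection with hQ
  have pQ : IsStarProjection Q := isStarProjection_starProjection
  have rK : LinearMap.range (Q : H →ₗ[ℂ] H) = Kf 𝓜 F := by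
    ext x
    constructor
    · rintro ⟨z, rfl⟩
      exact Submodule.starProjection_apply_mem _ _
    · intro hx
      exact ⟨x, Submodule.starProjection_eq_self_iff.mpr hx⟩
  have QM : Q ∈ F.N 0 := by
    rw [VonNeumannAlgebra.IsStarProjection.mem_iff pQ]
    intro y hy
    rw [Module.End.mem_invtSubmodule]
    have rK' : Q.range = Kf 𝓜 F := rK
    rw [rK']
    have hcl : IsClosed (((Kf 𝓜 F).comap (y : H →ₗ[ℂ] H) : Submodule ℂ H) : Set H) :=
      (Submodule.isClosed_topologicalClosure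
        (⨆ g : Pf 𝓜 F, LinearMap.range (g.1 : H →ₗ[ℂ] H))).preimage y.continuous
    refine Submodule.topologicalClosure_minimal _ (iSup_le fun g => ?_) hcl
    rintro _ ⟨x, rfl⟩
    have hc : g.1 * y = y * g.1 := VonNeumannAlgebra.mem_commutant_iff.mp hy _ g.2.1
    refine range_le 𝓜 F g.2 ⟨y x, ?_⟩
    exact congrArg (fun T : H →L[ℂ] H => T x) hc
  have QP : ∀ g ∈ Pf 𝓜 F, Q * g = g := by
    intro g hg
    ext x
    exact Submodule.starProjection_eq_self_iff.mpr (range_le 𝓜 F hg ⟨x, rfl⟩)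
  by_contra hne
  have h1Q : (1 : H →L[ℂ] H) - Q ≠ 0 := by
    intro h
    apply hne
    rw [← rK]
    rw [eq_top_iff]
    intro x _
    refine ⟨x, ?_⟩
    have h' : (1 : H →L[ℂ] H) = Q := sub_eq_zero.mp h
    have := congrArg (fun T : H →L[ℂ] H => T x) h'
    exact this.symm
  obtain ⟨y, yM, y0, yQ, yne, yt⟩ := F.semifinite 0 (1 - Q) (sub_mem (one_mem _) QM)
    pQ.one_sub.nonneg h1Q
  obtain ⟨-, tmono, -⟩ := h4 H 𝓜
  apply yne
  have hle : ∀ lam : ℝ, 0 < lam → ‖y‖ ≤ lam := by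
    intro lam hlam
    obtain ⟨P, pP, Pc, P1, P2, -, P4, -⟩ := h2 H y lam (IsSelfAdjoint.of_nonneg y0)
    have PM : P ∈ F.N 0 := P4 _ yM
    have sP : star P = P := pP.isSelfAdjoint.star_eq
    have PP : P * P = P := pP.isIdempotentElem
    have e1 : P * y * P = y * P := by rw [Pc, mul_assoc, PP]
    have hdiff : (1 - P) * y * (1 - P) = y - P * y * P := by
      have : (1 - P) * y * (1 - P) = y - y * P - P * y + P * y * P := by
        rw [sub_mul, one_mul, sub_mul, mul_sub, mul_sub, mul_one, mul_one]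
        abel
      have e2 : y * P * P = y * P := by rw [mul_assoc, PP]
      rw [this, Pc, e2]
      abel
    have c1 : 0 ≤ (1 - P) * y * (1 - P) := by
      have := star_left_conjugate_nonneg y0 (1 - P)
      rwa [star_sub, star_one, sP] at this
    have c2 : P * y * P ≤ y := by
      rw [hdiff] at c1
      exact sub_nonneg.mp c1
    have c3 : 0 ≤ P * y * P := by
      have := star_left_conjugate_nonneg y0 P
      rwa [sP] at this
    have hyM : y ∈ 𝓜.M := F.le 0 yM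
    have hPM : P ∈ 𝓜.M := F.le 0 PM
    have hPyP : P * y * P ∈ 𝓜.M := mul_mem (mul_mem hPM hyM) hPM
    have t1 : 𝓜.tr (P * y * P) ≤ 𝓜.tr y := tmono _ _ hPyP hyM c3 c2
    have hsm := 𝓜.tr_smul (⟨lam, hlam.le⟩ : ℝ≥0) P hPM pP.nonneg
    have hlamP : ((lam : ℝ) : ℂ) • P ∈ 𝓜.M := 𝓜.M.toStarSubalgebra.smul_mem hPM _
    have hlamP0 : (0 : H →L[ℂ] H) ≤ ((lam : ℝ) : ℂ) • P := by
      have h := smul_nonneg hlam.le pP.nonneg (β := H →L[ℂ] H) (a := lam)
      have e : ((lam : ℝ) : ℂ) • P = lam • P := by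
        ext v
        exact Complex.coe_smul _ _
      rw [e]; exact h
    have t2 : 𝓜.tr (((lam : ℝ) : ℂ) • P) ≤ 𝓜.tr (P * y * P) := tmono _ _ hlamP hPyP hlamP0 P1
    have t3 : 𝓜.tr P < ⊤ := by
      by_contra hP
      have hP' : 𝓜.tr P = ⊤ := not_lt_top_iff.mp hP
      have hs2 : 𝓜.tr (((lam : ℝ) : ℂ) • P) = ⊤ := by
        refine hsm.trans ?_
        rw [hP']
        refine ENNReal.mul_top ?_
        intro h0
        have h0' := ENNReal.coe_eq_zero.mp h0
        have := congrArg NNReal.toReal h0'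
        exact hlam.ne' this
      rw [hs2] at t2
      have := lt_of_le_of_lt (t2.trans t1) yt
      exact lt_irrefl _ this
    have hPf : P ∈ Pf 𝓜 F := ⟨PM, pP, t3⟩
    have z1 : (1 - Q) * P = 0 := by rw [sub_mul, one_mul, QP P hPf, sub_self]
    have z2 : P * y * P ≤ 0 := by
      have h := star_left_conjugate_le_conjugate yQ P
      rw [sP, mul_assoc P (1 - Q) P, z1, mul_zero] at h
      exact h
    have z3 : ((lam : ℝ) : ℂ) • P = 0 := le_antisymm (P1.trans z2) hlamP0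
    have z4 : P = 0 := by
      rcases smul_eq_zero.mp z3 with h | h
      · exact absurd (by exact_mod_cast h) hlam.ne'
      · exact h
    rw [z4, sub_zero, one_mul, mul_one] at P2
    have hyle : y ≤ algebraMap ℝ (H →L[ℂ] H) lam := by
      refine P2.trans (le_of_eq ?_)
      rw [Algebra.algebraMap_eq_smul_one]
      ext v
      exact Complex.coe_smul _ _
    exact (CStarAlgebra.norm_le_iff_le_algebraMap y hlam.le y0).mpr hyle
  have : ‖y‖ ≤ 0 := by
    refine le_of_forall_pos_le_add fun δ hδ => ?_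
    rw [zero_add]; exact hle δ hδ
  exact norm_le_zero_iff.mp this

/-- strong density -/
theorem dense (h2 : A_spec.{u}) (h3 : A_meet.{u}) (h4 : A_tr.{u}) (𝓜 : TVN H) (F : Filtr 𝓜)
    (v : H) (ε : ℝ) (hε : 0 < ε) : ∃ g ∈ Pf 𝓜 F, ‖v - g v‖ < ε := by
  have hv : v ∈ Kf 𝓜 F := by rw [Kf_top h2 h4]; trivial
  have hv' : v ∈ closure ((⨆ g : Pf 𝓜 F, LinearMap.range (g.1 : H →ₗ[ℂ] H) : Submodule ℂ H) :
      Set H) := hv
  obtain ⟨z, hz, hd⟩ := Metric.mem_closure_iff.mp hv' ε hε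
  have : Nonempty (Pf 𝓜 F) := ⟨⟨0, zero_mem_Pf h4 𝓜 F⟩⟩
  have hdir : Directed (· ≤ ·) fun g : Pf 𝓜 F => LinearMap.range (g.1 : H →ₗ[ℂ] H) := by
    intro g h
    obtain ⟨k, hk, k1, k2⟩ := join h3 𝓜 F g.2 h.2
    refine ⟨⟨k, hk⟩, ?_, ?_⟩
    · rintro _ ⟨w, rfl⟩
      refine ⟨g.1 w, ?_⟩
      exact congrArg (fun T : H →L[ℂ] H => T w) k1
    · rintro _ ⟨w, rfl⟩
      refine ⟨h.1 w, ?_⟩
      exact congrArg (fun T : H →L[ℂ] H => T w) k2
  obtain ⟨g, hg⟩ := (Submodule.mem_iSup_of_directed _ hdir).mp hz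
  obtain ⟨w, hw⟩ := hg
  have hw' : g.1 w = z := hw
  refine ⟨g.1, g.2, ?_⟩
  have gg : g.1 * g.1 = g.1 := g.2.2.1.isIdempotentElem
  have hgz : g.1 z = z := by
    rw [← hw']
    exact congrArg (fun T : H →L[ℂ] H => T w) gg
  have e1 : v - g.1 v = (1 - g.1) (v - z) := by
    change v - g.1 v = (v - z) - g.1 (v - z)
    rw [map_sub, hgz]; abel
  rw [e1]
  have hn : ‖(1 : H →L[ℂ] H) - g.1‖ ≤ 1 := g.2.2.1.one_sub.norm_le
  calc ‖(1 - g.1) (v - z)‖ ≤ ‖(1 : H →L[ℂ] H) - g.1‖ * ‖v - z‖ := ContinuousLinearMap.le_opNorm _ _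
    _ ≤ 1 * ‖v - z‖ := by gcongr
    _ = dist v z := by rw [one_mul, dist_eq_norm]
    _ < ε := hd

/-- the least upper bound of `s g s` -/
theorem lub_s (h2 : A_spec.{u}) (h3 : A_meet.{u}) (h4 : A_tr.{u}) (𝓜 : TVN H) (F : Filtr 𝓜)
    (s : H →L[ℂ] H) (hs : star s = s) :
    IsLUB ((fun g => s * g * s) '' Pf 𝓜 F) (s * s) := by
  constructor
  · rintro _ ⟨g, hg, rfl⟩
    have h := star_left_conjugate_nonneg hg.2.1.one_sub.nonneg s
    rw [hs, mul_sub, sub_mul, mul_one] at h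
    exact sub_nonneg.mp h
  · intro c hc
    rw [ContinuousLinearMap.le_def, ContinuousLinearMap.isPositive_iff_complex]
    intro v
    have hex : ∀ n : ℕ, ∃ g ∈ Pf 𝓜 F, ‖s v - g (s v)‖ < 1 / ((n : ℝ) + 1) := fun n =>
      dense h2 h3 h4 𝓜 F (s v) _ (by positivity)
    choose g hg hgn using hex
    have lim0 : Filter.Tendsto (fun n => g n (s v)) Filter.atTop (𝓝 (s v)) := by
      rw [tendsto_iff_norm_sub_tendsto_zero]
      refine squeeze_zero (fun n => norm_nonneg _) (fun n => ?_)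
        tendsto_one_div_add_atTop_nhds_zero_nat
      rw [norm_sub_rev]
      exact (hgn n).le
    have lim : Filter.Tendsto (fun n => (s * g n * s) v) Filter.atTop (𝓝 ((s * s) v)) :=
      (s.continuous.tendsto _).comp lim0
    have h1 : Filter.Tendsto (fun n => inner ℂ ((c - s * g n * s) v) v) Filter.atTop
        (𝓝 (inner ℂ ((c - s * s) v) v)) := by
      refine Filter.Tendsto.inner ?_ tendsto_const_nhds
      exact tendsto_const_nhds.sub lim
    have h2 : ∀ n, ((RCLike.re (inner ℂ ((c - s * g n * s) v) v) : ℝ) : ℂ) =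
        inner ℂ ((c - s * g n * s) v) v ∧
        0 ≤ RCLike.re (inner ℂ ((c - s * g n * s) v) v) := by
      intro n
      have h := hc ⟨g n, hg n, rfl⟩
      rw [ContinuousLinearMap.le_def, ContinuousLinearMap.isPositive_iff_complex] at h
      exact h v
    have h3 : Filter.Tendsto (fun n => RCLike.re (inner ℂ ((c - s * g n * s) v) v)) Filter.atTop
        (𝓝 (RCLike.re (inner ℂ ((c - s * s) v) v))) :=
      (RCLike.continuous_re.tendsto _).comp h1
    refine ⟨?_, ge_of_tendsto' h3 fun n => (h2 n).2⟩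
    refine tendsto_nhds_unique ?_ h1
    refine ((Complex.continuous_ofReal.tendsto _).comp h3).congr fun n => ?_
    exact (h2 n).1

/-- a finite projection with small complement on a positive operator of finite trace -/
theorem small (h2 : A_spec.{u}) (h3 : A_meet.{u}) (h4 : A_tr.{u}) (𝓜 : TVN H) (F : Filtr 𝓜)
    (s : H →L[ℂ] H) (hsM : s ∈ 𝓜.M) (hs : star s = s) (ht : 𝓜.tr (s * s) < ⊤) (ε : ℝ≥0∞)
    (hε : ε ≠ 0) : ∃ g ∈ Pf 𝓜 F, 𝓜.tr (s * (1 - g) * s) ≤ ε := by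
  have hgs : ∀ g ∈ Pf 𝓜 F, s * g * s ∈ 𝓜.M ∧ 0 ≤ s * g * s := by
    intro g hg
    refine ⟨mul_mem (mul_mem hsM (F.le 0 hg.1)) hsM, ?_⟩
    have h := star_left_conjugate_nonneg hg.2.1.nonneg s
    rwa [hs] at h
  have hgs' : ∀ g ∈ Pf 𝓜 F, s * (1 - g) * s ∈ 𝓜.M ∧ 0 ≤ s * (1 - g) * s := by
    intro g hg
    refine ⟨mul_mem (mul_mem hsM (sub_mem (one_mem _) (F.le 0 hg.1))) hsM, ?_⟩
    have h := star_left_conjugate_nonneg hg.2.1.one_sub.nonneg s
    rwa [hs] at h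
  have hsum : ∀ g ∈ Pf 𝓜 F, 𝓜.tr (s * s) = 𝓜.tr (s * g * s) + 𝓜.tr (s * (1 - g) * s) := by
    intro g hg
    rw [← 𝓜.tr_add _ _ (hgs g hg).1 (hgs' g hg).1 (hgs g hg).2 (hgs' g hg).2]
    congr 1
    rw [mul_sub, sub_mul, mul_one]
    abel
  have hnorm := 𝓜.tr_normal ((fun g => s * g * s) '' Pf 𝓜 F) (s * s)
    ⟨_, 0, zero_mem_Pf h4 𝓜 F, rfl⟩ ?_ ?_ (lub_s h2 h3 h4 𝓜 F s hs)
  · by_contra hcon
    push Not at hcon
    have hbd : ∀ g ∈ Pf 𝓜 F, 𝓜.tr (s * g * s) + ε ≤ 𝓜.tr (s * s) := by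
      intro g hg
      rw [hsum g hg]
      exact add_le_add le_rfl (hcon g hg).le
    have hεt : ε ≠ ⊤ := by
      intro h
      have := hbd 0 (zero_mem_Pf h4 𝓜 F)
      rw [h, add_top] at this
      exact absurd (lt_of_le_of_lt this ht) (lt_irrefl _)
    have h0 : 𝓜.tr (s * s) ≠ 0 := by
      intro h
      have := hbd 0 (zero_mem_Pf h4 𝓜 F)
      rw [h] at this
      have := le_trans le_add_self this
      exact hε (le_antisymm this zero_le)
    have hle : 𝓜.tr (s * s) ≤ 𝓜.tr (s * s) - ε := by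
      conv_lhs => rw [hnorm]
      refine iSup₂_le ?_
      rintro _ ⟨g, hg, rfl⟩
      exact ENNReal.le_sub_of_add_le_right hεt (hbd g hg)
    exact absurd (lt_of_le_of_lt hle (ENNReal.sub_lt_self ht.ne h0 hε)) (lt_irrefl _)
  · rintro _ ⟨g, hg, rfl⟩ _ ⟨h, hh, rfl⟩
    obtain ⟨k, hk, k1, k2⟩ := join h3 𝓜 F hg hh
    have key : ∀ e ∈ Pf 𝓜 F, k * e = e → s * e * s ≤ s * k * s := by
      intro e he hke
      have hle : e ≤ k := he.2.1.le_of_mul_eq_right hk.2.1 hke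
      have h := star_left_conjugate_le_conjugate hle s
      rwa [hs] at h
    exact ⟨_, ⟨k, hk, rfl⟩, key g hg k1, key h hh k2⟩
  · rintro _ ⟨g, hg, rfl⟩
    exact hgs g hg

/-- parallelogram estimate -/
theorem par (a b : H →L[ℂ] H) :
    star (a + b) * (a + b) ≤ (star a * a + star a * a) + (star b * b + star b * b) := by
  have h : 0 ≤ star (a - b) * (a - b) := star_mul_self_nonneg _
  have e : (star a * a + star a * a) + (star b * b + star b * b) - star (a + b) * (a + b) =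
      star (a - b) * (a - b) := by
    rw [star_add, star_sub, add_mul, mul_add, mul_add, sub_mul, mul_sub, mul_sub]
    abel
  rw [← e] at h
  exact sub_nonneg.mp h

end H_A_supg

open H_A_supg

theorem q_supg (_h1 : A_rp.{u}) (h2 : A_spec.{u}) (h3 : A_meet.{u}) (h4 : A_tr.{u})
    (h5 : A_cfc.{u}) : A_supg.{u} := by
  intro H _ _ _ 𝓜 F x hx ε hε
  obtain ⟨tz, tmono, tleft, -⟩ := h4 H 𝓜
  set X : H →L[ℂ] H := x.op with hX
  have XM : X ∈ 𝓜.M := x.2
  have SXM : star X ∈ 𝓜.M := star_mem XM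
  have hxt : 𝓜.tr (star X * X) < ⊤ := hx
  have hxt' : 𝓜.tr (X * star X) < ⊤ := by rw [← 𝓜.tr_star X XM]; exact hxt
  set w : H →L[ℂ] H := star X * X + X * star X with hw
  have a1 : star X * X ∈ 𝓜.M := mul_mem SXM XM
  have a2 : X * star X ∈ 𝓜.M := mul_mem XM SXM
  have wM : w ∈ 𝓜.M := add_mem a1 a2
  have w0 : 0 ≤ w := add_nonneg (star_mul_self_nonneg _) (mul_star_self_nonneg _)
  have wt : 𝓜.tr w < ⊤ := by
    rw [hw, 𝓜.tr_add _ _ a1 a2 (star_mul_self_nonneg _) (mul_star_self_nonneg _)]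
    exact ENNReal.add_lt_top.mpr ⟨hxt, hxt'⟩
  set s : H →L[ℂ] H := cfc Real.sqrt w with hs
  have sM : s ∈ 𝓜.M := h5 H 𝓜.M w Real.sqrt wM
  have ss : star s = s := (cfc_predicate Real.sqrt w : IsSelfAdjoint _).star_eq
  have s2 : s * s = w := by
    rw [hs, ← cfc_mul Real.sqrt Real.sqrt w]
    conv_rhs => rw [← cfc_id' ℝ w (IsSelfAdjoint.of_nonneg w0)]
    refine cfc_congr ?_
    intro t ht
    exact Real.mul_self_sqrt (spectrum_nonneg_of_nonneg w0 ht)
  obtain ⟨g, hg, hgt⟩ := small h2 h3 h4 𝓜 F s sM ss (by rw [s2]; exact wt)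
    (ENNReal.ofReal (ε / 4)) (by
      have : 0 < ENNReal.ofReal (ε / 4) := ENNReal.ofReal_pos.mpr (by positivity)
      exact this.ne')
  obtain ⟨gN, pg, gt⟩ := hg
  have gM : g ∈ 𝓜.M := F.le 0 gN
  refine ⟨Mc.mk g gM, pg, gN, gt, ?_⟩
  set p : H →L[ℂ] H := 1 - g with hp
  have pM : p ∈ 𝓜.M := sub_mem (one_mem _) gM
  have pp : IsStarProjection p := pg.one_sub
  have sp : star p = p := pp.isSelfAdjoint.star_eq
  have ppp : p * p = p := pp.isIdempotentElem
  have sg : star g = g := pg.isSelfAdjoint.star_eq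
  have gg : g * g = g := pg.isIdempotentElem
  have hop : (star (x - Mc.mk g gM * x * Mc.mk g gM) * (x - Mc.mk g gM * x * Mc.mk g gM)).op =
      star (X - g * X * g) * (X - g * X * g) := rfl
  rw [hop]
  have dec : X - g * X * g = p * X + g * X * p := by
    rw [hp, sub_mul, one_mul, mul_sub, mul_one]; abel
  rw [dec]
  have pXM : p * X ∈ 𝓜.M := mul_mem pM XM
  have gXM : g * X ∈ 𝓜.M := mul_mem gM XM
  have XpM : X * p ∈ 𝓜.M := mul_mem XM pM
  have gXpM : g * X * p ∈ 𝓜.M := mul_mem gXM pM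
  -- trace of the first part
  have t1 : 𝓜.tr (star (p * X) * (p * X)) = 𝓜.tr (p * (X * star X) * p) := by
    rw [𝓜.tr_star _ pXM]
    congr 1
    rw [star_mul, sp]
    simp only [mul_assoc]
  have t2 : 𝓜.tr (star (g * X * p) * (g * X * p)) ≤ 𝓜.tr (p * (star X * X) * p) := by
    have h := tleft (X * p) g XpM gM
    have hn : ENNReal.ofReal (‖g‖ ^ 2) ≤ 1 := by
      rw [← ENNReal.ofReal_one]
      refine ENNReal.ofReal_le_ofReal ?_
      have := pg.norm_le
      nlinarith [norm_nonneg g]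
    have e1 : g * X * p = g * (X * p) := mul_assoc _ _ _
    rw [e1]
    refine h.trans ?_
    have e2 : star (X * p) * (X * p) = p * (star X * X) * p := by
      rw [star_mul, sp]
      simp only [mul_assoc]
    rw [e2]
    calc ENNReal.ofReal (‖g‖ ^ 2) * 𝓜.tr (p * (star X * X) * p)
        ≤ 1 * 𝓜.tr (p * (star X * X) * p) := by gcongr
      _ = _ := one_mul _
  have m1 : p * (X * star X) * p ∈ 𝓜.M := mul_mem (mul_mem pM a2) pM
  have m2 : p * (star X * X) * p ∈ 𝓜.M := mul_mem (mul_mem pM a1) pM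
  have n1 : 0 ≤ p * (X * star X) * p := by
    have h := star_left_conjugate_nonneg (mul_star_self_nonneg X) p
    rwa [sp] at h
  have n2 : 0 ≤ p * (star X * X) * p := by
    have h := star_left_conjugate_nonneg (star_mul_self_nonneg X) p
    rwa [sp] at h
  have t3 : 𝓜.tr (p * (X * star X) * p) + 𝓜.tr (p * (star X * X) * p) =
      𝓜.tr (s * p * s) := by
    rw [← 𝓜.tr_add _ _ m1 m2 n1 n2]
    have e1 : p * (X * star X) * p + p * (star X * X) * p = star (s * p) * (s * p) := by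
      rw [star_mul, sp, ss, ← add_mul, ← mul_add, add_comm (X * star X)]
      have : p * s * (s * p) = p * (s * s) * p := by simp only [mul_assoc]
      rw [this, s2]
    rw [e1, 𝓜.tr_star _ (mul_mem sM pM)]
    congr 1
    rw [star_mul, sp, ss]
    have : s * p * (p * s) = s * (p * p) * s := by simp only [mul_assoc]
    rw [this, ppp]
  have q1 : star (p * X) * (p * X) ∈ 𝓜.M := mul_mem (star_mem pXM) pXM
  have q2 : star (g * X * p) * (g * X * p) ∈ 𝓜.M := mul_mem (star_mem gXpM) gXpM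
  have q3 : p * X + g * X * p ∈ 𝓜.M := add_mem pXM gXpM
  have r1 := star_mul_self_nonneg (p * X)
  have r2 := star_mul_self_nonneg (g * X * p)
  have fin : 𝓜.tr (star (p * X + g * X * p) * (p * X + g * X * p)) ≤
      2 * (𝓜.tr (s * p * s)) := by
    refine (tmono _ _ (mul_mem (star_mem q3) q3)
      (add_mem (add_mem q1 q1) (add_mem q2 q2)) (star_mul_self_nonneg _) (par _ _)).trans ?_
    rw [𝓜.tr_add _ _ (add_mem q1 q1) (add_mem q2 q2) (add_nonneg r1 r1) (add_nonneg r2 r2),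
      𝓜.tr_add _ _ q1 q1 r1 r1, 𝓜.tr_add _ _ q2 q2 r2 r2, ← two_mul, ← two_mul, ← mul_add, ← t3,
      t1]
    gcongr
  refine lt_of_le_of_lt fin ?_
  calc 2 * 𝓜.tr (s * p * s) ≤ 2 * ENNReal.ofReal (ε / 4) := by gcongr
    _ = ENNReal.ofReal (2 * (ε / 4)) := by
        rw [ENNReal.ofReal_mul (by norm_num)]
        congr 1
        norm_num
    _ < ENNReal.ofReal ε := by
        rw [ENNReal.ofReal_lt_ofReal_iff hε]
        linarith

end MDB
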