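import Pool.Agent.MDB.Targets2

/-!
# Basic facts on the trace
-/

open scoped ENNReal NNReal Topology
open Finset

namespace MDB

universe u

namespace H_A_tr

section general

variable {A : Type u} [CStarAlgebra A] [PartialOrder A] [StarOrderedRing A]

omit [PartialOrder A] [StarOrderedRing A] in
/-- polynomials and intertwining -/
theorem intertwine_poly {a b c : A} (h : c * a = b * c) (p : Polynomial ℝ) :
    c * Polynomial.aeval a p = Polynomial.aeval b p * c := by
  induction p using Polynomial.induction_on with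
  | C r =>
    simp only [Polynomial.aeval_C]
    exact (Algebra.commutes r c).symm
  | add p q hp hq =>
    rw [map_add, map_add, mul_add, add_mul, hp, hq]
  | monomial n r ih =>
    have e : ∀ y : A, Polynomial.aeval y (Polynomial.C r * Polynomial.X ^ (n + 1)) =
        Polynomial.aeval y (Polynomial.C r * Polynomial.X ^ n) * y := by
      intro y
      simp only [map_mul, Polynomial.aeval_C, map_pow, Polynomial.aeval_X, pow_succ, mul_assoc]
    rw [e a, e b, ← mul_assoc, ih, mul_assoc, h, mul_assoc]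

/-- Intertwining of positive elements passes to the functional calculus. -/
theorem intertwine {a b c : A} (ha : 0 ≤ a) (hb : 0 ≤ b)
    (h : c * a = b * c) (f : ℝ → ℝ) (hf : ContinuousOn f (Set.Ici 0)) :
    c * cfc f a = cfc f b * c := by
  have hcpt : IsCompact (spectrum ℝ a ∪ spectrum ℝ b) :=
    (ContinuousFunctionalCalculus.isCompact_spectrum a).union
      (ContinuousFunctionalCalculus.isCompact_spectrum b)
  obtain ⟨R, hR⟩ := hcpt.bddAbove
  have hsa : spectrum ℝ a ⊆ Set.Icc 0 R := fun x hx =>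
    ⟨spectrum_nonneg_of_nonneg ha hx, hR (Or.inl hx)⟩
  have hsb : spectrum ℝ b ⊆ Set.Icc 0 R := fun x hx =>
    ⟨spectrum_nonneg_of_nonneg hb hx, hR (Or.inr hx)⟩
  have hf0 : ContinuousOn f (Set.Icc 0 R) := hf.mono fun x hx => hx.1
  have key : ∀ ε : ℝ, 0 < ε → ‖c * cfc f a - cfc f b * c‖ ≤ ε * (2 * ‖c‖) := by
    intro ε hε
    obtain ⟨p, hp⟩ := exists_polynomial_near_of_continuousOn 0 R f hf0 ε hε
    have e : ∀ y : A, 0 ≤ y → spectrum ℝ y ⊆ Set.Icc 0 R →
        ‖cfc f y - Polynomial.aeval y p‖ ≤ ε := by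
      intro y hy hs
      rw [← cfc_polynomial p y (IsSelfAdjoint.of_nonneg hy)]
      rw [← cfc_sub f p.eval y (hf0.mono hs) (p.continuous.continuousOn)]
      refine norm_cfc_le hε.le ?_
      intro x hx
      have := hp x (hs hx)
      rw [Real.norm_eq_abs, abs_sub_comm]
      exact this.le
    have e1 := e a ha hsa
    have e2 := e b hb hsb
    have e3 : c * cfc f a - cfc f b * c =
        c * (cfc f a - Polynomial.aeval a p) - (cfc f b - Polynomial.aeval b p) * c := by
      rw [mul_sub, sub_mul, intertwine_poly h]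
      abel
    rw [e3]
    calc ‖c * (cfc f a - Polynomial.aeval a p) - (cfc f b - Polynomial.aeval b p) * c‖
        ≤ ‖c * (cfc f a - Polynomial.aeval a p)‖ + ‖(cfc f b - Polynomial.aeval b p) * c‖ :=
          norm_sub_le _ _
      _ ≤ ‖c‖ * ‖cfc f a - Polynomial.aeval a p‖ + ‖cfc f b - Polynomial.aeval b p‖ * ‖c‖ :=
          add_le_add (norm_mul_le _ _) (norm_mul_le _ _)
      _ ≤ ‖c‖ * ε + ε * ‖c‖ := by gcongr
      _ = ε * (2 * ‖c‖) := by ring
  have h0 : ‖c * cfc f a - cfc f b * c‖ ≤ 0 := by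
    refine le_of_forall_pos_le_add ?_
    intro δ hδ
    have := key (δ / (2 * ‖c‖ + 1)) (by positivity)
    refine this.trans ?_
    rw [zero_add, div_mul_eq_mul_div, div_le_iff₀ (by positivity)]
    nlinarith [norm_nonneg c]
  exact sub_eq_zero.mp (norm_le_zero_iff.mp h0)

/-- the regularised functions -/
noncomputable def reg (f : ℝ → ℝ) (n : ℕ) (s : ℝ) : ℝ := s * (f s / (s + 1 / ((n : ℝ) + 1)))

theorem reg_den {s : ℝ} (hs : 0 ≤ s) (n : ℕ) : 0 < s + 1 / ((n : ℝ) + 1) := by positivity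

theorem reg_cont' {f : ℝ → ℝ} (hf : ContinuousOn f (Set.Ici 0)) (n : ℕ) :
    ContinuousOn (fun s => f s / (s + 1 / ((n : ℝ) + 1))) (Set.Ici 0) := by
  refine hf.div (by fun_prop) ?_
  intro s hs
  exact (reg_den hs n).ne'

theorem reg_cont {f : ℝ → ℝ} (hf : ContinuousOn f (Set.Ici 0)) (n : ℕ) :
    ContinuousOn (reg f n) (Set.Ici 0) :=
  continuousOn_id.mul (reg_cont' hf n)

theorem reg_nonneg {f : ℝ → ℝ} (hf0 : ∀ s, 0 ≤ s → 0 ≤ f s) (n : ℕ) {s : ℝ} (hs : 0 ≤ s) :
    0 ≤ reg f n s :=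
  mul_nonneg hs (div_nonneg (hf0 s hs) (reg_den hs n).le)

theorem reg_mono {f : ℝ → ℝ} (hf0 : ∀ s, 0 ≤ s → 0 ≤ f s) {m n : ℕ} (hmn : m ≤ n) {s : ℝ}
    (hs : 0 ≤ s) : reg f m s ≤ reg f n s := by
  unfold reg
  have h1 : 1 / ((n : ℝ) + 1) ≤ 1 / ((m : ℝ) + 1) := by
    apply one_div_le_one_div_of_le (by positivity)
    have : (m : ℝ) ≤ n := by exact_mod_cast hmn
    linarith
  exact mul_le_mul_of_nonneg_left
    (div_le_div_of_nonneg_left (hf0 s hs) (reg_den hs n) (by linarith)) hs

theorem reg_le {f : ℝ → ℝ} (hf0 : ∀ s, 0 ≤ s → 0 ≤ f s) (n : ℕ) {s : ℝ}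
    (hs : 0 ≤ s) : reg f n s ≤ f s := by
  unfold reg
  rw [mul_div_assoc', div_le_iff₀ (reg_den hs n)]
  have : 0 ≤ f s * (1 / ((n : ℝ) + 1)) := mul_nonneg (hf0 s hs) (by positivity)
  nlinarith

theorem reg_tendsto {f : ℝ → ℝ} (h0 : f 0 = 0) {s : ℝ} (hs : 0 ≤ s) :
    Filter.Tendsto (fun n => reg f n s) Filter.atTop (𝓝 (f s)) := by
  unfold reg
  rcases hs.eq_or_lt with h | h
  · subst h
    simp [h0]
  · have h1 : Filter.Tendsto (fun n : ℕ => s + 1 / ((n : ℝ) + 1)) Filter.atTop (𝓝 (s + 0)) :=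
      tendsto_const_nhds.add tendsto_one_div_add_atTop_nhds_zero_nat
    have h2 := (tendsto_const_nhds (x := f s)).div h1 (by linarith)
    have h3 := (tendsto_const_nhds (x := s)).mul h2
    have h4 : s * (f s / (s + 0)) = f s := by
      rw [add_zero]; field_simp
    rw [h4] at h3
    exact h3

/-- norm convergence of the regularisations -/
theorem cfc_reg_tendsto {a : A} (ha : 0 ≤ a) {f : ℝ → ℝ} (hf : ContinuousOn f (Set.Ici 0))
    (h0 : f 0 = 0) (hf0 : ∀ s, 0 ≤ s → 0 ≤ f s) :
    Filter.Tendsto (fun n => cfc (reg f n) a) Filter.atTop (𝓝 (cfc f a)) := by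
  have hs : spectrum ℝ a ⊆ Set.Ici 0 := fun x hx => spectrum_nonneg_of_nonneg ha hx
  refine tendsto_cfc_fun ?_ (Filter.Eventually.of_forall fun n => (reg_cont hf n).mono hs)
  refine Monotone.tendstoUniformlyOn_of_forall_tendsto
    (ContinuousFunctionalCalculus.isCompact_spectrum a) (fun n => (reg_cont hf n).mono hs)
    ?_ (hf.mono hs) ?_
  · intro x hx m n hmn
    exact reg_mono hf0 hmn (hs hx)
  · intro x hx
    exact reg_tendsto h0 (hs hx)

end general

end H_A_tr

open H_A_tr

theorem q_tr (h : A_cfc.{u}) : A_tr.{u} := by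
  intro H _ _ _ 𝓜
  have hz : 𝓜.tr 0 = 0 := by
    have := 𝓜.tr_smul 0 0 (zero_mem _) le_rfl
    simpa using this
  have hmono : ∀ x y, x ∈ 𝓜.M → y ∈ 𝓜.M → 0 ≤ x → x ≤ y → 𝓜.tr x ≤ 𝓜.tr y := by
    intro x y hx hy h0 hxy
    have h1 : 0 ≤ y - x := sub_nonneg.mpr hxy
    have h2 : y - x ∈ 𝓜.M := sub_mem hy hx
    have h3 := 𝓜.tr_add x (y - x) hx h2 h0 h1
    rw [add_sub_cancel] at h3
    rw [h3]
    exact le_self_add
  have hleft : ∀ x y, x ∈ 𝓜.M → y ∈ 𝓜.M →
      𝓜.tr (star (y * x) * (y * x)) ≤ ENNReal.ofReal (‖y‖ ^ 2) * 𝓜.tr (star x * x) := by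
    intro x y hx hy
    have hxx : star x * x ∈ 𝓜.M := mul_mem (star_mem hx) hx
    have hyx : y * x ∈ 𝓜.M := mul_mem hy hx
    have h1 : star (y * x) * (y * x) ≤ (((‖y‖ ^ 2 : ℝ)) : ℂ) • (star x * x) := by
      have h2 := star_left_conjugate_le_conjugate
        (CStarAlgebra.star_mul_le_algebraMap_norm_sq (a := y)) x
      have h3 : star x * algebraMap ℝ (H →L[ℂ] H) (‖y‖ ^ 2) * x =
          (((‖y‖ ^ 2 : ℝ)) : ℂ) • (star x * x) := by
        rw [Algebra.algebraMap_eq_smul_one, mul_smul_comm, mul_one, smul_mul_assoc]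
        ext v
        change (‖y‖ ^ 2 : ℝ) • ((star x) (x v)) = (((‖y‖ ^ 2 : ℝ)) : ℂ) • ((star x) (x v))
        rw [Complex.coe_smul]
      rw [h3] at h2
      refine le_trans (le_of_eq ?_) h2
      rw [star_mul]
      simp only [mul_assoc]
    have hs := 𝓜.tr_smul (⟨‖y‖ ^ 2, by positivity⟩ : ℝ≥0) (star x * x) hxx (star_mul_self_nonneg x)
    have hmem : (((‖y‖ ^ 2 : ℝ)) : ℂ) • (star x * x) ∈ 𝓜.M := 𝓜.M.toStarSubalgebra.smul_mem hxx _
    refine (hmono _ _ (mul_mem (star_mem hyx) hyx) hmem (star_mul_self_nonneg _) h1).trans ?_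
    refine le_of_eq ?_
    refine hs.trans ?_
    congr 1
    rw [ENNReal.ofReal, Real.toNNReal_of_nonneg (by positivity)]
    rfl
  refine ⟨hz, hmono, hleft, ?_, ?_⟩
  · intro x y hx hy
    have h1 := hleft (star x) (star y) (star_mem hx) (star_mem hy)
    rw [star_star, norm_star] at h1
    rw [𝓜.tr_star x hx]
    refine le_trans (le_of_eq ?_) h1
    rw [𝓜.tr_star _ (mul_mem hx hy)]
    congr 1
    rw [star_mul, star_mul, star_star, star_star]
  · intro f x hx hf h0 hf0
    have ha : 0 ≤ star x * x := star_mul_self_nonneg x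
    have hb : 0 ≤ x * star x := mul_star_self_nonneg x
    have hxa : star x * x ∈ 𝓜.M := mul_mem (star_mem hx) hx
    have hxb : x * star x ∈ 𝓜.M := mul_mem hx (star_mem hx)
    have hsa : spectrum ℝ (star x * x) ⊆ Set.Ici 0 := fun s hs => spectrum_nonneg_of_nonneg ha hs
    have hsb : spectrum ℝ (x * star x) ⊆ Set.Ici 0 := fun s hs => spectrum_nonneg_of_nonneg hb hs
    -- step A
    have stepA : ∀ g : ℝ → ℝ, ContinuousOn g (Set.Ici 0) → (∀ s, 0 ≤ s → 0 ≤ g s) →
        𝓜.tr (cfc (fun s => s * g s) (star x * x)) =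
          𝓜.tr (cfc (fun s => s * g s) (x * star x)) := by
      intro g hg hg0
      set k : ℝ → ℝ := fun s => Real.sqrt (g s) with hk
      have hkc : ContinuousOn k (Set.Ici 0) := Real.continuous_sqrt.comp_continuousOn hg
      have hkm : cfc k (x * star x) ∈ 𝓜.M := h H 𝓜.M _ k hxb
      have hzm : cfc k (x * star x) * x ∈ 𝓜.M := mul_mem hkm hx
      have hsak : star (cfc k (x * star x)) = cfc k (x * star x) :=
        (cfc_predicate k (x * star x) : IsSelfAdjoint _).star_eq
      have hkk : cfc k (x * star x) * cfc k (x * star x) = cfc g (x * star x) := by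
        rw [← cfc_mul k k (x * star x) (hkc.mono hsb) (hkc.mono hsb)]
        refine cfc_congr ?_
        intro s hs
        exact Real.mul_self_sqrt (hg0 s (hsb hs))
      have hint : x * cfc g (star x * x) = cfc g (x * star x) * x :=
        intertwine ha hb (by rw [mul_assoc]) g hg
      have e1 : star (cfc k (x * star x) * x) * (cfc k (x * star x) * x) =
          cfc (fun s => s * g s) (star x * x) := by
        rw [star_mul, hsak, cfc_mul (fun s => s) g (star x * x) continuousOn_id (hg.mono hsa),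
          cfc_id' ℝ (star x * x) (IsSelfAdjoint.of_nonneg ha), mul_assoc, ← mul_assoc (cfc k _),
          hkk, ← hint, mul_assoc]
      have e2 : (cfc k (x * star x) * x) * star (cfc k (x * star x) * x) =
          cfc (fun s => s * g s) (x * star x) := by
        have e3 : cfc (fun s => s * g s) (x * star x) =
            cfc k (x * star x) * (x * star x) * cfc k (x * star x) := by
          have e4 : cfc k (x * star x) * (x * star x) = cfc (fun s => k s * s) (x * star x) := by
            rw [cfc_mul k (fun s => s) (x * star x) (hkc.mono hsb) continuousOn_id,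
              cfc_id' ℝ (x * star x) (IsSelfAdjoint.of_nonneg hb)]
          rw [e4, ← cfc_mul (fun s => k s * s) k (x * star x)
            ((hkc.mono hsb).mul continuousOn_id) (hkc.mono hsb)]
          refine cfc_congr ?_
          intro s hs
          have := Real.mul_self_sqrt (hg0 s (hsb hs))
          simp only [hk]
          calc s * g s = s * (Real.sqrt (g s) * Real.sqrt (g s)) := by rw [this]
            _ = Real.sqrt (g s) * s * Real.sqrt (g s) := by ring
        rw [e3, star_mul, hsak]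
        simp only [mul_assoc]
      rw [← e1, ← e2]
      exact 𝓜.tr_star _ hzm
    -- step B
    have stepB : ∀ a : H →L[ℂ] H, a ∈ 𝓜.M → 0 ≤ a →
        𝓜.tr (cfc f a) = ⨆ n : ℕ, 𝓜.tr (cfc (reg f n) a) := by
      intro a ham ha0
      have hs : spectrum ℝ a ⊆ Set.Ici 0 := fun s hs => spectrum_nonneg_of_nonneg ha0 hs
      have hm : Monotone fun n : ℕ => cfc (reg f n) a := by
        intro m n hmn
        exact cfc_mono (fun s hs' => reg_mono hf0 hmn (hs hs')) ((reg_cont hf m).mono hs)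
          ((reg_cont hf n).mono hs)
      have hlub : IsLUB (Set.range fun n : ℕ => cfc (reg f n) a) (cfc f a) := by
        constructor
        · rintro _ ⟨n, rfl⟩
          exact cfc_mono (fun s hs' => reg_le hf0 n (hs hs')) ((reg_cont hf n).mono hs)
            (hf.mono hs)
        · intro c hc
          exact le_of_tendsto' (cfc_reg_tendsto ha0 hf h0 hf0) fun n => hc ⟨n, rfl⟩
      have := 𝓜.tr_normal (Set.range fun n : ℕ => cfc (reg f n) a) (cfc f a)
        (Set.range_nonempty _) (directedOn_range.mpr (directed_of_isDirected_le hm)) ?_ hlub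
      · rw [this, iSup_range]
      · rintro _ ⟨n, rfl⟩
        exact ⟨h H 𝓜.M a _ ham, cfc_nonneg fun s hs' => reg_nonneg hf0 n (hs hs')⟩
    rw [stepB _ hxa ha, stepB _ hxb hb]
    refine iSup_congr fun n => ?_
    exact stepA (fun s => f s / (s + 1 / ((n : ℝ) + 1))) (reg_cont' hf n)
      fun s hs => div_nonneg (hf0 s hs) (reg_den hs n).le

end MDB
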