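import Pool.Agent.MDB.Targets

/-!
# Continuous functional calculus stays in the subalgebras
-/

namespace MDB

universe u

namespace MDB_ECFC

variable {A : Type u} [CStarAlgebra A] [PartialOrder A] [StarOrderedRing A] {T : TrFun A}

theorem E_smul_one (F : Filt T) (n : ℕ) (r : ℝ) :
    F.E n (algebraMap ℝ A r) = algebraMap ℝ A r := by
  rw [Algebra.algebraMap_eq_smul_one, map_smul, F.E_one]

theorem E_mono (F : Filt T) (n : ℕ) {a b : A} (h : a ≤ b) : F.E n a ≤ F.E n b := by
  have := F.E_nonneg n (b - a) (sub_nonneg.2 h)
  rw [map_sub] at this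
  exact sub_nonneg.1 this

/-- conditional expectations are contractions -/
theorem E_norm_le (F : Filt T) (n : ℕ) (x : A) : ‖F.E n x‖ ≤ ‖x‖ := by
  set y := F.E n x with hy
  have h1 : F.E n y = y := F.E_tower n n x le_rfl
  have h2 : F.E n (star y) = star y := by rw [F.E_star, h1]
  have h3 : F.E n (star x * y) = star y * y := by
    rw [F.E_mul_right n (star x) y h1, F.E_star]
  have h4 : F.E n (star y * x) = star y * y := F.E_mul_left n (star y) x h2
  have h5 : F.E n (star y * y) = star y * y := by rw [F.E_mul_left n (star y) y h2, h1]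
  have h6 : 0 ≤ F.E n (star (x - y) * (x - y)) := F.E_nonneg n _ (star_mul_self_nonneg _)
  have h7 : star (x - y) * (x - y) = star x * x - star x * y - star y * x + star y * y := by
    rw [star_sub]
    noncomm_ring
  rw [h7, map_add, map_sub, map_sub, h3, h4, h5] at h6
  have h8 : star y * y ≤ F.E n (star x * x) := by
    have : F.E n (star x * x) - star y * y - star y * y + star y * y =
      F.E n (star x * x) - star y * y := by noncomm_ring
    rw [this] at h6
    exact sub_nonneg.1 h6
  have h9 : star x * x ≤ algebraMap ℝ A ‖star x * x‖ :=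
    IsSelfAdjoint.le_algebraMap_norm_self (IsSelfAdjoint.star_mul_self x)
  have h10 : star y * y ≤ algebraMap ℝ A ‖star x * x‖ := by
    refine h8.trans ?_
    have := E_mono F n h9
    rwa [E_smul_one] at this
  have h11 : ‖star y * y‖ ≤ ‖star x * x‖ :=
    (CStarAlgebra.norm_le_iff_le_algebraMap _ (norm_nonneg _) (star_mul_self_nonneg _)).2 h10
  rw [CStarRing.norm_star_mul_self, CStarRing.norm_star_mul_self] at h11
  exact (mul_self_le_mul_self_iff (norm_nonneg _) (norm_nonneg _)).2 h11

theorem E_cont (F : Filt T) (n : ℕ) : Continuous (F.E n) :=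
  (LinearMap.mkContinuous (F.E n) 1 (by intro x; rw [one_mul]; exact E_norm_le F n x)).continuous

/-- the fixed elements -/
def fix (F : Filt T) (n : ℕ) : StarSubalgebra ℝ A where
  carrier := {x | F.E n x = x}
  mul_mem' := by
    intro a b ha hb
    change F.E n (a * b) = a * b
    rw [F.E_mul_left n a b ha]
    exact congrArg (a * ·) hb
  one_mem' := F.E_one n
  add_mem' := by
    intro a b ha hb
    change F.E n (a + b) = a + b
    rw [map_add]
    exact congrArg₂ (· + ·) ha hb
  zero_mem' := map_zero _
  algebraMap_mem' := E_smul_one F n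
  star_mem' := by
    intro a ha
    change F.E n (star a) = star a
    rw [F.E_star]
    exact congrArg star ha

theorem fix_closed (F : Filt T) (n : ℕ) : IsClosed (fix F n : Set A) :=
  isClosed_eq (E_cont F n) continuous_id

end MDB_ECFC

open MDB_ECFC in
theorem p_Ecfc : T_Ecfc.{u} := by
  intro A _ _ _ T F n a f _ ha _
  have h : StarAlgebra.elemental ℝ a ≤ fix F n := StarAlgebra.elemental.le_of_mem (fix_closed F n) ha
  exact h (cfc_mem_elemental f a)

end MDB
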