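import Pool.Agent.MDB.Targets

open Finset

namespace MDB

universe u

namespace MDB_I1

section

variable {A : Type u} [CStarAlgebra A] [PartialOrder A] [StarOrderedRing A]

lemma tr_mono (T : TrFun A) {a b : A} (h : a ≤ b) : T.t a ≤ T.t b := by
  have := T.nonneg (b - a) (sub_nonneg.2 h)
  rw [map_sub] at this
  linarith

lemma tr_mul_nonneg (T : TrFun A) {a b : A} (ha : 0 ≤ a) (hb : 0 ≤ b) : 0 ≤ T.t (a * b) := by
  obtain ⟨c, rfl⟩ := CStarAlgebra.nonneg_iff_eq_star_mul_self.1 ha
  have h1 : T.t (star c * c * b) = T.t (c * b * star c) := by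
    rw [mul_assoc, T.comm]
  rw [h1]
  exact T.nonneg _ (star_right_conjugate_nonneg hb c)

lemma spec_Icc {a : A} (ha : 0 ≤ a) {M : ℝ} (hM : ‖a‖ ≤ M) : spectrum ℝ a ⊆ Set.Icc 0 M := by
  intro x hx
  have h0 := spectrum_nonneg_of_nonneg ha hx
  rcases subsingleton_or_nontrivial A with hA | hA
  · rw [spectrum.of_subsingleton] at hx
    exact absurd hx (Set.notMem_empty _)
  refine ⟨h0, ?_⟩
  have := spectrum.norm_le_norm_of_mem hx
  rw [Real.norm_eq_abs] at this
  exact (le_abs_self x).trans (this.trans hM)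

/-- weighted Cauchy-Schwarz inequality -/
lemma cs (T : TrFun A) {G H : A} (hG : star G = G) (hH : star H = H) (hGH : H * G = 1) (x z : A) :
    2 * T.t (star x * z) ≤ T.t (G * G * (star x * x)) + T.t (H * H * (star z * z)) := by
  have h0 : 0 ≤ T.t (star (x * G - z * H) * (x * G - z * H)) :=
    T.nonneg _ (star_mul_self_nonneg _)
  have e1 : star (x * G - z * H) * (x * G - z * H)
      = G * (star x * x) * G - G * (star x * z) * H - star (G * (star x * z) * H)
        + H * (star z * z) * H := by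
    simp only [star_sub, star_mul, star_star, hG, hH]
    noncomm_ring
  have e2 : T.t (G * (star x * x) * G) = T.t (G * G * (star x * x)) := by
    rw [T.comm, ← mul_assoc]
  have e3 : T.t (H * (star z * z) * H) = T.t (H * H * (star z * z)) := by
    rw [T.comm, ← mul_assoc]
  have e4 : T.t (G * (star x * z) * H) = T.t (star x * z) := by
    rw [T.comm, ← mul_assoc, hGH, one_mul]
  rw [e1, map_add, map_sub, map_sub, T.star_eq, e2, e3, e4] at h0
  linarith

lemma powcont {B : A} (hB : 0 ≤ B) {ε : ℝ} (hε : 0 < ε) (r : ℝ) :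
    ContinuousOn (fun s : ℝ => (s + ε) ^ r) (spectrum ℝ B) := by
  intro s hs
  have h0 := spectrum_nonneg_of_nonneg hB hs
  have h1 : s + ε ≠ 0 := by
    have : 0 < s + ε := by linarith
    exact this.ne'
  have h2 : ContinuousAt (fun s : ℝ => s + ε) s := by fun_prop
  exact (h2.rpow_const (Or.inl h1)).continuousWithinAt

omit [PartialOrder A] [StarOrderedRing A] in
lemma cfc_sa (f : ℝ → ℝ) (a : A) : star (cfc f a) = cfc f a := (cfc_predicate f a : IsSelfAdjoint _)

lemma V_mono {B B' : A} (hB : 0 ≤ B) (h : B ≤ B') {ε r : ℝ} (hε : 0 < ε)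
    (hr : r ∈ Set.Icc (0 : ℝ) 1) :
    cfc (fun s : ℝ => (s + ε) ^ r) B ≤ cfc (fun s : ℝ => (s + ε) ^ r) B' := by
  have key : ∀ C : A, 0 ≤ C → cfc (fun s : ℝ => (s + ε) ^ r) C = (C + algebraMap ℝ A ε) ^ r := by
    intro C hC
    have hCs : IsSelfAdjoint C := .of_nonneg hC
    have h1 : C + algebraMap ℝ A ε = cfc (fun s : ℝ => s + ε) C := by
      rw [cfc_add C (fun s : ℝ => s) (fun _ : ℝ => ε) .., cfc_id' .., cfc_const ..]
    rw [h1, CFC.cfc_rpow]
    intro x hx
    have := spectrum_nonneg_of_nonneg hC hx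
    linarith
  rw [key B hB, key B' (hB.trans h)]
  exact CFC.rpow_le_rpow hr (by gcongr)

lemma cfc_mul_pow {B : A} (hB : 0 ≤ B) {ε : ℝ} (hε : 0 < ε) (r r' : ℝ) :
    cfc (fun s : ℝ => (s + ε) ^ r) B * cfc (fun s : ℝ => (s + ε) ^ r') B
      = cfc (fun s : ℝ => (s + ε) ^ (r + r')) B := by
  rw [← cfc_mul (fun s : ℝ => (s + ε) ^ r) (fun s : ℝ => (s + ε) ^ r') B
    (powcont hB hε r) (powcont hB hε r')]
  apply cfc_congr
  intro s hs
  have := spectrum_nonneg_of_nonneg hB hs
  have h1 : 0 < s + ε := by linarith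
  exact (Real.rpow_add h1 r r').symm

/-- scalar tangent inequality -/
lemma tangent {x y r : ℝ} (hx : 0 ≤ x) (hy : 0 < y) (hr : 0 ≤ r) (hr1 : r ≤ 1) :
    x ^ r ≤ y ^ r + r * (x - y) * y ^ (r - 1) := by
  have h := rpow_one_add_le_one_add_mul_self (s := x / y - 1)
    (by have := div_nonneg hx hy.le; linarith) hr hr1
  have e1 : (1 + (x / y - 1)) = x / y := by ring
  rw [e1, Real.div_rpow hx hy.le, div_le_iff₀ (Real.rpow_pos_of_pos hy r)] at h
  have e2 : y ^ (r - 1) = y ^ r / y := by rw [Real.rpow_sub_one hy.ne']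
  rw [e2]
  have e3 : y ^ r + r * (x - y) * (y ^ r / y) = (1 + r * (x / y - 1)) * y ^ r := by
    field_simp
  rw [e3]
  exact h

lemma klein_step (h1 : T_klein.{u}) (T : TrFun A) {a b : A} (ha : 0 ≤ a) (hab : a ≤ b) {ε r : ℝ}
    (hε : 0 < ε) (hr : 0 ≤ r) (hr1 : r ≤ 1) :
    r * T.t (cfc (fun s : ℝ => (s + ε) ^ (r - 1)) b * (b - a))
      ≤ T.t (cfc (fun s : ℝ => (s + ε) ^ r) b) - T.t (cfc (fun s : ℝ => (s + ε) ^ r) a) := by
  have hb := ha.trans hab
  have hc : ∀ q : ℝ, ContinuousOn (fun s : ℝ => (s + ε) ^ q) (Set.Icc 0 (max ‖a‖ ‖b‖)) := by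
    intro q s hs
    have h1 : s + ε ≠ 0 := by
      have : 0 < s + ε := by linarith [hs.1]
      exact this.ne'
    have h2 : ContinuousAt (fun s : ℝ => s + ε) s := by fun_prop
    exact (h2.rpow_const (Or.inl h1)).continuousWithinAt
  have h := h1 A T (fun s : ℝ => -((s + ε) ^ r)) (fun s : ℝ => -(r * (s + ε) ^ (r - 1))) a b 0
    (max ‖a‖ ‖b‖) (.of_nonneg ha) (.of_nonneg hb) (spec_Icc ha (le_max_left _ _))
    (spec_Icc hb (le_max_right _ _)) (hc r).neg ((hc (r - 1)).const_mul r |>.neg) ?_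
  · rw [cfc_neg, cfc_neg, cfc_neg, cfc_const_mul r (fun s : ℝ => (s + ε) ^ (r - 1)) b
      (powcont hb hε _)] at h
    rw [mul_neg, mul_smul_comm, map_neg, map_smul, map_neg, map_neg, smul_eq_mul] at h
    have e1 : T.t ((a - b) * cfc (fun s : ℝ => (s + ε) ^ (r - 1)) b)
        = - T.t (cfc (fun s : ℝ => (s + ε) ^ (r - 1)) b * (b - a)) := by
      rw [T.comm, ← map_neg]
      congr 1
      noncomm_ring
    rw [e1] at h
    linarith
  · intro s hs t ht
    have hx : 0 ≤ s + ε := by linarith [hs.1]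
    have hy : 0 < t + ε := by linarith [ht.1]
    have := tangent hx hy hr hr1
    have e : (s - t) * -(r * (t + ε) ^ (r - 1))
        = - (r * ((s + ε) - (t + ε)) * (t + ε) ^ (r - 1)) := by ring
    rw [e]
    linarith

variable {T : TrFun A} (F : Filt T)

include F in
lemma idem (n : ℕ) (a : A) : F.E n (F.E n a) = F.E n a := F.E_tower' n n a le_rfl

lemma mem_up {m n : ℕ} (h : m ≤ n) {a : A} (ha : F.E m a = a) : F.E n a = a := by
  have := F.E_tower' m n a h
  rwa [ha] at this

lemma mem_star {n : ℕ} {a : A} (ha : F.E n a = a) : F.E n (star a) = star a := by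
  rw [F.E_star, ha]

lemma mem_mul {n : ℕ} {a b : A} (ha : F.E n a = a) (hb : F.E n b = b) :
    F.E n (a * b) = a * b := by
  rw [F.E_mul_left n a b ha, hb]

/-- Pythagoras -/
lemma pyth {n : ℕ} {V : A} (hV : star V = V) (hVm : F.E n V = V) (y' : A) :
    T.t (V * (star (y' - F.E n y') * (y' - F.E n y')))
      = T.t (V * (star y' * y')) - T.t (V * (star (F.E n y') * F.E n y')) := by
  set y0 := F.E n y' with hy0
  have m0 : F.E n y0 = y0 := idem F n y'
  have e1 : T.t (V * star y0 * y') = T.t (V * star y0 * y0) := by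
    rw [← F.E_tr n (V * star y0 * y'), F.E_mul_left n _ _ (mem_mul F hVm (mem_star F m0)), ← hy0]
  have e2 : T.t (V * star y' * y0) = T.t (V * star y0 * y') := by
    rw [← T.star_eq (V * star y' * y0)]
    simp only [star_mul, star_star, hV]
    rw [← mul_assoc, T.comm, ← mul_assoc]
  have e3 : V * (star (y' - y0) * (y' - y0)) = V * (star y' * y') - V * star y' * y0
      - V * star y0 * y' + V * star y0 * y0 := by
    simp only [star_sub]
    noncomm_ring
  rw [e3, map_add, map_sub, map_sub, e2, e1]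
  rw [mul_assoc]
  ring

/-- orthogonality of the differences -/
lemma orth1 {n : ℕ} {d : A} (y : A) (h1 : F.E (n + 1) d = d) (h0 : F.E n d = 0) :
    T.t (star y * d) = T.t (star (F.E (n + 1) y - F.E n y) * d) := by
  have e1 : T.t (star y * d) = T.t (star (F.E (n + 1) y) * d) := by
    rw [← F.E_tr (n + 1) (star y * d), F.E_mul_right (n + 1) _ _ h1, F.E_star]
  have e2 : T.t (star (F.E n y) * d) = 0 := by
    rw [← F.E_tr n (star (F.E n y) * d), F.E_mul_left n _ _ (mem_star F (idem F n y)), h0]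
    simp
  rw [star_sub, sub_mul, map_sub, e2, e1, sub_zero]

/-- partial sums of the conditioned squares -/
noncomputable def Bs (d : ℕ → A) (k : ℕ) : A := ∑ n ∈ range k, F.E n (star (d n) * d n)

lemma Bs_nonneg (d : ℕ → A) (k : ℕ) : 0 ≤ Bs F d k :=
  Finset.sum_nonneg fun n _ => F.E_nonneg n _ (star_mul_self_nonneg _)

lemma Bs_succ (d : ℕ → A) (k : ℕ) : Bs F d (k + 1) = Bs F d k + F.E k (star (d k) * d k) := by
  rw [Bs, Finset.sum_range_succ, ← Bs]

lemma Bs_le (d : ℕ → A) (k : ℕ) : Bs F d k ≤ Bs F d (k + 1) := by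
  rw [Bs_succ]
  exact le_add_of_nonneg_right (F.E_nonneg k _ (star_mul_self_nonneg _))

lemma Bs_mem (d : ℕ → A) (k : ℕ) : F.E k (Bs F d (k + 1)) = Bs F d (k + 1) := by
  rw [Bs, map_sum]
  apply Finset.sum_congr rfl
  intro n hn
  exact mem_up F (Nat.lt_succ_iff.1 (Finset.mem_range.1 hn)) (idem F n _)

/-- the weights -/
noncomputable def Vs (d : ℕ → A) (ε r : ℝ) (k : ℕ) : A := cfc (fun s : ℝ => (s + ε) ^ r) (Bs F d k)

lemma Vs_mem (h4 : T_Ecfc.{u}) (d : ℕ → A) {ε : ℝ} (hε : 0 < ε) (r : ℝ) (k : ℕ) :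
    F.E k (Vs F d ε r (k + 1)) = Vs F d ε r (k + 1) :=
  h4 A T F k (Bs F d (k + 1)) _ (.of_nonneg (Bs_nonneg F d _)) (Bs_mem F d k)
    (powcont (Bs_nonneg F d _) hε r)

/-- Abel summation -/
lemma abel (d : ℕ → A) (y : A) {ε r : ℝ} (hε : 0 < ε) (hr : r ∈ Set.Icc (0 : ℝ) 1) (k : ℕ) :
    ∑ n ∈ range k, (T.t (Vs F d ε r (n + 1) * (star (F.E (n + 1) y) * F.E (n + 1) y))
        - T.t (Vs F d ε r (n + 1) * (star (F.E n y) * F.E n y)))
      ≤ T.t (Vs F d ε r k * (star (F.E k y) * F.E k y)) := by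
  induction k with
  | zero =>
    rw [Finset.sum_range_zero]
    refine tr_mul_nonneg T ?_ (star_mul_self_nonneg _)
    apply cfc_nonneg
    intro s hs
    have := spectrum_nonneg_of_nonneg (Bs_nonneg F d _) hs
    positivity
  | succ k ih =>
    rw [Finset.sum_range_succ]
    have h1 : T.t (Vs F d ε r k * (star (F.E k y) * F.E k y))
        ≤ T.t (Vs F d ε r (k + 1) * (star (F.E k y) * F.E k y)) := by
      have h2 := tr_mul_nonneg T (sub_nonneg.2 (V_mono (Bs_nonneg F d k) (Bs_le F d k) hε hr))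
        (star_mul_self_nonneg (F.E k y))
      rw [sub_mul, map_sub] at h2
      exact sub_nonneg.1 h2
    linarith

/-- the basic estimate -/
lemma basic (h1 : T_klein.{u}) (h4 : T_Ecfc.{u}) (N : ℕ) (d : ℕ → A)
    (hd1 : ∀ n, n < N → F.E (n + 1) (d n) = d n) (hd0 : ∀ n, n < N → F.E n (d n) = 0)
    (y : A) {ε p : ℝ} (hε : 0 < ε) (hp0 : 0 < p) (hp : p ≤ 2) :
    2 * T.t (star y * ∑ n ∈ range N, d n)
      ≤ T.t (Vs F d ε (1 - p / 2) N * (star y * y)) + 2 / p * T.t (Vs F d ε (p / 2) N) := by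
  have hr : 1 - p / 2 ∈ Set.Icc (0 : ℝ) 1 := ⟨by linarith, by linarith⟩
  -- step inequality
  have hstep : ∀ n, n < N → 2 * T.t (star y * d n)
      ≤ (T.t (Vs F d ε (1 - p / 2) (n + 1) * (star (F.E (n + 1) y) * F.E (n + 1) y))
          - T.t (Vs F d ε (1 - p / 2) (n + 1) * (star (F.E n y) * F.E n y)))
        + 2 / p * (T.t (Vs F d ε (p / 2) (n + 1)) - T.t (Vs F d ε (p / 2) n)) := by
    intro n hn
    have hB := Bs_nonneg F d (n + 1)
    rw [orth1 F y (hd1 n hn) (hd0 n hn)]
    have hc := cs T (G := Vs F d ε (1 / 2 - p / 4) (n + 1)) (H := Vs F d ε (p / 4 - 1 / 2) (n + 1))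
      (cfc_sa _ _) (cfc_sa _ _) (by
        rw [Vs, Vs, cfc_mul_pow hB hε]
        have : p / 4 - 1 / 2 + (1 / 2 - p / 4) = 0 := by ring
        rw [this]
        have h0 : Set.EqOn (fun s : ℝ => (s + ε) ^ (0 : ℝ)) (fun _ => 1)
            (spectrum ℝ (Bs F d (n + 1))) := fun s _ => Real.rpow_zero _
        rw [cfc_congr h0]
        exact cfc_const_one ℝ _ (.of_nonneg hB)) (F.E (n + 1) y - F.E n y) (d n)
    have eG : Vs F d ε (1 / 2 - p / 4) (n + 1) * Vs F d ε (1 / 2 - p / 4) (n + 1)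
        = Vs F d ε (1 - p / 2) (n + 1) := by
      rw [Vs, cfc_mul_pow hB hε, Vs]
      congr 1
      funext s
      congr 1
      ring
    have eH : Vs F d ε (p / 4 - 1 / 2) (n + 1) * Vs F d ε (p / 4 - 1 / 2) (n + 1)
        = Vs F d ε (p / 2 - 1) (n + 1) := by
      rw [Vs, cfc_mul_pow hB hε, Vs]
      congr 1
      funext s
      congr 1
      ring
    rw [eG, eH] at hc
    -- Pythagoras
    have e1 : F.E n y = F.E n (F.E (n + 1) y) := (F.E_tower n (n + 1) y (Nat.le_succ n)).symm
    have e2 := pyth F (V := Vs F d ε (1 - p / 2) (n + 1)) (cfc_sa _ _)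
      (Vs_mem F h4 d hε _ n) (F.E (n + 1) y)
    rw [← e1] at e2
    rw [e2] at hc
    -- second part
    have e3 : T.t (Vs F d ε (p / 2 - 1) (n + 1) * (star (d n) * d n))
        = T.t (Vs F d ε (p / 2 - 1) (n + 1) * (Bs F d (n + 1) - Bs F d n)) := by
      rw [← F.E_tr n, F.E_mul_left n _ _ (Vs_mem F h4 d hε _ n), Bs_succ]
      congr 2
      abel
    have e4 := klein_step h1 T (Bs_nonneg F d n) (Bs_le F d n) hε (r := p / 2) (by linarith)
      (by linarith)
    rw [e3] at hc
    have e5 : T.t (Vs F d ε (p / 2 - 1) (n + 1) * (Bs F d (n + 1) - Bs F d n))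
        ≤ 2 / p * (T.t (Vs F d ε (p / 2) (n + 1)) - T.t (Vs F d ε (p / 2) n)) := by
      rw [div_mul_eq_mul_div, le_div_iff₀ hp0]
      have : p / 2 * T.t (Vs F d ε (p / 2 - 1) (n + 1) * (Bs F d (n + 1) - Bs F d n))
        ≤ T.t (Vs F d ε (p / 2) (n + 1)) - T.t (Vs F d ε (p / 2) n) := e4
      linarith
    linarith
  have hsum := Finset.sum_le_sum fun n (hn : n ∈ range N) => hstep n (Finset.mem_range.1 hn)
  rw [Finset.sum_add_distrib, ← Finset.mul_sum, ← Finset.mul_sum,
    Finset.sum_range_sub (fun i => T.t (Vs F d ε (p / 2) i)),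
    ← map_sum, ← Finset.mul_sum] at hsum
  have hab := abel F d y hε hr N
  have hV0 : 0 ≤ T.t (Vs F d ε (p / 2) 0) := by
    apply T.nonneg
    apply cfc_nonneg
    intro s hs
    have := spectrum_nonneg_of_nonneg (Bs_nonneg F d _) hs
    positivity
  -- the last projection
  have hVN : F.E N (Vs F d ε (1 - p / 2) N) = Vs F d ε (1 - p / 2) N := by
    refine h4 A T F N (Bs F d N) _ (.of_nonneg (Bs_nonneg F d _)) ?_
      (powcont (Bs_nonneg F d _) hε _)
    rw [Bs, map_sum]
    apply Finset.sum_congr rfl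
    intro n hn
    exact mem_up F (Finset.mem_range.1 hn).le (idem F n _)
  have hpy := pyth F (V := Vs F d ε (1 - p / 2) N) (cfc_sa _ _) hVN y
  have hpos : 0 ≤ T.t (Vs F d ε (1 - p / 2) N * (star (y - F.E N y) * (y - F.E N y))) := by
    refine tr_mul_nonneg T ?_ (star_mul_self_nonneg _)
    apply cfc_nonneg
    intro s hs
    have := spectrum_nonneg_of_nonneg (Bs_nonneg F d _) hs
    positivity
  have h2p : 0 < 2 / p := by positivity
  have := mul_nonneg h2p.le hV0
  rw [mul_sub] at hsum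
  linarith

end

end MDB_I1

open MDB_I1 in
theorem p_I1 (h1 : T_klein.{u}) (h2 : T_young.{u}) (_h3 : T_nrm.{u}) (h4 : T_Ecfc.{u})
    (_h5 : T_mono.{u}) : T_I1.{u} := by
  intro p hp1 hp2 A _ _ _ T F N d hd1 hd0
  have hp0 : 0 < p := by linarith
  set U : A := ∑ n ∈ range N, d n with hU
  set X : A := star U * U with hXdef
  have hX : 0 ≤ X := star_mul_self_nonneg _
  set B : A := ∑ n ∈ range N, F.E n (star (d n) * d n) with hBdef
  have hB : 0 ≤ B := Bs_nonneg F d N
  have ht1 : 0 ≤ T.t 1 := T.nonneg _ zero_le_one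
  have key : ∀ ε : ℝ, 0 < ε →
      T.nrm p U ≤ 3 / 2 * T.pw (p / 2) B + (3 / 2 + p) * (ε ^ (p / 2) * T.t 1) := by
    intro ε hε
    set R : A := cfc (fun s : ℝ => (s + ε) ^ (p / 2 - 1)) X with hR
    have hbas := basic F h1 h4 N d hd1 hd0 (U * R) hε hp0 hp2
    rw [← hU] at hbas
    have hyu : star (U * R) * U = cfc (fun t : ℝ => (t + ε) ^ (p / 2 - 1) * t) X := by
      rw [star_mul, hR, cfc_sa, mul_assoc, ← hXdef,
        cfc_mul (fun t : ℝ => (t + ε) ^ (p / 2 - 1)) (fun t : ℝ => t) X (powcont hX hε _)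
          continuousOn_id, cfc_id' ℝ X (.of_nonneg hX)]
    have hyy : star (U * R) * (U * R)
        = cfc (fun t : ℝ => (t + ε) ^ (p / 2 - 1) * t * (t + ε) ^ (p / 2 - 1)) X := by
      rw [← mul_assoc, hyu, hR, ← cfc_mul (fun t : ℝ => (t + ε) ^ (p / 2 - 1) * t)
        (fun t : ℝ => (t + ε) ^ (p / 2 - 1)) X ((powcont hX hε _).mul continuousOn_id)
        (powcont hX hε _)]
    rw [hyu, hyy] at hbas
    have hcont : ∀ q : ℝ, ContinuousOn (fun s : ℝ => (s + ε) ^ q) (Set.Ici 0) := by
      intro q s hs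
      have hs' : (0 : ℝ) ≤ s := hs
      have h1 : s + ε ≠ 0 := by
        have : 0 < s + ε := by linarith
        exact this.ne'
      have h2 : ContinuousAt (fun s : ℝ => s + ε) s := by fun_prop
      exact (h2.rpow_const (Or.inl h1)).continuousWithinAt
    have hy := h2 A T (fun s : ℝ => (s + ε) ^ (1 - p / 2))
      (fun t : ℝ => (t + ε) ^ (p / 2 - 1) * t * (t + ε) ^ (p / 2 - 1))
      (fun s : ℝ => (2 - p) / p * (s + ε) ^ (p / 2))
      (fun t : ℝ => 2 * (p - 1) / p * (t + ε) ^ (p / 2)) B X hB hX (hcont _)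
      (((hcont _).mul continuousOn_id).mul (hcont _)) ((hcont _).const_mul _)
      ((hcont _).const_mul _) ?_
    · rw [cfc_const_mul _ (fun s : ℝ => (s + ε) ^ (p / 2)) B (powcont hB hε _),
        cfc_const_mul _ (fun s : ℝ => (s + ε) ^ (p / 2)) X (powcont hX hε _), map_smul, map_smul,
        smul_eq_mul, smul_eq_mul] at hy
      have hV1 : Vs F d ε (1 - p / 2) N = cfc (fun s : ℝ => (s + ε) ^ (1 - p / 2)) B := rfl
      have hV2 : Vs F d ε (p / 2) N = cfc (fun s : ℝ => (s + ε) ^ (p / 2)) B := rfl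
      rw [hV1, hV2] at hbas
      set Sε := T.t (cfc (fun s : ℝ => (s + ε) ^ (p / 2)) B) with hSε
      set Uε := T.t (cfc (fun s : ℝ => (s + ε) ^ (p / 2)) X) with hUε
      -- lower bound
      have hlow : Uε - ε ^ (p / 2) * T.t 1
          ≤ T.t (cfc (fun t : ℝ => (t + ε) ^ (p / 2 - 1) * t) X) := by
        have e1 : Uε - ε ^ (p / 2) * T.t 1
            = T.t (cfc (fun t : ℝ => (t + ε) ^ (p / 2) - ε ^ (p / 2)) X) := by
          rw [cfc_sub (fun t : ℝ => (t + ε) ^ (p / 2)) (fun _ : ℝ => ε ^ (p / 2)) X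
            (powcont hX hε _) continuousOn_const, cfc_const _ X (.of_nonneg hX), map_sub,
            Algebra.algebraMap_eq_smul_one, map_smul, smul_eq_mul]
        rw [e1]
        apply tr_mono
        apply cfc_mono _ (((powcont hX hε _).sub continuousOn_const))
          ((powcont hX hε _).mul continuousOn_id)
        intro t ht
        have ht0 := spectrum_nonneg_of_nonneg hX ht
        have hte : 0 < t + ε := by linarith
        have e2 : (t + ε) ^ (p / 2 - 1) * t
            = (t + ε) ^ (p / 2) - ε * (t + ε) ^ (p / 2 - 1) := by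
          rw [Real.rpow_sub_one hte.ne']
          field_simp
          ring
        have e3 : ε ^ (p / 2) = ε * ε ^ (p / 2 - 1) := by
          rw [Real.rpow_sub_one hε.ne']
          field_simp
        have e4 : (t + ε) ^ (p / 2 - 1) ≤ ε ^ (p / 2 - 1) :=
          Real.rpow_le_rpow_of_nonpos hε (by linarith) (by linarith)
        have e5 := mul_le_mul_of_nonneg_left e4 hε.le
        change (t + ε) ^ (p / 2) - ε ^ (p / 2) ≤ (t + ε) ^ (p / 2 - 1) * t
        rw [e2, e3]
        linarith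
      have hU0 : T.nrm p U ≤ Uε := by
        apply tr_mono
        apply cfc_mono _ _ (powcont hX hε _)
        · intro t ht
          have ht0 := spectrum_nonneg_of_nonneg hX ht
          exact Real.rpow_le_rpow ht0 (by linarith) (by positivity)
        · exact (Real.continuous_rpow_const (by positivity)).continuousOn
      have hS0 : Sε ≤ T.pw (p / 2) B + ε ^ (p / 2) * T.t 1 := by
        have hc0 : ContinuousOn (fun t : ℝ => t ^ (p / 2)) (spectrum ℝ B) :=
          (Real.continuous_rpow_const (by positivity)).continuousOn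
        have e1 : T.pw (p / 2) B + ε ^ (p / 2) * T.t 1
            = T.t (cfc (fun t : ℝ => t ^ (p / 2) + ε ^ (p / 2)) B) := by
          rw [cfc_add B (fun t : ℝ => t ^ (p / 2)) (fun _ : ℝ => ε ^ (p / 2))
            hc0 continuousOn_const, cfc_const _ B (.of_nonneg hB), map_add,
            Algebra.algebraMap_eq_smul_one, map_smul, smul_eq_mul, TrFun.pw]
        rw [e1]
        apply tr_mono
        apply cfc_mono _ (powcont hB hε _) (hc0.add continuousOn_const)
        intro t ht
        have ht0 := spectrum_nonneg_of_nonneg hB ht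
        exact Real.rpow_add_le_add_rpow ht0 hε.le (by positivity) (by linarith)
      have hSnn : 0 ≤ Sε := by
        apply T.nonneg
        apply cfc_nonneg
        intro s hs
        have := spectrum_nonneg_of_nonneg hB hs
        positivity
      set e := ε ^ (p / 2) * T.t 1 with he
      have hfin : 2 * (Uε - e) ≤ (2 - p) / p * Sε + 2 * (p - 1) / p * Uε + 2 / p * Sε := by
        linarith
      have hfin2 : 2 * (Uε - e) * p ≤ (2 - p) * Sε + 2 * (p - 1) * Uε + 2 * Sε := by
        have h6 := mul_le_mul_of_nonneg_right hfin hp0.le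
        have h7 : ((2 - p) / p * Sε + 2 * (p - 1) / p * Uε + 2 / p * Sε) * p
            = (2 - p) * Sε + 2 * (p - 1) * Uε + 2 * Sε := by
          field_simp
        rw [h7] at h6
        exact h6
      have hfin3 : Uε ≤ 3 / 2 * Sε + p * e := by
        nlinarith
      nlinarith
    · intro s hs t ht
      have hse : 0 < s + ε := by linarith
      have hte : 0 < t + ε := by linarith
      have hw1 : 0 ≤ (2 - p) / p := div_nonneg (by linarith) hp0.le
      have hw2 : 0 ≤ 2 * (p - 1) / p := div_nonneg (by linarith) hp0.le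
      have hw : (2 - p) / p + 2 * (p - 1) / p = 1 := by
        field_simp
        ring
      have hg := Real.geom_mean_le_arith_mean2_weighted hw1 hw2
        (Real.rpow_nonneg hse.le (p / 2)) (Real.rpow_nonneg hte.le (p / 2)) hw
      rw [← Real.rpow_mul hse.le, ← Real.rpow_mul hte.le] at hg
      have e1 : p / 2 * ((2 - p) / p) = 1 - p / 2 := by
        field_simp
      have e2 : p / 2 * (2 * (p - 1) / p) = p - 1 := by
        field_simp
      rw [e1, e2] at hg
      refine le_trans ?_ hg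
      apply mul_le_mul_of_nonneg_left _ (Real.rpow_nonneg hse.le _)
      have e3 : (t + ε) ^ (p - 1)
          = (t + ε) ^ (p / 2 - 1) * (t + ε) * (t + ε) ^ (p / 2 - 1) := by
        have : p - 1 = (p / 2 - 1) + 1 + (p / 2 - 1) := by ring
        rw [this, Real.rpow_add hte, Real.rpow_add hte, Real.rpow_one]
      rw [e3]
      have h8 := Real.rpow_nonneg hte.le (p / 2 - 1)
      gcongr
      linarith
  -- letting ε tend to zero
  apply le_of_forall_pos_le_add
  intro δ hδ
  set C := (3 / 2 + p) * T.t 1 with hC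
  have hC0 : 0 ≤ C := by positivity
  have hδ' : 0 < δ / (C + 1) := by positivity
  have h := key ((δ / (C + 1)) ^ (2 / p)) (by positivity)
  rw [← Real.rpow_mul hδ'.le] at h
  have e : 2 / p * (p / 2) = 1 := by
    field_simp
  rw [e, Real.rpow_one] at h
  have h9 : (3 / 2 + p) * (δ / (C + 1) * T.t 1) ≤ δ := by
    have : (3 / 2 + p) * (δ / (C + 1) * T.t 1) = δ * (C / (C + 1)) := by
      rw [hC]
      ring
    rw [this]
    have h10 : C / (C + 1) ≤ 1 := by
      rw [div_le_one (by positivity)]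
      linarith
    nlinarith
  linarith

end MDB
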