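import Pool.Agent.MDB.Targets

/-!
# Triangular truncation, exponents powers of two
-/

open Finset

namespace MDB

universe u

namespace MDB_T1

set_option linter.unusedSectionVars false

section

variable {A : Type u} [CStarAlgebra A] [PartialOrder A] [StarOrderedRing A]

/-- the previous projection -/
def gg (f : ℕ → A) : ℕ → A
  | 0 => 0
  | n + 1 => f n

theorem gg_proj {f : ℕ → A} (hf : ∀ n, IsStarProjection (f n)) (n : ℕ) :
    IsStarProjection (gg f n) := by
  cases n with
  | zero => exact IsStarProjection.zero A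
  | succ n => exact hf n

theorem star_f {f : ℕ → A} (hf : ∀ n, IsStarProjection (f n)) (n : ℕ) : star (f n) = f n :=
  (hf n).isSelfAdjoint.star_eq

theorem ff' {f : ℕ → A} (hf : ∀ n, IsStarProjection (f n))
    (hm : ∀ m n, m ≤ n → f n * f m = f m) {m n : ℕ} (h : m ≤ n) : f m * f n = f m := by
  have := congrArg star (hm m n h)
  rwa [star_mul, star_f hf, star_f hf] at this

theorem fg {f : ℕ → A} (hm : ∀ m n, m ≤ n → f n * f m = f m) {m n : ℕ} (h : m ≤ n + 1) :
    f n * gg f m = gg f m := by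
  cases m with
  | zero => simp [gg]
  | succ m => exact hm m n (by omega)

theorem gf {f : ℕ → A} (hf : ∀ n, IsStarProjection (f n))
    (hm : ∀ m n, m ≤ n → f n * f m = f m) {m n : ℕ} (h : m ≤ n + 1) :
    gg f m * f n = gg f m := by
  cases m with
  | zero => simp [gg]
  | succ m => exact ff' hf hm (by omega)

theorem gg_mono {f : ℕ → A} (hm : ∀ m n, m ≤ n → f n * f m = f m) (m n : ℕ) (h : m ≤ n) :
    gg f n * gg f m = gg f m := by
  cases n with
  | zero =>
    have : m = 0 := by omega
    subst this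
    simp [gg]
  | succ n => exact fg hm h

/-- the differences -/
def DD (f : ℕ → A) (n : ℕ) : A := f n - gg f n

theorem star_DD {f : ℕ → A} (hf : ∀ n, IsStarProjection (f n)) (n : ℕ) :
    star (DD f n) = DD f n := by
  rw [DD, star_sub, star_f hf, star_f (gg_proj hf)]

theorem DD_mul_f {f : ℕ → A} (hf : ∀ n, IsStarProjection (f n))
    (hm : ∀ m n, m ≤ n → f n * f m = f m) {i n : ℕ} (h : i ≤ n) : DD f i * f n = DD f i := by
  rw [DD, sub_mul, ff' hf hm h, gf hf hm (by omega)]

theorem f_mul_DD {f : ℕ → A} (hm : ∀ m n, m ≤ n → f n * f m = f m) {i n : ℕ} (h : i ≤ n) :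
    f n * DD f i = DD f i := by
  rw [DD, mul_sub, hm i n h, fg hm (by omega)]

theorem DD_mul_f' {f : ℕ → A} (hm : ∀ m n, m ≤ n → f n * f m = f m) {i n : ℕ} (h : n < i) :
    DD f i * f n = 0 := by
  cases i with
  | zero => omega
  | succ i =>
    rw [DD, sub_mul, gg, hm n (i + 1) (by omega), hm n i (by omega), sub_self]

theorem f_mul_DD' {f : ℕ → A} (hf : ∀ n, IsStarProjection (f n))
    (hm : ∀ m n, m ≤ n → f n * f m = f m) {i n : ℕ} (h : n < i) :
    f n * DD f i = 0 := by
  have := congrArg star (DD_mul_f' hm h)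
  rwa [star_mul, star_DD hf, star_f hf, star_zero] at this

theorem DD_orth {f : ℕ → A} (hf : ∀ n, IsStarProjection (f n))
    (hm : ∀ m n, m ≤ n → f n * f m = f m) {i k : ℕ} (h : i ≠ k) : DD f i * DD f k = 0 := by
  have key : ∀ i k, i < k → DD f i * DD f k = 0 := by
    intro i k hik
    rw [← DD_mul_f hf hm (le_refl i), mul_assoc, f_mul_DD' hf hm hik, mul_zero]
  rcases lt_or_gt_of_ne h with h | h
  · exact key i k h
  · have := congrArg star (key k i h)
    rwa [star_mul, star_DD hf, star_DD hf, star_zero] at this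

theorem DD_idem {f : ℕ → A} (hf : ∀ n, IsStarProjection (f n))
    (hm : ∀ m n, m ≤ n → f n * f m = f m) (i : ℕ) : DD f i * DD f i = DD f i := by
  have h1 := DD_mul_f hf hm (le_refl i)
  have h2 : DD f i * gg f i = 0 := by
    cases i with
    | zero => simp [gg]
    | succ i => exact DD_mul_f' hm (by omega)
  calc DD f i * DD f i = DD f i * (f i - gg f i) := rfl
    _ = DD f i := by rw [mul_sub, h1, h2, sub_zero]

theorem sum_DD {f : ℕ → A} (N : ℕ) : ∑ i ∈ range N, DD f i = gg f N := by
  induction N with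
  | zero => simp [gg]
  | succ N ih =>
    rw [sum_range_succ, ih, DD]
    simp [gg]

theorem tele {f : ℕ → A} (hf : ∀ n, IsStarProjection (f n))
    (hm : ∀ m n, m ≤ n → f n * f m = f m) (b : A) {n N : ℕ} (hn : n < N) :
    ∑ i ∈ range N, (DD f i * f n * b * f i + gg f i * b * (f n * DD f i)) = f n * b * f n := by
  have h1 : ∀ M, M ≤ n + 1 →
      ∑ i ∈ range M, (DD f i * f n * b * f i + gg f i * b * (f n * DD f i))
        = gg f M * b * gg f M := by
    intro M
    induction M with
    | zero => intro _; simp [gg]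
    | succ M ih =>
      intro hM
      rw [sum_range_succ, ih (by omega), DD_mul_f hf hm (by omega), f_mul_DD hm (by omega)]
      simp only [DD, gg]
      noncomm_ring
  have h2 : ∑ i ∈ range N, (DD f i * f n * b * f i + gg f i * b * (f n * DD f i))
      = ∑ i ∈ range (n + 1), (DD f i * f n * b * f i + gg f i * b * (f n * DD f i)) := by
    symm
    apply sum_subset
    · intro i hi
      rw [mem_range] at hi ⊢
      omega
    · intro i _ hi
      rw [mem_range] at hi
      rw [DD_mul_f' hm (by omega), f_mul_DD' hf hm (by omega)]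
      simp
  rw [h2, h1 (n + 1) le_rfl]
  rfl

/-- the sum of the blocks -/
theorem star_mul_self_blocks {f : ℕ → A} (hf : ∀ n, IsStarProjection (f n))
    (hm : ∀ m n, m ≤ n → f n * f m = f m) (Z : A) (g : ℕ → A) (hg : ∀ n, IsStarProjection (g n))
    (N : ℕ) :
    star (∑ i ∈ range N, DD f i * Z * g i) * (∑ i ∈ range N, DD f i * Z * g i)
      = ∑ i ∈ range N, g i * (star (DD f i * Z) * (DD f i * Z)) * g i := by
  rw [star_sum, sum_mul]
  apply sum_congr rfl
  intro i hi
  rw [mul_sum, sum_eq_single i]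
  · simp only [star_mul, star_f hg, star_DD hf]
    noncomm_ring
  · intro k _ hk
    simp only [star_mul, star_f hg, star_DD hf]
    have : DD f i * DD f k = 0 := DD_orth hf hm (Ne.symm hk)
    calc g i * (star Z * DD f i) * (DD f k * Z * g k)
        = g i * star Z * (DD f i * DD f k) * Z * g k := by noncomm_ring
      _ = 0 := by rw [this]; simp
  · intro h
    exact absurd hi h

theorem sum_blocks_le {f : ℕ → A} (hf : ∀ n, IsStarProjection (f n))
    (hm : ∀ m n, m ≤ n → f n * f m = f m) (Z : A) (N : ℕ) :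
    ∑ i ∈ range N, star (DD f i * Z) * (DD f i * Z) ≤ star Z * Z := by
  have h1 : ∑ i ∈ range N, star (DD f i * Z) * (DD f i * Z) = star Z * gg f N * Z := by
    rw [← sum_DD, mul_sum, sum_mul]
    apply sum_congr rfl
    intro i _
    rw [star_mul, star_DD hf]
    calc star Z * DD f i * (DD f i * Z) = star Z * (DD f i * DD f i) * Z := by noncomm_ring
      _ = star Z * DD f i * Z := by rw [DD_idem hf hm]
  rw [h1, ← sub_nonneg]
  have hp := gg_proj hf N
  have h2 : star Z * Z - star Z * gg f N * Z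
      = star ((1 - gg f N) * Z) * ((1 - gg f N) * Z) := by
    have h3 : (1 - gg f N) * (1 - gg f N) = 1 - gg f N := by
      have := hp.isIdempotentElem.eq
      rw [mul_sub, sub_mul, sub_mul, this]
      simp
    rw [star_mul, star_sub, star_one, star_f (gg_proj hf)]
    calc star Z * Z - star Z * gg f N * Z = star Z * (1 - gg f N) * Z := by noncomm_ring
      _ = star Z * ((1 - gg f N) * (1 - gg f N)) * Z := by rw [h3]
      _ = star Z * (1 - gg f N) * ((1 - gg f N) * Z) := by noncomm_ring
  rw [h2]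
  exact star_mul_self_nonneg _

/-- powers -/
theorem pw_eq (T : TrFun A) (j : ℕ) {a : A} (ha : IsSelfAdjoint a) :
    T.pw ((2 : ℝ) ^ j) a = T.t (a ^ (2 ^ j)) := by
  unfold TrFun.pw
  congr 1
  have : (fun s : ℝ => s ^ ((2 : ℝ) ^ j)) = fun s : ℝ => s ^ (2 ^ j : ℕ) := by
    funext s
    have h2 : (2 : ℝ) ^ j = ((2 ^ j : ℕ) : ℝ) := by norm_num
    rw [h2, Real.rpow_natCast]
  rw [this, cfc_pow_id a (2 ^ j)]

theorem pow_nonneg' {a : A} (ha : 0 ≤ a) (k : ℕ) : 0 ≤ a ^ k := by
  have h := IsSelfAdjoint.of_nonneg ha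
  rw [← cfc_pow_id (R := ℝ) a k]
  apply cfc_nonneg
  intro x hx
  exact pow_nonneg (spectrum_nonneg_of_nonneg ha hx) k

theorem nrm_eq (T : TrFun A) (j : ℕ) (x : A) :
    T.nrm ((2 : ℝ) ^ (j + 1)) x = T.t ((star x * x) ^ (2 ^ j)) := by
  unfold TrFun.nrm
  have : (2 : ℝ) ^ (j + 1) / 2 = 2 ^ j := by
    rw [pow_succ]; ring
  rw [this, pw_eq T j (IsSelfAdjoint.star_mul_self x)]

end

end MDB_T1

open MDB_T1 in
/-- Triangular truncation, exponents powers of two. -/
theorem p_T1 (h1 : T_hold.{u}) (h2 : T_mono.{u}) (h3 : T_nrm.{u}) : T_T1.{u} := by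
  intro j
  induction j with
  | zero =>
    refine ⟨1, one_pos, ?_⟩
    intro A _ _ _ T N f Y hf hm
    simp only [pow_zero, pow_one, one_mul, map_sum]
    apply sum_le_sum
    intro n _
    have hi := (hf n).isIdempotentElem.eq
    have e1 : T.t (f n * (star (Y n) * Y n) * f n) = T.t (star (Y n) * Y n * f n) := by
      rw [T.comm, ← mul_assoc, hi, T.comm]
    have e2 : T.t (star (Y n) * Y n) - T.t (star (Y n) * Y n * f n)
        = T.t (star (Y n * (1 - f n)) * (Y n * (1 - f n))) := by
      have h3 : (1 - f n) * (1 - f n) = 1 - f n := by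
        rw [mul_sub, sub_mul, sub_mul, hi]
        simp
      rw [star_mul, star_sub, star_one, star_f hf, ← map_sub]
      calc T.t (star (Y n) * Y n - star (Y n) * Y n * f n)
          = T.t (star (Y n) * Y n * (1 - f n)) := by congr 1; noncomm_ring
        _ = T.t (star (Y n) * Y n * (1 - f n) * (1 - f n)) := by
            rw [mul_assoc _ (1 - f n) (1 - f n), h3]
        _ = T.t ((1 - f n) * (star (Y n) * Y n * (1 - f n))) := T.comm _ _
        _ = T.t ((1 - f n) * star (Y n) * (Y n * (1 - f n))) := by congr 1; noncomm_ring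
    have e3 := T.nonneg _ (star_mul_self_nonneg (Y n * (1 - f n)))
    rw [e1]
    linarith
  | succ j ih =>
    obtain ⟨K, hK, ih⟩ := ih
    obtain ⟨K', hK', hn⟩ := h3 ((2 : ℝ) ^ (j + 1)) (by positivity)
    refine ⟨(K' * (K + K)) ^ 2, by positivity, ?_⟩
    intro A _ _ _ T N f Y hf hm
    obtain ⟨hadd, -, hstar, -⟩ := hn A T
    set G : A := ∑ n ∈ range N, f n * (star (Y n) * Y n) * f n with hG
    set Z : A := ∑ n ∈ range N, star (Y n * f n) * Y n with hZ
    set L : A := ∑ i ∈ range N, DD f i * Z * f i with hL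
    set L' : A := ∑ i ∈ range N, DD f i * Z * gg f i with hL'
    have hGL : G = L + star L' := by
      rw [hL, hL', star_sum, ← sum_add_distrib]
      have e1 : ∀ i ∈ range N, DD f i * Z * f i + star (DD f i * Z * gg f i)
          = ∑ n ∈ range N, (DD f i * f n * (star (Y n) * Y n) * f i
            + gg f i * (star (Y n) * Y n) * (f n * DD f i)) := by
        intro i _
        rw [sum_add_distrib]
        congr 1
        · rw [hZ, mul_sum, sum_mul]
          apply sum_congr rfl
          intro n _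
          rw [star_mul, star_f hf]
          noncomm_ring
        · rw [star_mul, star_mul, star_DD hf, star_f (gg_proj hf), hZ, star_sum, sum_mul, mul_sum]
          apply sum_congr rfl
          intro n _
          rw [star_mul, star_star]
          noncomm_ring
      rw [sum_congr rfl e1, sum_comm, hG]
      apply sum_congr rfl
      intro n hn
      rw [tele hf hm _ (mem_range.1 hn)]
    have hGnn : 0 ≤ G := by
      rw [hG]
      apply sum_nonneg
      intro n _
      have : f n * (star (Y n) * Y n) * f n = star (Y n * f n) * (Y n * f n) := by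
        rw [star_mul, star_f hf]
        noncomm_ring
      rw [this]
      exact star_mul_self_nonneg _
    have hGsa : star G = G := (IsSelfAdjoint.of_nonneg hGnn).star_eq
    have hbnn : 0 ≤ ∑ n ∈ range N, star (Y n) * Y n :=
      sum_nonneg fun n _ => star_mul_self_nonneg _
    -- the three quantities
    have hg : T.t (G ^ (2 ^ (j + 1))) = T.nrm ((2 : ℝ) ^ (j + 1)) G := by
      rw [nrm_eq, hGsa, ← pow_two, ← pow_mul, pow_succ, mul_comm]
    have hZ2 : T.nrm ((2 : ℝ) ^ (j + 1)) Z = T.t ((star Z * Z) ^ (2 ^ j)) := nrm_eq T j Z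
    have hbound : ∀ g : ℕ → A, (∀ n, IsStarProjection (g n)) →
        (∀ m n, m ≤ n → g n * g m = g m) →
        T.nrm ((2 : ℝ) ^ (j + 1)) (∑ i ∈ range N, DD f i * Z * g i)
          ≤ K * T.t ((star Z * Z) ^ (2 ^ j)) := by
      intro g hg hgm
      rw [nrm_eq, star_mul_self_blocks hf hm Z g hg N]
      refine (ih A T N g (fun i => DD f i * Z) hg hgm).trans ?_
      apply mul_le_mul_of_nonneg_left _ hK.le
      have hs : 0 ≤ ∑ i ∈ range N, star (DD f i * Z) * (DD f i * Z) :=
        sum_nonneg fun n _ => star_mul_self_nonneg _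
      have := h2 A T ((2 : ℝ) ^ j) _ _ (by positivity) hs (sum_blocks_le hf hm Z N)
      rwa [pw_eq T j (IsSelfAdjoint.of_nonneg hs), pw_eq T j (IsSelfAdjoint.star_mul_self Z)]
        at this
    have b1 := hbound f hf hm
    have b2 := hbound (gg f) (gg_proj hf) (gg_mono hm)
    have b3 : T.t (G ^ (2 ^ (j + 1))) ≤ (K' * (K + K)) * T.t ((star Z * Z) ^ (2 ^ j)) := by
      rw [hg]
      calc T.nrm ((2 : ℝ) ^ (j + 1)) G
          = T.nrm ((2 : ℝ) ^ (j + 1)) (L + star L') := by rw [← hGL]
        _ ≤ K' * (T.nrm ((2 : ℝ) ^ (j + 1)) L + T.nrm ((2 : ℝ) ^ (j + 1)) (star L')) := hadd _ _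
        _ = K' * (T.nrm ((2 : ℝ) ^ (j + 1)) L + T.nrm ((2 : ℝ) ^ (j + 1)) L') := by rw [hstar]
        _ ≤ K' * (K * T.t ((star Z * Z) ^ (2 ^ j)) + K * T.t ((star Z * Z) ^ (2 ^ j))) := by
            gcongr
        _ = _ := by ring
    have b4 := h1 A T j N (fun n => Y n * f n) Y
    have e5 : ∑ n ∈ range N, star (Y n * f n) * (Y n * f n) = G := by
      rw [hG]
      apply sum_congr rfl
      intro n _
      rw [star_mul, star_f hf]
      noncomm_ring
    rw [e5] at b4
    have gnn : 0 ≤ T.t (G ^ (2 ^ (j + 1))) := T.nonneg _ (pow_nonneg' hGnn _)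
    have ynn : 0 ≤ T.t ((∑ n ∈ range N, star (Y n) * Y n) ^ (2 ^ (j + 1))) :=
      T.nonneg _ (pow_nonneg' hbnn _)
    have znn : 0 ≤ T.t ((star Z * Z) ^ (2 ^ j)) :=
      T.nonneg _ (pow_nonneg' (star_mul_self_nonneg Z) _)
    have hc : 0 < K' * (K + K) := by positivity
    set gq := T.t (G ^ (2 ^ (j + 1)))
    set yq := T.t ((∑ n ∈ range N, star (Y n) * Y n) ^ (2 ^ (j + 1)))
    set zq := T.t ((star Z * Z) ^ (2 ^ j))
    have b5 : zq ^ 2 ≤ gq * yq := b4
    rcases eq_or_lt_of_le gnn with h0 | h0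
    · rw [← h0]
      positivity
    · have : gq ^ 2 ≤ (K' * (K + K)) ^ 2 * (gq * yq) := by
        calc gq ^ 2 ≤ ((K' * (K + K)) * zq) ^ 2 := by gcongr
          _ = (K' * (K + K)) ^ 2 * zq ^ 2 := by ring
          _ ≤ _ := by gcongr
      have h6 : gq * gq ≤ gq * ((K' * (K + K)) ^ 2 * yq) := by nlinarith
      exact le_of_mul_le_mul_left h6 h0

end MDB
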