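import Pool.Agent.MDB.Targets

set_option autoImplicit false

open Finset

namespace MDB

universe u

namespace MDB_T1D

/-- the function `(s + η) ^ e` -/
noncomputable def pf (η e s : ℝ) : ℝ := (s + η) ^ e

theorem pf_contOn {η : ℝ} (hη : 0 < η) (e : ℝ) : ContinuousOn (pf η e) (Set.Ici 0) := by
  unfold pf
  refine ContinuousOn.rpow_const (by fun_prop) fun x hx => Or.inl ?_
  have : (0 : ℝ) ≤ x := hx
  positivity

theorem pf_mul {η : ℝ} (hη : 0 < η) (e e' : ℝ) {s : ℝ} (hs : 0 ≤ s) :
    pf η e s * pf η e' s = pf η (e + e') s := by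
  unfold pf
  rw [Real.rpow_add (by positivity)]

theorem pf_nonneg {η : ℝ} (hη : 0 < η) (e : ℝ) {s : ℝ} (hs : 0 ≤ s) : 0 ≤ pf η e s := by
  unfold pf
  positivity

section

variable {A : Type u} [CStarAlgebra A] [PartialOrder A] [StarOrderedRing A]

theorem spec_sub {a : A} (ha : 0 ≤ a) : spectrum ℝ a ⊆ Set.Ici 0 :=
  fun _ hx => spectrum_nonneg_of_nonneg ha hx

theorem t_mono (T : TrFun A) {a b : A} (h : a ≤ b) : T.t a ≤ T.t b := by
  have h1 := T.nonneg (b - a) (sub_nonneg.2 h)
  rw [map_sub] at h1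
  linarith

/-- comparison of two functions of the same positive element -/
theorem t_cfc_le (T : TrFun A) {a : A} (ha : 0 ≤ a) (f g : ℝ → ℝ) (hf : ContinuousOn f (Set.Ici 0))
    (hg : ContinuousOn g (Set.Ici 0)) (h : ∀ s, 0 ≤ s → f s ≤ g s) :
    T.t (cfc f a) ≤ T.t (cfc g a) := by
  refine t_mono T ?_
  exact cfc_mono (fun x hx => h x (spec_sub ha hx)) (hf.mono (spec_sub ha)) (hg.mono (spec_sub ha))

theorem t_cfc_add_const (T : TrFun A) {a : A} (ha : 0 ≤ a) (f : ℝ → ℝ)
    (hf : ContinuousOn f (Set.Ici 0)) (c : ℝ) :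
    T.t (cfc (fun s => f s + c) a) = T.t (cfc f a) + c * T.t 1 := by
  have hsa : IsSelfAdjoint a := IsSelfAdjoint.of_nonneg ha
  rw [cfc_add_const c f a (hf.mono (spec_sub ha)) hsa, map_add,
    Algebra.algebraMap_eq_smul_one, map_smul, smul_eq_mul]

/-- Cauchy-Schwarz with weights -/
theorem cs_weight (T : TrFun A) (V Y u u' : A) (hu : IsSelfAdjoint u) (hu' : IsSelfAdjoint u')
    (huu : u' * u = 1) :
    2 * T.t (star V * Y) ≤ T.t (star V * V * (u * u)) + T.t (star Y * Y * (u' * u')) := by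
  have h0 : 0 ≤ T.t (star (V * u - Y * u') * (V * u - Y * u')) :=
    T.nonneg _ (star_mul_self_nonneg _)
  have hexp : star (V * u - Y * u') * (V * u - Y * u') =
      u * (star V * V * u) + u' * (star Y * Y * u') - u * (star V * Y * u')
        - star (u * (star V * Y * u')) := by
    have h1 : star u = u := hu
    have h2 : star u' = u' := hu'
    simp only [star_sub, star_mul, star_star, h1, h2]
    noncomm_ring
  rw [hexp, map_sub, map_sub, map_add, T.star_eq] at h0
  have h1 : T.t (u * (star V * V * u)) = T.t (star V * V * (u * u)) := by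
    rw [T.comm, mul_assoc]
  have h2 : T.t (u' * (star Y * Y * u')) = T.t (star Y * Y * (u' * u')) := by
    rw [T.comm, mul_assoc]
  have h3 : T.t (u * (star V * Y * u')) = T.t (star V * Y) := by
    rw [T.comm, mul_assoc, huu, mul_one]
  rw [h1, h2, h3] at h0
  linarith

end

theorem qj_pos (j : ℕ) : 0 < qj j := by
  unfold qj
  positivity

/-- `m = 2 ^ j`, `r = p / 2 = m / (2 m - 1)` -/
theorem pj_half (j : ℕ) : pj j / 2 = (2 : ℝ) ^ j / (2 * 2 ^ j - 1) := by
  unfold pj qj
  have h1 : (1 : ℝ) ≤ 2 ^ j := one_le_pow₀ (by norm_num)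
  have h2 : (2 : ℝ) * 2 ^ j - 1 ≠ 0 := by nlinarith
  have h3 : (2 : ℝ) ^ (j + 1) - 1 ≠ 0 := by
    rw [pow_succ]
    nlinarith
  rw [pow_succ] at *
  field_simp

theorem young_pt {η : ℝ} (hη : 0 < η) (j : ℕ) {s t : ℝ} (hs : 0 ≤ s) (ht : 0 ≤ t) :
    s * pf η (1 - pj j / 2) t ≤ s ^ (2 ^ j) / (2 : ℝ) ^ j + pf η (pj j / 2) t := by
  have hm1 : (1 : ℝ) ≤ 2 ^ j := one_le_pow₀ (by norm_num)
  have hmp : (0 : ℝ) < 2 ^ j := by positivity
  have h2 : (2 : ℝ) * 2 ^ j - 1 ≠ 0 := by nlinarith
  set m : ℝ := 2 ^ j with hm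
  have hw1 : 0 ≤ 1 / m := by positivity
  have hw2 : 0 ≤ 1 - 1 / m := by
    rw [sub_nonneg, div_le_one hmp]
    exact hm1
  have hY : 0 ≤ pf η (pj j / 2) t := pf_nonneg hη _ ht
  have key := Real.geom_mean_le_arith_mean2_weighted hw1 hw2 (pow_nonneg hs (2 ^ j)) hY
    (by ring)
  have e1 : (s ^ (2 ^ j)) ^ (1 / m) = s := by
    rw [← Real.rpow_natCast s (2 ^ j), ← Real.rpow_mul hs]
    have : ((2 ^ j : ℕ) : ℝ) * (1 / m) = 1 := by
      rw [hm]
      push_cast
      field_simp
    rw [this, Real.rpow_one]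
  have e2 : (pf η (pj j / 2) t) ^ (1 - 1 / m) = pf η (1 - pj j / 2) t := by
    unfold pf
    rw [← Real.rpow_mul (by positivity)]
    congr 1
    rw [pj_half, ← hm]
    have h5 : m / (2 * m - 1) * (2 * m - 1) = m := div_mul_cancel₀ m h2
    generalize m / (2 * m - 1) = x at h5
    have h6 : x / m * m = x := div_mul_cancel₀ x hmp.ne'
    have h7 : x * (1 - 1 / m) = x - x / m := by ring
    rw [h7]
    have h8 : (x - x / m - (1 - x)) * m = 0 := by
      have : (x - x / m - (1 - x)) * m = x * (2 * m) - x / m * m - m := by ring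
      rw [this, h6]
      linarith
    have h9 := (mul_eq_zero.1 h8).resolve_right hmp.ne'
    linarith
  rw [e1, e2] at key
  refine key.trans ?_
  have h3 : (1 - 1 / m) * pf η (pj j / 2) t ≤ 1 * pf η (pj j / 2) t :=
    mul_le_mul_of_nonneg_right (by linarith) hY
  have h4 : 1 / m * s ^ 2 ^ j = s ^ 2 ^ j / m := by ring
  rw [h4]
  linarith

theorem pj_bounds (j : ℕ) : 0 < pj j / 2 ∧ pj j / 2 ≤ 1 := by
  rw [pj_half]
  have h1 : (1 : ℝ) ≤ 2 ^ j := one_le_pow₀ (by norm_num)
  have h2 : (0 : ℝ) < 2 * 2 ^ j - 1 := by nlinarith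
  constructor
  · positivity
  · rw [div_le_one h2]
    linarith

theorem pow_pt {η : ℝ} (hη : 0 < η) (j : ℕ) {s : ℝ} (hs : 0 ≤ s) :
    (pf η (pj j / 2 - 1) s * s * pf η (pj j / 2 - 1) s) ^ (2 ^ j) ≤ pf η (pj j / 2) s := by
  have hm1 : (1 : ℝ) ≤ 2 ^ j := one_le_pow₀ (by norm_num)
  have h2 : (2 : ℝ) * 2 ^ j - 1 ≠ 0 := by nlinarith
  have hp := pf_nonneg hη (pj j / 2 - 1) hs
  have hse : 0 < s + η := by positivity
  have h3 : pf η (pj j / 2 - 1) s * s * pf η (pj j / 2 - 1) s ≤ pf η (pj j - 1) s := by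
    have h4 : pf η (pj j - 1) s = pf η (pj j / 2 - 1) s * (s + η) * pf η (pj j / 2 - 1) s := by
      have : s + η = pf η 1 s := by
        unfold pf
        rw [Real.rpow_one]
      rw [this, pf_mul hη _ _ hs, pf_mul hη _ _ hs]
      congr 1
      ring
    rw [h4]
    gcongr
    linarith
  refine (pow_le_pow_left₀ (by positivity) h3 _).trans (le_of_eq ?_)
  unfold pf
  rw [← Real.rpow_natCast, ← Real.rpow_mul hse.le]
  congr 1
  have h5 := pj_half j
  have h6 : pj j = 2 * ((2 : ℝ) ^ j / (2 * 2 ^ j - 1)) := by linarith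
  rw [h6]
  push_cast
  field_simp
  ring

end MDB_T1D

open MDB_T1D

theorem p_T1d (h1 : T_T1.{u}) (_h2 : T_mono.{u}) (h3 : T_young.{u}) (_h4 : T_nrm.{u}) :
    T_T1d.{u} := by
  intro j
  obtain ⟨K0, hK0, hT1⟩ := h1 j
  set K : ℝ := max K0 1 with hK
  have hK1 : 1 ≤ K := le_max_right _ _
  have hKK : K0 ≤ K := le_max_left _ _
  refine ⟨2 + K, by linarith, ?_⟩
  intro A _ _ _ T N f Y hf hfm
  set r : ℝ := pj j / 2 with hr
  have hr0 : 0 < r := (pj_bounds j).1
  have hr1 : r ≤ 1 := (pj_bounds j).2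
  set G : A := ∑ n ∈ range N, f n * (star (Y n) * Y n) * f n with hG
  set B : A := ∑ n ∈ range N, star (Y n) * Y n with hB
  have hfs : ∀ n, star (f n) = f n := fun n => (hf n).isSelfAdjoint
  have hff : ∀ n, f n * f n = f n := fun n => (hf n).isIdempotentElem
  have hB0 : 0 ≤ B := Finset.sum_nonneg fun n _ => star_mul_self_nonneg _
  have hG0 : 0 ≤ G := Finset.sum_nonneg fun n _ => by
    have h := star_mul_self_nonneg (Y n * f n)
    rw [star_mul, hfs] at h
    have e : f n * star (Y n) * (Y n * f n) = f n * (star (Y n) * Y n) * f n := by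
      simp only [mul_assoc]
    rwa [e] at h
  have hBs : IsSelfAdjoint B := IsSelfAdjoint.of_nonneg hB0
  have hGs : IsSelfAdjoint G := IsSelfAdjoint.of_nonneg hG0
  have hT10 : 0 ≤ T.t 1 := T.nonneg 1 zero_le_one
  -- the main inequality
  have main : ∀ η : ℝ, 0 < η → T.pw r G ≤ (2 + K) * T.pw r B + (4 + K) * η ^ r * T.t 1 := by
    intro η hη
    set h : A := cfc (pf η (r - 1)) G with hh
    have hhs : star h = h := cfc_predicate (pf η (r - 1)) G
    -- T.t (h G)
    have hcG : ∀ e, ContinuousOn (pf η e) (spectrum ℝ G) := fun e =>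
      (pf_contOn hη e).mono (spec_sub hG0)
    have hcB : ∀ e, ContinuousOn (pf η e) (spectrum ℝ B) := fun e =>
      (pf_contOn hη e).mono (spec_sub hB0)
    have e1 : h * G = cfc (fun s => pf η (r - 1) s * s) G := by
      have := cfc_mul (pf η (r - 1)) (fun s => s) G (hcG _) continuousOn_id
      rw [this, cfc_id' ℝ G hGs]
    have s1 : T.t (cfc (pf η r) G) ≤ T.t (h * G) + η ^ r * T.t 1 := by
      rw [e1, ← t_cfc_add_const T hG0 (fun s => pf η (r - 1) s * s)
        ((pf_contOn hη _).mul continuousOn_id)]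
      refine t_cfc_le T hG0 _ _ (pf_contOn hη _)
        (((pf_contOn hη _).mul continuousOn_id).add continuousOn_const) fun s hs => ?_
      have hse : 0 < s + η := by positivity
      have k1 : pf η r s = pf η (r - 1) s * (s + η) := by
        have : s + η = pf η 1 s := by
          unfold pf
          rw [Real.rpow_one]
        rw [this, pf_mul hη _ _ hs]
        congr 1
        ring
      have k2 : pf η (r - 1) s * η ≤ η ^ r := by
        have k3 : pf η (r - 1) s ≤ η ^ (r - 1) := by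
          unfold pf
          exact Real.rpow_le_rpow_of_nonpos hη (by linarith) (by linarith)
        have k4 : η ^ r = η ^ (r - 1) * η := by
          have := Real.rpow_add hη (r - 1) 1
          rw [Real.rpow_one] at this
          rw [← this]
          congr 1
          ring
        rw [k4]
        exact mul_le_mul_of_nonneg_right k3 hη.le
      rw [k1]
      linarith
    -- the columns
    have s2 : T.t (h * G) = ∑ n ∈ range N, T.t (star (Y n * f n * h * f n) * Y n) := by
      rw [hG, Finset.mul_sum, map_sum]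
      refine Finset.sum_congr rfl fun n _ => ?_
      have a1 : star (Y n * f n * h * f n) * Y n = f n * (h * f n * (star (Y n) * Y n)) := by
        simp only [star_mul, hfs, hhs, mul_assoc]
      rw [a1, T.comm (f n)]
      simp only [mul_assoc]
    -- the weights
    set κ : ℝ := 1 / K with hκ
    have hκ0 : 0 < κ := by positivity
    set u : A := cfc (fun s => Real.sqrt κ * pf η ((1 - r) / 2) s) B with hu
    set u' : A := cfc (fun s => (Real.sqrt κ)⁻¹ * pf η (-((1 - r) / 2)) s) B with hu'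
    have hsq : 0 < Real.sqrt κ := Real.sqrt_pos.2 hκ0
    have cu : ContinuousOn (fun s => Real.sqrt κ * pf η ((1 - r) / 2) s) (spectrum ℝ B) :=
      continuousOn_const.mul (hcB _)
    have cu' : ContinuousOn (fun s => (Real.sqrt κ)⁻¹ * pf η (-((1 - r) / 2)) s)
        (spectrum ℝ B) := continuousOn_const.mul (hcB _)
    have huu : u' * u = 1 := by
      rw [hu, hu', ← cfc_mul _ _ B cu' cu, ← cfc_one ℝ B hBs]
      refine cfc_congr fun s hs => ?_
      have hs0 : 0 ≤ s := spec_sub hB0 hs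
      have k1 := pf_mul hη (-((1 - r) / 2)) ((1 - r) / 2) hs0
      rw [neg_add_cancel] at k1
      have k2 : pf η 0 s = 1 := by
        unfold pf
        rw [Real.rpow_zero]
      rw [k2] at k1
      have k3 : (Real.sqrt κ)⁻¹ * Real.sqrt κ = 1 := inv_mul_cancel₀ hsq.ne'
      calc (Real.sqrt κ)⁻¹ * pf η (-((1 - r) / 2)) s * (Real.sqrt κ * pf η ((1 - r) / 2) s)
          = ((Real.sqrt κ)⁻¹ * Real.sqrt κ) * (pf η (-((1 - r) / 2)) s * pf η ((1 - r) / 2) s) := by
            ring
        _ = 1 := by rw [k1, k3, one_mul]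
    have hu2 : u * u = cfc (fun s => κ * pf η (1 - r) s) B := by
      rw [hu, ← cfc_mul _ _ B cu cu]
      refine cfc_congr fun s hs => ?_
      have hs0 : 0 ≤ s := spec_sub hB0 hs
      have k1 := pf_mul hη ((1 - r) / 2) ((1 - r) / 2) hs0
      have k3 : Real.sqrt κ * Real.sqrt κ = κ := Real.mul_self_sqrt hκ0.le
      have k4 : (1 - r) / 2 + (1 - r) / 2 = 1 - r := by ring
      rw [k4] at k1
      calc Real.sqrt κ * pf η ((1 - r) / 2) s * (Real.sqrt κ * pf η ((1 - r) / 2) s)
          = (Real.sqrt κ * Real.sqrt κ) * (pf η ((1 - r) / 2) s * pf η ((1 - r) / 2) s) := by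
            ring
        _ = κ * pf η (1 - r) s := by rw [k1, k3]
    have hu2' : u' * u' = cfc (fun s => κ⁻¹ * pf η (r - 1) s) B := by
      rw [hu', ← cfc_mul _ _ B cu' cu']
      refine cfc_congr fun s hs => ?_
      have hs0 : 0 ≤ s := spec_sub hB0 hs
      have k1 := pf_mul hη (-((1 - r) / 2)) (-((1 - r) / 2)) hs0
      have k3 : (Real.sqrt κ)⁻¹ * (Real.sqrt κ)⁻¹ = κ⁻¹ := by
        rw [← mul_inv, Real.mul_self_sqrt hκ0.le]
      have k4 : -((1 - r) / 2) + -((1 - r) / 2) = r - 1 := by ring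
      rw [k4] at k1
      calc (Real.sqrt κ)⁻¹ * pf η (-((1 - r) / 2)) s * ((Real.sqrt κ)⁻¹ * pf η (-((1 - r) / 2)) s)
          = ((Real.sqrt κ)⁻¹ * (Real.sqrt κ)⁻¹) *
              (pf η (-((1 - r) / 2)) s * pf η (-((1 - r) / 2)) s) := by ring
        _ = κ⁻¹ * pf η (r - 1) s := by rw [k1, k3]
    -- Cauchy-Schwarz
    set W : A := ∑ n ∈ range N, f n * (star (Y n * f n * h) * (Y n * f n * h)) * f n with hW
    have s3 : 2 * T.t (h * G) ≤ T.t (W * (u * u)) + T.t (B * (u' * u')) := by
      rw [s2, Finset.mul_sum, hW, hB, Finset.sum_mul, Finset.sum_mul, map_sum, map_sum,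
        ← Finset.sum_add_distrib]
      refine Finset.sum_le_sum fun n _ => ?_
      have k := cs_weight T (Y n * f n * h * f n) (Y n) u u'
        (cfc_predicate (fun s => Real.sqrt κ * pf η ((1 - r) / 2) s) B)
        (cfc_predicate (fun s => (Real.sqrt κ)⁻¹ * pf η (-((1 - r) / 2)) s) B) huu
      have k2 : star (Y n * f n * h * f n) * (Y n * f n * h * f n) =
          f n * (star (Y n * f n * h) * (Y n * f n * h)) * f n := by
        rw [star_mul (Y n * f n * h) (f n), hfs]
        simp only [mul_assoc]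
      rw [k2] at k
      exact k
    -- the second term
    have s4 : T.t (B * (u' * u')) ≤ K * T.t (cfc (pf η r) B) := by
      have k1 : B * (u' * u') = cfc (fun s => s * (κ⁻¹ * pf η (r - 1) s)) B := by
        have := cfc_mul (fun s => s) (fun s => κ⁻¹ * pf η (r - 1) s) B continuousOn_id
          (continuousOn_const.mul (hcB _))
        rw [this, cfc_id' ℝ B hBs, hu2']
      have k2 : K * T.t (cfc (pf η r) B) = T.t (cfc (fun s => K * pf η r s) B) := by
        rw [cfc_const_mul K (pf η r) B (hcB _), map_smul, smul_eq_mul]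
      rw [k1, k2]
      refine t_cfc_le T hB0 _ _ (continuousOn_id.mul (continuousOn_const.mul (pf_contOn hη _)))
        (continuousOn_const.mul (pf_contOn hη _)) fun s hs => ?_
      have k3 : pf η r s = (s + η) * pf η (r - 1) s := by
        have : s + η = pf η 1 s := by
          unfold pf
          rw [Real.rpow_one]
        rw [this, pf_mul hη _ _ hs]
        congr 1
        ring
      have k4 : κ⁻¹ = K := by
        rw [hκ, one_div, inv_inv]
      rw [k3, k4]
      have k5 := pf_nonneg hη (r - 1) hs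
      have k6 : 0 ≤ K * (η * pf η (r - 1) s) := by positivity
      nlinarith
    -- the first term
    have hW0 : 0 ≤ W := Finset.sum_nonneg fun n _ => by
      have hw := star_mul_self_nonneg (Y n * f n * h * f n)
      have k2 : star (Y n * f n * h * f n) * (Y n * f n * h * f n) =
          f n * (star (Y n * f n * h) * (Y n * f n * h)) * f n := by
        rw [star_mul (Y n * f n * h) (f n), hfs]
        simp only [mul_assoc]
      rwa [k2] at hw
    have hWs : IsSelfAdjoint W := IsSelfAdjoint.of_nonneg hW0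
    have s5 : T.t (W * (u * u)) ≤ κ * (T.t (W ^ (2 ^ j)) + T.t (cfc (pf η r) B)) := by
      have k1 : W * (u * u) = κ • (cfc (fun s : ℝ => s) W * cfc (pf η (1 - r)) B) := by
        rw [hu2, cfc_const_mul κ (pf η (1 - r)) B (hcB _), cfc_id' ℝ W hWs, mul_smul_comm]
      rw [k1, map_smul, smul_eq_mul]
      refine mul_le_mul_of_nonneg_left ?_ hκ0.le
      have k2 := h3 A T (fun s => s) (pf η (1 - r)) (fun s => s ^ (2 ^ j)) (pf η r) W B hW0 hB0
        continuousOn_id (pf_contOn hη _) (by fun_prop) (pf_contOn hη _) (by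
          intro s hs t ht
          refine (young_pt hη j hs ht).trans ?_
          have hm1 : (1 : ℝ) ≤ 2 ^ j := one_le_pow₀ (by norm_num)
          have : s ^ 2 ^ j / (2 : ℝ) ^ j ≤ s ^ 2 ^ j := div_le_self (by positivity) hm1
          linarith)
      have k3 : cfc (fun s : ℝ => s ^ (2 ^ j)) W = W ^ (2 ^ j) := cfc_pow_id W _ hWs
      rw [k3] at k2
      exact k2
    -- T_T1
    have s6 : T.t (W ^ (2 ^ j)) ≤ K * T.t (cfc (pf η r) G) := by
      have k1 := hT1 A T N f (fun n => Y n * f n * h) hf hfm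
      have k2 : ∑ n ∈ range N, star (Y n * f n * h) * (Y n * f n * h) = h * G * h := by
        rw [hG, Finset.mul_sum, Finset.sum_mul]
        refine Finset.sum_congr rfl fun n _ => ?_
        simp only [star_mul, hfs, hhs, mul_assoc]
      have k3 : h * G * h = cfc (fun s => pf η (r - 1) s * s * pf η (r - 1) s) G := by
        have := cfc_mul (fun s => pf η (r - 1) s * s) (pf η (r - 1)) G
          ((hcG _).mul continuousOn_id) (hcG _)
        rw [this, e1]
      have k4 : T.t ((h * G * h) ^ (2 ^ j)) ≤ T.t (cfc (pf η r) G) := by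
        rw [k3, ← cfc_pow (fun s => pf η (r - 1) s * s * pf η (r - 1) s) (2 ^ j) G
          (((hcG _).mul continuousOn_id).mul (hcG _)) hGs]
        refine t_cfc_le T hG0 _ _
          ((((pf_contOn hη _).mul continuousOn_id).mul (pf_contOn hη _)).pow _)
          (pf_contOn hη _) fun s hs => pow_pt hη j hs
      simp only [k2] at k1
      have k6 : 0 ≤ T.t (cfc (pf η r) G) :=
        T.nonneg _ (cfc_nonneg fun s hs => pf_nonneg hη _ (spec_sub hG0 hs))
      calc T.t (W ^ (2 ^ j)) ≤ K0 * T.t ((h * G * h) ^ (2 ^ j)) := k1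
        _ ≤ K0 * T.t (cfc (pf η r) G) := mul_le_mul_of_nonneg_left k4 hK0.le
        _ ≤ K * T.t (cfc (pf η r) G) := mul_le_mul_of_nonneg_right hKK k6
    -- final comparison
    have s7 : T.pw r G ≤ T.t (cfc (pf η r) G) := by
      unfold TrFun.pw
      refine t_cfc_le T hG0 _ _ (continuousOn_id.rpow_const fun _ _ => Or.inr hr0.le)
        (pf_contOn hη _) fun s hs => ?_
      unfold pf
      exact Real.rpow_le_rpow hs (by linarith) hr0.le
    have s8 : T.t (cfc (pf η r) B) ≤ T.pw r B + η ^ r * T.t 1 := by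
      unfold TrFun.pw
      have hc : ContinuousOn (fun s : ℝ => s ^ r) (Set.Ici 0) :=
        continuousOn_id.rpow_const fun _ _ => Or.inr hr0.le
      rw [← t_cfc_add_const T hB0 (fun s : ℝ => s ^ r) hc]
      refine t_cfc_le T hB0 _ _ (pf_contOn hη _) (hc.add continuousOn_const) fun s hs => ?_
      unfold pf
      exact Real.rpow_add_le_add_rpow hs hη.le hr0.le hr1
    have hG6 : 0 ≤ T.t (cfc (pf η r) G) :=
      T.nonneg _ (cfc_nonneg fun s hs => pf_nonneg hη _ (spec_sub hG0 hs))
    have hB6 : 0 ≤ T.t (cfc (pf η r) B) :=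
      T.nonneg _ (cfc_nonneg fun s hs => pf_nonneg hη _ (spec_sub hB0 hs))
    have hκK : κ * K = 1 := by
      rw [hκ]
      field_simp
    have hκ1 : κ ≤ 1 := by
      rw [hκ, div_le_one (by linarith)]
      exact hK1
    have t1 : κ * T.t (W ^ (2 ^ j)) ≤ T.t (cfc (pf η r) G) := by
      calc κ * T.t (W ^ (2 ^ j)) ≤ κ * (K * T.t (cfc (pf η r) G)) :=
            mul_le_mul_of_nonneg_left s6 hκ0.le
        _ = T.t (cfc (pf η r) G) := by rw [← mul_assoc, hκK, one_mul]
    have t2 : κ * T.t (cfc (pf η r) B) ≤ T.t (cfc (pf η r) B) := by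
      calc κ * T.t (cfc (pf η r) B) ≤ 1 * T.t (cfc (pf η r) B) :=
            mul_le_mul_of_nonneg_right hκ1 hB6
        _ = _ := one_mul _
    have t3 : T.t (cfc (pf η r) G) ≤
        2 * (η ^ r * T.t 1) + (1 + K) * T.t (cfc (pf η r) B) := by
      rw [mul_add] at s5
      linarith
    have t4 : (1 + K) * T.t (cfc (pf η r) B) ≤ (1 + K) * (T.pw r B + η ^ r * T.t 1) :=
      mul_le_mul_of_nonneg_left s8 (by linarith)
    have hpB : 0 ≤ T.pw r B := T.nonneg _ (cfc_nonneg fun s hs =>
      Real.rpow_nonneg (spec_sub hB0 hs) _)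
    have hη6 : 0 ≤ η ^ r * T.t 1 := by positivity
    nlinarith
  -- the limit
  refine le_of_forall_pos_le_add fun δ hδ => ?_
  set D : ℝ := (4 + K) * (T.t 1 + 1) with hD
  have hD0 : 0 < D := by positivity
  have hη : 0 < (δ / D) ^ (1 / r) := by positivity
  have k := main _ hη
  have k1 : ((δ / D) ^ (1 / r)) ^ r = δ / D := by
    rw [← Real.rpow_mul (by positivity), one_div, inv_mul_cancel₀ hr0.ne', Real.rpow_one]
  rw [k1] at k
  have k2 : (4 + K) * (δ / D) * T.t 1 ≤ δ := by
    have k3 : (4 + K) * (δ / D) * T.t 1 = δ * ((4 + K) * T.t 1 / D) := by ring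
    have k4 : (4 + K) * T.t 1 / D ≤ 1 := by
      rw [div_le_one hD0, hD]
      nlinarith
    rw [k3]
    calc δ * ((4 + K) * T.t 1 / D) ≤ δ * 1 := mul_le_mul_of_nonneg_left k4 hδ.le
      _ = δ := mul_one δ
  linarith

end MDB
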