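import Pool.Agent.MDB.Targets

open Finset

namespace MDB

universe u

namespace MDB_AFTER

lemma qj_ge {j : ℕ} (hj : 1 ≤ j) : 4 ≤ qj j := by
  unfold qj
  have h : (2 : ℝ) ^ (1 + 1) ≤ (2 : ℝ) ^ (j + 1) :=
    pow_le_pow_right₀ (by norm_num) (by omega)
  norm_num at h ⊢
  linarith

lemma pj_gt {j : ℕ} (hj : 1 ≤ j) : 1 < pj j := by
  have h := qj_ge hj
  unfold pj
  rw [lt_div_iff₀ (by linarith)]
  linarith

lemma pj_le {j : ℕ} (hj : 1 ≤ j) : pj j ≤ 2 := by
  have h := qj_ge hj
  unfold pj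
  rw [div_le_iff₀ (by linarith)]
  linarith

/-- the scalar inequality -/
lemma scal {p q : ℝ} (hp : 0 < p) (hpq : p ≤ q) {e : ℝ} (he : 0 < e) :
    ∃ K : ℝ, 0 < K ∧ ∀ lam s : ℝ, 0 < lam → 0 ≤ s →
      s ^ (p / 2) ≤ e * lam ^ p + K * lam ^ (p - q) * s ^ (q / 2) := by
  set δ : ℝ := e ^ (1 / p) with hδ
  have hδ0 : 0 < δ := Real.rpow_pos_of_pos he _
  have hδp : δ ^ p = e := by
    rw [hδ, ← Real.rpow_mul he.le]
    rw [one_div, inv_mul_cancel₀ hp.ne', Real.rpow_one]
  refine ⟨δ ^ (p - q), Real.rpow_pos_of_pos hδ0 _, ?_⟩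
  intro lam s hlam hs
  rcases le_total (Real.sqrt s) (δ * lam) with h | h
  · have h1 : s ^ (p / 2) = (Real.sqrt s) ^ p := by
      rw [Real.sqrt_eq_rpow, ← Real.rpow_mul hs]
      congr 1
      ring
    have h2 : (Real.sqrt s) ^ p ≤ (δ * lam) ^ p :=
      Real.rpow_le_rpow (Real.sqrt_nonneg _) h hp.le
    rw [Real.mul_rpow hδ0.le hlam.le, hδp] at h2
    have h3 : 0 ≤ δ ^ (p - q) * lam ^ (p - q) * s ^ (q / 2) := by positivity
    rw [h1]
    linarith
  · have hpos : 0 < δ * lam := mul_pos hδ0 hlam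
    have hs0 : 0 < Real.sqrt s := lt_of_lt_of_le hpos h
    have h1 : s ^ (p / 2) = (Real.sqrt s) ^ p := by
      rw [Real.sqrt_eq_rpow, ← Real.rpow_mul hs]
      congr 1
      ring
    have h1' : s ^ (q / 2) = (Real.sqrt s) ^ q := by
      rw [Real.sqrt_eq_rpow, ← Real.rpow_mul hs]
      congr 1
      ring
    have h2 : (Real.sqrt s) ^ (p - q) ≤ (δ * lam) ^ (p - q) :=
      Real.rpow_le_rpow_of_nonpos hpos h (by linarith)
    rw [Real.mul_rpow hδ0.le hlam.le] at h2
    have h3 : (Real.sqrt s) ^ p = (Real.sqrt s) ^ (p - q) * (Real.sqrt s) ^ q := by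
      rw [← Real.rpow_add hs0]
      congr 1
      ring
    have h4 : 0 ≤ e * lam ^ p := by positivity
    have h5 : (Real.sqrt s) ^ (p - q) * (Real.sqrt s) ^ q
        ≤ δ ^ (p - q) * lam ^ (p - q) * (Real.sqrt s) ^ q :=
      mul_le_mul_of_nonneg_right h2 (by positivity)
    rw [h1, h1', h3]
    linarith

variable {A : Type u} [CStarAlgebra A] [PartialOrder A] [StarOrderedRing A]

lemma t_mono (T : TrFun A) {a b : A} (h : a ≤ b) : T.t a ≤ T.t b := by
  have := T.nonneg (b - a) (sub_nonneg.mpr h)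
  rw [map_sub] at this
  linarith

lemma t_proj (T : TrFun A) {e k : A} (he : IsStarProjection e) (hk : 0 ≤ k) :
    0 ≤ T.t (e * k) := by
  have h1 : T.t (e * k) = T.t (star e * k * e) := by
    rw [T.comm (star e * k) e, ← mul_assoc, he.isSelfAdjoint.star_eq, he.isIdempotentElem.eq]
  rw [h1]
  exact T.nonneg _ (star_left_conjugate_nonneg hk e)

/-- a projection orthogonal to `g` is orthogonal to the powers of `g` -/
lemma orth {e g : A} (he : IsSelfAdjoint e) (hg : 0 ≤ g) (h : e * g = 0) {r : ℝ}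
    (hr : 1 / 2 < r) : e * cfc (fun s : ℝ => s ^ r) g = 0 := by
  have hsp : ∀ x ∈ spectrum ℝ g, 0 ≤ x := fun x hx => spectrum_nonneg_of_nonneg hg hx
  have hgs : IsSelfAdjoint g := IsSelfAdjoint.of_nonneg hg
  have hcr : ContinuousOn (fun s : ℝ => s ^ r) (spectrum ℝ g) :=
    (Real.continuous_rpow_const (by linarith)).continuousOn
  have hcr2 : ContinuousOn (fun s : ℝ => s ^ (2 * r - 1)) (spectrum ℝ g) :=
    (Real.continuous_rpow_const (by linarith)).continuousOn
  set k := cfc (fun s : ℝ => s ^ r) g with hk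
  have hks : IsSelfAdjoint k := cfc_predicate _ _
  have h2 : k * k = g * cfc (fun s : ℝ => s ^ (2 * r - 1)) g := by
    rw [hk, ← cfc_mul _ _ g hcr hcr]
    conv_rhs => rw [← cfc_id' ℝ g hgs]
    rw [cfc_id' ℝ g hgs]
    have h3 : g * cfc (fun s : ℝ => s ^ (2 * r - 1)) g
        = cfc (fun s : ℝ => s * s ^ (2 * r - 1)) g := by
      rw [cfc_mul (fun s : ℝ => s) (fun s : ℝ => s ^ (2 * r - 1)) g continuousOn_id hcr2,
        cfc_id' ℝ g hgs]
    rw [h3]
    apply cfc_congr
    intro x hx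
    have hx0 := hsp x hx
    rcases hx0.eq_or_lt with hx1 | hx1
    · subst hx1
      simp only [zero_mul]
      rw [Real.zero_rpow (by linarith)]
      simp
    · simp only
      have : x * x ^ (2 * r - 1) = x ^ (1 + (2 * r - 1)) := by
        rw [Real.rpow_add hx1, Real.rpow_one]
      rw [this, ← Real.rpow_add hx1]
      congr 1
      ring
  have h4 : star (k * e) * (k * e) = 0 := by
    rw [star_mul, hks.star_eq, he.star_eq]
    calc e * k * (k * e) = e * (k * k) * e := by simp only [mul_assoc]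
      _ = 0 := by rw [h2, ← mul_assoc, h, zero_mul, zero_mul]
  have h5 : k * e = 0 := by
    exact (CStarRing.star_mul_self_eq_zero_iff _).mp h4
  have h6 : star (k * e) = 0 := by rw [h5, star_zero]
  rw [star_mul, hks.star_eq, he.star_eq] at h6
  exact h6

lemma cfc_le_pt {g : A} (hg : 0 ≤ g) {u v : ℝ → ℝ}
    (hu : Continuous u) (hv : Continuous v)
    (h : ∀ s, 0 ≤ s → u s ≤ v s) : cfc u g ≤ cfc v g := by
  apply cfc_mono
  · intro x hx
    exact h x (spectrum_nonneg_of_nonneg hg hx)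
  · exact hu.continuousOn
  · exact hv.continuousOn

lemma g1_est (T : TrFun A) {p q c K : ℝ} (hp : 1 < p) (hq : 1 < q)
    (hscal : ∀ s : ℝ, 0 ≤ s → s ^ (p / 2) ≤ c + K * s ^ (q / 2)) {P g : A}
    (hP : IsStarProjection P) (hg : 0 ≤ g) (hPg : P * g = g) :
    T.pw (p / 2) g ≤ c * T.t P + K * T.pw (q / 2) g := by
  have hgs : IsSelfAdjoint g := IsSelfAdjoint.of_nonneg hg
  have he : IsSelfAdjoint (1 - P) := (IsSelfAdjoint.one A).sub hP.isSelfAdjoint
  have heg : (1 - P) * g = 0 := by rw [sub_mul, one_mul, hPg, sub_self]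
  have hcp : Continuous (fun s : ℝ => s ^ (p / 2)) := Real.continuous_rpow_const (by linarith)
  have hcq : Continuous (fun s : ℝ => s ^ (q / 2)) := Real.continuous_rpow_const (by linarith)
  have h1 := orth he hg heg (r := p / 2) (by linarith)
  have h2 := orth he hg heg (r := q / 2) (by linarith)
  rw [sub_mul, one_mul, sub_eq_zero] at h1 h2
  have h3 : cfc (fun s : ℝ => s ^ (p / 2)) g ≤ cfc (fun s : ℝ => c + K * s ^ (q / 2)) g :=
    cfc_le_pt hg hcp (by fun_prop) hscal
  have h4 : cfc (fun s : ℝ => c + K * s ^ (q / 2)) g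
      = c • (1 : A) + K • cfc (fun s : ℝ => s ^ (q / 2)) g := by
    rw [cfc_const_add c (fun s : ℝ => K * s ^ (q / 2)) g (by fun_prop),
      cfc_const_mul K (fun s : ℝ => s ^ (q / 2)) g (by fun_prop), Algebra.algebraMap_eq_smul_one]
  have h5 : 0 ≤ T.t (P * (cfc (fun s : ℝ => c + K * s ^ (q / 2)) g
      - cfc (fun s : ℝ => s ^ (p / 2)) g)) := t_proj T hP (sub_nonneg.mpr h3)
  rw [mul_sub, map_sub, ← h1, h4, mul_add, mul_smul_comm, mul_smul_comm, mul_one, ← h2,
    map_add, map_smul, map_smul, smul_eq_mul, smul_eq_mul] at h5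
  unfold TrFun.pw
  linarith

lemma cfc_phi1 {B : A} (hB : 0 ≤ B) {lam : ℝ} (hlam : 0 < lam) (j : ℕ) :
    (cfc (fun s : ℝ => lam / max lam (Real.sqrt s)) B * B
      * cfc (fun s : ℝ => lam / max lam (Real.sqrt s)) B) ^ (2 ^ j)
    = cfc (fun s : ℝ => (min (Real.sqrt s) lam) ^ (qj j)) B := by
  have hBs : IsSelfAdjoint B := IsSelfAdjoint.of_nonneg hB
  have hm : ∀ s : ℝ, max lam (Real.sqrt s) ≠ 0 := fun s =>
    (lt_of_lt_of_le hlam (le_max_left _ _)).ne'
  have hc : Continuous (fun s : ℝ => lam / max lam (Real.sqrt s)) := by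
    apply Continuous.div continuous_const _ hm
    fun_prop
  have h1 : cfc (fun s : ℝ => lam / max lam (Real.sqrt s)) B * B
      * cfc (fun s : ℝ => lam / max lam (Real.sqrt s)) B
      = cfc (fun s : ℝ => (lam / max lam (Real.sqrt s)) * s
        * (lam / max lam (Real.sqrt s))) B := by
    rw [cfc_mul (fun s : ℝ => (lam / max lam (Real.sqrt s)) * s)
      (fun s : ℝ => lam / max lam (Real.sqrt s)) B (hc.mul continuous_id).continuousOn
      hc.continuousOn,
      cfc_mul (fun s : ℝ => lam / max lam (Real.sqrt s)) (fun s : ℝ => s) B hc.continuousOn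
      continuousOn_id, cfc_id' ℝ B hBs]
  have hc2 : Continuous (fun s : ℝ => (lam / max lam (Real.sqrt s)) * s
        * (lam / max lam (Real.sqrt s))) := (hc.mul continuous_id).mul hc
  rw [h1, ← cfc_pow (fun s : ℝ => (lam / max lam (Real.sqrt s)) * s
        * (lam / max lam (Real.sqrt s))) (2 ^ j) B hc2.continuousOn]
  apply cfc_congr
  intro s hs
  have hs0 : 0 ≤ s := spectrum_nonneg_of_nonneg hB hs
  simp only
  have h2 : (lam / max lam (Real.sqrt s)) * s * (lam / max lam (Real.sqrt s))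
      = (min (Real.sqrt s) lam) ^ 2 := by
    rcases le_total lam (Real.sqrt s) with h | h
    · rw [max_eq_right h, min_eq_right h]
      have h0 : Real.sqrt s ≠ 0 := (lt_of_lt_of_le hlam h).ne'
      have h3 : s = Real.sqrt s * Real.sqrt s := (Real.mul_self_sqrt hs0).symm
      field_simp
      nlinarith [Real.mul_self_sqrt hs0]
    · rw [max_eq_left h, min_eq_left h, div_self hlam.ne', one_mul, mul_one, Real.sq_sqrt hs0]
  rw [h2, ← pow_mul]
  unfold qj
  have h4 : ((2 : ℝ) ^ (j + 1)) = ((2 * 2 ^ j : ℕ) : ℝ) := by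
    push_cast
    ring
  rw [h4, Real.rpow_natCast]

lemma cfc_phi2 {B : A} (hB : 0 ≤ B) {lam : ℝ} (hlam : 0 < lam) {p : ℝ} (hp : 0 < p) :
    cfc (fun s : ℝ => s ^ (p / 2)) (cfc (fun s : ℝ => 1 - lam / max lam (Real.sqrt s)) B * B
      * cfc (fun s : ℝ => 1 - lam / max lam (Real.sqrt s)) B)
    = cfc (fun s : ℝ => (max (Real.sqrt s - lam) 0) ^ p) B := by
  have hBs : IsSelfAdjoint B := IsSelfAdjoint.of_nonneg hB
  have hm : ∀ s : ℝ, max lam (Real.sqrt s) ≠ 0 := fun s =>
    (lt_of_lt_of_le hlam (le_max_left _ _)).ne'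
  have hc : Continuous (fun s : ℝ => 1 - lam / max lam (Real.sqrt s)) := by
    apply Continuous.sub continuous_const
    apply Continuous.div continuous_const _ hm
    fun_prop
  have h1 : cfc (fun s : ℝ => 1 - lam / max lam (Real.sqrt s)) B * B
      * cfc (fun s : ℝ => 1 - lam / max lam (Real.sqrt s)) B
      = cfc (fun s : ℝ => (1 - lam / max lam (Real.sqrt s)) * s
        * (1 - lam / max lam (Real.sqrt s))) B := by
    rw [cfc_mul (fun s : ℝ => (1 - lam / max lam (Real.sqrt s)) * s)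
      (fun s : ℝ => 1 - lam / max lam (Real.sqrt s)) B (hc.mul continuous_id).continuousOn
      hc.continuousOn,
      cfc_mul (fun s : ℝ => 1 - lam / max lam (Real.sqrt s)) (fun s : ℝ => s) B hc.continuousOn
      continuousOn_id, cfc_id' ℝ B hBs]
  have hc2 : Continuous (fun s : ℝ => (1 - lam / max lam (Real.sqrt s)) * s
        * (1 - lam / max lam (Real.sqrt s))) := (hc.mul continuous_id).mul hc
  rw [h1, ← cfc_comp' (fun s : ℝ => s ^ (p / 2)) (fun s : ℝ =>
      (1 - lam / max lam (Real.sqrt s)) * s * (1 - lam / max lam (Real.sqrt s))) B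
      (Real.continuous_rpow_const (by linarith)).continuousOn hc2.continuousOn hBs]
  apply cfc_congr
  intro s hs
  have hs0 : 0 ≤ s := spectrum_nonneg_of_nonneg hB hs
  simp only
  have h2 : (1 - lam / max lam (Real.sqrt s)) * s * (1 - lam / max lam (Real.sqrt s))
      = (max (Real.sqrt s - lam) 0) ^ (2 : ℝ) := by
    rw [Real.rpow_two]
    rcases le_total lam (Real.sqrt s) with h | h
    · rw [max_eq_right h, max_eq_left (by linarith)]
      have h0 : Real.sqrt s ≠ 0 := (lt_of_lt_of_le hlam h).ne'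
      have h3 : 1 - lam / Real.sqrt s = (Real.sqrt s - lam) / Real.sqrt s := by
        field_simp
      rw [h3]
      have h5 : (Real.sqrt s - lam) / Real.sqrt s * s * ((Real.sqrt s - lam) / Real.sqrt s)
          = (Real.sqrt s - lam) ^ 2 * (s / (Real.sqrt s * Real.sqrt s)) := by
        field_simp
      rw [h5, Real.mul_self_sqrt hs0, div_self, mul_one]
      intro h6
      rw [h6, Real.sqrt_zero] at h0
      exact h0 rfl
    · rw [max_eq_left h, max_eq_right (by linarith), div_self hlam.ne', sub_self]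
      simp
  rw [h2, ← Real.rpow_mul (le_max_right _ _)]
  congr 1
  ring

/-- splitting at the level `lam` -/
lemma split {f c1 c2 b : A} (hf : IsStarProjection f) (hc1 : IsSelfAdjoint c1)
    (hc2 : IsSelfAdjoint c2) (h : c1 + c2 = 1) (hb : 0 ≤ b) :
    f * b * f ≤ (f * (c1 * b * c1) * f + f * (c2 * b * c2) * f)
      + (f * (c1 * b * c1) * f + f * (c2 * b * c2) * f) := by
  have h1 : 0 ≤ star ((c1 - c2) * f) * b * ((c1 - c2) * f) := star_left_conjugate_nonneg hb _
  rw [star_mul, star_sub, hc1.star_eq, hc2.star_eq, hf.isSelfAdjoint.star_eq] at h1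
  have h2 : f * b * f = f * ((c1 + c2) * b * (c1 + c2)) * f := by
    rw [h, one_mul, mul_one]
  rw [← sub_nonneg, h2]
  refine le_of_le_of_eq h1 ?_
  noncomm_ring

lemma t_pow_eq (T : TrFun A) {g : A} (hg : 0 ≤ g) (j : ℕ) :
    T.pw (qj j / 2) g = T.t (g ^ (2 ^ j)) := by
  unfold TrFun.pw
  congr 1
  rw [← cfc_pow_id (R := ℝ) g (2 ^ j) (IsSelfAdjoint.of_nonneg hg)]
  congr 1
  funext s
  unfold qj
  have h4 : ((2 : ℝ) ^ (j + 1)) / 2 = ((2 ^ j : ℕ) : ℝ) := by
    push_cast
    ring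
  rw [h4, Real.rpow_natCast]

end MDB_AFTER

open MDB_AFTER in
theorem p_after (h1 : T_I1.{u}) (h2 : T_T1.{u}) (h3 : T_T1d.{u}) (h4 : T_nrm.{u})
    (h5 : T_mono.{u}) (h6 : T_qs.{u}) : T_after.{u} := by
  intro j hj ε hε
  have hq4 := qj_ge hj
  have hp1 := pj_gt hj
  have hp2 := pj_le hj
  obtain ⟨K0, hK0, hN⟩ := h4 (pj j) (by linarith)
  obtain ⟨Kq, hKq, hqs⟩ := h6 (pj j / 2) (by linarith)
  obtain ⟨K1, hK1, hT1⟩ := h2 j
  obtain ⟨K2, hK2, hT1d⟩ := h3 j
  have hD : 0 < 6 * K0 * Kq ^ 2 := by positivity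
  obtain ⟨K3, hK3, hsc⟩ := scal (p := pj j) (q := qj j) (by linarith) (by linarith)
    (e := ε / (6 * K0 * Kq ^ 2)) (by positivity)
  refine ⟨6 * K0 * Kq ^ 2 * (K3 * K1 + K2), by positivity, ?_⟩
  intro A _ _ _ T F N f z lam hlam hf hfm hfE hzE hz0
  obtain ⟨hadd, hnn, hst, hng, hl, hr, hsa⟩ := hN A T
  -- basic facts
  have hfs : ∀ n, star (f n) = f n := fun n => (hf n).isSelfAdjoint.star_eq
  have hff : ∀ n, f n * f n = f n := fun n => (hf n).isIdempotentElem.eq
  have hgE : ∀ n, F.E (n + 1) (f n) = f n := by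
    intro n
    have := F.E_tower' n (n + 1) (f n) (by omega)
    rw [hfE] at this
    exact this
  have h1E : ∀ n, F.E n (1 - f n) = 1 - f n := by
    intro n
    rw [map_sub, F.E_one, hfE]
  have h1E' : ∀ n, F.E (n + 1) (1 - f n) = 1 - f n := by
    intro n
    rw [map_sub, F.E_one, hgE]
  set b : ℕ → A := fun n => F.E n (star (z n) * z n) with hb
  have hbn : ∀ n, 0 ≤ b n := fun n => F.E_nonneg n _ (star_mul_self_nonneg _)
  set B : A := ∑ n ∈ range N, b n with hB
  have hBn : 0 ≤ B := Finset.sum_nonneg fun n _ => hbn n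
  set G : A := ∑ n ∈ range N, f n * b n * f n with hG
  -- first martingale
  have hS1 : T.nrm (pj j) (∑ n ∈ range N, z n * f n) ≤ 3 / 2 * T.pw (pj j / 2) G := by
    have h := h1 (pj j) hp1 hp2 A T F N (fun n => z n * f n)
      (fun n hn => by
        rw [F.E_mul_right (n + 1) (z n) (f n) (hgE n), hzE n hn])
      (fun n hn => by
        rw [F.E_mul_right n (z n) (f n) (hfE n), hz0 n hn, zero_mul])
    have h7 : ∑ n ∈ range N, F.E n (star (z n * f n) * (z n * f n)) = G := by
      apply Finset.sum_congr rfl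
      intro n _
      rw [star_mul, hfs]
      have h8 : f n * star (z n) * (z n * f n) = f n * (star (z n) * z n) * f n := by
        simp only [mul_assoc]
      rw [h8, F.E_mul_right n _ (f n) (hfE n), F.E_mul_left n (f n) _ (hfE n)]
    rw [h7] at h
    exact h
  have hS2 : T.nrm (pj j) (∑ n ∈ range N, (1 - f n) * z n * f n)
      ≤ 3 / 2 * T.pw (pj j / 2) G := by
    have h := h1 (pj j) hp1 hp2 A T F N (fun n => (1 - f n) * z n * f n)
      (fun n hn => by
        rw [F.E_mul_right (n + 1) _ (f n) (hgE n), F.E_mul_left (n + 1) _ _ (h1E' n), hzE n hn])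
      (fun n hn => by
        rw [F.E_mul_right n _ (f n) (hfE n), F.E_mul_left n _ _ (h1E n), hz0 n hn,
          mul_zero, zero_mul])
    have hn1 : ∀ n, 0 ≤ F.E n (star ((1 - f n) * z n * f n) * ((1 - f n) * z n * f n)) :=
      fun n => F.E_nonneg n _ (star_mul_self_nonneg _)
    have hn2 : ∀ n, F.E n (star ((1 - f n) * z n * f n) * ((1 - f n) * z n * f n))
        ≤ f n * b n * f n := by
      intro n
      have hp : IsStarProjection (1 - f n) := (hf n).one_sub
      have h8 : star ((1 - f n) * z n * f n) * ((1 - f n) * z n * f n)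
          = f n * (star (z n) * (1 - f n) * z n) * f n := by
        rw [star_mul, star_mul, hfs, hp.isSelfAdjoint.star_eq]
        have h9 := hp.isIdempotentElem.eq
        calc f n * (star (z n) * (1 - f n)) * ((1 - f n) * z n * f n)
            = f n * (star (z n) * ((1 - f n) * (1 - f n)) * z n) * f n := by
              simp only [mul_assoc]
          _ = f n * (star (z n) * (1 - f n) * z n) * f n := by rw [h9]
      rw [h8, F.E_mul_right n _ (f n) (hfE n), F.E_mul_left n (f n) _ (hfE n)]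
      have h10 : 0 ≤ b n - F.E n (star (z n) * (1 - f n) * z n) := by
        rw [hb]
        simp only
        rw [← map_sub]
        apply F.E_nonneg
        have h11 : star (z n) * z n - star (z n) * (1 - f n) * z n
            = star (z n) * f n * z n := by noncomm_ring
        rw [h11]
        exact star_left_conjugate_nonneg (hf n).nonneg _
      have h12 := star_left_conjugate_nonneg h10 (f n)
      rw [hfs] at h12
      rw [← sub_nonneg]
      refine le_of_le_of_eq h12 ?_
      noncomm_ring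
    have h13 := h5 A T (pj j / 2) _ G (by linarith)
      (Finset.sum_nonneg fun n (_ : n ∈ range N) => hn1 n)
      (Finset.sum_le_sum fun n _ => hn2 n)
    linarith
  have hS1' : T.nrm (pj j) (∑ n ∈ range N, f n * star (z n)) ≤ 3 / 2 * T.pw (pj j / 2) G := by
    have h7 : star (∑ n ∈ range N, z n * f n) = ∑ n ∈ range N, f n * star (z n) := by
      rw [star_sum]
      apply Finset.sum_congr rfl
      intro n _
      rw [star_mul, hfs]
    rw [← h7, hst]
    exact hS1
  have hfirst : T.nrm (pj j) (∑ n ∈ range N, (f n * star (z n) + (1 - f n) * z n * f n))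
      ≤ 3 * K0 * T.pw (pj j / 2) G := by
    rw [Finset.sum_add_distrib]
    have h7 := hadd (∑ n ∈ range N, f n * star (z n)) (∑ n ∈ range N, (1 - f n) * z n * f n)
    have h8 : K0 * (T.nrm (pj j) (∑ n ∈ range N, f n * star (z n))
        + T.nrm (pj j) (∑ n ∈ range N, (1 - f n) * z n * f n))
        ≤ K0 * (3 / 2 * T.pw (pj j / 2) G + 3 / 2 * T.pw (pj j / 2) G) :=
      mul_le_mul_of_nonneg_left (add_le_add hS1' hS2) hK0.le
    linarith
  -- splitting
  set c1 : A := cfc (fun s : ℝ => lam / max lam (Real.sqrt s)) B with hc1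
  set c2 : A := cfc (fun s : ℝ => 1 - lam / max lam (Real.sqrt s)) B with hc2
  have hBs : IsSelfAdjoint B := IsSelfAdjoint.of_nonneg hBn
  have hm : ∀ s : ℝ, max lam (Real.sqrt s) ≠ 0 := fun s =>
    (lt_of_lt_of_le hlam (le_max_left _ _)).ne'
  have hcc : Continuous (fun s : ℝ => lam / max lam (Real.sqrt s)) := by
    apply Continuous.div continuous_const _ hm
    fun_prop
  have hc1s : IsSelfAdjoint c1 := cfc_predicate _ _
  have hc2s : IsSelfAdjoint c2 := cfc_predicate _ _
  have hc12 : c1 + c2 = 1 := by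
    rw [hc1, hc2, ← cfc_add B (fun s : ℝ => lam / max lam (Real.sqrt s))
      (fun s : ℝ => 1 - lam / max lam (Real.sqrt s)) hcc.continuousOn
      (continuous_const.sub hcc).continuousOn]
    rw [← cfc_const_one ℝ B hBs]
    apply cfc_congr
    intro s _
    simp
  set G1 : A := ∑ n ∈ range N, f n * (c1 * b n * c1) * f n with hG1
  set G2 : A := ∑ n ∈ range N, f n * (c2 * b n * c2) * f n with hG2
  have hcb : ∀ c : A, IsSelfAdjoint c → ∀ n, 0 ≤ f n * (c * b n * c) * f n := by
    intro c hc n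
    have h7 := star_left_conjugate_nonneg (hbn n) c
    have h8 := star_left_conjugate_nonneg h7 (f n)
    rw [hfs, hc.star_eq] at h8
    exact h8
  have hG1n : 0 ≤ G1 := Finset.sum_nonneg fun n _ => hcb c1 hc1s n
  have hG2n : 0 ≤ G2 := Finset.sum_nonneg fun n _ => hcb c2 hc2s n
  have hGn : 0 ≤ G := by
    apply Finset.sum_nonneg
    intro n _
    have h7 := star_left_conjugate_nonneg (hbn n) (f n)
    rw [hfs] at h7
    exact h7
  have hGle : G ≤ (G1 + G2) + (G1 + G2) := by
    rw [hG, hG1, hG2, ← Finset.sum_add_distrib, ← Finset.sum_add_distrib]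
    apply Finset.sum_le_sum
    intro n _
    exact split (hf n) hc1s hc2s hc12 (hbn n)
  have hsecond : T.pw (pj j / 2) G ≤ 2 * Kq ^ 2 * (T.pw (pj j / 2) G1 + T.pw (pj j / 2) G2) := by
    have h7 := h5 A T (pj j / 2) G _ (by linarith) hGn hGle
    have h8 := hqs A T (G1 + G2) (G1 + G2) (add_nonneg hG1n hG2n) (add_nonneg hG1n hG2n)
    have h9 := hqs A T G1 G2 hG1n hG2n
    have h10 : Kq * (T.pw (pj j / 2) (G1 + G2) + T.pw (pj j / 2) (G1 + G2))
        ≤ Kq * (Kq * (T.pw (pj j / 2) G1 + T.pw (pj j / 2) G2)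
          + Kq * (T.pw (pj j / 2) G1 + T.pw (pj j / 2) G2)) :=
      mul_le_mul_of_nonneg_left (add_le_add h9 h9) hKq.le
    nlinarith
  -- square roots
  have hY : ∀ n, ∃ y : A, star y * y = b n := by
    intro n
    refine ⟨CFC.sqrt (b n), ?_⟩
    rw [(CFC.sqrt_nonneg (b n)).isSelfAdjoint.star_eq, CFC.sqrt_mul_sqrt_self (b n) (hbn n)]
  choose Y hY using hY
  have hYc : ∀ c : A, IsSelfAdjoint c → ∀ n, star (Y n * c) * (Y n * c) = c * b n * c := by
    intro c hc n
    rw [star_mul, hc.star_eq, ← hY n]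
    simp only [mul_assoc]
  have hYs : ∀ c : A, IsSelfAdjoint c →
      ∑ n ∈ range N, star (Y n * c) * (Y n * c) = c * B * c := by
    intro c hc
    rw [hB, Finset.mul_sum, Finset.sum_mul]
    apply Finset.sum_congr rfl
    intro n _
    exact hYc c hc n
  have hG2e : T.pw (pj j / 2) G2
      ≤ K2 * T.t (cfc (fun s : ℝ => (max (Real.sqrt s - lam) 0) ^ (pj j)) B) := by
    have h7 := hT1d A T N f (fun n => Y n * c2) hf hfm
    rw [hYs c2 hc2s] at h7
    have h8 : ∑ n ∈ range N, f n * (star (Y n * c2) * (Y n * c2)) * f n = G2 := by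
      apply Finset.sum_congr rfl
      intro n _
      rw [hYc c2 hc2s n]
    rw [h8] at h7
    unfold TrFun.pw at h7 ⊢
    rw [hc2, cfc_phi2 hBn hlam (by linarith)] at h7
    exact h7
  have hG1t : T.pw (qj j / 2) G1
      ≤ K1 * T.t (cfc (fun s : ℝ => (min (Real.sqrt s) lam) ^ (qj j)) B) := by
    have h7 := hT1 A T N f (fun n => Y n * c1) hf hfm
    rw [hYs c1 hc1s] at h7
    have h8 : ∑ n ∈ range N, f n * (star (Y n * c1) * (Y n * c1)) * f n = G1 := by
      apply Finset.sum_congr rfl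
      intro n _
      rw [hYc c1 hc1s n]
    rw [h8, hc1, cfc_phi1 hBn hlam j] at h7
    rw [t_pow_eq T hG1n j]
    exact h7
  have hfG : f N * G1 = G1 := by
    rw [hG1, Finset.mul_sum]
    apply Finset.sum_congr rfl
    intro n hn
    have h7 : f N * f n = f n := hfm n N (Finset.mem_range.mp hn).le
    rw [← mul_assoc, ← mul_assoc, h7]
  have hG1e := g1_est T (p := pj j) (q := qj j)
    (c := ε / (6 * K0 * Kq ^ 2) * lam ^ (pj j)) (K := K3 * lam ^ (pj j - qj j)) hp1 (by linarith)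
    (fun s hs => hsc lam s hlam hs) (hf N) hG1n hfG
  -- conclusion
  have hlp : 0 < lam ^ (pj j - qj j) := Real.rpow_pos_of_pos hlam _
  set X := T.t (cfc (fun s : ℝ => (min (Real.sqrt s) lam) ^ (qj j)) B) with hX
  set W := T.t (cfc (fun s : ℝ => (max (Real.sqrt s - lam) 0) ^ (pj j)) B) with hW
  have hXn : 0 ≤ X := by
    apply T.nonneg
    apply cfc_nonneg
    intro s _
    exact Real.rpow_nonneg (le_min (Real.sqrt_nonneg _) hlam.le) _
  have hWn : 0 ≤ W := by
    apply T.nonneg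
    apply cfc_nonneg
    intro s _
    exact Real.rpow_nonneg (le_max_right _ _) _
  have hstep : K3 * lam ^ (pj j - qj j) * T.pw (qj j / 2) G1
      ≤ K3 * lam ^ (pj j - qj j) * (K1 * X) :=
    mul_le_mul_of_nonneg_left hG1t (by positivity)
  have hfin : T.pw (pj j / 2) G1 + T.pw (pj j / 2) G2
      ≤ ε / (6 * K0 * Kq ^ 2) * lam ^ (pj j) * T.t (f N)
        + K3 * lam ^ (pj j - qj j) * (K1 * X) + K2 * W := by linarith
  have hfin2 : 3 * K0 * T.pw (pj j / 2) G ≤ 3 * K0 * (2 * Kq ^ 2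
      * (ε / (6 * K0 * Kq ^ 2) * lam ^ (pj j) * T.t (f N)
        + K3 * lam ^ (pj j - qj j) * (K1 * X) + K2 * W)) := by
    apply mul_le_mul_of_nonneg_left _ (by positivity)
    exact hsecond.trans (mul_le_mul_of_nonneg_left hfin (by positivity))
  have hcancel : 6 * K0 * Kq ^ 2 * (ε / (6 * K0 * Kq ^ 2)) = ε := by
    field_simp
  have hexp : 3 * K0 * (2 * Kq ^ 2
      * (ε / (6 * K0 * Kq ^ 2) * lam ^ (pj j) * T.t (f N)
        + K3 * lam ^ (pj j - qj j) * (K1 * X) + K2 * W))
      = (6 * K0 * Kq ^ 2 * (ε / (6 * K0 * Kq ^ 2))) * lam ^ (pj j) * T.t (f N)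
        + 6 * K0 * Kq ^ 2 * (K3 * K1 * (lam ^ (pj j - qj j) * X) + K2 * W) := by ring
  rw [hcancel] at hexp
  have hlast : 6 * K0 * Kq ^ 2 * (K3 * K1 * (lam ^ (pj j - qj j) * X) + K2 * W)
      ≤ 6 * K0 * Kq ^ 2 * (K3 * K1 + K2) * (lam ^ (pj j - qj j) * X + W) := by
    have h7 : 0 ≤ lam ^ (pj j - qj j) * X := by positivity
    have h8 : K3 * K1 * (lam ^ (pj j - qj j) * X) + K2 * W
        ≤ (K3 * K1 + K2) * (lam ^ (pj j - qj j) * X + W) := by
      have h9 : 0 ≤ K3 * K1 * W := by positivity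
      have h10 : 0 ≤ K2 * (lam ^ (pj j - qj j) * X) := by positivity
      linarith
    calc 6 * K0 * Kq ^ 2 * (K3 * K1 * (lam ^ (pj j - qj j) * X) + K2 * W)
        ≤ 6 * K0 * Kq ^ 2 * ((K3 * K1 + K2) * (lam ^ (pj j - qj j) * X + W)) :=
          mul_le_mul_of_nonneg_left h8 hD.le
      _ = _ := by ring
  linarith

end MDB
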