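import Pool.Agent.MDB.Targets

/-!
# The core inequality from the estimate at one level
-/

open Finset

namespace MDB

universe u

namespace MDB_CORE

variable {A : Type u} [CStarAlgebra A] [PartialOrder A] [StarOrderedRing A]

lemma t_sum (T : TrFun A) (x : A) {ι : Type} (s : Finset ι) (c : ι → ℝ) (f : ι → ℝ → ℝ)
    (hf : ∀ i ∈ s, ContinuousOn (f i) (spectrum ℝ x)) :
    ∑ i ∈ s, c i * T.t (cfc (f i) x) = T.t (cfc (fun y => ∑ i ∈ s, c i * f i y) x) := by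
  have h1 : (fun y => ∑ i ∈ s, c i * f i y) = ∑ i ∈ s, fun y => c i * f i y := by
    ext y; simp
  rw [h1, cfc_sum (fun i y => c i * f i y) x s
    (fun i hi => ContinuousOn.mul continuousOn_const (hf i hi)), map_sum]
  refine Finset.sum_congr rfl fun i hi => ?_
  rw [cfc_const_mul (c i) (f i) x (hf i hi), map_smul, smul_eq_mul]

lemma t_mono (T : TrFun A) (x : A) (f g : ℝ → ℝ)
    (hf : ContinuousOn f (spectrum ℝ x)) (hg : ContinuousOn g (spectrum ℝ x))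
    (h : ∀ s ∈ spectrum ℝ x, f s ≤ g s) : T.t (cfc f x) ≤ T.t (cfc g x) := by
  have h1 : cfc f x ≤ cfc g x := cfc_mono h hf hg
  have h2 := T.nonneg _ (sub_nonneg.mpr h1)
  rw [map_sub] at h2
  linarith

lemma t_affine (T : TrFun A) (x : A) (hx : IsSelfAdjoint x) (f : ℝ → ℝ) (c e : ℝ)
    (hf : ContinuousOn f (spectrum ℝ x)) :
    T.t (cfc (fun s => c * f s + e) x) = c * T.t (cfc f x) + e * T.t 1 := by
  rw [cfc_add_const e (fun s => c * f s) x (ContinuousOn.mul continuousOn_const hf) hx,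
    cfc_const_mul c f x hf, map_add, map_smul, smul_eq_mul, Algebra.algebraMap_eq_smul_one,
    map_smul, smul_eq_mul]

lemma exists_j (p1 q1 : ℝ) (hp1 : 1 < p1) : ∃ j : ℕ, 1 ≤ j ∧ q1 < qj j ∧ 0 < qj j ∧
    1 < pj j ∧ pj j ≤ 2 ∧ pj j < p1 := by
  obtain ⟨n, hn⟩ := pow_unbounded_of_one_lt (max q1 (1 + 1 / (p1 - 1))) (one_lt_two)
  have h1 : q1 < (2 : ℝ) ^ n := lt_of_le_of_lt (le_max_left _ _) hn
  have h2 : 1 + 1 / (p1 - 1) < (2 : ℝ) ^ n := lt_of_le_of_lt (le_max_right _ _) hn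
  have h3 : (2 : ℝ) ^ n ≤ 2 ^ (n + 1 + 1) := by
    apply pow_le_pow_right₀ (by norm_num)
    omega
  have h4 : (2 : ℝ) ^ 2 ≤ 2 ^ (n + 1 + 1) := by
    apply pow_le_pow_right₀ (by norm_num)
    omega
  have hq : qj (n + 1) = 2 ^ (n + 1 + 1) := rfl
  have hq4 : 4 ≤ qj (n + 1) := by rw [hq]; linarith
  have hqp : 0 < qj (n + 1) - 1 := by linarith
  have hpp : 0 < p1 - 1 := by linarith
  refine ⟨n + 1, by omega, by rw [hq]; linarith, by linarith, ?_, ?_, ?_⟩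
  · unfold pj
    rw [lt_div_iff₀ hqp]
    linarith
  · unfold pj
    rw [div_le_iff₀ hqp]
    linarith
  · unfold pj
    rw [div_lt_iff₀ hqp]
    have h5 : 1 / (p1 - 1) < qj (n + 1) - 1 := by rw [hq]; linarith
    rw [div_lt_iff₀ hpp] at h5
    nlinarith

lemma cont1 (c p : ℝ) (hp : 0 ≤ p) : Continuous fun s : ℝ => (max (s - c) 0) ^ p :=
  Continuous.rpow_const (by fun_prop) fun _ => Or.inr hp

lemma cont2 (c q : ℝ) (hq : 0 ≤ q) : Continuous fun s : ℝ => (min s c) ^ q :=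
  Continuous.rpow_const (by fun_prop) fun _ => Or.inr hq

lemma spec_nonneg {x : A} (hx : 0 ≤ x) {s : ℝ} (hs : s ∈ spectrum ℝ x) : 0 ≤ s :=
  spectrum_nonneg_of_nonneg hx hs

lemma Phi_nonneg {Phi : ℝ → ℝ} {p1 q1 C0 : ℝ} (hG : Gr Phi p1 q1 C0) {t : ℝ} (ht : 0 ≤ t) :
    0 ≤ Phi t := by
  rcases ht.eq_or_lt with h | h
  · rw [← h, hG.zero]
  · exact (hG.pos t h).le

end MDB_CORE

open MDB_CORE in
theorem p_core (h1 : T_level.{u}) (h2 : T_scal) (h3 : T_nrm.{u}) : T_core.{u} := by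
  intro Phi p1 q1 C0 hG hp1
  obtain ⟨j, hj, hq1, hq0, hp, hp2, hpp1⟩ := exists_j p1 q1 hp1
  obtain ⟨Cs, hCs, hs1, hs2, hs3, hs4⟩ := h2 Phi p1 q1 C0 (pj j) (qj j) hG hp hpp1 hq1 hq0
  obtain ⟨K, hK, hlev⟩ := h1 j hj (1 / (2 * Cs)) (by positivity)
  have hp0 : 0 ≤ pj j := by linarith
  have hPJ : ∀ (J : ℕ) (t : ℝ), 0 ≤ PJ Phi (pj j) J t := by
    intro J t
    unfold PJ
    refine Finset.sum_nonneg fun i _ => ?_
    have := hG.pos ((2 : ℝ) ^ i) (by positivity)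
    positivity
  refine ⟨pj j, hp, hp2, hpp1, 4 * K * Cs + 1 + Cs, by positivity, ?_, ?_, ?_⟩
  · intro t ht
    obtain ⟨J0, hJ0⟩ := hs4 t ht
    refine ⟨J0, fun J hJ => (hJ0 J hJ).trans ?_⟩
    refine mul_le_mul_of_nonneg_right ?_ (hPJ J t)
    have : 0 < K * Cs := by positivity
    linarith
  · intro J t ht
    refine (hs2 J t ht).trans ?_
    refine mul_le_mul_of_nonneg_right ?_ (Phi_nonneg hG ht)
    have : 0 < K * Cs := by positivity
    linarith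
  intro J N
  obtain ⟨K', hK', hlev⟩ := hlev N
  set I : Finset ℤ := Finset.Icc (-(J : ℤ)) (J : ℤ) with hI
  set w : ℤ → ℝ := fun i => Phi ((2 : ℝ) ^ i) * ((2 : ℝ) ^ i) ^ (-(pj j)) with hw
  have hwpos : ∀ i, 0 < w i := by
    intro i
    have := hG.pos ((2 : ℝ) ^ i) (by positivity)
    simp only [hw]
    positivity
  have hIne : 0 ≤ ∑ i ∈ I, w i := Finset.sum_nonneg fun i _ => (hwpos i).le
  refine ⟨2 * (K' * ∑ i ∈ I, w i) + 1, by positivity, ?_⟩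
  intro A _ _ _ T F hF d z a A0 hd hEd hEd0 hEz hEz0 hA0 ha hEa haA haA'
  obtain ⟨Kn, hKn, hnrm⟩ := h3 (pj j) (by linarith)
  have hnn := (hnrm A T).2.1
  set x : A := ps d N with hx
  have hxs : IsSelfAdjoint x := by
    rw [hx]
    unfold ps
    rw [isSelfAdjoint_iff, star_sum]
    refine Finset.sum_congr rfl fun k hk => ?_
    rw [Finset.mem_range] at hk
    exact (hd k hk).star_eq
  set B : A := ∑ n ∈ range N, F.E n (star (z n) * z n) with hB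
  have hB0 : 0 ≤ B := by
    rw [hB]
    exact Finset.sum_nonneg fun n _ => F.E_nonneg n _ (star_mul_self_nonneg (z n))
  set Er : ℝ := ∑ n ∈ range N, (T.nrm (pj j) (d n - z n) + T.nrm (pj j) (d n - a n)) with hEr
  have hEr0 : 0 ≤ Er := Finset.sum_nonneg fun n _ => add_nonneg (hnn _) (hnn _)
  have hl : ∀ i ∈ I, w i * T.t (cfc (fun s : ℝ => (max (|s| - (2 : ℝ) ^ i) 0) ^ (pj j)) x)
      ≤ (1 / (2 * Cs)) * ((Phi ((2 : ℝ) ^ i) * ((2 : ℝ) ^ i) ^ (-1 : ℝ)) *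
          T.t (cfc (fun s : ℝ => max (|s| - (2 : ℝ) ^ i / 2) 0) x))
        + K * ((Phi ((2 : ℝ) ^ i) * ((2 : ℝ) ^ i) ^ (-(qj j))) *
            T.t (cfc (fun s : ℝ => (min s ((2 : ℝ) ^ i)) ^ (qj j)) A0)
          + w i * T.t (cfc (fun s : ℝ => (max (s - (2 : ℝ) ^ i) 0) ^ (pj j)) A0)
          + (Phi ((2 : ℝ) ^ i) * ((2 : ℝ) ^ i) ^ (-(qj j))) *
            T.t (cfc (fun s : ℝ => (min (Real.sqrt s) ((2 : ℝ) ^ i)) ^ (qj j)) B)
          + w i * T.t (cfc (fun s : ℝ => (max (Real.sqrt s - (2 : ℝ) ^ i) 0) ^ (pj j)) B))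
        + K' * (w i * Er) := by
    intro i _
    have h2i : 0 < (2 : ℝ) ^ i := by positivity
    have hle := hlev A T F hF d z a A0 ((2 : ℝ) ^ i) h2i hd hEd hEd0 hEz hEz0 hA0 ha hEa haA haA'
    have hle2 := mul_le_mul_of_nonneg_left hle (hwpos i).le
    refine hle2.trans (le_of_eq ?_)
    have e1 : w i * ((2 : ℝ) ^ i) ^ (pj j - 1) = Phi ((2 : ℝ) ^ i) * ((2 : ℝ) ^ i) ^ (-1 : ℝ) := by
      simp only [hw]
      rw [mul_assoc, ← Real.rpow_add h2i]
      congr 2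
      ring
    have e2 : w i * ((2 : ℝ) ^ i) ^ (pj j - qj j)
        = Phi ((2 : ℝ) ^ i) * ((2 : ℝ) ^ i) ^ (-(qj j)) := by
      simp only [hw]
      rw [mul_assoc, ← Real.rpow_add h2i]
      congr 2
      ring
    rw [← e1, ← e2]
    ring
  have hsum := Finset.sum_le_sum hl
  rw [Finset.sum_add_distrib, Finset.sum_add_distrib, ← Finset.mul_sum, ← Finset.mul_sum,
    ← Finset.mul_sum, Finset.sum_add_distrib, Finset.sum_add_distrib, Finset.sum_add_distrib,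
    ← Finset.sum_mul] at hsum
  rw [t_sum T x I w (fun i s => (max (|s| - (2 : ℝ) ^ i) 0) ^ (pj j))
      (fun i _ => ((cont1 _ _ hp0).comp continuous_abs).continuousOn),
    t_sum T x I (fun i => Phi ((2 : ℝ) ^ i) * ((2 : ℝ) ^ i) ^ (-1 : ℝ))
      (fun i s => max (|s| - (2 : ℝ) ^ i / 2) 0)
      (fun i _ => (by fun_prop : Continuous fun s : ℝ => max (|s| - (2 : ℝ) ^ i / 2) 0).continuousOn),
    t_sum T A0 I (fun i => Phi ((2 : ℝ) ^ i) * ((2 : ℝ) ^ i) ^ (-(qj j)))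
      (fun i s => (min s ((2 : ℝ) ^ i)) ^ (qj j))
      (fun i _ => (cont2 _ _ hq0.le).continuousOn),
    t_sum T A0 I w (fun i s => (max (s - (2 : ℝ) ^ i) 0) ^ (pj j))
      (fun i _ => (cont1 _ _ hp0).continuousOn),
    t_sum T B I (fun i => Phi ((2 : ℝ) ^ i) * ((2 : ℝ) ^ i) ^ (-(qj j)))
      (fun i s => (min (Real.sqrt s) ((2 : ℝ) ^ i)) ^ (qj j))
      (fun i _ => ((cont2 _ _ hq0.le).comp Real.continuous_sqrt).continuousOn),
    t_sum T B I w (fun i s => (max (Real.sqrt s - (2 : ℝ) ^ i) 0) ^ (pj j))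
      (fun i _ => ((cont1 _ _ hp0).comp Real.continuous_sqrt).continuousOn)] at hsum
  have hPJc : ∀ (J : ℕ), Continuous fun s : ℝ => PJ Phi (pj j) J s := by
    intro J
    unfold PJ
    exact continuous_finsetSum _ fun i _ => continuous_const.mul (cont1 _ _ hp0)
  -- the left side
  have hL : T.t (cfc (fun y => ∑ i ∈ I, w i * (max (|y| - (2 : ℝ) ^ i) 0) ^ (pj j)) x)
      = T.t (cfc (fun s : ℝ => PJ Phi (pj j) J |s|) x) := rfl
  rw [hL] at hsum
  -- the absorbed term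
  have hX : T.t (cfc (fun y => ∑ i ∈ I, Phi ((2 : ℝ) ^ i) * ((2 : ℝ) ^ i) ^ (-1 : ℝ)
        * max (|y| - (2 : ℝ) ^ i / 2) 0) x)
      ≤ Cs * T.t (cfc (fun s : ℝ => PJ Phi (pj j) J |s|) x)
        + Cs * Phi ((2 : ℝ) ^ (-(J : ℤ))) * T.t 1 := by
    rw [← t_affine T x hxs (fun s : ℝ => PJ Phi (pj j) J |s|) Cs (Cs * Phi ((2 : ℝ) ^ (-(J : ℤ))))
      ((hPJc J).comp continuous_abs).continuousOn]
    refine t_mono T x _ _ ?_ ?_ ?_
    · refine Continuous.continuousOn ?_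
      refine continuous_finsetSum _ fun i _ => continuous_const.mul ?_
      fun_prop
    · exact ((continuous_const.mul ((hPJc J).comp continuous_abs)).add
        continuous_const).continuousOn
    · intro s _
      exact hs3 J |s| (abs_nonneg s)
  have hPhiA : ContinuousOn Phi (spectrum ℝ A0) :=
    hG.cont.mono fun s hs => spec_nonneg hA0 hs
  have hPhiB : ContinuousOn (fun s => Phi (Real.sqrt s)) (spectrum ℝ B) := by
    refine hG.cont.comp Real.continuous_sqrt.continuousOn fun s _ => ?_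
    exact Real.sqrt_nonneg s
  have cm : ∀ (y : A) (f : ℝ → ℝ), ContinuousOn f (spectrum ℝ y) →
      T.t (cfc (fun s => Cs * f s) y) = Cs * T.t (cfc f y) := by
    intro y f hf
    rw [cfc_const_mul Cs f y hf, map_smul, smul_eq_mul]
  have hY1 : T.t (cfc (fun y => ∑ i ∈ I, Phi ((2 : ℝ) ^ i) * ((2 : ℝ) ^ i) ^ (-(qj j))
        * (min y ((2 : ℝ) ^ i)) ^ (qj j)) A0) ≤ Cs * T.t (cfc Phi A0) := by
    rw [← cm A0 Phi hPhiA]
    refine t_mono T A0 _ _ ?_ (ContinuousOn.mul continuousOn_const hPhiA) ?_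
    · exact (continuous_finsetSum _ fun i _ =>
        continuous_const.mul (cont2 _ _ hq0.le)).continuousOn
    · intro s hs
      exact hs1 J s (spec_nonneg hA0 hs)
  have hY2 : T.t (cfc (fun y => ∑ i ∈ I, w i * (max (y - (2 : ℝ) ^ i) 0) ^ (pj j)) A0)
      ≤ Cs * T.t (cfc Phi A0) := by
    rw [← cm A0 Phi hPhiA]
    refine t_mono T A0 _ _ ?_ (ContinuousOn.mul continuousOn_const hPhiA) ?_
    · exact (continuous_finsetSum _ fun i _ =>
        continuous_const.mul (cont1 _ _ hp0)).continuousOn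
    · intro s hs
      exact hs2 J s (spec_nonneg hA0 hs)
  have hZ1 : T.t (cfc (fun y => ∑ i ∈ I, Phi ((2 : ℝ) ^ i) * ((2 : ℝ) ^ i) ^ (-(qj j))
        * (min (Real.sqrt y) ((2 : ℝ) ^ i)) ^ (qj j)) B)
      ≤ Cs * T.t (cfc (fun s => Phi (Real.sqrt s)) B) := by
    rw [← cm B _ hPhiB]
    refine t_mono T B _ _ ?_ (ContinuousOn.mul continuousOn_const hPhiB) ?_
    · exact (continuous_finsetSum _ fun i _ =>
        continuous_const.mul ((cont2 _ _ hq0.le).comp Real.continuous_sqrt)).continuousOn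
    · intro s hs
      exact hs1 J (Real.sqrt s) (Real.sqrt_nonneg s)
  have hZ2 : T.t (cfc (fun y => ∑ i ∈ I, w i * (max (Real.sqrt y - (2 : ℝ) ^ i) 0) ^ (pj j)) B)
      ≤ Cs * T.t (cfc (fun s => Phi (Real.sqrt s)) B) := by
    rw [← cm B _ hPhiB]
    refine t_mono T B _ _ ?_ (ContinuousOn.mul continuousOn_const hPhiB) ?_
    · exact (continuous_finsetSum _ fun i _ =>
        continuous_const.mul ((cont1 _ _ hp0).comp Real.continuous_sqrt)).continuousOn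
    · intro s hs
      exact hs2 J (Real.sqrt s) (Real.sqrt_nonneg s)
  have hPhiA0 : 0 ≤ T.t (cfc Phi A0) := by
    refine T.nonneg _ (cfc_nonneg fun s hs => ?_)
    exact Phi_nonneg hG (spec_nonneg hA0 hs)
  have hPhiB0 : 0 ≤ T.t (cfc (fun s => Phi (Real.sqrt s)) B) := by
    refine T.nonneg _ (cfc_nonneg fun s hs => ?_)
    exact Phi_nonneg hG (Real.sqrt_nonneg s)
  have hT1 : 0 ≤ T.t 1 := T.nonneg 1 zero_le_one
  have hPhiJ : 0 ≤ Phi ((2 : ℝ) ^ (-(J : ℤ))) := Phi_nonneg hG (by positivity)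
  set X := T.t (cfc (fun s : ℝ => PJ Phi (pj j) J |s|) x) with hXdef
  set a1 := T.t (cfc Phi A0) with ha1
  set b1 := T.t (cfc (fun s => Phi (Real.sqrt s)) B) with hb1
  set f1 := Phi ((2 : ℝ) ^ (-(J : ℤ))) * T.t 1 with hf1
  have hf10 : 0 ≤ f1 := mul_nonneg hPhiJ hT1
  have hX' : 1 / (2 * Cs) * T.t (cfc (fun y => ∑ i ∈ I,
        Phi ((2 : ℝ) ^ i) * ((2 : ℝ) ^ i) ^ (-1 : ℝ) * max (|y| - (2 : ℝ) ^ i / 2) 0) x)
      ≤ 1 / 2 * X + 1 / 2 * f1 := by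
    have h5 := mul_le_mul_of_nonneg_left hX (by positivity : 0 ≤ 1 / (2 * Cs))
    refine h5.trans (le_of_eq ?_)
    rw [hf1]
    field_simp
  have hYZ := mul_le_mul_of_nonneg_left (add_le_add (add_le_add (add_le_add hY1 hY2) hZ1) hZ2) hK.le
  have hfin : X ≤ (1 / 2 * X + 1 / 2 * f1) + K * (Cs * a1 + Cs * a1 + Cs * b1 + Cs * b1)
      + K' * ((∑ i ∈ I, w i) * Er) := by
    refine hsum.trans ?_
    exact add_le_add (add_le_add hX' hYZ) le_rfl
  have g1 : 0 ≤ K * Cs := by positivity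
  have g2 : 0 ≤ (K * Cs) * f1 := mul_nonneg g1 hf10
  have g3 : 0 ≤ Cs * f1 := mul_nonneg hCs.le hf10
  have g4 : 0 ≤ Cs * (a1 + b1) := mul_nonneg hCs.le (add_nonneg hPhiA0 hPhiB0)
  have g5 : (4 * K * Cs + 1 + Cs) * (a1 + b1) + (4 * K * Cs + 1 + Cs) *
      Phi ((2 : ℝ) ^ (-(J : ℤ))) * T.t 1 = (4 * K * Cs + 1 + Cs) * (a1 + b1)
      + (4 * K * Cs + 1 + Cs) * f1 := by rw [hf1]; ring
  have g6 : 0 ≤ a1 + b1 := add_nonneg hPhiA0 hPhiB0
  rw [g5]
  nlinarith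

end MDB
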