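import Pool.Agent.MDB.Targets

/-!
# Existence of the Cuculescu projections
-/

open Finset

namespace MDB

universe u

namespace MDB_CUC

variable {A : Type u} [CStarAlgebra A] [PartialOrder A] [StarOrderedRing A]

/-- A projection on which the compressed element is strictly positive lies under `R`. -/
lemma under_of_low {R P y : A} {lam : ℝ} (hlam : 0 < lam) (hR : IsStarProjection R)
    (hP : IsStarProjection P) (hy : R * y = y) (hPy : P * y = y * P)
    (hlow : lam • P ≤ P * y * P) : R * P = P := by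
  have hPP : P * P = P := hP.isIdempotentElem.eq
  have hPs : star P = P := hP.isSelfAdjoint.star_eq
  have hRs : star R = R := hR.isSelfAdjoint.star_eq
  set z : A := (1 - R) * P with hz
  have hzs : star z = P * (1 - R) := by
    rw [hz]; simp [hPs, hRs]
  have h1 : (1 - R) * (lam • P) * (1 - R) ≤ (1 - R) * (P * y * P) * (1 - R) := by
    have := star_left_conjugate_le_conjugate hlow (1 - R)
    simpa [hRs] using this
  have h2 : (1 - R) * (P * y * P) * (1 - R) = 0 := by
    have : (1 - R) * (P * y * P) = 0 := by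
      rw [hPy, mul_assoc y P P, hPP, ← mul_assoc, sub_mul, one_mul, hy, sub_self, zero_mul]
    rw [this, zero_mul]
  have h3 : (1 - R) * (lam • P) * (1 - R) = lam • (z * star z) := by
    rw [hzs, hz, mul_smul_comm, smul_mul_assoc]
    congr 1
    rw [mul_assoc (1 - R) P (P * (1 - R)), ← mul_assoc P P (1 - R), hPP, mul_assoc]
  rw [h2, h3] at h1
  have h4 : z * star z ≤ 0 := by
    have := smul_le_smul_of_nonneg_left h1 (inv_nonneg.mpr hlam.le)
    rwa [smul_smul, inv_mul_cancel₀ hlam.ne', one_smul, smul_zero] at this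
  have h5 : z * star z = 0 := le_antisymm h4 (mul_star_self_nonneg z)
  have h6 : z = 0 := by
    simpa using h5
  rw [hz, sub_mul, one_mul, sub_eq_zero] at h6
  exact h6.symm

/-- One step of the construction. -/
lemma step {T : TrFun A} (F : Filt T) (hF : HasSP F) (N : ℕ) (d : ℕ → A) (lam : ℝ)
    (hlam : 0 < lam) (hd : ∀ n, n < N → IsSelfAdjoint (d n))
    (hE : ∀ n, n < N → F.E (n + 1) (d n) = d n) (n : ℕ) (hn : n < N) (R : A)
    (hR : IsStarProjection R) (hRE : F.E n R = R) :
    ∃ P Q : A, IsStarProjection P ∧ IsStarProjection Q ∧ P * Q = 0 ∧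
      R * P = P ∧ R * Q = Q ∧ F.E (n + 1) P = P ∧ F.E (n + 1) Q = Q ∧
      P * (R * ps d (n + 1) * R) = (R * ps d (n + 1) * R) * P ∧
      Q * (R * ps d (n + 1) * R) = (R * ps d (n + 1) * R) * Q ∧
      lam • P ≤ P * ps d (n + 1) * P ∧ Q * ps d (n + 1) * Q ≤ -(lam • Q) ∧
      (R - P - Q) * ps d (n + 1) * (R - P - Q) ≤ lam • (1 : A) ∧
      -(lam • (1 : A)) ≤ (R - P - Q) * ps d (n + 1) * (R - P - Q) := by
  have hRR : R * R = R := hR.isIdempotentElem.eq
  have hRs : star R = R := hR.isSelfAdjoint.star_eq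
  have hxE : F.E (n + 1) (ps d (n + 1)) = ps d (n + 1) := by
    unfold ps
    rw [map_sum]
    refine Finset.sum_congr rfl fun k hk => ?_
    rw [Finset.mem_range] at hk
    have h1 := hE k (by omega)
    have h2 := F.E_tower' (k + 1) (n + 1) (d k) (by omega)
    rw [h1] at h2
    exact h2
  have hxs : IsSelfAdjoint (ps d (n + 1)) := by
    unfold ps
    rw [isSelfAdjoint_iff, star_sum]
    refine Finset.sum_congr rfl fun k hk => ?_
    rw [Finset.mem_range] at hk
    exact (hd k (by omega)).star_eq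
  have hRE' : F.E (n + 1) R = R := by
    have h2 := F.E_tower' n (n + 1) R (by omega)
    rw [hRE] at h2
    exact h2
  set x : A := ps d (n + 1) with hx
  have hys : IsSelfAdjoint (R * x * R) := by
    rw [isSelfAdjoint_iff]
    simp [hRs, hxs.star_eq, mul_assoc]
  have hyE : F.E (n + 1) (R * x * R) = R * x * R := by
    rw [F.E_mul_right _ _ _ hRE', F.E_mul_left _ _ _ hRE', hxE]
  obtain ⟨P, Q, hP, hQ, hPQ, hPE, hQE, hPy, hQy, hPl, hQl, hb, hb'⟩ :=
    hF (n + 1) (R * x * R) hys hyE lam hlam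
  have hRy : R * (R * x * R) = R * x * R := by
    rw [← mul_assoc, ← mul_assoc, hRR]
  have hRP : R * P = P := under_of_low hlam hR hP hRy hPy hPl
  have hRQ : R * Q = Q := by
    refine under_of_low (y := -(R * x * R)) hlam hR hQ (by rw [mul_neg, hRy])
      (by rw [mul_neg, neg_mul, hQy]) ?_
    have := neg_le_neg hQl
    rw [neg_neg] at this
    simpa using this
  have hPs : star P = P := hP.isSelfAdjoint.star_eq
  have hQs : star Q = Q := hQ.isSelfAdjoint.star_eq
  have hPR : P * R = P := by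
    have := congrArg star hRP
    simpa [hPs, hRs] using this
  have hQR : Q * R = Q := by
    have := congrArg star hRQ
    simpa [hQs, hRs] using this
  have e1 : P * (R * x * R) * P = P * x * P := by
    rw [← mul_assoc, ← mul_assoc, hPR, mul_assoc (P * x) R P, hRP]
  have e2 : Q * (R * x * R) * Q = Q * x * Q := by
    rw [← mul_assoc, ← mul_assoc, hQR, mul_assoc (Q * x) R Q, hRQ]
  have e3 : (1 - P - Q) * (R * x * R) * (1 - P - Q) = (R - P - Q) * x * (R - P - Q) := by
    have l1 : (1 - P - Q) * R = R - P - Q := by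
      rw [sub_mul, sub_mul, one_mul, hPR, hQR]
    have l2 : R * (1 - P - Q) = R - P - Q := by
      rw [mul_sub, mul_sub, mul_one, hRP, hRQ]
    rw [← mul_assoc, ← mul_assoc, l1, mul_assoc ((R - P - Q) * x), l2]
  rw [e1] at hPl
  rw [e2] at hQl
  rw [e3] at hb hb'
  exact ⟨P, Q, hP, hQ, hPQ, hRP, hRQ, hPE, hQE, hPy, hQy, hPl, hQl, hb, hb'⟩

omit [PartialOrder A] [StarOrderedRing A] in
lemma proj_sub {R P Q : A} (hR : IsStarProjection R) (hP : IsStarProjection P)
    (hQ : IsStarProjection Q) (hPQ : P * Q = 0) (hRP : R * P = P) (hRQ : R * Q = Q) :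
    IsStarProjection (R - P - Q) := by
  have hRR : R * R = R := hR.isIdempotentElem.eq
  have hRs : star R = R := hR.isSelfAdjoint.star_eq
  have hPP : P * P = P := hP.isIdempotentElem.eq
  have hQQ : Q * Q = Q := hQ.isIdempotentElem.eq
  have hPs : star P = P := hP.isSelfAdjoint.star_eq
  have hQs : star Q = Q := hQ.isSelfAdjoint.star_eq
  have hPR : P * R = P := by
    have := congrArg star hRP
    simpa [hPs, hRs] using this
  have hQR : Q * R = Q := by
    have := congrArg star hRQ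
    simpa [hQs, hRs] using this
  have hQP : Q * P = 0 := by
    have := congrArg star hPQ
    simpa [hPs, hQs] using this
  refine ⟨?_, ?_⟩
  · show (R - P - Q) * (R - P - Q) = R - P - Q
    simp only [mul_sub, sub_mul, hRR, hRP, hRQ, hPR, hQR, hPP, hQQ, hPQ, hQP]
    abel
  · rw [isSelfAdjoint_iff]
    simp [hRs, hPs, hQs]

open Classical in
/-- The pair of jumps, chosen by `step`. -/
noncomputable def jp {T : TrFun A} (F : Filt T) (N : ℕ) (d : ℕ → A) (lam : ℝ) (n : ℕ) (R : A) :
    A × A :=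
  if h : ∃ p : A × A, IsStarProjection p.1 ∧ IsStarProjection p.2 ∧ p.1 * p.2 = 0 ∧
      R * p.1 = p.1 ∧ R * p.2 = p.2 ∧ F.E (n + 1) p.1 = p.1 ∧ F.E (n + 1) p.2 = p.2 ∧
      (n < N → p.1 * (R * ps d (n + 1) * R) = (R * ps d (n + 1) * R) * p.1 ∧
      p.2 * (R * ps d (n + 1) * R) = (R * ps d (n + 1) * R) * p.2 ∧
      lam • p.1 ≤ p.1 * ps d (n + 1) * p.1 ∧ p.2 * ps d (n + 1) * p.2 ≤ -(lam • p.2) ∧
      (R - p.1 - p.2) * ps d (n + 1) * (R - p.1 - p.2) ≤ lam • (1 : A) ∧
      -(lam • (1 : A)) ≤ (R - p.1 - p.2) * ps d (n + 1) * (R - p.1 - p.2))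
  then h.choose else 0

lemma jp_spec {T : TrFun A} (F : Filt T) (hF : HasSP F) (N : ℕ) (d : ℕ → A) (lam : ℝ)
    (hlam : 0 < lam) (hd : ∀ n, n < N → IsSelfAdjoint (d n))
    (hE : ∀ n, n < N → F.E (n + 1) (d n) = d n) (n : ℕ) (R : A)
    (hR : IsStarProjection R) (hRE : F.E n R = R) (p : A × A) (hp : jp F N d lam n R = p) :
    IsStarProjection p.1 ∧ IsStarProjection p.2 ∧ p.1 * p.2 = 0 ∧
      R * p.1 = p.1 ∧ R * p.2 = p.2 ∧ F.E (n + 1) p.1 = p.1 ∧ F.E (n + 1) p.2 = p.2 ∧
      (n < N → p.1 * (R * ps d (n + 1) * R) = (R * ps d (n + 1) * R) * p.1 ∧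
      p.2 * (R * ps d (n + 1) * R) = (R * ps d (n + 1) * R) * p.2 ∧
      lam • p.1 ≤ p.1 * ps d (n + 1) * p.1 ∧ p.2 * ps d (n + 1) * p.2 ≤ -(lam • p.2) ∧
      (R - p.1 - p.2) * ps d (n + 1) * (R - p.1 - p.2) ≤ lam • (1 : A) ∧
      -(lam • (1 : A)) ≤ (R - p.1 - p.2) * ps d (n + 1) * (R - p.1 - p.2)) := by
  have h : ∃ p : A × A, IsStarProjection p.1 ∧ IsStarProjection p.2 ∧ p.1 * p.2 = 0 ∧
      R * p.1 = p.1 ∧ R * p.2 = p.2 ∧ F.E (n + 1) p.1 = p.1 ∧ F.E (n + 1) p.2 = p.2 ∧
      (n < N → p.1 * (R * ps d (n + 1) * R) = (R * ps d (n + 1) * R) * p.1 ∧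
      p.2 * (R * ps d (n + 1) * R) = (R * ps d (n + 1) * R) * p.2 ∧
      lam • p.1 ≤ p.1 * ps d (n + 1) * p.1 ∧ p.2 * ps d (n + 1) * p.2 ≤ -(lam • p.2) ∧
      (R - p.1 - p.2) * ps d (n + 1) * (R - p.1 - p.2) ≤ lam • (1 : A) ∧
      -(lam • (1 : A)) ≤ (R - p.1 - p.2) * ps d (n + 1) * (R - p.1 - p.2)) := by
    by_cases hn : n < N
    · obtain ⟨P, Q, h1, h2, h3, h4, h5, h6, h7, h8, h9, h10, h11, h12, h13⟩ :=
        step F hF N d lam hlam hd hE n hn R hR hRE
      exact ⟨(P, Q), h1, h2, h3, h4, h5, h6, h7, fun _ => ⟨h8, h9, h10, h11, h12, h13⟩⟩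
    · refine ⟨(0, 0), IsStarProjection.zero A, IsStarProjection.zero A, ?_, ?_, ?_, ?_, ?_,
        fun hn' => absurd hn' hn⟩ <;> simp
  have hj : jp F N d lam n R = h.choose := by
    unfold jp
    rw [dif_pos h]
  rw [hj] at hp
  subst hp
  exact h.choose_spec

/-- The sequence of projections. -/
noncomputable def RR {T : TrFun A} (F : Filt T) (N : ℕ) (d : ℕ → A) (lam : ℝ) : ℕ → A
  | 0 => 1
  | n + 1 => RR F N d lam n - (jp F N d lam n (RR F N d lam n)).1
      - (jp F N d lam n (RR F N d lam n)).2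

lemma RR_spec {T : TrFun A} (F : Filt T) (hF : HasSP F) (N : ℕ) (d : ℕ → A) (lam : ℝ)
    (hlam : 0 < lam) (hd : ∀ n, n < N → IsSelfAdjoint (d n))
    (hE : ∀ n, n < N → F.E (n + 1) (d n) = d n) (n : ℕ) :
    IsStarProjection (RR F N d lam n) ∧ F.E n (RR F N d lam n) = RR F N d lam n := by
  induction n with
  | zero =>
    refine ⟨?_, ?_⟩
    · exact IsStarProjection.one A
    · exact F.E_one 0
  | succ n ih =>
    obtain ⟨h1, h2, h3, h4, h5, h6, h7, -⟩ := jp_spec F hF N d lam hlam hd hE n _ ih.1 ih.2 _ rfl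
    refine ⟨?_, ?_⟩
    · exact proj_sub ih.1 h1 h2 h3 h4 h5
    · have h2' := F.E_tower' n (n + 1) (RR F N d lam n) (by omega)
      rw [ih.2] at h2'
      show F.E (n + 1) (RR F N d lam n - (jp F N d lam n (RR F N d lam n)).1
        - (jp F N d lam n (RR F N d lam n)).2) = _
      rw [map_sub, map_sub, h6, h7, h2']
      rfl

end MDB_CUC

open MDB_CUC in
theorem p_cuc : T_cuc.{u} := by
  intro A _ _ _ T F hF N d lam hlam hd hE
  have hR := RR_spec F hF N d lam hlam hd hE
  have hJ := fun n => jp_spec F hF N d lam hlam hd hE n _ (hR n).1 (hR n).2 _ rfl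
  refine ⟨{ R := RR F N d lam
            P := fun n => (jp F N d lam n (RR F N d lam n)).1
            Q := fun n => (jp F N d lam n (RR F N d lam n)).2
            R_zero := rfl
            R_succ := fun n => rfl
            proj_R := fun n => (hR n).1
            proj_P := fun n => (hJ n).1
            proj_Q := fun n => (hJ n).2.1
            PQ := fun n => (hJ n).2.2.1
            RP := fun n => (hJ n).2.2.2.1
            RQ := fun n => (hJ n).2.2.2.2.1
            mem_R := fun n => (hR n).2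
            mem_P := fun n => (hJ n).2.2.2.2.2.1
            mem_Q := fun n => (hJ n).2.2.2.2.2.2.1
            comm_P := fun n hn => ((hJ n).2.2.2.2.2.2.2 hn).1
            comm_Q := fun n hn => ((hJ n).2.2.2.2.2.2.2 hn).2.1
            low_P := fun n hn => ((hJ n).2.2.2.2.2.2.2 hn).2.2.1
            low_Q := fun n hn => ((hJ n).2.2.2.2.2.2.2 hn).2.2.2.1
            bdd := ?_
            bdd' := ?_ }⟩
  · intro n hn
    cases n with
    | zero =>
      have : ps d 0 = 0 := by simp [ps]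
      rw [this, mul_zero, zero_mul]
      exact smul_nonneg hlam.le zero_le_one
    | succ n => exact ((hJ n).2.2.2.2.2.2.2 (by omega)).2.2.2.2.1
  · intro n hn
    cases n with
    | zero =>
      have : ps d 0 = 0 := by simp [ps]
      rw [this, mul_zero, zero_mul]
      exact neg_nonpos.mpr (smul_nonneg hlam.le zero_le_one)
    | succ n => exact ((hJ n).2.2.2.2.2.2.2 (by omega)).2.2.2.2.2

end MDB
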