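import Pool.Agent.MDB.Targets

/-!
# Decomposition by the Cuculescu projections, weak type estimate
-/

open Finset

namespace MDB

universe u

namespace MDB_DEC

variable {A : Type u} [CStarAlgebra A] [PartialOrder A] [StarOrderedRing A] {T : TrFun A}
  {F : Filt T} {N : ℕ} {d : ℕ → A} {lam : ℝ}

section
variable (c : Cuc F N d lam) (n : ℕ)

theorem QP : c.Q n * c.P n = 0 := by
  have h := congrArg star (c.PQ n)
  rwa [star_mul, star_zero, (c.proj_P n).isSelfAdjoint.star_eq,
    (c.proj_Q n).isSelfAdjoint.star_eq] at h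

theorem PR : c.P n * c.R n = c.P n := by
  have h := congrArg star (c.RP n)
  rwa [star_mul, (c.proj_P n).isSelfAdjoint.star_eq,
    (c.proj_R n).isSelfAdjoint.star_eq] at h

theorem QR : c.Q n * c.R n = c.Q n := by
  have h := congrArg star (c.RQ n)
  rwa [star_mul, (c.proj_Q n).isSelfAdjoint.star_eq,
    (c.proj_R n).isSelfAdjoint.star_eq] at h

theorem PP : c.P n * c.P n = c.P n := (c.proj_P n).isIdempotentElem
theorem QQ : c.Q n * c.Q n = c.Q n := (c.proj_Q n).isIdempotentElem
theorem RR : c.R n * c.R n = c.R n := (c.proj_R n).isIdempotentElem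

/-- the jump -/
def phi : A := c.P n + c.Q n

theorem phi_sa : star (phi c n) = phi c n := by
  rw [phi, star_add, (c.proj_P n).isSelfAdjoint.star_eq, (c.proj_Q n).isSelfAdjoint.star_eq]

theorem phi_phi : phi c n * phi c n = phi c n := by
  rw [phi, add_mul, mul_add, mul_add, PP, QQ, c.PQ, QP, add_zero, zero_add]

theorem phi_R : phi c n * c.R n = phi c n := by
  rw [phi, add_mul, PR, QR]

theorem R_phi : c.R n * phi c n = phi c n := by
  rw [phi, mul_add, c.RP, c.RQ]

theorem R_succ' : c.R (n + 1) = c.R n - phi c n := by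
  rw [phi, c.R_succ, sub_sub]

theorem phi_Rs : phi c n * c.R (n + 1) = 0 := by
  rw [R_succ', mul_sub, phi_R, phi_phi, sub_self]

theorem Rs_R : c.R (n + 1) * c.R n = c.R (n + 1) := by
  rw [R_succ', sub_mul, RR, phi_R]

theorem R_Rs : c.R n * c.R (n + 1) = c.R (n + 1) := by
  rw [R_succ', mul_sub, RR, R_phi]

theorem phi_comm (hn : n < N) : phi c n * (c.R n * ps d (n + 1) * c.R n) =
    (c.R n * ps d (n + 1) * c.R n) * phi c n := by
  rw [phi, add_mul, mul_add, c.comm_P n hn, c.comm_Q n hn]

/-- one step of the decomposition -/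
theorem step (hn : n < N) : c.R n * ps d (n + 1) * c.R n =
    c.R (n + 1) * ps d (n + 1) * c.R (n + 1) + phi c n * ps d (n + 1) * phi c n := by
  set x := ps d (n + 1) with hx
  set y := c.R n * x * c.R n with hy
  have h1 : y = c.R (n + 1) * y * c.R (n + 1) + phi c n * y * phi c n := by
    have hR : c.R n = c.R (n + 1) + phi c n := by rw [R_succ']; abel
    have hyR : y = c.R n * y * c.R n := by
      rw [hy]
      simp only [← mul_assoc, RR]
      simp only [mul_assoc, RR]
    have hc := phi_comm c n hn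
    rw [← hx, ← hy] at hc
    have e1 : phi c n * y * c.R (n + 1) = 0 := by
      rw [hc, mul_assoc, phi_Rs, mul_zero]
    have e2 : c.R (n + 1) * y * phi c n = 0 := by
      rw [mul_assoc, ← hc, ← mul_assoc]
      have : c.R (n + 1) * phi c n = 0 := by
        rw [R_succ', sub_mul, R_phi, phi_phi, sub_self]
      rw [this, zero_mul]
    calc y = c.R n * y * c.R n := hyR
      _ = c.R (n + 1) * y * c.R (n + 1) + phi c n * y * phi c n
          + (phi c n * y * c.R (n + 1) + c.R (n + 1) * y * phi c n) := by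
        rw [hR]
        noncomm_ring
      _ = _ := by rw [e1, e2]; simp
  have h2 : c.R (n + 1) * y * c.R (n + 1) = c.R (n + 1) * x * c.R (n + 1) := by
    rw [hy]
    simp only [← mul_assoc, Rs_R]
    simp only [mul_assoc, R_Rs]
  have h3 : phi c n * y * phi c n = phi c n * x * phi c n := by
    rw [hy]
    simp only [← mul_assoc, phi_R]
    simp only [mul_assoc, R_phi]
  rw [h1, h2, h3]

end

theorem ps_succ (d : ℕ → A) (n : ℕ) : ps d (n + 1) = ps d n + d n := by
  rw [ps, ps, sum_range_succ]

theorem sum_phi (c : Cuc F N d lam) (m : ℕ) : ∑ n ∈ range m, phi c n = 1 - c.R m := by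
  induction m with
  | zero => simp [c.R_zero]
  | succ m ih =>
    rw [sum_range_succ, ih, R_succ']
    abel

theorem telescope (c : Cuc F N d lam) (m : ℕ) (hm : m ≤ N) :
    ∑ n ∈ range m, c.R n * d n * c.R n =
      c.R m * ps d m * c.R m + ∑ n ∈ range m, phi c n * ps d n * phi c n
        + ∑ n ∈ range m, phi c n * d n * phi c n := by
  induction m with
  | zero => simp [ps]
  | succ m ih =>
    rw [sum_range_succ, sum_range_succ, sum_range_succ, ih (by omega)]
    have h1 := step c m (by omega)
    have h2 : c.R m * d m * c.R m = c.R m * ps d (m + 1) * c.R m - c.R m * ps d m * c.R m := by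
      rw [ps_succ]
      noncomm_ring
    have h3 : phi c m * ps d (m + 1) * phi c m =
        phi c m * ps d m * phi c m + phi c m * d m * phi c m := by
      rw [ps_succ]
      noncomm_ring
    rw [h2, h1, h3]
    abel

theorem ps_sa (hd : ∀ n, n < N → IsSelfAdjoint (d n)) {m : ℕ} (hm : m ≤ N) :
    IsSelfAdjoint (ps d m) := by
  induction m with
  | zero => simp [ps]
  | succ m ih =>
    rw [ps_succ]
    exact (ih (by omega)).add (hd m (by omega))

theorem conj_sa {a b : A} (ha : IsSelfAdjoint a) (hb : star b = b) : IsSelfAdjoint (b * a * b) := by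
  rw [isSelfAdjoint_iff, star_mul, star_mul, hb, ha.star_eq, mul_assoc]

theorem conj_mono {a b e : A} (h : a ≤ b) (he : star e = e) : e * a * e ≤ e * b * e := by
  have := star_left_conjugate_le_conjugate h e
  rwa [he] at this

end MDB_DEC

open MDB_DEC in
theorem p_dec : T_dec.{u} := by
  intro A _ _ _ T F N d lam hlam hsa _ _ c
  have hxsa : ∀ m, m ≤ N → IsSelfAdjoint (ps d m) := fun m hm => ps_sa hsa hm
  have hR : ∀ n, star (c.R n) = c.R n := fun n => (c.proj_R n).isSelfAdjoint.star_eq
  refine ⟨c.R N * ps d N * c.R N + ∑ n ∈ range N, phi c n * ps d n * phi c n, ?_, ?_, ?_, ?_⟩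
  · refine (conj_sa (hxsa N le_rfl) (hR N)).add ?_
    rw [isSelfAdjoint_iff, star_sum]
    refine sum_congr rfl fun n hn => ?_
    exact (conj_sa (hxsa n (mem_range.1 hn).le) (phi_sa c n)).star_eq
  · have h1 : c.R N * ps d N * c.R N ≤ lam • c.R N := by
      have h := conj_mono (c.bdd N le_rfl) (hR N)
      have e : c.R N * (c.R N * ps d N * c.R N) * c.R N = c.R N * ps d N * c.R N := by
        simp only [← mul_assoc, RR]
        simp only [mul_assoc, RR]
      rw [e, mul_smul_comm, mul_one, smul_mul_assoc, RR] at h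
      exact h
    have h2 : ∀ n ∈ range N, phi c n * ps d n * phi c n ≤ lam • phi c n := by
      intro n hn
      have h := conj_mono (c.bdd n (mem_range.1 hn).le) (phi_sa c n)
      have e : phi c n * (c.R n * ps d n * c.R n) * phi c n = phi c n * ps d n * phi c n := by
        simp only [← mul_assoc, phi_R]
        simp only [mul_assoc, R_phi]
      rw [e, mul_smul_comm, mul_one, smul_mul_assoc, phi_phi] at h
      exact h
    refine (add_le_add h1 (sum_le_sum h2)).trans ?_
    rw [← smul_sum, sum_phi, ← smul_add]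
    simp
  · have h1 : -(lam • c.R N) ≤ c.R N * ps d N * c.R N := by
      have h := conj_mono (c.bdd' N le_rfl) (hR N)
      have e : c.R N * (c.R N * ps d N * c.R N) * c.R N = c.R N * ps d N * c.R N := by
        simp only [← mul_assoc, RR]
        simp only [mul_assoc, RR]
      rw [e, mul_neg, neg_mul, mul_smul_comm, mul_one, smul_mul_assoc, RR] at h
      exact h
    have h2 : ∀ n ∈ range N, -(lam • phi c n) ≤ phi c n * ps d n * phi c n := by
      intro n hn
      have h := conj_mono (c.bdd' n (mem_range.1 hn).le) (phi_sa c n)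
      have e : phi c n * (c.R n * ps d n * c.R n) * phi c n = phi c n * ps d n * phi c n := by
        simp only [← mul_assoc, phi_R]
        simp only [mul_assoc, R_phi]
      rw [e, mul_neg, neg_mul, mul_smul_comm, mul_one, smul_mul_assoc, phi_phi] at h
      exact h
    refine le_trans ?_ (add_le_add h1 (sum_le_sum h2))
    rw [sum_neg_distrib, ← smul_sum, sum_phi, ← neg_add, ← smul_add]
    simp
  · have h := telescope c N le_rfl
    change _ = _ + ∑ n ∈ range N, phi c n * d n * phi c n + _
    rw [← h, ← sum_add_distrib, ps]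
    refine sum_congr rfl fun n _ => ?_
    noncomm_ring

namespace MDB_DEC

variable {A : Type u} [CStarAlgebra A] [PartialOrder A] [StarOrderedRing A] {T : TrFun A}
  {F : Filt T} {N : ℕ} {d : ℕ → A} {lam : ℝ}

/-- the trace of a product of positive elements -/
theorem tr_mul_nonneg (T : TrFun A) {a b : A} (ha : 0 ≤ a) (hb : 0 ≤ b) : 0 ≤ T.t (a * b) := by
  obtain ⟨e, rfl⟩ := CStarAlgebra.nonneg_iff_eq_star_mul_self.1 ha
  rw [mul_assoc, T.comm, mul_assoc]
  have := star_left_conjugate_nonneg hb (star e)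
  rw [star_star] at this
  have h2 : T.t (e * (b * star e)) = T.t (e * b * star e) := by rw [mul_assoc]
  rw [h2]
  exact T.nonneg _ this

theorem tr_mono (T : TrFun A) {a b : A} (h : a ≤ b) : T.t a ≤ T.t b := by
  have := T.nonneg _ (sub_nonneg.2 h)
  rw [map_sub] at this
  linarith

theorem tr_proj_conj (T : TrFun A) {p x : A} (hp : p * p = p) : T.t (p * x * p) = T.t (p * x) := by
  rw [T.comm, ← mul_assoc, hp]

theorem E_ps (hd1 : ∀ n, n < N → F.E (n + 1) (d n) = d n) (hd0 : ∀ n, n < N → F.E n (d n) = 0)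
    {m k : ℕ} (hmk : m ≤ k) (hk : k ≤ N) : F.E m (ps d k) = ps d m := by
  induction k with
  | zero =>
    obtain rfl : m = 0 := by omega
    simp [ps]
  | succ k ih =>
    rcases Nat.lt_or_ge m (k + 1) with h | h
    · rw [ps_succ, map_add, ih (by omega) (by omega)]
      have : F.E m (d k) = 0 := by
        have h1 := F.E_tower m k (d k) (by omega)
        rw [hd0 k (by omega), map_zero] at h1
        exact h1.symm
      rw [this, add_zero]
    · obtain rfl : m = k + 1 := by omega
      rw [ps, map_sum]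
      refine sum_congr rfl fun j hj => ?_
      have hj' := mem_range.1 hj
      have h1 := F.E_tower' (j + 1) (k + 1) (d j) (by omega)
      rw [hd1 j (by omega)] at h1
      exact h1

theorem tr_E (F : Filt T) {n : ℕ} {a x : A} (ha : F.E n a = a) : T.t (a * x) = T.t (a * F.E n x) := by
  rw [← F.E_tr n (a * x), F.E_mul_left n a x ha]

end MDB_DEC

open MDB_DEC in
theorem p_weak (_h : T_two.{u}) : T_weak.{u} := by
  intro A _ _ _ T F N d lam hlam hsa hd1 hd0 c
  set x := ps d N with hx
  have hxsa : IsSelfAdjoint x := ps_sa hsa le_rfl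
  set Ph := ∑ n ∈ range N, c.P n with hPh
  set Qh := ∑ n ∈ range N, c.Q n with hQh
  have hP0 : ∀ n, 0 ≤ c.P n := fun n => (c.proj_P n).nonneg
  have hQ0 : ∀ n, 0 ≤ c.Q n := fun n => (c.proj_Q n).nonneg
  have hPh0 : 0 ≤ Ph := sum_nonneg fun n _ => hP0 n
  have hQh0 : 0 ≤ Qh := sum_nonneg fun n _ => hQ0 n
  have hPQ : Ph + Qh = 1 - c.R N := by
    rw [hPh, hQh, ← sum_add_distrib]
    exact sum_phi c N
  have hR0 : 0 ≤ c.R N := (c.proj_R N).nonneg
  have hPQ1 : Ph + Qh ≤ 1 := by
    rw [hPQ]
    exact sub_le_self _ hR0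
  have hPh1 : Ph ≤ 1 := le_trans (le_add_of_nonneg_right hQh0) hPQ1
  have hQh1 : Qh ≤ 1 := le_trans (le_add_of_nonneg_left hPh0) hPQ1
  -- traces against the projections
  have hP : ∀ n ∈ range N, lam * T.t (c.P n) ≤ T.t (c.P n * x) := by
    intro n hn
    have hn' := mem_range.1 hn
    have h1 := tr_mono T (c.low_P n hn')
    rw [map_smul, smul_eq_mul, tr_proj_conj T (PP c n)] at h1
    rw [tr_E F (c.mem_P n), hx, E_ps hd1 hd0 (by omega) le_rfl]
    exact h1
  have hQ : ∀ n ∈ range N, T.t (c.Q n * x) ≤ -(lam * T.t (c.Q n)) := by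
    intro n hn
    have hn' := mem_range.1 hn
    have h1 := tr_mono T (c.low_Q n hn')
    rw [map_neg, map_smul, smul_eq_mul, tr_proj_conj T (QQ c n)] at h1
    rw [tr_E F (c.mem_Q n), hx, E_ps hd1 hd0 (by omega) le_rfl]
    exact h1
  have hPs : lam * T.t Ph ≤ T.t (Ph * x) := by
    rw [hPh, map_sum, mul_sum, sum_mul, map_sum]
    exact sum_le_sum hP
  have hQs : T.t (Qh * x) ≤ -(lam * T.t Qh) := by
    rw [hQh, map_sum, mul_sum, sum_mul, map_sum, ← sum_neg_distrib]
    exact sum_le_sum hQ
  -- functional calculus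
  set u := cfc (fun s : ℝ => max (s - lam / 2) 0) x with hu
  set v := cfc (fun s : ℝ => max (-s - lam / 2) 0) x with hv
  have hu0 : 0 ≤ u := cfc_nonneg fun s _ => le_max_right _ _
  have hv0 : 0 ≤ v := cfc_nonneg fun s _ => le_max_right _ _
  have hcu : ContinuousOn (fun s : ℝ => max (s - lam / 2) 0) (spectrum ℝ x) := by fun_prop
  have hcv : ContinuousOn (fun s : ℝ => max (-s - lam / 2) 0) (spectrum ℝ x) := by fun_prop
  have huv : cfc (fun s : ℝ => max (|s| - lam / 2) 0) x = u + v := by
    rw [hu, hv, ← cfc_add (a := x) _ _ hcu hcv]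
    refine cfc_congr fun s _ => ?_
    show max (|s| - lam / 2) 0 = max (s - lam / 2) 0 + max (-s - lam / 2) 0
    rcases le_total 0 s with hs | hs
    · rw [abs_of_nonneg hs, max_eq_right (by linarith : -s - lam / 2 ≤ 0), add_zero]
    · rw [abs_of_nonpos hs, max_eq_right (by linarith : s - lam / 2 ≤ 0), zero_add]
  have hxu : x ≤ u + (lam / 2) • (1 : A) := by
    have e1 : x = cfc (fun s : ℝ => s) x := (cfc_id' ℝ x).symm
    have e2 : u + (lam / 2) • (1 : A) = cfc (fun s : ℝ => max (s - lam / 2) 0 + lam / 2) x := by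
      rw [cfc_add (a := x) _ _ hcu (by fun_prop), cfc_const _ _, Algebra.algebraMap_eq_smul_one]
    rw [e2]
    conv_lhs => rw [e1]
    refine cfc_mono (fun s _ => ?_) (by fun_prop) (by fun_prop)
    have := le_max_left (s - lam / 2) 0
    linarith
  have hxv : -x ≤ v + (lam / 2) • (1 : A) := by
    have e1 : -x = cfc (fun s : ℝ => -s) x := by
      rw [cfc_neg, cfc_id' ℝ x]
    have e2 : v + (lam / 2) • (1 : A) = cfc (fun s : ℝ => max (-s - lam / 2) 0 + lam / 2) x := by
      rw [cfc_add (a := x) _ _ hcv (by fun_prop), cfc_const _ _, Algebra.algebraMap_eq_smul_one]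
    rw [e1, e2]
    refine cfc_mono (fun s _ => ?_) (by fun_prop) (by fun_prop)
    have := le_max_left (-s - lam / 2) 0
    linarith
  have h1 : T.t (Ph * x) ≤ T.t u + lam / 2 * T.t Ph := by
    have a1 := tr_mul_nonneg T hPh0 (sub_nonneg.2 hxu)
    have a2 := tr_mul_nonneg T (sub_nonneg.2 hPh1) hu0
    rw [mul_sub, mul_add, map_sub, map_add, mul_smul_comm, mul_one, map_smul, smul_eq_mul] at a1
    rw [sub_mul, one_mul, map_sub] at a2
    linarith
  have h2 : -T.t (Qh * x) ≤ T.t v + lam / 2 * T.t Qh := by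
    have a1 := tr_mul_nonneg T hQh0 (sub_nonneg.2 hxv)
    have a2 := tr_mul_nonneg T (sub_nonneg.2 hQh1) hv0
    rw [mul_sub, mul_add, map_sub, map_add, mul_smul_comm, mul_one, map_smul, smul_eq_mul,
      mul_neg, map_neg] at a1
    rw [sub_mul, one_mul, map_sub] at a2
    linarith
  rw [← hPQ, huv, map_add, map_add]
  linarith

end MDB
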