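import Pool.Agent.MDB.Targets

/-!
# Hoelder inequality for row times column, exponents powers of two (job MDB-HOLD)
-/

open Finset

namespace MDB

universe u

namespace MDB_HOLD

variable {A : Type u} [CStarAlgebra A] [PartialOrder A] [StarOrderedRing A]

theorem tr_mul_nonneg (T : TrFun A) {c d : A} (hc : 0 ≤ c) (hd : 0 ≤ d) : 0 ≤ T.t (c * d) := by
  obtain ⟨e, rfl⟩ := CStarAlgebra.nonneg_iff_eq_star_mul_self.mp hc
  rw [mul_assoc, T.comm]
  exact T.nonneg _ (star_right_conjugate_nonneg hd e)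

/-- Cauchy-Schwarz. -/
theorem cs (T : TrFun A) (a b : A) :
    (T.t (star a * b)) ^ 2 ≤ T.t (star a * a) * T.t (star b * b) := by
  have key : ∀ s : ℝ, 0 ≤ T.t (star b * b) * (s * s) + (2 * T.t (star a * b)) * s
      + T.t (star a * a) := by
    intro s
    have h := T.nonneg _ (star_mul_self_nonneg (a + s • b))
    have e : star (a + s • b) * (a + s • b)
        = star a * a + s • (star a * b) + s • (star b * a) + (s * s) • (star b * b) := by
      simp only [star_add, star_smul, star_trivial, add_mul, mul_add, smul_mul_assoc,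
        mul_smul_comm, smul_add, smul_smul]
      abel
    rw [e] at h
    simp only [map_add, map_smul, smul_eq_mul] at h
    have e2 : T.t (star b * a) = T.t (star a * b) := by
      have := T.star_eq (star b * a)
      rw [star_mul, star_star] at this
      exact this.symm
    rw [e2] at h
    linarith
  have hd := discrim_le_zero key
  unfold discrim at hd
  nlinarith [hd]

/-- cyclicity of powers -/
theorem tr_pow_comm (T : TrFun A) (a b : A) (m : ℕ) :
    T.t ((a * b) ^ m) = T.t ((b * a) ^ m) := by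
  rcases m with _ | m
  · simp
  · have h : (a * b) ^ (m + 1) = a * ((b * a) ^ m * b) := by
      induction m with
      | zero => simp
      | succ m ih =>
        rw [pow_succ, ih, pow_succ (b * a) m]
        simp only [mul_assoc]
    rw [h, T.comm, pow_succ, mul_assoc]

theorem tr_star_pow (T : TrFun A) (Z : A) (m : ℕ) :
    T.t ((Z * star Z) ^ m) = T.t ((star Z * Z) ^ m) := tr_pow_comm T _ _ m

theorem pow_nonneg' {a : A} (ha : 0 ≤ a) (m : ℕ) : 0 ≤ a ^ m := by
  rw [← cfc_pow_id (R := ℝ) a m]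
  exact cfc_nonneg (fun x hx => pow_nonneg (spectrum_nonneg_of_nonneg ha hx) m)

/-- Cauchy-Schwarz for products of positive elements -/
theorem cs_pos (T : TrFun A) {c d : A} (hc : 0 ≤ c) (hd : 0 ≤ d) (m : ℕ) :
    (T.t (c ^ m * d ^ m)) ^ 2 ≤ T.t (c ^ (2 * m)) * T.t (d ^ (2 * m)) := by
  have hc' : star (c ^ m) = c ^ m := (IsSelfAdjoint.of_nonneg (pow_nonneg' hc m)).star_eq
  have hd' : star (d ^ m) = d ^ m := (IsSelfAdjoint.of_nonneg (pow_nonneg' hd m)).star_eq
  have h := cs T (c ^ m) (d ^ m)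
  rw [hc', hd', ← pow_add, ← pow_add, ← two_mul] at h
  exact h

theorem W_LT (T : TrFun A) (i : ℕ) :
    (∀ Z : A, |T.t (Z ^ (2 * 2 ^ i))| ≤ T.t ((star Z * Z) ^ (2 ^ i))) ∧
    (∀ P Q : A, 0 ≤ P → 0 ≤ Q → T.t ((P * Q) ^ (2 ^ i)) ≤ T.t (P ^ (2 ^ i) * Q ^ (2 ^ i))) := by
  induction i with
  | zero =>
    refine ⟨fun Z => ?_, fun P Q _ _ => by simp⟩
    have h := cs T (star Z) Z
    rw [star_star, T.comm Z (star Z)] at h
    have h0 : 0 ≤ T.t (star Z * Z) := T.nonneg _ (star_mul_self_nonneg Z)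
    rw [← sq (T.t (star Z * Z))] at h
    have h2 := abs_le_of_sq_le_sq h h0
    simp only [pow_zero, mul_one, pow_one]
    rw [sq]
    exact h2
  | succ i ih =>
    obtain ⟨hW, hL⟩ := ih
    refine ⟨fun Z => ?_, fun P Q hP hQ => ?_⟩
    · have h1 := hW (Z ^ 2)
      have e1 : (Z ^ 2) ^ (2 * 2 ^ i) = Z ^ (2 * 2 ^ (i + 1)) := by
        rw [← pow_mul]; congr 1; ring
      rw [e1] at h1
      refine h1.trans ?_
      have e2 : star (Z ^ 2) * Z ^ 2 = star Z * (star Z * Z * Z) := by
        rw [sq, star_mul]; simp only [mul_assoc]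
      rw [e2, tr_pow_comm]
      have e3 : star Z * Z * Z * star Z = (star Z * Z) * (Z * star Z) := by
        simp only [mul_assoc]
      rw [e3]
      have p1 : 0 ≤ star Z * Z := star_mul_self_nonneg Z
      have p2 : 0 ≤ Z * star Z := mul_star_self_nonneg Z
      refine (hL _ _ p1 p2).trans ?_
      have h2 := cs_pos T p1 p2 (2 ^ i)
      rw [tr_star_pow] at h2
      have e4 : 2 * 2 ^ i = 2 ^ (i + 1) := by ring
      rw [e4, ← sq (T.t ((star Z * Z) ^ 2 ^ (i + 1)))] at h2
      have hq : T.t ((star Z * Z) ^ 2 ^ i * (Z * star Z) ^ 2 ^ i) ≤ |T.t ((star Z * Z) ^ 2 ^ (i + 1))| :=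
        (le_abs_self _).trans (sq_le_sq.mp h2)
      rwa [abs_of_nonneg (T.nonneg _ (pow_nonneg' p1 _))] at hq
    · have h1 := hW (P * Q)
      have e1 : 2 * 2 ^ i = 2 ^ (i + 1) := by ring
      rw [e1] at h1
      refine (le_abs_self _).trans (h1.trans ?_)
      have e2 : star (P * Q) * (P * Q) = Q * (P * P * Q) := by
        rw [star_mul, (IsSelfAdjoint.of_nonneg hP).star_eq, (IsSelfAdjoint.of_nonneg hQ).star_eq]
        simp only [mul_assoc]
      rw [e2, tr_pow_comm]
      have e3 : P * P * Q * Q = P ^ 2 * Q ^ 2 := by rw [sq, sq]; simp only [mul_assoc]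
      rw [e3]
      refine (hL _ _ (pow_nonneg' hP 2) (pow_nonneg' hQ 2)).trans (le_of_eq ?_)
      rw [← pow_mul, ← pow_mul, e1]

theorem pw_natCast (T : TrFun A) {a : A} (ha : 0 ≤ a) (k : ℕ) :
    T.pw (k : ℝ) a = T.t (a ^ k) := by
  unfold TrFun.pw
  have : cfc (fun s : ℝ => s ^ (k : ℝ)) a = cfc (fun s : ℝ => s ^ k) a := by
    refine cfc_congr ?_
    intro s _
    exact Real.rpow_natCast s k
  rw [this, cfc_pow_id (R := ℝ) a k (IsSelfAdjoint.of_nonneg ha)]

/-- square root and inverse square root of `c + eps` -/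
theorem root (c : A) (hc : 0 ≤ c) (eps : ℝ) (he : 0 < eps) :
    ∃ a ai : A, star a = a ∧ star ai = ai ∧ a * a = c + eps • (1 : A) ∧ a * ai = 1 ∧
      ai * a = 1 := by
  have hsa : IsSelfAdjoint c := IsSelfAdjoint.of_nonneg hc
  have hpos : ∀ s ∈ spectrum ℝ c, 0 < s + eps := fun s hs => by
    have := spectrum_nonneg_of_nonneg hc hs
    linarith
  have hcont : ContinuousOn (fun s : ℝ => √(s + eps)) (spectrum ℝ c) := by fun_prop
  have hcont' : ContinuousOn (fun s : ℝ => (√(s + eps))⁻¹) (spectrum ℝ c) :=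
    hcont.inv₀ (fun s hs => (Real.sqrt_pos.mpr (hpos s hs)).ne')
  refine ⟨cfc (fun s : ℝ => √(s + eps)) c, cfc (fun s : ℝ => (√(s + eps))⁻¹) c, ?_, ?_, ?_, ?_, ?_⟩
  · exact (cfc_predicate (R := ℝ) (p := IsSelfAdjoint) _ c).star_eq
  · exact (cfc_predicate (R := ℝ) (p := IsSelfAdjoint) _ c).star_eq
  · rw [← cfc_mul _ _ c hcont hcont]
    have : cfc (fun s : ℝ => √(s + eps) * √(s + eps)) c = cfc (fun s : ℝ => s + eps) c := by
      refine cfc_congr ?_
      intro s hs
      exact Real.mul_self_sqrt (hpos s hs).le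
    rw [this, cfc_add_const eps (fun s : ℝ => s) c (by fun_prop), cfc_id' ℝ c,
      Algebra.algebraMap_eq_smul_one]
  · rw [← cfc_mul _ _ c hcont hcont']
    have : cfc (fun s : ℝ => √(s + eps) * (√(s + eps))⁻¹) c = cfc (fun _ : ℝ => (1 : ℝ)) c := by
      refine cfc_congr ?_
      intro s hs
      exact mul_inv_cancel₀ (Real.sqrt_pos.mpr (hpos s hs)).ne'
    rw [this, cfc_const_one ℝ c]
  · rw [← cfc_mul _ _ c hcont' hcont]
    have : cfc (fun s : ℝ => (√(s + eps))⁻¹ * √(s + eps)) c = cfc (fun _ : ℝ => (1 : ℝ)) c := by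
      refine cfc_congr ?_
      intro s hs
      exact inv_mul_cancel₀ (Real.sqrt_pos.mpr (hpos s hs)).ne'
    rw [this, cfc_const_one ℝ c]

theorem col_le_one (N : ℕ) (X : ℕ → A) (eps : ℝ) (he : 0 < eps) (a ai : A) (hs : star ai = ai)
    (h : a * a = (∑ n ∈ range N, star (X n) * X n) + eps • (1 : A)) (h1 : a * ai = 1)
    (h2 : ai * a = 1) : (∑ n ∈ range N, star (X n * ai) * (X n * ai)) ≤ 1 := by
  have e : (∑ n ∈ range N, star (X n * ai) * (X n * ai))
      = ai * (∑ n ∈ range N, star (X n) * X n) * ai := by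
    rw [Finset.mul_sum, Finset.sum_mul]
    refine Finset.sum_congr rfl fun n _ => ?_
    rw [star_mul, hs]
    simp only [mul_assoc]
  have e2 : (∑ n ∈ range N, star (X n) * X n) = a * a - eps • (1 : A) := by
    rw [h]; abel
  have e3 : ai * (a * a - eps • (1 : A)) * ai = 1 - eps • (ai * ai) := by
    have e4 : ai * (a * a - eps • (1 : A)) * ai = (ai * a) * (a * ai) - eps • (ai * ai) := by
      simp only [mul_sub, sub_mul, mul_assoc, mul_smul_comm, smul_mul_assoc, one_mul]
    rw [e4, h1, h2, mul_one]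
  rw [e, e2, e3]
  have : 0 ≤ eps • (ai * ai) := by
    refine smul_nonneg he.le ?_
    have := star_mul_self_nonneg ai
    rwa [hs] at this
  exact sub_le_self 1 this

theorem contraction (N : ℕ) (x y : ℕ → A) (hx : (∑ n ∈ range N, star (x n) * x n) ≤ 1)
    (hy : (∑ n ∈ range N, star (y n) * y n) ≤ 1) :
    star (∑ n ∈ range N, star (x n) * y n) * (∑ n ∈ range N, star (x n) * y n) ≤ 1 := by
  set k := ∑ n ∈ range N, star (x n) * y n with hk
  have hks : star k = ∑ n ∈ range N, star (y n) * x n := by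
    rw [hk, star_sum]
    refine Finset.sum_congr rfl fun n _ => ?_
    rw [star_mul, star_star]
  have h0 : 0 ≤ ∑ n ∈ range N, star (y n - x n * k) * (y n - x n * k) :=
    Finset.sum_nonneg fun n _ => star_mul_self_nonneg _
  have e : ∑ n ∈ range N, star (y n - x n * k) * (y n - x n * k)
      = (∑ n ∈ range N, star (y n) * y n) - star k * k - star k * k
        + star k * (∑ n ∈ range N, star (x n) * x n) * k := by
    have e1 : ∀ n, star (y n - x n * k) * (y n - x n * k)
        = star (y n) * y n - (star (y n) * x n) * k - star k * (star (x n) * y n)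
          + star k * (star (x n) * x n) * k := by
      intro n
      simp only [star_sub, star_mul, sub_mul, mul_sub, mul_assoc]
      abel
    simp only [e1, Finset.sum_add_distrib, Finset.sum_sub_distrib]
    rw [← Finset.sum_mul, ← Finset.mul_sum, ← Finset.sum_mul, ← Finset.mul_sum, ← hks, ← hk]
  rw [e] at h0
  have h1 : star k * (∑ n ∈ range N, star (x n) * x n) * k ≤ star k * k := by
    have := star_left_conjugate_le_conjugate hx k
    simpa using this
  have h2 : (∑ n ∈ range N, star (y n) * y n) - star k * k - star k * k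
      + star k * (∑ n ∈ range N, star (x n) * x n) * k ≤ 1 - star k * k := by
    calc _ ≤ 1 - star k * k - star k * k + star k * k := by gcongr
      _ = 1 - star k * k := by abel
  exact sub_nonneg.mp (h0.trans h2)

theorem star_right_le_one {k : A} (h : star k * k ≤ 1) : k * star k ≤ 1 := by
  have h1 : ‖star k * k‖ ≤ 1 :=
    (CStarAlgebra.norm_le_one_iff_of_nonneg (star k * k) (star_mul_self_nonneg k)).mpr h
  rw [CStarRing.norm_star_mul_self] at h1
  have h2 : ‖k * star k‖ ≤ 1 := by rw [CStarRing.norm_self_mul_star]; exact h1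
  exact (CStarAlgebra.norm_le_one_iff_of_nonneg (k * star k) (mul_star_self_nonneg k)).mp h2

theorem cont_pow (T : TrFun A) (c : A) (k : ℕ) (d : A) :
    Continuous (fun eps : ℝ => T.t ((c + eps • (1 : A)) ^ k * d)) := by
  induction k generalizing d with
  | zero => simp only [pow_zero]; exact continuous_const
  | succ k ih =>
    have e : ∀ eps : ℝ, T.t ((c + eps • (1 : A)) ^ (k + 1) * d)
        = T.t ((c + eps • (1 : A)) ^ k * (c * d)) + eps * T.t ((c + eps • (1 : A)) ^ k * d) := by
      intro eps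
      rw [pow_succ, mul_assoc, add_mul, mul_add, map_add, smul_mul_assoc, one_mul, mul_smul_comm,
        map_smul, smul_eq_mul]
    simp only [e]
    exact (ih _).add (continuous_id.mul (ih _))

theorem eps_bound (hm : T_mono.{u}) (T : TrFun A) (j N : ℕ) (X Y : ℕ → A) (eps : ℝ)
    (he : 0 < eps) :
    (T.t ((star (∑ n ∈ range N, star (X n) * Y n) * (∑ n ∈ range N, star (X n) * Y n))
        ^ (2 ^ j))) ^ 2
      ≤ T.t (((∑ n ∈ range N, star (X n) * X n) + eps • (1 : A)) ^ (2 ^ (j + 1)))
        * T.t (((∑ n ∈ range N, star (Y n) * Y n) + eps • (1 : A)) ^ (2 ^ (j + 1))) := by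
  have hSX : 0 ≤ ∑ n ∈ range N, star (X n) * X n :=
    Finset.sum_nonneg fun n _ => star_mul_self_nonneg _
  have hSY : 0 ≤ ∑ n ∈ range N, star (Y n) * Y n :=
    Finset.sum_nonneg fun n _ => star_mul_self_nonneg _
  obtain ⟨a, ai, ha, hai, haa, h1, h2⟩ := root _ hSX eps he
  obtain ⟨b, bi, hb, hbi, hbb, h3, h4⟩ := root _ hSY eps he
  have hx := col_le_one N X eps he a ai hai haa h1 h2
  have hy := col_le_one N Y eps he b bi hbi hbb h3 h4
  have hk := contraction N (fun n => X n * ai) (fun n => Y n * bi) hx hy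
  set k := ∑ n ∈ range N, star (X n * ai) * (Y n * bi) with hkdef
  have hk' := star_right_le_one hk
  have hZ : (∑ n ∈ range N, star (X n) * Y n) = a * k * b := by
    rw [hkdef, Finset.mul_sum, Finset.sum_mul]
    refine Finset.sum_congr rfl fun n _ => ?_
    rw [star_mul, hai]
    calc star (X n) * Y n = (a * ai) * (star (X n) * Y n) * (bi * b) := by
          rw [h1, h4, one_mul, mul_one]
      _ = _ := by simp only [mul_assoc]
  have hE : 0 ≤ star k * (a * a) * k := by
    refine star_left_conjugate_nonneg ?_ k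
    have := star_mul_self_nonneg a
    rwa [ha] at this
  have hB : 0 ≤ b * b := by
    have := star_mul_self_nonneg b
    rwa [hb] at this
  have hAA : 0 ≤ a * a := by
    have := star_mul_self_nonneg a
    rwa [ha] at this
  have e1 : star (a * k * b) * (a * k * b) = b * ((star k * (a * a) * k) * b) := by
    simp only [star_mul, ha, hb, mul_assoc]
  have e2 : (star k * (a * a) * k) * b * b = (star k * (a * a) * k) * (b * b) := by
    rw [mul_assoc]
  have step1 : T.t ((star (a * k * b) * (a * k * b)) ^ (2 ^ j))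
      ≤ T.t ((star k * (a * a) * k) ^ (2 ^ j) * (b * b) ^ (2 ^ j)) := by
    rw [e1, tr_pow_comm, e2]
    exact (W_LT T j).2 _ _ hE hB
  have step2 := cs_pos T hE hB (2 ^ j)
  have e3 : 2 * 2 ^ j = 2 ^ (j + 1) := by ring
  rw [e3] at step2
  have hpos : 0 ≤ T.t ((star (a * k * b) * (a * k * b)) ^ (2 ^ j)) :=
    T.nonneg _ (pow_nonneg' (star_mul_self_nonneg _) _)
  have step3 : T.t ((star k * (a * a) * k) ^ (2 ^ (j + 1))) ≤ T.t ((a * a) ^ (2 ^ (j + 1))) := by
    have e4 : star k * (a * a) * k = (star k * a) * (a * k) := by simp only [mul_assoc]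
    have e5 : a * k * (star k * a) = star a * (k * star k) * a := by
      rw [ha]; simp only [mul_assoc]
    rw [e4, tr_pow_comm, e5]
    have hle : star a * (k * star k) * a ≤ a * a := by
      have := star_left_conjugate_le_conjugate hk' a
      rw [mul_one, ha] at this
      rwa [ha]
    have hnn : 0 ≤ star a * (k * star k) * a :=
      star_left_conjugate_nonneg (mul_star_self_nonneg k) a
    have hmm := hm A T ((2 ^ (j + 1) : ℕ) : ℝ) _ _ (by positivity) hnn hle
    rwa [pw_natCast T hnn, pw_natCast T hAA] at hmm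
  rw [hZ, ← haa, ← hbb]
  calc (T.t ((star (a * k * b) * (a * k * b)) ^ (2 ^ j))) ^ 2
      ≤ (T.t ((star k * (a * a) * k) ^ (2 ^ j) * (b * b) ^ (2 ^ j))) ^ 2 := by gcongr
    _ ≤ _ := step2
    _ ≤ _ := by
      refine mul_le_mul_of_nonneg_right step3 (T.nonneg _ (pow_nonneg' hB _))

end MDB_HOLD

theorem p_hold (h1 : T_mono.{u}) : T_hold.{u} := by
  intro A _ _ _ T j N X Y
  have hc : Continuous (fun eps : ℝ =>
      T.t (((∑ n ∈ range N, star (X n) * X n) + eps • (1 : A)) ^ (2 ^ (j + 1)))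
        * T.t (((∑ n ∈ range N, star (Y n) * Y n) + eps • (1 : A)) ^ (2 ^ (j + 1)))) := by
    have c1 := MDB_HOLD.cont_pow T (∑ n ∈ range N, star (X n) * X n) (2 ^ (j + 1)) 1
    have c2 := MDB_HOLD.cont_pow T (∑ n ∈ range N, star (Y n) * Y n) (2 ^ (j + 1)) 1
    simp only [mul_one] at c1 c2
    exact c1.mul c2
  have ht := (hc.tendsto 0).mono_left (nhdsWithin_le_nhds (s := Set.Ioi 0))
  simp only [zero_smul, add_zero] at ht
  refine ge_of_tendsto ht ?_
  filter_upwards [self_mem_nhdsWithin] with eps he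
  exact MDB_HOLD.eps_bound h1 T j N X Y eps he

end MDB
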