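import Pool.Agent.MDB.Targets

/-! # The jump part (target `T_jump`) -/

open Finset

namespace MDB

universe u

namespace MDB_JUMP

/-! ### scalar inequalities -/

lemma rpow_sub_one_mul {r s : ℝ} (hr : 1 < r) (hs : 0 ≤ s) : s ^ (r - 1) * s = s ^ r := by
  rcases hs.eq_or_lt with h | h
  · subst h
    rw [mul_zero, Real.zero_rpow (by linarith)]
  · rw [← Real.rpow_add_one h.ne']
    congr 1
    ring

lemma sc1 {r c s t : ℝ} (hr : 1 < r) (hc : 0 < c) (hs : 0 ≤ s) (ht : 0 ≤ t) :
    s ^ (r - 1) * t ≤ 1 / c * s ^ r + c ^ (r - 1) * t ^ r := by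
  have h1 : 0 ≤ s ^ (r - 1) := Real.rpow_nonneg hs _
  have h2 : 0 ≤ c ^ (r - 1) * t ^ r := mul_nonneg (Real.rpow_nonneg hc.le _) (Real.rpow_nonneg ht _)
  have h3 : 0 ≤ 1 / c * s ^ r := mul_nonneg (by positivity) (Real.rpow_nonneg hs _)
  by_cases h : t ≤ 1 / c * s
  · have : s ^ (r - 1) * t ≤ s ^ (r - 1) * (1 / c * s) := mul_le_mul_of_nonneg_left h h1
    have h4 : s ^ (r - 1) * (1 / c * s) = 1 / c * s ^ r := by
      rw [← rpow_sub_one_mul hr hs]; ring
    linarith
  · push Not at h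
    have h5 : s ≤ c * t := by
      have : c * (1 / c * s) < c * t := mul_lt_mul_of_pos_left h hc
      have h6 : c * (1 / c * s) = s := by field_simp
      linarith
    have h6 : s ^ (r - 1) ≤ (c * t) ^ (r - 1) := Real.rpow_le_rpow hs h5 (by linarith)
    have h7 : (c * t) ^ (r - 1) = c ^ (r - 1) * t ^ (r - 1) := Real.mul_rpow hc.le ht
    have h8 : s ^ (r - 1) * t ≤ c ^ (r - 1) * t ^ (r - 1) * t := by
      rw [← h7]; exact mul_le_mul_of_nonneg_right h6 ht
    have h9 : c ^ (r - 1) * t ^ (r - 1) * t = c ^ (r - 1) * t ^ r := by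
      rw [mul_assoc, rpow_sub_one_mul hr ht]
    linarith

lemma sc2 {p q e lam s : ℝ} (hp : 1 < p) (hpq : p < q) (he : 0 < e) (hl : 0 < lam) (hs : 0 ≤ s) :
    s ^ p ≤ e * lam ^ p + e ^ ((p - q) / p) * (lam ^ (p - q) * s ^ q) := by
  have h1 : 0 ≤ e ^ ((p - q) / p) * (lam ^ (p - q) * s ^ q) :=
    mul_nonneg (Real.rpow_nonneg he.le _)
      (mul_nonneg (Real.rpow_nonneg hl.le _) (Real.rpow_nonneg hs _))
  have h2 : 0 ≤ e * lam ^ p := mul_nonneg he.le (Real.rpow_nonneg hl.le _)
  by_cases h : s ≤ e ^ (1 / p) * lam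
  · have h3 : s ^ p ≤ (e ^ (1 / p) * lam) ^ p := Real.rpow_le_rpow hs h (by linarith)
    have h4 : (e ^ (1 / p) * lam) ^ p = e * lam ^ p := by
      rw [Real.mul_rpow (Real.rpow_nonneg he.le _) hl.le, ← Real.rpow_mul he.le]
      rw [one_div, inv_mul_cancel₀ (by linarith), Real.rpow_one]
    linarith
  · push Not at h
    have hd : 0 < e ^ (1 / p) * lam := mul_pos (Real.rpow_pos_of_pos he _) hl
    have hs' : 0 < s := lt_trans hd h
    have h3 : s ^ (p - q) ≤ (e ^ (1 / p) * lam) ^ (p - q) :=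
      Real.rpow_le_rpow_of_nonpos hd h.le (by linarith)
    have h4 : (e ^ (1 / p) * lam) ^ (p - q) = e ^ ((p - q) / p) * lam ^ (p - q) := by
      rw [Real.mul_rpow (Real.rpow_nonneg he.le _) hl.le, ← Real.rpow_mul he.le]
      congr 2
      ring
    have h5 : s ^ p = s ^ (p - q) * s ^ q := by
      rw [← Real.rpow_add hs']; congr 1; ring
    have h6 : s ^ (p - q) * s ^ q ≤ e ^ ((p - q) / p) * lam ^ (p - q) * s ^ q := by
      rw [← h4]; exact mul_le_mul_of_nonneg_right h3 (Real.rpow_nonneg hs _)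
    have h7 : e ^ ((p - q) / p) * lam ^ (p - q) * s ^ q
        = e ^ ((p - q) / p) * (lam ^ (p - q) * s ^ q) := by ring
    linarith

lemma sc3 {p : ℝ} (hp : 1 < p) (s t : ℝ) :
    (s - t) * (p * (max t 0) ^ (p - 1)) ≤ (max s 0) ^ p - (max t 0) ^ p := by
  rcases le_or_gt t 0 with h | h
  · rw [max_eq_right h, Real.zero_rpow (by linarith), Real.zero_rpow (by linarith)]
    have : 0 ≤ (max s 0) ^ p := Real.rpow_nonneg (le_max_right _ _) _
    simp only [mul_zero, sub_zero]
    exact this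
  · rw [max_eq_left h.le]
    have h1 : s ≤ max s 0 := le_max_left _ _
    have h0 : 0 ≤ max s 0 := le_max_right _ _
    set m := max s 0
    have h2 : 0 ≤ p * t ^ (p - 1) := mul_nonneg (by linarith) (Real.rpow_nonneg h.le _)
    have h3 : (s - t) * (p * t ^ (p - 1)) ≤ (m - t) * (p * t ^ (p - 1)) :=
      mul_le_mul_of_nonneg_right (by linarith) h2
    have h4 := one_add_mul_self_le_rpow_one_add (s := (m - t) / t) (by
      rw [le_div_iff₀ h]; linarith) hp.le
    have h5 : 1 + (m - t) / t = m / t := by field_simp; ring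
    rw [h5, Real.div_rpow h0 h.le, le_div_iff₀ (Real.rpow_pos_of_pos h _)] at h4
    have h6 : (1 + p * ((m - t) / t)) * t ^ p = t ^ p + (m - t) * (p * t ^ (p - 1)) := by
      rw [← rpow_sub_one_mul hp h.le]
      field_simp
    linarith

/-! ### functional calculus facts -/

section cstar

variable {A : Type u} [CStarAlgebra A] [PartialOrder A] [StarOrderedRing A]

omit [PartialOrder A] [StarOrderedRing A] in
lemma aeval_intertwine (P : Polynomial ℝ) (c z x : A) (h : c * x = x * z) :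
    Polynomial.aeval c P * x = x * Polynomial.aeval z P := by
  induction P using Polynomial.induction_on' with
  | add p q hp hq => rw [map_add, map_add, add_mul, mul_add, hp, hq]
  | monomial n r =>
    have hn : ∀ n : ℕ, c ^ n * x = x * z ^ n := by
      intro n
      induction n with
      | zero => simp
      | succ n ih => rw [pow_succ, mul_assoc, h, ← mul_assoc, ih, mul_assoc, ← pow_succ]
    rw [Polynomial.aeval_monomial, Polynomial.aeval_monomial, mul_assoc, hn, ← mul_assoc,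
      ← mul_assoc, Algebra.commutes]

omit [PartialOrder A] [StarOrderedRing A] in
lemma spec_Icc (c : A) : spectrum ℝ c ⊆ Set.Icc (-‖c‖) ‖c‖ := by
  intro s hs
  rcases subsingleton_or_nontrivial A with hA | hA
  · exact absurd (spectrum.mem_iff.mp hs) (by
      rw [not_not]
      exact isUnit_of_subsingleton _)
  · have := spectrum.norm_le_norm_of_mem hs
    rw [Real.norm_eq_abs] at this
    exact abs_le.mp this

omit [PartialOrder A] [StarOrderedRing A] in
lemma cfc_intertwine (f : ℝ → ℝ) (c z x : A) (hc : IsSelfAdjoint c) (hz : IsSelfAdjoint z)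
    (R : ℝ) (hcR : spectrum ℝ c ⊆ Set.Icc (-R) R) (hzR : spectrum ℝ z ⊆ Set.Icc (-R) R)
    (hf : ContinuousOn f (Set.Icc (-R) R)) (h : c * x = x * z) :
    cfc f c * x = x * cfc f z := by
  have key : ∀ ε : ℝ, 0 < ε → ‖cfc f c * x - x * cfc f z‖ ≤ ε * (2 * ‖x‖) := by
    intro ε hε
    obtain ⟨P, hP⟩ := exists_polynomial_near_of_continuousOn (-R) R f hf ε hε
    have h1 : cfc (fun s => P.eval s) c = Polynomial.aeval c P := cfc_polynomial P c
    have h2 : cfc (fun s => P.eval s) z = Polynomial.aeval z P := cfc_polynomial P z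
    have hPc : ∀ S : Set ℝ, ContinuousOn (fun s => P.eval s) S := fun S => P.continuous.continuousOn
    have e1 : ‖cfc f c - cfc (fun s => P.eval s) c‖ ≤ ε := by
      rw [← cfc_sub f (fun s => P.eval s) c (hf.mono hcR) (hPc _)]
      refine norm_cfc_le hε.le fun s hs => ?_
      have := hP s (hcR hs)
      rw [Real.norm_eq_abs, abs_sub_comm]
      exact this.le
    have e2 : ‖cfc f z - cfc (fun s => P.eval s) z‖ ≤ ε := by
      rw [← cfc_sub f (fun s => P.eval s) z (hf.mono hzR) (hPc _)]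
      refine norm_cfc_le hε.le fun s hs => ?_
      have := hP s (hzR hs)
      rw [Real.norm_eq_abs, abs_sub_comm]
      exact this.le
    have e3 : cfc f c * x - x * cfc f z
        = (cfc f c - cfc (fun s => P.eval s) c) * x - x * (cfc f z - cfc (fun s => P.eval s) z) := by
      rw [sub_mul, mul_sub, h1, h2, aeval_intertwine P c z x h]
      abel
    rw [e3]
    calc _ ≤ ‖(cfc f c - cfc (fun s => P.eval s) c) * x‖
          + ‖x * (cfc f z - cfc (fun s => P.eval s) z)‖ := norm_sub_le _ _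
      _ ≤ ‖cfc f c - cfc (fun s => P.eval s) c‖ * ‖x‖
          + ‖x‖ * ‖cfc f z - cfc (fun s => P.eval s) z‖ :=
        add_le_add (norm_mul_le _ _) (norm_mul_le _ _)
      _ ≤ ε * ‖x‖ + ‖x‖ * ε :=
        add_le_add (mul_le_mul_of_nonneg_right e1 (norm_nonneg _))
          (mul_le_mul_of_nonneg_left e2 (norm_nonneg _))
      _ = ε * (2 * ‖x‖) := by ring
  have : ‖cfc f c * x - x * cfc f z‖ ≤ 0 := by
    refine le_of_forall_pos_le_add fun δ hδ => ?_
    have hpos : 0 < 2 * ‖x‖ + 1 := by positivity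
    have := key (δ / (2 * ‖x‖ + 1)) (by positivity)
    have h2 : δ / (2 * ‖x‖ + 1) * (2 * ‖x‖) ≤ δ := by
      rw [div_mul_eq_mul_div, div_le_iff₀ hpos]
      nlinarith [norm_nonneg x]
    linarith
  exact sub_eq_zero.mp (norm_le_zero_iff.mp this)

omit [PartialOrder A] [StarOrderedRing A] in
lemma cfc_tw (f : ℝ → ℝ) (hf : Continuous f) (c z x : A) (hc : IsSelfAdjoint c)
    (hz : IsSelfAdjoint z) (h : c * x = x * z) : cfc f c * x = x * cfc f z := by
  refine cfc_intertwine f c z x hc hz (max ‖c‖ ‖z‖) ?_ ?_ hf.continuousOn h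
  · refine (spec_Icc c).trans (Set.Icc_subset_Icc ?_ (le_max_left _ _))
    exact neg_le_neg (le_max_left _ _)
  · refine (spec_Icc z).trans (Set.Icc_subset_Icc ?_ (le_max_right _ _))
    exact neg_le_neg (le_max_right _ _)

omit [PartialOrder A] [StarOrderedRing A] in
lemma cfc_proj (f : ℝ → ℝ) (hf : Continuous f) (hf0 : f 0 = 0) (c G : A)
    (hc : IsSelfAdjoint c) (hG : IsSelfAdjoint G) (h : c * G = c) :
    cfc f c * G = cfc f c ∧ G * cfc f c = cfc f c := by
  have h1 : cfc f c * (1 - G) = (1 - G) * cfc f (0 : A) :=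
    cfc_tw f hf c 0 (1 - G) hc (IsSelfAdjoint.zero A) (by rw [mul_sub, h, mul_one, sub_self, mul_zero])
  rw [cfc_apply_zero, hf0, map_zero, mul_zero, mul_sub, mul_one] at h1
  have h2 : cfc f c * G = cfc f c := (sub_eq_zero.mp h1).symm
  refine ⟨h2, ?_⟩
  have h3 := congrArg star h2
  rw [star_mul, hG.star_eq, (cfc_predicate f c : IsSelfAdjoint (cfc f c)).star_eq] at h3
  exact h3

lemma pow_split {r : ℝ} (hr : 1 < r) (c : A) (hc : 0 ≤ c) :
    cfc (fun s : ℝ => s ^ r) c = cfc (fun s : ℝ => s ^ (r - 1)) c * c := by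
  have hsa : IsSelfAdjoint c := IsSelfAdjoint.of_nonneg hc
  have h1 : cfc (fun s : ℝ => s ^ r) c = cfc (fun s : ℝ => s ^ (r - 1) * s) c :=
    cfc_congr fun s hs => (rpow_sub_one_mul hr (spectrum_nonneg_of_nonneg hc hs)).symm
  rw [h1, cfc_mul (fun s : ℝ => s ^ (r - 1)) (fun s : ℝ => s) c
    (Real.continuous_rpow_const (by linarith)).continuousOn continuousOn_id, cfc_id' ℝ c]

/-- the compression inequality -/
lemma compress (T : TrFun A) {p q e lam : ℝ} (hp : 1 < p) (hpq : p < q) (he : 0 < e)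
    (hl : 0 < lam) (X G : A) (hX : 0 ≤ X) (hG : IsStarProjection G) (hXG : X * G = X) :
    T.pw p X ≤ e * lam ^ p * T.t G + e ^ ((p - q) / p) * (lam ^ (p - q) * T.pw q X) := by
  have hXs : IsSelfAdjoint X := IsSelfAdjoint.of_nonneg hX
  have hcp : Continuous fun s : ℝ => s ^ p := Real.continuous_rpow_const (by linarith)
  have hcq : Continuous fun s : ℝ => s ^ q := Real.continuous_rpow_const (by linarith)
  have hpos : 0 ≤ cfc (fun s : ℝ => (e * lam ^ p
      + (e ^ ((p - q) / p) * lam ^ (p - q)) * s ^ q) - s ^ p) X := by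
    refine cfc_nonneg fun s hs => ?_
    have := sc2 hp hpq he hl (spectrum_nonneg_of_nonneg hX hs)
    nlinarith [this]
  have hexp : cfc (fun s : ℝ => (e * lam ^ p
      + (e ^ ((p - q) / p) * lam ^ (p - q)) * s ^ q) - s ^ p) X
      = (e * lam ^ p) • (1 : A) + (e ^ ((p - q) / p) * lam ^ (p - q)) • cfc (fun s : ℝ => s ^ q) X
        - cfc (fun s : ℝ => s ^ p) X := by
    rw [cfc_sub (fun s : ℝ => e * lam ^ p + (e ^ ((p - q) / p) * lam ^ (p - q)) * s ^ q)
      (fun s : ℝ => s ^ p) X (by fun_prop) (by fun_prop),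
      cfc_add X (fun _ : ℝ => e * lam ^ p)
        (fun s : ℝ => (e ^ ((p - q) / p) * lam ^ (p - q)) * s ^ q) (by fun_prop) (by fun_prop),
      cfc_const_mul _ (fun s : ℝ => s ^ q) X (by fun_prop), cfc_const _ X hXs,
      Algebra.algebraMap_eq_smul_one]
  have hP := (cfc_proj (fun s : ℝ => s ^ p) hcp (by simp [show p ≠ 0 by linarith]) X G hXs
    hG.isSelfAdjoint hXG)
  have hQ := (cfc_proj (fun s : ℝ => s ^ q) hcq (by simp [show q ≠ 0 by linarith]) X G hXs
    hG.isSelfAdjoint hXG)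
  have hconj : 0 ≤ G * cfc (fun s : ℝ => (e * lam ^ p
      + (e ^ ((p - q) / p) * lam ^ (p - q)) * s ^ q) - s ^ p) X * G := by
    have := star_left_conjugate_nonneg hpos G
    rwa [hG.isSelfAdjoint.star_eq] at this
  rw [hexp, mul_sub, mul_add, sub_mul, add_mul, hP.2, hP.1] at hconj
  rw [mul_smul_comm, mul_one, smul_mul_assoc, hG.isIdempotentElem.eq, mul_smul_comm,
    smul_mul_assoc, hQ.2, hQ.1] at hconj
  have ht := T.nonneg _ hconj
  rw [map_sub, map_add, map_smul, map_smul, smul_eq_mul, smul_eq_mul] at ht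
  unfold TrFun.pw
  linarith

/-- the conditional expectation step -/
lemma cond_step (h3 : T_Ecfc.{u}) (T : TrFun A) (F : Filt T) (N : ℕ) (φ : ℕ → A) (A0 C : A)
    (f : ℝ → ℝ) (hf : Continuous f) (hf0 : f 0 = 0)
    (hφ : ∀ n, IsStarProjection (φ n)) (hort : ∀ m n, m ≠ n → φ m * φ n = 0)
    (hmem : ∀ n, F.E (n + 1) (φ n) = φ n) (hA0 : 0 ≤ A0)
    (hC : C = ∑ n ∈ range N, φ n * F.E (n + 1) A0 * φ n)
    (hCs : IsSelfAdjoint C) (hCG : C * (∑ n ∈ range N, φ n) = C) :
    T.t (cfc f C * C) = T.t (cfc f C * A0) := by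
  have hG : IsSelfAdjoint (∑ n ∈ range N, φ n) := by
    unfold IsSelfAdjoint
    rw [star_sum]
    exact Finset.sum_congr rfl fun n _ => (hφ n).isSelfAdjoint.star_eq
  have hfG := (cfc_proj f hf hf0 C _ hCs hG hCG).1
  have hright : ∀ n ∈ range N, C * φ n = φ n * F.E (n + 1) A0 * φ n := by
    intro n hn
    rw [hC, Finset.sum_mul, Finset.sum_eq_single n]
    · rw [mul_assoc, (hφ n).isIdempotentElem.eq]
    · intro m _ hmn
      rw [mul_assoc, hort m n hmn, mul_zero]
    · intro h; exact absurd hn h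
  have hleft : ∀ n ∈ range N, φ n * C = φ n * F.E (n + 1) A0 * φ n := by
    intro n hn
    rw [hC, Finset.mul_sum, Finset.sum_eq_single n]
    · rw [← mul_assoc, ← mul_assoc, (hφ n).isIdempotentElem.eq]
    · intro m _ hmn
      rw [← mul_assoc, ← mul_assoc, hort n m (Ne.symm hmn), zero_mul, zero_mul]
    · intro h; exact absurd hn h
  have hterm : ∀ n ∈ range N,
      T.t (cfc f C * (φ n * F.E (n + 1) A0 * φ n)) = T.t (cfc f C * φ n * A0) := by
    intro n hn
    have hid := (hφ n).isIdempotentElem.eq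
    have hcomm : cfc f C * φ n = φ n * cfc f C :=
      cfc_tw f hf C C (φ n) hCs hCs (by rw [hright n hn, hleft n hn])
    have hes : IsSelfAdjoint (F.E (n + 1) A0) := IsSelfAdjoint.of_nonneg (F.E_nonneg _ _ hA0)
    have hBs : IsSelfAdjoint (φ n * F.E (n + 1) A0 * φ n) := by
      have := hes.conjugate (φ n)
      rwa [(hφ n).isSelfAdjoint.star_eq] at this
    have hemem : F.E (n + 1) (F.E (n + 1) A0) = F.E (n + 1) A0 := F.E_tower _ _ _ le_rfl
    have hBmem : F.E (n + 1) (φ n * F.E (n + 1) A0 * φ n) = φ n * F.E (n + 1) A0 * φ n := by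
      rw [F.E_mul_right _ _ _ (hmem n), F.E_mul_left _ _ _ (hmem n), hemem]
    have hB : cfc f C * φ n = φ n * cfc f (φ n * F.E (n + 1) A0 * φ n) := by
      refine cfc_tw f hf C _ (φ n) hCs hBs ?_
      rw [hright n hn, ← mul_assoc, ← mul_assoc, hid]
    have hD : F.E (n + 1) (cfc f C * φ n) = cfc f C * φ n := by
      rw [hB, F.E_mul_left _ _ _ (hmem n),
        h3 A T F (n + 1) _ f hBs hBmem hf.continuousOn]
    calc T.t (cfc f C * (φ n * F.E (n + 1) A0 * φ n))
        = T.t (cfc f C * φ n * F.E (n + 1) A0 * φ n) := by simp only [mul_assoc]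
      _ = T.t (φ n * (cfc f C * φ n * F.E (n + 1) A0)) := T.comm _ _
      _ = T.t (cfc f C * φ n * F.E (n + 1) A0) := by
          congr 1
          calc φ n * (cfc f C * φ n * F.E (n + 1) A0)
              = (φ n * cfc f C) * φ n * F.E (n + 1) A0 := by simp only [mul_assoc]
            _ = cfc f C * (φ n * φ n) * F.E (n + 1) A0 := by rw [← hcomm]; simp only [mul_assoc]
            _ = cfc f C * φ n * F.E (n + 1) A0 := by rw [hid]
      _ = T.t (F.E (n + 1) (cfc f C * φ n * A0)) := by rw [F.E_mul_left _ _ _ hD]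
      _ = T.t (cfc f C * φ n * A0) := F.E_tr _ _
  calc T.t (cfc f C * C)
      = T.t (∑ n ∈ range N, cfc f C * (φ n * F.E (n + 1) A0 * φ n)) := by
        rw [← Finset.mul_sum, ← hC]
    _ = ∑ n ∈ range N, T.t (cfc f C * (φ n * F.E (n + 1) A0 * φ n)) := map_sum _ _ _
    _ = ∑ n ∈ range N, T.t (cfc f C * φ n * A0) := Finset.sum_congr rfl hterm
    _ = T.t ((cfc f C * ∑ n ∈ range N, φ n) * A0) := by
        rw [Finset.mul_sum, Finset.sum_mul, map_sum]
    _ = T.t (cfc f C * A0) := by rw [hfG]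

/-- absolute value split -/
lemma nrm_split {p : ℝ} (hp : 1 < p) (h2 : T_monoC.{u}) (h4 : T_nrm.{u}) (T : TrFun A)
    (J C : A) (hJ : IsSelfAdjoint J) (hC : 0 ≤ C) (h : J ≤ C) (h' : -C ≤ J) :
    T.nrm p J ≤ 2 * T.pw p C := by
  obtain ⟨K, _, hK⟩ := h4 p (by linarith)
  have h7 := (hK A T).2.2.2.2.2.2 J hJ
  have hh : Continuous fun s : ℝ => (max s 0) ^ p :=
    (Real.continuous_rpow_const (by linarith)).comp (by fun_prop)
  have hh' : Continuous fun s : ℝ => p * (max s 0) ^ (p - 1) :=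
    continuous_const.mul ((Real.continuous_rpow_const (by linarith)).comp (by fun_prop))
  have hCs : IsSelfAdjoint C := IsSelfAdjoint.of_nonneg hC
  have hcc : cfc (fun s : ℝ => (max s 0) ^ p) C = cfc (fun s : ℝ => s ^ p) C :=
    cfc_congr fun s hs => by
      simp only [max_eq_left (spectrum_nonneg_of_nonneg hC hs)]
  have m1 := h2 A T (fun s : ℝ => (max s 0) ^ p) (fun s : ℝ => p * (max s 0) ^ (p - 1)) J C hJ hCs h
    hh hh' (fun t => mul_nonneg (by linarith) (Real.rpow_nonneg (le_max_right _ _) _))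
    (fun s t => sc3 hp s t)
  have m2 := h2 A T (fun s : ℝ => (max s 0) ^ p) (fun s : ℝ => p * (max s 0) ^ (p - 1)) (-J) C
    hJ.neg hCs (neg_le.mp h')
    hh hh' (fun t => mul_nonneg (by linarith) (Real.rpow_nonneg (le_max_right _ _) _))
    (fun s t => sc3 hp s t)
  have hsum : cfc (fun s : ℝ => |s| ^ p) J
      = cfc (fun s : ℝ => (max s 0) ^ p) J + cfc (fun s : ℝ => (max s 0) ^ p) (-J) := by
    rw [← cfc_comp_neg (fun s : ℝ => (max s 0) ^ p) J hh.continuousOn hJ,
      ← cfc_add J (fun s : ℝ => (max s 0) ^ p) (fun s : ℝ => (max (-s) 0) ^ p)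
        hh.continuousOn (hh.comp continuous_neg).continuousOn]
    refine cfc_congr fun s _ => ?_
    have hp0 : p ≠ 0 := by linarith
    rcases le_total 0 s with hs | hs
    · simp only [abs_of_nonneg hs, max_eq_left hs, max_eq_right (neg_nonpos.mpr hs),
        Real.zero_rpow hp0, add_zero]
    · simp only [abs_of_nonpos hs, max_eq_right hs, max_eq_left (neg_nonneg.mpr hs),
        Real.zero_rpow hp0, zero_add]
  rw [h7, hsum, map_add]
  rw [hcc] at m1 m2
  unfold TrFun.pw
  linarith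

/-- the power of the compressed middle part -/
lemma mid_part (h1 : T_young.{u}) {q lam : ℝ} (hq : 1 < q) (hl : 0 < lam) (T : TrFun A)
    (A0 A1 G : A) (hA0 : 0 ≤ A0) (hA1 : A1 = cfc (fun s : ℝ => min s lam) A0)
    (hG : IsStarProjection G) (hX : 0 ≤ G * A1 * G) :
    T.pw q (G * A1 * G) ≤ 2 ^ q * T.t (cfc (fun s : ℝ => (min s lam) ^ q) A0) := by
  set X := G * A1 * G with hXdef
  have hXs : IsSelfAdjoint X := IsSelfAdjoint.of_nonneg hX
  have hid := hG.isIdempotentElem.eq
  have hXG : X * G = X := by rw [hXdef, mul_assoc, hid]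
  have hc1 : Continuous fun s : ℝ => s ^ (q - 1) := Real.continuous_rpow_const (by linarith)
  have hcq : Continuous fun s : ℝ => s ^ q := Real.continuous_rpow_const (by linarith)
  have hcm : Continuous fun s : ℝ => min s lam := by fun_prop
  have hcmq : Continuous fun s : ℝ => (min s lam) ^ q := hcq.comp hcm
  obtain ⟨e1, e2⟩ := cfc_proj (fun s : ℝ => s ^ (q - 1)) hc1
    (by simp [show q - 1 ≠ 0 by linarith]) X G hXs hG.isSelfAdjoint hXG
  have hA : T.t (cfc (fun s : ℝ => s ^ (q - 1)) X * X)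
      = T.t (cfc (fun s : ℝ => s ^ (q - 1)) X * A1) := by
    set D := cfc (fun s : ℝ => s ^ (q - 1)) X
    calc T.t (D * X) = T.t (D * G * A1 * G) := by rw [hXdef]; simp only [mul_assoc]
      _ = T.t (G * (D * G * A1)) := T.comm _ _
      _ = T.t ((G * D) * G * A1) := by simp only [mul_assoc]
      _ = T.t (D * A1) := by rw [e2, e1]
  have hY := h1 A T (fun s : ℝ => s ^ (q - 1)) (fun s : ℝ => min s lam)
    (fun s : ℝ => 1 / 2 * s ^ q) (fun s : ℝ => 2 ^ (q - 1) * (min s lam) ^ q) X A0 hX hA0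
    hc1.continuousOn hcm.continuousOn (continuous_const.mul hcq).continuousOn
    (continuous_const.mul hcmq).continuousOn
    (fun s hs t ht => sc1 hq (by norm_num) hs (le_min ht hl.le))
  rw [cfc_const_mul _ (fun s : ℝ => s ^ q) X hcq.continuousOn,
    cfc_const_mul _ (fun s : ℝ => (min s lam) ^ q) A0 hcmq.continuousOn, map_smul, map_smul,
    smul_eq_mul, smul_eq_mul, ← hA1, ← hA, ← pow_split hq X hX] at hY
  have h2q : (2 : ℝ) ^ q = 2 * 2 ^ (q - 1) := by
    rw [← rpow_sub_one_mul hq (by norm_num : (0 : ℝ) ≤ 2)]; ring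
  unfold TrFun.pw
  rw [h2q]
  linarith

end cstar

end MDB_JUMP

open MDB_JUMP in
theorem p_jump (h1 : T_young.{u}) (h2 : T_monoC.{u}) (h3 : T_Ecfc.{u}) (h4 : T_nrm.{u})
    (_h5 : T_mono.{u}) : T_jump.{u} := by
  intro p q hp hpq ε hε
  set κ : ℝ := 4 ^ (p - 1) with hκ
  have hκ0 : 0 < κ := Real.rpow_pos_of_pos (by norm_num) _
  set e : ℝ := ε / (4 * κ) with he
  have he0 : 0 < e := by positivity
  set K' : ℝ := e ^ ((p - q) / p) with hK'
  have hK'0 : 0 < K' := Real.rpow_pos_of_pos he0 _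
  have h2q : (0 : ℝ) < 2 ^ q := Real.rpow_pos_of_pos (by norm_num) _
  refine ⟨4 * κ * (1 + K' * 2 ^ q), by positivity, ?_⟩
  intro A _ _ _ T F N φ a A0 lam hl hφ hort hmem hA0 hasa _ hle hge
  have hq : 1 < q := by linarith
  -- basic objects
  set C : A := ∑ n ∈ range N, φ n * F.E (n + 1) A0 * φ n with hC
  set G : A := ∑ n ∈ range N, φ n with hG
  have hen : ∀ n, 0 ≤ F.E (n + 1) A0 := fun n => F.E_nonneg _ _ hA0
  have hconj : ∀ n (x y : A), x ≤ y → φ n * x * φ n ≤ φ n * y * φ n := by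
    intro n x y hxy
    have := star_left_conjugate_le_conjugate hxy (φ n)
    rwa [(hφ n).isSelfAdjoint.star_eq] at this
  have hC0 : 0 ≤ C := by
    refine Finset.sum_nonneg fun n _ => ?_
    have := hconj n _ _ (hen n)
    rwa [mul_zero, zero_mul] at this
  have hCs : IsSelfAdjoint C := IsSelfAdjoint.of_nonneg hC0
  have hGs : IsSelfAdjoint G := by
    unfold IsSelfAdjoint
    rw [hG, star_sum]
    exact Finset.sum_congr rfl fun n _ => (hφ n).isSelfAdjoint.star_eq
  have hφG : ∀ n ∈ range N, φ n * G = φ n := by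
    intro n hn
    rw [hG, Finset.mul_sum, Finset.sum_eq_single n]
    · exact (hφ n).isIdempotentElem.eq
    · intro m _ hmn
      exact hort n m (Ne.symm hmn)
    · intro h; exact absurd hn h
  have hGG : G * G = G := by
    conv_lhs => rw [hG, Finset.sum_mul]
    rw [Finset.sum_congr rfl hφG]
  have hGp : IsStarProjection G := ⟨hGG, hGs⟩
  have hCG : C * G = C := by
    rw [hC, Finset.sum_mul]
    exact Finset.sum_congr rfl fun n hn => by rw [mul_assoc, hφG n hn]
  -- the operator J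
  have hJle : ∑ n ∈ range N, φ n * a n * φ n ≤ C :=
    Finset.sum_le_sum fun n hn => hconj n _ _ (hle n (Finset.mem_range.mp hn))
  have hJge : -C ≤ ∑ n ∈ range N, φ n * a n * φ n := by
    rw [hC, ← Finset.sum_neg_distrib]
    refine Finset.sum_le_sum fun n hn => ?_
    have := hconj n _ _ (hge n (Finset.mem_range.mp hn))
    rwa [mul_neg, neg_mul] at this
  have hJs : IsSelfAdjoint (∑ n ∈ range N, φ n * a n * φ n) := by
    unfold IsSelfAdjoint
    rw [star_sum]
    refine Finset.sum_congr rfl fun n hn => ?_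
    have := (hasa n (Finset.mem_range.mp hn)).conjugate (φ n)
    rw [(hφ n).isSelfAdjoint.star_eq] at this
    exact this.star_eq
  have hmain := nrm_split hp h2 h4 T _ C hJs hC0 hJle hJge
  -- the two parts of A0
  have hc1 : Continuous fun s : ℝ => s ^ (p - 1) := Real.continuous_rpow_const (by linarith)
  have hcp : Continuous fun s : ℝ => s ^ p := Real.continuous_rpow_const (by linarith)
  have hcm : Continuous fun s : ℝ => min s lam := by fun_prop
  have hcM : Continuous fun s : ℝ => max (s - lam) 0 := by fun_prop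
  have hcMp : Continuous fun s : ℝ => (max (s - lam) 0) ^ p := hcp.comp hcM
  set D : A := cfc (fun s : ℝ => s ^ (p - 1)) C with hD
  obtain ⟨hDG, hGD⟩ := cfc_proj (fun s : ℝ => s ^ (p - 1)) hc1
    (by simp [show p - 1 ≠ 0 by linarith]) C G hCs hGs hCG
  have hA0s : IsSelfAdjoint A0 := IsSelfAdjoint.of_nonneg hA0
  set A1 : A := cfc (fun s : ℝ => min s lam) A0 with hA1
  set A2 : A := cfc (fun s : ℝ => max (s - lam) 0) A0 with hA2
  have hsplit : A0 = A1 + A2 := by
    rw [hA1, hA2, ← cfc_add A0 (fun s : ℝ => min s lam) (fun s : ℝ => max (s - lam) 0)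
      hcm.continuousOn hcM.continuousOn]
    conv_lhs => rw [← cfc_id' ℝ A0 hA0s]
    refine cfc_congr fun s _ => ?_
    rcases le_total s lam with h | h
    · rw [min_eq_left h, max_eq_right (by linarith), add_zero]
    · rw [min_eq_right h, max_eq_left (by linarith)]; ring
  have hstep := cond_step h3 T F N φ A0 C (fun s : ℝ => s ^ (p - 1)) hc1
    (by simp [show p - 1 ≠ 0 by linarith]) hφ hort hmem hA0 hC hCs hCG
  have hA1nn : 0 ≤ A1 := by
    rw [hA1]
    exact cfc_nonneg fun s hs => le_min (spectrum_nonneg_of_nonneg hA0 hs) hl.le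
  have hX : 0 ≤ G * A1 * G := by
    have := star_left_conjugate_nonneg hA1nn G
    rwa [hGs.star_eq] at this
  have hDA1 : T.t (D * A1) = T.t (D * (G * A1 * G)) := by
    symm
    calc T.t (D * (G * A1 * G)) = T.t ((D * G * A1) * G) := by simp only [mul_assoc]
      _ = T.t (G * (D * G * A1)) := T.comm _ _
      _ = T.t ((G * D) * G * A1) := by simp only [mul_assoc]
      _ = T.t (D * A1) := by rw [hGD, hDG]
  -- Young for the two parts
  have hY2 := h1 A T (fun s : ℝ => s ^ (p - 1)) (fun s : ℝ => max (s - lam) 0)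
    (fun s : ℝ => 1 / 4 * s ^ p) (fun s : ℝ => κ * (max (s - lam) 0) ^ p) C A0 hC0 hA0
    hc1.continuousOn hcM.continuousOn (continuous_const.mul hcp).continuousOn
    (continuous_const.mul hcMp).continuousOn
    (fun s hs t _ => sc1 hp (by norm_num) hs (le_max_right _ _))
  have hY1 := h1 A T (fun s : ℝ => s ^ (p - 1)) (fun s : ℝ => s)
    (fun s : ℝ => 1 / 4 * s ^ p) (fun s : ℝ => κ * s ^ p) C (G * A1 * G) hC0 hX
    hc1.continuousOn continuousOn_id (continuous_const.mul hcp).continuousOn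
    (continuous_const.mul hcp).continuousOn
    (fun s hs t ht => sc1 hp (by norm_num) hs ht)
  rw [cfc_const_mul _ (fun s : ℝ => s ^ p) C hcp.continuousOn,
    cfc_const_mul _ (fun s : ℝ => (max (s - lam) 0) ^ p) A0 hcMp.continuousOn, map_smul, map_smul,
    smul_eq_mul, smul_eq_mul] at hY2
  rw [cfc_const_mul _ (fun s : ℝ => s ^ p) C hcp.continuousOn,
    cfc_const_mul _ (fun s : ℝ => s ^ p) (G * A1 * G) hcp.continuousOn, map_smul, map_smul,
    smul_eq_mul, smul_eq_mul, cfc_id' ℝ (G * A1 * G) (IsSelfAdjoint.of_nonneg hX)] at hY1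
  have hpC : T.pw p C = T.t (D * A1) + T.t (D * A2) := by
    unfold TrFun.pw
    rw [pow_split hp C hC0, hstep]
    conv_lhs => rw [hsplit]
    rw [mul_add, map_add]
  have hcomp := compress T hp hpq he0 hl (G * A1 * G) G hX hGp (by rw [mul_assoc, hGG])
  have hmid := mid_part h1 hq hl T A0 A1 G hA0 hA1 hGp hX
  -- nonnegativity of the final terms
  have n1 : 0 ≤ T.t (cfc (fun s : ℝ => (min s lam) ^ q) A0) :=
    T.nonneg _ (cfc_nonneg fun s hs =>
      Real.rpow_nonneg (le_min (spectrum_nonneg_of_nonneg hA0 hs) hl.le) _)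
  have n2 : 0 ≤ T.t (cfc (fun s : ℝ => (max (s - lam) 0) ^ p) A0) :=
    T.nonneg _ (cfc_nonneg fun s _ => Real.rpow_nonneg (le_max_right _ _) _)
  have hlpq : 0 < lam ^ (p - q) := Real.rpow_pos_of_pos hl _
  have hXp : T.pw p (G * A1 * G) ≤ e * lam ^ p * T.t G
      + K' * (lam ^ (p - q) * (2 ^ q * T.t (cfc (fun s : ℝ => (min s lam) ^ q) A0))) := by
    refine hcomp.trans (add_le_add le_rfl ?_)
    exact mul_le_mul_of_nonneg_left (mul_le_mul_of_nonneg_left hmid hlpq.le) hK'0.le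
  rw [hDA1] at hpC
  have hpC2 : T.pw p C ≤ 2 * κ * (T.pw p (G * A1 * G)
      + T.t (cfc (fun s : ℝ => (max (s - lam) 0) ^ p) A0)) := by
    have e1 : T.pw p C = T.t (cfc (fun s : ℝ => s ^ p) C) := rfl
    have e2 : T.pw p (G * A1 * G) = T.t (cfc (fun s : ℝ => s ^ p) (G * A1 * G)) := rfl
    rw [e2]
    rw [← e1] at hY1 hY2
    linarith
  have hfin : T.nrm p (∑ n ∈ range N, φ n * a n * φ n) ≤ 4 * κ * (T.pw p (G * A1 * G)
      + T.t (cfc (fun s : ℝ => (max (s - lam) 0) ^ p) A0)) := by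
    linarith
  have h4κ : 0 < 4 * κ := by positivity
  have hstep2 : 4 * κ * (T.pw p (G * A1 * G)
      + T.t (cfc (fun s : ℝ => (max (s - lam) 0) ^ p) A0))
      ≤ 4 * κ * (e * lam ^ p * T.t G
      + K' * (lam ^ (p - q) * (2 ^ q * T.t (cfc (fun s : ℝ => (min s lam) ^ q) A0)))
      + T.t (cfc (fun s : ℝ => (max (s - lam) 0) ^ p) A0)) :=
    mul_le_mul_of_nonneg_left (add_le_add hXp le_rfl) h4κ.le
  have heq : 4 * κ * e = ε := by rw [he]; field_simp
  have n3 : 0 ≤ lam ^ (p - q) * T.t (cfc (fun s : ℝ => (min s lam) ^ q) A0) :=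
    mul_nonneg hlpq.le n1
  set u1 := T.t (cfc (fun s : ℝ => (min s lam) ^ q) A0)
  set u2 := T.t (cfc (fun s : ℝ => (max (s - lam) 0) ^ p) A0)
  have expand : 4 * κ * (e * lam ^ p * T.t G + K' * (lam ^ (p - q) * (2 ^ q * u1)) + u2)
      = ε * lam ^ p * T.t G + 4 * κ * (K' * 2 ^ q) * (lam ^ (p - q) * u1) + 4 * κ * u2 := by
    rw [← heq]; ring
  have final : 4 * κ * (K' * 2 ^ q) * (lam ^ (p - q) * u1) + 4 * κ * u2
      ≤ 4 * κ * (1 + K' * 2 ^ q) * (lam ^ (p - q) * u1 + u2) := by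
    have a1 : 0 ≤ 4 * κ * (lam ^ (p - q) * u1) := mul_nonneg h4κ.le n3
    have a2 : 0 ≤ 4 * κ * (K' * 2 ^ q) * u2 := mul_nonneg (by positivity) n2
    nlinarith [a1, a2]
  linarith

end MDB
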