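import Pool.Agent.MDB.Targets

/-!
# Klein inequality, Young type inequality and monotonicity of convex trace functions
-/

open Finset

namespace MDB

universe u

namespace MDB_KLEIN

variable {A : Type u} [CStarAlgebra A] [PartialOrder A] [StarOrderedRing A]

/-- The trace of a product of two positive elements is nonnegative. -/
theorem tr_mul_nonneg (T : TrFun A) {c d : A} (hc : 0 ≤ c) (hd : 0 ≤ d) : 0 ≤ T.t (c * d) := by
  obtain ⟨s, hs, hss⟩ : ∃ s : A, IsSelfAdjoint s ∧ s * s = d := by
    refine ⟨CFC.sqrt d, (CFC.sqrt_nonneg d).isSelfAdjoint, CFC.sqrt_mul_sqrt_self d hd⟩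
  have h1 : T.t (c * d) = T.t (s * c * s) := by
    rw [← hss, ← mul_assoc, T.comm (c * s) s, mul_assoc]
  rw [h1]
  apply T.nonneg
  have h2 : s * c * s = star s * c * s := by rw [hs.star_eq]
  rw [h2]
  exact star_left_conjugate_nonneg hc s

/-- The real spectrum lies in a symmetric interval. -/
theorem spec_sub (a : A) (M : ℝ) (hM : ‖a‖ * ‖(1 : A)‖ ≤ M) :
    spectrum ℝ a ⊆ Set.Icc (-M) M := by
  intro x hx
  have h1 : ‖x‖ ≤ ‖a‖ * ‖(1 : A)‖ := spectrum.norm_le_norm_mul_of_mem hx
  have h2 : |x| ≤ M := by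
    rw [← Real.norm_eq_abs]
    exact h1.trans hM
  exact abs_le.mp h2

/-- The real spectrum of a positive element. -/
theorem spec_sub_pos (a : A) (ha : 0 ≤ a) :
    spectrum ℝ a ⊆ Set.Icc 0 (‖a‖ * ‖(1 : A)‖) := by
  intro x hx
  refine ⟨spectrum_nonneg_of_nonneg ha hx, ?_⟩
  exact (spec_sub a _ le_rfl hx).2

end MDB_KLEIN

open MDB_KLEIN

theorem p_klein (h : T_two.{u}) : T_klein.{u} := by
  intro A _ _ _ T f f' a b α β ha hb hsa hsb hf hf' hineq
  have key := h A T (Fin 4) Finset.univ
    ![f, fun _ => 1, fun s => s, fun _ => 1]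
    ![fun _ => 1, fun t => - f t, fun t => - f' t, fun t => t * f' t]
    a b α β α β ha hb hsa hsb ?_ ?_ ?_
  · have hfa : ContinuousOn f (spectrum ℝ a) := hf.mono hsa
    have hfb : ContinuousOn f (spectrum ℝ b) := hf.mono hsb
    have hf'b : ContinuousOn f' (spectrum ℝ b) := hf'.mono hsb
    rw [Fin.sum_univ_four] at key
    simp only [Matrix.cons_val_zero, Matrix.cons_val_one, Matrix.cons_val] at key
    rw [cfc_neg (fun t => f t) b, cfc_neg (fun t => f' t) b,
      cfc_mul (fun t => t) (fun t => f' t) b continuousOn_id hf'b, cfc_id' ℝ a ha,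
      cfc_id' ℝ b hb, cfc_const_one ℝ b hb, cfc_const_one ℝ a ha] at key
    simp only [one_mul, mul_one, mul_neg, map_neg] at key
    have e1 : T.t ((a - b) * cfc f' b) = T.t (a * cfc f' b) - T.t (b * cfc f' b) := by
      rw [sub_mul, map_sub]
    rw [e1]
    linarith
  · intro i _
    fin_cases i
    · exact hf
    · exact continuousOn_const
    · exact continuousOn_id
    · exact continuousOn_const
  · intro i _
    fin_cases i
    · exact continuousOn_const
    · exact hf.neg
    · exact hf'.neg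
    · exact continuousOn_id.mul hf'
  · intro s hs t ht
    rw [Fin.sum_univ_four]
    simp only [Matrix.cons_val_zero, Matrix.cons_val_one, Matrix.cons_val]
    have := hineq s hs t ht
    nlinarith

theorem p_young (h : T_two.{u}) : T_young.{u} := by
  intro A _ _ _ T f g φ ψ a b ha hb hf hg hφ hψ hineq
  have hsa := spec_sub_pos a ha
  have hsb := spec_sub_pos b hb
  have sub1 : ∀ M : ℝ, Set.Icc 0 M ⊆ Set.Ici (0 : ℝ) := fun M x hx => hx.1
  have key := h A T (Fin 3) Finset.univ
    ![φ, fun _ => 1, fun s => - f s]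
    ![fun _ => 1, ψ, g]
    a b 0 (‖a‖ * ‖(1 : A)‖) 0 (‖b‖ * ‖(1 : A)‖) ha.isSelfAdjoint hb.isSelfAdjoint hsa hsb ?_ ?_ ?_
  · rw [Fin.sum_univ_three] at key
    simp only [Matrix.cons_val_zero, Matrix.cons_val_one, Matrix.cons_val] at key
    rw [cfc_neg (fun t => f t) a, cfc_const_one ℝ b hb.isSelfAdjoint,
      cfc_const_one ℝ a ha.isSelfAdjoint] at key
    simp only [one_mul, mul_one, neg_mul, map_neg] at key
    linarith
  · intro i _
    fin_cases i
    · exact hφ.mono (sub1 _)
    · exact continuousOn_const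
    · exact (hf.mono (sub1 _)).neg
  · intro i _
    fin_cases i
    · exact continuousOn_const
    · exact hψ.mono (sub1 _)
    · exact hg.mono (sub1 _)
  · intro s hs t ht
    rw [Fin.sum_univ_three]
    simp only [Matrix.cons_val_zero, Matrix.cons_val_one, Matrix.cons_val]
    have := hineq s hs.1 t ht.1
    linarith

theorem p_monoC (h : T_klein.{u}) : T_monoC.{u} := by
  intro A _ _ _ T f f' a b ha hb hab hf hf' hf'0 hineq
  have hsa := spec_sub a (max (‖a‖ * ‖(1 : A)‖) (‖b‖ * ‖(1 : A)‖)) (le_max_left _ _)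
  have hsb := spec_sub b (max (‖a‖ * ‖(1 : A)‖) (‖b‖ * ‖(1 : A)‖)) (le_max_right _ _)
  have key := h A T f f' b a _ _ hb ha hsb hsa hf.continuousOn hf'.continuousOn
    (fun s _ t _ => hineq s t)
  have h1 : 0 ≤ T.t ((b - a) * cfc f' a) :=
    tr_mul_nonneg T (sub_nonneg.mpr hab) (cfc_nonneg (fun x _ => hf'0 x))
  linarith

end MDB
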