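import Pool.Agent.MDB.Targets

/-!
# The estimate at one level (`T_level`)
-/

open Finset

namespace MDB

universe u

set_option linter.unusedSectionVars false

namespace MDB_LEVEL

/-- tangent inequality for `s ↦ (max s 0) ^ p`. -/
lemma tangent {p : ℝ} (hp : 1 < p) (s t : ℝ) :
    (s - t) * (p * (max t 0) ^ (p - 1)) ≤ (max s 0) ^ p - (max t 0) ^ p := by
  rcases le_or_gt t 0 with ht | ht
  · have h1 : max t 0 = 0 := max_eq_right ht
    rw [h1, Real.zero_rpow (by linarith), Real.zero_rpow (by linarith)]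
    have : 0 ≤ (max s 0) ^ p := Real.rpow_nonneg (le_max_right _ _) _
    simpa using this
  · have h1 : max t 0 = t := max_eq_left ht.le
    rw [h1]
    set r := max s 0 with hr
    have hr0 : 0 ≤ r := le_max_right _ _
    have hsr : s ≤ r := le_max_left _ _
    have hB : 1 + p * (r / t - 1) ≤ (1 + (r / t - 1)) ^ p :=
      one_add_mul_self_le_rpow_one_add (by
        have : 0 ≤ r / t := div_nonneg hr0 ht.le
        linarith) hp.le
    have h2 : 1 + (r / t - 1) = r / t := by ring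
    rw [h2, Real.div_rpow hr0 ht.le] at hB
    have htp : 0 < t ^ p := Real.rpow_pos_of_pos ht p
    have h3 : (1 + p * (r / t - 1)) * t ^ p ≤ r ^ p := by
      have := mul_le_mul_of_nonneg_right hB htp.le
      rwa [div_mul_cancel₀ _ htp.ne'] at this
    have h4 : t ^ p = t * t ^ (p - 1) := by
      have := Real.rpow_add ht 1 (p - 1)
      rw [Real.rpow_one] at this
      rw [← this]
      congr 1
      ring
    have h5 : (1 + p * (r / t - 1)) * t ^ p = t ^ p + (r - t) * (p * t ^ (p - 1)) := by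
      have : (1 + p * (r / t - 1)) * t ^ p = t ^ p + p * (r / t - 1) * t ^ p := by ring
      rw [this]
      congr 1
      rw [h4]
      field_simp
    rw [h5] at h3
    have h6 : 0 ≤ p * t ^ (p - 1) := by
      have := Real.rpow_nonneg ht.le (p - 1)
      positivity
    have h7 : (s - t) * (p * t ^ (p - 1)) ≤ (r - t) * (p * t ^ (p - 1)) :=
      mul_le_mul_of_nonneg_right (by linarith) h6
    linarith

lemma cont_h {p : ℝ} (hp : 0 ≤ p) : Continuous (fun s : ℝ => (max s 0) ^ p) :=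
  (continuous_id.max continuous_const).rpow_const (fun _ => Or.inr hp)

section

variable {A : Type u} [CStarAlgebra A] [PartialOrder A] [StarOrderedRing A]

lemma cfc_split {p lam : ℝ} (hp : 1 < p) (hlam : 0 < lam) (x : A) (hx : IsSelfAdjoint x) :
    cfc (fun s : ℝ => (max (|s| - lam) 0) ^ p) x
      = cfc (fun s : ℝ => (max s 0) ^ p) (x - lam • (1 : A))
        + cfc (fun s : ℝ => (max s 0) ^ p) (-x - lam • (1 : A)) := by
  have hc : Continuous (fun s : ℝ => (max s 0) ^ p) := cont_h (by linarith)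
  have e1 : x - lam • (1 : A) = cfc (fun s : ℝ => s - lam) x := by
    rw [cfc_sub (fun s : ℝ => s) (fun _ => lam) x (by fun_prop) (by fun_prop), cfc_id' ℝ x,
      cfc_const lam x, Algebra.algebraMap_eq_smul_one]
  have e2 : -x - lam • (1 : A) = cfc (fun s : ℝ => -s - lam) x := by
    rw [cfc_sub (fun s : ℝ => -s) (fun _ => lam) x (by fun_prop) (by fun_prop), cfc_neg,
      cfc_id' ℝ x, cfc_const lam x, Algebra.algebraMap_eq_smul_one]
  rw [e1, e2, ← cfc_comp' (fun s : ℝ => (max s 0) ^ p) (fun s : ℝ => s - lam) x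
      (hc.continuousOn) (by fun_prop),
    ← cfc_comp' (fun s : ℝ => (max s 0) ^ p) (fun s : ℝ => -s - lam) x
      (hc.continuousOn) (by fun_prop),
    ← cfc_add x _ _ (by exact (hc.comp (by fun_prop : Continuous fun s : ℝ => s - lam)).continuousOn)
      (by exact (hc.comp (by fun_prop : Continuous fun s : ℝ => -s - lam)).continuousOn)]
  congr 1
  funext s
  have hp0 : p ≠ 0 := by linarith
  rcases le_total 0 s with hs | hs
  · have h2 : max (-s - lam) 0 = 0 := max_eq_right (by linarith)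
    rw [abs_of_nonneg hs, h2, Real.zero_rpow hp0, add_zero]
  · have h2 : max (s - lam) 0 = 0 := max_eq_right (by linarith)
    rw [abs_of_nonpos hs, h2, Real.zero_rpow hp0, zero_add]

lemma cfc_abs_split {p : ℝ} (hp : 1 < p) (x : A) (hx : IsSelfAdjoint x) :
    cfc (fun s : ℝ => |s| ^ p) x
      = cfc (fun s : ℝ => (max s 0) ^ p) x + cfc (fun s : ℝ => (max s 0) ^ p) (-x) := by
  have hc : Continuous (fun s : ℝ => (max s 0) ^ p) := cont_h (by linarith)
  have e2 : -x = cfc (fun s : ℝ => -s) x := by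
    rw [cfc_neg, cfc_id' ℝ x]
  rw [e2, ← cfc_comp' (fun s : ℝ => (max s 0) ^ p) (fun s : ℝ => -s) x
      (hc.continuousOn) (by fun_prop),
    ← cfc_add x _ _ hc.continuousOn
      (by exact (hc.comp (by fun_prop : Continuous fun s : ℝ => -s)).continuousOn)]
  congr 1
  funext s
  have hp0 : p ≠ 0 := by linarith
  rcases le_total 0 s with hs | hs
  · have h2 : max (-s) 0 = 0 := max_eq_right (by linarith)
    rw [abs_of_nonneg hs, h2, Real.zero_rpow hp0, add_zero, max_eq_left hs]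
  · have h2 : max s 0 = 0 := max_eq_right hs
    rw [abs_of_nonpos hs, h2, Real.zero_rpow hp0, zero_add, max_eq_left (by linarith)]

/-- Step 1: the truncated power is controlled by the norm of `x - V`. -/
lemma step1 (h7 : T_monoC.{u}) (T : TrFun A) {p lam : ℝ} (hp : 1 < p) (hlam : 0 < lam)
    (x V : A) (hx : IsSelfAdjoint x) (hV : IsSelfAdjoint V) (h1 : V ≤ lam • (1 : A))
    (h2 : -(lam • (1 : A)) ≤ V) :
    T.t (cfc (fun s : ℝ => (max (|s| - lam) 0) ^ p) x)
      ≤ T.t (cfc (fun s : ℝ => |s| ^ p) (x - V)) := by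
  have hw : IsSelfAdjoint (x - V) := hx.sub hV
  have hl : IsSelfAdjoint (lam • (1 : A)) := (IsSelfAdjoint.all lam).smul (IsSelfAdjoint.one A)
  rw [cfc_split hp hlam x hx, cfc_abs_split hp (x - V) hw, map_add, map_add]
  have hc : Continuous (fun s : ℝ => (max s 0) ^ p) := cont_h (by linarith)
  have hc' : Continuous (fun s : ℝ => p * (max s 0) ^ (p - 1)) :=
    continuous_const.mul (cont_h (by linarith))
  have hpos : ∀ t : ℝ, 0 ≤ p * (max t 0) ^ (p - 1) := fun t =>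
    mul_nonneg (by linarith) (Real.rpow_nonneg (le_max_right _ _) _)
  refine add_le_add ?_ ?_
  · refine h7 A T (fun s : ℝ => (max s 0) ^ p) (fun s : ℝ => p * (max s 0) ^ (p - 1)) _ _
      (hx.sub hl) hw ?_ hc hc' hpos (fun s t => tangent hp s t)
    exact sub_le_sub_left h1 x
  · refine h7 A T (fun s : ℝ => (max s 0) ^ p) (fun s : ℝ => p * (max s 0) ^ (p - 1)) _ _
      (hx.neg.sub hl) hw.neg ?_ hc hc' hpos (fun s t => tangent hp s t)
    have h3 : -x - lam • (1 : A) = -x + -(lam • (1 : A)) := by abel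
    have h4 : -(x - V) = -x + V := by abel
    rw [h3, h4]
    exact add_le_add_right h2 (-x)

lemma nrm_zero (T : TrFun A) {p : ℝ} (hp : 0 < p) : T.nrm p (0 : A) = 0 := by
  unfold TrFun.nrm TrFun.pw
  rw [mul_zero, cfc_apply_zero, Real.zero_rpow (by linarith : p / 2 ≠ 0), map_zero, map_zero]

end

/-- finite sums -/
lemma nrm_sum {p K0 : ℝ} (hp : 0 < p) (hK0 : 0 < K0) (N : ℕ) : ∃ K : ℝ, 0 < K ∧
    ∀ (A : Type u) [CStarAlgebra A] [PartialOrder A] [StarOrderedRing A] (T : TrFun A),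
      (∀ x y : A, T.nrm p (x + y) ≤ K0 * (T.nrm p x + T.nrm p y)) →
      (∀ x : A, 0 ≤ T.nrm p x) →
      ∀ y : ℕ → A, T.nrm p (∑ n ∈ range N, y n) ≤ K * ∑ n ∈ range N, T.nrm p (y n) := by
  induction N with
  | zero =>
    refine ⟨1, one_pos, ?_⟩
    intro A _ _ _ T _ _ y
    simp [nrm_zero T hp]
  | succ N ih =>
    obtain ⟨K, hK, ih⟩ := ih
    refine ⟨K0 * (K + 1), by positivity, ?_⟩
    intro A _ _ _ T hadd hnn y
    have h1 := ih A T hadd hnn y
    rw [sum_range_succ, sum_range_succ]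
    have h2 := hadd (∑ n ∈ range N, y n) (y N)
    have h3 : 0 ≤ ∑ n ∈ range N, T.nrm p (y n) := sum_nonneg fun n _ => hnn _
    have h4 := hnn (y N)
    calc T.nrm p (∑ n ∈ range N, y n + y N)
        ≤ K0 * (T.nrm p (∑ n ∈ range N, y n) + T.nrm p (y N)) := h2
      _ ≤ K0 * (K * ∑ n ∈ range N, T.nrm p (y n) + T.nrm p (y N)) := by
          apply mul_le_mul_of_nonneg_left _ hK0.le
          linarith
      _ ≤ K0 * (K + 1) * (∑ n ∈ range N, T.nrm p (y n) + T.nrm p (y N)) := by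
          have : K * ∑ n ∈ range N, T.nrm p (y n) + T.nrm p (y N)
              ≤ (K + 1) * (∑ n ∈ range N, T.nrm p (y n) + T.nrm p (y N)) := by nlinarith
          calc _ ≤ K0 * ((K + 1) * (∑ n ∈ range N, T.nrm p (y n) + T.nrm p (y N))) :=
                mul_le_mul_of_nonneg_left this hK0.le
            _ = _ := by ring

section

variable {A : Type u} [CStarAlgebra A] [PartialOrder A] [StarOrderedRing A]

variable {T : TrFun A} {F : Filt T} {N : ℕ} {d : ℕ → A} {lam : ℝ}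

lemma star_proj_norm_le {e : A} (he : IsStarProjection e) : ‖e‖ ≤ 1 := by
  exact he.norm_le

lemma R_mul (c : Cuc F N d lam) : ∀ m n, m ≤ n → c.R n * c.R m = c.R n := by
  intro m n hmn
  induction n, hmn using Nat.le_induction with
  | base => exact (c.proj_R m).isIdempotentElem.eq
  | succ n hmn ih =>
    have hR : c.R n * c.R n = c.R n := (c.proj_R n).isIdempotentElem.eq
    have hP : c.P n * c.R n = c.P n := by
      have := congrArg star (c.RP n)
      rwa [star_mul, (c.proj_P n).isSelfAdjoint.star_eq, (c.proj_R n).isSelfAdjoint.star_eq]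
        at this
    have hQ : c.Q n * c.R n = c.Q n := by
      have := congrArg star (c.RQ n)
      rwa [star_mul, (c.proj_Q n).isSelfAdjoint.star_eq, (c.proj_R n).isSelfAdjoint.star_eq]
        at this
    have h1 : c.R (n + 1) * c.R n = c.R (n + 1) := by
      rw [c.R_succ n, sub_mul, sub_mul, hR, hP, hQ]
    calc c.R (n + 1) * c.R m = c.R (n + 1) * c.R n * c.R m := by rw [h1]
      _ = c.R (n + 1) * (c.R n * c.R m) := by rw [mul_assoc]
      _ = c.R (n + 1) := by rw [ih, h1]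

lemma R_mul' (c : Cuc F N d lam) : ∀ m n, m ≤ n → c.R m * c.R n = c.R n := by
  intro m n hmn
  have := congrArg star (R_mul c m n hmn)
  rwa [star_mul, (c.proj_R n).isSelfAdjoint.star_eq, (c.proj_R m).isSelfAdjoint.star_eq] at this

/-- the jump projections -/
noncomputable def phi (c : Cuc F N d lam) (n : ℕ) : A := c.P n + c.Q n

lemma QP (c : Cuc F N d lam) (n : ℕ) : c.Q n * c.P n = 0 := by
  have := congrArg star (c.PQ n)
  rwa [star_mul, (c.proj_P n).isSelfAdjoint.star_eq, (c.proj_Q n).isSelfAdjoint.star_eq,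
    star_zero] at this

lemma phi_proj (c : Cuc F N d lam) (n : ℕ) : IsStarProjection (phi c n) := by
  refine ⟨?_, ?_⟩
  · show (c.P n + c.Q n) * (c.P n + c.Q n) = c.P n + c.Q n
    rw [add_mul, mul_add, mul_add, c.PQ n, QP c n, (c.proj_P n).isIdempotentElem.eq,
      (c.proj_Q n).isIdempotentElem.eq]
    abel
  · exact (c.proj_P n).isSelfAdjoint.add (c.proj_Q n).isSelfAdjoint

lemma phi_eq (c : Cuc F N d lam) (n : ℕ) : phi c n = c.R n - c.R (n + 1) := by
  rw [c.R_succ n]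
  unfold phi
  abel

lemma phi_orth_lt (c : Cuc F N d lam) {m n : ℕ} (h : m < n) : phi c m * phi c n = 0 := by
  rw [phi_eq, phi_eq, sub_mul, mul_sub, mul_sub, R_mul' c m n h.le, R_mul' c m (n + 1) (by omega),
    R_mul' c (m + 1) n (by omega), R_mul' c (m + 1) (n + 1) (by omega), sub_self]

lemma phi_orth (c : Cuc F N d lam) (m n : ℕ) (h : m ≠ n) : phi c m * phi c n = 0 := by
  rcases lt_or_gt_of_ne h with h | h
  · exact phi_orth_lt c h
  · have := congrArg star (phi_orth_lt c h)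
    rwa [star_mul, (phi_proj c m).isSelfAdjoint.star_eq, (phi_proj c n).isSelfAdjoint.star_eq,
      star_zero] at this

lemma phi_mem (c : Cuc F N d lam) (n : ℕ) : F.E (n + 1) (phi c n) = phi c n := by
  unfold phi
  rw [map_add, c.mem_P, c.mem_Q]

lemma phi_sum (c : Cuc F N d lam) (n : ℕ) : ∑ k ∈ range n, phi c k = 1 - c.R n := by
  induction n with
  | zero => simp [c.R_zero]
  | succ n ih =>
    rw [sum_range_succ, ih, phi_eq]
    abel

lemma f_proj (c : Cuc F N d lam) (n : ℕ) : IsStarProjection (1 - c.R n) :=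
  (c.proj_R n).one_sub

lemma f_mono (c : Cuc F N d lam) (m n : ℕ) (h : m ≤ n) :
    (1 - c.R n) * (1 - c.R m) = 1 - c.R m := by
  rw [sub_mul, mul_sub, mul_sub, R_mul c m n h]
  simp

lemma f_mem (c : Cuc F N d lam) (n : ℕ) : F.E n (1 - c.R n) = 1 - c.R n := by
  rw [map_sub, F.E_one, c.mem_R]

end

lemma arith {K0 K1 K2 KN ε X1 X2 X3 X4 D1 D2 L Lp t0 S0 x w w1 w2 j1 j2 s1 s2 : ℝ}
    (hK0 : 0 < K0) (hK1 : 0 < K1) (hK2 : 0 < K2) (hKN : 0 < KN) (hε : 0 < ε)
    (hX1 : 0 ≤ X1) (hX2 : 0 ≤ X2) (hX3 : 0 ≤ X3) (hX4 : 0 ≤ X4) (hD1 : 0 ≤ D1) (hD2 : 0 ≤ D2)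
    (hm : L * t0 ≤ 2 * (Lp * S0)) (hx : x ≤ w) (hw : w ≤ K0 * (w1 + w2))
    (hw1 : w1 ≤ K0 * (j1 + s1)) (hw2 : w2 ≤ K0 * (j2 + s2))
    (hj1 : j1 ≤ ε / (4 * K0 ^ 2) * L * t0 + K1 * (X1 + X2))
    (hj2 : j2 ≤ ε / (4 * K0 ^ 2) * L * t0 + K2 * (X3 + X4))
    (hs1 : s1 ≤ KN * D1) (hs2 : s2 ≤ KN * (2 * K0 * D2)) :
    x ≤ ε * Lp * S0 + K0 ^ 2 * (K1 + K2) * (X1 + X2 + X3 + X4)
      + K0 ^ 2 * (KN * (1 + 2 * K0)) * (D2 + D1) := by
  have hK02 : 0 < K0 ^ 2 := by positivity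
  have hε' : 0 < ε / (4 * K0 ^ 2) := by positivity
  have e1 : ε / (4 * K0 ^ 2) * L * t0 ≤ ε / (4 * K0 ^ 2) * (2 * (Lp * S0)) := by
    rw [mul_assoc]
    exact mul_le_mul_of_nonneg_left hm hε'.le
  have e2 : ε / (4 * K0 ^ 2) * (2 * (Lp * S0)) * K0 ^ 2 * 2 = ε * Lp * S0 := by
    field_simp
    ring
  set Z := ε / (4 * K0 ^ 2) * (2 * (Lp * S0)) with hZ
  have b1 : w1 ≤ K0 * (Z + K1 * (X1 + X2) + KN * D1) :=
    hw1.trans (mul_le_mul_of_nonneg_left (by linarith) hK0.le)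
  have b2 : w2 ≤ K0 * (Z + K2 * (X3 + X4) + KN * (2 * K0 * D2)) :=
    hw2.trans (mul_le_mul_of_nonneg_left (by linarith) hK0.le)
  have b3 : w ≤ K0 * (K0 * (Z + K1 * (X1 + X2) + KN * D1)
      + K0 * (Z + K2 * (X3 + X4) + KN * (2 * K0 * D2))) :=
    hw.trans (mul_le_mul_of_nonneg_left (by linarith) hK0.le)
  have b5 : K0 * (K0 * (Z + K1 * (X1 + X2) + KN * D1)
      + K0 * (Z + K2 * (X3 + X4) + KN * (2 * K0 * D2)))
      = Z * K0 ^ 2 * 2 + K0 ^ 2 * (K1 * (X1 + X2) + K2 * (X3 + X4))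
        + K0 ^ 2 * (KN * D1 + KN * (2 * K0 * D2)) := by ring
  have b7 : K1 * (X1 + X2) + K2 * (X3 + X4) ≤ (K1 + K2) * (X1 + X2 + X3 + X4) := by
    have g1 : 0 ≤ K1 * (X3 + X4) := by positivity
    have g2 : 0 ≤ K2 * (X1 + X2) := by positivity
    have : (K1 + K2) * (X1 + X2 + X3 + X4)
        = K1 * (X1 + X2) + K2 * (X3 + X4) + K1 * (X3 + X4) + K2 * (X1 + X2) := by ring
    linarith
  have b8 : KN * D1 + KN * (2 * K0 * D2) ≤ KN * (1 + 2 * K0) * (D2 + D1) := by
    have g1 : 0 ≤ KN * D2 := by positivity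
    have g2 : 0 ≤ KN * (2 * K0 * D1) := by positivity
    have : KN * (1 + 2 * K0) * (D2 + D1)
        = KN * D1 + KN * (2 * K0 * D2) + KN * D2 + KN * (2 * K0 * D1) := by ring
    linarith
  have b9 := mul_le_mul_of_nonneg_left b7 hK02.le
  have b10 := mul_le_mul_of_nonneg_left b8 hK02.le
  have b11 : K0 ^ 2 * ((K1 + K2) * (X1 + X2 + X3 + X4))
      = K0 ^ 2 * (K1 + K2) * (X1 + X2 + X3 + X4) := by ring
  have b12 : K0 ^ 2 * (KN * (1 + 2 * K0) * (D2 + D1))
      = K0 ^ 2 * (KN * (1 + 2 * K0)) * (D2 + D1) := by ring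
  linarith

end MDB_LEVEL

open MDB_LEVEL

theorem p_level (h1 : T_cuc.{u}) (h2 : T_dec.{u}) (h3 : T_weak.{u}) (h4 : T_jump.{u})
    (h5 : T_after.{u}) (h6 : T_nrm.{u}) (h7 : T_monoC.{u}) (_h8 : T_mono.{u}) :
    T_level.{u} := by
  intro j hj ε hε
  have hq4 : (4 : ℝ) ≤ qj j := by
    unfold qj
    calc (4 : ℝ) = 2 ^ 2 := by norm_num
      _ ≤ 2 ^ (j + 1) := pow_le_pow_right₀ (by norm_num) (by omega)
  have hp1 : 1 < pj j := by
    unfold pj
    rw [lt_div_iff₀ (by linarith)]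
    linarith
  have hpq : pj j < qj j := by
    unfold pj
    rw [div_lt_iff₀ (by linarith)]
    nlinarith
  set p := pj j with hpdef
  set q := qj j with hqdef
  have hp0 : 0 < p := by linarith
  obtain ⟨K0, hK0, h6⟩ := h6 p hp0
  set ε' : ℝ := ε / (4 * K0 ^ 2) with hε'
  have hε'0 : 0 < ε' := by positivity
  obtain ⟨K1, hK1, h4⟩ := h4 p q hp1 hpq ε' hε'0
  obtain ⟨K2, hK2, h5⟩ := h5 j hj ε' hε'0
  refine ⟨K0 ^ 2 * (K1 + K2), by positivity, ?_⟩
  intro N
  obtain ⟨KN, hKN, hsum⟩ := nrm_sum.{u} hp0 hK0 N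
  refine ⟨K0 ^ 2 * (KN * (1 + 2 * K0)), by positivity, ?_⟩
  intro A _ _ _ T F hSP d z a A0 lam hlam hd hd1 hd0 hz1 hz0 hA0 ha ha1 ha2 ha3
  obtain ⟨hadd, hnn, hstar, hneg, hmull, hmulr, hsa⟩ := h6 A T
  obtain ⟨c⟩ := h1 A T F hSP N d lam hlam hd hd1
  obtain ⟨V, hV, hV1, hV2, hdec⟩ := h2 A T F N d lam hlam hd hd1 hd0 c
  have hweak := h3 A T F N d lam hlam hd hd1 hd0 c
  have hx : IsSelfAdjoint (ps d N) := by
    unfold ps
    exact isSelfAdjoint_sum _ fun n hn => hd n (mem_range.mp hn)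
  have hstep1 := step1 h7 T hp1 hlam (ps d N) V hx hV hV1 hV2
  rw [← hsa (ps d N - V) (hx.sub hV)] at hstep1
  -- the two pieces
  set W1 : A := ∑ n ∈ range N, (c.P n + c.Q n) * d n * (c.P n + c.Q n) with hW1
  set W2 : A := ∑ n ∈ range N, ((1 - c.R n) * d n + c.R n * d n * (1 - c.R n)) with hW2
  have hw : ps d N - V = W1 + W2 := by
    rw [hdec]
    abel
  rw [hw] at hstep1
  set J1 : A := ∑ n ∈ range N, phi c n * a n * phi c n with hJ1
  set J2 : A := ∑ n ∈ range N, ((1 - c.R n) * star (z n) + (1 - (1 - c.R n)) * z n * (1 - c.R n))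
    with hJ2
  set e1 : ℕ → A := fun n => phi c n * (d n - a n) * phi c n with he1
  set e2 : ℕ → A := fun n => (1 - c.R n) * (d n - star (z n))
    + (1 - (1 - c.R n)) * (d n - z n) * (1 - c.R n) with he2
  have hW1' : W1 = J1 + ∑ n ∈ range N, e1 n := by
    rw [hW1, hJ1, ← sum_add_distrib]
    refine sum_congr rfl fun n _ => ?_
    simp only [he1, phi]
    noncomm_ring
  have hW2' : W2 = J2 + ∑ n ∈ range N, e2 n := by
    rw [hW2, hJ2, ← sum_add_distrib]
    refine sum_congr rfl fun n _ => ?_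
    simp only [he2]
    noncomm_ring
  have hphi1 : ∀ n, ‖phi c n‖ ≤ 1 := fun n => star_proj_norm_le (phi_proj c n)
  have hf1 : ∀ n, ‖1 - c.R n‖ ≤ 1 := fun n => star_proj_norm_le (f_proj c n)
  have hf1' : ∀ n, ‖1 - (1 - c.R n)‖ ≤ 1 := fun n => star_proj_norm_le (f_proj c n).one_sub
  have hE1 : T.nrm p (∑ n ∈ range N, e1 n) ≤ KN * ∑ n ∈ range N, T.nrm p (d n - a n) := by
    refine (hsum A T hadd hnn e1).trans ?_
    refine mul_le_mul_of_nonneg_left ?_ hKN.le
    refine sum_le_sum fun n _ => ?_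
    exact (hmulr _ _ (hphi1 n)).trans (hmull _ _ (hphi1 n))
  have hE2 : T.nrm p (∑ n ∈ range N, e2 n)
      ≤ KN * (2 * K0 * ∑ n ∈ range N, T.nrm p (d n - z n)) := by
    refine (hsum A T hadd hnn e2).trans ?_
    refine mul_le_mul_of_nonneg_left ?_ hKN.le
    rw [mul_sum]
    refine sum_le_sum fun n hn => ?_
    have hdn := (hd n (mem_range.mp hn)).star_eq
    have g1 : T.nrm p ((1 - c.R n) * (d n - star (z n))) ≤ T.nrm p (d n - z n) := by
      refine (hmull _ _ (hf1 n)).trans ?_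
      rw [← hstar (d n - z n), star_sub, hdn]
    have g2 : T.nrm p ((1 - (1 - c.R n)) * (d n - z n) * (1 - c.R n)) ≤ T.nrm p (d n - z n) :=
      (hmulr _ _ (hf1 n)).trans (hmull _ _ (hf1' n))
    calc T.nrm p (e2 n) ≤ K0 * (T.nrm p ((1 - c.R n) * (d n - star (z n)))
          + T.nrm p ((1 - (1 - c.R n)) * (d n - z n) * (1 - c.R n))) := hadd _ _
      _ ≤ K0 * (T.nrm p (d n - z n) + T.nrm p (d n - z n)) :=
          mul_le_mul_of_nonneg_left (add_le_add g1 g2) hK0.le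
      _ = 2 * K0 * T.nrm p (d n - z n) := by ring
  -- main terms
  have hjump := h4 A T F N (phi c) a A0 lam hlam (phi_proj c) (phi_orth c) (phi_mem c) hA0
    ha ha1 ha2 ha3
  have hafter := h5 A T F N (fun n => 1 - c.R n) z lam hlam (f_proj c) (f_mono c) (f_mem c)
    hz1 hz0
  rw [phi_sum] at hjump
  rw [← hpdef, ← hqdef, ← hJ2] at hafter
  rw [← hJ1] at hjump
  set S0 := T.t (cfc (fun s : ℝ => max (|s| - lam / 2) 0) (ps d N)) with hS0
  set t0 := T.t (1 - c.R N) with ht0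
  have hmain : lam ^ p * t0 ≤ 2 * (lam ^ (p - 1) * S0) := by
    have e : lam ^ p = lam ^ (p - 1) * lam := by
      have := Real.rpow_add hlam (p - 1) 1
      rw [Real.rpow_one] at this
      rw [← this]
      congr 1
      ring
    rw [e]
    have hnn' : 0 ≤ lam ^ (p - 1) := Real.rpow_nonneg hlam.le _
    have := mul_le_mul_of_nonneg_left hweak hnn'
    linarith
  set X1 := lam ^ (p - q) * T.t (cfc (fun s : ℝ => (min s lam) ^ q) A0) with hX1
  set X2 := T.t (cfc (fun s : ℝ => (max (s - lam) 0) ^ p) A0) with hX2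
  set X3 := lam ^ (p - q) * T.t (cfc (fun s : ℝ => (min (Real.sqrt s) lam) ^ q)
              (∑ n ∈ range N, F.E n (star (z n) * z n))) with hX3
  set X4 := T.t (cfc (fun s : ℝ => (max (Real.sqrt s - lam) 0) ^ p)
              (∑ n ∈ range N, F.E n (star (z n) * z n))) with hX4
  have hX1n : 0 ≤ X1 := by
    refine mul_nonneg (Real.rpow_nonneg hlam.le _) (T.nonneg _ (cfc_nonneg fun s hs => ?_))
    exact Real.rpow_nonneg (le_min (spectrum_nonneg_of_nonneg hA0 hs) hlam.le) _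
  have hX2n : 0 ≤ X2 := T.nonneg _ (cfc_nonneg fun s _ => Real.rpow_nonneg (le_max_right _ _) _)
  have hX3n : 0 ≤ X3 := by
    refine mul_nonneg (Real.rpow_nonneg hlam.le _) (T.nonneg _ (cfc_nonneg fun s _ => ?_))
    exact Real.rpow_nonneg (le_min (Real.sqrt_nonneg _) hlam.le) _
  have hX4n : 0 ≤ X4 := T.nonneg _ (cfc_nonneg fun s _ => Real.rpow_nonneg (le_max_right _ _) _)
  set D1 := ∑ n ∈ range N, T.nrm p (d n - a n) with hD1
  set D2 := ∑ n ∈ range N, T.nrm p (d n - z n) with hD2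
  have hD1n : 0 ≤ D1 := sum_nonneg fun n _ => hnn _
  have hD2n : 0 ≤ D2 := sum_nonneg fun n _ => hnn _
  have hDs : ∑ n ∈ range N, (T.nrm p (d n - z n) + T.nrm p (d n - a n)) = D2 + D1 := by
    rw [sum_add_distrib]
  rw [hDs]
  rw [hW1', hW2'] at hstep1
  have hadd1 := hadd J1 (∑ n ∈ range N, e1 n)
  have hadd2 := hadd J2 (∑ n ∈ range N, e2 n)
  have hadd3 := hadd (J1 + ∑ n ∈ range N, e1 n) (J2 + ∑ n ∈ range N, e2 n)
  exact arith hK0 hK1 hK2 hKN hε hX1n hX2n hX3n hX4n hD1n hD2n hmain hstep1 hadd3 hadd1 hadd2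
    hjump hafter hE1 hE2

end MDB
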