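import Pool.Agent.MDB.Targets

/-!
# Monotonicity and quasi-subadditivity of the trace of powers
-/

open Finset

namespace MDB

universe u

namespace MDB_MONO

variable {A : Type u} [CStarAlgebra A] [PartialOrder A] [StarOrderedRing A]

theorem tr_mono (T : TrFun A) {a b : A} (h : a ≤ b) : T.t a ≤ T.t b := by
  have h1 := T.nonneg (b - a) (sub_nonneg.2 h)
  rw [map_sub] at h1
  linarith

theorem tr_mul_nonneg (T : TrFun A) {c d : A} (hc : 0 ≤ c) (hd : 0 ≤ d) : 0 ≤ T.t (c * d) := by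
  obtain ⟨e, rfl⟩ := CStarAlgebra.nonneg_iff_eq_star_mul_self.1 hd
  have h1 : T.t (c * (star e * e)) = T.t (e * c * star e) := by
    rw [← mul_assoc, T.comm (c * star e) e, ← mul_assoc]
  rw [h1]
  exact T.nonneg _ (star_right_conjugate_nonneg hc e)

theorem tr_mul_mono (T : TrFun A) {c x y : A} (hc : 0 ≤ c) (h : x ≤ y) :
    T.t (c * x) ≤ T.t (c * y) := by
  have h1 := tr_mul_nonneg T hc (sub_nonneg.2 h)
  rw [mul_sub, map_sub] at h1
  linarith

theorem tangent {r s t : ℝ} (hr : 1 ≤ r) (hs : 0 ≤ s) (ht : 0 ≤ t) :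
    (s - t) * (r * t ^ (r - 1)) ≤ s ^ r - t ^ r := by
  rcases ht.eq_or_lt with rfl | ht
  · by_cases h : r = 1
    · subst h
      simp
    · rw [Real.zero_rpow (sub_ne_zero.2 h), Real.zero_rpow (by linarith)]
      have := Real.rpow_nonneg hs r
      simpa using this
  · have h0 : 0 < t ^ r := Real.rpow_pos_of_pos ht r
    have h1 := one_add_mul_self_le_rpow_one_add (s := s / t - 1)
      (by have := div_nonneg hs ht.le; linarith) hr
    have h2 : 1 + (s / t - 1) = s / t := by ring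
    rw [h2, Real.div_rpow hs ht.le, le_div_iff₀ h0] at h1
    rw [Real.rpow_sub_one ht.ne']
    have h3 : (s - t) * (r * (t ^ r / t)) = (r * (s / t - 1)) * t ^ r := by
      field_simp
    rw [h3]
    linarith

theorem exists_bound {a b : A} (ha : 0 ≤ a) (hb : 0 ≤ b) :
    ∃ m : ℝ, spectrum ℝ a ⊆ Set.Icc 0 m ∧ spectrum ℝ b ⊆ Set.Icc 0 m := by
  obtain ⟨m, hm⟩ := (ContinuousFunctionalCalculus.isCompact_spectrum (R := ℝ) a).bddAbove
  obtain ⟨m', hm'⟩ := (ContinuousFunctionalCalculus.isCompact_spectrum (R := ℝ) b).bddAbove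
  refine ⟨max m m', fun x hx => ⟨spectrum_nonneg_of_nonneg ha hx, (hm hx).trans (le_max_left _ _)⟩,
    fun x hx => ⟨spectrum_nonneg_of_nonneg hb hx, (hm' hx).trans (le_max_right _ _)⟩⟩

theorem cont_rpow {r : ℝ} (hr : 0 ≤ r) (s : Set ℝ) : ContinuousOn (fun x : ℝ => x ^ r) s :=
  (Real.continuous_rpow_const hr).continuousOn

theorem klein_rpow (h : T_klein.{u}) (T : TrFun A) {r : ℝ} (hr : 1 ≤ r) {a b : A} (ha : 0 ≤ a)
    (hb : 0 ≤ b) : T.t ((a - b) * cfc (fun t : ℝ => r * t ^ (r - 1)) b) ≤ T.pw r a - T.pw r b := by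
  obtain ⟨m, hm, hm'⟩ := exists_bound ha hb
  refine h A T (fun s => s ^ r) (fun t => r * t ^ (r - 1)) a b 0 m
    (IsSelfAdjoint.of_nonneg ha) (IsSelfAdjoint.of_nonneg hb) hm hm'
    (cont_rpow (by linarith) _) (continuousOn_const.mul (cont_rpow (by linarith) _)) ?_
  intro s hs t ht
  exact tangent hr hs.1 ht.1

theorem deriv_nonneg {r : ℝ} (hr : 0 ≤ r) {a : A} (ha : 0 ≤ a) :
    0 ≤ cfc (fun t : ℝ => r * t ^ (r - 1)) a :=
  cfc_nonneg fun x hx => mul_nonneg hr (Real.rpow_nonneg (spectrum_nonneg_of_nonneg ha hx) _)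

theorem pw_nonneg (T : TrFun A) (r : ℝ) {a : A} (ha : 0 ≤ a) : 0 ≤ T.pw r a :=
  T.nonneg _ (cfc_nonneg fun _ hx => Real.rpow_nonneg (spectrum_nonneg_of_nonneg ha hx) _)

theorem spec_pos {ε : ℝ} (hε : 0 < ε) {a : A} (ha : 0 ≤ a) :
    ContinuousOn (fun s : ℝ => s + ε) (spectrum ℝ a) ∧ ∀ x ∈ spectrum ℝ a, 0 < x + ε :=
  ⟨by fun_prop, fun x hx => by have := spectrum_nonneg_of_nonneg ha hx; linarith⟩

theorem add_eps (ε : ℝ) {a : A} (ha : 0 ≤ a) :
    cfc (fun s : ℝ => s + ε) a = a + algebraMap ℝ A ε := by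
  have hsa : IsSelfAdjoint a := IsSelfAdjoint.of_nonneg ha
  rw [cfc_add_const ε (fun s : ℝ => s) a (by fun_prop) hsa, cfc_id' ℝ a hsa]

theorem strict_eps {ε : ℝ} (hε : 0 < ε) {a : A} (ha : 0 ≤ a) :
    IsStrictlyPositive (a + algebraMap ℝ A ε) := by
  have h1 : IsStrictlyPositive (algebraMap ℝ A ε) := by
    refine ⟨?_, ?_⟩
    · rw [Algebra.algebraMap_eq_smul_one]
      exact smul_nonneg hε.le zero_le_one
    · exact (IsUnit.mk0 ε hε.ne').map (algebraMap ℝ A)
  exact IsStrictlyPositive.nonneg_add ha h1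

/-- negative powers reverse the order -/
theorem anti {r ε : ℝ} (h0 : 0 < r) (h1 : r < 1) (hε : 0 < ε) {a c : A} (ha : 0 ≤ a)
    (h : a + algebraMap ℝ A ε ≤ c) :
    c ^ (r - 1) ≤ cfc (fun s : ℝ => (s + ε) ^ (r - 1)) a := by
  obtain ⟨g1, g2⟩ := spec_pos hε ha
  have hs := strict_eps hε ha
  have hc : IsStrictlyPositive c := IsStrictlyPositive.of_le hs h
  rw [← CFC.cfc_rpow g2 g1 (IsSelfAdjoint.of_nonneg ha), add_eps ε ha]
  have e1 : ∀ x : A, IsStrictlyPositive x → x ^ (r - 1) = (x ^ (1 - r)) ^ (-1 : ℝ) := by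
    intro x hx
    rw [CFC.rpow_rpow x (1 - r) (-1) (by linarith) hx]
    congr 1
    ring
  rw [e1 c hc, e1 _ hs]
  have h2 : (a + algebraMap ℝ A ε) ^ (1 - r) ≤ c ^ (1 - r) :=
    CFC.rpow_le_rpow ⟨by linarith, by linarith⟩ h
  have h3 : IsStrictlyPositive ((a + algebraMap ℝ A ε) ^ (1 - r)) :=
    ⟨CFC.rpow_nonneg, hs.isUnit.cfcRpow (1 - r) hs.nonneg⟩
  exact CStarAlgebra.rpow_neg_one_le_rpow_neg_one h2 h3

theorem term (T : TrFun A) {r ε : ℝ} (h0 : 0 < r) (h1 : r < 1) (hε : 0 < ε) {a c : A}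
    (ha : 0 ≤ a) (h : a + algebraMap ℝ A ε ≤ c) : T.t (a * c ^ (r - 1)) ≤ T.pw r a := by
  have hsa : IsSelfAdjoint a := IsSelfAdjoint.of_nonneg ha
  obtain ⟨g1, g2⟩ := spec_pos hε ha
  have g3 : ContinuousOn (fun s : ℝ => (s + ε) ^ (r - 1)) (spectrum ℝ a) :=
    g1.rpow_const fun x hx => Or.inl (g2 x hx).ne'
  refine (tr_mul_mono T ha (anti h0 h1 hε ha h)).trans ?_
  have h2 : a * cfc (fun s : ℝ => (s + ε) ^ (r - 1)) a =
      cfc (fun s : ℝ => s * (s + ε) ^ (r - 1)) a := by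
    rw [cfc_mul (fun s : ℝ => s) (fun s : ℝ => (s + ε) ^ (r - 1)) a (by fun_prop) g3,
      cfc_id' ℝ a hsa]
  rw [h2]
  refine tr_mono T (cfc_mono (fun x hx => ?_) (continuousOn_id.mul g3) (cont_rpow h0.le _))
  have hx0 := spectrum_nonneg_of_nonneg ha hx
  rcases hx0.eq_or_lt with rfl | hx0
  · rw [Real.zero_rpow h0.ne', zero_mul]
  · have h3 : (x + ε) ^ (r - 1) ≤ x ^ (r - 1) :=
      Real.rpow_le_rpow_of_nonpos hx0 (by linarith) (by linarith)
    have h4 : x * x ^ (r - 1) = x ^ r := by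
      rw [Real.rpow_sub_one hx0.ne']
      field_simp
    rw [← h4]
    exact mul_le_mul_of_nonneg_left h3 hx0.le

end MDB_MONO

open MDB_MONO in
theorem p_mono (h : T_klein.{u}) : T_mono.{u} := by
  intro A _ _ _ T r a b hr ha hab
  have hb : 0 ≤ b := ha.trans hab
  rcases le_total 1 r with h1 | h1
  · have h2 := klein_rpow h T h1 hb ha
    have h3 := tr_mul_nonneg T (sub_nonneg.2 hab) (deriv_nonneg (r := r) hr.le ha)
    linarith
  · unfold TrFun.pw
    rw [← CFC.rpow_eq_cfc_real ha, ← CFC.rpow_eq_cfc_real hb]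
    exact tr_mono T (CFC.rpow_le_rpow ⟨hr.le, h1⟩ hab)

open MDB_MONO in
theorem p_qs (h : T_klein.{u}) (h2 : T_mono.{u}) : T_qs.{u} := by
  intro r hr
  rcases le_or_gt 1 r with h1 | h1
  · refine ⟨2 ^ r / 2, by positivity, ?_⟩
    intro A _ _ _ T a b ha hb
    set c : A := (1 / 2 : ℝ) • (a + b) with hc
    have hc0 : 0 ≤ c := smul_nonneg (by norm_num) (add_nonneg ha hb)
    have hcc : (2 : ℝ) • c = a + b := by
      rw [hc, smul_smul]
      norm_num
    have k1 := klein_rpow h T h1 ha hc0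
    have k2 := klein_rpow h T h1 hb hc0
    have k3 : T.t ((a - c) * cfc (fun t : ℝ => r * t ^ (r - 1)) c) +
        T.t ((b - c) * cfc (fun t : ℝ => r * t ^ (r - 1)) c) = 0 := by
      rw [← map_add, ← add_mul]
      have : a - c + (b - c) = 0 := by
        have h3 : (2 : ℝ) • c = c + c := two_smul ℝ c
        rw [h3] at hcc
        calc a - c + (b - c) = (a + b) - (c + c) := by abel
          _ = 0 := by rw [hcc, sub_self]
      rw [this, zero_mul, map_zero]
    have k4 : T.pw r (a + b) = 2 ^ r * T.pw r c := by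
      unfold TrFun.pw
      rw [← hcc, ← cfc_comp_const_mul (2 : ℝ) (fun s : ℝ => s ^ r) c (cont_rpow hr.le _)
        (IsSelfAdjoint.of_nonneg hc0)]
      have : cfc (fun s : ℝ => (2 * s) ^ r) c = cfc (fun s : ℝ => 2 ^ r * s ^ r) c :=
        cfc_congr fun x hx => Real.mul_rpow (by norm_num) (spectrum_nonneg_of_nonneg hc0 hx)
      rw [this, cfc_const_mul (2 ^ r) (fun s : ℝ => s ^ r) c (cont_rpow hr.le _), map_smul,
        smul_eq_mul]
    rw [k4]
    have k5 : T.pw r c ≤ (T.pw r a + T.pw r b) / 2 := by linarith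
    have k6 : (0 : ℝ) ≤ 2 ^ r := by positivity
    nlinarith [mul_le_mul_of_nonneg_left k5 k6]
  · refine ⟨1, one_pos, ?_⟩
    intro A _ _ _ T a b ha hb
    rw [one_mul]
    have key : ∀ ε : ℝ, 0 < ε → T.pw r (a + b) ≤ T.pw r a + T.pw r b + ε ^ r * T.t 1 := by
      intro ε hε
      set c : A := a + b + algebraMap ℝ A ε with hc
      have hε0 : 0 ≤ algebraMap ℝ A ε := by
        rw [Algebra.algebraMap_eq_smul_one]
        exact smul_nonneg hε.le zero_le_one
      have hcs : IsStrictlyPositive c := strict_eps hε (add_nonneg ha hb)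
      have m1 : T.pw r (a + b) ≤ T.pw r c :=
        h2 A T r (a + b) c hr (add_nonneg ha hb) (le_add_of_nonneg_right hε0)
      have m2 : T.pw r c = T.t (a * c ^ (r - 1)) + T.t (b * c ^ (r - 1)) +
          ε * T.t (c ^ (r - 1)) := by
        have e1 : c ^ r = c * c ^ (r - 1) := by
          have e2 : c ^ (1 + (r - 1)) = c ^ (1 : ℝ) * c ^ (r - 1) := CFC.rpow_add hcs.isUnit
          rw [CFC.rpow_one c hcs.nonneg] at e2
          rw [← e2]
          congr 1
          ring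
        unfold TrFun.pw
        rw [← CFC.rpow_eq_cfc_real hcs.nonneg, e1]
        nth_rewrite 1 [hc]
        rw [add_mul, add_mul, map_add, map_add, Algebra.algebraMap_eq_smul_one, smul_mul_assoc,
          one_mul, map_smul, smul_eq_mul]
      have m3 : T.t (a * c ^ (r - 1)) ≤ T.pw r a := by
        refine term T hr h1 hε ha ?_
        rw [hc, add_assoc]
        exact add_le_add_right (le_add_of_nonneg_left hb) a
      have m4 : T.t (b * c ^ (r - 1)) ≤ T.pw r b := by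
        refine term T hr h1 hε hb ?_
        rw [hc]
        exact add_le_add_left (le_add_of_nonneg_left ha) _
      have m5 : T.t (c ^ (r - 1)) ≤ ε ^ (r - 1) * T.t 1 := by
        have e1 : c ^ (r - 1) ≤ cfc (fun s : ℝ => (s + ε) ^ (r - 1)) (0 : A) := by
          refine anti hr h1 hε le_rfl ?_
          rw [hc]
          exact add_le_add_left (add_nonneg ha hb) _
        rw [cfc_apply_zero, zero_add, Algebra.algebraMap_eq_smul_one] at e1
        have e2 := tr_mono T e1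
        rwa [map_smul, smul_eq_mul] at e2
      have m6 : ε * (ε ^ (r - 1) * T.t 1) = ε ^ r * T.t 1 := by
        rw [Real.rpow_sub_one hε.ne']
        field_simp
      have m7 : ε * T.t (c ^ (r - 1)) ≤ ε ^ r * T.t 1 := by
        rw [← m6]
        exact mul_le_mul_of_nonneg_left m5 hε.le
      linarith
    have ht1 : 0 ≤ T.t 1 := T.nonneg 1 zero_le_one
    refine le_of_forall_pos_le_add fun δ hδ => ?_
    have hpos : 0 < δ / (T.t 1 + 1) := by positivity
    have k1 := key ((δ / (T.t 1 + 1)) ^ (1 / r)) (Real.rpow_pos_of_pos hpos _)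
    rw [← Real.rpow_mul hpos.le, one_div_mul_cancel hr.ne', Real.rpow_one] at k1
    have k2 : δ / (T.t 1 + 1) * T.t 1 ≤ δ := by
      rw [div_mul_eq_mul_div, div_le_iff₀ (by positivity)]
      nlinarith
    linarith

end MDB
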