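import Pool.Agent.MDB.Targets

/-!
# MDB-NRM: facts about `nrm`
-/

open Finset

namespace MDB

universe u

namespace MDB_NRM

variable {A : Type u} [CStarAlgebra A] [PartialOrder A] [StarOrderedRing A]

theorem t_mono (T : TrFun A) {a b : A} (h : a ≤ b) : T.t a ≤ T.t b := by
  have := T.nonneg (b - a) (sub_nonneg.2 h)
  rw [map_sub] at this
  linarith

theorem t_pow (T : TrFun A) (x y : A) (n : ℕ) : T.t ((x * y) ^ (n + 1)) = T.t ((y * x) ^ (n + 1)) := by
  have h : ∀ n : ℕ, (x * y) ^ n * x = x * (y * x) ^ n := by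
    intro n
    induction n with
    | zero => simp
    | succ n ih =>
      rw [pow_succ, pow_succ, mul_assoc ((x * y) ^ n), mul_assoc x y x,
        ← mul_assoc ((x * y) ^ n), ih, mul_assoc]
  rw [pow_succ, ← mul_assoc, h, mul_assoc, T.comm, pow_succ, mul_assoc]

theorem t_aeval (T : TrFun A) (x y : A) (P : Polynomial ℝ) (h0 : P.eval 0 = 0) :
    T.t (Polynomial.aeval (x * y) P) = T.t (Polynomial.aeval (y * x) P) := by
  have h0' : P.coeff 0 = 0 := by rwa [Polynomial.coeff_zero_eq_eval_zero]
  rw [Polynomial.aeval_eq_sum_range, Polynomial.aeval_eq_sum_range, map_sum, map_sum]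
  apply Finset.sum_congr rfl
  intro i _
  rw [map_smul, map_smul]
  cases i with
  | zero => rw [h0', zero_smul, zero_smul]
  | succ n => rw [t_pow]

theorem t_cfc_close (T : TrFun A) {a : A} (ha : IsSelfAdjoint a) {f g : ℝ → ℝ} {ε : ℝ}
    (hf : ContinuousOn f (spectrum ℝ a)) (hg : ContinuousOn g (spectrum ℝ a))
    (h : ∀ s ∈ spectrum ℝ a, |f s - g s| ≤ ε) :
    |T.t (cfc f a) - T.t (cfc g a)| ≤ ε * T.t 1 := by
  have h1 : cfc (fun s => f s - g s) a = cfc f a - cfc g a := cfc_sub f g a hf hg
  have hc : ∀ c : ℝ, T.t (cfc (fun _ : ℝ => c) a) = c * T.t 1 := by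
    intro c
    rw [cfc_const c a, Algebra.algebraMap_eq_smul_one, map_smul, smul_eq_mul]
  rw [abs_le]
  constructor
  · have h2 : cfc (fun _ : ℝ => -ε) a ≤ cfc (fun s => f s - g s) a := by
      apply cfc_mono
      · intro s hs
        exact (abs_le.1 (h s hs)).1
      · exact continuousOn_const
      · exact hf.sub hg
    have h3 := t_mono T h2
    rw [hc, h1, map_sub] at h3
    linarith
  · have h2 : cfc (fun s => f s - g s) a ≤ cfc (fun _ : ℝ => ε) a := by
      apply cfc_mono
      · intro s hs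
        exact (abs_le.1 (h s hs)).2
      · exact hf.sub hg
      · exact continuousOn_const
    have h3 := t_mono T h2
    rw [hc, h1, map_sub] at h3
    linarith

theorem spec_Icc {a : A} (ha : 0 ≤ a) {M : ℝ} (hM : ‖a‖ ≤ M) : spectrum ℝ a ⊆ Set.Icc 0 M := by
  intro s hs
  have h0 : 0 ≤ s := spectrum_nonneg_of_nonneg ha hs
  refine ⟨h0, ?_⟩
  rcases subsingleton_or_nontrivial A with hA | hA
  · rw [spectrum.of_subsingleton] at hs
    exact absurd hs (by simp)
  · have h1 := spectrum.norm_le_norm_of_mem hs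
    rw [Real.norm_eq_abs] at h1
    exact (le_abs_self s).trans (h1.trans hM)

theorem t_cfc_star (T : TrFun A) (x : A) (f : ℝ → ℝ) (hf : ContinuousOn f (Set.Ici 0))
    (h0 : f 0 = 0) : T.t (cfc f (star x * x)) = T.t (cfc f (x * star x)) := by
  have ha : 0 ≤ star x * x := star_mul_self_nonneg x
  have hb : 0 ≤ x * star x := mul_star_self_nonneg x
  set M := ‖x‖ * ‖x‖ with hM
  have hM0 : 0 ≤ M := mul_self_nonneg _
  have hsa : spectrum ℝ (star x * x) ⊆ Set.Icc 0 M :=
    spec_Icc ha (by rw [CStarRing.norm_star_mul_self])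
  have hsb : spectrum ℝ (x * star x) ⊆ Set.Icc 0 M :=
    spec_Icc hb (by rw [CStarRing.norm_self_mul_star])
  have hfI : ContinuousOn f (Set.Icc 0 M) := hf.mono Set.Icc_subset_Ici_self
  have ht : 0 ≤ T.t 1 := T.nonneg 1 zero_le_one
  have key : ∀ ε : ℝ, 0 < ε →
      |T.t (cfc f (star x * x)) - T.t (cfc f (x * star x))| ≤ 4 * ε * T.t 1 := by
    intro ε hε
    obtain ⟨P, hP⟩ := exists_polynomial_near_of_continuousOn 0 M f hfI ε hε
    set Q : Polynomial ℝ := P - Polynomial.C (P.eval 0) with hQ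
    have hQ0 : Q.eval 0 = 0 := by simp [hQ]
    have hP0 : |P.eval 0| < ε := by
      have := hP 0 ⟨le_refl _, hM0⟩
      rwa [h0, sub_zero] at this
    have hQf : ∀ s ∈ Set.Icc 0 M, |f s - Q.eval s| ≤ 2 * ε := by
      intro s hs
      have h1 := abs_lt.1 (hP s hs)
      have h2 := abs_lt.1 hP0
      have h3 : Q.eval s = P.eval s - P.eval 0 := by simp [hQ]
      rw [h3, abs_le]
      constructor <;> linarith [h1.1, h1.2, h2.1, h2.2]
    have hQc : ContinuousOn (fun s => Q.eval s) (Set.Icc 0 M) := Q.continuousOn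
    have e1 := t_cfc_close T (IsSelfAdjoint.of_nonneg ha) (hfI.mono hsa) (hQc.mono hsa)
      (fun s hs => hQf s (hsa hs))
    have e2 := t_cfc_close T (IsSelfAdjoint.of_nonneg hb) (hfI.mono hsb) (hQc.mono hsb)
      (fun s hs => hQf s (hsb hs))
    have e3 : T.t (cfc (fun s => Q.eval s) (star x * x)) =
        T.t (cfc (fun s => Q.eval s) (x * star x)) := by
      have h1 : cfc (fun s => Q.eval s) (star x * x) = Polynomial.aeval (star x * x) Q :=
        cfc_polynomial Q (star x * x) (IsSelfAdjoint.of_nonneg ha)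
      have h2 : cfc (fun s => Q.eval s) (x * star x) = Polynomial.aeval (x * star x) Q :=
        cfc_polynomial Q (x * star x) (IsSelfAdjoint.of_nonneg hb)
      rw [h1, h2]
      exact t_aeval T _ _ Q hQ0
    rw [e3] at e1
    rw [abs_le] at e1 e2 ⊢
    constructor <;> linarith [e1.1, e1.2, e2.1, e2.2]
  have h1 : |T.t (cfc f (star x * x)) - T.t (cfc f (x * star x))| ≤ 0 := by
    apply le_of_forall_pos_le_add
    intro δ hδ
    have h2 := key (δ / (4 * (T.t 1 + 1))) (by positivity)
    refine h2.trans ?_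
    rw [zero_add]
    have h3 : 4 * (δ / (4 * (T.t 1 + 1))) * T.t 1 = δ * (T.t 1 / (T.t 1 + 1)) := by
      field_simp
    rw [h3]
    have h4 : T.t 1 / (T.t 1 + 1) ≤ 1 := by
      rw [div_le_one (by linarith)]; linarith
    nlinarith
  have h2 := abs_nonpos_iff.1 h1
  linarith

theorem pw_cont {r : ℝ} (hr : 0 < r) : ContinuousOn (fun s : ℝ => s ^ r) (Set.Ici 0) :=
  (Real.continuous_rpow_const hr.le).continuousOn

theorem pw_star (T : TrFun A) {r : ℝ} (hr : 0 < r) (x : A) :
    T.pw r (star x * x) = T.pw r (x * star x) :=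
  t_cfc_star T x _ (pw_cont hr) (Real.zero_rpow hr.ne')

end MDB_NRM

open MDB_NRM in
theorem p_nrm (h1 : T_mono.{u}) (h2 : T_qs.{u}) : T_nrm.{u} := by
  intro p hp
  have hr : 0 < p / 2 := by linarith
  obtain ⟨K, hK, hqs⟩ := h2 (p / 2) hr
  refine ⟨2 * K * K, by positivity, ?_⟩
  intro A _ _ _ T
  have hstar : ∀ x : A, T.nrm p (star x) = T.nrm p x := by
    intro x
    unfold TrFun.nrm
    rw [star_star]
    exact (pw_star T hr x).symm
  have hc : ∀ c x : A, ‖c‖ ≤ 1 → T.nrm p (c * x) ≤ T.nrm p x := by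
    intro c x hcn
    unfold TrFun.nrm
    apply h1 A T (p / 2) _ _ hr (star_mul_self_nonneg _)
    have hc1 : star c * c ≤ 1 := by
      have h3 := CStarAlgebra.star_mul_le_algebraMap_norm_sq (a := c)
      refine h3.trans ?_
      rw [Algebra.algebraMap_eq_smul_one]
      have h4 : ‖c‖ ^ 2 ≤ 1 := by
        have := norm_nonneg c
        nlinarith
      have h5 : (0 : A) ≤ (1 - ‖c‖ ^ 2) • (1 : A) :=
        smul_nonneg (by linarith) zero_le_one
      rw [sub_smul, one_smul] at h5
      exact sub_nonneg.1 h5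
    have h6 := star_left_conjugate_le_conjugate hc1 x
    rw [mul_one] at h6
    rw [star_mul]
    have h7 : star x * star c * (c * x) = star x * (star c * c) * x := by
      simp only [mul_assoc]
    rw [h7]
    exact h6
  refine ⟨?_, ?_, hstar, ?_, hc, ?_, ?_⟩
  · intro x y
    unfold TrFun.nrm
    have ha : 0 ≤ star x * x := star_mul_self_nonneg x
    have hb : 0 ≤ star y * y := star_mul_self_nonneg y
    have h3 : star (x + y) * (x + y) ≤ (star x * x + star x * x) + (star y * y + star y * y) := by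
      have h4 := star_mul_self_nonneg (x - y)
      rw [← sub_nonneg]
      have h5 : (star x * x + star x * x) + (star y * y + star y * y) - star (x + y) * (x + y) =
          star (x - y) * (x - y) := by
        simp only [star_add, star_sub, add_mul, mul_add, sub_mul, mul_sub]
        abel
      rw [h5]
      exact h4
    have e1 := h1 A T (p / 2) _ _ hr (star_mul_self_nonneg (x + y)) h3
    have e2 := hqs A T _ _ (add_nonneg ha ha) (add_nonneg hb hb)
    have e3 := hqs A T _ _ ha ha
    have e4 := hqs A T _ _ hb hb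
    refine e1.trans (e2.trans ?_)
    have e5 := mul_le_mul_of_nonneg_left (add_le_add e3 e4) hK.le
    refine e5.trans (le_of_eq ?_)
    ring
  · intro x
    apply T.nonneg
    apply cfc_nonneg
    intro s hs
    exact Real.rpow_nonneg (spectrum_nonneg_of_nonneg (star_mul_self_nonneg x) hs) _
  · intro x
    unfold TrFun.nrm
    rw [star_neg, neg_mul_neg]
  · intro c x hcn
    rw [← hstar (x * c), star_mul, ← hstar x]
    exact hc _ _ (by rwa [norm_star])
  · intro x hx
    unfold TrFun.nrm TrFun.pw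
    rw [hx.star_eq, ← pow_two]
    congr 1
    rw [← cfc_comp_pow (fun s : ℝ => s ^ (p / 2)) 2 x
      (Real.continuous_rpow_const hr.le).continuousOn]
    congr 1
    funext s
    rw [← sq_abs, ← Real.rpow_natCast, ← Real.rpow_mul (abs_nonneg s)]
    congr 1
    push_cast
    ring

end MDB
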