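import Pool.Agent.MDB.Targets

/-!
Job MDB-SCAL (helper42): scalar facts about the dyadic sums.
-/

open Finset

namespace MDB

universe u

namespace MDB_SCAL

/-- Uniform bound of the two-sided geometric sums. -/
theorem geo (δ : ℝ) (hδ : 0 < δ) : ∃ C : ℝ, 0 < C ∧ ∀ (S : Finset ℤ) (t : ℝ), 0 < t →
    ∑ i ∈ S, (min ((2 : ℝ) ^ i / t) (t / (2 : ℝ) ^ i)) ^ δ ≤ C := by
  set ρ : ℝ := (1 / 2 : ℝ) ^ δ with hρ
  have hρ0 : 0 < ρ := by positivity
  have hρ1 : ρ < 1 := by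
    rw [hρ]; exact Real.rpow_lt_one (by norm_num) (by norm_num) hδ
  have hs : Summable (fun n : ℤ => ρ ^ n.natAbs) := by
    apply Summable.of_nat_of_neg
    · simpa using summable_geometric_of_lt_one hρ0.le hρ1
    · simpa using summable_geometric_of_lt_one hρ0.le hρ1
  have hT0 : 0 ≤ ∑' n : ℤ, ρ ^ n.natAbs := tsum_nonneg (fun n => by positivity)
  refine ⟨2 ^ δ * (∑' n : ℤ, ρ ^ n.natAbs) + 1, by positivity, ?_⟩
  intro S t ht
  set k : ℤ := Int.log 2 t with hk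
  have hk1 : (2 : ℝ) ^ k ≤ t := by
    have := Int.zpow_log_le_self (R := ℝ) (b := 2) (by norm_num) ht
    simpa using this
  have hk2 : t < (2 : ℝ) ^ (k + 1) := by
    have := Int.lt_zpow_succ_log_self (R := ℝ) (b := 2) (by norm_num) t
    simpa using this
  have hterm : ∀ i ∈ S, (min ((2 : ℝ) ^ i / t) (t / (2 : ℝ) ^ i)) ^ δ
      ≤ 2 ^ δ * ρ ^ (i - k).natAbs := by
    intro i _
    have hm : min ((2 : ℝ) ^ i / t) (t / (2 : ℝ) ^ i) ≤ 2 * (1 / 2) ^ (i - k).natAbs := by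
      rcases le_or_gt i k with h | h
      · refine (min_le_left _ _).trans ?_
        have h1 : (2 : ℝ) ^ i / t ≤ (2 : ℝ) ^ i / (2 : ℝ) ^ k :=
          div_le_div_of_nonneg_left (by positivity) (by positivity) hk1
        have h2 : (2 : ℝ) ^ i / (2 : ℝ) ^ k = (1 / 2) ^ (i - k).natAbs := by
          rw [← zpow_sub₀ (by norm_num)]
          obtain ⟨n, hn⟩ : ∃ n : ℕ, n = (i - k).natAbs := ⟨_, rfl⟩
          have : i - k = -(n : ℤ) := by omega
          rw [← hn, this, zpow_neg, zpow_natCast]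
          simp
        have h3 : (0 : ℝ) ≤ (1 / 2) ^ (i - k).natAbs := by positivity
        linarith
      · refine (min_le_right _ _).trans ?_
        have h1 : t / (2 : ℝ) ^ i ≤ (2 : ℝ) ^ (k + 1) / (2 : ℝ) ^ i := by
          gcongr
        have h2 : (2 : ℝ) ^ (k + 1) / (2 : ℝ) ^ i = 2 * (1 / 2) ^ (i - k).natAbs := by
          rw [← zpow_sub₀ (by norm_num)]
          obtain ⟨n, hn⟩ : ∃ n : ℕ, n = (i - k).natAbs := ⟨_, rfl⟩
          have : k + 1 - i = 1 + (-(n : ℤ)) := by omega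
          rw [← hn, this, zpow_add₀ (by norm_num), zpow_neg, zpow_natCast]
          simp
        linarith
    have h0 : 0 ≤ min ((2 : ℝ) ^ i / t) (t / (2 : ℝ) ^ i) := by positivity
    calc (min ((2 : ℝ) ^ i / t) (t / (2 : ℝ) ^ i)) ^ δ
        ≤ (2 * (1 / 2) ^ (i - k).natAbs) ^ δ := Real.rpow_le_rpow h0 hm hδ.le
      _ = 2 ^ δ * ρ ^ (i - k).natAbs := by
          rw [Real.mul_rpow (by norm_num) (by positivity)]
          congr 1
          rw [hρ, ← Real.rpow_natCast, ← Real.rpow_natCast, ← Real.rpow_mul (by norm_num),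
            ← Real.rpow_mul (by norm_num), mul_comm]
  have hs' : Summable (fun i : ℤ => ρ ^ (i - k).natAbs) := by
    have := (Equiv.subRight k).summable_iff (f := fun n : ℤ => ρ ^ n.natAbs)
    exact this.mpr hs
  have hts : ∑' i : ℤ, ρ ^ (i - k).natAbs = ∑' n : ℤ, ρ ^ n.natAbs :=
    (Equiv.subRight k).tsum_eq (fun n : ℤ => ρ ^ n.natAbs)
  calc ∑ i ∈ S, (min ((2 : ℝ) ^ i / t) (t / (2 : ℝ) ^ i)) ^ δ
      ≤ ∑ i ∈ S, 2 ^ δ * ρ ^ (i - k).natAbs := Finset.sum_le_sum hterm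
    _ = 2 ^ δ * ∑ i ∈ S, ρ ^ (i - k).natAbs := by rw [Finset.mul_sum]
    _ ≤ 2 ^ δ * ∑' i : ℤ, ρ ^ (i - k).natAbs := by
        gcongr
        exact hs'.sum_le_tsum S (fun i _ => by positivity)
    _ = 2 ^ δ * ∑' n : ℤ, ρ ^ n.natAbs := by rw [hts]
    _ ≤ _ := by linarith

/-- `C0 ≥ 1`. -/
theorem one_le_C0 {Phi : ℝ → ℝ} {p1 q1 C0 : ℝ} (h : Gr Phi p1 q1 C0) : 1 ≤ C0 := by
  have h1 := h.low 1 one_pos 1 one_pos le_rfl
  have h2 := h.pos 1 one_pos
  rw [Real.one_rpow, one_mul, mul_one] at h1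
  by_contra hc
  push Not at hc
  nlinarith

theorem phi_nonneg {Phi : ℝ → ℝ} {p1 q1 C0 : ℝ} (h : Gr Phi p1 q1 C0) {s : ℝ} (hs : 0 ≤ s) :
    0 ≤ Phi s := by
  rcases hs.eq_or_lt with rfl | h0
  · rw [h.zero]
  · exact (h.pos s h0).le

/-- the lower growth, for two points -/
theorem low' {Phi : ℝ → ℝ} {p1 q1 C0 : ℝ} (h : Gr Phi p1 q1 C0) {x t : ℝ} (hx : 0 < x)
    (hxt : x ≤ t) : Phi x ≤ C0 * (x / t) ^ p1 * Phi t := by
  have ht : 0 < t := lt_of_lt_of_le hx hxt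
  have := h.low t ht (x / t) (by positivity) ((div_le_one ht).mpr hxt)
  rwa [div_mul_cancel₀ _ ht.ne'] at this

theorem up' {Phi : ℝ → ℝ} {p1 q1 C0 : ℝ} (h : Gr Phi p1 q1 C0) {x t : ℝ} (ht : 0 < t)
    (hxt : t ≤ x) : Phi x ≤ C0 * (x / t) ^ q1 * Phi t := by
  have := h.up t ht (x / t) ((one_le_div ht).mpr hxt)
  rwa [div_mul_cancel₀ _ ht.ne'] at this

/-- bounded ratio -/
theorem up4 {Phi : ℝ → ℝ} {p1 q1 C0 : ℝ} (h : Gr Phi p1 q1 C0) {x t : ℝ} (ht : 0 < t)
    (hxt : t ≤ x) (h4 : x ≤ 4 * t) : Phi x ≤ C0 * 4 ^ |q1| * Phi t := by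
  have h1 := up' h ht hxt
  have hC := one_le_C0 h
  have hP := phi_nonneg h ht.le
  have hr1 : 1 ≤ x / t := (one_le_div ht).mpr hxt
  have hr4 : x / t ≤ 4 := by rw [div_le_iff₀ ht]; exact h4
  have h2 : (x / t) ^ q1 ≤ 4 ^ |q1| :=
    calc (x / t) ^ q1 ≤ (x / t) ^ |q1| := Real.rpow_le_rpow_of_exponent_le hr1 (le_abs_self _)
      _ ≤ 4 ^ |q1| := Real.rpow_le_rpow (by linarith) hr4 (abs_nonneg _)
  refine h1.trans ?_
  gcongr

theorem i_term {Phi : ℝ → ℝ} {p1 q1 C0 : ℝ} (h : Gr Phi p1 q1 C0) {q δ : ℝ} (_hδ : 0 < δ)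
    (hδ1 : δ ≤ p1) (hδ2 : δ ≤ q - q1) {t : ℝ} (ht : 0 < t) (i : ℤ) :
    Phi ((2 : ℝ) ^ i) * ((2 : ℝ) ^ i) ^ (-q) * (min t ((2 : ℝ) ^ i)) ^ q
      ≤ C0 * Phi t * (min ((2 : ℝ) ^ i / t) (t / (2 : ℝ) ^ i)) ^ δ := by
  set x : ℝ := (2 : ℝ) ^ i with hx
  have hx0 : 0 < x := by positivity
  have hC := one_le_C0 h
  have hP := phi_nonneg h ht.le
  rcases le_or_gt x t with hxt | hxt
  · have h1 := low' h hx0 hxt
    rw [min_eq_right hxt, mul_assoc, ← Real.rpow_add hx0]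
    simp only [neg_add_cancel, Real.rpow_zero, mul_one]
    have h2 : x / t ≤ 1 := (div_le_one ht).mpr hxt
    have h3 : 1 ≤ t / x := (one_le_div hx0).mpr hxt
    rw [min_eq_left (h2.trans h3)]
    have h4 : (x / t) ^ p1 ≤ (x / t) ^ δ :=
      Real.rpow_le_rpow_of_exponent_ge (by positivity) h2 hδ1
    calc Phi x ≤ C0 * (x / t) ^ p1 * Phi t := h1
      _ ≤ C0 * (x / t) ^ δ * Phi t := by gcongr
      _ = C0 * Phi t * (x / t) ^ δ := by ring
  · have h1 := up' h ht hxt.le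
    rw [min_eq_left hxt.le]
    have h2 : 1 ≤ x / t := (one_le_div ht).mpr hxt.le
    have h3 : t / x ≤ 1 := (div_le_one hx0).mpr hxt.le
    rw [min_eq_right (h3.trans h2)]
    have e1 : (x / t) ^ q1 * (x ^ (-q) * t ^ q) = (t / x) ^ (q - q1) := by
      rw [Real.div_rpow hx0.le ht.le, Real.div_rpow ht.le hx0.le, Real.rpow_neg hx0.le,
        Real.rpow_sub ht, Real.rpow_sub hx0]
      have a1 : x ^ q1 ≠ 0 := (Real.rpow_pos_of_pos hx0 _).ne'
      have a2 : x ^ q ≠ 0 := (Real.rpow_pos_of_pos hx0 _).ne'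
      have a3 : t ^ q1 ≠ 0 := (Real.rpow_pos_of_pos ht _).ne'
      field_simp
    have h4 : (t / x) ^ (q - q1) ≤ (t / x) ^ δ :=
      Real.rpow_le_rpow_of_exponent_ge (by positivity) h3 hδ2
    have hxq : 0 ≤ x ^ (-q) * t ^ q := by positivity
    calc Phi x * x ^ (-q) * t ^ q = Phi x * (x ^ (-q) * t ^ q) := by ring
      _ ≤ (C0 * (x / t) ^ q1 * Phi t) * (x ^ (-q) * t ^ q) := by gcongr
      _ = C0 * Phi t * ((x / t) ^ q1 * (x ^ (-q) * t ^ q)) := by ring
      _ = C0 * Phi t * (t / x) ^ (q - q1) := by rw [e1]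
      _ ≤ C0 * Phi t * (t / x) ^ δ := by gcongr

/-- terms bounded by the lower growth, exponent `r < p1` -/
theorem ii_term {Phi : ℝ → ℝ} {p1 q1 C0 : ℝ} (h : Gr Phi p1 q1 C0) {r : ℝ} (_hr : 0 < r)
    (_hrp : r < p1) {t : ℝ} {i : ℤ} (hit : (2 : ℝ) ^ i ≤ t) :
    Phi ((2 : ℝ) ^ i) * ((2 : ℝ) ^ i) ^ (-r) * t ^ r
      ≤ C0 * Phi t * (min ((2 : ℝ) ^ i / t) (t / (2 : ℝ) ^ i)) ^ (p1 - r) := by
  set x : ℝ := (2 : ℝ) ^ i with hx
  have hx0 : 0 < x := by positivity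
  have ht : 0 < t := lt_of_lt_of_le hx0 hit
  have hC := one_le_C0 h
  have hP := phi_nonneg h ht.le
  have h1 := low' h hx0 hit
  have h2 : x / t ≤ 1 := (div_le_one ht).mpr hit
  have h3 : 1 ≤ t / x := (one_le_div hx0).mpr hit
  rw [min_eq_left (h2.trans h3)]
  have e1 : (x / t) ^ p1 * (x ^ (-r) * t ^ r) = (x / t) ^ (p1 - r) := by
    rw [Real.rpow_sub (by positivity), Real.div_rpow hx0.le ht.le, Real.div_rpow hx0.le ht.le,
      Real.rpow_neg hx0.le]
    have a1 : x ^ r ≠ 0 := (Real.rpow_pos_of_pos hx0 _).ne'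
    have a3 : t ^ r ≠ 0 := (Real.rpow_pos_of_pos ht _).ne'
    field_simp
  calc Phi x * x ^ (-r) * t ^ r = Phi x * (x ^ (-r) * t ^ r) := by ring
      _ ≤ (C0 * (x / t) ^ p1 * Phi t) * (x ^ (-r) * t ^ r) := by gcongr
      _ = C0 * Phi t * ((x / t) ^ p1 * (x ^ (-r) * t ^ r)) := by ring
      _ = C0 * Phi t * (x / t) ^ (p1 - r) := by rw [e1]

/-- one term of `PJ` -/
theorem PJ_term {Phi : ℝ → ℝ} {p1 q1 C0 : ℝ} (h : Gr Phi p1 q1 C0) {p : ℝ} {J : ℕ} {t : ℝ}
    {i : ℤ} (hi : i ∈ Finset.Icc (-(J : ℤ)) (J : ℤ)) :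
    Phi ((2 : ℝ) ^ i) * ((2 : ℝ) ^ i) ^ (-p) * (max (t - (2 : ℝ) ^ i) 0) ^ p ≤ PJ Phi p J t := by
  unfold PJ
  apply Finset.single_le_sum (f := fun i : ℤ =>
    Phi ((2 : ℝ) ^ i) * ((2 : ℝ) ^ i) ^ (-p) * (max (t - (2 : ℝ) ^ i) 0) ^ p) _ hi
  intro k _
  have h0 : (0 : ℝ) ≤ (2 : ℝ) ^ k := by positivity
  have hP := phi_nonneg h h0
  have : (0 : ℝ) ≤ max (t - (2 : ℝ) ^ k) 0 := le_max_right _ _
  positivity

theorem PJ_nonneg {Phi : ℝ → ℝ} {p1 q1 C0 : ℝ} (h : Gr Phi p1 q1 C0) (p : ℝ) (J : ℕ) (t : ℝ) :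
    0 ≤ PJ Phi p J t := by
  unfold PJ
  apply Finset.sum_nonneg
  intro k _
  have h0 : (0 : ℝ) ≤ (2 : ℝ) ^ k := by positivity
  have hP := phi_nonneg h h0
  have : (0 : ℝ) ≤ max (t - (2 : ℝ) ^ k) 0 := le_max_right _ _
  positivity

/-- the middle range -/
theorem PJ_mid {Phi : ℝ → ℝ} {p1 q1 C0 : ℝ} (h : Gr Phi p1 q1 C0) {p : ℝ} (hp : 0 < p) {J : ℕ}
    {t : ℝ} {i : ℤ} (hi : i ∈ Finset.Icc (-(J : ℤ)) (J : ℤ)) (h1 : 2 * (2 : ℝ) ^ i ≤ t)
    (h2 : t ≤ 4 * (2 : ℝ) ^ i) :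
    Phi t ≤ C0 * 4 ^ |q1| * PJ Phi p J t := by
  have hC := one_le_C0 h
  have hT := PJ_term h (p := p) (t := t) hi
  set x : ℝ := (2 : ℝ) ^ i with hx
  have hx0 : 0 < x := by positivity
  have hPx := phi_nonneg h hx0.le
  have h3 : Phi x ≤ PJ Phi p J t := by
    refine le_trans ?_ hT
    have h4 : x ≤ max (t - x) 0 := le_max_of_le_left (by linarith)
    have h5 : x ^ p ≤ (max (t - x) 0) ^ p := Real.rpow_le_rpow hx0.le h4 hp.le
    calc Phi x = Phi x * x ^ (-p) * x ^ p := by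
          rw [mul_assoc, ← Real.rpow_add hx0]; simp
      _ ≤ _ := by gcongr
  have h6 := up4 h hx0 (by linarith : x ≤ t) h2
  calc Phi t ≤ C0 * 4 ^ |q1| * Phi x := h6
    _ ≤ _ := by gcongr

/-- choice of the dyadic scale -/
theorem exists_scale {t : ℝ} (ht : 0 < t) :
    ∃ i : ℤ, 2 * (2 : ℝ) ^ i ≤ t ∧ t < 4 * (2 : ℝ) ^ i := by
  refine ⟨Int.log 2 t - 1, ?_, ?_⟩
  · have := Int.zpow_log_le_self (R := ℝ) (b := 2) (by norm_num) ht
    have h2 : (2 : ℝ) * (2 : ℝ) ^ (Int.log 2 t - 1) = (2 : ℝ) ^ (Int.log 2 t) := by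
      rw [zpow_sub_one₀ (by norm_num)]; ring
    rw [h2]
    simpa using this
  · have := Int.lt_zpow_succ_log_self (R := ℝ) (b := 2) (by norm_num) t
    have h2 : (4 : ℝ) * (2 : ℝ) ^ (Int.log 2 t - 1) = (2 : ℝ) ^ (Int.log 2 t + 1) := by
      rw [zpow_sub_one₀ (by norm_num), zpow_add_one₀ (by norm_num)]; ring
    rw [h2]
    simpa using this

end MDB_SCAL

open MDB_SCAL

theorem p_scal : T_scal := by
  intro Phi p1 q1 C0 p q hG hp1 hpp hqq hq
  have hC := one_le_C0 hG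
  have hp0 : 0 < p := by linarith
  have hp10 : 0 < p1 := by linarith
  obtain ⟨G1, hG1, hs1⟩ := geo (min p1 (q - q1)) (lt_min hp10 (by linarith))
  obtain ⟨G2, hG2, hs2⟩ := geo (p1 - p) (by linarith)
  obtain ⟨G3, hG3, hs3⟩ := geo (p1 - 1) (by linarith)
  set D : ℝ := C0 * 4 ^ |q1| with hD
  have hD1 : 1 ≤ D := by
    have : (1 : ℝ) ≤ 4 ^ |q1| := Real.one_le_rpow (by norm_num) (abs_nonneg _)
    nlinarith
  -- the basic estimate for (iii)
  have key : ∀ (J : ℕ) (t : ℝ), 0 < t →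
      ∑ i ∈ Finset.Icc (-(J : ℤ)) (J : ℤ),
        Phi ((2 : ℝ) ^ i) * ((2 : ℝ) ^ i) ^ (-1 : ℝ) * max (t - (2 : ℝ) ^ i / 2) 0
        ≤ C0 * G3 * D * Phi t := by
    intro J t ht
    have hP2 := phi_nonneg hG (by linarith : (0 : ℝ) ≤ 2 * t)
    have h1 : ∀ i ∈ Finset.Icc (-(J : ℤ)) (J : ℤ),
        Phi ((2 : ℝ) ^ i) * ((2 : ℝ) ^ i) ^ (-1 : ℝ) * max (t - (2 : ℝ) ^ i / 2) 0
        ≤ C0 * Phi (2 * t) * (min ((2 : ℝ) ^ i / (2 * t)) (2 * t / (2 : ℝ) ^ i)) ^ (p1 - 1) := by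
      intro i _
      have hx0 : (0 : ℝ) < (2 : ℝ) ^ i := by positivity
      have hPx := phi_nonneg hG hx0.le
      rcases le_or_gt ((2 : ℝ) ^ i) (2 * t) with hh | hh
      · refine le_trans ?_ (ii_term hG one_pos (by linarith) hh)
        have : max (t - (2 : ℝ) ^ i / 2) 0 ≤ (2 * t) ^ (1 : ℝ) := by
          rw [Real.rpow_one]
          exact max_le (by linarith) (by linarith)
        gcongr
      · rw [max_eq_right (by linarith), mul_zero]
        have : (0 : ℝ) ≤ min ((2 : ℝ) ^ i / (2 * t)) (2 * t / (2 : ℝ) ^ i) := by positivity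
        positivity
    calc ∑ i ∈ Finset.Icc (-(J : ℤ)) (J : ℤ),
        Phi ((2 : ℝ) ^ i) * ((2 : ℝ) ^ i) ^ (-1 : ℝ) * max (t - (2 : ℝ) ^ i / 2) 0
        ≤ ∑ i ∈ Finset.Icc (-(J : ℤ)) (J : ℤ),
          C0 * Phi (2 * t) * (min ((2 : ℝ) ^ i / (2 * t)) (2 * t / (2 : ℝ) ^ i)) ^ (p1 - 1) :=
          Finset.sum_le_sum h1
      _ = C0 * Phi (2 * t) * ∑ i ∈ Finset.Icc (-(J : ℤ)) (J : ℤ),
          (min ((2 : ℝ) ^ i / (2 * t)) (2 * t / (2 : ℝ) ^ i)) ^ (p1 - 1) := by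
          rw [Finset.mul_sum]
      _ ≤ C0 * Phi (2 * t) * G3 := by
          gcongr
          exact hs3 _ _ (by linarith)
      _ ≤ C0 * (D * Phi t) * G3 := by
          gcongr
          exact up4 hG ht (by linarith) (by linarith)
      _ = C0 * G3 * D * Phi t := by ring
  set C : ℝ := C0 * G1 + C0 * G2 + (C0 * G3 * D * D + 2 * C0 * G3) + D with hCdef
  have hC0p : 0 < C0 := by linarith
  have hDp : 0 < D := by linarith
  have hCp : 0 < C := by positivity
  have hCa : C0 * G1 ≤ C := by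
    have : 0 ≤ C0 * G2 := by positivity
    have : 0 ≤ C0 * G3 * D * D := by positivity
    have : 0 ≤ 2 * C0 * G3 := by positivity
    rw [hCdef]; linarith
  have hCb : C0 * G2 ≤ C := by
    have : 0 ≤ C0 * G1 := by positivity
    have : 0 ≤ C0 * G3 * D * D := by positivity
    have : 0 ≤ 2 * C0 * G3 := by positivity
    rw [hCdef]; linarith
  have hCc : C0 * G3 * D * D ≤ C := by
    have : 0 ≤ C0 * G1 := by positivity
    have : 0 ≤ C0 * G2 := by positivity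
    have : 0 ≤ 2 * C0 * G3 := by positivity
    rw [hCdef]; linarith
  have hCd : 2 * C0 * G3 ≤ C := by
    have : 0 ≤ C0 * G1 := by positivity
    have : 0 ≤ C0 * G2 := by positivity
    have : 0 ≤ C0 * G3 * D * D := by positivity
    rw [hCdef]; linarith
  have hCe : D ≤ C := by
    have : 0 ≤ C0 * G1 := by positivity
    have : 0 ≤ C0 * G2 := by positivity
    have : 0 ≤ C0 * G3 * D * D := by positivity
    have : 0 ≤ 2 * C0 * G3 := by positivity
    rw [hCdef]; linarith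
  refine ⟨C, hCp, ?_, ?_, ?_, ?_⟩
  · -- (i)
    intro J t ht
    rcases ht.eq_or_lt with rfl | ht0
    · rw [hG.zero, mul_zero]
      apply le_of_eq
      apply Finset.sum_eq_zero
      intro i _
      have : (0 : ℝ) < (2 : ℝ) ^ i := by positivity
      rw [min_eq_left this.le, Real.zero_rpow hq.ne', mul_zero]
    · have hP := phi_nonneg hG ht0.le
      calc ∑ i ∈ Finset.Icc (-(J : ℤ)) (J : ℤ),
            Phi ((2 : ℝ) ^ i) * ((2 : ℝ) ^ i) ^ (-q) * (min t ((2 : ℝ) ^ i)) ^ q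
          ≤ ∑ i ∈ Finset.Icc (-(J : ℤ)) (J : ℤ),
            C0 * Phi t * (min ((2 : ℝ) ^ i / t) (t / (2 : ℝ) ^ i)) ^ (min p1 (q - q1)) :=
            Finset.sum_le_sum (fun i _ => i_term hG (lt_min hp10 (by linarith))
              (min_le_left _ _) (min_le_right _ _) ht0 i)
        _ = C0 * Phi t * ∑ i ∈ Finset.Icc (-(J : ℤ)) (J : ℤ),
            (min ((2 : ℝ) ^ i / t) (t / (2 : ℝ) ^ i)) ^ (min p1 (q - q1)) := by
            rw [Finset.mul_sum]
        _ ≤ C0 * Phi t * G1 := by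
            gcongr
            exact hs1 _ _ ht0
        _ = C0 * G1 * Phi t := by ring
        _ ≤ C * Phi t := by gcongr
  · -- (ii)
    intro J t ht
    rcases ht.eq_or_lt with rfl | ht0
    · rw [hG.zero, mul_zero]
      apply le_of_eq
      apply Finset.sum_eq_zero
      intro i _
      have : (0 : ℝ) < (2 : ℝ) ^ i := by positivity
      rw [max_eq_right (by linarith), Real.zero_rpow hp0.ne', mul_zero]
    · have hP := phi_nonneg hG ht0.le
      have h1 : ∀ i ∈ Finset.Icc (-(J : ℤ)) (J : ℤ),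
          Phi ((2 : ℝ) ^ i) * ((2 : ℝ) ^ i) ^ (-p) * (max (t - (2 : ℝ) ^ i) 0) ^ p
          ≤ C0 * Phi t * (min ((2 : ℝ) ^ i / t) (t / (2 : ℝ) ^ i)) ^ (p1 - p) := by
        intro i _
        have hx0 : (0 : ℝ) < (2 : ℝ) ^ i := by positivity
        have hPx := phi_nonneg hG hx0.le
        rcases le_or_gt ((2 : ℝ) ^ i) t with hh | hh
        · refine le_trans ?_ (ii_term hG hp0 hpp hh)
          have h3 : max (t - (2 : ℝ) ^ i) 0 ≤ t := max_le (by linarith) ht0.le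
          have h4 : (max (t - (2 : ℝ) ^ i) 0) ^ p ≤ t ^ p :=
            Real.rpow_le_rpow (le_max_right _ _) h3 hp0.le
          gcongr
        · rw [max_eq_right (by linarith), Real.zero_rpow hp0.ne', mul_zero]
          have : (0 : ℝ) ≤ min ((2 : ℝ) ^ i / t) (t / (2 : ℝ) ^ i) := by positivity
          positivity
      calc PJ Phi p J t
          ≤ ∑ i ∈ Finset.Icc (-(J : ℤ)) (J : ℤ),
            C0 * Phi t * (min ((2 : ℝ) ^ i / t) (t / (2 : ℝ) ^ i)) ^ (p1 - p) :=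
            Finset.sum_le_sum h1
        _ = C0 * Phi t * ∑ i ∈ Finset.Icc (-(J : ℤ)) (J : ℤ),
            (min ((2 : ℝ) ^ i / t) (t / (2 : ℝ) ^ i)) ^ (p1 - p) := by
            rw [Finset.mul_sum]
        _ ≤ C0 * Phi t * G2 := by
            gcongr
            exact hs2 _ _ ht0
        _ = C0 * G2 * Phi t := by ring
        _ ≤ C * Phi t := by gcongr
  · -- (iii)
    intro J t ht
    have hPJ := PJ_nonneg hG p J t
    have hPm := phi_nonneg hG (by positivity : (0 : ℝ) ≤ (2 : ℝ) ^ (-(J : ℤ)))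
    rcases ht.eq_or_lt with rfl | ht0
    · have : ∑ i ∈ Finset.Icc (-(J : ℤ)) (J : ℤ),
          Phi ((2 : ℝ) ^ i) * ((2 : ℝ) ^ i) ^ (-1 : ℝ) * max (0 - (2 : ℝ) ^ i / 2) 0 = 0 := by
        apply Finset.sum_eq_zero
        intro i _
        have : (0 : ℝ) < (2 : ℝ) ^ i := by positivity
        rw [max_eq_right (by linarith), mul_zero]
      rw [this]
      positivity
    · rcases le_or_gt t (2 * (2 : ℝ) ^ (-(J : ℤ))) with hA | hA
      · -- t small
        have hm : (0 : ℝ) < (2 : ℝ) ^ (-(J : ℤ)) := by positivity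
        have h1 : Phi t ≤ D * Phi ((2 : ℝ) ^ (-(J : ℤ))) := by
          have h2 : Phi t ≤ Phi (2 * (2 : ℝ) ^ (-(J : ℤ))) :=
            hG.mono (Set.mem_Ici.mpr ht) (Set.mem_Ici.mpr (by positivity)) hA
          exact h2.trans (up4 hG hm (by linarith) (by linarith))
        have h3 := key J t ht0
        have h4 : C0 * G3 * D * Phi t ≤ C0 * G3 * D * (D * Phi ((2 : ℝ) ^ (-(J : ℤ)))) := by
          gcongr
        have h5 : C0 * G3 * D * (D * Phi ((2 : ℝ) ^ (-(J : ℤ))))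
            ≤ C * Phi ((2 : ℝ) ^ (-(J : ℤ))) := by
          rw [← mul_assoc]; gcongr
        have h6 : 0 ≤ C * PJ Phi p J t := by positivity
        linarith
      · rcases le_or_gt t (4 * (2 : ℝ) ^ (J : ℤ)) with hB | hB
        · -- middle
          obtain ⟨i, hi1, hi2⟩ := exists_scale ht0
          -- find a scale in range
          have hrange : ∃ i' ∈ Finset.Icc (-(J : ℤ)) (J : ℤ),
              2 * (2 : ℝ) ^ i' ≤ t ∧ t ≤ 4 * (2 : ℝ) ^ i' := by
            rcases le_or_gt i (J : ℤ) with hiJ | hiJ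
            · refine ⟨i, ?_, hi1, hi2.le⟩
              rw [Finset.mem_Icc]
              refine ⟨?_, hiJ⟩
              by_contra hc
              push Not at hc
              have : (2 : ℝ) ^ (i + 1) ≤ (2 : ℝ) ^ (-(J : ℤ)) :=
                zpow_le_zpow_right₀ (by norm_num) (by omega)
              rw [zpow_add_one₀ (by norm_num)] at this
              linarith
            · refine ⟨J, ?_, ?_, hB⟩
              · rw [Finset.mem_Icc]; omega
              · have : (2 : ℝ) ^ (J : ℤ) ≤ (2 : ℝ) ^ i :=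
                  zpow_le_zpow_right₀ (by norm_num) hiJ.le
                linarith
          obtain ⟨i', hi', ha, hb⟩ := hrange
          have h1 := PJ_mid hG hp0 hi' ha hb
          have h3 := key J t ht0
          have h4 : C0 * G3 * D * Phi t ≤ C0 * G3 * D * (D * PJ Phi p J t) := by
            gcongr
          have h5 : C0 * G3 * D * (D * PJ Phi p J t) ≤ C * PJ Phi p J t := by
            rw [← mul_assoc]; gcongr
          have h6 : 0 ≤ C * Phi ((2 : ℝ) ^ (-(J : ℤ))) := by positivity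
          linarith
        · -- large
          set y : ℝ := (2 : ℝ) ^ (J : ℤ) with hy
          have hy0 : 0 < y := by positivity
          have hPy := phi_nonneg hG hy0.le
          have h1 : ∀ i ∈ Finset.Icc (-(J : ℤ)) (J : ℤ),
              Phi ((2 : ℝ) ^ i) * ((2 : ℝ) ^ i) ^ (-1 : ℝ) * max (t - (2 : ℝ) ^ i / 2) 0
              ≤ (t / y) * (C0 * Phi y *
                (min ((2 : ℝ) ^ i / y) (y / (2 : ℝ) ^ i)) ^ (p1 - 1)) := by
            intro i hi
            rw [Finset.mem_Icc] at hi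
            have hx0 : (0 : ℝ) < (2 : ℝ) ^ i := by positivity
            have hPx := phi_nonneg hG hx0.le
            have hxy : (2 : ℝ) ^ i ≤ y := zpow_le_zpow_right₀ (by norm_num) hi.2
            have h2 := ii_term hG one_pos (by linarith : (1 : ℝ) < p1) hxy
            have h3 : max (t - (2 : ℝ) ^ i / 2) 0 ≤ t := max_le (by linarith) ht
            calc Phi ((2 : ℝ) ^ i) * ((2 : ℝ) ^ i) ^ (-1 : ℝ) * max (t - (2 : ℝ) ^ i / 2) 0
                ≤ Phi ((2 : ℝ) ^ i) * ((2 : ℝ) ^ i) ^ (-1 : ℝ) * t := by gcongr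
              _ = (t / y) * (Phi ((2 : ℝ) ^ i) * ((2 : ℝ) ^ i) ^ (-1 : ℝ) * y ^ (1 : ℝ)) := by
                  rw [Real.rpow_one]; field_simp
              _ ≤ _ := by gcongr
          have h2 : ∑ i ∈ Finset.Icc (-(J : ℤ)) (J : ℤ),
              Phi ((2 : ℝ) ^ i) * ((2 : ℝ) ^ i) ^ (-1 : ℝ) * max (t - (2 : ℝ) ^ i / 2) 0
              ≤ (t / y) * (C0 * Phi y * G3) := by
            refine (Finset.sum_le_sum h1).trans ?_
            rw [← Finset.mul_sum, ← Finset.mul_sum]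
            gcongr
            exact hs3 _ _ hy0
          have h3 : t / (2 * y) * Phi y ≤ PJ Phi p J t := by
            have hT := PJ_term hG (p := p) (t := t) (J := J) (i := (J : ℤ))
              (by rw [Finset.mem_Icc]; omega)
            rw [← hy] at hT
            refine le_trans ?_ hT
            have h4 : t / 2 ≤ max (t - y) 0 := le_max_of_le_left (by linarith)
            have h5 : (t / 2) ^ p ≤ (max (t - y) 0) ^ p :=
              Real.rpow_le_rpow (by linarith) h4 hp0.le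
            have h6 : t / (2 * y) ≤ (t / (2 * y)) ^ p := by
              have h7 : 1 ≤ t / (2 * y) := by
                rw [one_le_div (by positivity)]; linarith
              calc t / (2 * y) = (t / (2 * y)) ^ (1 : ℝ) := by rw [Real.rpow_one]
                _ ≤ _ := Real.rpow_le_rpow_of_exponent_le h7 (by linarith)
            calc t / (2 * y) * Phi y ≤ (t / (2 * y)) ^ p * Phi y := by gcongr
              _ = Phi y * y ^ (-p) * (t / 2) ^ p := by
                  have : t / (2 * y) = (t / 2) / y := by field_simp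
                  rw [this, Real.div_rpow (by linarith) hy0.le, Real.rpow_neg hy0.le]
                  ring
              _ ≤ _ := by gcongr
          have h4 : (t / y) * (C0 * Phi y * G3) = 2 * C0 * G3 * (t / (2 * y) * Phi y) := by
            field_simp
          have h5 : 2 * C0 * G3 * (t / (2 * y) * Phi y) ≤ 2 * C0 * G3 * PJ Phi p J t := by
            gcongr
          have h6 : 2 * C0 * G3 * PJ Phi p J t ≤ C * PJ Phi p J t := by gcongr
          have h7 : 0 ≤ C * Phi ((2 : ℝ) ^ (-(J : ℤ))) := by positivity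
          linarith
  · -- (iv)
    intro t ht
    obtain ⟨i, hi1, hi2⟩ := exists_scale ht
    refine ⟨i.natAbs, ?_⟩
    intro J hJ
    have hi : i ∈ Finset.Icc (-(J : ℤ)) (J : ℤ) := by
      rw [Finset.mem_Icc]; omega
    have h1 := PJ_mid hG hp0 hi hi1 hi2.le
    have hPJ := PJ_nonneg hG p J t
    calc Phi t ≤ D * PJ Phi p J t := h1
      _ ≤ C * PJ Phi p J t := by gcongr

end MDB
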