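import Pool.Agent.MDB.two
import Pool.Agent.MDB.klein
import Pool.Agent.MDB.mono
import Pool.Agent.MDB.nrm
import Pool.Agent.MDB.Ecfc
import Pool.Agent.MDB.hold
import Pool.Agent.MDB.T1
import Pool.Agent.MDB.T1d
import Pool.Agent.MDB.I1
import Pool.Agent.MDB.cuc
import Pool.Agent.MDB.dec
import Pool.Agent.MDB.jump
import Pool.Agent.MDB.after
import Pool.Agent.MDB.level
import Pool.Agent.MDB.scal
import Pool.Agent.MDB.core

/-! Assembly of part I. -/

namespace MDB

universe u

theorem all_two : T_two.{u} := p_two
theorem all_klein : T_klein.{u} := p_klein all_two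
theorem all_young : T_young.{u} := p_young all_two
theorem all_monoC : T_monoC.{u} := p_monoC all_klein
theorem all_mono : T_mono.{u} := p_mono all_klein
theorem all_qs : T_qs.{u} := p_qs all_klein all_mono
theorem all_nrm : T_nrm.{u} := p_nrm all_mono all_qs
theorem all_Ecfc : T_Ecfc.{u} := p_Ecfc
theorem all_hold : T_hold.{u} := p_hold all_mono
theorem all_T1 : T_T1.{u} := p_T1 all_hold all_mono all_nrm
theorem all_T1d : T_T1d.{u} := p_T1d all_T1 all_mono all_young all_nrm
theorem all_I1 : T_I1.{u} := p_I1 all_klein all_young all_nrm all_Ecfc all_mono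
theorem all_cuc : T_cuc.{u} := p_cuc
theorem all_dec : T_dec.{u} := p_dec
theorem all_weak : T_weak.{u} := p_weak all_two
theorem all_jump : T_jump.{u} := p_jump all_young all_monoC all_Ecfc all_nrm all_mono
theorem all_after : T_after.{u} := p_after all_I1 all_T1 all_T1d all_nrm all_mono all_qs
theorem all_level : T_level.{u} :=
  p_level all_cuc all_dec all_weak all_jump all_after all_nrm all_monoC all_mono
theorem all_core : T_core.{u} := p_core all_level p_scal all_nrm

end MDB
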