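import Pool.Agent.MDB.Targets2

/-!
# The measure topology is a ring topology
-/

open scoped ENNReal NNReal Topology
open Finset

namespace MDB

open Mc

universe u

namespace H_B_mt

variable {H : Type u} [NormedAddCommGroup H] [InnerProductSpace ℂ H] [CompleteSpace H]

theorem op_mul {𝓜 : TVN H} (x y : Mc 𝓜) : (x * y).op = x.op * y.op := rfl

theorem op_add {𝓜 : TVN H} (x y : Mc 𝓜) : (x + y).op = x.op + y.op := rfl

theorem op_sub {𝓜 : TVN H} (x y : Mc 𝓜) : (x - y).op = x.op - y.op := rfl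

theorem op_neg {𝓜 : TVN H} (x : Mc 𝓜) : (-x).op = -x.op := rfl

theorem op_star {𝓜 : TVN H} (x : Mc 𝓜) : (star x).op = star x.op := rfl

theorem op_one {𝓜 : TVN H} : (1 : Mc 𝓜).op = 1 := rfl

theorem op_zero {𝓜 : TVN H} : (0 : Mc 𝓜).op = 0 := rfl

theorem op_mem {𝓜 : TVN H} (x : Mc 𝓜) : x.op ∈ 𝓜.M := x.2

theorem op_inj {𝓜 : TVN H} {x y : Mc 𝓜} (h : x.op = y.op) : x = y := Subtype.ext h

theorem norm_le_one {e : H →L[ℂ] H} (he : IsStarProjection e) : ‖e‖ ≤ 1 := by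
  simpa using IsStarProjection.norm_le (E := H →L[ℂ] H) e he

theorem idem_aux {R : Type*} [Ring R] {p r : R} (hp : IsIdempotentElem p)
    (hr : IsIdempotentElem r) (h0 : p * r = 0) (h1 : r * p = 0) :
    IsIdempotentElem (1 - p - r) := by
  have e1 : p * p = p := hp
  have e2 : r * r = r := hr
  change (1 - p - r) * (1 - p - r) = 1 - p - r
  have : (1 - p - r) * (1 - p - r) =
      1 - p - r - p + p * p + p * r - r + r * p + r * r := by noncomm_ring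
  rw [this, e1, e2, h0, h1]
  abel

/-- the projection `h` with `(1 - e) y h = 0`. -/
theorem kill (h1 : A_rp.{u}) (h2 : A_rptr.{u}) (h4 : A_tr.{u}) (𝓜 : TVN H) (e y : Mc 𝓜)
    (he : IsP e) : ∃ h : Mc 𝓜, IsP h ∧ (1 - e) * y * h = 0 ∧
      𝓜.tr (1 - h).op ≤ 𝓜.tr (1 - e).op := by
  obtain ⟨hp, hpa, hpb, hpV⟩ := h1 H ((star y * (1 - e) : Mc 𝓜)).op
  obtain ⟨hp', hpa', hpb', hpV'⟩ := h1 H (((1 - e) * y : Mc 𝓜)).op
  have hr : rp ((star y * (1 - e) : Mc 𝓜)).op ∈ 𝓜.M := hpV _ (op_mem _)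
  have hr' : rp (((1 - e) * y : Mc 𝓜)).op ∈ 𝓜.M := hpV' _ (op_mem _)
  have hstar : star ((star y * (1 - e) : Mc 𝓜)).op = (((1 - e) * y : Mc 𝓜)).op := by
    have he' : star e.op = e.op := he.isSelfAdjoint
    rw [op_mul, op_mul, star_mul, op_star, star_star, op_sub, star_sub, op_one, star_one, he']
  refine ⟨1 - Mc.mk _ hr, hp.one_sub, ?_, ?_⟩
  · apply op_inj
    change (1 - e).op * y.op * (1 - rp ((star y * (1 - e) : Mc 𝓜)).op) = 0
    rw [← op_mul, ← hstar]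
    have : star (1 - rp ((star y * (1 - e) : Mc 𝓜)).op) =
        1 - rp ((star y * (1 - e) : Mc 𝓜)).op := hp.one_sub.isSelfAdjoint
    rw [← this, ← star_mul, sub_mul, hpa, one_mul, sub_self, star_zero]
  · have e1 : (1 - (1 - Mc.mk _ hr) : Mc 𝓜).op = rp ((star y * (1 - e) : Mc 𝓜)).op := by
      change 1 - (1 - rp ((star y * (1 - e) : Mc 𝓜)).op) = _
      rw [sub_sub_cancel]
    rw [e1, h2 H 𝓜 _ (op_mem _), hstar]
    have hle : rp (((1 - e) * y : Mc 𝓜)).op ≤ (1 - e).op := by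
      have h0 : e.op * rp (((1 - e) * y : Mc 𝓜)).op = 0 := by
        apply hpb'
        rw [op_mul, ← mul_assoc, op_sub, mul_sub, op_one, mul_one, he.isIdempotentElem.eq, sub_self,
          zero_mul]
      have h0' : rp (((1 - e) * y : Mc 𝓜)).op * e.op = 0 := by
        have := congrArg star h0
        rwa [star_mul, star_zero, hp'.isSelfAdjoint.star_eq, he.isSelfAdjoint.star_eq] at this
      have hpr : IsStarProjection ((1 - e).op - rp (((1 - e) * y : Mc 𝓜)).op) := by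
        constructor
        · exact idem_aux he.isIdempotentElem hp'.isIdempotentElem h0 h0'
        · exact (IsSelfAdjoint.sub (he.one_sub).isSelfAdjoint hp'.isSelfAdjoint)
      have := hpr.nonneg
      exact sub_nonneg.mp this
    exact (h4 H 𝓜).2.1 _ _ hr' (op_mem _) hp'.nonneg hle

theorem meet (h3 : A_meet.{u}) (𝓜 : TVN H) (e f : Mc 𝓜) (he : IsP e) (hf : IsP f) :
    ∃ h : Mc 𝓜, IsP h ∧ e * h = h ∧ f * h = h ∧
      𝓜.tr (1 - h).op ≤ 𝓜.tr (1 - e).op + 𝓜.tr (1 - f).op := by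
  obtain ⟨h, hm, hp, e1, e2, e3⟩ := (h3 H 𝓜).1 e.op f.op (op_mem _) (op_mem _) he hf
  exact ⟨Mc.mk h hm, hp, op_inj e1, op_inj e2, e3⟩

theorem mem_mono {𝓜 : TVN H} {a b : ℝ} (hab : a ≤ b) : Nb 𝓜 a ⊆ Nb 𝓜 b := by
  rintro x ⟨e, he, h1, h2⟩
  exact ⟨e, he, h1.trans hab, h2.trans (ENNReal.ofReal_le_ofReal hab)⟩

theorem norm_mul_proj {𝓜 : TVN H} (x h : Mc 𝓜) (hp : IsP h) : ‖(x * h).op‖ ≤ ‖x.op‖ := by
  calc ‖(x * h).op‖ ≤ ‖x.op‖ * ‖h.op‖ := norm_mul_le _ _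
    _ ≤ ‖x.op‖ * 1 := by gcongr; exact norm_le_one hp
    _ = _ := mul_one _

/-- the basis -/
@[reducible]
noncomputable def bas (h1 : A_rp.{u}) (h2 : A_rptr.{u}) (h3 : A_meet.{u}) (h4 : A_tr.{u})
    (𝓜 : TVN H) : RingFilterBasis (Mc 𝓜) where
  sets := {U | ∃ ε : ℝ, 0 < ε ∧ U = Nb 𝓜 ε}
  nonempty := ⟨_, 1, one_pos, rfl⟩
  inter_sets := by
    rintro _ _ ⟨a, ha, rfl⟩ ⟨b, hb, rfl⟩
    exact ⟨_, ⟨min a b, lt_min ha hb, rfl⟩,
      Set.subset_inter (mem_mono (min_le_left _ _)) (mem_mono (min_le_right _ _))⟩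
  zero' := by
    rintro _ ⟨a, ha, rfl⟩
    refine ⟨1, IsStarProjection.one _, ?_, ?_⟩
    · rw [zero_mul, op_zero, norm_zero]; exact ha.le
    · rw [sub_self, op_zero, (h4 H 𝓜).1]; exact bot_le
  add' := by
    rintro _ ⟨a, ha, rfl⟩
    refine ⟨_, ⟨a / 2, half_pos ha, rfl⟩, ?_⟩
    rintro _ ⟨x, ⟨e, he, x1, x2⟩, y, ⟨f, hf, y1, y2⟩, rfl⟩
    obtain ⟨h, hp, e1, e2, e3⟩ := meet h3 𝓜 e f he hf
    refine ⟨h, hp, ?_, ?_⟩
    · have : (x + y) * h = x * e * h + y * f * h := by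
        rw [mul_assoc x, mul_assoc y, e1, e2, add_mul]
      change ‖((x + y) * h).op‖ ≤ a
      rw [this, op_add]
      calc _ ≤ ‖(x * e * h).op‖ + ‖(y * f * h).op‖ := norm_add_le _ _
        _ ≤ ‖(x * e).op‖ + ‖(y * f).op‖ := add_le_add (norm_mul_proj _ _ hp) (norm_mul_proj _ _ hp)
        _ ≤ a := by linarith
    · refine e3.trans ((add_le_add x2 y2).trans ?_)
      rw [← ENNReal.ofReal_add (by linarith) (by linarith), add_halves]
  neg' := by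
    rintro _ ⟨a, ha, rfl⟩
    refine ⟨_, ⟨a, ha, rfl⟩, ?_⟩
    rintro x ⟨e, he, x1, x2⟩
    refine ⟨e, he, ?_, x2⟩
    rw [neg_mul, op_neg, norm_neg]; exact x1
  conj' := by
    intro x₀ U hU
    refine ⟨U, hU, ?_⟩
    intro x hx
    change x₀ + x + -x₀ ∈ U
    rwa [add_comm x₀, add_assoc, add_neg_cancel, add_zero]
  mul' := by
    rintro _ ⟨a, ha, rfl⟩
    refine ⟨_, ⟨min (a / 2) 1, lt_min (half_pos ha) one_pos, rfl⟩, ?_⟩
    rintro _ ⟨x, ⟨e, he, x1, x2⟩, y, ⟨f, hf, y1, y2⟩, rfl⟩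
    obtain ⟨k, hk, k1, k2⟩ := kill h1 h2 h4 𝓜 e y he
    obtain ⟨h, hp, e1, e2, e3⟩ := meet h3 𝓜 k f hk hf
    have hpos : 0 < min (a / 2) 1 := lt_min (half_pos ha) one_pos
    refine ⟨h, hp, ?_, ?_⟩
    · have hy : y * h = e * (y * h) := by
        have : (1 - e) * (y * h) = 0 := by
          rw [← e1, ← mul_assoc, ← mul_assoc, k1, zero_mul]
        rw [sub_mul, one_mul, sub_eq_zero] at this
        exact this
      have : x * y * h = (x * e) * ((y * f) * h) := by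
        rw [mul_assoc x, mul_assoc x, mul_assoc y f, e2, ← hy]
      change ‖(x * y * h).op‖ ≤ a
      rw [this, op_mul]
      calc _ ≤ ‖(x * e).op‖ * ‖(y * f * h).op‖ := norm_mul_le _ _
        _ ≤ min (a / 2) 1 * 1 := by
            apply mul_le_mul x1 _ (norm_nonneg _) hpos.le
            exact (norm_mul_proj _ _ hp).trans (y1.trans (min_le_right _ _))
        _ ≤ a / 2 * 1 := by gcongr; exact min_le_left _ _
        _ ≤ a := by linarith
    · refine e3.trans ((add_le_add (k2.trans x2) y2).trans ?_)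
      rw [← ENNReal.ofReal_add hpos.le hpos.le]
      apply ENNReal.ofReal_le_ofReal
      have := min_le_left (a / 2) 1
      linarith
  mul_left' := by
    rintro x₀ _ ⟨a, ha, rfl⟩
    have hn : 0 < ‖x₀.op‖ + 1 := by positivity
    refine ⟨_, ⟨min a (a / (‖x₀.op‖ + 1)), lt_min ha (div_pos ha hn), rfl⟩, ?_⟩
    rintro x ⟨e, he, x1, x2⟩
    refine ⟨e, he, ?_, x2.trans (ENNReal.ofReal_le_ofReal (min_le_left _ _))⟩
    change ‖(x₀ * x * e).op‖ ≤ a
    rw [mul_assoc, op_mul]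
    calc _ ≤ ‖x₀.op‖ * ‖(x * e).op‖ := norm_mul_le _ _
      _ ≤ (‖x₀.op‖ + 1) * (a / (‖x₀.op‖ + 1)) := by
          apply mul_le_mul (by linarith) (x1.trans (min_le_right _ _)) (norm_nonneg _) hn.le
      _ = a := by field_simp
  mul_right' := by
    rintro x₀ _ ⟨a, ha, rfl⟩
    have hn : 0 < ‖x₀.op‖ + 1 := by positivity
    refine ⟨_, ⟨min a (a / (‖x₀.op‖ + 1)), lt_min ha (div_pos ha hn), rfl⟩, ?_⟩
    rintro x ⟨e, he, x1, x2⟩
    obtain ⟨k, hk, k1, k2⟩ := kill h1 h2 h4 𝓜 e x₀ he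
    refine ⟨k, hk, ?_, (k2.trans x2).trans (ENNReal.ofReal_le_ofReal (min_le_left _ _))⟩
    change ‖(x * x₀ * k).op‖ ≤ a
    have hy : x₀ * k = e * (x₀ * k) := by
      rw [mul_assoc, sub_mul, one_mul, sub_eq_zero] at k1
      exact k1
    have : x * x₀ * k = (x * e) * (x₀ * k) := by
      rw [mul_assoc x, mul_assoc x, ← hy]
    rw [this, op_mul]
    calc _ ≤ ‖(x * e).op‖ * ‖(x₀ * k).op‖ := norm_mul_le _ _
      _ ≤ (a / (‖x₀.op‖ + 1)) * (‖x₀.op‖ + 1) := by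
          apply mul_le_mul (x1.trans (min_le_right _ _)) _ (norm_nonneg _) (div_pos ha hn).le
          exact (norm_mul_proj _ _ hk).trans (by linarith)
      _ = a := by field_simp

end H_B_mt

open H_B_mt

theorem q_mt (h1 : A_rp.{u}) (h2 : A_rptr.{u}) (h3 : A_meet.{u}) (h4 : A_tr.{u}) : B_mt.{u} := by
  intro H _ _ _ 𝓜
  let _ : TopologicalSpace (Mc 𝓜) := (bas h1 h2 h3 h4 𝓜).topology
  have hring : IsTopologicalRing (Mc 𝓜) := (bas h1 h2 h3 h4 𝓜).isTopologicalRing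
  have : IsTopologicalAddGroup (Mc 𝓜) := hring.to_topologicalAddGroup
  let us : UniformSpace (Mc 𝓜) := IsTopologicalAddGroup.rightUniformSpace (Mc 𝓜)
  refine ⟨us, hring, isUniformAddGroup_of_addCommGroup, ?_⟩
  have hb := (bas h1 h2 h3 h4 𝓜).toAddGroupFilterBasis.nhds_zero_hasBasis
  unfold IsMT
  refine ⟨fun t => ?_⟩
  rw [hb.mem_iff]
  constructor
  · rintro ⟨_, ⟨a, ha, rfl⟩, hs⟩
    exact ⟨a, ha, hs⟩
  · rintro ⟨a, ha, hs⟩
    exact ⟨_, ⟨a, ha, rfl⟩, hs⟩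

end MDB
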