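import Pool.Agent.MDB.Targets2

/-!
# Mixed Doob-Burkholder: contractivity of the conditional expectations in Orlicz spaces
-/

open scoped ENNReal NNReal Topology
open Finset MeasureTheory

namespace MDB

open Mc

universe u

namespace H_C_E

section op

variable {H : Type u} [NormedAddCommGroup H] [InnerProductSpace ℂ H] [CompleteSpace H]
variable {𝓜 : TVN H}

lemma op_inj {x y : Mc 𝓜} (h : x.op = y.op) : x = y := Subtype.ext h
lemma op_add (x y : Mc 𝓜) : (x + y).op = x.op + y.op := rfl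
lemma op_sub (x y : Mc 𝓜) : (x - y).op = x.op - y.op := rfl
lemma op_neg (x : Mc 𝓜) : (-x).op = -x.op := rfl
lemma op_mul (x y : Mc 𝓜) : (x * y).op = x.op * y.op := rfl
lemma op_star (x : Mc 𝓜) : (star x).op = star x.op := rfl
lemma op_one : (1 : Mc 𝓜).op = 1 := rfl
lemma op_smul (c : ℂ) (x : Mc 𝓜) : (c • x).op = c • x.op := rfl
lemma op_mem (x : Mc 𝓜) : x.op ∈ 𝓜.M := x.2

/-- compression by a projection does not increase the trace of a positive operator -/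
lemma tr_compr (h5 : A_tr.{u}) (h6 : A_cfc.{u}) (c P : H →L[ℂ] H) (hc : c ∈ 𝓜.M) (hc0 : 0 ≤ c)
    (hP : P ∈ 𝓜.M) (hPp : IsStarProjection P) : 𝓜.tr (P * c * P) ≤ 𝓜.tr c := by
  set s : H →L[ℂ] H := cfc Real.sqrt c with hs
  have hsm : s ∈ 𝓜.M := h6 H 𝓜.M c _ hc
  have hs0 : 0 ≤ s := cfc_nonneg (fun x _ => Real.sqrt_nonneg _)
  have hssa : star s = s := (IsSelfAdjoint.of_nonneg hs0).star_eq
  have hcsa : IsSelfAdjoint c := IsSelfAdjoint.of_nonneg hc0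
  have hss : s * s = c := by
    rw [hs, ← cfc_mul Real.sqrt Real.sqrt c (by fun_prop) (by fun_prop)]
    conv_rhs => rw [← cfc_id' ℝ c hcsa]
    refine cfc_congr fun x hx => ?_
    exact Real.mul_self_sqrt (spectrum_nonneg_of_nonneg hc0 hx)
  have h := (h5 H 𝓜).2.2.2.1 s P hsm hP
  have hPs : star P = P := hPp.isSelfAdjoint.star_eq
  have e1 : star (s * P) * (s * P) = P * c * P := by
    rw [star_mul, hPs, hssa, ← hss]; noncomm_ring
  have e2 : star s * s = c := by rw [hssa, hss]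
  rw [e1, e2] at h
  refine h.trans ?_
  have hn : ‖P‖ ≤ 1 := hPp.norm_le
  have : ENNReal.ofReal (‖P‖ ^ 2) ≤ 1 := by
    rw [ENNReal.ofReal_le_one]
    exact pow_le_one₀ (norm_nonneg _) hn
  calc ENNReal.ofReal (‖P‖ ^ 2) * 𝓜.tr c ≤ 1 * 𝓜.tr c := by gcongr
    _ = _ := one_mul _

/-- if `y ≤ c`, `0 ≤ c`, then the trace of the positive part of `y` is at most that of `c` -/
lemma tr_pos (h4 : A_spec.{u}) (h5 : A_tr.{u}) (h6 : A_cfc.{u}) (y c : H →L[ℂ] H)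
    (hy : y ∈ 𝓜.M) (hysa : IsSelfAdjoint y) (hc : c ∈ 𝓜.M) (hc0 : 0 ≤ c) (hyc : y ≤ c) :
    𝓜.tr (cfc (fun s : ℝ => max s 0) y) ≤ 𝓜.tr c := by
  obtain ⟨P, hPp, hPy, hlow, hup, -, hV, -⟩ := h4 H y 0 hysa
  have hP : P ∈ 𝓜.M := hV 𝓜.M hy
  rw [Complex.ofReal_zero, zero_smul] at hlow hup
  have hPP : P * P = P := hPp.isIdempotentElem.eq
  have hPs : star P = P := hPp.isSelfAdjoint.star_eq
  have e1 : y = P * y * P - (-((1 - P) * y * (1 - P))) := by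
    have a1 : P * y * P = y * P := by rw [hPy, mul_assoc, hPP]
    have a2 : (1 - P) * y * (1 - P) = y - y * P := by
      have : (1 - P) * y = y * (1 - P) := by rw [sub_mul, mul_sub, one_mul, mul_one, hPy]
      rw [this, mul_assoc, mul_sub, sub_mul, sub_mul, mul_one, mul_one, one_mul, hPP]
      noncomm_ring
    rw [a1, a2]; abel
  have e2 : P * y * P * (-((1 - P) * y * (1 - P))) = 0 := by
    have : P * (1 - P) = 0 := by rw [mul_sub, mul_one, hPP, sub_self]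
    calc P * y * P * (-((1 - P) * y * (1 - P))) = -(P * y * (P * (1 - P)) * y * (1 - P)) := by
          noncomm_ring
      _ = 0 := by rw [this]; simp
  have e3 := (CFC.posPart_negPart_unique e1 e2 hlow (neg_nonneg.mpr hup)).1
  have e4 : cfc (fun s : ℝ => max s 0) y = P * y * P := by
    rw [← e3, CFC.posPart_def, cfcₙ_eq_cfc (by fun_prop) (by exact posPart_zero)]
    rfl
  rw [e4]
  have hPc : P * y * P ≤ P * c * P := by
    have := star_left_conjugate_le_conjugate hyc P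
    rwa [hPs] at this
  exact ((h5 H 𝓜).2.1 _ _ (mul_mem (mul_mem hP hy) hP) (mul_mem (mul_mem hP hc) hP) hlow hPc).trans
    (tr_compr h5 h6 c P hc hc0 hP hPp)

lemma E_sub_const (h1 : A_E.{u}) (F : Filtr 𝓜) (n : ℕ) (x : Mc 𝓜) (r : ℂ) :
    F.E n (x - r • (1 : Mc 𝓜)) = F.E n x - r • (1 : Mc 𝓜) := by
  rw [map_sub, map_smul, (h1 H 𝓜 F).2.1 n]

lemma cfc_shift (y : H →L[ℂ] H) (hy : IsSelfAdjoint y) (lam : ℝ) :
    cfc (fun s : ℝ => max (s - lam) 0) y = cfc (fun s : ℝ => max s 0) (y - (lam : ℂ) • 1) := by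
  have e : cfc (fun s : ℝ => s - lam) y = y - (lam : ℂ) • 1 := by
    rw [cfc_sub (fun s : ℝ => s) (fun _ => lam) y (by fun_prop) (by fun_prop), cfc_id' ℝ y hy,
      cfc_const lam y hy, Algebra.algebraMap_eq_smul_one]
    congr 1
  rw [← e, ← cfc_comp' (fun s : ℝ => max s 0) (fun s : ℝ => s - lam) y (by fun_prop) (by fun_prop) hy]

lemma cut1 (h1 : A_E.{u}) (h4 : A_spec.{u}) (h5 : A_tr.{u}) (h6 : A_cfc.{u}) (F : Filtr 𝓜) (n : ℕ)
    (x : Mc 𝓜) (hx : IsSelfAdjoint x.op) (lam : ℝ) :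
    𝓜.tr (cfc (fun s : ℝ => max (s - lam) 0) (F.E n x).op)
      ≤ 𝓜.tr (cfc (fun s : ℝ => max (s - lam) 0) x.op) := by
  have hE := h1 H 𝓜 F
  have hExs : IsSelfAdjoint (F.E n x).op := by
    rw [IsSelfAdjoint, ← op_star, ← hE.1]
    congr 2
    exact op_inj hx
  have hcm : cfc (fun s : ℝ => max (s - lam) 0) x.op ∈ 𝓜.M := h6 H 𝓜.M x.op _ (op_mem x)
  set c : Mc 𝓜 := ⟨cfc (fun s : ℝ => max (s - lam) 0) x.op, hcm⟩ with hc
  have hcop : c.op = cfc (fun s : ℝ => max (s - lam) 0) x.op := rfl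
  have hc0 : 0 ≤ c.op := by
    rw [hcop]
    exact cfc_nonneg (fun x _ => le_max_right _ _)
  have hxc : (x - (lam : ℂ) • (1 : Mc 𝓜)).op ≤ c.op := by
    rw [hcop, op_sub, op_smul, op_one]
    have e : cfc (fun s : ℝ => s - lam) x.op = x.op - (lam : ℂ) • 1 := by
      rw [cfc_sub (fun s : ℝ => s) (fun _ => lam) x.op (by fun_prop) (by fun_prop), cfc_id' ℝ x.op hx,
        cfc_const lam x.op hx, Algebra.algebraMap_eq_smul_one]
      congr 1
    rw [← e]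
    exact cfc_mono (fun s _ => le_max_left _ _) (by fun_prop) (by fun_prop)
  have h2 := hE.2.2.2.2.2.1 n _ _ hxc
  rw [E_sub_const h1, op_sub, op_smul, op_one] at h2
  rw [cfc_shift _ hExs]
  have h3 : IsSelfAdjoint ((F.E n x).op - (lam : ℂ) • (1 : H →L[ℂ] H)) := by
    refine hExs.sub ?_
    rw [IsSelfAdjoint, star_smul, star_one, RCLike.star_def, Complex.conj_ofReal]
  have h7 : (F.E n x).op - (lam : ℂ) • (1 : H →L[ℂ] H) ∈ 𝓜.M :=
    op_mem (F.E n x - (lam : ℂ) • (1 : Mc 𝓜))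
  have h8 := tr_pos h4 h5 h6 _ _ h7 h3 (op_mem (F.E n c)) (F.E_nonneg n c hc0) h2
  rw [F.E_tr n c hc0] at h8
  exact h8

lemma cut2_split (h6 : A_cfc.{u}) (y : Mc 𝓜) (hy : IsSelfAdjoint y.op) (lam : ℝ) (hlam : 0 ≤ lam) :
    𝓜.tr (cfc (fun s : ℝ => max (|s| - lam) 0) y.op)
      = 𝓜.tr (cfc (fun s : ℝ => max (s - lam) 0) y.op)
        + 𝓜.tr (cfc (fun s : ℝ => max (s - lam) 0) (-y).op) := by
  have e1 : cfc (fun s : ℝ => max (s - lam) 0) (-y).op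
      = cfc (fun s : ℝ => max (-s - lam) 0) y.op := by
    rw [op_neg, ← cfc_comp_neg (fun s : ℝ => max (s - lam) 0) y.op (by fun_prop) hy]
  have e2 : cfc (fun s : ℝ => max (|s| - lam) 0) y.op
      = cfc (fun s : ℝ => max (s - lam) 0) y.op + cfc (fun s : ℝ => max (-s - lam) 0) y.op := by
    rw [← cfc_add y.op (fun s : ℝ => max (s - lam) 0) (fun s : ℝ => max (-s - lam) 0)
      (by fun_prop) (by fun_prop)]
    refine cfc_congr fun s _ => ?_
    rcases le_total 0 s with hs | hs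
    · rw [abs_of_nonneg hs, max_eq_right (a := -s - lam) (by linarith), add_zero]
    · rw [abs_of_nonpos hs, max_eq_right (a := s - lam) (by linarith), zero_add]
  rw [e1, e2]
  exact 𝓜.tr_add _ _ (h6 H 𝓜.M _ _ (op_mem y)) (h6 H 𝓜.M _ _ (op_mem y))
    (cfc_nonneg (fun x _ => le_max_right _ _)) (cfc_nonneg (fun x _ => le_max_right _ _))

lemma cut2 (h1 : A_E.{u}) (h4 : A_spec.{u}) (h5 : A_tr.{u}) (h6 : A_cfc.{u}) (F : Filtr 𝓜) (n : ℕ)
    (x : Mc 𝓜) (hx : IsSelfAdjoint x.op) (lam : ℝ) (hlam : 0 ≤ lam) :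
    𝓜.tr (cfc (fun s : ℝ => max (|s| - lam) 0) (F.E n x).op)
      ≤ 𝓜.tr (cfc (fun s : ℝ => max (|s| - lam) 0) x.op) := by
  have hE := h1 H 𝓜 F
  have hExs : IsSelfAdjoint (F.E n x).op := by
    rw [IsSelfAdjoint, ← op_star, ← hE.1]
    congr 2
    exact op_inj hx
  rw [cut2_split h6 _ hExs lam hlam, cut2_split h6 _ hx lam hlam]
  have h2 := cut1 h1 h4 h5 h6 F n x hx lam
  have h3 := cut1 h1 h4 h5 h6 F n (-x) (by rw [op_neg]; exact hx.neg) lam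
  rw [map_neg] at h3
  exact add_le_add h2 h3

end op

section scalar

variable {Phi : ℝ → ℝ} {p1 q1 C0 : ℝ}

/-- the term of the dyadic sum -/
noncomputable def term (Phi : ℝ → ℝ) (i : ℤ) (s : ℝ) : ℝ :=
  Phi ((2 : ℝ) ^ i) * ((2 : ℝ) ^ i)⁻¹ * max (s - (2 : ℝ) ^ i) 0

lemma C0_ge (hG : Gr Phi p1 q1 C0) : 1 ≤ C0 := by
  have h := hG.low 1 one_pos 1 one_pos le_rfl
  rw [mul_one, Real.one_rpow, mul_one] at h
  have hp := hG.pos 1 one_pos
  by_contra hc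
  push Not at hc
  nlinarith

lemma term_nonneg (hG : Gr Phi p1 q1 C0) (i : ℤ) (s : ℝ) : 0 ≤ term Phi i s := by
  unfold term
  have h2 : (0 : ℝ) < (2 : ℝ) ^ i := by positivity
  have := (hG.pos _ h2).le
  have h3 : 0 ≤ max (s - (2 : ℝ) ^ i) 0 := le_max_right _ _
  positivity

lemma lower (hG : Gr Phi p1 q1 C0) (s : ℝ) (hs : 0 < s) :
    ∃ i : ℤ, Phi s ≤ C0 * (4 : ℝ) ^ |q1| * term Phi i s := by
  obtain ⟨k, hk1, hk2⟩ := exists_mem_Ico_zpow (x := s) (y := 2) hs (by norm_num)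
  refine ⟨k - 1, ?_⟩
  have hC0 := C0_ge hG
  set t : ℝ := (2 : ℝ) ^ (k - 1) with ht
  have htp : 0 < t := by positivity
  have hk : (2 : ℝ) ^ k = 2 * t := by
    rw [ht, zpow_sub_one₀ (by norm_num)]; ring
  have hk' : (2 : ℝ) ^ (k + 1) = 4 * t := by
    rw [zpow_add_one₀ (by norm_num), hk]; ring
  rw [hk] at hk1
  rw [hk'] at hk2
  have h1 : 1 ≤ s / t := by
    rw [le_div_iff₀ htp]; linarith
  have h2 : s / t ≤ 4 := by
    rw [div_le_iff₀ htp]; linarith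
  have h3 := hG.up t htp (s / t) h1
  rw [div_mul_cancel₀ _ htp.ne'] at h3
  have h4 : (s / t) ^ q1 ≤ (4 : ℝ) ^ |q1| := by
    calc (s / t) ^ q1 ≤ (s / t) ^ |q1| := Real.rpow_le_rpow_of_exponent_le h1 (le_abs_self _)
      _ ≤ (4 : ℝ) ^ |q1| := Real.rpow_le_rpow (by positivity) h2 (abs_nonneg _)
  have hPt := hG.pos t htp
  have h5 : Phi t ≤ term Phi (k - 1) s := by
    unfold term
    rw [← ht]
    have h6 : t ≤ max (s - t) 0 := le_max_of_le_left (by linarith)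
    calc Phi t = Phi t * t⁻¹ * t := by field_simp
      _ ≤ Phi t * t⁻¹ * max (s - t) 0 := by gcongr
  calc Phi s ≤ C0 * (s / t) ^ q1 * Phi t := h3
    _ ≤ C0 * (4 : ℝ) ^ |q1| * Phi t := by gcongr
    _ ≤ C0 * (4 : ℝ) ^ |q1| * term Phi (k - 1) s := by gcongr

lemma upper (hG : Gr Phi p1 q1 C0) (hp : 1 < p1) (s : ℝ) (hs : 0 < s) :
    ∃ k : ℤ, ∀ i : ℤ, term Phi i s ≤ C0 * Phi s * ((2 : ℝ) ^ (-(p1 - 1))) ^ (k - i).natAbs := by
  obtain ⟨k, hk1, hk2⟩ := exists_mem_Ico_zpow (x := s) (y := 2) hs (by norm_num)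
  refine ⟨k, fun i => ?_⟩
  have hC0 := C0_ge hG
  have hPs := hG.pos s hs
  have hrho : 0 < (2 : ℝ) ^ (-(p1 - 1)) := by positivity
  have hrho1 : (2 : ℝ) ^ (-(p1 - 1)) ≤ 1 := by
    apply Real.rpow_le_one_of_one_le_of_nonpos (by norm_num) (by linarith)
  set t : ℝ := (2 : ℝ) ^ i with ht
  have htp : 0 < t := by positivity
  rcases le_or_gt s t with hst | hst
  · have : term Phi i s = 0 := by
      unfold term
      rw [← ht, max_eq_right (by linarith), mul_zero]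
    rw [this]
    positivity
  · have hik : i ≤ k := by
      by_contra hc
      push Not at hc
      have : (2 : ℝ) ^ (k + 1) ≤ t := by
        rw [ht]
        exact zpow_le_zpow_right₀ (by norm_num) (by omega)
      linarith
    have h1 := hG.low s hs (t / s) (by positivity) (by rw [div_le_one hs]; exact hst.le)
    rw [div_mul_cancel₀ _ hs.ne'] at h1
    have h2 : term Phi i s ≤ C0 * Phi s * (t / s) ^ (p1 - 1) := by
      unfold term
      rw [← ht]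
      have h3 : max (s - t) 0 ≤ s := max_le (by linarith) hs.le
      have hPt := hG.pos t htp
      calc Phi t * t⁻¹ * max (s - t) 0 ≤ Phi t * t⁻¹ * s := by gcongr
        _ ≤ (C0 * (t / s) ^ p1 * Phi s) * t⁻¹ * s := by gcongr
        _ = C0 * Phi s * ((t / s) ^ p1 * (t / s)⁻¹) := by rw [inv_div]; ring
        _ = C0 * Phi s * (t / s) ^ (p1 - 1) := by
          rw [Real.rpow_sub_one (by positivity)]
          exact congrArg _ (div_eq_mul_inv _ _).symm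
    refine h2.trans ?_
    have h4 : t / s ≤ ((2 : ℝ) ^ (k - i).natAbs)⁻¹ := by
      have e : (2 : ℝ) ^ (k - i).natAbs = (2 : ℝ) ^ (k - i) := by
        rw [← zpow_natCast]
        congr 1
        rw [Int.natCast_natAbs, abs_of_nonneg (by omega)]
      rw [e, zpow_sub₀ (by norm_num), ← ht, inv_div]
      gcongr
    have h5 : (t / s) ^ (p1 - 1) ≤ ((2 : ℝ) ^ (-(p1 - 1))) ^ (k - i).natAbs := by
      calc (t / s) ^ (p1 - 1) ≤ (((2 : ℝ) ^ (k - i).natAbs)⁻¹) ^ (p1 - 1) :=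
            Real.rpow_le_rpow (by positivity) h4 (by linarith)
        _ = ((2 : ℝ) ^ (-(p1 - 1))) ^ (k - i).natAbs := by
          rw [← Real.rpow_natCast ((2 : ℝ) ^ (-(p1 - 1))), ← Real.rpow_mul (by norm_num),
            Real.inv_rpow (by positivity), ← Real.rpow_natCast (2 : ℝ),
            ← Real.rpow_mul (by norm_num), ← Real.rpow_neg (by norm_num)]
          congr 1
          ring
    gcongr

lemma summ (rho : ℝ) (h0 : 0 ≤ rho) (h1 : rho < 1) : Summable (fun j : ℤ => rho ^ j.natAbs) := by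
  refine Summable.of_nat_of_neg ?_ ?_
  · simpa using summable_geometric_of_lt_one h0 h1
  · simpa using summable_geometric_of_lt_one h0 h1

lemma scal1 (hG : Gr Phi p1 q1 C0) (s : ℝ) (hs : 0 ≤ s) :
    ENNReal.ofReal (Phi s) ≤ ENNReal.ofReal (C0 * (4 : ℝ) ^ |q1|)
      * ∑' i : ℤ, ENNReal.ofReal (term Phi i s) := by
  rcases hs.eq_or_lt with hs | hs
  · rw [← hs, hG.zero, ENNReal.ofReal_zero]
    exact zero_le
  obtain ⟨i, hi⟩ := lower hG s hs
  have hC0 := C0_ge hG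
  calc ENNReal.ofReal (Phi s) ≤ ENNReal.ofReal (C0 * (4 : ℝ) ^ |q1| * term Phi i s) :=
        ENNReal.ofReal_le_ofReal hi
    _ = ENNReal.ofReal (C0 * (4 : ℝ) ^ |q1|) * ENNReal.ofReal (term Phi i s) := by
        rw [ENNReal.ofReal_mul (by positivity)]
    _ ≤ _ := by
        gcongr
        exact ENNReal.le_tsum i

lemma scal2 (hG : Gr Phi p1 q1 C0) (hp : 1 < p1) (s : ℝ) (hs : 0 ≤ s) :
    ∑' i : ℤ, ENNReal.ofReal (term Phi i s)
      ≤ ENNReal.ofReal (C0 * ∑' j : ℤ, ((2 : ℝ) ^ (-(p1 - 1))) ^ j.natAbs)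
        * ENNReal.ofReal (Phi s) := by
  have hC0 := C0_ge hG
  have hrho : 0 < (2 : ℝ) ^ (-(p1 - 1)) := by positivity
  have hrho1 : (2 : ℝ) ^ (-(p1 - 1)) < 1 := by
    apply Real.rpow_lt_one_of_one_lt_of_neg (by norm_num) (by linarith)
  rcases hs.eq_or_lt with hs | hs
  · have : ∀ i : ℤ, ENNReal.ofReal (term Phi i s) = 0 := by
      intro i
      unfold term
      have : (0 : ℝ) < (2 : ℝ) ^ i := by positivity
      rw [max_eq_right (by linarith), mul_zero, ENNReal.ofReal_zero]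
    simp only [this, tsum_zero]
    exact zero_le
  obtain ⟨k, hk⟩ := upper hG hp s hs
  have hPs := hG.pos s hs
  calc ∑' i : ℤ, ENNReal.ofReal (term Phi i s)
      ≤ ∑' i : ℤ, ENNReal.ofReal (C0 * Phi s * ((2 : ℝ) ^ (-(p1 - 1))) ^ (k - i).natAbs) :=
        ENNReal.tsum_le_tsum fun i => ENNReal.ofReal_le_ofReal (hk i)
    _ = ∑' j : ℤ, ENNReal.ofReal (C0 * Phi s * ((2 : ℝ) ^ (-(p1 - 1))) ^ j.natAbs) :=
        (Equiv.subLeft k).tsum_eq (fun j : ℤ =>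
          ENNReal.ofReal (C0 * Phi s * ((2 : ℝ) ^ (-(p1 - 1))) ^ j.natAbs))
    _ = ∑' j : ℤ, ENNReal.ofReal (C0 * Phi s) * ENNReal.ofReal (((2 : ℝ) ^ (-(p1 - 1))) ^ j.natAbs) := by
        congr 1
        funext j
        rw [ENNReal.ofReal_mul (by positivity)]
    _ = ENNReal.ofReal (C0 * Phi s) * ENNReal.ofReal (∑' j : ℤ, ((2 : ℝ) ^ (-(p1 - 1))) ^ j.natAbs) := by
        rw [ENNReal.tsum_mul_left, ENNReal.ofReal_tsum_of_nonneg (fun j => by positivity)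
          (summ _ hrho.le hrho1)]
    _ = _ := by
        have h0 : 0 ≤ ∑' j : ℤ, ((2 : ℝ) ^ (-(p1 - 1))) ^ j.natAbs :=
          tsum_nonneg (fun j => by positivity)
        rw [← ENNReal.ofReal_mul (by positivity), ← ENNReal.ofReal_mul (by positivity)]
        congr 1
        ring

end scalar

section orlp

variable {H : Type u} [NormedAddCommGroup H] [InnerProductSpace ℂ H] [CompleteSpace H]
variable {𝓜 : TVN H}

/-- trace of a function of a self-adjoint element -/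
lemma orl_sa (h2 : C_layer.{u}) [UniformSpace (Mc 𝓜)] [IsTopologicalRing (Mc 𝓜)]
    [IsUniformAddGroup (Mc 𝓜)] (hmt : IsMT 𝓜) (f : ℝ → ℝ) (hf : ContinuousOn f (Set.Ici 0))
    (hmono : MonotoneOn f (Set.Ici 0)) (hf0 : f 0 = 0) (x : Mc 𝓜) (hx : IsSelfAdjoint x.op) :
    orl f (x : Sm 𝓜) = 𝓜.tr (cfc (fun s : ℝ => f |s|) x.op) := by
  rw [← (h2 H 𝓜 hmt f hf hmono hf0).2.1 x, bph]
  congr 1
  have e1 : (star x * x).op = x.op ^ 2 := by
    rw [op_mul, op_star, hx.star_eq, sq]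
  rw [e1, ← cfc_pow_id (R := ℝ) x.op 2 hx]
  rw [← cfc_comp' (fun s : ℝ => f (Real.sqrt s)) (fun s : ℝ => s ^ 2) x.op ?_ (by fun_prop) hx]
  · refine cfc_congr fun s _ => ?_
    simp only [Real.sqrt_sq_eq_abs]
  · refine ContinuousOn.comp (t := Set.Ici 0) hf (by fun_prop) ?_
    intro s _
    exact Real.sqrt_nonneg s

lemma aemeas (h7 : C_mu.{u}) [UniformSpace (Mc 𝓜)] [IsTopologicalRing (Mc 𝓜)]
    [IsUniformAddGroup (Mc 𝓜)] (hmt : IsMT 𝓜) (ξ : Sm 𝓜) :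
    AEMeasurable (fun t => mu ξ t) (volume.restrict (Set.Ioi (0 : ℝ))) := by
  refine aemeasurable_restrict_of_antitoneOn measurableSet_Ioi ?_
  intro s hs t _ hst
  exact (h7 H 𝓜 hmt).2.1 ξ s t hs hst

/-- the cut functions -/
lemma cut_orl (h1 : A_E.{u}) (h2 : C_layer.{u}) (h4 : A_spec.{u}) (h5 : A_tr.{u}) (h6 : A_cfc.{u})
    [UniformSpace (Mc 𝓜)] [IsTopologicalRing (Mc 𝓜)] [IsUniformAddGroup (Mc 𝓜)] (hmt : IsMT 𝓜)
    (F : Filtr 𝓜) (n : ℕ) (x : Mc 𝓜) (hx : IsSelfAdjoint x.op) (lam : ℝ) (hlam : 0 ≤ lam) :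
    orl (fun s => max (s - lam) 0) (F.E n x : Sm 𝓜) ≤ orl (fun s => max (s - lam) 0) (x : Sm 𝓜) := by
  have hE := h1 H 𝓜 F
  have hExs : IsSelfAdjoint (F.E n x).op := by
    rw [IsSelfAdjoint, ← op_star, ← hE.1]
    congr 2
    exact op_inj hx
  have hf : ContinuousOn (fun s : ℝ => max (s - lam) 0) (Set.Ici 0) := by fun_prop
  have hm : MonotoneOn (fun s : ℝ => max (s - lam) 0) (Set.Ici 0) := by
    intro a _ b _ hab
    exact max_le_max (by linarith) le_rfl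
  have h0 : (fun s : ℝ => max (s - lam) 0) 0 = 0 := by
    beta_reduce
    rw [max_eq_right (by linarith)]
  rw [orl_sa h2 hmt _ hf hm h0 _ hExs, orl_sa h2 hmt _ hf hm h0 _ hx]
  exact cut2 h1 h4 h5 h6 F n x hx lam hlam

lemma orl_sum (h7 : C_mu.{u}) [UniformSpace (Mc 𝓜)] [IsTopologicalRing (Mc 𝓜)]
    [IsUniformAddGroup (Mc 𝓜)] (hmt : IsMT 𝓜) {Phi : ℝ → ℝ} {p1 q1 C0 : ℝ}
    (hG : Gr Phi p1 q1 C0) (ξ : Sm 𝓜) :
    ∫⁻ t in Set.Ioi (0 : ℝ), ∑' i : ℤ, ENNReal.ofReal (term Phi i (mu ξ t))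
      = ∑' i : ℤ, ENNReal.ofReal (Phi ((2 : ℝ) ^ i) * ((2 : ℝ) ^ i)⁻¹)
          * orl (fun s => max (s - (2 : ℝ) ^ i) 0) ξ := by
  have hme := aemeas h7 hmt ξ
  rw [lintegral_tsum]
  · congr 1
    funext i
    unfold orl
    have hc : 0 ≤ Phi ((2 : ℝ) ^ i) * ((2 : ℝ) ^ i)⁻¹ := by
      have := (hG.pos ((2 : ℝ) ^ i) (by positivity)).le
      positivity
    rw [← lintegral_const_mul' _ _ ENNReal.ofReal_ne_top]
    congr 1
    funext t
    rw [← ENNReal.ofReal_mul hc]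
    rfl
  · intro i
    unfold term
    fun_prop

lemma main_sa (h1 : A_E.{u}) (h2 : C_layer.{u}) (h4 : A_spec.{u}) (h5 : A_tr.{u}) (h6 : A_cfc.{u})
    (h7 : C_mu.{u}) [UniformSpace (Mc 𝓜)] [IsTopologicalRing (Mc 𝓜)] [IsUniformAddGroup (Mc 𝓜)]
    (hmt : IsMT 𝓜) {Phi : ℝ → ℝ} {p1 q1 C0 : ℝ} (hG : Gr Phi p1 q1 C0) (hp : 1 < p1)
    (F : Filtr 𝓜) (n : ℕ) (x : Mc 𝓜) (hx : IsSelfAdjoint x.op) :
    orl Phi (F.E n x : Sm 𝓜) ≤ ENNReal.ofReal (C0 * (4 : ℝ) ^ |q1|)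
      * (ENNReal.ofReal (C0 * ∑' j : ℤ, ((2 : ℝ) ^ (-(p1 - 1))) ^ j.natAbs) * orl Phi (x : Sm 𝓜)) := by
  have hmu := (h7 H 𝓜 hmt).1
  calc orl Phi (F.E n x : Sm 𝓜)
      ≤ ∫⁻ t in Set.Ioi (0 : ℝ), ENNReal.ofReal (C0 * (4 : ℝ) ^ |q1|)
          * ∑' i : ℤ, ENNReal.ofReal (term Phi i (mu (F.E n x : Sm 𝓜) t)) := by
        unfold orl
        exact lintegral_mono fun t => scal1 hG _ (hmu _ t)
    _ = ENNReal.ofReal (C0 * (4 : ℝ) ^ |q1|)
          * ∫⁻ t in Set.Ioi (0 : ℝ), ∑' i : ℤ, ENNReal.ofReal (term Phi i (mu (F.E n x : Sm 𝓜) t)) :=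
        lintegral_const_mul' _ _ ENNReal.ofReal_ne_top
    _ ≤ ENNReal.ofReal (C0 * (4 : ℝ) ^ |q1|)
          * ∫⁻ t in Set.Ioi (0 : ℝ), ∑' i : ℤ, ENNReal.ofReal (term Phi i (mu (x : Sm 𝓜) t)) := by
        rw [orl_sum h7 hmt hG, orl_sum h7 hmt hG]
        gcongr with i
        exact cut_orl h1 h2 h4 h5 h6 hmt F n x hx _ (by positivity)
    _ ≤ ENNReal.ofReal (C0 * (4 : ℝ) ^ |q1|)
          * ∫⁻ t in Set.Ioi (0 : ℝ),
            ENNReal.ofReal (C0 * ∑' j : ℤ, ((2 : ℝ) ^ (-(p1 - 1))) ^ j.natAbs)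
              * ENNReal.ofReal (Phi (mu (x : Sm 𝓜) t)) := by
        gcongr with t
        exact scal2 hG hp _ (hmu _ t)
    _ = _ := by
        rw [lintegral_const_mul' _ _ ENNReal.ofReal_ne_top]
        rfl

lemma main_one (h1 : A_E.{u}) (h2 : C_layer.{u}) (h4 : A_spec.{u}) (h5 : A_tr.{u}) (h6 : A_cfc.{u})
    (h7 : C_mu.{u}) [UniformSpace (Mc 𝓜)] [IsTopologicalRing (Mc 𝓜)] [IsUniformAddGroup (Mc 𝓜)]
    (hmt : IsMT 𝓜) (F : Filtr 𝓜) (n : ℕ) (x : Mc 𝓜) (hx : IsSelfAdjoint x.op) :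
    orl (fun s => s) (F.E n x : Sm 𝓜) ≤ orl (fun s => s) (x : Sm 𝓜) := by
  have hmu := (h7 H 𝓜 hmt).1
  have h := cut_orl h1 h2 h4 h5 h6 hmt F n x hx 0 le_rfl
  have e : ∀ ξ : Sm 𝓜, orl (fun s => max (s - 0) 0) ξ = orl (fun s => s) ξ := by
    intro ξ
    unfold orl
    congr 1
    funext t
    beta_reduce
    rw [sub_zero, max_eq_left (hmu ξ t)]
  rwa [e, e] at h

lemma gr_id : Gr (fun s : ℝ => s) 1 1 1 where
  cont := continuousOn_id
  mono := monotoneOn_id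
  zero := rfl
  pos := fun s hs => hs
  low := fun s hs r hr _ => by rw [Real.rpow_one, one_mul]
  up := fun s hs r hr => by rw [Real.rpow_one, one_mul]

/-- from self-adjoint to general elements -/
lemma general (_h1 : A_E.{u}) (h8 : C_star.{u}) {Phi : ℝ → ℝ} {K K' : ℝ} (hK : 0 < K) (hK' : 0 < K')
    [UniformSpace (Mc 𝓜)] [IsTopologicalRing (Mc 𝓜)] [IsUniformAddGroup (Mc 𝓜)]
    (hmt : IsMT 𝓜)
    (c1 : ∀ ξ η : Sm 𝓜, orl Phi (ξ + η) ≤ ENNReal.ofReal K * (orl Phi ξ + orl Phi η))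
    (c3 : ∀ ξ : Sm 𝓜, orl Phi (sst ξ) = orl Phi ξ)
    (c4 : ∀ (ξ : Sm 𝓜) (x y : Mc 𝓜), ‖x.op‖ ≤ 1 → ‖y.op‖ ≤ 1 →
        orl Phi ((x : Sm 𝓜) * ξ * (y : Sm 𝓜)) ≤ orl Phi ξ)
    (F : Filtr 𝓜) (n : ℕ)
    (hsa : ∀ x : Mc 𝓜, IsSelfAdjoint x.op →
      orl Phi (F.E n x : Sm 𝓜) ≤ ENNReal.ofReal K' * orl Phi (x : Sm 𝓜)) (x : Mc 𝓜) :
    orl Phi (F.E n x : Sm 𝓜) ≤ ENNReal.ofReal (K * K' * (4 * K)) * orl Phi (x : Sm 𝓜) := by
  have hone : ‖(1 : Mc 𝓜).op‖ ≤ 1 := ContinuousLinearMap.norm_id_le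
  -- multiplication by scalars of modulus at most one
  have hsc : ∀ (c : ℂ), ‖c‖ ≤ 1 → ∀ y : Mc 𝓜, orl Phi ((c • y : Mc 𝓜) : Sm 𝓜) ≤ orl Phi (y : Sm 𝓜) := by
    intro c hc y
    have e : ((c • y : Mc 𝓜) : Sm 𝓜) = ((c • (1 : Mc 𝓜) : Mc 𝓜) : Sm 𝓜) * (y : Sm 𝓜) * ((1 : Mc 𝓜) : Sm 𝓜) := by
      rw [← UniformSpace.Completion.coe_mul, ← UniformSpace.Completion.coe_mul, smul_mul_assoc,
        one_mul, mul_one]
    rw [e]
    refine c4 _ _ _ ?_ hone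
    rw [op_smul]
    refine (norm_smul_le _ _).trans ?_
    calc ‖c‖ * ‖(1 : Mc 𝓜).op‖ ≤ 1 * 1 := by gcongr
      _ = 1 := one_mul 1
  have hst : ∀ y : Mc 𝓜, orl Phi ((star y : Mc 𝓜) : Sm 𝓜) = orl Phi (y : Sm 𝓜) := by
    intro y
    rw [← (h8 H 𝓜 hmt).1 y, c3]
  set a : Mc 𝓜 := (1 / 2 : ℂ) • (x + star x) with ha
  set b : Mc 𝓜 := (-(Complex.I) / 2) • (x - star x) with hb
  have hxab : x = a + Complex.I • b := by
    rw [ha, hb, smul_smul]
    have : Complex.I * (-Complex.I / 2) = 1 / 2 := by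
      ring_nf
      rw [Complex.I_sq]
      ring
    rw [this, ← smul_add]
    have : x + star x + (x - star x) = (2 : ℂ) • x := by
      rw [two_smul]; abel
    rw [this, smul_smul]
    norm_num
  have hc2 : (starRingEnd ℂ) 2 = 2 := map_ofNat (starRingEnd ℂ) 2
  have hasa : IsSelfAdjoint a.op := by
    rw [ha, op_smul, op_add, op_star, IsSelfAdjoint, star_smul, star_add, star_star, RCLike.star_def]
    rw [add_comm (star x.op)]
    congr 1
    rw [map_div₀, map_one, hc2]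
  have hbsa : IsSelfAdjoint b.op := by
    rw [hb, op_smul, op_sub, op_star, IsSelfAdjoint, star_smul, star_sub, star_star, RCLike.star_def]
    have : (starRingEnd ℂ) (-Complex.I / 2) = -(-Complex.I / 2) := by
      rw [map_div₀, map_neg, Complex.conj_I, hc2]
      ring
    rw [this, neg_smul, ← smul_neg, neg_sub]
  have hab : ∀ c : ℂ, ‖c‖ ≤ 1 → ∀ y : Mc 𝓜, (y = star x ∨ y = -star x) →
      orl Phi ((c • (x + y) : Mc 𝓜) : Sm 𝓜) ≤ ENNReal.ofReal (2 * K) * orl Phi (x : Sm 𝓜) := by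
    intro c hc y hy
    refine (hsc c hc _).trans ?_
    rw [UniformSpace.Completion.coe_add]
    refine (c1 _ _).trans ?_
    have : orl Phi (y : Sm 𝓜) ≤ orl Phi (x : Sm 𝓜) := by
      rcases hy with rfl | rfl
      · rw [hst]
      · have := hsc (-1) (by simp) (star x)
        rw [neg_one_smul, hst] at this
        exact this
    calc ENNReal.ofReal K * (orl Phi (x : Sm 𝓜) + orl Phi (y : Sm 𝓜))
        ≤ ENNReal.ofReal K * (orl Phi (x : Sm 𝓜) + orl Phi (x : Sm 𝓜)) := by gcongr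
      _ = ENNReal.ofReal (2 * K) * orl Phi (x : Sm 𝓜) := by
        rw [ENNReal.ofReal_mul (by norm_num), ENNReal.ofReal_ofNat]
        ring
  have hao : orl Phi (a : Sm 𝓜) ≤ ENNReal.ofReal (2 * K) * orl Phi (x : Sm 𝓜) :=
    hab _ (by norm_num) _ (Or.inl rfl)
  have hbo : orl Phi (b : Sm 𝓜) ≤ ENNReal.ofReal (2 * K) * orl Phi (x : Sm 𝓜) := by
    have := hab (-(Complex.I) / 2) (by
      rw [norm_div, norm_neg, Complex.norm_I]
      norm_num) (-star x) (Or.inr rfl)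
    rwa [← sub_eq_add_neg] at this
  have e1 : F.E n x = F.E n a + Complex.I • F.E n b := by
    conv_lhs => rw [hxab]
    rw [map_add, map_smul (F.E n) Complex.I b]
  rw [e1, UniformSpace.Completion.coe_add]
  refine (c1 _ _).trans ?_
  have h3 := hsc Complex.I (by rw [Complex.norm_I]) (F.E n b)
  have h4 := hsa a hasa
  have h5 := hsa b hbsa
  calc ENNReal.ofReal K * (orl Phi (F.E n a : Sm 𝓜) + orl Phi ((Complex.I • F.E n b : Mc 𝓜) : Sm 𝓜))
      ≤ ENNReal.ofReal K * (ENNReal.ofReal K' * (ENNReal.ofReal (2 * K) * orl Phi (x : Sm 𝓜))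
        + ENNReal.ofReal K' * (ENNReal.ofReal (2 * K) * orl Phi (x : Sm 𝓜))) := by
        gcongr
        · exact h4.trans (by gcongr)
        · exact h3.trans (h5.trans (by gcongr))
    _ = ENNReal.ofReal (K * K' * (4 * K)) * orl Phi (x : Sm 𝓜) := by
        have e : ENNReal.ofReal (K * K' * (4 * K))
            = ENNReal.ofReal K * ENNReal.ofReal K' * (2 * ENNReal.ofReal (2 * K)) := by
          rw [ENNReal.ofReal_mul (by positivity), ENNReal.ofReal_mul (by positivity),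
            show (4 : ℝ) * K = 2 * (2 * K) by ring, ENNReal.ofReal_mul (by norm_num : (0 : ℝ) ≤ 2),
            ENNReal.ofReal_ofNat]
        rw [e]
        ring

end orlp

end H_C_E

theorem q_CE (h1 : A_E.{u}) (h2 : C_layer.{u}) (h3 : C_orl.{u}) (h4 : A_spec.{u}) (h5 : A_tr.{u})
    (h6 : A_cfc.{u}) (h7 : C_mu.{u}) (h8 : C_star.{u}) : C_E.{u} := by
  intro Phi p1 q1 C0 hG hp
  obtain ⟨K1, hK1, hO1⟩ := h3 Phi p1 q1 C0 hG (by linarith)
  obtain ⟨K2, hK2, hO2⟩ := h3 (fun s : ℝ => s) 1 1 1 H_C_E.gr_id one_pos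
  have hC0 := H_C_E.C0_ge hG
  have hS : 0 < ∑' j : ℤ, ((2 : ℝ) ^ (-(p1 - 1))) ^ j.natAbs := by
    have hrho1 : (2 : ℝ) ^ (-(p1 - 1)) < 1 := by
      apply Real.rpow_lt_one_of_one_lt_of_neg (by norm_num) (by linarith)
    refine (H_C_E.summ _ (by positivity) hrho1).tsum_pos (fun j => by positivity) 0 (by positivity)
  set K' : ℝ := C0 * (4 : ℝ) ^ |q1| * (C0 * ∑' j : ℤ, ((2 : ℝ) ^ (-(p1 - 1))) ^ j.natAbs) with hK'
  have hK'0 : 0 < K' := by positivity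
  refine ⟨K1 * K' * (4 * K1) + K2 * 1 * (4 * K2), by positivity, ?_⟩
  intro H _ _ _ 𝓜 _ _ _ hmt F n x
  have o1 := hO1 H 𝓜 hmt
  have o2 := hO2 H 𝓜 hmt
  constructor
  · have := H_C_E.general h1 h8 hK1 hK'0 hmt o1.1 o1.2.2.1 o1.2.2.2.1 F n (by
      intro y hy
      have := H_C_E.main_sa h1 h2 h4 h5 h6 h7 hmt hG hp F n y hy
      rw [hK', ENNReal.ofReal_mul (by positivity), mul_assoc]
      exact this) x
    refine this.trans ?_
    gcongr
    have : 0 ≤ K2 * 1 * (4 * K2) := by positivity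
    linarith
  · have := H_C_E.general h1 h8 hK2 one_pos hmt o2.1 o2.2.2.1 o2.2.2.2.1 F n (by
      intro y hy
      have := H_C_E.main_one h1 h2 h4 h5 h6 h7 hmt F n y hy
      rw [ENNReal.ofReal_one, one_mul]
      exact this) x
    refine this.trans ?_
    gcongr
    have : 0 ≤ K1 * K' * (4 * K1) := by positivity
    linarith

end MDB
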