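import Pool.Agent.MDB.Targets2

/-!
# Closed balls and injectivity for the measure topology
-/

open scoped ENNReal NNReal Topology
open Finset Filter

namespace MDB

open Mc

universe u

namespace H_C_ball

variable {H : Type u} [NormedAddCommGroup H] [InnerProductSpace ℂ H] [CompleteSpace H]

theorem mul_eq_zero_symm {p h : H →L[ℂ] H} (hp : IsStarProjection p) (hh : IsStarProjection h)
    (h0 : h * p = 0) : p * h = 0 := by
  have := congrArg star h0
  rwa [star_mul, hp.isSelfAdjoint.star_eq, hh.isSelfAdjoint.star_eq, star_zero] at this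

theorem le_one_sub {p h : H →L[ℂ] H} (hp : IsStarProjection p) (hh : IsStarProjection h)
    (h0 : h * p = 0) : p ≤ 1 - h := by
  have h1 := mul_eq_zero_symm hp hh h0
  have e1 : p * p = p := hp.isIdempotentElem.eq
  have e2 : h * h = h := hh.isIdempotentElem.eq
  have h2 : IsStarProjection (1 - h - p) := by
    refine ⟨?_, ?_⟩
    · show (1 - h - p) * (1 - h - p) = 1 - h - p
      simp only [mul_sub, sub_mul, one_mul, mul_one, e1, e2, h0, h1]
      abel
    · show star (1 - h - p) = 1 - h - p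
      simp [star_sub, hp.isSelfAdjoint.star_eq, hh.isSelfAdjoint.star_eq]
  have h3 := h2.nonneg
  exact sub_nonneg.1 h3

theorem tr_le {𝓜 : TVN H} (hT : A_tr.{u}) {p h : H →L[ℂ] H} (hpM : p ∈ 𝓜.M) (hhM : h ∈ 𝓜.M)
    (hp : IsStarProjection p) (hh : IsStarProjection h)
    (h0 : h * p = 0) : 𝓜.tr p ≤ 𝓜.tr (1 - h) :=
  (hT H 𝓜).2.1 p (1 - h) hpM (sub_mem (one_mem _) hhM) hp.nonneg (le_one_sub hp hh h0)

theorem zero_of_tr {𝓜 : TVN H} (hT : A_tr.{u}) {p : H →L[ℂ] H} (hpM : p ∈ 𝓜.M)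
    (hp : IsStarProjection p) (h : ℕ → (H →L[ℂ] H)) (hM : ∀ m, h m ∈ 𝓜.M)
    (hh : ∀ m, IsStarProjection (h m))
    (ht : ∀ m, 𝓜.tr (1 - h m) ≤ ENNReal.ofReal (2 * (1 / 2) ^ m)) (h0 : ∀ m, h m * p = 0) :
    p = 0 := by
  refine 𝓜.tr_faithful p hpM hp.nonneg ?_
  have h1 : ∀ m : ℕ, 𝓜.tr p ≤ ENNReal.ofReal (2 * (1 / 2) ^ m) := fun m =>
    (tr_le hT hpM (hM m) hp (hh m) (h0 m)).trans (ht m)
  have h2 : Tendsto (fun m : ℕ => ENNReal.ofReal (2 * (1 / 2) ^ m)) atTop (𝓝 0) := by
    have h3 : Tendsto (fun m : ℕ => (2 : ℝ) * (1 / 2) ^ m) atTop (𝓝 (2 * 0)) :=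
      (tendsto_pow_atTop_nhds_zero_of_lt_one (by norm_num) (by norm_num)).const_mul 2
    have h4 := ENNReal.tendsto_ofReal h3
    simpa using h4
  exact le_antisymm (ge_of_tendsto' h2 h1) bot_le

theorem tails {𝓜 : TVN H} (hA : A_meet.{u}) (e : ℕ → (H →L[ℂ] H)) (heM : ∀ k, e k ∈ 𝓜.M)
    (he : ∀ k, IsStarProjection (e k))
    (ht : ∀ k, 𝓜.tr (1 - e k) ≤ ENNReal.ofReal ((1 / 2) ^ k)) :
    ∃ h : ℕ → (H →L[ℂ] H), (∀ m, h m ∈ 𝓜.M) ∧ (∀ m, IsStarProjection (h m)) ∧
      (∀ m k, m ≤ k → e k * h m = h m) ∧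
      (∀ m, 𝓜.tr (1 - h m) ≤ ENNReal.ofReal (2 * (1 / 2) ^ m)) := by
  have key : ∀ m : ℕ, ∃ h : H →L[ℂ] H, h ∈ 𝓜.M ∧ IsStarProjection h ∧
      (∀ k, m ≤ k → e k * h = h) ∧ 𝓜.tr (1 - h) ≤ ENNReal.ofReal (2 * (1 / 2) ^ m) := by
    intro m
    obtain ⟨h, h1, h2, h3, h4⟩ := (hA H 𝓜).2 (fun k => e (m + k)) (fun k => heM _) (fun k => he _)
    refine ⟨h, h1, h2, fun k hk => ?_, ?_⟩
    · obtain ⟨j, rfl⟩ := Nat.exists_eq_add_of_le hk
      exact h3 j
    · refine h4.trans ?_
      have h5 : ∑' k, 𝓜.tr (1 - e (m + k)) ≤ ∑' k : ℕ, ENNReal.ofReal ((1 / 2) ^ (m + k)) :=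
        ENNReal.tsum_le_tsum fun k => ht (m + k)
      refine h5.trans (le_of_eq ?_)
      have h6 : (fun k : ℕ => ((1 : ℝ) / 2) ^ (m + k)) = fun k : ℕ => (1 / 2) ^ m * (1 / 2) ^ k := by
        funext k
        rw [pow_add]
      have hs : Summable (fun k : ℕ => ((1 : ℝ) / 2) ^ (m + k)) := by
        rw [h6]
        exact summable_geometric_two.mul_left _
      rw [← ENNReal.ofReal_tsum_of_nonneg (fun k => by positivity) hs]
      congr 1
      rw [h6, tsum_mul_left, tsum_geometric_two]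
      ring
  choose h h1 h2 h3 h4 using key
  exact ⟨h, h1, h2, h3, h4⟩

theorem zero_of_nb {𝓜 : TVN H} (hA : A_meet.{u}) (hR : A_rp.{u}) (hT : A_tr.{u}) (z : Mc 𝓜)
    (hz : ∀ ε : ℝ, 0 < ε → z ∈ Nb 𝓜 ε) : z = 0 := by
  have h0 : ∀ k : ℕ, ∃ e : Mc 𝓜, IsP e ∧ ‖(z * e).op‖ ≤ (1 / 2) ^ k ∧
      𝓜.tr (1 - e).op ≤ ENNReal.ofReal ((1 / 2) ^ k) := fun k => hz _ (by positivity)
  choose e he1 he2 he3 using h0
  obtain ⟨h, h1, h2, h3, h4⟩ := tails (𝓜 := 𝓜) hA (fun k => (e k).op) (fun k => (e k).2)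
    (fun k => he1 k) (fun k => he3 k)
  have hzh : ∀ m, z.op * h m = 0 := by
    intro m
    have h5 : ∀ k, m ≤ k → ‖z.op * h m‖ ≤ (1 / 2) ^ k := by
      intro k hk
      have h6 : z.op * h m = (z * e k).op * h m := by
        have : (z * e k).op * h m = z.op * ((e k).op * h m) := by
          rw [← mul_assoc]
          rfl
        rw [this, h3 m k hk]
      rw [h6]
      calc ‖(z * e k).op * h m‖ ≤ ‖(z * e k).op‖ * ‖h m‖ := norm_mul_le _ _
        _ ≤ (1 / 2) ^ k * 1 := by
            gcongr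
            · exact he2 k
            · exact (h2 m).norm_le
        _ = (1 / 2) ^ k := mul_one _
    have h7 : Tendsto (fun k : ℕ => ((1 : ℝ) / 2) ^ k) atTop (𝓝 0) :=
      tendsto_pow_atTop_nhds_zero_of_lt_one (by norm_num) (by norm_num)
    have h8 : ‖z.op * h m‖ ≤ 0 := ge_of_tendsto h7 (eventually_atTop.2 ⟨m, h5⟩)
    exact norm_le_zero_iff.1 h8
  obtain ⟨r1, r2, r3, r4⟩ := hR H (star z.op)
  have hrp : rp (star z.op) = 0 := by
    refine zero_of_tr hT (r4 𝓜.M (star_mem z.2)) r1 h h1 h2 h4 fun m => r3 (h m) ?_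
    have := congrArg star (hzh m)
    rwa [star_mul, (h2 m).isSelfAdjoint.star_eq, star_zero] at this
  have h9 : star z.op = 0 := by
    rw [← r2, hrp, zero_mul]
  have h10 : z.op = 0 := by
    have := congrArg star h9
    rwa [star_star, star_zero] at this
  exact Subtype.ext h10

theorem null_inter {𝓜 : TVN H} (hT : A_tr.{u}) (h : ℕ → (H →L[ℂ] H)) (hM : ∀ m, h m ∈ 𝓜.M)
    (hh : ∀ m, IsStarProjection (h m))
    (ht : ∀ m, 𝓜.tr (1 - h m) ≤ ENNReal.ofReal (2 * (1 / 2) ^ m)) (v : H)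
    (hv : ∀ m, h m v = 0) : v = 0 := by
  let N : Submodule ℂ H := ⨅ m, LinearMap.ker (h m : H →ₗ[ℂ] H)
  have hmem : ∀ w : H, w ∈ N ↔ ∀ m, h m w = 0 := by
    intro w
    simp only [N, Submodule.mem_iInf, LinearMap.mem_ker]
    rfl
  have hcl : IsClosed (N : Set H) := by
    have : (N : Set H) = ⋂ m, {w : H | h m w = 0} := by
      ext w
      simp only [SetLike.mem_coe, hmem, Set.mem_iInter, Set.mem_ofPred_eq]
    rw [this]
    exact isClosed_iInter fun m => isClosed_eq (h m).continuous continuous_const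
  have : CompleteSpace N := hcl.completeSpace_coe
  have hq : IsStarProjection N.starProjection := isStarProjection_starProjection
  have hqM : N.starProjection ∈ 𝓜.M := by
    rw [VonNeumannAlgebra.IsStarProjection.mem_iff hq]
    intro y hy
    rw [Module.End.mem_invtSubmodule]
    intro w hw
    have hw' : w ∈ N := by
      have : w ∈ LinearMap.range (N.starProjection : H →ₗ[ℂ] H) := hw
      rwa [Submodule.range_starProjection] at this
    show y w ∈ LinearMap.range (N.starProjection : H →ₗ[ℂ] H)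
    rw [Submodule.range_starProjection, hmem]
    intro m
    have h1 : h m * y = y * h m := (VonNeumannAlgebra.mem_commutant_iff.1 hy) (h m) (hM m)
    have h2 : h m (y w) = y (h m w) := by
      have := congrArg (fun T : H →L[ℂ] H => T w) h1
      simpa using this
    rw [h2, (hmem w).1 hw' m, map_zero]
  have h0 : ∀ m, h m * N.starProjection = 0 := by
    intro m
    ext w
    have : N.starProjection w ∈ N := Submodule.starProjection_apply_mem _ _
    simpa using (hmem _).1 this m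
  have hz := zero_of_tr hT hqM hq h hM hh ht h0
  have h3 : N.starProjection v = v := Submodule.starProjection_eq_self_iff.2 ((hmem v).2 hv)
  rw [← h3, hz]
  rfl

theorem limit_exists {𝓜 : TVN H} (hA : A_meet.{u}) (hT : A_tr.{u}) (w : ℕ → Mc 𝓜) (c : ℝ)
    (hc : ∀ n, ‖(w n).op‖ ≤ c)
    (hw : ∀ n, w (n + 1) - w n ∈ Nb 𝓜 ((1 / 2) ^ n)) :
    ∃ x : Mc 𝓜, ‖x.op‖ ≤ c ∧ ∀ ε : ℝ, 0 < ε → ∃ m : ℕ, ∀ n, m ≤ n → w n - x ∈ Nb 𝓜 ε := by
  have hc0 : 0 ≤ c := (norm_nonneg _).trans (hc 0)
  choose e he1 he2 he3 using hw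
  obtain ⟨h, h1, h2, h3, h4⟩ := tails (𝓜 := 𝓜) hA (fun k => (e k).op) (fun k => (e k).2)
    (fun k => he1 k) (fun k => he3 k)
  -- step estimate
  have hstep : ∀ m n, m ≤ n → ‖((w (n + 1)).op - (w n).op) * h m‖ ≤ (1 / 2) ^ n := by
    intro m n hmn
    have h6 : ((w (n + 1)).op - (w n).op) * h m = ((w (n + 1) - w n) * e n).op * h m := by
      have : ((w (n + 1) - w n) * e n).op * h m = ((w (n + 1)).op - (w n).op) * ((e n).op * h m) := by
        rw [← mul_assoc]
        rfl
      rw [this, h3 m n hmn]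
    rw [h6]
    calc ‖((w (n + 1) - w n) * e n).op * h m‖ ≤ ‖((w (n + 1) - w n) * e n).op‖ * ‖h m‖ :=
          norm_mul_le _ _
      _ ≤ (1 / 2) ^ n * 1 := by
          gcongr
          · exact he2 n
          · exact (h2 m).norm_le
      _ = (1 / 2) ^ n := mul_one _
  have hlong : ∀ m n j, m ≤ n →
      ‖((w (n + j)).op - (w n).op) * h m‖ ≤ 2 * ((1 / 2) ^ n - (1 / 2) ^ (n + j)) := by
    intro m n j hmn
    induction j with
    | zero => simp
    | succ j ih =>
      have h7 : ((w (n + (j + 1))).op - (w n).op) * h m =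
          ((w (n + j + 1)).op - (w (n + j)).op) * h m + ((w (n + j)).op - (w n).op) * h m := by
        rw [← add_mul, sub_add_sub_cancel]
        rfl
      rw [h7]
      refine (norm_add_le _ _).trans ?_
      have h8 := hstep m (n + j) (hmn.trans (Nat.le_add_right _ _))
      have h9 : ((1 : ℝ) / 2) ^ (n + (j + 1)) = (1 / 2) ^ (n + j) * (1 / 2) := by
        rw [← add_assoc, pow_succ]
      rw [h9]
      linarith
  -- the vectors on which the sequence is Cauchy
  let S : Submodule ℂ H :=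
    { carrier := {v | CauchySeq fun n => (w n).op v}
      add_mem' := by
        intro a b ha hb
        have := CauchySeq.add ha hb
        simpa [Pi.add_def, map_add] using this
      zero_mem' := by
        simpa using cauchySeq_const (0 : H)
      smul_mem' := by
        intro r a ha
        have := (uniformContinuous_const_smul r).comp_cauchySeq ha
        simpa [Function.comp_def, map_smul] using this }
  have hS : ∀ v : H, v ∈ S ↔ CauchySeq fun n => (w n).op v := fun v => Iff.rfl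
  have hSc : IsClosed (S : Set H) := by
    refine isClosed_of_closure_subset fun v hv => ?_
    show CauchySeq fun n => (w n).op v
    rw [Metric.cauchySeq_iff']
    intro ε hε
    have hc1 : 0 < 3 * (c + 1) := by positivity
    obtain ⟨a, ha, hav⟩ := Metric.mem_closure_iff.1 hv (ε / (3 * (c + 1))) (by positivity)
    obtain ⟨N, hN⟩ := (Metric.cauchySeq_iff'.1 ((hS a).1 ha)) (ε / 3) (by positivity)
    refine ⟨N, fun n hn => ?_⟩
    have hb : ∀ n, ‖(w n).op v - (w n).op a‖ < ε / 3 := by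
      intro n
      rw [← map_sub]
      rw [dist_eq_norm] at hav
      have h10 : ‖(w n).op (v - a)‖ ≤ c * ‖v - a‖ := (w n).op.le_of_opNorm_le (hc n) _
      have h11 : (c + 1) * ‖v - a‖ < (c + 1) * (ε / (3 * (c + 1))) := by
        have : (0 : ℝ) < c + 1 := by positivity
        exact mul_lt_mul_of_pos_left hav this
      have h12 : (c + 1) * (ε / (3 * (c + 1))) = ε / 3 := by
        field_simp
      have h13 : c * ‖v - a‖ ≤ (c + 1) * ‖v - a‖ := by
        have := norm_nonneg (v - a)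
        nlinarith
      linarith
    have h14 := hN n hn
    rw [dist_eq_norm] at h14 ⊢
    have h15 : (w n).op v - (w N).op v = ((w n).op v - (w n).op a) +
        (((w n).op a - (w N).op a) - ((w N).op v - (w N).op a)) := by abel
    rw [h15]
    refine (norm_add_le _ _).trans_lt ?_
    have h16 := norm_sub_le ((w n).op a - (w N).op a) ((w N).op v - (w N).op a)
    have h17 := hb n
    have h18 := hb N
    linarith
  have hSh : ∀ m v, h m v ∈ S := by
    intro m v
    rw [hS, Metric.cauchySeq_iff']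
    intro ε hε
    have h20 : Tendsto (fun n : ℕ => 2 * ((1 : ℝ) / 2) ^ n * ‖v‖) atTop (𝓝 0) := by
      have := ((tendsto_pow_atTop_nhds_zero_of_lt_one (r := (1 : ℝ) / 2) (by norm_num)
        (by norm_num)).const_mul 2).mul_const ‖v‖
      simpa using this
    obtain ⟨N0, hN0⟩ := (h20.eventually (gt_mem_nhds hε)).exists_forall_of_atTop
    refine ⟨max N0 m, fun n hn => ?_⟩
    obtain ⟨j, rfl⟩ := Nat.exists_eq_add_of_le hn
    rw [dist_eq_norm]
    have h21 := hlong m (max N0 m) j (le_max_right _ _)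
    have h22 : (w (max N0 m + j)).op (h m v) - (w (max N0 m)).op (h m v) =
        (((w (max N0 m + j)).op - (w (max N0 m)).op) * h m) v := by simp
    rw [h22]
    refine (ContinuousLinearMap.le_of_opNorm_le _ h21 v).trans_lt ?_
    have h23 := hN0 (max N0 m) (le_max_left _ _)
    have h24 : (0 : ℝ) ≤ (1 / 2) ^ (max N0 m + j) := by positivity
    have h25 := norm_nonneg v
    nlinarith
  have : CompleteSpace S := hSc.completeSpace_coe
  have hStop : S = ⊤ := by
    rw [← Submodule.orthogonal_eq_bot_iff, Submodule.eq_bot_iff]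
    intro v hv
    refine null_inter (𝓜 := 𝓜) hT h h1 h2 h4 v fun m => ?_
    have h26 : inner ℂ (h m v) (h m v) = (0 : ℂ) := by
      have h27 := Submodule.inner_right_of_mem_orthogonal (hSh m (h m v)) hv
      have h28 : inner ℂ (h m (h m v)) v = inner ℂ (h m v) (h m v) := by
        have h29 := ContinuousLinearMap.adjoint_inner_right (h m) (h m v) v
        have h30 : ContinuousLinearMap.adjoint (h m) = h m := (h2 m).isSelfAdjoint.star_eq
        rw [h30] at h29
        exact h29.symm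
      rw [← h28]
      exact h27
    exact inner_self_eq_zero.1 h26
  have hall : ∀ v : H, ∃ z : H, Tendsto (fun n => (w n).op v) atTop (𝓝 z) := by
    intro v
    have : v ∈ S := by
      rw [hStop]
      trivial
    exact cauchySeq_tendsto_of_complete ((hS v).1 this)
  choose f hf using hall
  have hbd : Bornology.IsBounded (Set.range fun n => (w n).op) := by
    rw [isBounded_iff_forall_norm_le]
    refine ⟨c, ?_⟩
    rintro _ ⟨n, rfl⟩
    exact hc n
  let X : H →L[ℂ] H := ContinuousLinearMap.ofTendstoOfBoundedRange f (fun n => (w n).op)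
    (tendsto_pi_nhds.2 hf) hbd
  have hX : ∀ v, Tendsto (fun n => (w n).op v) atTop (𝓝 (X v)) := fun v => hf v
  have hXM : X ∈ 𝓜.M := by
    rw [← VonNeumannAlgebra.commutant_commutant 𝓜.M, VonNeumannAlgebra.mem_commutant_iff]
    intro g hg
    ext v
    have h30 : Tendsto (fun n => g ((w n).op v)) atTop (𝓝 (g (X v))) :=
      (g.continuous.tendsto _).comp (hX v)
    have h31 : Tendsto (fun n => (w n).op (g v)) atTop (𝓝 (X (g v))) := hX (g v)
    have h32 : ∀ n, g ((w n).op v) = (w n).op (g v) := by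
      intro n
      have h33 := (VonNeumannAlgebra.mem_commutant_iff.1 hg) (w n).op (w n).2
      have := congrArg (fun T : H →L[ℂ] H => T v) h33
      simpa using this.symm
    simp only [h32] at h30
    exact tendsto_nhds_unique h30 h31
  have hXc : ‖X‖ ≤ c := by
    refine ContinuousLinearMap.opNorm_le_bound _ hc0 fun v => ?_
    exact le_of_tendsto' (hX v).norm fun n => (w n).op.le_of_opNorm_le (hc n) v
  refine ⟨Mc.mk X hXM, hXc, fun ε hε => ?_⟩
  have h40 : Tendsto (fun n : ℕ => 2 * ((1 : ℝ) / 2) ^ n) atTop (𝓝 0) := by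
    have := (tendsto_pow_atTop_nhds_zero_of_lt_one (r := (1 : ℝ) / 2) (by norm_num)
        (by norm_num)).const_mul 2
    simpa using this
  obtain ⟨m, hm⟩ := (h40.eventually (gt_mem_nhds hε)).exists_forall_of_atTop
  refine ⟨m, fun n hn => ⟨Mc.mk (h m) (h1 m), h2 m, ?_, ?_⟩⟩
  · show ‖((w n).op - X) * h m‖ ≤ ε
    refine ContinuousLinearMap.opNorm_le_bound _ hε.le fun v => ?_
    have h41 : Tendsto (fun j => (((w (n + j)).op - (w n).op) * h m) v) atTop
        (𝓝 (X (h m v) - (w n).op (h m v))) := by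
      have h42 : Tendsto (fun j => (w (n + j)).op (h m v)) atTop (𝓝 (X (h m v))) := by
        have := (tendsto_add_atTop_iff_nat n).2 (hX (h m v))
        simpa [add_comm] using this
      simpa using h42.sub_const ((w n).op (h m v))
    have h43 : ‖X (h m v) - (w n).op (h m v)‖ ≤ ε * ‖v‖ := by
      refine le_of_tendsto' h41.norm fun j => ?_
      refine (ContinuousLinearMap.le_of_opNorm_le _ (hlong m n j hn) v).trans ?_
      have h44 := hm n hn
      have h45 : (0 : ℝ) ≤ (1 / 2) ^ (n + j) := by positivity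
      have h46 := norm_nonneg v
      nlinarith
    have h47 : (((w n).op - X) * h m) v = -(X (h m v) - (w n).op (h m v)) := by simp
    rw [h47, norm_neg]
    exact h43
  · exact (h4 m).trans (ENNReal.ofReal_le_ofReal (hm m le_rfl).le)

end H_C_ball

/-- Bounded sequences converging in measure, and injectivity. -/
theorem q_ball (h1 : A_meet.{u}) (h2 : A_rp.{u}) (h3 : A_tr.{u}) : C_ball.{u} := by
  intro H _ _ _ 𝓜 _ _ _ hMT
  refine ⟨fun x y hxy => ?_, fun ξ y c hc hlim => ?_⟩
  · have h4 : ((x - y : Mc 𝓜) : Sm 𝓜) = ((0 : Mc 𝓜) : Sm 𝓜) := by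
      rw [UniformSpace.Completion.coe_sub, hxy, sub_self, UniformSpace.Completion.coe_zero]
    have h5 : x - y = 0 := by
      refine H_C_ball.zero_of_nb h1 h2 h3 (x - y) fun ε hε => ?_
      have h6 : Inseparable (x - y) 0 :=
        (UniformSpace.Completion.isUniformInducing_coe (Mc 𝓜)).isInducing.inseparable_iff.1
          (by rw [h4])
      have h7 : Nb 𝓜 ε ∈ 𝓝 (x - y) := by
        rw [h6]
        exact hMT.mem_of_mem hε
      exact mem_of_mem_nhds h7
    exact sub_eq_zero.1 h5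
  · have hsub : Tendsto (fun p : ℕ × ℕ => y p.1 - y p.2) (atTop ×ˢ atTop) (𝓝 (0 : Mc 𝓜)) := by
      rw [(UniformSpace.Completion.isUniformInducing_coe (Mc 𝓜)).isInducing.tendsto_nhds_iff]
      have h4 : Tendsto (fun p : ℕ × ℕ => (y p.1 : Sm 𝓜) - (y p.2 : Sm 𝓜)) (atTop ×ˢ atTop)
          (𝓝 (ξ - ξ)) := (hlim.comp tendsto_fst).sub (hlim.comp tendsto_snd)
      rw [sub_self] at h4
      have h5 : (fun p : ℕ × ℕ => (y p.1 : Sm 𝓜) - (y p.2 : Sm 𝓜)) =
          (fun z : Mc 𝓜 => (z : Sm 𝓜)) ∘ fun p : ℕ × ℕ => y p.1 - y p.2 := by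
        funext p
        simp [UniformSpace.Completion.coe_sub]
      rw [h5] at h4
      rw [← UniformSpace.Completion.coe_zero] at h4
      exact h4
    have hK : ∀ n : ℕ, ∃ K : ℕ, ∀ k l, K ≤ k → K ≤ l → y k - y l ∈ Nb 𝓜 ((1 / 2) ^ n) := by
      intro n
      have h6 : ∀ᶠ p : ℕ × ℕ in atTop ×ˢ atTop, y p.1 - y p.2 ∈ Nb 𝓜 ((1 / 2) ^ n) :=
        hsub.eventually (hMT.mem_of_mem (by positivity))
      rw [prod_atTop_atTop_eq, eventually_atTop] at h6
      obtain ⟨⟨a, b⟩, hab⟩ := h6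
      exact ⟨max a b, fun k l hk hl => hab (k, l)
        ⟨(le_max_left _ _).trans hk, (le_max_right _ _).trans hl⟩⟩
    choose K hK using hK
    let φ : ℕ → ℕ := fun n => n + ∑ i ∈ range (n + 1), K i
    have hφK : ∀ n, K n ≤ φ n := fun n =>
      (Finset.single_le_sum (fun i _ => Nat.zero_le _) (Finset.self_mem_range_succ n)).trans
        (Nat.le_add_left _ _)
    have hφm : ∀ n, φ n ≤ φ (n + 1) := fun n => by
      simp only [φ]
      rw [Finset.sum_range_succ _ (n + 1)]
      omega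
    have hφ : Tendsto φ atTop atTop :=
      tendsto_atTop_mono (fun n => Nat.le_add_right _ _) tendsto_id
    obtain ⟨x, hx1, hx2⟩ := H_C_ball.limit_exists (𝓜 := 𝓜) h1 h3 (fun n => y (φ n)) c
      (fun n => hc _) (fun n => hK n _ _ ((hφK n).trans (hφm n)) (hφK n))
    refine ⟨x, ?_, hx1⟩
    have h7 : Tendsto (fun n => y (φ n)) atTop (𝓝 x) := by
      rw [← tendsto_sub_nhds_zero_iff, hMT.tendsto_right_iff]
      intro ε hε
      obtain ⟨m, hm⟩ := hx2 ε hε
      exact eventually_atTop.2 ⟨m, hm⟩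
    have h8 : Tendsto (fun n => (y (φ n) : Sm 𝓜)) atTop (𝓝 (x : Sm 𝓜)) :=
      ((UniformSpace.Completion.continuous_coe (Mc 𝓜)).tendsto x).comp h7
    exact tendsto_nhds_unique (hlim.comp hφ) h8

end MDB
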