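import Pool.Agent.MDB.Targets2

/-!
# Cutting a measurable operator down to a bounded one
-/

open scoped ENNReal NNReal Topology
open Finset

namespace MDB

open Mc

universe u

namespace H_C_cut

variable {H : Type u} [NormedAddCommGroup H] [InnerProductSpace ℂ H] [CompleteSpace H]

theorem tr_zero (𝓜 : TVN H) : 𝓜.tr 0 = 0 := by
  have := 𝓜.tr_smul 0 0 (zero_mem _) le_rfl
  simpa using this

theorem isClosed_vn (V : VonNeumannAlgebra H) : IsClosed (V : Set (H →L[ℂ] H)) := by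
  have : (V : Set (H →L[ℂ] H)) = Set.centralizer (Set.centralizer (V : Set (H →L[ℂ] H))) :=
    V.centralizer_centralizer.symm
  rw [this]
  exact Set.isClosed_centralizer _

/-- small operators are in the neighbourhoods of zero -/
theorem mem_Nb_of_norm (𝓜 : TVN H) {ε : ℝ} {x : Mc 𝓜} (hx : ‖x.op‖ ≤ ε) :
    x ∈ Nb 𝓜 ε := by
  refine ⟨1, IsStarProjection.one (H →L[ℂ] H), ?_, ?_⟩
  · rw [mul_one]
    exact hx
  · have : (1 - 1 : Mc 𝓜).op = 0 := by rw [sub_self]; rfl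
    rw [this, tr_zero]
    exact bot_le

/-- A fast converging sequence. -/
theorem exists_seq (𝓜 : TVN H) [UniformSpace (Mc 𝓜)] [IsTopologicalRing (Mc 𝓜)]
    [IsUniformAddGroup (Mc 𝓜)] (hMT : IsMT 𝓜) (ξ : Sm 𝓜) (δ : ℕ → ℝ) (hδ : ∀ k, 0 < δ k)
    (hδ0 : Filter.Tendsto δ Filter.atTop (𝓝 0)) :
    ∃ x : ℕ → Mc 𝓜, (∀ k, x (k + 1) - x k ∈ Nb 𝓜 (δ k)) ∧
      Filter.Tendsto (fun k => (x k : Sm 𝓜)) Filter.atTop (𝓝 ξ) := by
  have hind : IsDenseInducing ((↑) : Mc 𝓜 → Sm 𝓜) := UniformSpace.Completion.isDenseInducing_coe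
  have h0 : ((0 : Mc 𝓜) : Sm 𝓜) = 0 := UniformSpace.Completion.coe_zero
  have hbas : (𝓝 (0 : Sm 𝓜)).HasBasis (fun ε : ℝ => 0 < ε)
      (fun ε => closure ((↑) '' (Nb 𝓜 ε) : Set (Sm 𝓜))) := by
    have := hMT.hasBasis_of_isDenseInducing hind
    rw [h0] at this
    exact this
  -- neighbourhoods
  have hO : ∀ k : ℕ, ∃ O : Set (Sm 𝓜), O ∈ 𝓝 (0 : Sm 𝓜) ∧
      (∀ a b : Sm 𝓜, a ∈ O → b ∈ O → ∀ z : Mc 𝓜, (z : Sm 𝓜) = a - b → z ∈ Nb 𝓜 (δ k)) ∧
      O ⊆ closure ((↑) '' (Nb 𝓜 (δ k)) : Set (Sm 𝓜)) := by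
    intro k
    have h1 : Nb 𝓜 (δ k) ∈ 𝓝 (0 : Mc 𝓜) := hMT.mem_of_mem (hδ k)
    rw [hind.toIsInducing.nhds_eq_comap, h0] at h1
    obtain ⟨O1, hO1, hsub⟩ := Filter.mem_comap.1 h1
    have h2 : Filter.Tendsto (fun p : Sm 𝓜 × Sm 𝓜 => p.1 - p.2) (𝓝 0 ×ˢ 𝓝 0) (𝓝 (0 - 0)) := by
      rw [← nhds_prod_eq]
      exact (continuous_fst.sub continuous_snd).tendsto _
    rw [sub_zero] at h2
    have h3 := h2 hO1
    rw [Filter.mem_map] at h3
    obtain ⟨O2, hO2, hO2'⟩ := Filter.mem_prod_same_iff.1 h3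
    refine ⟨O2 ∩ closure ((↑) '' (Nb 𝓜 (δ k)) : Set (Sm 𝓜)),
      Filter.inter_mem hO2 (hbas.mem_of_mem (hδ k)), ?_, Set.inter_subset_right⟩
    intro a b ha hb z hz
    apply hsub
    change (z : Sm 𝓜) ∈ O1
    rw [hz]
    exact hO2' (Set.mk_mem_prod ha.1 hb.1)
  choose O hO0 hO1 hO2 using hO
  have hx : ∀ k : ℕ, ∃ x : Mc 𝓜, ∀ j ≤ k, ξ - (x : Sm 𝓜) ∈ O j := by
    intro k
    have h1 : (⋂ j ∈ Finset.range (k + 1), O j) ∈ 𝓝 (0 : Sm 𝓜) := by
      rw [Filter.biInter_finset_mem]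
      intro j _
      exact hO0 j
    have h2 : Filter.Tendsto (fun η : Sm 𝓜 => ξ - η) (𝓝 ξ) (𝓝 (ξ - ξ)) :=
      (continuous_const.sub continuous_id).tendsto _
    rw [sub_self] at h2
    have h3 := h2 h1
    obtain ⟨η, hη, x, rfl⟩ := hind.dense.exists_mem_open isOpen_interior
      ⟨ξ, mem_interior_iff_mem_nhds.2 h3⟩ |> fun ⟨x, hx⟩ => (⟨(x : Sm 𝓜), hx, x, rfl⟩ :
        ∃ η : Sm 𝓜, η ∈ interior ((fun η : Sm 𝓜 => ξ - η) ⁻¹' (⋂ j ∈ Finset.range (k + 1), O j)) ∧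
          ∃ x : Mc 𝓜, (x : Sm 𝓜) = η)
    refine ⟨x, fun j hj => ?_⟩
    have h4 := interior_subset hη
    rw [Set.mem_preimage, Set.mem_iInter₂] at h4
    exact h4 j (Finset.mem_range.2 (by omega))
  choose x hx using hx
  refine ⟨x, ?_, ?_⟩
  · intro k
    refine hO1 k (ξ - (x k : Sm 𝓜)) (ξ - (x (k + 1) : Sm 𝓜)) (hx k k le_rfl)
      (hx (k + 1) k (by omega)) _ ?_
    rw [UniformSpace.Completion.coe_sub]
    abel
  · have h1 : Filter.Tendsto (fun k => ξ - (x k : Sm 𝓜)) Filter.atTop (𝓝 0) := by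
      rw [hbas.tendsto_right_iff]
      intro ε hε
      obtain ⟨k0, hk0⟩ := Filter.eventually_atTop.1 (hδ0.eventually (gt_mem_nhds hε))
      refine Filter.eventually_atTop.2 ⟨k0, fun k hk => ?_⟩
      have h2 := hO2 k0 (hx k k0 hk)
      refine closure_mono (Set.image_mono ?_) h2
      rintro z ⟨e, he, h3, h4⟩
      exact ⟨e, he, h3.trans (hk0 k0 le_rfl).le,
        h4.trans (ENNReal.ofReal_le_ofReal (hk0 k0 le_rfl).le)⟩
    have h2 := (tendsto_const_nhds (x := ξ)).sub h1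
    simpa using h2

/-- the right version -/
theorem cut_right (hmeet : A_meet.{u}) (𝓜 : TVN H) [UniformSpace (Mc 𝓜)]
    [IsTopologicalRing (Mc 𝓜)] [IsUniformAddGroup (Mc 𝓜)] (hMT : IsMT 𝓜) (ξ : Sm 𝓜) (ε : ℝ)
    (hε : 0 < ε) :
    ∃ e y : Mc 𝓜, IsP e ∧ 𝓜.tr (1 - e).op ≤ ENNReal.ofReal ε ∧ ξ * (e : Sm 𝓜) = (y : Sm 𝓜) := by
  set δ : ℕ → ℝ := fun k => ε / 2 / 2 ^ k with hδdef
  have hδ : ∀ k, 0 < δ k := fun k => by simp only [hδdef]; positivity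
  have hsum : HasSum δ ε := hasSum_geometric_two' ε
  have hδ0 : Filter.Tendsto δ Filter.atTop (𝓝 0) := hsum.summable.tendsto_atTop_zero
  obtain ⟨x, hx, hlim⟩ := exists_seq 𝓜 hMT ξ δ hδ hδ0
  choose e he hnorm htr using hx
  obtain ⟨h, hM, hP, heh, hh⟩ := (hmeet H 𝓜).2 (fun k => (e k).op) (fun k => (e k).2) he
  set h' : Mc 𝓜 := mk h hM with hh'
  have hop : h'.op = h := rfl
  have hhnorm : ‖h‖ ≤ 1 := hP.norm_le
  have hdiff : ∀ k, ‖(x (k + 1) * h').op - (x k * h').op‖ ≤ δ k := by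
    intro k
    have h1 : (x (k + 1) * h').op - (x k * h').op = ((x (k + 1) - x k) * e k).op * h := by
      have h2 : ((x (k + 1) - x k) * e k).op * h = (x (k + 1) - x k).op * ((e k).op * h) := by
        rw [← mul_assoc]; rfl
      rw [h2, heh k]
      change (x (k + 1)).op * h - (x k).op * h = ((x (k + 1)).op - (x k).op) * h
      rw [sub_mul]
    rw [h1]
    calc ‖((x (k + 1) - x k) * e k).op * h‖ ≤ ‖((x (k + 1) - x k) * e k).op‖ * ‖h‖ :=
          norm_mul_le _ _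
      _ ≤ δ k * 1 := mul_le_mul (hnorm k) hhnorm (norm_nonneg _) (hδ k).le
      _ = δ k := mul_one _
  have hcau : CauchySeq fun k => (x k * h').op := by
    refine cauchySeq_of_dist_le_of_summable δ (fun k => ?_) hsum.summable
    rw [dist_comm, dist_eq_norm]
    exact hdiff k
  obtain ⟨y, hy⟩ := cauchySeq_tendsto_of_complete hcau
  have hyM : y ∈ 𝓜.M :=
    (isClosed_vn 𝓜.M).mem_of_tendsto hy (Filter.Eventually.of_forall fun k => (x k * h').2)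
  set y' : Mc 𝓜 := mk y hyM with hy'
  refine ⟨h', y', hP, ?_, ?_⟩
  · refine hh.trans ?_
    rw [← hsum.tsum_eq, ENNReal.ofReal_tsum_of_nonneg (fun k => (hδ k).le) hsum.summable]
    exact ENNReal.tsum_le_tsum htr
  · have h1 : Filter.Tendsto (fun k => x k * h') Filter.atTop (𝓝 y') := by
      have h2 : Filter.Tendsto (fun k => x k * h' - y') Filter.atTop (𝓝 0) := by
        rw [hMT.tendsto_right_iff]
        intro η hη
        have h3 : ∀ᶠ k in Filter.atTop, ‖(x k * h').op - y‖ < η := by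
          have := (tendsto_iff_norm_sub_tendsto_zero.1 hy).eventually (gt_mem_nhds hη)
          exact this
        filter_upwards [h3] with k hk
        exact mem_Nb_of_norm 𝓜 hk.le
      have h3 := h2.add (tendsto_const_nhds (x := y'))
      simpa using h3
    have h2 : Filter.Tendsto (fun k => ((x k * h' : Mc 𝓜) : Sm 𝓜)) Filter.atTop
        (𝓝 (y' : Sm 𝓜)) :=
      ((UniformSpace.Completion.continuous_coe (Mc 𝓜)).tendsto _).comp h1
    have h3 : Filter.Tendsto (fun k => ((x k * h' : Mc 𝓜) : Sm 𝓜)) Filter.atTop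
        (𝓝 (ξ * (h' : Sm 𝓜))) := by
      have h4 := hlim.mul (tendsto_const_nhds (x := (h' : Sm 𝓜)))
      refine h4.congr fun k => ?_
      rw [UniformSpace.Completion.coe_mul]
    exact tendsto_nhds_unique h3 h2

end H_C_cut

open H_C_cut

theorem q_cut (h1 : A_meet.{u}) (h2 : C_star.{u}) : C_cut.{u} := by
  intro H _ _ _ 𝓜 _ _ _ hMT ξ ε hε
  refine ⟨cut_right h1 𝓜 hMT ξ ε hε, ?_⟩
  obtain ⟨hs1, _, _, hs2, hs3, _⟩ := h2 H 𝓜 hMT
  obtain ⟨e, y, he, htr, hy⟩ := cut_right h1 𝓜 hMT (sst ξ) ε hε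
  refine ⟨e, star y, he, htr, ?_⟩
  have h3 : sst (sst ξ * (e : Sm 𝓜)) = sst (y : Sm 𝓜) := by rw [hy]
  have hse : star e = e := by
    apply Subtype.ext
    exact he.isSelfAdjoint
  rw [hs2, hs3, hs1, hs1, hse] at h3
  exact h3

end MDB
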