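import Pool.Agent.MDB.Targets2

/-!
# Fatou property of the Orlicz functional
-/

open scoped ENNReal NNReal Topology
open Finset

namespace MDB

open Mc

universe u

namespace H_C_fatou

open MeasureTheory Filter

/-- pointwise lower semicontinuity -/
theorem pointwise (f : ℝ → ℝ) (hf : ContinuousOn f (Set.Ici 0)) (hm : MonotoneOn f (Set.Ici 0))
    (x : ℝ) (hx : 0 ≤ x) (a e : ℕ → ℝ) (ha : ∀ k, 0 ≤ a k)
    (hae : ∀ k, x ≤ a k + e k) (he : Tendsto e atTop (𝓝 0)) :
    ENNReal.ofReal (f x) ≤ liminf (fun k => ENNReal.ofReal (f (a k))) atTop := by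
  have h1 : Tendsto (fun k => max (x - e k) 0) atTop (𝓝 x) := by
    have h : Tendsto (fun k => max (x - e k) 0) atTop (𝓝 (max (x - 0) 0)) :=
      (tendsto_const_nhds.sub he).max tendsto_const_nhds
    rwa [sub_zero, max_eq_left hx] at h
  have h2 : Tendsto (fun k => max (x - e k) 0) atTop (𝓝[Set.Ici 0] x) :=
    tendsto_nhdsWithin_iff.mpr ⟨h1, Eventually.of_forall fun k => Set.mem_Ici.mpr (le_max_right _ _)⟩
  have h3 : Tendsto (fun k => ENNReal.ofReal (f (max (x - e k) 0))) atTop
      (𝓝 (ENNReal.ofReal (f x))) :=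
    ENNReal.tendsto_ofReal ((hf x hx).tendsto.comp h2)
  rw [← h3.liminf_eq]
  refine liminf_le_liminf (Eventually.of_forall fun k => ENNReal.ofReal_le_ofReal ?_)
  refine hm (Set.mem_Ici.mpr (le_max_right _ _)) (Set.mem_Ici.mpr (ha k)) ?_
  exact max_le (by linarith [hae k]) (ha k)

theorem shift (g : ℝ → ℝ≥0∞) (δ : ℝ) :
    ∫⁻ t in Set.Ioi δ, g (t - δ) = ∫⁻ t in Set.Ioi (0 : ℝ), g t := by
  rw [← lintegral_indicator measurableSet_Ioi, ← lintegral_indicator measurableSet_Ioi,
    ← lintegral_sub_right_eq_self ((Set.Ioi (0 : ℝ)).indicator g) δ]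
  congr 1
  funext t
  by_cases h : δ < t
  · rw [Set.indicator_of_mem (show t ∈ Set.Ioi δ from h),
      Set.indicator_of_mem (show t - δ ∈ Set.Ioi (0 : ℝ) from sub_pos.mpr h)]
  · rw [Set.indicator_of_notMem (show t ∉ Set.Ioi δ from h),
      Set.indicator_of_notMem (show t - δ ∉ Set.Ioi (0 : ℝ) from fun h' => h (sub_pos.mp h'))]

end H_C_fatou

open H_C_fatou MeasureTheory Filter in
theorem q_fatou (h1 : C_mu.{u}) : C_fatou.{u} := by
  intro H _ _ _ 𝓜 _ _ _ hMT f hf hm hf0 ξ η hlim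
  obtain ⟨m0, manti, madd, -, -, -, mneg, -, -, -, mlim⟩ := h1 H 𝓜 hMT
  have key : ∀ δ : ℝ, 0 < δ → ∫⁻ t in Set.Ioi δ, ENNReal.ofReal (f (mu η t)) ≤
      liminf (fun k => orl f (ξ k)) atTop := by
    intro δ hδ
    have hconv : Tendsto (fun k => mu (ξ k - η) δ) atTop (𝓝 0) :=
      (mlim ℕ atTop ξ η).mp hlim δ hδ
    have e1 : ∀ t ∈ Set.Ioi δ, ENNReal.ofReal (f (mu η t)) ≤
        liminf (fun k => ENNReal.ofReal (f (mu (ξ k) (t - δ)))) atTop := by
      intro t ht
      refine pointwise f hf hm (mu η t) (m0 _ _) (fun k => mu (ξ k) (t - δ))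
        (fun k => mu (ξ k - η) δ) (fun k => m0 _ _) (fun k => ?_) hconv
      have h := madd (ξ k) (-(ξ k - η)) (t - δ) δ (sub_pos.mpr ht) hδ
      rw [mneg, sub_add_cancel] at h
      have e : ξ k + -(ξ k - η) = η := by abel
      rwa [e] at h
    calc ∫⁻ t in Set.Ioi δ, ENNReal.ofReal (f (mu η t))
        ≤ ∫⁻ t in Set.Ioi δ, liminf (fun k => ENNReal.ofReal (f (mu (ξ k) (t - δ)))) atTop :=
          setLIntegral_mono' measurableSet_Ioi e1
      _ ≤ liminf (fun k => ∫⁻ t in Set.Ioi δ, ENNReal.ofReal (f (mu (ξ k) (t - δ)))) atTop := by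
          apply lintegral_liminf_le'
          intro k
          apply aemeasurable_restrict_of_antitoneOn measurableSet_Ioi
          intro s hs t ht hst
          apply ENNReal.ofReal_le_ofReal
          apply hm (m0 _ _) (m0 _ _)
          exact manti _ _ _ (sub_pos.mpr hs) (by linarith)
      _ = liminf (fun k => orl f (ξ k)) atTop := by
          congr 1
          funext k
          exact shift (fun t => ENNReal.ofReal (f (mu (ξ k) t))) δ
  unfold orl at key ⊢
  have hU : Set.Ioi (0 : ℝ) = ⋃ n : ℕ, Set.Ioi (1 / ((n : ℝ) + 1)) := by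
    ext t
    simp only [Set.mem_Ioi, Set.mem_iUnion]
    constructor
    · intro ht
      exact exists_nat_one_div_lt ht
    · rintro ⟨n, hn⟩
      exact lt_trans (by positivity) hn
  rw [hU, setLIntegral_iUnion_of_directed]
  · refine iSup_le fun n => ?_
    rw [← hU]
    exact key _ (by positivity)
  · apply Monotone.directed_le
    intro m n hmn
    apply Set.Ioi_subset_Ioi
    apply one_div_le_one_div_of_le (by positivity)
    have : (m : ℝ) ≤ n := by exact_mod_cast hmn
    linarith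

end MDB
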