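import Pool.Agent.MDB.Targets2
import Pool.Agent.MDB.jump

/-! # Layer formula for the trace (target `C_layer`) -/

open scoped ENNReal NNReal Topology
open Finset

namespace MDB

open Mc

universe u

namespace H_C_layer

open MDB_JUMP

section cstar

variable {A : Type u} [CStarAlgebra A] [PartialOrder A] [StarOrderedRing A]

omit [PartialOrder A] [StarOrderedRing A] in
lemma sa_real_smul {x : A} (hx : IsSelfAdjoint x) (s : ℝ) : IsSelfAdjoint (s • x) := by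
  unfold IsSelfAdjoint
  rw [star_smul, hx.star_eq, star_trivial]

lemma proj_conj {P x y : A} (hP : IsStarProjection P) (h : x ≤ y) : P * x * P ≤ P * y * P := by
  have := star_left_conjugate_le_conjugate h P
  rwa [hP.isSelfAdjoint.star_eq] at this

lemma proj_conj_nonneg {P x : A} (hP : IsStarProjection P) (h : 0 ≤ x) : 0 ≤ P * x * P := by
  have := star_left_conjugate_nonneg h P
  rwa [hP.isSelfAdjoint.star_eq] at this

lemma proj_nonneg {P : A} (hP : IsStarProjection P) : 0 ≤ P := by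
  have := star_mul_self_nonneg P
  rwa [hP.isSelfAdjoint.star_eq, hP.isIdempotentElem.eq] at this

/-- upper spectral part -/
lemma sp_hi (b P : A) (hb : IsSelfAdjoint b) (hP : IsStarProjection P) (hc : P * b = b * P)
    (s : ℝ) (h : s • P ≤ P * b * P) (g : ℝ → ℝ) (hg : Continuous g) (c : ℝ)
    (hgc : ∀ x, s ≤ x → g x = c) : P * cfc g b = c • P := by
  have hid := hP.isIdempotentElem.eq
  have hsa := hP.isSelfAdjoint
  set b2 : A := b * P + s • (1 - P) with hb2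
  have hbP : b * P = P * b * P := by rw [hc, mul_assoc, hid]
  have hbPs : IsSelfAdjoint (b * P) := by
    rw [hbP]
    have := hb.conjugate P
    rwa [hsa.star_eq] at this
  have hb2s : IsSelfAdjoint b2 :=
    hbPs.add (sa_real_smul ((IsSelfAdjoint.one A).sub hsa) s)
  have hge : algebraMap ℝ A s ≤ b2 := by
    rw [Algebra.algebraMap_eq_smul_one, hb2, hbP, smul_sub]
    have e1 : P * b * P + (s • (1 : A) - s • P) = s • (1 : A) + (P * b * P - s • P) := by abel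
    rw [e1]
    exact le_add_of_nonneg_right (sub_nonneg.mpr h)
  have hsp := (algebraMap_le_iff_le_spectrum (a := b2) hb2s).mp hge
  have hcf : cfc g b2 = c • (1 : A) := by
    rw [cfc_congr (g := fun _ : ℝ => c) (fun x hx => hgc x (hsp x hx)), cfc_const c b2 hb2s,
      Algebra.algebraMap_eq_smul_one]
  have htw : cfc g b2 * P = P * cfc g b := by
    refine cfc_tw g hg b2 b P hb2s hb ?_
    rw [hb2, add_mul, mul_assoc, hid, smul_mul_assoc, sub_mul, one_mul, hid, sub_self, smul_zero,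
      add_zero, hc]
  rw [← htw, hcf, smul_mul_assoc, one_mul]

/-- lower spectral part -/
lemma sp_lo (b P : A) (hb0 : 0 ≤ b) (hP : IsStarProjection P) (hc : P * b = b * P)
    (s : ℝ) (hs : 0 ≤ s) (h : (1 - P) * b * (1 - P) ≤ s • (1 - P)) (g : ℝ → ℝ)
    (hg : Continuous g) (hgc : ∀ x, 0 ≤ x → x ≤ s → g x = 0) : P * cfc g b = cfc g b := by
  have hb : IsSelfAdjoint b := IsSelfAdjoint.of_nonneg hb0
  have hP' := hP.one_sub
  have hid := hP'.isIdempotentElem.eq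
  have hsa := hP'.isSelfAdjoint
  set Q : A := 1 - P with hQ
  have hcQ : Q * b = b * Q := by rw [hQ, sub_mul, mul_sub, one_mul, mul_one, hc]
  have hbQ : b * Q = Q * b * Q := by rw [hcQ, mul_assoc, hid]
  have h0 : 0 ≤ b * Q := by rw [hbQ]; exact proj_conj_nonneg hP' hb0
  have hbs : IsSelfAdjoint (b * Q) := IsSelfAdjoint.of_nonneg h0
  have hle : b * Q ≤ algebraMap ℝ A s := by
    rw [Algebra.algebraMap_eq_smul_one, hbQ]
    refine h.trans ?_
    have : s • (1 : A) = s • Q + s • P := by rw [← smul_add, hQ]; congr 1; abel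
    rw [this]
    exact le_add_of_nonneg_right (smul_nonneg hs (proj_nonneg hP))
  have hsp := (le_algebraMap_iff_spectrum_le (a := b * Q) hbs).mp hle
  have hcf : cfc g (b * Q) = 0 := by
    rw [cfc_congr (g := fun _ : ℝ => (0 : ℝ))
      (fun x hx => hgc x (spectrum_nonneg_of_nonneg h0 hx) (hsp x hx)), cfc_const_zero]
  have htw : cfc g (b * Q) * Q = Q * cfc g b := by
    refine cfc_tw g hg (b * Q) b Q hbs hb ?_
    rw [mul_assoc, hid, hcQ]
  rw [hcf, zero_mul] at htw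
  rw [hQ, sub_mul, one_mul] at htw
  exact (sub_eq_zero.mp htw.symm).symm

lemma sp_ge (b P : A) (hb0 : 0 ≤ b) (hP : IsStarProjection P) (hc : P * b = b * P)
    (s : ℝ) (h : s • P ≤ P * b * P) (g : ℝ → ℝ) (hg : Continuous g) (c : ℝ)
    (hgc : ∀ x, s ≤ x → g x = c) (hg0 : ∀ x, 0 ≤ x → 0 ≤ g x) : c • P ≤ cfc g b := by
  have hb : IsSelfAdjoint b := IsSelfAdjoint.of_nonneg hb0
  have h1 := sp_hi b P hb hP hc s h g hg c hgc
  have hP' := hP.one_sub
  have hcomm : P * cfc g b = cfc g b * P := (cfc_tw g hg b b P hb hb hc.symm).symm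
  have h2 : cfc g b - c • P = (1 - P) * cfc g b * (1 - P) := by
    have hid := hP.isIdempotentElem.eq
    rw [← h1]
    have : (1 - P) * cfc g b * (1 - P)
        = cfc g b - P * cfc g b - (cfc g b * P - P * cfc g b * P) := by noncomm_ring
    rw [this, hcomm, mul_assoc, hid, sub_self, sub_zero]
  rw [← sub_nonneg, h2]
  exact proj_conj_nonneg hP' (cfc_nonneg fun x hx => hg0 x (spectrum_nonneg_of_nonneg hb0 hx))

lemma sp_le (b P : A) (hb0 : 0 ≤ b) (hP : IsStarProjection P) (hc : P * b = b * P)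
    (s : ℝ) (hs : 0 ≤ s) (h : (1 - P) * b * (1 - P) ≤ s • (1 - P)) (g : ℝ → ℝ)
    (hg : Continuous g) (c : ℝ) (hgc : ∀ x, 0 ≤ x → x ≤ s → g x = 0)
    (hg1 : ∀ x, 0 ≤ x → g x ≤ c) : cfc g b ≤ c • P := by
  have hb : IsSelfAdjoint b := IsSelfAdjoint.of_nonneg hb0
  have h1 := sp_lo b P hb0 hP hc s hs h g hg hgc
  have hcomm : P * cfc g b = cfc g b * P := (cfc_tw g hg b b P hb hb hc.symm).symm
  have h2 : cfc g b = P * cfc g b * P := by rw [h1, ← hcomm, h1]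
  have h3 : cfc g b ≤ algebraMap ℝ A c :=
    cfc_le_algebraMap g c b fun x hx => hg1 x (spectrum_nonneg_of_nonneg hb0 hx)
  rw [h2]
  refine (proj_conj hP h3).trans (le_of_eq ?_)
  rw [Algebra.algebraMap_eq_smul_one, mul_smul_comm, mul_one, smul_mul_assoc,
    hP.isIdempotentElem.eq]

end cstar

/-! ### scalar pieces -/

section scalar

variable (f : ℝ → ℝ) (d : ℝ)

/-- the `i`-th piece of `f` -/
noncomputable def pc (i : ℕ) (x : ℝ) : ℝ :=
  f (min (max x (i * d)) ((i + 1 : ℕ) * d)) - f (i * d)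

/-- the `i`-th increment of `f` -/
noncomputable def inc (i : ℕ) : ℝ := f ((i + 1 : ℕ) * d) - f (i * d)

variable {f d}

lemma pc_arg_nonneg (hd : 0 < d) (i : ℕ) (x : ℝ) :
    0 ≤ min (max x (i * d)) ((i + 1 : ℕ) * d) := by
  refine le_min (le_max_of_le_right ?_) ?_ <;> positivity

lemma pc_cont (hd : 0 < d) (hf : ContinuousOn f (Set.Ici 0)) (i : ℕ) :
    Continuous (pc f d i) := by
  unfold pc
  refine Continuous.sub ?_ continuous_const
  exact hf.comp_continuous (by fun_prop) fun x => pc_arg_nonneg hd i x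

lemma pc_nonneg (hd : 0 < d) (hm : MonotoneOn f (Set.Ici 0)) (i : ℕ) (x : ℝ) :
    0 ≤ pc f d i x := by
  unfold pc
  rw [sub_nonneg]
  have h0 : (0 : ℝ) ≤ i * d := by positivity
  refine hm h0 (pc_arg_nonneg hd i x) (le_min (le_max_right _ _) ?_)
  push_cast
  nlinarith

lemma pc_le (hd : 0 < d) (hm : MonotoneOn f (Set.Ici 0)) (i : ℕ) (x : ℝ) :
    pc f d i x ≤ inc f d i := by
  unfold pc inc
  have h0 : (0 : ℝ) ≤ (i + 1 : ℕ) * d := by positivity
  exact sub_le_sub_right (hm (pc_arg_nonneg hd i x) h0 (min_le_right _ _)) _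

lemma inc_nonneg (hd : 0 < d) (hm : MonotoneOn f (Set.Ici 0)) (i : ℕ) : 0 ≤ inc f d i :=
  (pc_nonneg hd hm i 0).trans (pc_le hd hm i 0)

lemma pc_zero (hd : 0 < d) (i : ℕ) (x : ℝ) (hx : x ≤ i * d) : pc f d i x = 0 := by
  unfold pc
  rw [max_eq_right hx, min_eq_left, sub_self]
  push_cast
  nlinarith

lemma pc_top (hd : 0 < d) (i : ℕ) (x : ℝ) (hx : (i + 1 : ℕ) * d ≤ x) :
    pc f d i x = inc f d i := by
  unfold pc inc
  rw [max_eq_left, min_eq_right hx]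
  push_cast at hx
  nlinarith

lemma pc_sum (hd : 0 < d) (n : ℕ) (x : ℝ) :
    ∑ i ∈ range n, pc f d i x = f (min (max x 0) (n * d)) - f 0 := by
  induction n with
  | zero =>
    simp
  | succ n ih =>
    rw [Finset.sum_range_succ, ih]
    unfold pc
    have h0 : (0 : ℝ) ≤ n * d := by positivity
    have h1 : (n : ℝ) * d ≤ (n + 1 : ℕ) * d := by push_cast; nlinarith
    rcases le_total x (n * d) with hx | hx
    · have e1 : max x 0 ≤ n * d := max_le hx h0
      rw [min_eq_left e1, max_eq_right hx, min_eq_left h1, min_eq_left (e1.trans h1)]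
      ring
    · have e0 : 0 ≤ x := h0.trans hx
      rw [max_eq_left e0, min_eq_right hx, max_eq_left hx]
      ring

end scalar

section sums

variable {A : Type u} [CStarAlgebra A] [PartialOrder A] [StarOrderedRing A]

lemma cfc_pc_sum (b : A) (hb0 : 0 ≤ b) {f : ℝ → ℝ} {d : ℝ} (hd : 0 < d)
    (hf : ContinuousOn f (Set.Ici 0)) (h0 : f 0 = 0) (n : ℕ) (hn : ‖b‖ ≤ n * d)
    (g : ℝ → ℝ) (hg : Continuous g) (hg0 : ∀ x, 0 ≤ x → 0 ≤ g x ∧ g x ≤ x) :
    cfc (fun x => f (g x)) b = ∑ i ∈ range n, cfc (fun x => pc f d i (g x)) b := by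
  have hb : IsSelfAdjoint b := IsSelfAdjoint.of_nonneg hb0
  rw [← cfc_sum (fun i x => pc f d i (g x)) b (range n)
    (fun i _ => ((pc_cont hd hf i).comp hg).continuousOn)]
  refine cfc_congr fun x hx => ?_
  have hx0 := spectrum_nonneg_of_nonneg hb0 hx
  have hx1 : x ≤ ‖b‖ := (spec_Icc b hx).2
  obtain ⟨g0, g1⟩ := hg0 x hx0
  rw [Finset.sum_apply]
  rw [pc_sum hd, h0, sub_zero, max_eq_left g0, min_eq_left (g1.trans (hx1.trans hn))]

lemma sum_low (b : A) (hb0 : 0 ≤ b) {f : ℝ → ℝ} {d : ℝ} (hd : 0 < d)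
    (hf : ContinuousOn f (Set.Ici 0)) (hm : MonotoneOn f (Set.Ici 0)) (h0 : f 0 = 0)
    (n : ℕ) (hn : ‖b‖ ≤ n * d) (P : ℕ → A) (hP : ∀ i, IsStarProjection (P i))
    (hc : ∀ i, P i * b = b * P i)
    (h : ∀ i, ((((i + 1 : ℕ) * d : ℝ)) : ℂ) • P i ≤ P i * b * P i) :
    ∑ i ∈ range n, ((inc f d i : ℝ) : ℂ) • P i ≤ cfc f b := by
  have e := cfc_pc_sum b hb0 hd hf h0 n hn (fun x => x) continuous_id (fun x hx => ⟨hx, le_rfl⟩)
  rw [show cfc f b = cfc (fun x => f x) b from rfl, e]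
  refine Finset.sum_le_sum fun i _ => ?_
  rw [Complex.coe_smul]
  exact sp_ge b (P i) hb0 (hP i) (hc i) _ (by rw [← Complex.coe_smul]; exact h i) _
    (pc_cont hd hf i) _ (fun x hx => pc_top hd i x hx) (fun x _ => pc_nonneg hd hm i x)

lemma sum_up (b : A) (hb0 : 0 ≤ b) {f : ℝ → ℝ} {d : ℝ} (hd : 0 < d)
    (hf : ContinuousOn f (Set.Ici 0)) (hm : MonotoneOn f (Set.Ici 0)) (h0 : f 0 = 0)
    (n : ℕ) (hn : ‖b‖ ≤ n * d) (P : ℕ → A) (hP : ∀ i, IsStarProjection (P i))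
    (hc : ∀ i, P i * b = b * P i)
    (h : ∀ i, (1 - P i) * b * (1 - P i) ≤ ((((i + 1 : ℕ) * d : ℝ)) : ℂ) • (1 - P i)) :
    cfc (fun x => f (max (x - d) 0)) b ≤ ∑ i ∈ range n, ((inc f d i : ℝ) : ℂ) • P i := by
  have hg : Continuous fun x : ℝ => max (x - d) 0 := by fun_prop
  rw [cfc_pc_sum b hb0 hd hf h0 n hn (fun x => max (x - d) 0) hg
    (fun x hx => ⟨le_max_right _ _, max_le (by linarith) hx⟩)]
  refine Finset.sum_le_sum fun i _ => ?_
  rw [Complex.coe_smul]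
  refine sp_le b (P i) hb0 (hP i) (hc i) ((i + 1 : ℕ) * d) (by positivity)
    (by rw [← Complex.coe_smul]; exact h i) _
    ((pc_cont hd hf i).comp hg) _ (fun x _ hx => pc_zero hd i _ ?_) (fun x _ => pc_le hd hm i _)
  refine max_le ?_ (by positivity)
  push_cast at hx
  linarith

lemma mx (a : ℝ) : max a 0 ∈ Set.Ici (0 : ℝ) := Set.mem_Ici.mpr (le_max_right _ _)

/-- the truncations `f (x - d)_+` -/
noncomputable def ftr (f : ℝ → ℝ) (k : ℕ) (x : ℝ) : ℝ := f (max (x - 1 / ((k : ℝ) + 1)) 0)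

lemma ftr_cont {f : ℝ → ℝ} (hf : ContinuousOn f (Set.Ici 0)) (k : ℕ) : Continuous (ftr f k) :=
  hf.comp_continuous (by fun_prop) fun _ => mx _

lemma ftr_mono {f : ℝ → ℝ} (hm : MonotoneOn f (Set.Ici 0)) {j k : ℕ} (h : j ≤ k) (x : ℝ) :
    ftr f j x ≤ ftr f k x := by
  unfold ftr
  refine hm (mx _) (mx _) (max_le_max ?_ le_rfl)
  have : 1 / ((k : ℝ) + 1) ≤ 1 / ((j : ℝ) + 1) := by
    apply one_div_le_one_div_of_le (by positivity)
    have : (j : ℝ) ≤ k := by exact_mod_cast h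
    linarith
  linarith

lemma ftr_le {f : ℝ → ℝ} (hm : MonotoneOn f (Set.Ici 0)) (k : ℕ) (x : ℝ) (hx : 0 ≤ x) :
    ftr f k x ≤ f x := by
  unfold ftr
  refine hm (mx _) hx (max_le ?_ hx)
  have : 0 ≤ 1 / ((k : ℝ) + 1) := by positivity
  linarith

lemma isLUB_ftr (b : A) (hb0 : 0 ≤ b) {f : ℝ → ℝ} (hf : ContinuousOn f (Set.Ici 0))
    (hm : MonotoneOn f (Set.Ici 0)) :
    IsLUB (Set.range fun k : ℕ => cfc (ftr f k) b) (cfc f b) := by
  have hb : IsSelfAdjoint b := IsSelfAdjoint.of_nonneg hb0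
  have hfs : ContinuousOn f (spectrum ℝ b) :=
    hf.mono fun x hx => spectrum_nonneg_of_nonneg hb0 hx
  constructor
  · rintro _ ⟨k, rfl⟩
    exact cfc_mono (fun x hx => ftr_le hm k x (spectrum_nonneg_of_nonneg hb0 hx))
      (ftr_cont hf k).continuousOn hfs
  · intro v hv
    have hus : IsSelfAdjoint v := by
      have h1 : cfc (ftr f 0) b ≤ v := hv ⟨0, rfl⟩
      have h2 := IsSelfAdjoint.of_nonneg (sub_nonneg.mpr h1)
      have h3 := h2.add (cfc_predicate (ftr f 0) b)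
      rwa [sub_add_cancel] at h3
    have hz : IsSelfAdjoint (v - cfc f b) := hus.sub (cfc_predicate f b)
    have key : ∀ ε : ℝ, 0 < ε → algebraMap ℝ A (-ε) ≤ v - cfc f b := by
      intro ε hε
      have huc : UniformContinuousOn f (Set.Icc 0 ‖b‖) :=
        isCompact_Icc.uniformContinuousOn_of_continuous (hf.mono fun x hx => hx.1)
      obtain ⟨δ, hδ, hδf⟩ := Metric.uniformContinuousOn_iff.mp huc ε hε
      obtain ⟨k, hk⟩ := exists_nat_one_div_lt hδ
      have h1 : cfc f b ≤ cfc (fun x => ftr f k x + ε) b := by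
        refine cfc_mono (fun x hx => ?_) hfs ((ftr_cont hf k).add continuous_const).continuousOn
        have hx0 := spectrum_nonneg_of_nonneg hb0 hx
        have hx1 : x ≤ ‖b‖ := (spec_Icc b hx).2
        have hk0 : 0 ≤ 1 / ((k : ℝ) + 1) := by positivity
        have := hδf x ⟨hx0, hx1⟩ (max (x - 1 / ((k : ℝ) + 1)) 0)
          ⟨le_max_right _ _, max_le (by linarith) (hx0.trans hx1)⟩ (by
            rw [Real.dist_eq, abs_lt]
            constructor
            · have : max (x - 1 / ((k : ℝ) + 1)) 0 ≤ x := max_le (by linarith) hx0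
              linarith
            · have : x - 1 / ((k : ℝ) + 1) ≤ max (x - 1 / ((k : ℝ) + 1)) 0 := le_max_left _ _
              linarith)
        rw [Real.dist_eq, abs_lt] at this
        unfold ftr
        linarith [this.2]
      rw [cfc_add b (ftr f k) (fun _ => ε) (ftr_cont hf k).continuousOn continuousOn_const,
        cfc_const ε b hb] at h1
      have h2 : cfc (ftr f k) b ≤ v := hv ⟨k, rfl⟩
      rw [map_neg, neg_le_sub_iff_le_add]
      refine h1.trans ?_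
      rw [add_comm]
      refine (add_le_add le_rfl h2).trans (le_of_eq ?_)
      rw [add_comm]
    have h0 : algebraMap ℝ A 0 ≤ v - cfc f b := by
      rw [algebraMap_le_iff_le_spectrum hz]
      intro x hx
      refine le_of_forall_pos_le_add fun ε hε => ?_
      have := (algebraMap_le_iff_le_spectrum hz).mp (key ε hε) x hx
      linarith
    rw [map_zero, sub_nonneg] at h0
    exact h0

end sums

/-! ### the trace -/

section trace

variable {H : Type u} [NormedAddCommGroup H] [InnerProductSpace ℂ H] [CompleteSpace H]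

lemma tr_rsmul (𝓜 : TVN H) (c : ℝ) (hc : 0 ≤ c) (x : H →L[ℂ] H) (hx : x ∈ 𝓜.M) (h0 : 0 ≤ x) :
    𝓜.tr ((c : ℂ) • x) = ENNReal.ofReal c * 𝓜.tr x := by
  have := 𝓜.tr_smul (Real.toNNReal c) x hx h0
  rw [Real.coe_toNNReal c hc] at this
  rw [this]
  rfl

lemma M_smul (𝓜 : TVN H) (c : ℂ) (x : H →L[ℂ] H) (hx : x ∈ 𝓜.M) : c • x ∈ 𝓜.M :=
  𝓜.M.toStarSubalgebra.smul_mem hx c

lemma smul_nn {x : H →L[ℂ] H} (c : ℝ) (hc : 0 ≤ c) (h0 : 0 ≤ x) : 0 ≤ (c : ℂ) • x := by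
  rw [Complex.coe_smul]
  exact smul_nonneg hc h0

lemma tr_sum (h4 : A_tr.{u}) (𝓜 : TVN H) (c : ℕ → ℝ) (hc : ∀ i, 0 ≤ c i)
    (P : ℕ → (H →L[ℂ] H)) (hP : ∀ i, P i ∈ 𝓜.M) (h0 : ∀ i, 0 ≤ P i) (n : ℕ) :
    (∑ i ∈ range n, ((c i : ℝ) : ℂ) • P i) ∈ 𝓜.M ∧
    0 ≤ (∑ i ∈ range n, ((c i : ℝ) : ℂ) • P i) ∧
    𝓜.tr (∑ i ∈ range n, ((c i : ℝ) : ℂ) • P i)
      = ∑ i ∈ range n, ENNReal.ofReal (c i) * 𝓜.tr (P i) := by
  induction n with
  | zero =>
    simp only [Finset.range_zero, Finset.sum_empty]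
    exact ⟨zero_mem _, le_rfl, (h4 H 𝓜).1⟩
  | succ n ih =>
    obtain ⟨i1, i2, i3⟩ := ih
    have m := M_smul 𝓜 ((c n : ℝ) : ℂ) (P n) (hP n)
    have p := smul_nn (c n) (hc n) (h0 n)
    simp only [Finset.sum_range_succ]
    refine ⟨add_mem i1 m, add_nonneg i2 p, ?_⟩
    rw [𝓜.tr_add _ _ i1 m i2 p, i3, tr_rsmul 𝓜 (c n) (hc n) (P n) (hP n) (h0 n)]

/-- no large spectral projection inside a projection on which `b` is small -/
lemma tr_spec_le (h4 : A_tr.{u}) (h6 : A_rp.{u}) (h7 : A_rptr.{u}) (𝓜 : TVN H)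
    (b P e : H →L[ℂ] H) (hPM : P ∈ 𝓜.M) (heM : e ∈ 𝓜.M)
    (hP : IsStarProjection P) (he : IsStarProjection e) (s c : ℝ) (hcs : c < s)
    (h : (s : ℂ) • P ≤ P * b * P) (hec : e * b * e ≤ (c : ℂ) • (1 : H →L[ℂ] H)) :
    𝓜.tr P ≤ 𝓜.tr (1 - e) := by
  have hPid := hP.isIdempotentElem.eq
  have hPsa := hP.isSelfAdjoint
  have heid := he.isIdempotentElem.eq
  have hesa := he.isSelfAdjoint
  have he' := he.one_sub
  have h1e : (1 - e) ∈ 𝓜.M := sub_mem (one_mem _) heM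
  obtain ⟨r1, r2, r3, r4⟩ := h6 H (P * (1 - e))
  set R := rp (P * (1 - e)) with hR
  have hPR : P * R = R := by
    have := r3 (1 - P) (by rw [← mul_assoc, sub_mul, one_mul, hPid, sub_self, zero_mul])
    rw [sub_mul, one_mul] at this
    exact (sub_eq_zero.mp this).symm
  have hRP : R * P = R := by
    have := congrArg star hPR
    rwa [star_mul, r1.isSelfAdjoint.star_eq, hPsa.star_eq] at this
  have hRid := r1.isIdempotentElem.eq
  have hQ : IsStarProjection (P - R) := by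
    refine ⟨?_, hPsa.sub r1.isSelfAdjoint⟩
    unfold IsIdempotentElem
    have : (P - R) * (P - R) = P * P - P * R - (R * P - R * R) := by noncomm_ring
    rw [this, hPid, hPR, hRP, hRid, sub_self, sub_zero]
  set Q := P - R with hQd
  have hQid := hQ.isIdempotentElem.eq
  have hQsa := hQ.isSelfAdjoint
  have hQP : Q * P = Q := by rw [hQd, sub_mul, hPid, hRP]
  have hPQ : P * Q = Q := by rw [hQd, mul_sub, hPid, hPR]
  have hQ0 : Q * (1 - e) = 0 := by
    have h1 : Q * (P * (1 - e)) = 0 := by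
      rw [hQd, sub_mul, r2, ← mul_assoc, hPid, sub_self]
    rwa [← mul_assoc, hQP] at h1
  have hQe : Q * e = Q := by
    rw [mul_sub, mul_one] at hQ0
    exact (sub_eq_zero.mp hQ0).symm
  have heQ : e * Q = Q := by
    have := congrArg star hQe
    rwa [star_mul, hQsa.star_eq, hesa.star_eq] at this
  have k1 : (s : ℂ) • Q ≤ Q * b * Q := by
    have := proj_conj hQ h
    rw [mul_smul_comm, smul_mul_assoc, hQP, hQid] at this
    have e1 : Q * (P * b * P) * Q = (Q * P) * b * (P * Q) := by simp only [mul_assoc]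
    rwa [e1, hQP, hPQ] at this
  have k2 : Q * b * Q ≤ (c : ℂ) • Q := by
    have := proj_conj hQ hec
    rw [mul_smul_comm, smul_mul_assoc, mul_one, hQid] at this
    have e1 : Q * (e * b * e) * Q = (Q * e) * b * (e * Q) := by simp only [mul_assoc]
    rwa [e1, hQe, heQ] at this
  have k3 : ((s - c : ℝ) : ℂ) • Q ≤ 0 := by
    have := k1.trans k2
    rw [← sub_nonpos, ← sub_smul] at this
    push_cast
    exact this
  have hQnn : 0 ≤ Q := proj_nonneg hQ
  have hQz : Q = 0 := by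
    have h5 : 0 ≤ ((s - c : ℝ) : ℂ) • Q := smul_nn _ (by linarith) hQnn
    have h6 := le_antisymm k3 h5
    rcases smul_eq_zero.mp h6 with h7 | h7
    · exact absurd (Complex.ofReal_eq_zero.mp h7) (by linarith)
    · exact h7
  have hPReq : P = R := sub_eq_zero.mp hQz
  have hPe : P * (1 - e) ∈ 𝓜.M := mul_mem hPM h1e
  have ht := h7 H 𝓜 (P * (1 - e)) hPe
  rw [← hR, ← hPReq, star_mul, he'.isSelfAdjoint.star_eq, hPsa.star_eq] at ht
  rw [ht]
  obtain ⟨q1, _, q3, q4⟩ := h6 H ((1 - e) * P)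
  have hS : e * rp ((1 - e) * P) = 0 := q3 e (by
    rw [← mul_assoc, mul_sub, mul_one, heid, sub_self, zero_mul])
  have hSle : rp ((1 - e) * P) ≤ 1 - e := by
    have e1 : (1 - e) - rp ((1 - e) * P) = star ((1 - e) - rp ((1 - e) * P)) * ((1 - e) - rp ((1 - e) * P)) := by
      have hS' : rp ((1 - e) * P) * e = 0 := by
        have := congrArg star hS
        rwa [star_mul, q1.isSelfAdjoint.star_eq, hesa.star_eq, star_zero] at this
      rw [star_sub, he'.isSelfAdjoint.star_eq, q1.isSelfAdjoint.star_eq]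
      have : ((1 - e) - rp ((1 - e) * P)) * ((1 - e) - rp ((1 - e) * P))
          = (1 - e) * (1 - e) - (rp ((1 - e) * P) - e * rp ((1 - e) * P))
            - (rp ((1 - e) * P) - rp ((1 - e) * P) * e) + rp ((1 - e) * P) * rp ((1 - e) * P) := by
        noncomm_ring
      rw [this, hS, hS', he'.isIdempotentElem.eq, q1.isIdempotentElem.eq]
      noncomm_ring
    rw [← sub_nonneg, e1]
    exact star_mul_self_nonneg _
  exact (h4 H 𝓜).2.1 _ _ (q4 𝓜.M (mul_mem h1e hPM)) h1e (proj_nonneg q1) hSle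

lemma tr_ftr_lim (h5 : A_cfc.{u}) (𝓜 : TVN H) (b : H →L[ℂ] H) (hb : b ∈ 𝓜.M) (hb0 : 0 ≤ b)
    {f : ℝ → ℝ} (hf : ContinuousOn f (Set.Ici 0)) (hm : MonotoneOn f (Set.Ici 0)) (h0 : f 0 = 0)
    (B : ℝ≥0∞) (hB : ∀ k : ℕ, 𝓜.tr (cfc (ftr f k) b) ≤ B) : 𝓜.tr (cfc f b) ≤ B := by
  rw [𝓜.tr_normal (Set.range fun k : ℕ => cfc (ftr f k) b) (cfc f b) (Set.range_nonempty _) ?_ ?_
    (isLUB_ftr b hb0 hf hm)]
  · refine iSup₂_le ?_
    rintro _ ⟨k, rfl⟩
    exact hB k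
  · rw [directedOn_range]
    refine Monotone.directed_le fun j k hjk => ?_
    exact cfc_mono (fun x _ => ftr_mono hm hjk x) (ftr_cont hf j).continuousOn
      (ftr_cont hf k).continuousOn
  · rintro _ ⟨k, rfl⟩
    refine ⟨h5 H 𝓜.M b _ hb, cfc_nonneg fun x _ => ?_⟩
    have := hm (Set.mem_Ici.mpr (le_refl (0 : ℝ))) (mx (x - 1 / ((k : ℝ) + 1))) (mx _)
    rwa [h0] at this

end trace

/-! ### the distribution function -/

section abs

variable {f : ℝ → ℝ} (m : ℝ → ℝ) (R : ℝ) (D : ℝ → ℝ≥0∞)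

lemma vol_lt (c : ℝ≥0∞) : MeasureTheory.volume ({t : ℝ | ENNReal.ofReal t < c} ∩ Set.Ioi 0) = c := by
  rcases eq_or_ne c ⊤ with rfl | hc
  · have : {t : ℝ | ENNReal.ofReal t < ⊤} ∩ Set.Ioi 0 = Set.Ioi 0 := by
      ext t
      simp
    rw [this, Real.volume_Ioi]
  · have : {t : ℝ | ENNReal.ofReal t < c} ∩ Set.Ioi 0 = Set.Ioo 0 c.toReal := by
      ext t
      simp only [Set.mem_inter_iff, Set.mem_ofPred_eq, Set.mem_Ioi, Set.mem_Ioo]
      constructor
      · rintro ⟨h1, h2⟩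
        exact ⟨h2, by rwa [ENNReal.ofReal_lt_iff_lt_toReal h2.le hc] at h1⟩
      · rintro ⟨h1, h2⟩
        exact ⟨by rwa [ENNReal.ofReal_lt_iff_lt_toReal h1.le hc], h1⟩
    rw [this, Real.volume_Ioo, sub_zero, ENNReal.ofReal_toReal hc]

lemma meas_lt (c : ℝ≥0∞) : MeasurableSet {t : ℝ | ENNReal.ofReal t < c} :=
  measurableSet_lt ENNReal.measurable_ofReal measurable_const

lemma int_step (c : ℕ → ℝ≥0∞) (n : ℕ) (d : ℝ) :
    ∫⁻ t in Set.Ioi (0 : ℝ), ∑ i ∈ range n,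
      Set.indicator {t : ℝ | ENNReal.ofReal t < D ((i + 1 : ℕ) * d)} (fun _ => c i) t
      = ∑ i ∈ range n, c i * D ((i + 1 : ℕ) * d) := by
  rw [MeasureTheory.lintegral_finsetSum _ fun i _ => (measurable_const.indicator (meas_lt _))]
  refine Finset.sum_congr rfl fun i _ => ?_
  rw [MeasureTheory.lintegral_indicator (meas_lt _), MeasureTheory.lintegral_const,
    MeasureTheory.Measure.restrict_restrict (meas_lt _), MeasureTheory.Measure.restrict_apply_univ,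
    vol_lt]

variable {m R D}

lemma abs_low {d : ℝ} (hd : 0 < d) (hf : MonotoneOn f (Set.Ici 0)) (h0 : f 0 = 0) (n : ℕ)
    (hn : R ≤ n * d) (hmR : ∀ t, 0 < t → m t ≤ R)
    (hA : ∀ s t, 0 < s → 0 < t → D s ≤ ENNReal.ofReal t → m t ≤ s) :
    ∫⁻ t in Set.Ioi (0 : ℝ), ENNReal.ofReal (f (max (m t - d) 0))
      ≤ ∑ i ∈ range n, ENNReal.ofReal (inc f d i) * D ((i + 1 : ℕ) * d) := by
  rw [← int_step D (fun i => ENNReal.ofReal (inc f d i)) n d]
  refine MeasureTheory.setLIntegral_mono' measurableSet_Ioi fun t ht => ?_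
  have ht : 0 < t := ht
  have e1 : f (max (m t - d) 0) = ∑ i ∈ range n, pc f d i (max (m t - d) 0) := by
    rw [pc_sum hd, h0, sub_zero, max_eq_left (le_max_right _ _), min_eq_left]
    refine max_le ?_ (by positivity)
    linarith [hmR t ht]
  rw [e1, ENNReal.ofReal_sum_of_nonneg fun i _ => pc_nonneg hd hf i _]
  refine Finset.sum_le_sum fun i _ => ?_
  by_cases h : m t ≤ (i + 1 : ℕ) * d
  · rw [pc_zero hd i _ (max_le (by push_cast at h; linarith) (by positivity)), ENNReal.ofReal_zero]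
    exact zero_le
  · rw [Set.indicator_of_mem]
    · exact ENNReal.ofReal_le_ofReal (pc_le hd hf i _)
    · by_contra h2
      exact h (hA _ t (by positivity) ht (not_lt.mp h2))

lemma abs_up {d : ℝ} (hd : 0 < d) (hf : MonotoneOn f (Set.Ici 0)) (h0 : f 0 = 0) (n : ℕ)
    (hn : R ≤ n * d) (hm0 : ∀ t, 0 < t → 0 ≤ m t) (hmR : ∀ t, 0 < t → m t ≤ R)
    (hB : ∀ s t, 0 < s → 0 < t → m t < s → D s ≤ ENNReal.ofReal t) :
    ∑ i ∈ range n, ENNReal.ofReal (inc f d i) * D ((i + 1 : ℕ) * d)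
      ≤ ∫⁻ t in Set.Ioi (0 : ℝ), ENNReal.ofReal (f (m t)) := by
  rw [← int_step D (fun i => ENNReal.ofReal (inc f d i)) n d]
  refine MeasureTheory.setLIntegral_mono' measurableSet_Ioi fun t ht => ?_
  have ht : 0 < t := ht
  have e1 : f (m t) = ∑ i ∈ range n, pc f d i (m t) := by
    rw [pc_sum hd, h0, sub_zero, max_eq_left (hm0 t ht), min_eq_left ((hmR t ht).trans hn)]
  rw [e1, ENNReal.ofReal_sum_of_nonneg fun i _ => pc_nonneg hd hf i _]
  refine Finset.sum_le_sum fun i _ => ?_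
  by_cases h : ENNReal.ofReal t < D ((i + 1 : ℕ) * d)
  · rw [Set.indicator_of_mem (by exact h)]
    refine ENNReal.ofReal_le_ofReal (le_of_eq (pc_top hd i _ ?_).symm)
    by_contra h2
    exact absurd (hB _ t (by positivity) ht (not_le.mp h2)) (not_le.mpr h)
  · rw [Set.indicator_of_notMem (by exact h)]
    exact zero_le

/-- letting `d → 0` in `abs_low` -/
lemma abs_lim (hf : ContinuousOn f (Set.Ici 0))
    (hm0 : ∀ t, 0 < t → 0 ≤ m t) (hmR : ∀ t, 0 < t → m t ≤ R)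
    (hanti : ∀ s t, 0 < s → s ≤ t → m t ≤ m s) (B : ℝ≥0∞)
    (hB : ∀ k : ℕ, ∫⁻ t in Set.Ioi (0 : ℝ), ENNReal.ofReal (ftr f k (m t)) ≤ B) :
    ∫⁻ t in Set.Ioi (0 : ℝ), ENNReal.ofReal (f (m t)) ≤ B := by
  set m' : ℝ → ℝ := fun t => if 0 < t then m t else R with hm'
  have ham : Antitone m' := by
    intro s t hst
    simp only [hm']
    by_cases hs : 0 < s
    · rw [if_pos hs, if_pos (lt_of_lt_of_le hs hst)]
      exact hanti s t hs hst
    · rw [if_neg hs]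
      by_cases ht : 0 < t
      · rw [if_pos ht]; exact hmR t ht
      · rw [if_neg ht]
  have hmm : Measurable m' := ham.measurable
  have hee : ∀ t ∈ Set.Ioi (0 : ℝ), m' t = m t := fun t ht => if_pos ht
  have hlim : ∀ t ∈ Set.Ioi (0 : ℝ), ENNReal.ofReal (f (m t))
      ≤ Filter.liminf (fun k => ENNReal.ofReal (ftr f k (m' t))) Filter.atTop := by
    intro t ht
    have hmt := hm0 t ht
    have h1 : Filter.Tendsto (fun k : ℕ => max (m t - 1 / ((k : ℝ) + 1)) 0) Filter.atTop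
        (𝓝[Set.Ici 0] (m t)) := by
      rw [tendsto_nhdsWithin_iff]
      refine ⟨?_, Filter.Eventually.of_forall fun k => mx _⟩
      have h2 : Filter.Tendsto (fun k : ℕ => m t - 1 / ((k : ℝ) + 1)) Filter.atTop (𝓝 (m t - 0)) :=
        tendsto_const_nhds.sub tendsto_one_div_add_atTop_nhds_zero_nat
      have h3 := h2.max (tendsto_const_nhds (x := (0 : ℝ)))
      rwa [sub_zero, max_eq_left hmt] at h3
    have h4 : Filter.Tendsto (fun k : ℕ => ENNReal.ofReal (ftr f k (m' t))) Filter.atTop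
        (𝓝 (ENNReal.ofReal (f (m t)))) := by
      rw [hee t ht]
      exact ENNReal.tendsto_ofReal ((hf (m t) hmt).tendsto.comp h1)
    rw [h4.liminf_eq]
  calc ∫⁻ t in Set.Ioi (0 : ℝ), ENNReal.ofReal (f (m t))
      ≤ ∫⁻ t in Set.Ioi (0 : ℝ),
          Filter.liminf (fun k => ENNReal.ofReal (ftr f k (m' t))) Filter.atTop :=
        MeasureTheory.setLIntegral_mono' measurableSet_Ioi hlim
    _ ≤ Filter.liminf (fun k => ∫⁻ t in Set.Ioi (0 : ℝ), ENNReal.ofReal (ftr f k (m' t)))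
          Filter.atTop :=
        MeasureTheory.lintegral_liminf_le fun k =>
          ENNReal.measurable_ofReal.comp ((ftr_cont hf k).measurable.comp hmm)
    _ ≤ B := by
        refine Filter.liminf_le_of_le (by isBoundedDefault) fun c hc => ?_
        obtain ⟨k, hk⟩ := hc.exists
        refine hk.trans ((le_of_eq ?_).trans (hB k))
        exact MeasureTheory.setLIntegral_congr_fun measurableSet_Ioi fun t ht => by
          simp only [hee t ht]

end abs

/-! ### singular numbers -/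

section sing

variable {H : Type u} [NormedAddCommGroup H] [InnerProductSpace ℂ H] [CompleteSpace H]
  {𝓜 : TVN H} [UniformSpace (Mc 𝓜)] [IsTopologicalRing (Mc 𝓜)] [IsUniformAddGroup (Mc 𝓜)]

omit [IsTopologicalRing (Mc 𝓜)] [IsUniformAddGroup (Mc 𝓜)] in
lemma mu_bdd (ξ : Sm 𝓜) (t : ℝ) : BddBelow {lam : ℝ | ∃ e y : Mc 𝓜, IsP e ∧
    𝓜.tr (1 - e).op ≤ ENNReal.ofReal t ∧ ξ * (e : Sm 𝓜) = (y : Sm 𝓜) ∧ ‖y.op‖ = lam} :=
  ⟨0, by rintro _ ⟨e, y, _, _, _, rfl⟩; exact norm_nonneg _⟩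

lemma mu_ne (h4 : A_tr.{u}) (x : Mc 𝓜) (t : ℝ) : {lam : ℝ | ∃ e y : Mc 𝓜, IsP e ∧
    𝓜.tr (1 - e).op ≤ ENNReal.ofReal t ∧ (x : Sm 𝓜) * (e : Sm 𝓜) = (y : Sm 𝓜) ∧
      ‖y.op‖ = lam}.Nonempty := by
  have hone : IsP (1 : Mc 𝓜) := by
    change IsStarProjection (1 : H →L[ℂ] H)
    exact IsStarProjection.one _
  refine ⟨‖x.op‖, 1, x, hone, ?_, ?_, rfl⟩
  · have : (1 - (1 : Mc 𝓜)).op = 0 := by rw [sub_self]; rfl
    rw [this, (h4 H 𝓜).1]
    exact zero_le
  · rw [UniformSpace.Completion.coe_one, mul_one]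

omit [IsUniformAddGroup (Mc 𝓜)] in
/-- Claim A -/
lemma mu_le_of_tr (b P : Mc 𝓜) (hb0 : 0 ≤ b.op) (hP : IsP P) (hc : P.op * b.op = b.op * P.op)
    (s t : ℝ) (hs : 0 ≤ s) (h : (1 - P.op) * b.op * (1 - P.op) ≤ (s : ℂ) • (1 - P.op))
    (ht : 𝓜.tr P.op ≤ ENNReal.ofReal t) : mu (b : Sm 𝓜) t ≤ s := by
  have hP' : IsStarProjection (1 - P.op) := IsStarProjection.one_sub hP
  have hnorm : ‖(b * (1 - P)).op‖ ≤ s := by
    have e1 : (b * (1 - P)).op = b.op * (1 - P.op) := rfl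
    have e2 : b.op * (1 - P.op) = (1 - P.op) * b.op * (1 - P.op) := by
      have : (1 - P.op) * b.op = b.op * (1 - P.op) := by
        rw [sub_mul, mul_sub, one_mul, mul_one, hc]
      rw [this, mul_assoc, hP'.isIdempotentElem.eq]
    rw [e1, e2]
    have h0 : 0 ≤ (1 - P.op) * b.op * (1 - P.op) := proj_conj_nonneg hP' hb0
    rw [CStarAlgebra.norm_le_iff_le_algebraMap _ hs h0]
    refine h.trans ?_
    have e3 : algebraMap ℝ (H →L[ℂ] H) s = (s : ℂ) • (1 : H →L[ℂ] H) := by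
      rw [Complex.coe_smul, Algebra.algebraMap_eq_smul_one]
    rw [e3]
    have e4 : (s : ℂ) • (1 : H →L[ℂ] H) = (s : ℂ) • (1 - P.op) + (s : ℂ) • P.op := by
      rw [← smul_add]; congr 1; abel
    rw [e4]
    exact le_add_of_nonneg_right (smul_nn s hs (proj_nonneg hP))
  have hP'' : IsP (1 - P) := by
    change IsStarProjection (1 - P.op)
    exact hP'
  refine (csInf_le (mu_bdd _ _) ⟨1 - P, b * (1 - P), hP'', ?_, ?_, rfl⟩).trans hnorm
  · have : (1 - (1 - P)).op = P.op := by rw [sub_sub_cancel]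
    rw [this]; exact ht
  · rw [UniformSpace.Completion.coe_mul]

/-- Claim B -/
lemma tr_le_of_mu (h2 : ∀ x y : Mc 𝓜, (x : Sm 𝓜) = (y : Sm 𝓜) → x = y)
    (h4 : A_tr.{u}) (h6 : A_rp.{u}) (h7 : A_rptr.{u}) (b P : Mc 𝓜) (hb0 : 0 ≤ b.op)
    (hP : IsP P) (s t : ℝ) (h : (s : ℂ) • P.op ≤ P.op * b.op * P.op)
    (hmu : mu (b : Sm 𝓜) t < s) : 𝓜.tr P.op ≤ ENNReal.ofReal t := by
  obtain ⟨_, ⟨e, y, he, hte, hbe, rfl⟩, hlt⟩ := exists_lt_of_csInf_lt (mu_ne h4 b t) hmu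
  have hbe' : b * e = y := h2 _ _ (by rw [UniformSpace.Completion.coe_mul]; exact hbe)
  have hbop : b.op * e.op = y.op := congrArg op hbe'
  have he' : IsStarProjection e.op := he
  have hsa : IsSelfAdjoint (e.op * b.op * e.op) :=
    IsSelfAdjoint.of_nonneg (proj_conj_nonneg he' hb0)
  have hle : e.op * b.op * e.op ≤ ((‖y.op‖ : ℝ) : ℂ) • (1 : H →L[ℂ] H) := by
    have h1 := hsa.le_algebraMap_norm_self
    refine h1.trans ?_
    have e3 : ((‖y.op‖ : ℝ) : ℂ) • (1 : H →L[ℂ] H) = algebraMap ℝ (H →L[ℂ] H) ‖y.op‖ := by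
      rw [Complex.coe_smul, Algebra.algebraMap_eq_smul_one]
    rw [e3]
    refine algebraMap_mono _ ?_
    rw [mul_assoc, hbop]
    refine (norm_mul_le _ _).trans ?_
    exact mul_le_of_le_one_left (norm_nonneg _) he'.norm_le
  exact (tr_spec_le h4 h6 h7 𝓜 b.op P.op e.op P.2 e.2 hP he' s ‖y.op‖ hlt h hle).trans hte

/-- main layer formula -/
lemma layer_main (h1 : C_mu.{u}) (h2 : C_ball.{u}) (h3 : A_spec.{u}) (h4 : A_tr.{u})
    (h5 : A_cfc.{u}) (h6 : A_rp.{u}) (h7 : A_rptr.{u}) (hMT : IsMT 𝓜)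
    {f : ℝ → ℝ} (hf : ContinuousOn f (Set.Ici 0)) (hm : MonotoneOn f (Set.Ici 0)) (h0 : f 0 = 0)
    (b : Mc 𝓜) (hb0 : 0 ≤ b.op) : 𝓜.tr (cfc f b.op) = orl f (b : Sm 𝓜) := by
  have hbs : IsSelfAdjoint b.op := IsSelfAdjoint.of_nonneg hb0
  have hinj := (h2 H 𝓜 hMT).1
  obtain ⟨c1, c2, -, -, -, -, -, c8, -, -, -⟩ := h1 H 𝓜 hMT
  choose P hP1 hP2 hP3 hP4 _ hP6 _ using fun s : ℝ => h3 H b.op s hbs
  have hPM : ∀ s, P s ∈ 𝓜.M := fun s => hP6 s 𝓜.M b.2
  have hA : ∀ s t, 0 < s → 0 < t → 𝓜.tr (P s) ≤ ENNReal.ofReal t → mu (b : Sm 𝓜) t ≤ s :=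
    fun s t hs _ htr => mu_le_of_tr b (mk (P s) (hPM s)) hb0 (hP1 s) (hP2 s) s t hs.le (hP4 s) htr
  have hB : ∀ s t, 0 < s → 0 < t → mu (b : Sm 𝓜) t < s → 𝓜.tr (P s) ≤ ENNReal.ofReal t :=
    fun s t _ _ hmu => tr_le_of_mu hinj h4 h6 h7 b (mk (P s) (hPM s)) hb0 (hP1 s) s t (hP3 s) hmu
  have hstep : ∀ k : ℕ, ∃ n : ℕ, ‖b.op‖ ≤ n * (1 / ((k : ℝ) + 1)) := by
    intro k
    obtain ⟨n, hn⟩ := exists_nat_ge (‖b.op‖ * ((k : ℝ) + 1))
    refine ⟨n, ?_⟩
    have hk : (0 : ℝ) < (k : ℝ) + 1 := by positivity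
    rw [mul_one_div, le_div_iff₀ hk]
    exact hn
  have hd : ∀ k : ℕ, (0 : ℝ) < 1 / ((k : ℝ) + 1) := fun k => by positivity
  have hmR : ∀ t, 0 < t → mu (b : Sm 𝓜) t ≤ ‖b.op‖ := fun t ht => c8 b t ht
  have hm0 : ∀ t, 0 < t → 0 ≤ mu (b : Sm 𝓜) t := fun t _ => c1 _ t
  have htrs : ∀ (k n : ℕ), _ := fun (k n : ℕ) => tr_sum h4 𝓜 (fun i => inc f (1 / ((k : ℝ) + 1)) i)
    (fun i => inc_nonneg (hd k) hm i) (fun i => P ((i + 1 : ℕ) * (1 / ((k : ℝ) + 1))))
    (fun i => hPM _) (fun i => proj_nonneg (hP1 _)) n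
  apply le_antisymm
  · refine tr_ftr_lim h5 𝓜 b.op b.2 hb0 hf hm h0 _ fun k => ?_
    obtain ⟨n, hn⟩ := hstep k
    have hup := sum_up b.op hb0 (hd k) hf hm h0 n hn
      (fun i => P ((i + 1 : ℕ) * (1 / ((k : ℝ) + 1)))) (fun i => hP1 _) (fun i => hP2 _)
      (fun i => hP4 _)
    obtain ⟨t1, t2, t3⟩ := htrs k n
    have hnn : 0 ≤ cfc (ftr f k) b.op := cfc_nonneg fun x _ => by
      have := hm (Set.mem_Ici.mpr (le_refl (0 : ℝ))) (mx (x - 1 / ((k : ℝ) + 1))) (mx _)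
      rwa [h0] at this
    calc 𝓜.tr (cfc (ftr f k) b.op) ≤ _ := (h4 H 𝓜).2.1 _ _ (h5 H 𝓜.M b.op _ b.2) t1 hnn hup
      _ = _ := t3
      _ ≤ _ := abs_up (hd k) hm h0 n hn hm0 hmR hB
  · refine abs_lim hf hm0 hmR (fun s t hs hst => c2 _ s t hs hst) _ fun k => ?_
    obtain ⟨n, hn⟩ := hstep k
    have hlow := sum_low b.op hb0 (hd k) hf hm h0 n hn
      (fun i => P ((i + 1 : ℕ) * (1 / ((k : ℝ) + 1)))) (fun i => hP1 _) (fun i => hP2 _)
      (fun i => hP3 _)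
    obtain ⟨t1, t2, t3⟩ := htrs k n
    calc _ ≤ _ := abs_low (hd k) hm h0 n hn hmR hA
      _ = _ := t3.symm
      _ ≤ _ := (h4 H 𝓜).2.1 _ _ t1 (h5 H 𝓜.M b.op _ b.2) t2 hlow

/-- squares -/
lemma mu_sq (h2 : C_ball.{u}) (h3 : A_spec.{u}) (h4 : A_tr.{u})
    (h6 : A_rp.{u}) (h7 : A_rptr.{u}) (hMT : IsMT 𝓜) (x : Mc 𝓜) (t : ℝ) :
    mu ((star x * x : Mc 𝓜) : Sm 𝓜) t = (mu (x : Sm 𝓜) t) ^ 2 := by
  have hinj := (h2 H 𝓜 hMT).1
  have hmu0 : ∀ z : Mc 𝓜, 0 ≤ mu (z : Sm 𝓜) t := fun z =>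
    le_csInf (mu_ne h4 z t) (by rintro _ ⟨e, y, _, _, _, rfl⟩; exact norm_nonneg _)
  have hbop : (star x * x).op = star x.op * x.op := rfl
  have hb0 : 0 ≤ (star x * x).op := by rw [hbop]; exact star_mul_self_nonneg _
  have hbs : IsSelfAdjoint (star x * x).op := IsSelfAdjoint.of_nonneg hb0
  apply le_antisymm
  · -- upper bound
    have key : ∀ lam ∈ {lam : ℝ | ∃ e y : Mc 𝓜, IsP e ∧
        𝓜.tr (1 - e).op ≤ ENNReal.ofReal t ∧ (x : Sm 𝓜) * (e : Sm 𝓜) = (y : Sm 𝓜) ∧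
        ‖y.op‖ = lam}, Real.sqrt (mu ((star x * x : Mc 𝓜) : Sm 𝓜) t) ≤ lam := by
      rintro _ ⟨e, y, he, hte, hxe, rfl⟩
      rw [Real.sqrt_le_left (norm_nonneg _)]
      have hxe' : x * e = y := hinj _ _ (by rw [UniformSpace.Completion.coe_mul]; exact hxe)
      have hxop : x.op * e.op = y.op := congrArg op hxe'
      have he' : IsStarProjection e.op := he
      refine le_of_forall_pos_le_add fun ε hε => ?_
      obtain ⟨P, p1, p2, p3, p4, _, p6, _⟩ := h3 H (star x * x).op (‖y.op‖ ^ 2 + ε) hbs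
      have hPM : P ∈ 𝓜.M := p6 𝓜.M (star x * x).2
      have hebe : e.op * (star x * x).op * e.op ≤ ((‖y.op‖ ^ 2 : ℝ) : ℂ) • (1 : H →L[ℂ] H) := by
        have e1 : e.op * (star x * x).op * e.op = star y.op * y.op := by
          rw [← hxop, star_mul, he'.isSelfAdjoint.star_eq, hbop]
          simp only [mul_assoc]
        rw [e1]
        have h1 := (IsSelfAdjoint.star_mul_self y.op).le_algebraMap_norm_self
        rw [CStarRing.norm_star_mul_self, ← sq] at h1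
        rwa [Complex.coe_smul, ← Algebra.algebraMap_eq_smul_one]
      have htr := (tr_spec_le h4 h6 h7 𝓜 (star x * x).op P e.op hPM e.2 p1 he' _ _
        (by linarith) p3 hebe).trans hte
      exact mu_le_of_tr (star x * x) (mk P hPM) hb0 p1 p2 _ t (by positivity) p4 htr
    have h9 := le_csInf (mu_ne h4 x t) key
    have h10 : Real.sqrt (mu ((star x * x : Mc 𝓜) : Sm 𝓜) t) ≤ mu (x : Sm 𝓜) t := h9
    have h11 := Real.sq_sqrt (hmu0 (star x * x))
    rw [← h11]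
    exact pow_le_pow_left₀ (Real.sqrt_nonneg _) h10 2
  · -- lower bound
    refine le_csInf (mu_ne h4 (star x * x) t) ?_
    rintro _ ⟨e, y, he, hte, hxe, rfl⟩
    have hxe' : star x * x * e = y :=
      hinj _ _ (by rw [UniformSpace.Completion.coe_mul]; exact hxe)
    have hxop : star x.op * x.op * e.op = y.op := congrArg op hxe'
    have he' : IsStarProjection e.op := he
    have hn : ‖(x * e).op‖ ^ 2 ≤ ‖y.op‖ := by
      have e1 : (x * e).op = x.op * e.op := rfl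
      rw [e1, sq, ← CStarRing.norm_star_mul_self, star_mul, he'.isSelfAdjoint.star_eq]
      have e2 : e.op * star x.op * (x.op * e.op) = e.op * (star x.op * x.op * e.op) := by
        simp only [mul_assoc]
      rw [e2, hxop]
      refine (norm_mul_le _ _).trans ?_
      exact mul_le_of_le_one_left (norm_nonneg _) he'.norm_le
    have h5 : mu (x : Sm 𝓜) t ≤ ‖(x * e).op‖ :=
      csInf_le (mu_bdd _ _) ⟨e, x * e, he, hte, by rw [UniformSpace.Completion.coe_mul], rfl⟩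
    exact (pow_le_pow_left₀ (hmu0 x) h5 2).trans hn

end sing

end H_C_layer

open H_C_layer in
theorem q_layer (h1 : C_mu.{u}) (h2 : C_ball.{u}) (h3 : A_spec.{u}) (h4 : A_tr.{u})
    (h5 : A_cfc.{u}) (h6 : A_rp.{u}) (h7 : A_rptr.{u}) (_h8 : A_meet.{u}) : C_layer.{u} := by
  intro H _ _ _ 𝓜 _ _ _ hMT f hf hm h0
  refine ⟨fun b hb0 => layer_main h1 h2 h3 h4 h5 h6 h7 hMT hf hm h0 b hb0, ?_,
    fun x t _ => mu_sq h2 h3 h4 h6 h7 hMT x t⟩
  intro x
  have hcs : ContinuousOn (fun s : ℝ => f (Real.sqrt s)) (Set.Ici 0) :=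
    (hf.comp_continuous Real.continuous_sqrt fun s => Real.sqrt_nonneg s).continuousOn
  have hms : MonotoneOn (fun s : ℝ => f (Real.sqrt s)) (Set.Ici 0) := fun a _ b _ hab =>
    hm (Real.sqrt_nonneg a) (Real.sqrt_nonneg b) (Real.sqrt_le_sqrt hab)
  have hb0 : 0 ≤ (star x * x).op := star_mul_self_nonneg x.op
  have := layer_main h1 h2 h3 h4 h5 h6 h7 hMT hcs hms (by simp only [Real.sqrt_zero, h0])
    (star x * x) hb0
  unfold bph
  rw [this]
  unfold orl
  refine MeasureTheory.setLIntegral_congr_fun measurableSet_Ioi fun t _ => ?_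
  simp only
  rw [mu_sq h2 h3 h4 h6 h7 hMT x t, Real.sqrt_sq]
  exact le_csInf (mu_ne h4 x t) (by rintro _ ⟨e, y, _, _, _, rfl⟩; exact norm_nonneg _)

end MDB
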