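import Pool.Agent.MDB.Targets2

/-!
# C_orl: quasi-triangle inequality etc.
-/

open scoped ENNReal NNReal Topology
open MeasureTheory

namespace MDB

universe u

namespace H_C_orl

/-- scaling by two -/
lemma lint_two (f : ℝ → ℝ≥0∞) :
    ∫⁻ t in Set.Ioi (0 : ℝ), f t = 2 * ∫⁻ t in Set.Ioi (0 : ℝ), f (2 * t) := by
  have h2 : (2 : ℝ) ≠ 0 := two_ne_zero
  have e1 : ∫⁻ t in Set.Ioi (0 : ℝ), f t = ∫⁻ t, (Set.Ioi (0 : ℝ)).indicator f t :=
    (lintegral_indicator measurableSet_Ioi f).symm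
  have e2 : ∫⁻ t in Set.Ioi (0 : ℝ), f (2 * t) =
      ∫⁻ t, (Set.Ioi (0 : ℝ)).indicator f (2 * t) := by
    rw [← lintegral_indicator measurableSet_Ioi]
    congr 1
    ext t
    by_cases ht : 0 < t
    · rw [Set.indicator_of_mem (Set.mem_Ioi.mpr ht),
        Set.indicator_of_mem (Set.mem_Ioi.mpr (by linarith))]
    · rw [Set.indicator_of_notMem (by simpa using ht),
        Set.indicator_of_notMem (by simp only [Set.mem_Ioi]; linarith)]
  rw [e1, e2]
  have e3 := lintegral_map_equiv (μ := (volume : Measure ℝ)) ((Set.Ioi (0 : ℝ)).indicator f)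
    (Homeomorph.mulLeft₀ (2 : ℝ) h2).toMeasurableEquiv
  have e4 : Measure.map (Homeomorph.mulLeft₀ (2 : ℝ) h2).toMeasurableEquiv (volume : Measure ℝ) =
      ENNReal.ofReal |(2 : ℝ)⁻¹| • volume := by
    have := Real.map_volume_mul_left h2
    exact this
  rw [e4, lintegral_smul_measure] at e3
  have e5 : ∫⁻ t, (Set.Ioi (0 : ℝ)).indicator f (2 * t) =
      ENNReal.ofReal |(2 : ℝ)⁻¹| • ∫⁻ t, (Set.Ioi (0 : ℝ)).indicator f t := e3.symm
  rw [e5, smul_eq_mul, ← mul_assoc]
  have e6 : (2 : ℝ≥0∞) * ENNReal.ofReal |(2 : ℝ)⁻¹| = 1 := by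
    rw [abs_of_pos (by norm_num), ENNReal.ofReal_inv_of_pos (by norm_num)]
    simp only [ENNReal.ofReal_ofNat]
    exact ENNReal.mul_inv_cancel (by norm_num) (by norm_num)
  rw [e6, one_mul]

end H_C_orl

open H_C_orl in
theorem q_orl (h1 : C_mu.{u}) : C_orl.{u} := by
  intro Phi p1 q1 C0 hG hp1
  have hnn : ∀ s, 0 ≤ s → 0 ≤ Phi s := fun s hs => by
    have := hG.mono (Set.mem_Ici.mpr le_rfl) (Set.mem_Ici.mpr hs) hs
    rwa [hG.zero] at this
  have hC0 : 1 ≤ C0 := by
    have h := hG.up 1 one_pos 1 le_rfl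
    have hp := hG.pos 1 one_pos
    rw [mul_one, Real.one_rpow, mul_one] at h
    by_contra hc
    push Not at hc
    nlinarith
  have hC0pos : 0 < C0 := by linarith
  have h2q : (0 : ℝ) < 2 ^ q1 := Real.rpow_pos_of_pos two_pos _
  refine ⟨2 * (C0 * 2 ^ q1), by positivity, ?_⟩
  intro H _ _ _ 𝓜 _ _ _ hMT
  obtain ⟨m1, m2, m3, m4, m5, m6, m7, m8, m9, m10, m11⟩ := h1 H 𝓜 hMT
  have hanti : ∀ ξ : Sm 𝓜, AntitoneOn (fun t => ENNReal.ofReal (Phi (mu ξ t))) (Set.Ioi 0) := by
    intro ξ s hs t ht hst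
    apply ENNReal.ofReal_le_ofReal
    exact hG.mono (Set.mem_Ici.mpr (m1 ξ t)) (Set.mem_Ici.mpr (m1 ξ s)) (m2 ξ s t hs hst)
  have hmeas : ∀ ξ : Sm 𝓜, AEMeasurable (fun t => ENNReal.ofReal (Phi (mu ξ t)))
      (volume.restrict (Set.Ioi 0)) := fun ξ =>
    aemeasurable_restrict_of_antitoneOn measurableSet_Ioi (hanti ξ)
  refine ⟨?_, ?_, ?_, ?_, ?_, ?_⟩
  · -- quasi triangle inequality
    intro ξ η
    have key : ∀ t : ℝ, 0 < t → ENNReal.ofReal (Phi (mu (ξ + η) (2 * t))) ≤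
        ENNReal.ofReal (C0 * 2 ^ q1) *
          (ENNReal.ofReal (Phi (mu ξ t)) + ENNReal.ofReal (Phi (mu η t))) := by
      intro t ht
      have ha := m1 ξ t
      have hb := m1 η t
      rw [← ENNReal.ofReal_add (hnn _ ha) (hnn _ hb),
        ← ENNReal.ofReal_mul (by positivity)]
      apply ENNReal.ofReal_le_ofReal
      have h3 := m3 ξ η t t ht ht
      rw [← two_mul] at h3
      set M := max (mu ξ t) (mu η t) with hM
      have hM1 : mu ξ t ≤ M := le_max_left _ _
      have hM2 : mu η t ≤ M := le_max_right _ _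
      have hM0 : 0 ≤ M := le_trans ha hM1
      have h4 : Phi (mu (ξ + η) (2 * t)) ≤ Phi (2 * M) := by
        apply hG.mono (Set.mem_Ici.mpr (m1 _ _)) (Set.mem_Ici.mpr (by positivity))
        linarith
      have h5 : Phi (2 * M) ≤ C0 * 2 ^ q1 * Phi M := by
        rcases lt_or_eq_of_le hM0 with h | h
        · exact hG.up M h 2 (by norm_num)
        · rw [← h, mul_zero, hG.zero, mul_zero]
      have h6 : Phi M ≤ Phi (mu ξ t) + Phi (mu η t) := by
        rcases max_choice (mu ξ t) (mu η t) with h | h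
        · rw [hM, h]
          linarith [hnn _ hb]
        · rw [hM, h]
          linarith [hnn _ ha]
      have h7 : C0 * 2 ^ q1 * Phi M ≤ C0 * 2 ^ q1 * (Phi (mu ξ t) + Phi (mu η t)) :=
        mul_le_mul_of_nonneg_left h6 (by positivity)
      linarith
    calc orl Phi (ξ + η)
        = 2 * ∫⁻ t in Set.Ioi (0 : ℝ), ENNReal.ofReal (Phi (mu (ξ + η) (2 * t))) :=
          lint_two (fun t => ENNReal.ofReal (Phi (mu (ξ + η) t)))
      _ ≤ 2 * ∫⁻ t in Set.Ioi (0 : ℝ), ENNReal.ofReal (C0 * 2 ^ q1) *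
          (ENNReal.ofReal (Phi (mu ξ t)) + ENNReal.ofReal (Phi (mu η t))) := by
          gcongr 2 * ?_
          exact setLIntegral_mono' measurableSet_Ioi (fun t ht => key t ht)
      _ = 2 * (ENNReal.ofReal (C0 * 2 ^ q1) * (orl Phi ξ + orl Phi η)) := by
          rw [lintegral_const_mul' _ _ ENNReal.ofReal_ne_top, lintegral_add_left' (hmeas ξ)]
          rfl
      _ = ENNReal.ofReal (2 * (C0 * 2 ^ q1)) * (orl Phi ξ + orl Phi η) := by
          rw [← mul_assoc, ENNReal.ofReal_mul (by norm_num : (0 : ℝ) ≤ 2), ENNReal.ofReal_ofNat]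
  · intro ξ
    unfold orl
    simp only [m7]
  · intro ξ
    unfold orl
    exact setLIntegral_congr_fun measurableSet_Ioi (fun t ht => by
      rw [m6 ξ t ht])
  · intro ξ x y hx hy
    unfold orl
    apply setLIntegral_mono' measurableSet_Ioi
    intro t ht
    apply ENNReal.ofReal_le_ofReal
    apply hG.mono (Set.mem_Ici.mpr (m1 _ _)) (Set.mem_Ici.mpr (m1 _ _))
    refine le_trans (m5 ξ x y t ht) ?_
    have h3 : ‖x.op‖ * ‖y.op‖ ≤ 1 := mul_le_one₀ hx (norm_nonneg _) hy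
    calc ‖x.op‖ * ‖y.op‖ * mu ξ t ≤ 1 * mu ξ t := mul_le_mul_of_nonneg_right h3 (m1 ξ t)
      _ = mu ξ t := one_mul _
  · intro ξ
    constructor
    · rintro ⟨c, hc, hfin⟩
      -- Phi s ≤ D * Phi (s / c)
      obtain ⟨D, hD, hDb⟩ : ∃ D : ℝ, 0 ≤ D ∧ ∀ s, 0 ≤ s → Phi s ≤ D * Phi (s / c) := by
        rcases le_total c 1 with h | h
        · refine ⟨C0 * c ^ p1, by positivity, ?_⟩
          intro s hs
          rcases lt_or_eq_of_le hs with hs' | hs'
          · have := hG.low (s / c) (div_pos hs' hc) c hc h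
            rwa [mul_div_cancel₀ _ hc.ne'] at this
          · rw [← hs', zero_div, hG.zero, mul_zero]
        · refine ⟨C0 * c ^ q1, by positivity, ?_⟩
          intro s hs
          rcases lt_or_eq_of_le hs with hs' | hs'
          · have := hG.up (s / c) (div_pos hs' hc) c h
            rwa [mul_div_cancel₀ _ hc.ne'] at this
          · rw [← hs', zero_div, hG.zero, mul_zero]
      calc orl Phi ξ ≤ ∫⁻ t in Set.Ioi (0 : ℝ), ENNReal.ofReal D *
            ENNReal.ofReal (Phi (mu ξ t / c)) := by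
            unfold orl
            apply setLIntegral_mono' measurableSet_Ioi
            intro t _
            rw [← ENNReal.ofReal_mul hD]
            exact ENNReal.ofReal_le_ofReal (hDb _ (m1 ξ t))
        _ = ENNReal.ofReal D * orl (fun s => Phi (s / c)) ξ := by
            rw [lintegral_const_mul' _ _ ENNReal.ofReal_ne_top]
            rfl
        _ < ⊤ := ENNReal.mul_lt_top ENNReal.ofReal_lt_top hfin
    · intro hfin
      refine ⟨1, one_pos, ?_⟩
      simpa using hfin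
  · intro ξ hξ
    rw [m11]
    intro t ht
    simp only [sub_zero]
    -- t * Phi (mu ξ t) ≤ orl
    have hlow : ∀ k, ENNReal.ofReal t * ENNReal.ofReal (Phi (mu (ξ k) t)) ≤ orl Phi (ξ k) := by
      intro k
      calc ENNReal.ofReal t * ENNReal.ofReal (Phi (mu (ξ k) t))
          = ∫⁻ _ in Set.Ioc (0 : ℝ) t, ENNReal.ofReal (Phi (mu (ξ k) t)) := by
            rw [setLIntegral_const, Real.volume_Ioc, sub_zero, mul_comm]
        _ ≤ ∫⁻ s in Set.Ioc (0 : ℝ) t, ENNReal.ofReal (Phi (mu (ξ k) s)) := by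
            apply setLIntegral_mono' measurableSet_Ioc
            intro s hs
            exact hanti (ξ k) hs.1 ht hs.2
        _ ≤ orl Phi (ξ k) := lintegral_mono_set (fun s hs => hs.1)
    rw [Metric.tendsto_atTop]
    intro ε hε
    have hPε : 0 < Phi ε := hG.pos ε hε
    have hthr : 0 < ENNReal.ofReal t * ENNReal.ofReal (Phi ε) :=
      ENNReal.mul_pos (ENNReal.ofReal_pos.mpr ht).ne' (ENNReal.ofReal_pos.mpr hPε).ne'
    obtain ⟨N, hN⟩ := Filter.eventually_atTop.mp (hξ.eventually_lt_const hthr)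
    refine ⟨N, fun k hk => ?_⟩
    rw [Real.dist_eq, sub_zero, abs_of_nonneg (m1 _ _)]
    by_contra hcon
    push Not at hcon
    have h3 : Phi ε ≤ Phi (mu (ξ k) t) :=
      hG.mono (Set.mem_Ici.mpr hε.le) (Set.mem_Ici.mpr (m1 _ _)) hcon
    have h4 := lt_of_le_of_lt (hlow k) (hN k hk)
    have h5 : ENNReal.ofReal t * ENNReal.ofReal (Phi ε) ≤
        ENNReal.ofReal t * ENNReal.ofReal (Phi (mu (ξ k) t)) := by
      gcongr
    exact absurd (lt_of_le_of_lt h5 h4) (lt_irrefl _)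

end MDB
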