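import Pool.Agent.MDB.Targets2
import Pool.Agent.MDB.Targets

open scoped ENNReal NNReal Topology
open Finset

namespace MDB

open Mc

universe u

namespace H_C_star

variable {H : Type u} [NormedAddCommGroup H] [InnerProductSpace ℂ H] [CompleteSpace H]

/-- the adjoint preserves the basic neighbourhoods of zero -/
theorem star_Nb (h1 : A_rp.{u}) (h2 : A_rptr.{u}) (h3 : A_tr.{u}) (𝓜 : TVN H) (ε : ℝ)
    (x : Mc 𝓜) (hx : x ∈ Nb 𝓜 ε) : star x ∈ Nb 𝓜 ε := by
  obtain ⟨e, pe, hn, ht⟩ := hx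
  have m2 : (1 : H →L[ℂ] H) - e.op ∈ 𝓜.M := sub_mem (one_mem _) e.2
  have ma : x.op * (1 - e.op) ∈ 𝓜.M := mul_mem x.2 m2
  obtain ⟨r1, r2, r3, r4⟩ := h1 H (x.op * (1 - e.op))
  set r := rp (x.op * (1 - e.op)) with hr
  have rM : r ∈ 𝓜.M := r4 _ ma
  have ee : e.op * e.op = e.op := pe.isIdempotentElem
  have esa : star e.op = e.op := pe.isSelfAdjoint.star_eq
  have fM : (1 : H →L[ℂ] H) - r ∈ 𝓜.M := sub_mem (one_mem _) rM
  have pf : IsStarProjection (1 - r) := r1.one_sub
  have key : (1 - r) * x.op = (1 - r) * (x.op * e.op) := by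
    have h : (1 - r) * (x.op * (1 - e.op)) = 0 := by rw [sub_mul, one_mul, r2, sub_self]
    rw [mul_sub, mul_one, mul_sub, sub_eq_zero] at h
    exact h
  refine ⟨mk (1 - r) fM, pf, ?_, ?_⟩
  · have e1 : (star x * mk (1 - r) fM).op = star ((1 - r) * x.op) := by
      rw [star_mul, pf.isSelfAdjoint.star_eq]
      rfl
    rw [e1, norm_star, key]
    refine (norm_mul_le _ _).trans ?_
    have h4 : ‖(1 - r : H →L[ℂ] H)‖ ≤ 1 := IsStarProjection.norm_le _ pf
    have h5 : ‖x.op * e.op‖ ≤ ε := hn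
    calc ‖(1 - r : H →L[ℂ] H)‖ * ‖x.op * e.op‖ ≤ 1 * ε :=
          mul_le_mul h4 h5 (norm_nonneg _) zero_le_one
      _ = ε := one_mul _
  · have e2 : (1 - mk (1 - r) fM).op = r := by
      change (1 : H →L[ℂ] H) - (1 - r) = r
      rw [sub_sub_cancel]
    have e3 : star (x.op * (1 - e.op)) = (1 - e.op) * star x.op := by
      rw [star_mul, star_sub, star_one, esa]
    rw [e2, hr, h2 H 𝓜 _ ma, e3]
    refine le_trans ?_ ht
    obtain ⟨s1, s2, s3, s4⟩ := h1 H ((1 - e.op) * star x.op)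
    have es : e.op * rp ((1 - e.op) * star x.op) = 0 := by
      refine s3 _ ?_
      rw [← mul_assoc, mul_sub, mul_one, ee, sub_self, zero_mul]
    obtain ⟨-, t2, -⟩ := h3 H 𝓜
    have hm : (1 - e.op) * star x.op ∈ 𝓜.M := mul_mem m2 (star_mem x.2)
    refine t2 _ _ (s4 _ hm) m2 s1.nonneg ?_
    refine s1.le_of_mul_eq_right pe.one_sub ?_
    have e4 : (1 - e.op) * rp ((1 - e.op) * star x.op) = rp ((1 - e.op) * star x.op) := by
      rw [sub_mul 1 e.op (rp ((1 - e.op) * star x.op)), one_mul, es, sub_zero]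
    exact e4

end H_C_star

open H_C_star in
theorem q_star (h1 : A_rp.{u}) (h2 : A_rptr.{u}) (h3 : A_tr.{u}) : C_star.{u} := by
  intro H _ _ _ 𝓜 _ _ _ hMT
  have hc : UniformContinuous (star : Mc 𝓜 → Mc 𝓜) := by
    let φ : Mc 𝓜 →+ Mc 𝓜 := ⟨⟨star, star_zero _⟩, star_add⟩
    refine uniformContinuous_of_continuousAt_zero φ ?_
    unfold ContinuousAt
    rw [map_zero]
    exact (hMT.tendsto_iff hMT).mpr fun ε hε => ⟨ε, hε, fun x hx => star_Nb h1 h2 h3 𝓜 ε x hx⟩
  have hcoe : ∀ x : Mc 𝓜, sst (x : Sm 𝓜) = ((star x : Mc 𝓜) : Sm 𝓜) := fun x =>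
    UniformSpace.Completion.map_coe hc x
  have hcont : Continuous (sst : Sm 𝓜 → Sm 𝓜) := UniformSpace.Completion.continuous_map
  refine ⟨hcoe, ?_, ?_, ?_, ?_, hcont⟩
  · intro ξ η
    refine UniformSpace.Completion.induction_on₂ ξ η
      (isClosed_eq (hcont.comp (continuous_fst.add continuous_snd))
        ((hcont.comp continuous_fst).add (hcont.comp continuous_snd))) fun a b => ?_
    rw [← UniformSpace.Completion.coe_add, hcoe, hcoe, hcoe, ← UniformSpace.Completion.coe_add,
      star_add]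
  · intro ξ η
    refine UniformSpace.Completion.induction_on₂ ξ η
      (isClosed_eq (hcont.comp (continuous_fst.sub continuous_snd))
        ((hcont.comp continuous_fst).sub (hcont.comp continuous_snd))) fun a b => ?_
    rw [← UniformSpace.Completion.coe_sub, hcoe, hcoe, hcoe, ← UniformSpace.Completion.coe_sub,
      star_sub]
  · intro ξ η
    refine UniformSpace.Completion.induction_on₂ ξ η
      (isClosed_eq (hcont.comp (continuous_fst.mul continuous_snd))
        ((hcont.comp continuous_snd).mul (hcont.comp continuous_fst))) fun a b => ?_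
    rw [← UniformSpace.Completion.coe_mul, hcoe, hcoe, hcoe, ← UniformSpace.Completion.coe_mul,
      star_mul]
  · intro ξ
    refine UniformSpace.Completion.induction_on ξ
      (isClosed_eq (hcont.comp hcont) continuous_id) fun a => ?_
    rw [hcoe, hcoe, star_star]

end MDB
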