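import Pool.Agent.MDB.Targets2

/-!
# MDB: truncation of bounded elements of `L_Phi`
-/

open scoped ENNReal NNReal Topology
open Finset Filter MeasureTheory

namespace MDB

open Mc

universe u

namespace H_C_trunc

/-- the cutting function `(√s - δ)_+ / max (√s) δ` -/
noncomputable def hf (δ s : ℝ) : ℝ := max (√s - δ) 0 / max (√s) δ

lemma hf_cont {δ : ℝ} (hδ : 0 < δ) : Continuous (hf δ) := by
  unfold hf
  refine Continuous.div ?_ ?_ ?_
  · exact (Real.continuous_sqrt.sub continuous_const).max continuous_const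
  · exact Real.continuous_sqrt.max continuous_const
  · intro s
    exact (lt_of_lt_of_le hδ (le_max_right _ _)).ne'

lemma hf_sq {δ s : ℝ} (hδ : 0 < δ) (hs : 0 ≤ s) : hf δ s * s * hf δ s = max (√s - δ) 0 ^ 2 := by
  unfold hf
  rcases le_total δ (√s) with h | h
  · rw [max_eq_left (sub_nonneg.2 h), max_eq_left h]
    have h1 : √s ≠ 0 := (lt_of_lt_of_le hδ h).ne'
    have h2 : s = √s * √s := (Real.mul_self_sqrt hs).symm
    rw [div_mul_eq_mul_div, div_mul_div_comm, div_eq_iff (mul_ne_zero h1 h1)]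
    nth_rewrite 2 [h2]
    ring
  · rw [max_eq_right (sub_nonpos.2 h)]
    simp

lemma hf_compl {δ s : ℝ} (hδ : 0 < δ) (hs : 0 ≤ s) :
    (1 - hf δ s) * s * (1 - hf δ s) = min (√s) δ ^ 2 := by
  unfold hf
  have h2 : s = √s * √s := (Real.mul_self_sqrt hs).symm
  rcases le_total δ (√s) with h | h
  · rw [max_eq_left (sub_nonneg.2 h), max_eq_left h, min_eq_right h]
    have h1 : √s ≠ 0 := (lt_of_lt_of_le hδ h).ne'
    have h3 : 1 - (√s - δ) / √s = δ / √s := by
      field_simp
      ring
    rw [h3, div_mul_eq_mul_div, div_mul_div_comm, div_eq_iff (mul_ne_zero h1 h1)]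
    nth_rewrite 1 [h2]
    ring
  · rw [max_eq_right (sub_nonpos.2 h), min_eq_left h]
    rw [zero_div, sub_zero, one_mul, mul_one, Real.sq_sqrt hs]

section

variable {H : Type u} [NormedAddCommGroup H] [InnerProductSpace ℂ H] [CompleteSpace H]

/-- functional calculus of `x * g(x* x)`. -/
lemma cfc_aux (x : H →L[ℂ] H) (g k : ℝ → ℝ) (hg : Continuous g)
    (h : ∀ s, 0 ≤ s → g s * s * g s = k s) :
    star (x * cfc g (star x * x)) * (x * cfc g (star x * x)) = cfc k (star x * x) := by
  have ha : 0 ≤ star x * x := star_mul_self_nonneg x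
  have hsa : IsSelfAdjoint (star x * x) := ha.isSelfAdjoint
  have hc : star (cfc g (star x * x)) = cfc g (star x * x) := (cfc_predicate g (star x * x)).star_eq
  have hid : star x * x = cfc (fun s : ℝ => s) (star x * x) := (cfc_id' ℝ (star x * x)).symm
  rw [star_mul, hc]
  have e1 : cfc g (star x * x) * star x * (x * cfc g (star x * x))
      = cfc g (star x * x) * (star x * x) * cfc g (star x * x) := by
    simp only [mul_assoc]
  rw [e1]
  have e2 : cfc g (star x * x) * (star x * x) * cfc g (star x * x)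
      = cfc g (star x * x) * cfc (fun s : ℝ => s) (star x * x) * cfc g (star x * x) := by
    rw [← hid]
  rw [e2, ← cfc_mul g (fun s : ℝ => s) (star x * x) hg.continuousOn continuousOn_id,
    ← cfc_mul (fun s => g s * s) g (star x * x) ((hg.mul continuous_id).continuousOn)
      hg.continuousOn]
  apply cfc_congr
  intro s hs
  exact h s (spectrum_nonneg_of_nonneg ha hs)

/-- composition with the square root -/
lemma cfc_sqrt_aux (x : H →L[ℂ] H) (f k m : ℝ → ℝ) (hf : ContinuousOn f (Set.Ici 0))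
    (hk : Continuous k) (h : ∀ s, 0 ≤ s → √(k s) = m s) :
    cfc (fun s : ℝ => f (√s)) (cfc k (star x * x)) = cfc (fun s => f (m s)) (star x * x) := by
  have ha : 0 ≤ star x * x := star_mul_self_nonneg x
  have hsa : IsSelfAdjoint (star x * x) := ha.isSelfAdjoint
  have hfc : Continuous (fun s : ℝ => f (√s)) :=
    hf.comp_continuous Real.continuous_sqrt (fun s => Real.sqrt_nonneg s)
  rw [← cfc_comp' (fun s : ℝ => f (√s)) k (star x * x) hfc.continuousOn hk.continuousOn]
  apply cfc_congr
  intro s hs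
  show f (√(k s)) = f (m s)
  rw [h s (spectrum_nonneg_of_nonneg ha hs)]

variable {𝓜 : TVN H}

lemma op_sub (x y : Mc 𝓜) : (x - y).op = x.op - y.op := rfl

lemma op_one : (1 : Mc 𝓜).op = 1 := rfl

variable [UniformSpace (Mc 𝓜)] [IsTopologicalRing (Mc 𝓜)] [IsUniformAddGroup (Mc 𝓜)]

omit [IsTopologicalRing (Mc 𝓜)] [IsUniformAddGroup (Mc 𝓜)] in
lemma orl_le_const {f Phi : ℝ → ℝ} {C : ℝ} (hC : 0 ≤ C) {ξ : Sm 𝓜}
    (h : ∀ t : ℝ, 0 < t → f (mu ξ t) ≤ C * Phi (mu ξ t)) :
    orl f ξ ≤ ENNReal.ofReal C * orl Phi ξ := by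
  unfold orl
  rw [← lintegral_const_mul' _ _ ENNReal.ofReal_ne_top]
  apply setLIntegral_mono' measurableSet_Ioi
  intro t ht
  rw [← ENNReal.ofReal_mul hC]
  exact ENNReal.ofReal_le_ofReal (h t ht)

end

end H_C_trunc

open H_C_trunc

theorem q_trunc (h1 : C_layer.{u}) (_h2 : C_orl.{u}) (h3 : C_mu.{u}) (h4 : A_cfc.{u}) :
    C_trunc.{u} := by
  intro Phi p1 q1 C0 hG hp1 H _ _ _ 𝓜 _ _ _ hMT x hfin ε hε
  obtain ⟨hnn, hanti, -, -, -, -, -, hbd, -, -, -⟩ := h3 H 𝓜 hMT
  -- choice of the level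
  have hlim : Tendsto (fun k : ℕ => orl (fun s => Phi (min s (1 / ((k : ℝ) + 1)))) (x : Sm 𝓜))
      atTop (𝓝 0) := by
    have hz : (0 : ℝ≥0∞) = ∫⁻ t in Set.Ioi (0 : ℝ), (fun _ => (0 : ℝ≥0∞)) t := by simp
    rw [hz]
    unfold orl
    refine tendsto_lintegral_of_dominated_convergence'
      (fun t => ENNReal.ofReal (Phi (mu (x : Sm 𝓜) t))) ?_ ?_ hfin.ne ?_
    · intro k
      apply aemeasurable_restrict_of_antitoneOn measurableSet_Ioi
      intro s hs t ht hst
      apply ENNReal.ofReal_le_ofReal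
      apply hG.mono
      · exact le_min (hnn _ _) (by positivity)
      · exact le_min (hnn _ _) (by positivity)
      · exact min_le_min_right _ (hanti _ _ _ hs hst)
    · intro k
      refine Eventually.of_forall fun t => ?_
      apply ENNReal.ofReal_le_ofReal
      apply hG.mono
      · exact le_min (hnn _ _) (by positivity)
      · exact hnn _ _
      · exact min_le_left _ _
    · refine Eventually.of_forall fun t => ?_
      have h0 : Tendsto (fun k : ℕ => Phi (min (mu (x : Sm 𝓜) t) (1 / ((k : ℝ) + 1)))) atTop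
          (𝓝 (Phi 0)) := by
        have hc : ContinuousWithinAt Phi (Set.Ici 0) 0 := hG.cont 0 Set.self_mem_Ici
        refine hc.tendsto.comp ?_
        apply tendsto_nhdsWithin_of_tendsto_nhds_of_eventually_within
        · refine tendsto_of_tendsto_of_tendsto_of_le_of_le tendsto_const_nhds
            (tendsto_one_div_add_atTop_nhds_zero_nat (𝕜 := ℝ)) ?_ ?_
          · intro k
            exact le_min (hnn _ _) (by positivity)
          · intro k
            exact min_le_right _ _
        · exact Eventually.of_forall fun k => le_min (hnn _ _) (by positivity)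
      rw [hG.zero] at h0
      have := ENNReal.tendsto_ofReal h0
      simpa using this
  have hε' : (0 : ℝ≥0∞) < ENNReal.ofReal ε := ENNReal.ofReal_pos.2 hε
  obtain ⟨k, hk⟩ := (hlim.eventually (gt_mem_nhds hε')).exists
  set δ : ℝ := 1 / ((k : ℝ) + 1) with hδdef
  have hδ : 0 < δ := by positivity
  -- the truncation
  have hmemx : x.op ∈ 𝓜.M := x.2
  have hmema : star x.op * x.op ∈ 𝓜.M := mul_mem (star_mem hmemx) hmemx
  have hmemc : cfc (hf δ) (star x.op * x.op) ∈ 𝓜.M := h4 H 𝓜.M _ _ hmema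
  let c : Mc 𝓜 := Mc.mk (cfc (hf δ) (star x.op * x.op)) hmemc
  have hyy : (star (x * c) * (x * c)).op = cfc (fun s => max (√s - δ) 0 ^ 2) (star x.op * x.op) :=
    cfc_aux x.op (hf δ) _ (hf_cont hδ) (fun s hs => hf_sq hδ hs)
  have hsa : IsSelfAdjoint (star x.op * x.op) := (star_mul_self_nonneg x.op).isSelfAdjoint
  have hxx : (x - x * c).op = x.op * cfc (fun s => 1 - hf δ s) (star x.op * x.op) := by
    rw [cfc_sub (fun _ : ℝ => (1 : ℝ)) (hf δ) (star x.op * x.op) continuousOn_const
      (hf_cont hδ).continuousOn, cfc_const_one ℝ (star x.op * x.op), mul_sub, mul_one]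
    rfl
  have hxyxy : (star (x - x * c) * (x - x * c)).op
      = cfc (fun s => min (√s) δ ^ 2) (star x.op * x.op) := by
    have := cfc_aux x.op (fun s => 1 - hf δ s) _ (continuous_const.sub (hf_cont hδ))
      (fun s hs => hf_compl hδ hs)
    rw [← hxx] at this
    exact this
  -- the constant
  have hPd : 0 < Phi δ := hG.pos δ hδ
  have hgen : ∀ (f : ℝ → ℝ) (T : ℝ), 0 ≤ T → (∀ s, 0 ≤ s → s < δ → f s ≤ 0) →
      (∀ s, 0 ≤ s → s ≤ ‖x.op‖ → f s ≤ T) → orl f (x : Sm 𝓜) < ⊤ := by
    intro f T hT h0 hTf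
    refine lt_of_le_of_lt (orl_le_const (C := T / Phi δ) (Phi := Phi) (by positivity) ?_)
      (ENNReal.mul_lt_top ENNReal.ofReal_lt_top hfin)
    intro t ht
    have hm := hnn (x : Sm 𝓜) t
    rcases lt_or_ge (mu (x : Sm 𝓜) t) δ with h | h
    · refine (h0 _ hm h).trans ?_
      have : 0 ≤ Phi (mu (x : Sm 𝓜) t) := by
        rw [← hG.zero]
        exact hG.mono Set.self_mem_Ici hm hm
      positivity
    · have h2 : Phi δ ≤ Phi (mu (x : Sm 𝓜) t) := hG.mono hδ.le hm h
      calc f (mu (x : Sm 𝓜) t) ≤ T := hTf _ hm (hbd x t ht)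
        _ = T / Phi δ * Phi δ := by field_simp
        _ ≤ T / Phi δ * Phi (mu (x : Sm 𝓜) t) := by gcongr
  refine ⟨x * c, ?_, ?_, ?_⟩
  · have hL1 := (h1 H 𝓜 hMT (fun s => s) continuousOn_id (fun _ _ _ _ h => h) rfl).2.1 (x * c)
    have hL2 := (h1 H 𝓜 hMT (fun s => max (s - δ) 0)
      ((continuous_id.sub continuous_const).max continuous_const).continuousOn
      (fun a _ b _ h => max_le_max_right _ (by linarith)) (by simp [hδ.le])).2.1 x
    rw [← hL1]
    unfold bph
    rw [hyy]
    have e := cfc_sqrt_aux x.op (fun s => s) (fun s => max (√s - δ) 0 ^ 2)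
      (fun s => max (√s - δ) 0) continuousOn_id
      (((Real.continuous_sqrt.sub continuous_const).max continuous_const).pow 2)
      (fun s _ => Real.sqrt_sq (le_max_right _ _))
    rw [e]
    have e2 : 𝓜.tr (cfc (fun s => max (√s - δ) 0) (star x.op * x.op))
        = bph 𝓜 (fun s => max (s - δ) 0) x := rfl
    rw [e2, hL2]
    apply hgen _ (‖x.op‖) (norm_nonneg _)
    · intro s hs hsd
      exact max_le (by linarith) le_rfl
    · intro s hs hsn
      exact max_le (by linarith) (norm_nonneg _)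
  · rw [hyy]
    have hL2 := (h1 H 𝓜 hMT (fun s => max (s - δ) 0 ^ 2)
      (((continuous_id.sub continuous_const).max continuous_const).pow 2).continuousOn
      (fun a _ b _ h => by
        apply pow_le_pow_left₀ (le_max_right _ _)
        exact max_le_max_right _ (by linarith)) (by simp [hδ.le])).2.1 x
    have e2 : 𝓜.tr (cfc (fun s => max (√s - δ) 0 ^ 2) (star x.op * x.op))
        = bph 𝓜 (fun s => max (s - δ) 0 ^ 2) x := rfl
    rw [e2, hL2]
    apply hgen _ (‖x.op‖ ^ 2) (by positivity)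
    · intro s hs hsd
      show max (s - δ) 0 ^ 2 ≤ 0
      rw [max_eq_right (by linarith)]
      simp
    · intro s hs hsn
      apply pow_le_pow_left₀ (le_max_right _ _)
      exact max_le (by linarith) (norm_nonneg _)
  · have hL1 := (h1 H 𝓜 hMT Phi hG.cont hG.mono hG.zero).2.1 (x - x * c)
    have hfc : Continuous (fun s : ℝ => min s δ) := continuous_id.min continuous_const
    have hL2 := (h1 H 𝓜 hMT (fun s => Phi (min s δ))
      (hG.cont.comp hfc.continuousOn (fun s hs => le_min hs hδ.le))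
      (fun a ha b hb h => hG.mono (le_min ha hδ.le) (le_min hb hδ.le) (min_le_min_right _ h))
      (by
        show Phi (min 0 δ) = 0
        rw [min_eq_left hδ.le, hG.zero])).2.1 x
    rw [← hL1]
    unfold bph
    rw [hxyxy]
    have e := cfc_sqrt_aux x.op Phi (fun s => min (√s) δ ^ 2)
      (fun s => min (√s) δ) hG.cont
      ((Real.continuous_sqrt.min continuous_const).pow 2)
      (fun s _ => Real.sqrt_sq (le_min (Real.sqrt_nonneg _) hδ.le))
    rw [e]
    have e2 : 𝓜.tr (cfc (fun s => Phi (min (√s) δ)) (star x.op * x.op))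
        = bph 𝓜 (fun s => Phi (min s δ)) x := rfl
    rw [e2, hL2]
    exact hk

end MDB
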