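import Pool.Agent.MDB.Targets2

/-!
# The commutant of a finite projection `g` inside `M`, as an abstract C*-algebra with a trace and
conditional expectations
-/

open scoped ENNReal NNReal Topology
open Finset

namespace MDB
namespace Corner

open Mc

universe u

variable {H : Type u} [NormedAddCommGroup H] [InnerProductSpace ℂ H] [CompleteSpace H]

/-- the commutant of `g` inside `M` -/
noncomputable def S (𝓜 : TVN H) (g : Mc 𝓜) : StarSubalgebra ℂ (H →L[ℂ] H) :=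
  𝓜.M.toStarSubalgebra ⊓ StarSubalgebra.centralizer ℂ {g.op}

/-- the commutant of `g` inside `M`, as a type -/
abbrev C (𝓜 : TVN H) (g : Mc 𝓜) : Type u := ↥(S 𝓜 g)

lemma mem_S {𝓜 : TVN H} {g : Mc 𝓜} (hg : IsP g) {x : H →L[ℂ] H} :
    x ∈ S 𝓜 g ↔ x ∈ 𝓜.M ∧ g.op * x = x * g.op := by
  have h1 : star g.op = g.op := hg.isSelfAdjoint
  rw [S, StarSubalgebra.mem_inf, StarSubalgebra.mem_centralizer_iff]
  simp [h1]

lemma closed_M (V : VonNeumannAlgebra H) : IsClosed (V : Set (H →L[ℂ] H)) := by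
  rw [← VonNeumannAlgebra.centralizer_centralizer V]
  exact Set.isClosed_centralizer _

instance closed_S (𝓜 : TVN H) (g : Mc 𝓜) :
    IsClosed ((S 𝓜 g : StarSubalgebra ℂ (H →L[ℂ] H)) : Set (H →L[ℂ] H)) := by
  have : ((S 𝓜 g : StarSubalgebra ℂ (H →L[ℂ] H)) : Set (H →L[ℂ] H)) =
      (𝓜.M : Set (H →L[ℂ] H)) ∩ Set.centralizer ({g.op} ∪ star {g.op}) := by
    ext x
    simp only [S, SetLike.mem_coe, StarSubalgebra.mem_inf, Set.mem_inter_iff]
    rw [← StarSubalgebra.coe_centralizer ℂ {g.op}]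
    rfl
  rw [this]
  exact (closed_M _).inter (Set.isClosed_centralizer _)

noncomputable instance instC (𝓜 : TVN H) (g : Mc 𝓜) : CStarAlgebra (C 𝓜 g) :=
  StarSubalgebra.cstarAlgebra (S 𝓜 g)

lemma coe_le {𝓜 : TVN H} {g : Mc 𝓜} (x y : C 𝓜 g) : x ≤ y ↔ x.1 ≤ y.1 := Iff.rfl

instance instSOR (𝓜 : TVN H) (g : Mc 𝓜) : StarOrderedRing (C 𝓜 g) := by
  refine StarOrderedRing.of_nonneg_iff' ?_ ?_
  · intro x y hxy z
    exact add_le_add_right (show x.1 ≤ y.1 from hxy) z.1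
  · intro x
    constructor
    · intro hx
      have hx' : 0 ≤ x.1 := hx
      refine ⟨⟨cfc Real.sqrt x.1, cfc_mem (s := S 𝓜 g) (𝕜 := ℝ) Real.sqrt x.2⟩, ?_⟩
      apply Subtype.ext
      show x.1 = star (cfc Real.sqrt x.1) * cfc Real.sqrt x.1
      have hs : IsSelfAdjoint (cfc Real.sqrt x.1) := cfc_predicate _ _
      rw [hs.star_eq, ← cfc_mul Real.sqrt Real.sqrt x.1]
      conv_lhs => rw [← cfc_id ℝ x.1 hx'.isSelfAdjoint]
      apply cfc_congr
      intro s hs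
      have : 0 ≤ s := spectrum_nonneg_of_nonneg hx' hs
      simp [Real.mul_self_sqrt this]
    · rintro ⟨s, rfl⟩
      show 0 ≤ star s.1 * s.1
      exact star_mul_self_nonneg s.1

/-- the inclusion of the corner in `M` -/
def ι {𝓜 : TVN H} {g : Mc 𝓜} (x : C 𝓜 g) : Mc 𝓜 :=
  Mc.mk x.1 (StarSubalgebra.mem_inf.mp x.2).1

section ι
variable {𝓜 : TVN H} {g : Mc 𝓜}

lemma ι_op (x : C 𝓜 g) : (ι x).op = x.1 := rfl
lemma ι_add (x y : C 𝓜 g) : ι (x + y) = ι x + ι y := rfl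
lemma ι_sub (x y : C 𝓜 g) : ι (x - y) = ι x - ι y := rfl
lemma ι_mul (x y : C 𝓜 g) : ι (x * y) = ι x * ι y := rfl
lemma ι_star (x : C 𝓜 g) : ι (star x) = star (ι x) := rfl
lemma ι_one : ι (1 : C 𝓜 g) = 1 := rfl
lemma ι_zero : ι (0 : C 𝓜 g) = 0 := rfl
lemma ι_smul (c : ℝ) (x : C 𝓜 g) : ι (c • x) = c • ι x := rfl
lemma ι_inj {x y : C 𝓜 g} (h : ι x = ι y) : x = y := by
  apply Subtype.ext
  exact congrArg Mc.op h

lemma ι_comm (hg : IsP g) (x : C 𝓜 g) : g * ι x = ι x * g := by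
  apply Subtype.ext
  exact ((mem_S hg).mp x.2).2

/-- an element of `M` commuting with `g`, as an element of the corner -/
def ρ (hg : IsP g) (x : Mc 𝓜) (hx : g * x = x * g) : C 𝓜 g :=
  ⟨x.op, (mem_S hg).mpr ⟨x.2, congrArg Mc.op hx⟩⟩

lemma ι_ρ (hg : IsP g) (x : Mc 𝓜) (hx : g * x = x * g) : ι (ρ hg x hx) = x := rfl

/-- the inclusion as a real linear map -/
noncomputable def ιL : C 𝓜 g →ₗ[ℝ] Mc 𝓜 where
  toFun := ι
  map_add' := ι_add
  map_smul' := ι_smul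

lemma ι_sum (s : Finset ℕ) (f : ℕ → C 𝓜 g) : ι (∑ n ∈ s, f n) = ∑ n ∈ s, ι (f n) :=
  map_sum (ιL : C 𝓜 g →ₗ[ℝ] Mc 𝓜) f s

end ι

/-- The properties of the functional of a finite projection, from `A_fin`. -/
structure FinF (𝓜 : TVN H) (g : Mc 𝓜) (t : Mc 𝓜 →ₗ[ℝ] ℝ) : Prop where
  pos : ∀ x : Mc 𝓜, 0 ≤ x.op → t x = (𝓜.tr (g * x * g).op).toReal ∧ 𝓜.tr (g * x * g).op < ⊤
  star : ∀ x : Mc 𝓜, t (star x) = t x
  comm : ∀ x y : Mc 𝓜, g * x = x * g → g * y = y * g → t (x * y) = t (y * x)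

section T
variable {𝓜 : TVN H} {g : Mc 𝓜} {t : Mc 𝓜 →ₗ[ℝ] ℝ}

/-- the trace on the corner -/
noncomputable def T (hg : IsP g) (ht : FinF 𝓜 g t) : TrFun (C 𝓜 g) where
  t := t ∘ₗ ιL
  comm a b := by
    show t (ι (a * b)) = t (ι (b * a))
    rw [ι_mul, ι_mul]
    exact ht.comm (ι a) (ι b) (ι_comm hg a) (ι_comm hg b)
  star_eq a := by
    show t (ι (star a)) = t (ι a)
    rw [ι_star]
    exact ht.star (ι a)
  nonneg a ha := by
    show 0 ≤ t (ι a)
    rw [(ht.pos (ι a) ha).1]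
    exact ENNReal.toReal_nonneg

lemma T_t (hg : IsP g) (ht : FinF 𝓜 g t) (x : C 𝓜 g) : (T hg ht).t x = t (ι x) := rfl

lemma mem_N_one {𝓜 : TVN H} (F : Filtr 𝓜) (n : ℕ) : (1 : Mc 𝓜).op ∈ F.N n := one_mem (F.N n)

lemma E_comm (F : Filtr 𝓜) (hgN : g.op ∈ F.N 0) (n : ℕ) (x : Mc 𝓜)
    (hx : g * x = x * g) : g * F.E n x = F.E n x * g := by
  have hgn : g.op ∈ F.N n := F.mono 0 n (Nat.zero_le n) hgN
  have h1 := F.E_bimod n g x 1 hgn (mem_N_one F n)
  have h2 := F.E_bimod n 1 x g (mem_N_one F n) hgn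
  simp only [mul_one, one_mul] at h1 h2
  rw [← h1, ← h2, hx]

lemma gxg_nonneg (hg : IsP g) (x : Mc 𝓜) (hx : 0 ≤ x.op) : 0 ≤ (g * x * g).op := by
  have h1 : star g.op = g.op := hg.isSelfAdjoint
  have := star_left_conjugate_nonneg hx g.op
  rw [h1] at this
  exact this

/-- trace preservation, on positive elements -/
lemma t_E_pos (hg : IsP g) (ht : FinF 𝓜 g t) (F : Filtr 𝓜) (hgN : g.op ∈ F.N 0) (n : ℕ)
    (x : Mc 𝓜) (hx : 0 ≤ x.op) : t (F.E n x) = t x := by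
  have hgn : g.op ∈ F.N n := F.mono 0 n (Nat.zero_le n) hgN
  rw [(ht.pos (F.E n x) (F.E_nonneg n x hx)).1, (ht.pos x hx).1, ← F.E_bimod n g x g hgn hgn,
    F.E_tr n _ (gxg_nonneg hg x hx)]

lemma add_norm_nonneg (x : Mc 𝓜) (hx : IsSelfAdjoint x.op) :
    0 ≤ (x + ((‖x.op‖ : ℝ) : ℂ) • (1 : Mc 𝓜)).op := by
  have h := IsSelfAdjoint.neg_algebraMap_norm_le_self hx
  have h2 : (algebraMap ℝ (H →L[ℂ] H)) ‖x.op‖ = ((‖x.op‖ : ℝ) : ℂ) • (1 : H →L[ℂ] H) := by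
    rw [Algebra.algebraMap_eq_smul_one]
    rfl
  rw [h2] at h
  have h3 := add_le_add_right h (((‖x.op‖ : ℝ) : ℂ) • (1 : H →L[ℂ] H))
  rw [add_neg_cancel] at h3
  rw [add_comm]
  exact h3

lemma norm_one_nonneg (c : ℝ) (hc : 0 ≤ c) : 0 ≤ (((c : ℝ) : ℂ) • (1 : Mc 𝓜)).op := by
  have : 0 ≤ (algebraMap ℝ (H →L[ℂ] H)) c := algebraMap_nonneg _ hc
  rw [Algebra.algebraMap_eq_smul_one] at this
  exact this

lemma t_E_sa (hg : IsP g) (ht : FinF 𝓜 g t) (F : Filtr 𝓜) (hgN : g.op ∈ F.N 0) (n : ℕ)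
    (x : Mc 𝓜) (hx : IsSelfAdjoint x.op) : t (F.E n x) = t x := by
  have h1 := t_E_pos hg ht F hgN n _ (add_norm_nonneg x hx)
  have h2 := t_E_pos hg ht F hgN n _ (norm_one_nonneg (𝓜 := 𝓜) ‖x.op‖ (norm_nonneg _))
  rw [map_add, map_add, map_add, h2] at h1
  exact add_right_cancel h1

lemma t_E (hg : IsP g) (ht : FinF 𝓜 g t) (F : Filtr 𝓜) (hgN : g.op ∈ F.N 0)
    (hEs : ∀ n (x : Mc 𝓜), F.E n (star x) = star (F.E n x)) (n : ℕ)
    (x : Mc 𝓜) : t (F.E n x) = t x := by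
  have h0 : IsSelfAdjoint (x + star x).op := by
    show star (x + star x).op = (x + star x).op
    have : star (x + star x) = x + star x := by rw [star_add, star_star, add_comm]
    exact congrArg Mc.op this
  have h1 := t_E_sa hg ht F hgN n _ h0
  rw [map_add, map_add, map_add, hEs, ht.star, ht.star] at h1
  linarith

/-- basic facts on the conditional expectations, from `A_E` -/
structure EF (F : Filtr 𝓜) : Prop where
  star : ∀ n (x : Mc 𝓜), F.E n (star x) = star (F.E n x)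
  one : ∀ n, F.E n 1 = 1
  tower : ∀ m n (x : Mc 𝓜), m ≤ n → F.E m (F.E n x) = F.E m x
  tower' : ∀ m n (x : Mc 𝓜), m ≤ n → F.E n (F.E m x) = F.E m x

/-- the conditional expectations on the corner -/
noncomputable def Ec (hg : IsP g) (F : Filtr 𝓜) (hgN : g.op ∈ F.N 0) (n : ℕ) :
    C 𝓜 g →ₗ[ℝ] C 𝓜 g where
  toFun x := ρ hg (F.E n (ι x)) (E_comm F hgN n _ (ι_comm hg x))
  map_add' x y := by
    apply ι_inj
    show F.E n (ι (x + y)) = F.E n (ι x) + F.E n (ι y)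
    rw [ι_add, map_add]
  map_smul' c x := by
    apply ι_inj
    show F.E n (ι (c • x)) = c • F.E n (ι x)
    rw [ι_smul]
    exact (F.E n).map_smul (c : ℂ) (ι x)

lemma ι_Ec (hg : IsP g) (F : Filtr 𝓜) (hgN : g.op ∈ F.N 0) (n : ℕ) (x : C 𝓜 g) :
    ι (Ec hg F hgN n x) = F.E n (ι x) := rfl

/-- the filtration on the corner -/
noncomputable def Fc (hg : IsP g) (ht : FinF 𝓜 g t) (F : Filtr 𝓜) (hgN : g.op ∈ F.N 0)
    (hE : EF F) : Filt (T hg ht) where
  E := Ec hg F hgN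
  E_star n a := by
    apply ι_inj
    rw [ι_Ec, ι_star, ι_star, ι_Ec]
    exact hE.star n (ι a)
  E_nonneg n a ha := F.E_nonneg n (ι a) ha
  E_tr n a := by
    rw [T_t, T_t, ι_Ec]
    exact t_E hg ht F hgN hE.star n (ι a)
  E_one n := by
    apply ι_inj
    rw [ι_Ec, ι_one, hE.one]
  E_mul_left n a b ha := by
    apply ι_inj
    have ha' : F.E n (ι a) = ι a := by rw [← ι_Ec hg F hgN, ha]
    have ham : (ι a).op ∈ F.N n := by rw [← ha']; exact F.E_mem n _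
    rw [ι_Ec, ι_mul, ι_mul, ι_Ec]
    have := F.E_bimod n (ι a) (ι b) 1 ham (mem_N_one F n)
    rwa [mul_one, mul_one] at this
  E_mul_right n a b hb := by
    apply ι_inj
    have hb' : F.E n (ι b) = ι b := by rw [← ι_Ec hg F hgN, hb]
    have hbm : (ι b).op ∈ F.N n := by rw [← hb']; exact F.E_mem n _
    rw [ι_Ec, ι_mul, ι_mul, ι_Ec]
    have := F.E_bimod n 1 (ι a) (ι b) (mem_N_one F n) hbm
    rwa [one_mul, one_mul] at this
  E_tower m n a h := by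
    apply ι_inj
    rw [ι_Ec, ι_Ec, ι_Ec]
    exact hE.tower m n _ h
  E_tower' m n a h := by
    apply ι_inj
    rw [ι_Ec, ι_Ec]
    exact hE.tower' m n _ h

lemma Fc_E (hg : IsP g) (ht : FinF 𝓜 g t) (F : Filtr 𝓜) (hgN : g.op ∈ F.N 0)
    (hE : EF F) (n : ℕ) (x : C 𝓜 g) : ι ((Fc hg ht F hgN hE).E n x) = F.E n (ι x) := rfl

/-- functional calculus in the corner -/
lemma ι_cfc (f : ℝ → ℝ) (x : C 𝓜 g) (hx : IsSelfAdjoint x)
    (hf : ContinuousOn f (spectrum ℝ x)) : (ι (cfc f x)).op = cfc f (ι x).op := by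
  have hx' : IsSelfAdjoint x.1 := congrArg Subtype.val hx
  exact StarAlgHomClass.map_cfc (S := ℂ) ((S 𝓜 g).subtype) f x hf continuous_subtype_val hx hx'

/-- the operators living in the corner `g H`, as a closed subalgebra -/
noncomputable def G (g : H →L[ℂ] H) (hg : star g = g) : NonUnitalStarSubalgebra ℂ (H →L[ℂ] H) where
  carrier := {x | g * x = x ∧ x * g = x}
  add_mem' {a b} ha hb := ⟨by rw [mul_add, ha.1, hb.1], by rw [add_mul, ha.2, hb.2]⟩
  zero_mem' := ⟨mul_zero _, zero_mul _⟩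
  mul_mem' {a b} ha hb := ⟨by rw [← mul_assoc, ha.1], by rw [mul_assoc, hb.2]⟩
  smul_mem' c {a} ha := ⟨by rw [mul_smul_comm, ha.1], by rw [smul_mul_assoc, ha.2]⟩
  star_mem' {a} ha := by
    constructor
    · have := congrArg star ha.2
      rwa [star_mul, hg] at this
    · have := congrArg star ha.1
      rwa [star_mul, hg] at this

instance closed_G (g : H →L[ℂ] H) (hg : star g = g) :
    IsClosed ((G g hg : NonUnitalStarSubalgebra ℂ (H →L[ℂ] H)) : Set (H →L[ℂ] H)) := by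
  have : ((G g hg : NonUnitalStarSubalgebra ℂ (H →L[ℂ] H)) : Set (H →L[ℂ] H)) =
    {x | g * x = x} ∩ {x | x * g = x} := rfl
  rw [this]
  exact (isClosed_eq (by fun_prop) (by fun_prop)).inter (isClosed_eq (by fun_prop) (by fun_prop))

lemma cfc_mem_G (hg : IsP g) (f : ℝ → ℝ) (x : H →L[ℂ] H)
    (h1 : g.op * x = x) (h2 : x * g.op = x) (hf : ContinuousOn f (quasispectrum ℝ x))
    (h0 : f 0 = 0) : g.op * cfc f x = cfc f x ∧ cfc f x * g.op = cfc f x := by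
  have hgs : star g.op = g.op := hg.isSelfAdjoint
  have hm : cfcₙ f x ∈ G g.op hgs := cfcₙ_mem (s := G g.op hgs) (𝕜 := ℝ) f ⟨h1, h2⟩
  rw [cfcₙ_eq_cfc hf h0] at hm
  exact hm

lemma tr_eq_t (ht : FinF 𝓜 g t) (x : Mc 𝓜) (hx : 0 ≤ x.op) (h : g * x * g = x) :
    𝓜.tr x.op = ENNReal.ofReal (t x) := by
  obtain ⟨h1, h2⟩ := ht.pos x hx
  rw [h] at h1 h2
  rw [h1, ENNReal.ofReal_toReal h2.ne]

/-- compression to the corner -/
noncomputable def cp (hg : IsP g) (x : Mc 𝓜) : C 𝓜 g :=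
  ρ hg (g * x * g) (by
    have hi : g * g = g := Subtype.ext hg.isIdempotentElem
    calc g * (g * x * g) = (g * g) * x * g := by simp only [mul_assoc]
      _ = g * x * (g * g) := by rw [hi]
      _ = g * x * g * g := by simp only [mul_assoc])

lemma ι_cp (hg : IsP g) (x : Mc 𝓜) (h : g * x * g = x) : ι (cp hg x) = x := h

lemma ι_cp' (hg : IsP g) (x : Mc 𝓜) : ι (cp hg x) = g * x * g := rfl

/-- functional calculus and traces in the corner -/
lemma tr_cfc (hg : IsP g) (ht : FinF 𝓜 g t) (f : ℝ → ℝ) (x : C 𝓜 g) (hx : IsSelfAdjoint x)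
    (hgx : g * ι x * g = ι x) (hfs : ContinuousOn f (spectrum ℝ x))
    (hfq : ContinuousOn f (quasispectrum ℝ (ι x).op)) (h0 : f 0 = 0)
    (hpos : ∀ s ∈ spectrum ℝ (ι x).op, 0 ≤ f s) :
    𝓜.tr (cfc f (ι x).op) = ENNReal.ofReal ((T hg ht).t (cfc f x)) := by
  have hi : g * g = g := Subtype.ext hg.isIdempotentElem
  have e1 : g * ι x = ι x := by
    rw [← hgx, ← mul_assoc, ← mul_assoc, hi]
  have e2 : ι x * g = ι x := by
    rw [← hgx, mul_assoc, hi]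
  obtain ⟨k1, k2⟩ := cfc_mem_G hg f (ι x).op (congrArg Mc.op e1) (congrArg Mc.op e2) hfq h0
  have e3 := ι_cfc f x hx hfs
  rw [← e3] at k1 k2
  have k1' : g * ι (cfc f x) = ι (cfc f x) := Subtype.ext k1
  have k2' : ι (cfc f x) * g = ι (cfc f x) := Subtype.ext k2
  have hp : 0 ≤ (ι (cfc f x)).op := by
    rw [e3]
    exact cfc_nonneg hpos
  rw [T_t, ← e3]
  exact tr_eq_t ht _ hp (by rw [k1', k2'])

lemma tr_cfc_nonneg (hg : IsP g) (ht : FinF 𝓜 g t) (f : ℝ → ℝ) (x : C 𝓜 g) (hx : 0 ≤ x)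
    (hgx : g * ι x * g = ι x) (hf : ContinuousOn f (Set.Ici 0)) (h0 : f 0 = 0)
    (hpos : ∀ s, 0 ≤ s → 0 ≤ f s) :
    𝓜.tr (cfc f (ι x).op) = ENNReal.ofReal ((T hg ht).t (cfc f x)) := by
  have hx' : 0 ≤ (ι x).op := hx
  refine tr_cfc hg ht f x hx.isSelfAdjoint hgx (hf.mono ?_) (hf.mono ?_) h0 ?_
  · intro s hs
    exact spectrum_nonneg_of_nonneg hx hs
  · intro s hs
    exact quasispectrum_nonneg_of_nonneg _ hx' s hs
  · intro s hs
    exact hpos s (spectrum_nonneg_of_nonneg hx' hs)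

/-- the `p`-norms in the corner -/
lemma bph_eq (hg : IsP g) (ht : FinF 𝓜 g t) (p : ℝ) (hp : 0 < p) (w : C 𝓜 g)
    (hw : g * ι w * g = ι w) :
    bph 𝓜 (fun s => s ^ p) (ι w) = ENNReal.ofReal ((T hg ht).nrm p w) := by
  have hi : g * g = g := Subtype.ext hg.isIdempotentElem
  have hgs : star g = g := Subtype.ext hg.isSelfAdjoint
  have e1 : g * ι w = ι w := by
    rw [← hw, ← mul_assoc, ← mul_assoc, hi]
  have e2 : ι w * g = ι w := by
    rw [← hw, mul_assoc, hi]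
  have e3 : g * star (ι w) = star (ι w) := by
    have := congrArg star e2
    rwa [star_mul, hgs] at this
  have hx : 0 ≤ star w * w := star_mul_self_nonneg w
  have hgx : g * ι (star w * w) * g = ι (star w * w) := by
    rw [ι_mul, ι_star, ← mul_assoc, e3, mul_assoc, e2]
  have h := tr_cfc_nonneg hg ht (fun s => s ^ (p / 2)) (star w * w) hx hgx
    (Real.continuous_rpow_const (by positivity)).continuousOn
    (Real.zero_rpow (by positivity)) (fun s hs => Real.rpow_nonneg hs _)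
  have h2 : bph 𝓜 (fun s => s ^ p) (ι w) =
      𝓜.tr (cfc (fun s : ℝ => s ^ (p / 2)) (ι (star w * w)).op) := by
    rw [bph]
    congr 1
    rw [ι_mul, ι_star]
    apply cfc_congr
    intro s hs
    have hs0 : 0 ≤ s := by
      have : 0 ≤ (star (ι w) * ι w).op := hx
      exact spectrum_nonneg_of_nonneg this hs
    show (Real.sqrt s) ^ p = s ^ (p / 2)
    rw [Real.sqrt_eq_rpow, ← Real.rpow_mul hs0]
    congr 1
    ring
  rw [h2, h]
  rfl

end T

end Corner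
end MDB
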