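import Pool.Agent.MDB.Targets
import Pool.Agent.MDB.Corner

/-!
# The core inequality inside a finite corner
-/

open scoped ENNReal NNReal Topology
open Finset

namespace MDB

open Mc

universe u

namespace H_D_core

open Corner

variable {H : Type u} [NormedAddCommGroup H] [InnerProductSpace ℂ H] [CompleteSpace H]

/-- two spectral projections: pure operator algebra -/
lemma two_proj (y P Q : H →L[ℂ] H) (lam : ℝ) (hlam : 0 < lam)
    (hP : IsStarProjection P) (hQ : IsStarProjection Q)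
    (hPQ : Q * P = P * Q)
    (hP1 : lam • P ≤ P * y * P) (hP2 : (1 - P) * y * (1 - P) ≤ lam • (1 - P))
    (hQ1 : lam • Q ≤ Q * (-y) * Q) (hQ2 : (1 - Q) * (-y) * (1 - Q) ≤ lam • (1 - Q)) :
    P * Q = 0 ∧ (1 - P - Q) * y * (1 - P - Q) ≤ lam • (1 : H →L[ℂ] H) ∧
      -(lam • (1 : H →L[ℂ] H)) ≤ (1 - P - Q) * y * (1 - P - Q) := by
  have hPs : star P = P := hP.isSelfAdjoint
  have hQs : star Q = Q := hQ.isSelfAdjoint
  have hPi : P * P = P := hP.isIdempotentElem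
  have hQi : Q * Q = Q := hQ.isIdempotentElem
  have h0 : P * Q = 0 := by
    have h1 := star_left_conjugate_le_conjugate hP1 Q
    have h2 := star_left_conjugate_le_conjugate hQ1 P
    rw [hQs] at h1
    rw [hPs] at h2
    have e1 : Q * (lam • P) * Q = lam • (P * Q) := by
      rw [mul_smul_comm, smul_mul_assoc, hPQ, mul_assoc, hQi]
    have e2 : P * (lam • Q) * P = lam • (P * Q) := by
      rw [mul_smul_comm, smul_mul_assoc, mul_assoc, hPQ, ← mul_assoc, hPi]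
    have e3 : P * (Q * (-y) * Q) * P = -(Q * (P * y * P) * Q) := by
      calc P * (Q * (-y) * Q) * P = -((P * Q) * y * (Q * P)) := by noncomm_ring
        _ = -((Q * P) * y * (P * Q)) := by rw [hPQ]
        _ = -(Q * (P * y * P) * Q) := by noncomm_ring
    rw [e1] at h1
    rw [e2, e3] at h2
    have h3 : lam • (P * Q) ≤ 0 := by
      have h4 := add_le_add h1 h2
      rw [add_neg_cancel] at h4
      have h5 : (2 : ℝ) • (lam • (P * Q)) ≤ 0 := by rw [two_smul]; exact h4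
      have h6 : (1 / 2 : ℝ) • ((2 : ℝ) • (lam • (P * Q))) ≤ (1 / 2 : ℝ) • (0 : H →L[ℂ] H) :=
        smul_le_smul_of_nonneg_left h5 (by norm_num)
      rw [smul_zero, smul_smul] at h6
      norm_num at h6
      exact h6
    have hR : 0 ≤ P * Q := by
      have : 0 ≤ star Q * P * Q := star_left_conjugate_nonneg hP.nonneg Q
      rw [hQs, hPQ, mul_assoc, hQi] at this
      exact this
    have h7 : 0 ≤ lam • (P * Q) := smul_nonneg hlam.le hR
    have h8 : lam • (P * Q) = 0 := le_antisymm h3 h7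
    rcases smul_eq_zero.mp h8 with h9 | h9
    · exact absurd h9 hlam.ne'
    · exact h9
  have h0' : Q * P = 0 := by rw [hPQ, h0]
  have hPs' : star (1 - P) = 1 - P := by rw [star_sub, star_one, hPs]
  have hQs' : star (1 - Q) = 1 - Q := by rw [star_sub, star_one, hQs]
  have e1 : (1 - P) * (1 - Q) = 1 - P - Q := by
    rw [mul_sub, sub_mul, sub_mul, h0]; simp
  have e2 : (1 - Q) * (1 - P) = 1 - P - Q := by
    rw [mul_sub, sub_mul, sub_mul, h0']; simp [sub_sub, add_comm]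
  have hle : 1 - P - Q ≤ 1 := by
    rw [sub_sub]
    exact sub_le_self _ (add_nonneg hP.nonneg hQ.nonneg)
  have e3 : (1 - P - Q) * (1 - P - Q) = 1 - P - Q := by
    have a1 : (1 - P) * (1 - P) = 1 - P := hP.isIdempotentElem.one_sub
    have a2 : (1 - Q) * (1 - Q) = 1 - Q := hQ.isIdempotentElem.one_sub
    calc (1 - P - Q) * (1 - P - Q) = ((1 - P) * (1 - Q)) * ((1 - Q) * (1 - P)) := by rw [e1, e2]
      _ = (1 - P) * ((1 - Q) * (1 - Q)) * (1 - P) := by noncomm_ring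
      _ = ((1 - P) * (1 - Q)) * (1 - P) := by rw [a2]
      _ = ((1 - Q) * (1 - P)) * (1 - P) := by rw [e1, e2]
      _ = (1 - Q) * ((1 - P) * (1 - P)) := by noncomm_ring
      _ = 1 - P - Q := by rw [a1, e2]
  refine ⟨h0, ?_, ?_⟩
  · have h1 := star_left_conjugate_le_conjugate hP2 (1 - Q)
    rw [hQs'] at h1
    have e4 : (1 - Q) * ((1 - P) * y * (1 - P)) * (1 - Q) = (1 - P - Q) * y * (1 - P - Q) := by
      calc (1 - Q) * ((1 - P) * y * (1 - P)) * (1 - Q)
          = ((1 - Q) * (1 - P)) * y * ((1 - P) * (1 - Q)) := by noncomm_ring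
        _ = _ := by rw [e1, e2]
    have e5 : (1 - Q) * (lam • (1 - P)) * (1 - Q) = lam • (1 - P - Q) := by
      rw [mul_smul_comm, smul_mul_assoc, e2, ← e1, mul_assoc]
      rw [show (1 - Q) * (1 - Q) = 1 - Q from hQ.isIdempotentElem.one_sub]
    rw [e4, e5] at h1
    exact h1.trans (smul_le_smul_of_nonneg_left hle hlam.le)
  · have h1 := star_left_conjugate_le_conjugate hQ2 (1 - P)
    rw [hPs'] at h1
    have e4 : (1 - P) * ((1 - Q) * (-y) * (1 - Q)) * (1 - P) = -((1 - P - Q) * y * (1 - P - Q)) := by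
      calc (1 - P) * ((1 - Q) * (-y) * (1 - Q)) * (1 - P)
          = -(((1 - P) * (1 - Q)) * y * ((1 - Q) * (1 - P))) := by noncomm_ring
        _ = _ := by rw [e1, e2]
    have e5 : (1 - P) * (lam • (1 - Q)) * (1 - P) = lam • (1 - P - Q) := by
      rw [mul_smul_comm, smul_mul_assoc, e1, ← e2, mul_assoc]
      rw [show (1 - P) * (1 - P) = 1 - P from hP.isIdempotentElem.one_sub]
    rw [e4, e5] at h1
    have h2 := h1.trans (smul_le_smul_of_nonneg_left hle hlam.le)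
    exact neg_le.mp h2

variable {𝓜 : TVN H} {g : Mc 𝓜} {t : Mc 𝓜 →ₗ[ℝ] ℝ}

lemma hasSP (h3 : A_spec.{u}) (hg : IsP g) (ht : FinF 𝓜 g t) (F : Filtr 𝓜) (hgN : g.op ∈ F.N 0)
    (hE : EF F) : HasSP (Fc hg ht F hgN hE) := by
  intro n y hy hEy lam hlam
  have hy' : IsSelfAdjoint y.1 := congrArg Subtype.val hy
  have hyN : y.1 ∈ F.N n := by
    have h1 : F.E n (ι y) = ι y := by rw [← Fc_E hg ht F hgN hE, hEy]
    have h2 := F.E_mem n (ι y)
    rw [h1] at h2
    exact h2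
  have hgy : g.op * y.1 = y.1 * g.op := ((mem_S hg).mp y.2).2
  have hyM : y.1 ∈ 𝓜.M := ((mem_S hg).mp y.2).1
  obtain ⟨P, hP, hPy, hP1, hP2, hPc, hPV, -⟩ := h3 H y.1 lam hy'
  obtain ⟨Q, hQ, hQy, hQ1, hQ2, hQc, hQV, -⟩ := h3 H (-y.1) lam hy'.neg
  have hQy' : Q * y.1 = y.1 * Q := by
    rw [mul_neg, neg_mul] at hQy
    exact neg_injective hQy
  have hPQ : Q * P = P * Q := hPc Q hQy'
  have hgP : g.op * P = P * g.op := hPc _ hgy
  have hgQ : g.op * Q = Q * g.op := hQc _ (by rw [mul_neg, neg_mul, hgy])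
  have hPM : P ∈ 𝓜.M := hPV _ hyM
  have hQM : Q ∈ 𝓜.M := hQV _ (neg_mem hyM)
  have hPN : P ∈ F.N n := hPV _ hyN
  have hQN : Q ∈ F.N n := hQV _ (neg_mem hyN)
  obtain ⟨k1, k2, k3⟩ := two_proj y.1 P Q lam hlam hP hQ hPQ hP1 hP2 hQ1 hQ2
  refine ⟨⟨P, (mem_S hg).mpr ⟨hPM, hgP⟩⟩, ⟨Q, (mem_S hg).mpr ⟨hQM, hgQ⟩⟩, ?_, ?_, ?_, ?_, ?_, ?_,
    ?_, ?_, ?_, ?_, ?_⟩
  · exact ⟨Subtype.ext hP.isIdempotentElem, Subtype.ext hP.isSelfAdjoint⟩
  · exact ⟨Subtype.ext hQ.isIdempotentElem, Subtype.ext hQ.isSelfAdjoint⟩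
  · exact Subtype.ext k1
  · exact ι_inj (F.E_fix n _ hPN)
  · exact ι_inj (F.E_fix n _ hQN)
  · exact Subtype.ext hPy
  · exact Subtype.ext hQy'
  · exact hP1
  · show Q * y.1 * Q ≤ -(lam • Q)
    have h1 : lam • Q ≤ -(Q * y.1 * Q) := by
      have : Q * -y.1 * Q = -(Q * y.1 * Q) := by noncomm_ring
      rw [← this]
      exact hQ1
    exact le_neg.mp h1
  · exact k2
  · exact k3

lemma PJ_zero (Phi : ℝ → ℝ) (p : ℝ) (hp : 0 < p) (J : ℕ) : PJ Phi p J |0| = 0 := by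
  rw [PJ]
  apply Finset.sum_eq_zero
  intro i _
  have h : (0 : ℝ) < (2 : ℝ) ^ i := by positivity
  rw [abs_zero, zero_sub, max_eq_right (by linarith), Real.zero_rpow hp.ne', mul_zero]

lemma PJ_nonneg {Phi : ℝ → ℝ} {p1 q1 C0 : ℝ} (hG : Gr Phi p1 q1 C0) (p : ℝ) (J : ℕ) (s : ℝ) :
    0 ≤ PJ Phi p J s := by
  rw [PJ]
  apply Finset.sum_nonneg
  intro i _
  have h : (0 : ℝ) < (2 : ℝ) ^ i := by positivity
  have := hG.pos _ h
  have h2 : 0 ≤ (max (s - (2 : ℝ) ^ i) 0) ^ p := Real.rpow_nonneg (le_max_right _ _) _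
  positivity

lemma PJ_cont (Phi : ℝ → ℝ) (p : ℝ) (hp : 0 < p) (J : ℕ) :
    Continuous (fun s : ℝ => PJ Phi p J |s|) := by
  unfold PJ
  apply continuous_finsetSum
  intro i _
  apply Continuous.mul continuous_const
  exact (((continuous_abs.sub continuous_const).max continuous_const).rpow_const
    (fun _ => Or.inr hp.le))

lemma Phi_nonneg {Phi : ℝ → ℝ} {p1 q1 C0 : ℝ} (hG : Gr Phi p1 q1 C0) (s : ℝ) (hs : 0 ≤ s) :
    0 ≤ Phi s := by
  rcases hs.eq_or_lt with h | h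
  · rw [← h, hG.zero]
  · exact (hG.pos s h).le

end H_D_core

open H_D_core Corner in
theorem q_core (h1 : T_core.{u}) (h2 : A_fin.{u}) (h3 : A_spec.{u}) (_h4 : A_cfc.{u})
    (h5 : A_E.{u}) (_h6 : A_tr.{u}) : D_core.{u} := by
  intro Phi p1 q1 C0 hG hp1
  obtain ⟨p, hp, hp2, hpp1, Cc, hC, hlow, hup, hmain⟩ := h1 Phi p1 q1 C0 hG hp1
  refine ⟨p, hp, hp2, hpp1, Cc, hC, hlow, hup, ?_⟩
  intro J N
  obtain ⟨K, hK, hmain⟩ := hmain J N
  refine ⟨K, hK, ?_⟩
  intro H _ _ _ 𝓜 F g hg hgN hgt d z a A0 hd hz ha hA0 hds hdm hdE hzm hzE hA0p has ham hau hal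
  obtain ⟨t, ht1, ht2, ht3⟩ := h2 H 𝓜 g hg hgt
  have ht : FinF 𝓜 g t := ⟨ht1, ht2, ht3⟩
  obtain ⟨hE1, hE2, hE3, hE4, -⟩ := h5 H 𝓜 F
  have hE : EF F := ⟨hE1, hE2, hE3, hE4⟩
  have hp0 : 0 < p := by linarith
  -- transfer
  set d' : ℕ → C 𝓜 g := fun n => cp hg (d n) with hd'
  set z' : ℕ → C 𝓜 g := fun n => cp hg (z n) with hz'
  set a' : ℕ → C 𝓜 g := fun n => cp hg (a n) with ha'
  set B : C 𝓜 g := cp hg A0 with hB
  have ιd : ∀ n, n < N → ι (d' n) = d n := fun n hn => ι_cp hg _ (hd n hn)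
  have ιz : ∀ n, n < N → ι (z' n) = z n := fun n hn => ι_cp hg _ (hz n hn)
  have ιa : ∀ n, n < N → ι (a' n) = a n := fun n hn => ι_cp hg _ (ha n hn)
  have ιB : ι B = A0 := ι_cp hg _ hA0
  have key := hmain (C 𝓜 g) (T hg ht) (Fc hg ht F hgN hE) (hasSP h3 hg ht F hgN hE) d' z' a' B
    (fun n hn => ι_inj (by rw [ι_star, ιd n hn, hds n hn]))
    (fun n hn => ι_inj (by rw [Fc_E, ιd n hn, hdm n hn]))
    (fun n hn => ι_inj (by rw [Fc_E, ιd n hn, hdE n hn, ι_zero]))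
    (fun n hn => ι_inj (by rw [Fc_E, ιz n hn, hzm n hn]))
    (fun n hn => ι_inj (by rw [Fc_E, ιz n hn, hzE n hn, ι_zero]))
    (by
      show 0 ≤ (ι B).op
      rw [ιB]; exact hA0p)
    (fun n hn => ι_inj (by rw [ι_star, ιa n hn, has n hn]))
    (fun n hn => ι_inj (by rw [Fc_E, ιa n hn, ham n hn]))
    (fun n hn => by
      show (ι (a' n)).op ≤ (ι ((Fc hg ht F hgN hE).E (n + 1) B)).op
      rw [Fc_E, ιa n hn, ιB]
      exact hau n hn)
    (fun n hn => by
      show -(ι ((Fc hg ht F hgN hE).E (n + 1) B)).op ≤ (ι (a' n)).op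
      rw [Fc_E, ιa n hn, ιB]
      exact hal n hn)
  have hB0 : 0 ≤ B := by
    show 0 ≤ (ι B).op
    rw [ιB]; exact hA0p
  -- left side
  have ιps : ι (ps d' N) = ∑ n ∈ range N, d n := by
    rw [ps, ι_sum]
    exact Finset.sum_congr rfl fun n hn => ιd n (Finset.mem_range.mp hn)
  have hcorner : ∀ x : ℕ → Mc 𝓜, (∀ n, n < N → g * x n * g = x n) →
      g * (∑ n ∈ range N, x n) * g = ∑ n ∈ range N, x n := by
    intro x hx
    rw [Finset.mul_sum, Finset.sum_mul]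
    exact Finset.sum_congr rfl fun n hn => hx n (Finset.mem_range.mp hn)
  have hps_sa : IsSelfAdjoint (ps d' N) := by
    rw [ps]
    show star (∑ k ∈ range N, d' k) = ∑ k ∈ range N, d' k
    rw [star_sum]
    apply Finset.sum_congr rfl
    intro n hn
    exact ι_inj (by rw [ι_star, ιd n (Finset.mem_range.mp hn), hds n (Finset.mem_range.mp hn)])
  have L : 𝓜.tr (cfc (fun s : ℝ => PJ Phi p J |s|) (∑ n ∈ range N, d n).op) =
      ENNReal.ofReal ((T hg ht).t (cfc (fun s : ℝ => PJ Phi p J |s|) (ps d' N))) := by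
    rw [← ιps]
    refine tr_cfc hg ht _ _ hps_sa ?_ (PJ_cont Phi p hp0 J).continuousOn
      (PJ_cont Phi p hp0 J).continuousOn (PJ_zero Phi p hp0 J) (fun s _ => PJ_nonneg hG p J _)
    rw [ιps]
    exact hcorner d hd
  -- right side
  have R1 : 𝓜.tr (cfc Phi A0.op) = ENNReal.ofReal ((T hg ht).t (cfc Phi B)) := by
    rw [← ιB]
    exact tr_cfc_nonneg hg ht Phi B hB0 (by rw [ιB]; exact hA0) hG.cont hG.zero
      (fun s hs => Phi_nonneg hG s hs)
  have hi : g * g = g := Subtype.ext hg.isIdempotentElem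
  have hgs : star g = g := Subtype.ext hg.isSelfAdjoint
  have hstar : ∀ n, n < N → g * (star (z n) * z n) * g = star (z n) * z n := by
    intro n hn
    have e1 : z n * g = z n := by
      rw [← hz n hn, mul_assoc, hi]
    have e2 : g * star (z n) = star (z n) := by
      have := congrArg star e1
      rwa [star_mul, hgs] at this
    rw [← mul_assoc, e2, mul_assoc, e1]
  have hEc : ∀ n, n < N → g * F.E n (star (z n) * z n) * g = F.E n (star (z n) * z n) := by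
    intro n hn
    have hgn : g.op ∈ F.N n := F.mono 0 n (Nat.zero_le n) hgN
    rw [← F.E_bimod n g _ g hgn hgn, hstar n hn]
  set Z : C 𝓜 g := ∑ n ∈ range N, (Fc hg ht F hgN hE).E n (star (z' n) * z' n) with hZ
  have ιZ : ι Z = ∑ n ∈ range N, F.E n (star (z n) * z n) := by
    rw [hZ, ι_sum]
    exact Finset.sum_congr rfl fun n hn => by
      rw [Fc_E, ι_mul, ι_star, ιz n (Finset.mem_range.mp hn)]
  have hZ0 : 0 ≤ Z := by
    rw [hZ]
    apply Finset.sum_nonneg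
    intro n _
    exact (Fc hg ht F hgN hE).E_nonneg n _ (star_mul_self_nonneg _)
  have R2 : 𝓜.tr (cfc (fun s : ℝ => Phi (Real.sqrt s))
      (∑ n ∈ range N, F.E n (star (z n) * z n)).op) =
      ENNReal.ofReal ((T hg ht).t (cfc (fun s : ℝ => Phi (Real.sqrt s)) Z)) := by
    rw [← ιZ]
    refine tr_cfc_nonneg hg ht _ Z hZ0 ?_ ?_ (by simp [hG.zero])
      (fun s _ => Phi_nonneg hG _ (Real.sqrt_nonneg s))
    · rw [ιZ]
      exact hcorner _ hEc
    · exact (hG.cont.comp_continuous Real.continuous_sqrt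
        (fun s => Real.sqrt_nonneg s)).continuousOn
  have R3 : 𝓜.tr g.op = ENNReal.ofReal ((T hg ht).t 1) := by
    rw [T_t, ι_one]
    have h1pos : 0 ≤ (1 : Mc 𝓜).op := zero_le_one (α := H →L[ℂ] H)
    obtain ⟨k1, k2⟩ := ht.pos 1 h1pos
    have e : g * 1 * g = g := by rw [mul_one, hi]
    rw [e] at k1 k2
    rw [k1, ENNReal.ofReal_toReal k2.ne]
  have R4 : ∀ n, n < N → bph 𝓜 (fun s => s ^ p) (d n - z n) =
      ENNReal.ofReal ((T hg ht).nrm p (d' n - z' n)) := by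
    intro n hn
    have e : ι (d' n - z' n) = d n - z n := by rw [ι_sub, ιd n hn, ιz n hn]
    rw [← e]
    apply bph_eq hg ht p hp0
    rw [e, mul_sub, sub_mul, hd n hn, hz n hn]
  have R5 : ∀ n, n < N → bph 𝓜 (fun s => s ^ p) (d n - a n) =
      ENNReal.ofReal ((T hg ht).nrm p (d' n - a' n)) := by
    intro n hn
    have e : ι (d' n - a' n) = d n - a n := by rw [ι_sub, ιd n hn, ιa n hn]
    rw [← e]
    apply bph_eq hg ht p hp0
    rw [e, mul_sub, sub_mul, hd n hn, ha n hn]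
  have hPhiJ : 0 ≤ Phi ((2 : ℝ) ^ (-(J : ℤ))) := Phi_nonneg hG _ (by positivity)
  rw [L, R1, R2, R3]
  have hsum : ENNReal.ofReal (∑ n ∈ range N,
      ((T hg ht).nrm p (d' n - z' n) + (T hg ht).nrm p (d' n - a' n))) ≤
      ∑ n ∈ range N, (bph 𝓜 (fun s => s ^ p) (d n - z n) + bph 𝓜 (fun s => s ^ p) (d n - a n)) := by
    refine (Finset.le_sum_of_subadditive ENNReal.ofReal ENNReal.ofReal_zero.le
      (fun x y => ENNReal.ofReal_add_le) _ _).trans ?_
    apply Finset.sum_le_sum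
    intro n hn
    rw [R4 n (Finset.mem_range.mp hn), R5 n (Finset.mem_range.mp hn)]
    exact ENNReal.ofReal_add_le
  refine (ENNReal.ofReal_le_ofReal key).trans ?_
  refine ENNReal.ofReal_add_le.trans ?_
  apply add_le_add
  · refine ENNReal.ofReal_add_le.trans ?_
    apply add_le_add
    · rw [ENNReal.ofReal_mul hC.le]
      gcongr
      exact ENNReal.ofReal_add_le
    · rw [ENNReal.ofReal_mul (by positivity)]
  · rw [ENNReal.ofReal_mul hK.le]
    gcongr

end MDB
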