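import Pool.Agent.MDB.Targets
import Pool.Agent.MDB.Corner

/-!
# The one step estimate inside a finite corner
-/

open scoped ENNReal NNReal Topology
open Finset

namespace MDB

open Mc

universe u

open Corner in
theorem q_one (h1 : T_I1.{u}) (h2 : A_fin.{u}) (_h4 : A_cfc.{u}) (h5 : A_E.{u})
    (_h6 : A_tr.{u}) : D_one.{u} := by
  intro p hp hp2 H _ _ _ 𝓜 F g hg hgN hgt n w hw hwm hwE
  obtain ⟨t, ht1, ht2, ht3⟩ := h2 H 𝓜 g hg hgt
  have ht : FinF 𝓜 g t := ⟨ht1, ht2, ht3⟩
  obtain ⟨hE1, hE2, hE3, hE4, -⟩ := h5 H 𝓜 F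
  have hE : EF F := ⟨hE1, hE2, hE3, hE4⟩
  have hp0 : 0 < p := by linarith
  set w' : C 𝓜 g := cp hg w with hw'
  have ιw : ι w' = w := ι_cp hg _ hw
  have key := h1 p hp hp2 (C 𝓜 g) (T hg ht) (Fc hg ht F hgN hE) (n + 1)
    (fun k => if k = n then w' else 0)
    (by
      intro k _
      show (Fc hg ht F hgN hE).E (k + 1) (if k = n then w' else 0) = if k = n then w' else 0
      split_ifs with h
      · subst h
        exact ι_inj (by rw [Fc_E, ιw, hwm])
      · exact map_zero _)
    (by
      intro k _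
      show (Fc hg ht F hgN hE).E k (if k = n then w' else 0) = 0
      split_ifs with h
      · subst h
        exact ι_inj (by rw [Fc_E, ιw, hwE, ι_zero])
      · exact map_zero _)
  have e1 : ∑ k ∈ range (n + 1), (if k = n then w' else 0) = w' := by
    rw [Finset.sum_ite_eq' (range (n + 1)) n (fun _ => w')]
    simp
  have e2 : ∑ k ∈ range (n + 1), (Fc hg ht F hgN hE).E k
      (star (if k = n then w' else 0) * (if k = n then w' else 0)) =
      (Fc hg ht F hgN hE).E n (star w' * w') := by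
    rw [Finset.sum_eq_single n]
    · simp
    · intro k _ hk
      simp [hk]
    · intro hn
      simp at hn
  rw [e1, e2] at key
  have hi : g * g = g := Subtype.ext hg.isIdempotentElem
  have hgs : star g = g := Subtype.ext hg.isSelfAdjoint
  have hgw : g * ι w' * g = ι w' := by rw [ιw]; exact hw
  have B := bph_eq hg ht p hp0 w' hgw
  rw [ιw] at B
  rw [B]
  set Z : C 𝓜 g := (Fc hg ht F hgN hE).E n (star w' * w') with hZ
  have hZ0 : 0 ≤ Z := (Fc hg ht F hgN hE).E_nonneg n _ (star_mul_self_nonneg _)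
  have ιZ : ι Z = F.E n (star w * w) := by
    rw [hZ, Fc_E, ι_mul, ι_star, ιw]
  have hgn : g.op ∈ F.N n := F.mono 0 n (Nat.zero_le n) hgN
  have hstar : g * (star w * w) * g = star w * w := by
    have e1 : w * g = w := by
      rw [← hw, mul_assoc, hi]
    have e2 : g * star w = star w := by
      have := congrArg star e1
      rwa [star_mul, hgs] at this
    rw [← mul_assoc, e2, mul_assoc, e1]
  have hgZ : g * ι Z * g = ι Z := by
    rw [ιZ, ← F.E_bimod n g _ g hgn hgn, hstar]
  have R := tr_cfc_nonneg hg ht (fun s => s ^ (p / 2)) Z hZ0 hgZ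
    (Real.continuous_rpow_const (by positivity)).continuousOn
    (Real.zero_rpow (by positivity)) (fun s hs => Real.rpow_nonneg hs _)
  have R2 : 𝓜.tr (cfc (fun s : ℝ => (Real.sqrt s) ^ p) (F.E n (star w * w)).op) =
      𝓜.tr (cfc (fun s : ℝ => s ^ (p / 2)) (ι Z).op) := by
    rw [ιZ]
    congr 1
    apply cfc_congr
    intro s hs
    have hs0 : 0 ≤ s := by
      have h3 : 0 ≤ (ι Z).op := hZ0
      rw [ιZ] at h3
      exact spectrum_nonneg_of_nonneg h3 hs
    show (Real.sqrt s) ^ p = s ^ (p / 2)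
    rw [Real.sqrt_eq_rpow, ← Real.rpow_mul hs0]
    congr 1
    ring
  rw [R2, R, ← ENNReal.ofReal_mul (by norm_num)]
  exact ENNReal.ofReal_le_ofReal key

end MDB
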