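import Pool.Agent.MDB.Targets2

set_option autoImplicit false

open scoped ENNReal NNReal Topology
open Finset MeasureTheory

namespace MDB

open Mc

universe u

namespace H_E_R1

/-- the elementary inequality `Phi s ≤ η s + C s ^ 2` on `[0, T]` -/
lemma phi_le (Phi : ℝ → ℝ) (p1 q1 C0 : ℝ) (hG : Gr Phi p1 q1 C0) (hp : 1 < p1) (T : ℝ) (hT : 0 < T)
    (η : ℝ) (hη : 0 < η) : ∃ C : ℝ, 0 < C ∧ ∀ s, 0 ≤ s → s ≤ T → Phi s ≤ η * s + C * s ^ 2 := by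
  have hPT : 0 < Phi T := hG.pos T hT
  have hC0 : 0 ≤ C0 := by
    have := hG.low T hT 1 one_pos le_rfl
    simp only [Real.one_rpow, one_mul, mul_one] at this
    by_contra hc
    push Not at hc
    nlinarith
  -- A = C0 * Phi T / T ^ p1
  set A : ℝ := C0 * Phi T / T with hA
  have hA0 : 0 ≤ A := by positivity
  -- s0 / T = (η / (A + 1)) ^ (1 / (p1 - 1)) (at most one)
  have hp' : 0 < p1 - 1 := by linarith
  set ρ : ℝ := min 1 ((η / (A + 1)) ^ (1 / (p1 - 1))) with hρ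
  have hq : 0 < η / (A + 1) := by positivity
  have hρ0 : 0 < ρ := by
    rw [hρ]
    exact lt_min one_pos (Real.rpow_pos_of_pos hq _)
  have hρ1 : ρ ≤ 1 := min_le_left _ _
  have hρp : ρ ^ (p1 - 1) ≤ η / (A + 1) := by
    calc ρ ^ (p1 - 1) ≤ ((η / (A + 1)) ^ (1 / (p1 - 1))) ^ (p1 - 1) :=
          Real.rpow_le_rpow hρ0.le (min_le_right _ _) hp'.le
      _ = η / (A + 1) := by
          rw [← Real.rpow_mul hq.le, one_div, inv_mul_cancel₀ hp'.ne', Real.rpow_one]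
  refine ⟨Phi T / (ρ * T) ^ 2, by positivity, ?_⟩
  intro s hs hsT
  rcases hs.eq_or_lt with h0 | hs0
  · rw [← h0, hG.zero]; simp
  by_cases hc : s ≤ ρ * T
  · -- small s
    have h1 : Phi s ≤ C0 * (s / T) ^ p1 * Phi T := by
      have := hG.low T hT (s / T) (by positivity) ((div_le_one hT).2 hsT)
      rwa [div_mul_cancel₀ _ hT.ne'] at this
    have h2 : (s / T) ^ p1 ≤ (s / T) * (η / (A + 1)) := by
      have hsT' : s / T ≤ ρ := (div_le_iff₀ hT).2 hc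
      have hpos : 0 < s / T := by positivity
      have : (s / T) ^ p1 = (s / T) * (s / T) ^ (p1 - 1) := by
        rw [Real.rpow_sub_one hpos.ne']
        field_simp
      rw [this]
      apply mul_le_mul_of_nonneg_left _ hpos.le
      exact (Real.rpow_le_rpow hpos.le hsT' hp'.le).trans hρp
    have h3 : Phi s ≤ C0 * ((s / T) * (η / (A + 1))) * Phi T :=
      h1.trans (by gcongr)
    have h4 : C0 * ((s / T) * (η / (A + 1))) * Phi T = (A / (A + 1)) * (η * s) := by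
      rw [hA]; field_simp
    have h5 : A / (A + 1) ≤ 1 := (div_le_one (by positivity)).2 (by linarith)
    have h6 : (A / (A + 1)) * (η * s) ≤ 1 * (η * s) := by gcongr
    have h7 : 0 ≤ Phi T / (ρ * T) ^ 2 * s ^ 2 := by positivity
    linarith
  · push Not at hc
    have h1 : Phi s ≤ Phi T := hG.mono (Set.mem_Ici.2 hs) (Set.mem_Ici.2 hT.le) hsT
    have h2 : (1 : ℝ) ≤ s ^ 2 / (ρ * T) ^ 2 := by
      rw [le_div_iff₀ (by positivity), one_mul]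
      exact pow_le_pow_left₀ (by positivity) hc.le 2
    have h3 : Phi T / (ρ * T) ^ 2 * s ^ 2 = Phi T * (s ^ 2 / (ρ * T) ^ 2) := by ring
    rw [h3]
    have h4 : Phi T * 1 ≤ Phi T * (s ^ 2 / (ρ * T) ^ 2) := by gcongr
    have h5 : 0 ≤ η * s := by positivity
    linarith

lemma gr_id : Gr (fun s : ℝ => s) 1 1 1 where
  cont := continuous_id.continuousOn
  mono := fun _ _ _ _ h => h
  zero := rfl
  pos := fun _ h => h
  low := by intro s _ r _ _; simp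
  up := by intro s _ r _; simp

section

variable {H : Type u} [NormedAddCommGroup H] [InnerProductSpace ℂ H] [CompleteSpace H]

lemma norm_proj {𝓜 : TVN H} (g : Mc 𝓜) (hg : IsP g) : ‖g.op‖ ≤ 1 := by
  have h : IsStarProjection g.op := hg
  exact h.norm_le

lemma op_mul {𝓜 : TVN H} (x y : Mc 𝓜) : (x * y).op = x.op * y.op := rfl

lemma op_sub {𝓜 : TVN H} (x y : Mc 𝓜) : (x - y).op = x.op - y.op := rfl

lemma op_star {𝓜 : TVN H} (x : Mc 𝓜) : (star x).op = star x.op := rfl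

lemma norm_gyg {𝓜 : TVN H} (g y : Mc 𝓜) (hg : IsP g) : ‖(g * y * g).op‖ ≤ ‖y.op‖ := by
  have h1 := norm_proj g hg
  rw [op_mul, op_mul]
  calc ‖g.op * y.op * g.op‖ ≤ ‖g.op‖ * ‖y.op‖ * ‖g.op‖ :=
        (norm_mul_le _ _).trans (mul_le_mul_of_nonneg_right (norm_mul_le _ _) (norm_nonneg _))
    _ ≤ 1 * ‖y.op‖ * 1 := by gcongr
    _ = ‖y.op‖ := by ring

variable (𝓜 : TVN H) [UniformSpace (Mc 𝓜)] [IsTopologicalRing (Mc 𝓜)] [IsUniformAddGroup (Mc 𝓜)]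

lemma orl_sq (hL : C_layer.{u}) (hMT : IsMT 𝓜) (x : Mc 𝓜) :
    orl (fun s => s ^ 2) (x : Sm 𝓜) = 𝓜.tr (star x * x).op := by
  have h := (hL H 𝓜 hMT (fun s => s ^ 2) (by fun_prop)
    (by
      intro a ha b hb hab
      exact pow_le_pow_left₀ ha hab 2) (by simp)).2.1 x
  rw [← h, bph]
  have h0 : (0 : H →L[ℂ] H) ≤ (star x * x).op := by
    rw [op_mul, op_star]
    exact star_mul_self_nonneg _
  have hsa : IsSelfAdjoint (star x * x).op := h0.isSelfAdjoint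
  congr 1
  conv_rhs => rw [← cfc_id' ℝ (star x * x).op hsa]
  apply cfc_congr
  intro s hs
  have hs0 : 0 ≤ s := spectrum_nonneg_of_nonneg h0 hs
  exact Real.sq_sqrt hs0

lemma orl_le (hL : C_layer.{u}) (hM : C_mu.{u}) (hMT : IsMT 𝓜) (Phi : ℝ → ℝ) (T η C : ℝ)
    (hη : 0 ≤ η) (hC : 0 ≤ C)
    (hP : ∀ s, 0 ≤ s → s ≤ T → Phi s ≤ η * s + C * s ^ 2) (x : Mc 𝓜) (hx : ‖x.op‖ ≤ T) :
    orl Phi (x : Sm 𝓜) ≤ ENNReal.ofReal η * orl (fun s => s) (x : Sm 𝓜) +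
      ENNReal.ofReal C * 𝓜.tr (star x * x).op := by
  obtain ⟨m0, m1, -, -, -, -, -, m2, -, -, -⟩ := hM H 𝓜 hMT
  rw [← orl_sq 𝓜 hL hMT x]
  have hanti : AntitoneOn (mu (x : Sm 𝓜)) (Set.Ioi 0) := by
    intro a ha b hb hab
    exact m1 _ a b ha hab
  have hmeas : AEMeasurable (mu (x : Sm 𝓜)) (volume.restrict (Set.Ioi 0)) :=
    aemeasurable_restrict_of_antitoneOn measurableSet_Ioi hanti
  unfold orl
  rw [← lintegral_const_mul'' _ hmeas.ennreal_ofReal,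
    ← lintegral_const_mul'' _ ((hmeas.pow_const 2).ennreal_ofReal),
    ← lintegral_add_left' ((hmeas.ennreal_ofReal).const_mul _)]
  apply setLIntegral_mono_ae'  measurableSet_Ioi
  refine Filter.Eventually.of_forall ?_
  intro t ht
  have ht0 : 0 < t := ht
  have hmu0 := m0 (x : Sm 𝓜) t
  rw [← ENNReal.ofReal_mul hη, ← ENNReal.ofReal_mul hC, ← ENNReal.ofReal_add (by positivity)
    (by positivity)]
  apply ENNReal.ofReal_le_ofReal
  exact hP _ hmu0 ((m2 x t ht0).trans hx)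

end

end H_E_R1

theorem q_R1 (hS : E_seq.{u}) (hT : C_trunc.{u}) (hA : A_mgl.{u}) (hE : C_E.{u}) (hO : C_orl.{u})
    (hL : C_layer.{u}) (hM : C_mu.{u}) (hAE : A_E.{u}) : E_R1.{u} := by
  intro Phi p1 q1 C0 hG hp1 H _ _ _ 𝓜 _ _ _ hMT F ξ ξn hξ hCE ε hε
  obtain ⟨K, hK, hO'⟩ := hO Phi p1 q1 C0 hG (by linarith)
  obtain ⟨K1, hK1, hO1⟩ := hO (fun s => s) 1 1 1 H_E_R1.gr_id one_pos
  obtain ⟨K', hK', hE'⟩ := hE Phi p1 q1 C0 hG hp1
  obtain ⟨hadd, hneg, -, hcut, hmem, -⟩ := hO' H 𝓜 hMT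
  obtain ⟨hadd1, hneg1, -, hcut1, -, -⟩ := hO1 H 𝓜 hMT
  have hE'' := hE' H 𝓜 hMT F
  obtain ⟨-, -, -, -, -, -, hEn⟩ := hAE H 𝓜 F
  obtain ⟨w, hw, hwn⟩ := hS Phi p1 q1 C0 hG hp1 H 𝓜 hMT F ξ ξn hξ hCE
  -- subtraction
  have hsub : ∀ a b : Sm 𝓜, orl Phi (a - b) ≤ ENNReal.ofReal K * (orl Phi a + orl Phi b) := by
    intro a b
    have := hadd a (-b)
    rwa [hneg, ← sub_eq_add_neg] at this
  have hsub1 : ∀ a b : Sm 𝓜, orl (fun s => s) (a - b) ≤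
      ENNReal.ofReal K1 * (orl (fun s => s) a + orl (fun s => s) b) := by
    intro a b
    have := hadd1 a (-b)
    rwa [hneg1, ← sub_eq_add_neg] at this
  have hcomm : ∀ a b : Sm 𝓜, orl Phi (a - b) = orl Phi (b - a) := by
    intro a b
    rw [← hneg (b - a), neg_sub]
  have hKt : ENNReal.ofReal K ≠ ⊤ := ENNReal.ofReal_ne_top
  have hKt' : ENNReal.ofReal K' ≠ ⊤ := ENNReal.ofReal_ne_top
  set κ := ENNReal.ofReal K with hκ
  set κ' := ENNReal.ofReal K' with hκ'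
  -- the choice of delta
  have hct : κ * (κ * 2 + κ * (1 + κ * (κ' * (κ * (1 + κ * 2)) + 1))) ≠ ⊤ := by
    finiteness
  obtain ⟨δ, hδ, hδε⟩ := ENNReal.exists_nnreal_pos_mul_lt hct
    (b := ENNReal.ofReal ε) (by simpa using hε)
  have hδ' : (0 : ℝ) < δ := hδ
  have hδe : (0 : ℝ≥0∞) < δ := by exact_mod_cast hδ
  -- the first approximant
  have ev1 : ∀ᶠ k in Filter.atTop, orl Phi (ξ - (w k : Sm 𝓜)) ≤ δ := hw.eventually_le_const hδe
  obtain ⟨k0, hk0⟩ := ev1.exists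
  have hwfin : orl Phi (w k0 : Sm 𝓜) < ⊤ := by
    have h1 : orl Phi ξ < ⊤ := (hmem ξ).1 hξ
    have h2 : (w k0 : Sm 𝓜) = ξ - (ξ - (w k0 : Sm 𝓜)) := by abel
    rw [h2]
    refine (hsub _ _).trans_lt ?_
    have h3 : orl Phi (ξ - (w k0 : Sm 𝓜)) < ⊤ := hk0.trans_lt ENNReal.coe_lt_top
    exact ENNReal.mul_lt_top hKt.lt_top (ENNReal.add_lt_top.2 ⟨h1, h3⟩)
  obtain ⟨y, hy1, hy2, hy3⟩ := hT Phi p1 q1 C0 hG hp1 H 𝓜 hMT (w k0) hwfin δ hδ'
  rw [ENNReal.ofReal_coe_nnreal] at hy3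
  -- the size
  set T : ℝ := 2 * ‖y.op‖ + 1 with hTdef
  have hT0 : 0 < T := by positivity
  set L : ℝ≥0∞ := ENNReal.ofReal K1 * (orl (fun s => s) (y : Sm 𝓜) +
    ENNReal.ofReal K' * orl (fun s => s) (y : Sm 𝓜)) with hLdef
  have hLt : L ≠ ⊤ := by
    have := hy1.ne
    rw [hLdef]
    finiteness
  obtain ⟨η, hη, hηL⟩ := ENNReal.exists_nnreal_pos_mul_lt hLt
    (b := (δ : ℝ≥0∞) / 2) (by simpa using hδ.ne')
  obtain ⟨C, hC, hCb⟩ := H_E_R1.phi_le Phi p1 q1 C0 hG hp1 T hT0 η hη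
  -- the martingale
  obtain ⟨g, hg, hgN, hgt, n0, hn0⟩ := hA H 𝓜 F y hy2 (δ / 2 / C) (by positivity)
  have hn := hn0 n0 le_rfl
  have hgn : ‖g.op‖ ≤ 1 := H_E_R1.norm_proj g hg
  have hx : orl Phi ((y - g * F.E n0 y * g : Mc 𝓜) : Sm 𝓜) ≤ δ := by
    have hxT : ‖(y - g * F.E n0 y * g).op‖ ≤ T := by
      rw [H_E_R1.op_sub]
      have a1 := H_E_R1.norm_gyg g (F.E n0 y) hg
      have a2 := hEn n0 y
      have a3 := norm_sub_le y.op (g * F.E n0 y * g).op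
      rw [hTdef]
      linarith
    refine (H_E_R1.orl_le 𝓜 hL hM hMT Phi T η C hη.le hC.le hCb _ hxT).trans ?_
    have b1 : orl (fun s => s) ((y - g * F.E n0 y * g : Mc 𝓜) : Sm 𝓜) ≤ L := by
      rw [UniformSpace.Completion.coe_sub]
      refine (hsub1 _ _).trans ?_
      rw [hLdef]
      gcongr
      rw [UniformSpace.Completion.coe_mul, UniformSpace.Completion.coe_mul]
      exact (hcut1 _ g g hgn hgn).trans (hE'' n0 y).2
    have b2 : ENNReal.ofReal C * 𝓜.tr (star (y - g * F.E n0 y * g) * (y - g * F.E n0 y * g)).op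
        ≤ (δ : ℝ≥0∞) / 2 := by
      calc ENNReal.ofReal C * 𝓜.tr (star (y - g * F.E n0 y * g) * (y - g * F.E n0 y * g)).op
          ≤ ENNReal.ofReal C * ENNReal.ofReal (δ / 2 / C) := by gcongr
        _ = ENNReal.ofReal (δ / 2) := by
            rw [← ENNReal.ofReal_mul hC.le, mul_div_cancel₀ _ hC.ne']
        _ = (δ : ℝ≥0∞) / 2 := by
            rw [ENNReal.ofReal_div_of_pos (by norm_num), ENNReal.ofReal_coe_nnreal]
            simp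
    have b3 : ENNReal.ofReal (η : ℝ) * orl (fun s => s) ((y - g * F.E n0 y * g : Mc 𝓜) : Sm 𝓜)
        ≤ (δ : ℝ≥0∞) / 2 := by
      rw [ENNReal.ofReal_coe_nnreal]
      calc (η : ℝ≥0∞) * orl (fun s => s) ((y - g * F.E n0 y * g : Mc 𝓜) : Sm 𝓜) ≤ η * L := by
            gcongr
        _ ≤ (δ : ℝ≥0∞) / 2 := hηL.le
    calc _ ≤ (δ : ℝ≥0∞) / 2 + (δ : ℝ≥0∞) / 2 := add_le_add b3 b2
      _ = δ := ENNReal.add_halves _
  -- the second approximant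
  have ev2 : ∀ᶠ k in Filter.atTop, orl Phi (ξn n0 - (F.E n0 (w k) : Sm 𝓜)) ≤ δ :=
    (hwn n0).eventually_le_const hδe
  obtain ⟨k1, hk1, hk1'⟩ := (ev1.and ev2).exists
  refine ⟨n0, g, hg, hgN, hgt, lt_of_le_of_lt ?_ hδε⟩
  have e1 : ξ - (g : Sm 𝓜) * ξn n0 * (g : Sm 𝓜) =
      ((ξ - (w k0 : Sm 𝓜)) + ((w k0 - y : Mc 𝓜) : Sm 𝓜)) +
      (((y - g * F.E n0 y * g : Mc 𝓜) : Sm 𝓜) +
        (g : Sm 𝓜) * (((F.E n0 (y - w k1) : Mc 𝓜) : Sm 𝓜) - (ξn n0 - (F.E n0 (w k1) : Sm 𝓜))) *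
          (g : Sm 𝓜)) := by
    rw [map_sub]
    simp only [UniformSpace.Completion.coe_sub, UniformSpace.Completion.coe_mul]
    noncomm_ring
  have e2 : ((y - w k1 : Mc 𝓜) : Sm 𝓜) =
      ((ξ - (w k1 : Sm 𝓜)) - (ξ - (w k0 : Sm 𝓜))) - ((w k0 - y : Mc 𝓜) : Sm 𝓜) := by
    simp only [UniformSpace.Completion.coe_sub]
    abel
  have c1 : orl Phi ((y - w k1 : Mc 𝓜) : Sm 𝓜) ≤ κ * (κ * (δ + δ) + δ) := by
    rw [e2]
    refine (hsub _ _).trans ?_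
    gcongr
    refine (hsub _ _).trans ?_
    gcongr
  have c2 : orl Phi (F.E n0 (y - w k1) : Sm 𝓜) ≤ κ' * (κ * (κ * (δ + δ) + δ)) :=
    ((hE'' n0 _).1).trans (by gcongr)
  rw [e1]
  refine (hadd _ _).trans ?_
  have c3 : orl Phi ((ξ - (w k0 : Sm 𝓜)) + ((w k0 - y : Mc 𝓜) : Sm 𝓜)) ≤ κ * (δ + δ) := by
    refine (hadd _ _).trans ?_
    gcongr
  have c4 : orl Phi ((g : Sm 𝓜) * (((F.E n0 (y - w k1) : Mc 𝓜) : Sm 𝓜) -
      (ξn n0 - (F.E n0 (w k1) : Sm 𝓜))) * (g : Sm 𝓜)) ≤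
      κ * (κ' * (κ * (κ * (δ + δ) + δ)) + δ) := by
    refine (hcut _ g g hgn hgn).trans ?_
    refine (hsub _ _).trans ?_
    gcongr
  have c5 := hadd ((y - g * F.E n0 y * g : Mc 𝓜) : Sm 𝓜)
    ((g : Sm 𝓜) * (((F.E n0 (y - w k1) : Mc 𝓜) : Sm 𝓜) -
      (ξn n0 - (F.E n0 (w k1) : Sm 𝓜))) * (g : Sm 𝓜))
  calc κ * (orl Phi ((ξ - (w k0 : Sm 𝓜)) + ((w k0 - y : Mc 𝓜) : Sm 𝓜)) +
        orl Phi (((y - g * F.E n0 y * g : Mc 𝓜) : Sm 𝓜) +
        (g : Sm 𝓜) * (((F.E n0 (y - w k1) : Mc 𝓜) : Sm 𝓜) - (ξn n0 - (F.E n0 (w k1) : Sm 𝓜))) *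
          (g : Sm 𝓜)))
      ≤ κ * (κ * (δ + δ) + κ * (δ + κ * (κ' * (κ * (κ * (δ + δ) + δ)) + δ))) := by
        gcongr
        refine c5.trans ?_
        gcongr
    _ = δ * (κ * (κ * 2 + κ * (1 + κ * (κ' * (κ * (1 + κ * 2)) + 1)))) := by ring

end MDB
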