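import Pool.Agent.MDB.Targets2

/-!
Job MDB2-E_R2 (helper43): the inequality in a finite corner, from the one for real parts.
-/

open scoped ENNReal NNReal Topology
open Finset

namespace MDB

open Mc

universe u

namespace H_E_R2

variable {H : Type u} [NormedAddCommGroup H] [InnerProductSpace ℂ H] [CompleteSpace H]
variable {𝓜 : TVN H}

/-- the scalar `c` in `Mc` -/
noncomputable def sc (𝓜 : TVN H) (c : ℂ) : Mc 𝓜 := algebraMap ℂ (Mc 𝓜) c

theorem op_mul (x y : Mc 𝓜) : (x * y).op = x.op * y.op := rfl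
theorem op_star (x : Mc 𝓜) : (star x).op = star x.op := rfl
theorem op_sc (c : ℂ) : (sc 𝓜 c).op = c • (1 : H →L[ℂ] H) := by
  show (algebraMap ℂ ↥(𝓜.M.toStarSubalgebra) c).1 = _
  rw [Algebra.algebraMap_eq_smul_one]
  rfl

theorem norm_sc (c : ℂ) : ‖(sc 𝓜 c).op‖ ≤ ‖c‖ := by
  rw [op_sc]
  calc ‖c • (1 : H →L[ℂ] H)‖ ≤ ‖c‖ * ‖(1 : H →L[ℂ] H)‖ := norm_smul_le _ _
    _ ≤ ‖c‖ * 1 := by
        gcongr
        exact ContinuousLinearMap.norm_id_le
    _ = ‖c‖ := mul_one _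

theorem sc_comm (c : ℂ) (x : Mc 𝓜) : sc 𝓜 c * x = x * sc 𝓜 c := Algebra.commutes c x

theorem sc_mul (c d : ℂ) : sc 𝓜 c * sc 𝓜 d = sc 𝓜 (c * d) := (map_mul _ _ _).symm

theorem sc_one : sc 𝓜 1 = 1 := map_one _

theorem star_sc (c : ℂ) : star (sc 𝓜 c) = sc 𝓜 (star c) := (algebraMap_star_comm c).symm

theorem E_sc (F : Filtr 𝓜) (n : ℕ) (c : ℂ) (x : Mc 𝓜) : F.E n (sc 𝓜 c * x) = sc 𝓜 c * F.E n x := by
  have h : ∀ y : Mc 𝓜, sc 𝓜 c * y = c • y := fun y => (Algebra.smul_def c y).symm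
  rw [h, h, map_smul]

theorem dif_sc (F : Filtr 𝓜) (n : ℕ) (c : ℂ) (x : Mc 𝓜) :
    dif (fun m => F.E m (sc 𝓜 c * x)) n = sc 𝓜 c * dif (fun m => F.E m x) n := by
  unfold dif
  split_ifs with h
  · exact E_sc F _ c x
  · show F.E n (sc 𝓜 c * x) - F.E (n - 1) (sc 𝓜 c * x) = sc 𝓜 c * (F.E n x - F.E (n - 1) x)
    rw [E_sc, E_sc, mul_sub]

theorem star_mul_sc {c : ℂ} (hc : star c * c = 1) (x : Mc 𝓜) :
    star (sc 𝓜 c * x) * (sc 𝓜 c * x) = star x * x := by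
  rw [star_mul, star_sc]
  have : star x * sc 𝓜 (star c) * (sc 𝓜 c * x) = star x * ((sc 𝓜 (star c) * sc 𝓜 c) * x) := by
    noncomm_ring
  rw [this, sc_mul, hc, sc_one, one_mul]

theorem sc2_sc (F : Filtr 𝓜) (K : ℕ) {c : ℂ} (hc : star c * c = 1) (z : Mc 𝓜) :
    sc2 F K (sc 𝓜 c * z) = sc2 F K z := by
  unfold sc2
  refine Finset.sum_congr rfl fun n _ => ?_
  rw [dif_sc, star_mul_sc hc]

theorem bsc_sc (F : Filtr 𝓜) (Phi : ℝ → ℝ) (K : ℕ) {c : ℂ} (hc : star c * c = 1) (z : Mc 𝓜) :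
    bsc F Phi K (sc 𝓜 c * z) = bsc F Phi K z := by
  unfold bsc
  rw [sc2_sc F K hc]

section top

set_option linter.unusedSectionVars false

variable [UniformSpace (Mc 𝓜)] [IsTopologicalRing (Mc 𝓜)] [IsUniformAddGroup (Mc 𝓜)]

theorem cen (c : ℂ) (ξ : Sm 𝓜) : ((sc 𝓜 c : Mc 𝓜) : Sm 𝓜) * ξ = ξ * ((sc 𝓜 c : Mc 𝓜) : Sm 𝓜) := by
  refine UniformSpace.Completion.induction_on ξ ?_ ?_
  · exact isClosed_eq (continuous_const.mul continuous_id) (continuous_id.mul continuous_const)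
  · intro x
    rw [← UniformSpace.Completion.coe_mul, ← UniformSpace.Completion.coe_mul, sc_comm]

theorem coe_sc_mul (c d : ℂ) :
    ((sc 𝓜 c : Mc 𝓜) : Sm 𝓜) * ((sc 𝓜 d : Mc 𝓜) : Sm 𝓜) = ((sc 𝓜 (c * d) : Mc 𝓜) : Sm 𝓜) := by
  rw [← UniformSpace.Completion.coe_mul, sc_mul]

theorem coe_sc_one : ((sc 𝓜 1 : Mc 𝓜) : Sm 𝓜) = 1 := by
  rw [sc_one, UniformSpace.Completion.coe_one]

theorem coe_sc_add (c d : ℂ) :
    ((sc 𝓜 c : Mc 𝓜) : Sm 𝓜) + ((sc 𝓜 d : Mc 𝓜) : Sm 𝓜) = ((sc 𝓜 (c + d) : Mc 𝓜) : Sm 𝓜) := by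
  rw [← UniformSpace.Completion.coe_add]
  congr 1
  exact (map_add _ _ _).symm

theorem coe_sc_neg (c : ℂ) :
    ((sc 𝓜 (-c) : Mc 𝓜) : Sm 𝓜) = - ((sc 𝓜 c : Mc 𝓜) : Sm 𝓜) := by
  rw [← UniformSpace.Completion.coe_neg]
  congr 1
  exact map_neg _ _

theorem dif_coe (f : ℕ → Mc 𝓜) (n : ℕ) :
    dif (fun m => (f m : Sm 𝓜)) n = ((dif f n : Mc 𝓜) : Sm 𝓜) := by
  unfold dif
  split_ifs with h
  · rfl
  · rw [UniformSpace.Completion.coe_sub]

/-- transport of the approximation by a central unitary -/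
theorem capprox_sc {F : Filtr 𝓜} {Phi : ℝ → ℝ} {ζ : ℕ → Sm 𝓜} {z : ℕ → Mc 𝓜} {K : ℕ → ℕ}
    (h : CApprox F Phi ζ z K) {c : ℂ} (hc : star c * c = 1) :
    CApprox F Phi (fun n => ((sc 𝓜 c : Mc 𝓜) : Sm 𝓜) * ζ n) (fun k => sc 𝓜 c * z k) K where
  fin k := by rw [E_sc, h.fin]
  l2 k := by rw [star_mul_sc hc]; exact h.l2 k
  lim n g hg hg0 hgt := by
    have h1 := (h.lim n g hg hg0 hgt).const_mul (((sc 𝓜 c : Mc 𝓜) : Sm 𝓜))
    have hcomm : ∀ ξ : Sm 𝓜, (g : Sm 𝓜) * (((sc 𝓜 c : Mc 𝓜) : Sm 𝓜) * ξ)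
        = ((sc 𝓜 c : Mc 𝓜) : Sm 𝓜) * ((g : Sm 𝓜) * ξ) := by
      intro ξ
      rw [← mul_assoc, ← mul_assoc, ← UniformSpace.Completion.coe_mul,
        ← UniformSpace.Completion.coe_mul]
      congr 2
      show g * sc 𝓜 c = sc 𝓜 c * g
      exact (Algebra.commutes c g).symm
    have e1 : (g : Sm 𝓜) * (((sc 𝓜 c : Mc 𝓜) : Sm 𝓜) * ζ n) * (g : Sm 𝓜)
        = ((sc 𝓜 c : Mc 𝓜) : Sm 𝓜) * ((g : Sm 𝓜) * ζ n * (g : Sm 𝓜)) := by
      rw [hcomm, mul_assoc]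
    show Filter.Tendsto _ _ (𝓝 ((g : Sm 𝓜) * (((sc 𝓜 c : Mc 𝓜) : Sm 𝓜) * ζ n) * (g : Sm 𝓜)))
    rw [e1]
    refine h1.congr fun k => ?_
    rw [dif_coe, dif_coe, dif_sc, UniformSpace.Completion.coe_mul, hcomm, ← mul_assoc]
  cauchy := by
    refine h.cauchy.congr fun kl => ?_
    have : sc 𝓜 c * z kl.1 - sc 𝓜 c * z kl.2 = sc 𝓜 c * (z kl.1 - z kl.2) := by rw [mul_sub]
    show _ = bsc F Phi (max (K kl.1) (K kl.2)) (sc 𝓜 c * z kl.1 - sc 𝓜 c * z kl.2)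
    rw [this, bsc_sc F Phi _ hc]

theorem tr_zero : 𝓜.tr 0 = 0 := by
  have h := 𝓜.tr_smul 0 0 (zero_mem _) le_rfl
  simpa using h

/-- monotonicity of the singular numbers -/
theorem mu_le (hB : C_ball.{u}) (hMT : IsMT 𝓜) (x B : Mc 𝓜) (h : (star x * x).op ≤ B.op) (t : ℝ)
    (hpos : 0 ≤ mu (x : Sm 𝓜) t) :
    mu (x : Sm 𝓜) t ≤ Real.sqrt (mu (B : Sm 𝓜) t) := by
  apply Real.le_sqrt_of_sq_le
  apply le_csInf
  · refine ⟨‖B.op‖, 1, B, ?_, ?_, ?_, rfl⟩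
    · exact IsStarProjection.one (H →L[ℂ] H)
    · have : (1 - 1 : Mc 𝓜).op = 0 := by rw [sub_self]; rfl
      rw [this, tr_zero]
      exact zero_le
    · rw [UniformSpace.Completion.coe_one, mul_one]
  · rintro lam ⟨e, y, he, htr, hy, rfl⟩
    have hy' : y = B * e := by
      apply (hB H 𝓜 hMT).1
      rw [← hy, UniformSpace.Completion.coe_mul]
    have hmem : mu (x : Sm 𝓜) t ≤ ‖(x * e).op‖ := by
      apply csInf_le
      · refine ⟨0, ?_⟩
        rintro lam ⟨_, y', _, _, _, rfl⟩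
        exact norm_nonneg _
      · exact ⟨e, x * e, he, htr, by rw [UniformSpace.Completion.coe_mul], rfl⟩
    have h1 : mu (x : Sm 𝓜) t ^ 2 ≤ ‖(x * e).op‖ ^ 2 := by gcongr
    refine h1.trans ?_
    have hene : ‖e.op‖ ≤ 1 := IsStarProjection.norm_le e.op he
    have h2 : ‖(x * e).op‖ ^ 2 = ‖star ((x * e).op) * (x * e).op‖ := by
      rw [CStarRing.norm_star_mul_self, sq]
    rw [h2]
    have h3 : star ((x * e).op) * (x * e).op = star e.op * (star x * x).op * e.op := by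
      rw [op_mul, op_mul, op_star, star_mul]
      noncomm_ring
    rw [h3]
    have h4 : star e.op * (star x * x).op * e.op ≤ star e.op * B.op * e.op :=
      star_left_conjugate_le_conjugate h e.op
    have h5 : 0 ≤ star e.op * (star x * x).op * e.op := by
      apply star_left_conjugate_nonneg
      rw [op_mul, op_star]
      exact star_mul_self_nonneg _
    refine (CStarAlgebra.norm_le_norm_of_nonneg_of_le h5 h4).trans ?_
    rw [hy', op_mul, mul_assoc]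
    refine (norm_mul_le _ _).trans ?_
    rw [norm_star]
    nlinarith [norm_nonneg (B.op * e.op)]

theorem op_sum_nonneg {ι : Type*} (s : Finset ι) (f : ι → Mc 𝓜) (h : ∀ i ∈ s, 0 ≤ (f i).op) :
    0 ≤ (∑ i ∈ s, f i).op :=
  Finset.sum_induction f (fun x => 0 ≤ x.op) (fun _ _ ha hb => add_nonneg ha hb) (le_refl _) h

theorem sc2_ge (F : Filtr 𝓜) (K : ℕ) (z : Mc 𝓜) :
    (star (F.E 0 z) * F.E 0 z).op ≤ (sc2 F K z).op := by
  unfold sc2
  rw [Finset.sum_range_succ']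
  have h0 : F.E (0 - 1) (star (dif (fun m => F.E m z) 0) * dif (fun m => F.E m z) 0)
      = star (F.E 0 z) * F.E 0 z := by
    have : dif (fun m => F.E m z) 0 = F.E 0 z := by simp [dif]
    rw [this]
    apply F.E_fix
    rw [op_mul, op_star]
    exact mul_mem (star_mem (F.E_mem 0 z)) (F.E_mem 0 z)
  rw [h0]
  have h1 : 0 ≤ (∑ k ∈ range K, F.E (k + 1 - 1) (star (dif (fun m => F.E m z) (k + 1)) *
      dif (fun m => F.E m z) (k + 1))).op := by
    apply op_sum_nonneg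
    intro i _
    apply F.E_nonneg
    rw [op_mul, op_star]
    exact star_mul_self_nonneg _
  exact le_add_of_nonneg_left h1

/-- the first term is controlled by the conditioned square function -/
theorem orl_E0 (h2 : C_mu.{u}) (h3 : C_layer.{u}) (hB : C_ball.{u}) (hMT : IsMT 𝓜)
    {Phi : ℝ → ℝ} {p1 q1 C0 : ℝ} (hG : Gr Phi p1 q1 C0) (F : Filtr 𝓜) (K : ℕ) (z : Mc 𝓜) :
    orl Phi ((F.E 0 z : Mc 𝓜) : Sm 𝓜) ≤ bsc F Phi K z := by
  have hf1 : ContinuousOn (fun s : ℝ => Phi (Real.sqrt s)) (Set.Ici 0) :=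
    hG.cont.comp Real.continuous_sqrt.continuousOn (fun s _ => Real.sqrt_nonneg s)
  have hf2 : MonotoneOn (fun s : ℝ => Phi (Real.sqrt s)) (Set.Ici 0) := fun a _ b _ hab =>
    hG.mono (Real.sqrt_nonneg a) (Real.sqrt_nonneg b) (Real.sqrt_le_sqrt hab)
  have hf3 : (fun s : ℝ => Phi (Real.sqrt s)) 0 = 0 := by
    simp [hG.zero]
  have hpos : 0 ≤ (sc2 F K z).op := by
    refine le_trans ?_ (sc2_ge F K z)
    rw [op_mul, op_star]
    exact star_mul_self_nonneg _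
  have hb : bsc F Phi K z = orl (fun s : ℝ => Phi (Real.sqrt s)) ((sc2 F K z : Mc 𝓜) : Sm 𝓜) :=
    (h3 H 𝓜 hMT _ hf1 hf2 hf3).1 _ hpos
  rw [hb]
  unfold orl
  apply MeasureTheory.setLIntegral_mono' measurableSet_Ioi
  intro t _
  apply ENNReal.ofReal_le_ofReal
  have hm0 := (h2 H 𝓜 hMT).1 ((F.E 0 z : Mc 𝓜) : Sm 𝓜) t
  exact hG.mono hm0 (Real.sqrt_nonneg _) (mu_le hB hMT _ _ (sc2_ge F K z) t hm0)

end top

end H_E_R2

open H_E_R2 in
/-- Job MDB2-E_R2. -/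
theorem q_R2 (h1 : E_R2re.{u}) (h2 : C_mu.{u}) (h3 : C_layer.{u}) (h4 : C_orl.{u})
    (h5 : C_fatou.{u}) (_h6 : A_E.{u}) (h7 : C_star.{u}) (h8 : C_ball.{u}) : E_R2.{u} := by
  intro Phi p1 q1 C0 hG hp1
  obtain ⟨C, hC, hre⟩ := h1 Phi p1 q1 C0 hG hp1
  obtain ⟨K0, hK0, horl⟩ := h4 Phi p1 q1 C0 hG (by linarith)
  refine ⟨K0 * (K0 * (C + C) + 1), by positivity, ?_⟩
  intro H _ _ _ 𝓜 _ _ _ hMT F ξ ξn hξ hCE a b y ha hb hy hdif z z' K K' c c' hz hz' hc hc' N g hg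
    hg0 hgt
  obtain ⟨o1, o2, o3, o4, o5, o6⟩ := horl H 𝓜 hMT
  obtain ⟨s1, s2, s3, s4, s5, s6⟩ := h7 H 𝓜 hMT
  have I1 : star Complex.I * Complex.I = 1 := by simp
  have I2 : star (star Complex.I) * star Complex.I = 1 := by simp
  have hnI : ‖(sc 𝓜 Complex.I).op‖ ≤ 1 := (norm_sc _).trans (by simp)
  have h1n : ‖(1 : Mc 𝓜).op‖ ≤ 1 := ContinuousLinearMap.norm_id_le
  set J : Sm 𝓜 := ((sc 𝓜 Complex.I : Mc 𝓜) : Sm 𝓜) with hJ
  set J' : Sm 𝓜 := ((sc 𝓜 (star Complex.I) : Mc 𝓜) : Sm 𝓜) with hJ'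
  have hsJ : sst J = J' := by rw [hJ, s1, star_sc]
  have hJJ : J' * J = 1 := by rw [hJ, hJ', coe_sc_mul, I1, coe_sc_one]
  have hJc : ∀ η : Sm 𝓜, J * η = η * J := fun η => cen _ η
  have hJc' : ∀ η : Sm 𝓜, J' * η = η * J' := fun η => cen _ η
  -- the four quantities
  set T : ℝ≥0∞ := orl Phi (sst a * a) + orl Phi (sst b * b) + c + c' with hT
  set X : Sm 𝓜 := (g : Sm 𝓜) * (ξn N - ξn 0) * (g : Sm 𝓜) with hX
  have hR : orl Phi (X + sst X) ≤ ENNReal.ofReal C * T :=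
    hre H 𝓜 hMT F ξ ξn hξ hCE a b y ha hb hy hdif z z' K K' c c' hz hz' hc hc' N g hg hg0 hgt
  have hcontr : ∀ (u : Mc 𝓜) (η : Sm 𝓜), ‖u.op‖ ≤ 1 → orl Phi ((u : Sm 𝓜) * η) ≤ orl Phi η := by
    intro u η hu
    have := o4 η u 1 hu h1n
    rwa [UniformSpace.Completion.coe_one, mul_one] at this
  -- the data multiplied by `i`
  have hR' : orl Phi (J * X + sst (J * X)) ≤ ENNReal.ofReal C * T := by
    have e1 : sst (J * a) * (J * a) = sst a * a := by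
      rw [s4, hsJ, mul_assoc, ← mul_assoc J' J a, hJJ, one_mul]
    have e2 : (g : Sm 𝓜) * (J * ξn N - J * ξn 0) * (g : Sm 𝓜) = J * X := by
      rw [hX, ← mul_sub, ← mul_assoc, ← hJc, mul_assoc, mul_assoc, mul_assoc]
    have e3 : dif (fun n => J * ξn n) = fun n => J * dif ξn n := by
      funext n
      unfold dif
      split_ifs
      · rfl
      · show J * ξn n - J * ξn (n - 1) = _
        rw [mul_sub]
    have e4 : dif (fun n => sst (J * ξn n)) = fun n => J' * dif (fun n => sst (ξn n)) n := by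
      funext n
      have e : ∀ m, sst (J * ξn m) = J' * sst (ξn m) := fun m => by rw [s4, hsJ, hJc']
      unfold dif
      split_ifs
      · exact e 0
      · show sst (J * ξn n) - sst (J * ξn (n - 1)) = _
        rw [e, e, mul_sub]
    have key := hre H 𝓜 hMT F (J * ξ) (fun n => J * ξn n) ?_ ?_ (J * a) b y ?_ hb hy ?_
      (fun k => sc 𝓜 Complex.I * z k) (fun k => sc 𝓜 (star Complex.I) * z' k) K K' c c' ?_ ?_ ?_ ?_
      N g hg hg0 hgt
    · rw [e1] at key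
      simp only [e2] at key
      exact key
    · rw [o5] at hξ ⊢
      exact lt_of_le_of_lt (hcontr _ _ hnI) hξ
    · intro n
      obtain ⟨w, hw1, hw2⟩ := hCE n
      refine ⟨fun k => sc 𝓜 Complex.I * w k, ?_, ?_⟩
      · refine tendsto_of_tendsto_of_tendsto_of_le_of_le tendsto_const_nhds hw1
          (fun _ => zero_le) (fun k => ?_)
        show orl Phi (J * ξ - ((sc 𝓜 Complex.I * w k : Mc 𝓜) : Sm 𝓜)) ≤ _
        rw [UniformSpace.Completion.coe_mul, ← hJ, ← mul_sub]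
        exact hcontr _ _ hnI
      · refine tendsto_of_tendsto_of_tendsto_of_le_of_le tendsto_const_nhds hw2
          (fun _ => zero_le) (fun k => ?_)
        show orl Phi (J * ξn n - ((F.E n (sc 𝓜 Complex.I * w k) : Mc 𝓜) : Sm 𝓜)) ≤ _
        rw [E_sc, UniformSpace.Completion.coe_mul, ← hJ, ← mul_sub]
        exact hcontr _ _ hnI
    · rw [e1]; exact ha
    · intro n
      rw [e3]
      show J * dif ξn n = _
      rw [hdif n, mul_assoc, mul_assoc, mul_assoc]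
    · rw [e3]
      exact capprox_sc hz I1
    · rw [e4]
      exact capprox_sc hz' I2
    · refine hc.congr fun k => ?_
      rw [bsc_sc F Phi _ I1]
    · refine hc'.congr fun k => ?_
      rw [bsc_sc F Phi _ I2]
  -- the first term
  have h0 : orl Phi ((g : Sm 𝓜) * ξn 0 * (g : Sm 𝓜)) ≤ T := by
    have hgn : ‖g.op‖ ≤ 1 := IsStarProjection.norm_le g.op hg
    have hlim : Filter.Tendsto (fun k => (g : Sm 𝓜) * ((F.E 0 (z k) : Mc 𝓜) : Sm 𝓜) * (g : Sm 𝓜))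
        Filter.atTop (𝓝 ((g : Sm 𝓜) * ξn 0 * (g : Sm 𝓜))) := by
      have := hz.lim 0 g hg hg0 hgt
      have e5 : dif ξn 0 = ξn 0 := by simp [dif]
      rw [e5] at this
      refine this.congr fun k => ?_
      simp [dif]
    have hfat := h5 H 𝓜 hMT Phi hG.cont hG.mono (le_of_eq hG.zero.symm) _ _ hlim
    refine hfat.trans ?_
    have hle : Filter.liminf (fun k => orl Phi ((g : Sm 𝓜) * ((F.E 0 (z k) : Mc 𝓜) : Sm 𝓜)
          * (g : Sm 𝓜))) Filter.atTop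
        ≤ Filter.liminf (fun k => bsc F Phi (K k) (z k)) Filter.atTop :=
      Filter.liminf_le_liminf (Filter.Eventually.of_forall fun k =>
        (o4 _ g g hgn hgn).trans (orl_E0 h2 h3 h8 hMT hG F (K k) (z k)))
    refine hle.trans ?_
    rw [hc.liminf_eq, hT]
    exact le_trans le_add_self le_self_add
  -- assembly
  have hXdec : X = ((sc 𝓜 (1 / 2) : Mc 𝓜) : Sm 𝓜) * (X + sst X)
      + ((sc 𝓜 (-Complex.I / 2) : Mc 𝓜) : Sm 𝓜) * (J * X + sst (J * X)) := by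
    have e6 : sst (J * X) = J' * sst X := by rw [s4, hsJ, hJc']
    rw [e6]
    clear_value X
    rw [mul_add, mul_add, ← mul_assoc _ J X, ← mul_assoc _ J' (sst X), hJ, hJ', coe_sc_mul,
      coe_sc_mul]
    have e7 : -Complex.I / 2 * Complex.I = 1 / 2 := by
      have := Complex.I_mul_I
      linear_combination (-1 / 2) * this
    have e8 : -Complex.I / 2 * star Complex.I = -(1 / 2) := by
      have := Complex.I_mul_I
      have h9 : star Complex.I = -Complex.I := Complex.conj_I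
      rw [h9]
      linear_combination (1 / 2) * this
    rw [e7, e8, coe_sc_neg]
    have e9 : ((sc 𝓜 (1 / 2) : Mc 𝓜) : Sm 𝓜) * X + ((sc 𝓜 (1 / 2) : Mc 𝓜) : Sm 𝓜) * X = X := by
      rw [← add_mul, coe_sc_add]
      have : (1 / 2 + 1 / 2 : ℂ) = 1 := by norm_num
      rw [this, coe_sc_one, one_mul]
    calc X = ((sc 𝓜 (1 / 2) : Mc 𝓜) : Sm 𝓜) * X + ((sc 𝓜 (1 / 2) : Mc 𝓜) : Sm 𝓜) * X := e9.symm
      _ = _ := by
        rw [neg_mul]
        abel
  have hXle : orl Phi X ≤ ENNReal.ofReal K0 * (ENNReal.ofReal C * T + ENNReal.ofReal C * T) := by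
    rw [hXdec]
    refine (o1 _ _).trans ?_
    gcongr
    · exact (hcontr _ _ ((norm_sc _).trans (by norm_num))).trans hR
    · exact (hcontr _ _ ((norm_sc _).trans (by simp; norm_num))).trans hR'
  have hfin : (g : Sm 𝓜) * ξn N * (g : Sm 𝓜) = X + (g : Sm 𝓜) * ξn 0 * (g : Sm 𝓜) := by
    rw [hX, mul_sub, sub_mul]
    abel
  rw [hfin]
  refine (o1 _ _).trans ?_
  calc ENNReal.ofReal K0 * (orl Phi X + orl Phi ((g : Sm 𝓜) * ξn 0 * (g : Sm 𝓜)))
      ≤ ENNReal.ofReal K0 * (ENNReal.ofReal K0 * (ENNReal.ofReal C * T + ENNReal.ofReal C * T)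
          + T) := by gcongr
    _ = ENNReal.ofReal (K0 * (K0 * (C + C) + 1)) * T := by
        rw [ENNReal.ofReal_mul hK0.le, ENNReal.ofReal_add (by positivity) zero_le_one,
          ENNReal.ofReal_mul hK0.le, ENNReal.ofReal_add hC.le hC.le, ENNReal.ofReal_one]
        ring

end MDB
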