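import Pool.Agent.MDB.Targets2
import Pool.Agent.MDB.Targets

/-!
# The inequality for the real part in a finite corner
-/

open scoped ENNReal NNReal Topology
open Finset

namespace MDB

open Mc

universe u

namespace H_E_R2re

section algebra

variable {H : Type u} [NormedAddCommGroup H] [InnerProductSpace ℂ H] [CompleteSpace H]
  {𝓜 : TVN H}

lemma op_add (x y : Mc 𝓜) : (x + y).op = x.op + y.op := rfl
lemma op_sub (x y : Mc 𝓜) : (x - y).op = x.op - y.op := rfl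
lemma op_neg (x : Mc 𝓜) : (-x).op = -x.op := rfl
lemma op_mul (x y : Mc 𝓜) : (x * y).op = x.op * y.op := rfl
lemma op_star (x : Mc 𝓜) : (star x).op = star x.op := rfl
lemma op_one : (1 : Mc 𝓜).op = 1 := rfl
lemma op_zero : (0 : Mc 𝓜).op = 0 := rfl
lemma op_inj {x y : Mc 𝓜} (h : x.op = y.op) : x = y := Subtype.ext h
lemma op_mem (x : Mc 𝓜) : x.op ∈ 𝓜.M := x.2

/-- `op` as an additive homomorphism -/
def opH : Mc 𝓜 →+ (H →L[ℂ] H) where
  toFun := op
  map_zero' := rfl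
  map_add' _ _ := rfl

lemma op_sum {ι : Type*} (s : Finset ι) (f : ι → Mc 𝓜) :
    (∑ i ∈ s, f i).op = ∑ i ∈ s, (f i).op := map_sum (opH (𝓜 := 𝓜)) f s

lemma isP_star {g : Mc 𝓜} (hg : IsP g) : star g = g := by
  apply op_inj
  rw [op_star]
  exact hg.isSelfAdjoint.star_eq

lemma isP_mul {g : Mc 𝓜} (hg : IsP g) : g * g = g := by
  apply op_inj
  rw [op_mul]
  exact hg.isIdempotentElem

lemma isP_norm {g : Mc 𝓜} (hg : IsP g) : ‖g.op‖ ≤ 1 := hg.norm_le

lemma conj_le {x y : Mc 𝓜} (h : x.op ≤ y.op) (c : Mc 𝓜) :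
    (star c * x * c).op ≤ (star c * y * c).op := by
  simp only [op_mul, op_star]
  exact star_left_conjugate_le_conjugate h _

lemma conj_le' {x y g : Mc 𝓜} (h : x.op ≤ y.op) (hg : IsP g) :
    (g * x * g).op ≤ (g * y * g).op := by
  have := conj_le h g
  rwa [isP_star hg] at this

lemma sq_nonneg' (x : Mc 𝓜) : 0 ≤ (star x * x).op := by
  rw [op_mul, op_star]
  exact star_mul_self_nonneg _

lemma sq_nonneg'' (x : Mc 𝓜) : 0 ≤ (x * star x).op := by
  rw [op_mul, op_star]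
  exact mul_star_self_nonneg _

/-- `a y b + (a y b)* ≤ a a* + b* b` -/
lemma fact_le (a y b : Mc 𝓜) (hy : ‖y.op‖ ≤ 1) :
    (a * y * b + star (a * y * b)).op ≤ (a * star a + star b * b).op := by
  have h1 : 0 ≤ (star (star a - y * b) * (star a - y * b)).op := sq_nonneg' _
  have h2 : (star (y * b) * (y * b)).op ≤ (star b * b).op := by
    have h3 : star y.op * y.op ≤ 1 := by
      have h4 : IsSelfAdjoint (star y.op * y.op) := IsSelfAdjoint.star_mul_self _
      have h5 := h4.le_algebraMap_norm_self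
      have h6 : ‖star y.op * y.op‖ ≤ 1 := by
        rw [CStarRing.norm_star_mul_self]
        nlinarith [norm_nonneg y.op]
      refine h5.trans ?_
      have : algebraMap ℝ (H →L[ℂ] H) ‖star y.op * y.op‖ ≤ algebraMap ℝ (H →L[ℂ] H) 1 :=
        algebraMap_mono _ h6
      simpa using this
    have h5 := star_left_conjugate_le_conjugate h3 b.op
    simp only [op_mul, op_star, star_mul]
    calc star b.op * star y.op * (y.op * b.op) = star b.op * (star y.op * y.op) * b.op := by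
          noncomm_ring
      _ ≤ star b.op * 1 * b.op := h5
      _ = star b.op * b.op := by rw [mul_one]
  have h3 : (star (star a - y * b) * (star a - y * b)).op
      = (a * star a).op + (star (y * b) * (y * b)).op - (a * y * b + star (a * y * b)).op := by
    simp only [op_mul, op_star, op_add, op_sub, star_mul, star_sub, star_star]
    noncomm_ring
  rw [h3] at h1
  have h4 : (a * y * b + star (a * y * b)).op ≤ (a * star a).op + (star (y * b) * (y * b)).op := by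
    exact sub_nonneg.mp h1
  refine h4.trans ?_
  rw [op_add]
  exact add_le_add le_rfl h2

lemma fact_le' (a y b : Mc 𝓜) (hy : ‖y.op‖ ≤ 1) :
    -(a * star a + star b * b).op ≤ (a * y * b + star (a * y * b)).op := by
  have h := fact_le a (-y) b (by rw [op_neg, norm_neg]; exact hy)
  have h2 : (a * -y * b + star (a * -y * b)).op = -(a * y * b + star (a * y * b)).op := by
    simp only [op_mul, op_star, op_add, op_neg, star_mul, star_neg]
    noncomm_ring
  rw [h2] at h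
  exact neg_le.mp h

end algebra

section growth

lemma gr_nonneg {Phi : ℝ → ℝ} {p1 q1 C0 : ℝ} (hG : Gr Phi p1 q1 C0) {s : ℝ} (hs : 0 ≤ s) :
    0 ≤ Phi s := by
  rcases hs.eq_or_lt with rfl | h
  · rw [hG.zero]
  · exact (hG.pos s h).le

lemma gr_pow {p : ℝ} (hp : 0 < p) : Gr (fun s : ℝ => s ^ p) p p 1 where
  cont := by
    intro x hx
    exact (Real.continuousAt_rpow_const x p (Or.inr hp.le)).continuousWithinAt
  mono := by
    intro x hx y hy h
    exact Real.rpow_le_rpow hx h hp.le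
  zero := by simp [hp.ne']
  pos := fun s hs => Real.rpow_pos_of_pos hs p
  low := by
    intro s hs r hr hr1
    simp only [one_mul]
    rw [Real.mul_rpow hr.le hs.le]
  up := by
    intro s hs r hr
    simp only [one_mul]
    rw [Real.mul_rpow (by linarith) hs.le]

lemma gr_sqrt {Phi : ℝ → ℝ} {p1 q1 C0 : ℝ} (hG : Gr Phi p1 q1 C0) :
    Gr (fun s : ℝ => Phi (Real.sqrt s)) (p1 / 2) (q1 / 2) C0 where
  cont := by
    refine ContinuousOn.comp hG.cont Real.continuous_sqrt.continuousOn ?_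
    intro x hx
    exact Real.sqrt_nonneg x
  mono := by
    intro x hx y hy h
    exact hG.mono (Real.sqrt_nonneg x) (Real.sqrt_nonneg y) (Real.sqrt_le_sqrt h)
  zero := by simp [hG.zero]
  pos := fun s hs => hG.pos _ (Real.sqrt_pos.mpr hs)
  low := by
    intro s hs r hr hr1
    have h := hG.low (Real.sqrt s) (Real.sqrt_pos.mpr hs) (Real.sqrt r) (Real.sqrt_pos.mpr hr)
      (Real.sqrt_le_one.mpr hr1)
    rw [Real.sqrt_mul hr.le]
    refine h.trans (le_of_eq ?_)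
    rw [Real.sqrt_eq_rpow r, ← Real.rpow_mul hr.le]
    congr 3
    ring
  up := by
    intro s hs r hr
    have h := hG.up (Real.sqrt s) (Real.sqrt_pos.mpr hs) (Real.sqrt r)
      (Real.one_le_sqrt.mpr hr)
    rw [Real.sqrt_mul (by linarith)]
    refine h.trans (le_of_eq ?_)
    rw [Real.sqrt_eq_rpow r, ← Real.rpow_mul (by linarith)]
    congr 3
    ring

/-- `s ^ p ≤ del ^ p + C Phi s` -/
lemma pow_le_phi {Phi : ℝ → ℝ} {p1 q1 C0 p : ℝ} (hG : Gr Phi p1 q1 C0) (hp : 0 < p) (hp1 : p ≤ p1)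
    {del : ℝ} (hd : 0 < del) :
    ∃ C : ℝ, 0 ≤ C ∧ ∀ s, 0 ≤ s → s ^ p ≤ del ^ p + C * Phi s := by
  have h1 := hG.pos 1 one_pos
  have h2 := hG.pos del hd
  have hC0 : 0 ≤ C0 := by
    have := hG.low 1 one_pos 1 one_pos le_rfl
    simp only [mul_one, Real.one_rpow] at this
    by_contra hc
    push Not at hc
    nlinarith
  refine ⟨C0 / Phi 1 + 1 / Phi del, by positivity, fun s hs => ?_⟩
  have hPs := gr_nonneg hG hs
  rcases le_total s del with h | h
  · have h3 : s ^ p ≤ del ^ p := Real.rpow_le_rpow hs h hp.le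
    have h4 : 0 ≤ (C0 / Phi 1 + 1 / Phi del) * Phi s := by positivity
    linarith
  · have h5 : 0 ≤ del ^ p := by positivity
    rcases le_total s 1 with h6 | h6
    · have h7 : s ^ p ≤ 1 := Real.rpow_le_one hs h6 hp.le
      have h8 : Phi del ≤ Phi s := hG.mono hd.le hs h
      have h9 : 1 ≤ (1 / Phi del) * Phi s := by
        rw [one_div, ← div_eq_inv_mul, le_div_iff₀ h2]
        linarith
      have h10 : 0 ≤ C0 / Phi 1 * Phi s := by positivity
      nlinarith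
    · have hs0 : 0 < s := by linarith
      have h7 := hG.low s hs0 (1 / s) (by positivity) (by
        rw [div_le_one hs0]; exact h6)
      rw [one_div, inv_mul_cancel₀ hs0.ne'] at h7
      have h8 : s ^ p ≤ s ^ p1 := Real.rpow_le_rpow_of_exponent_le h6 hp1
      have h9 : s ^ p1 * Phi 1 ≤ C0 * Phi s := by
        have h10 : (s⁻¹) ^ p1 = (s ^ p1)⁻¹ := Real.inv_rpow hs0.le p1
        rw [h10] at h7
        have h11 : 0 < s ^ p1 := Real.rpow_pos_of_pos hs0 _
        calc s ^ p1 * Phi 1 ≤ s ^ p1 * (C0 * (s ^ p1)⁻¹ * Phi s) := by gcongr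
          _ = C0 * Phi s := by field_simp
      have h12 : s ^ p1 ≤ C0 / Phi 1 * Phi s := by
        rw [div_mul_eq_mul_div, le_div_iff₀ h1]
        exact h9
      have h13 : 0 ≤ 1 / Phi del * Phi s := by positivity
      nlinarith

/-- regularity of the dyadic model -/
lemma pj_cont (Phi : ℝ → ℝ) {p : ℝ} (hp : 0 < p) (J : ℕ) :
    Continuous (PJ Phi p J) := by
  unfold PJ
  refine continuous_finsetSum _ (fun i _ => ?_)
  refine continuous_const.mul ?_
  refine Continuous.rpow_const (by fun_prop) (fun x => Or.inr hp.le)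

lemma pj_mono {Phi : ℝ → ℝ} {p1 q1 C0 p : ℝ} (hG : Gr Phi p1 q1 C0) (hp : 0 < p) (J : ℕ) :
    Monotone (PJ Phi p J) := by
  intro x y h
  unfold PJ
  refine Finset.sum_le_sum (fun i _ => ?_)
  refine mul_le_mul_of_nonneg_left ?_ ?_
  · refine Real.rpow_le_rpow (le_max_right _ _) ?_ hp.le
    exact max_le_max (by linarith) le_rfl
  · have := gr_nonneg hG (s := (2 : ℝ) ^ i) (by positivity)
    positivity

lemma pj_zero (Phi : ℝ → ℝ) {p : ℝ} (hp : 0 < p) (J : ℕ) : PJ Phi p J 0 = 0 := by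
  unfold PJ
  refine Finset.sum_eq_zero (fun i _ => ?_)
  have h : max (0 - (2 : ℝ) ^ i) 0 = 0 := by
    apply max_eq_right
    have : (0 : ℝ) < 2 ^ i := by positivity
    linarith
  rw [h, Real.zero_rpow hp.ne', mul_zero]

lemma phi_small {Phi : ℝ → ℝ} {p1 q1 C0 : ℝ} (hG : Gr Phi p1 q1 C0) :
    Filter.Tendsto (fun J : ℕ => Phi ((2 : ℝ) ^ (-(J : ℤ)))) Filter.atTop (𝓝 0) := by
  have h1 : Filter.Tendsto (fun J : ℕ => (2 : ℝ) ^ (-(J : ℤ))) Filter.atTop (𝓝[Set.Ici 0] 0) := by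
    rw [tendsto_nhdsWithin_iff]
    constructor
    · have : (fun J : ℕ => (2 : ℝ) ^ (-(J : ℤ))) = fun J : ℕ => (1 / 2 : ℝ) ^ J := by
        funext J
        rw [zpow_neg, zpow_natCast, one_div, inv_pow]
      rw [this]
      exact tendsto_pow_atTop_nhds_zero_of_lt_one (by norm_num) (by norm_num)
    · filter_upwards with J
      simp only [Set.mem_Ici]
      positivity
  have h2 := hG.cont 0 (by simp)
  have h3 : Filter.Tendsto Phi (𝓝[Set.Ici 0] 0) (𝓝 (Phi 0)) := h2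
  rw [hG.zero] at h3
  exact h3.comp h1

end growth

section orlicz

variable {H : Type u} [NormedAddCommGroup H] [InnerProductSpace ℂ H] [CompleteSpace H]
  {𝓜 : TVN H} [UniformSpace (Mc 𝓜)] [IsTopologicalRing (Mc 𝓜)] [IsUniformAddGroup (Mc 𝓜)]

lemma orl_mono (h6 : C_mu.{u}) (hmt : IsMT 𝓜) {f : ℝ → ℝ} (hf : MonotoneOn f (Set.Ici 0))
    {ξ η : Sm 𝓜} (h : ∀ t, 0 < t → mu ξ t ≤ mu η t) : orl f ξ ≤ orl f η := by
  obtain ⟨hn, -⟩ := h6 H 𝓜 hmt
  unfold orl
  refine MeasureTheory.setLIntegral_mono' measurableSet_Ioi (fun t ht => ?_)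
  exact ENNReal.ofReal_le_ofReal (hf (hn ξ t) (hn η t) (h t ht))

/-- comparison in a finite corner -/
lemma corner_le (h6 : C_mu.{u}) (hmt : IsMT 𝓜) {Phi : ℝ → ℝ} {p1 q1 C0 p : ℝ}
    (hp : 0 < p) (hG : Gr Phi p1 q1 C0) {del C : ℝ} (hdel : 0 < del)
    (hC : 0 ≤ C) (hle : ∀ s, 0 ≤ s → s ^ p ≤ del ^ p + C * Phi s)
    {g : Mc 𝓜} (hg : IsP g) (hgt : 𝓜.tr g.op < ⊤) (η : Sm 𝓜) :
    orl (fun s => s ^ p) ((g : Sm 𝓜) * η * (g : Sm 𝓜))
      ≤ ENNReal.ofReal (del ^ p) * 𝓜.tr g.op + ENNReal.ofReal C * orl Phi η := by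
  obtain ⟨hn, -, -, -, hxy, -, -, -, hcut, -⟩ := h6 H 𝓜 hmt
  set τ : ℝ := (𝓜.tr g.op).toReal with hτ
  have hτ' : ENNReal.ofReal τ = 𝓜.tr g.op := ENNReal.ofReal_toReal hgt.ne
  have hτ0 : 0 ≤ τ := ENNReal.toReal_nonneg
  have key : ∀ t ∈ Set.Ioi (0 : ℝ),
      ENNReal.ofReal ((mu ((g : Sm 𝓜) * η * (g : Sm 𝓜)) t) ^ p)
        ≤ (Set.Ioc 0 τ).indicator (fun _ => ENNReal.ofReal (del ^ p)) t
          + ENNReal.ofReal C * ENNReal.ofReal (Phi (mu η t)) := by
    intro t ht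
    have ht' : 0 < t := ht
    by_cases htt : t ≤ τ
    · rw [Set.indicator_of_mem (show t ∈ Set.Ioc 0 τ from ⟨ht', htt⟩)]
      have h1 : mu ((g : Sm 𝓜) * η * (g : Sm 𝓜)) t ≤ mu η t := by
        refine (hxy η g g t ht').trans ?_
        have h2 := isP_norm hg
        have h3 := norm_nonneg g.op
        have h4 : ‖g.op‖ * ‖g.op‖ ≤ 1 := by nlinarith
        have h5 := hn η t
        nlinarith
      have h2 : (mu ((g : Sm 𝓜) * η * (g : Sm 𝓜)) t) ^ p ≤ (mu η t) ^ p :=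
        Real.rpow_le_rpow (hn _ _) h1 hp.le
      have h3 := hle (mu η t) (hn η t)
      rw [← ENNReal.ofReal_mul hC, ← ENNReal.ofReal_add (by positivity)
        (mul_nonneg hC (gr_nonneg hG (hn η t)))]
      exact ENNReal.ofReal_le_ofReal (h2.trans h3)
    · push Not at htt
      have h1 : 𝓜.tr g.op ≤ ENNReal.ofReal t := by
        rw [← hτ']
        exact ENNReal.ofReal_le_ofReal htt.le
      have h2 := (hcut ((g : Sm 𝓜) * η) g t hg ht' h1).2
      rw [h2, Real.zero_rpow hp.ne', ENNReal.ofReal_zero]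
      exact zero_le
  unfold orl
  calc ∫⁻ t in Set.Ioi (0 : ℝ), ENNReal.ofReal ((mu ((g : Sm 𝓜) * η * (g : Sm 𝓜)) t) ^ p)
      ≤ ∫⁻ t in Set.Ioi (0 : ℝ), ((Set.Ioc 0 τ).indicator (fun _ => ENNReal.ofReal (del ^ p)) t
          + ENNReal.ofReal C * ENNReal.ofReal (Phi (mu η t))) :=
        MeasureTheory.setLIntegral_mono' measurableSet_Ioi key
    _ = (∫⁻ t in Set.Ioi (0 : ℝ), (Set.Ioc 0 τ).indicator (fun _ => ENNReal.ofReal (del ^ p)) t)
          + ∫⁻ t in Set.Ioi (0 : ℝ), ENNReal.ofReal C * ENNReal.ofReal (Phi (mu η t)) := by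
        rw [MeasureTheory.lintegral_add_left]
        exact measurable_const.indicator measurableSet_Ioc
    _ ≤ _ := by
        refine add_le_add ?_ ?_
        · rw [MeasureTheory.lintegral_indicator measurableSet_Ioc]
          rw [MeasureTheory.setLIntegral_const]
          refine mul_le_mul_right ?_ _
          rw [MeasureTheory.Measure.restrict_apply measurableSet_Ioc]
          refine (MeasureTheory.measure_mono Set.inter_subset_left).trans ?_
          rw [Real.volume_Ioc, sub_zero, hτ']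
        · rw [MeasureTheory.lintegral_const_mul' _ _ ENNReal.ofReal_ne_top]

lemma corner_tendsto (h6 : C_mu.{u}) (hmt : IsMT 𝓜) {Phi : ℝ → ℝ} {p1 q1 C0 p : ℝ}
    (hp : 0 < p) (hp1 : p ≤ p1) (hG : Gr Phi p1 q1 C0)
    {g : Mc 𝓜} (hg : IsP g) (hgt : 𝓜.tr g.op < ⊤) (η : ℕ → Sm 𝓜)
    (hη : Filter.Tendsto (fun k => orl Phi (η k)) Filter.atTop (𝓝 0)) :
    Filter.Tendsto (fun k => orl (fun s => s ^ p) ((g : Sm 𝓜) * η k * (g : Sm 𝓜)))
      Filter.atTop (𝓝 0) := by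
  rw [ENNReal.tendsto_nhds_zero]
  intro ε hε
  have h1 : Filter.Tendsto (fun del : ℝ => ENNReal.ofReal (del ^ p) * 𝓜.tr g.op) (𝓝[>] 0)
      (𝓝 0) := by
    have h2 : Filter.Tendsto (fun del : ℝ => del ^ p) (𝓝[>] 0) (𝓝 0) := by
      have h3 : ContinuousAt (fun del : ℝ => del ^ p) 0 :=
        Real.continuousAt_rpow_const 0 p (Or.inr hp.le)
      have h4 : Filter.Tendsto (fun del : ℝ => del ^ p) (𝓝 0) (𝓝 (0 ^ p)) := h3
      rw [Real.zero_rpow hp.ne'] at h4
      exact h4.mono_left nhdsWithin_le_nhds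
    have h5 : Filter.Tendsto (fun del : ℝ => ENNReal.ofReal (del ^ p)) (𝓝[>] 0) (𝓝 0) := by
      have := ENNReal.tendsto_ofReal h2
      rwa [ENNReal.ofReal_zero] at this
    have h6 := ENNReal.Tendsto.mul_const (b := 𝓜.tr g.op) h5 (Or.inr hgt.ne)
    rwa [zero_mul] at h6
  rw [ENNReal.tendsto_nhds_zero] at h1
  have hε2 : 0 < ε / 2 := ENNReal.div_pos hε.ne' (by norm_num)
  obtain ⟨del, hdel1, hdel⟩ := ((h1 (ε / 2) hε2).and self_mem_nhdsWithin).exists
  have hdel0 : 0 < del := hdel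
  obtain ⟨C, hC, hle⟩ := pow_le_phi hG hp hp1 hdel0
  have h7 : Filter.Tendsto (fun k => ENNReal.ofReal C * orl Phi (η k)) Filter.atTop (𝓝 0) := by
    have := ENNReal.Tendsto.const_mul (a := ENNReal.ofReal C) hη (Or.inr ENNReal.ofReal_ne_top)
    rwa [mul_zero] at this
  rw [ENNReal.tendsto_nhds_zero] at h7
  filter_upwards [h7 (ε / 2) hε2] with k hk
  refine (corner_le h6 hmt hp hG hdel0 hC hle hg hgt (η k)).trans ?_
  calc _ ≤ ε / 2 + ε / 2 := add_le_add hdel1 hk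
    _ = ε := ENNReal.add_halves ε

lemma mu_le_of_sq (h12 : C_ball.{u}) (h13 : A_tr.{u}) (hmt : IsMT 𝓜)
    {x y : Mc 𝓜} (h : (star x * x).op ≤ (star y * y).op) (t : ℝ) :
    mu (x : Sm 𝓜) t ≤ mu (y : Sm 𝓜) t := by
  obtain ⟨hinj, -⟩ := h12 H 𝓜 hmt
  obtain ⟨ht0, -⟩ := h13 H 𝓜
  unfold mu
  refine le_csInf ?_ ?_
  · refine ⟨‖y.op‖, 1, y, ?_, ?_, ?_, rfl⟩
    · exact IsStarProjection.one _
    · rw [sub_self, op_zero, ht0]
      exact zero_le
    · rw [← UniformSpace.Completion.coe_mul, mul_one]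
  · rintro lam ⟨e, y', he, het, hey, rfl⟩
    rw [← UniformSpace.Completion.coe_mul] at hey
    have hy' := hinj _ _ hey
    have hbd : BddBelow {lam : ℝ | ∃ e y : Mc 𝓜, IsP e ∧ 𝓜.tr (1 - e).op ≤ ENNReal.ofReal t ∧
        (x : Sm 𝓜) * (e : Sm 𝓜) = (y : Sm 𝓜) ∧ ‖y.op‖ = lam} := by
      refine ⟨0, ?_⟩
      rintro _ ⟨_, _, _, _, _, rfl⟩
      exact norm_nonneg _
    refine (csInf_le hbd ⟨e, x * e, he, het, ?_, rfl⟩).trans ?_
    · rw [← UniformSpace.Completion.coe_mul]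
    · rw [← hy']
      have h1 : (star (x * e) * (x * e)).op ≤ (star (y * e) * (y * e)).op := by
        have := conj_le h e
        have e1 : star (x * e) * (x * e) = star e * (star x * x) * e := by
          rw [star_mul]; noncomm_ring
        have e2 : star (y * e) * (y * e) = star e * (star y * y) * e := by
          rw [star_mul]; noncomm_ring
        rw [e1, e2]
        exact this
      have h2 : ‖(star (x * e) * (x * e)).op‖ ≤ ‖(star (y * e) * (y * e)).op‖ :=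
        CStarAlgebra.norm_le_norm_of_nonneg_of_le (sq_nonneg' _) h1
      rw [op_mul (star (x * e)), op_mul (star (y * e)), op_star, op_star,
        CStarRing.norm_star_mul_self, CStarRing.norm_star_mul_self] at h2
      exact (mul_self_le_mul_self_iff (norm_nonneg _) (norm_nonneg _)).mpr h2

omit [UniformSpace (Mc 𝓜)] [IsTopologicalRing (Mc 𝓜)] [IsUniformAddGroup (Mc 𝓜)] in
lemma exists_sqrt (h14 : A_cfc.{u}) {B : Mc 𝓜} (hB : 0 ≤ B.op) :
    ∃ x : Mc 𝓜, star x * x = B := by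
  have hs : IsSelfAdjoint B.op := IsSelfAdjoint.of_nonneg hB
  refine ⟨Mc.mk (cfc Real.sqrt B.op) (h14 H 𝓜.M B.op Real.sqrt (op_mem B)), ?_⟩
  apply op_inj
  rw [op_mul, op_star]
  have h1 : IsSelfAdjoint (cfc Real.sqrt B.op) := cfc_predicate _ _
  change star (cfc Real.sqrt B.op) * cfc Real.sqrt B.op = B.op
  rw [h1.star_eq, ← cfc_mul Real.sqrt Real.sqrt B.op]
  have h2 : cfc (fun x : ℝ => Real.sqrt x * Real.sqrt x) B.op = cfc (fun x : ℝ => x) B.op := by
    refine cfc_congr (fun x hx => ?_)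
    have h3 : 0 ≤ x := spectrum_nonneg_of_nonneg hB hx
    exact Real.mul_self_sqrt h3
  rw [h2, cfc_id' ℝ B.op]

lemma mu_mono (h7 : C_layer.{u}) (h12 : C_ball.{u}) (h13 : A_tr.{u}) (h14 : A_cfc.{u})
    (hmt : IsMT 𝓜) (h6 : C_mu.{u}) {B D : Mc 𝓜} (hB : 0 ≤ B.op) (hBD : B.op ≤ D.op) (t : ℝ)
    (ht : 0 < t) : mu (B : Sm 𝓜) t ≤ mu (D : Sm 𝓜) t := by
  obtain ⟨x, hx⟩ := exists_sqrt h14 hB
  obtain ⟨y, hy⟩ := exists_sqrt h14 (hB.trans hBD)
  obtain ⟨-, -, h3⟩ := h7 H 𝓜 hmt (fun s => s) continuousOn_id monotoneOn_id rfl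
  obtain ⟨hn, -⟩ := h6 H 𝓜 hmt
  have h4 := mu_le_of_sq h12 h13 hmt (x := x) (y := y) (by rw [hx, hy]; exact hBD) t
  have h5 := h3 x t ht
  have h6 := h3 y t ht
  rw [hx] at h5
  rw [hy] at h6
  rw [h5, h6]
  exact pow_le_pow_left₀ (hn _ _) h4 2

/-- trace of `f |x|` for a self-adjoint element -/
lemma tr_abs (h7 : C_layer.{u}) (hmt : IsMT 𝓜) {f : ℝ → ℝ} (hc : ContinuousOn f (Set.Ici 0))
    (hm : MonotoneOn f (Set.Ici 0)) (h0 : f 0 = 0) {x : Mc 𝓜} (hx : star x = x) :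
    𝓜.tr (cfc (fun s : ℝ => f |s|) x.op) = orl f (x : Sm 𝓜) := by
  obtain ⟨-, h2, -⟩ := h7 H 𝓜 hmt f hc hm h0
  rw [← h2 x]
  unfold bph
  congr 1
  rw [hx, op_mul]
  have hsa : IsSelfAdjoint x.op := by
    have := congrArg op hx
    rwa [op_star] at this
  have h3 : x.op * x.op = cfc (fun s : ℝ => s * s) x.op := by
    rw [cfc_mul (fun s : ℝ => s) (fun s : ℝ => s) x.op, cfc_id' ℝ x.op]
  have h4 : ContinuousOn (fun s => f (Real.sqrt s)) ((fun s => s * s) '' spectrum ℝ x.op) := by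
    refine ContinuousOn.comp hc (Real.continuous_sqrt.continuousOn) ?_
    intro s hs
    exact Real.sqrt_nonneg s
  rw [h3, ← cfc_comp' (fun s : ℝ => f (Real.sqrt s)) (fun s : ℝ => s * s) x.op h4]
  refine cfc_congr (fun s hs => ?_)
  simp only [Real.sqrt_mul_self_eq_abs]

/-- squares of truncated factors -/
lemma orl_fact (h6 : C_mu.{u}) (h7 : C_layer.{u}) (hmt : IsMT 𝓜) {Phi : ℝ → ℝ}
    (hm : MonotoneOn Phi (Set.Ici 0)) (b : Sm 𝓜) (β : Mc 𝓜) (e f : Mc 𝓜) (he : IsP e)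
    (hf : IsP f) (hβ : (e : Sm 𝓜) * b * (f : Sm 𝓜) = (β : Sm 𝓜)) :
    orl Phi ((star β * β : Mc 𝓜) : Sm 𝓜) ≤ orl Phi (sst b * b) := by
  refine orl_mono h6 hmt hm (fun t ht => ?_)
  obtain ⟨-, -, h3⟩ := h7 H 𝓜 hmt (fun s => s) continuousOn_id monotoneOn_id rfl
  obtain ⟨hn, -, -, -, hxy, -, -, -, -, hsq, -⟩ := h6 H 𝓜 hmt
  rw [h3 β t ht]
  refine le_trans ?_ (hsq b t ht)
  refine pow_le_pow_left₀ (hn _ _) ?_ 2
  rw [← hβ]
  refine (hxy b e f t ht).trans ?_
  have h4 := isP_norm he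
  have h5 := isP_norm hf
  have h6 : ‖e.op‖ * ‖f.op‖ ≤ 1 := by nlinarith [norm_nonneg e.op, norm_nonneg f.op]
  have h7 := hn b t
  nlinarith

end orlicz

section square

variable {H : Type u} [NormedAddCommGroup H] [InnerProductSpace ℂ H] [CompleteSpace H]
  {𝓜 : TVN H} (F : Filtr 𝓜)

lemma mem_N {g : Mc 𝓜} (hg0 : g.op ∈ F.N 0) (n : ℕ) : g.op ∈ F.N n := F.mono 0 n (Nat.zero_le n) hg0

lemma E_conj {g : Mc 𝓜} (hg0 : g.op ∈ F.N 0) (n : ℕ) (x : Mc 𝓜) :
    F.E n (g * x * g) = g * F.E n x * g :=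
  F.E_bimod n g x g (mem_N F hg0 n) (mem_N F hg0 n)

/-- the differences of the martingale of `z` -/
noncomputable def du (z : Mc 𝓜) (n : ℕ) : Mc 𝓜 := dif (fun m => F.E m z) (n + 1)

lemma du_eq (z : Mc 𝓜) (n : ℕ) : du F z n = F.E (n + 1) z - F.E n z := by
  unfold du dif
  simp

lemma sum_le_sc2 (h10 : A_E.{u}) (z : Mc 𝓜) (K N : ℕ) (hz : F.E K z = z) :
    (∑ n ∈ range N, F.E n (star (du F z n) * du F z n)).op ≤ (sc2 F K z).op := by
  obtain ⟨-, -, -, h4, -⟩ := h10 H 𝓜 F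
  set φ : ℕ → (H →L[ℂ] H) := fun n => (F.E n (star (du F z n) * du F z n)).op with hφ
  have hφ0 : ∀ n, 0 ≤ φ n := fun n => F.E_nonneg n _ (sq_nonneg' _)
  have hφK : ∀ n, K ≤ n → φ n = 0 := by
    intro n hn
    have h1 : F.E n z = z := by
      have := h4 K n z hn
      rwa [hz] at this
    have h2 : F.E (n + 1) z = z := by
      have := h4 K (n + 1) z (by omega)
      rwa [hz] at this
    simp only [hφ]
    rw [du_eq, h1, h2, sub_self, mul_zero, map_zero, op_zero]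
  have hsc : (sc2 F K z).op = (∑ n ∈ range K, φ n) + (F.E 0 (star (F.E 0 z) * F.E 0 z)).op := by
    unfold sc2
    rw [Finset.sum_range_succ', op_add, op_sum]
    simp only [hφ]
    congr 1
  rw [hsc, op_sum]
  have h1 : ∑ n ∈ range N, φ n = ∑ n ∈ (range N).filter (fun n => n < K), φ n := by
    rw [Finset.sum_filter]
    refine Finset.sum_congr rfl (fun n _ => ?_)
    split_ifs with h
    · rfl
    · exact hφK n (by omega)
  have h2 : ∑ n ∈ (range N).filter (fun n => n < K), φ n ≤ ∑ n ∈ range K, φ n := by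
    refine Finset.sum_le_sum_of_subset_of_nonneg ?_ (fun n _ _ => hφ0 n)
    intro n hn
    rw [Finset.mem_filter] at hn
    exact Finset.mem_range.mpr hn.2
  calc ∑ n ∈ range N, φ n ≤ ∑ n ∈ range K, φ n := by rw [h1]; exact h2
    _ ≤ _ := le_add_of_nonneg_right (F.E_nonneg 0 _ (sq_nonneg' _))

lemma sq_add_le (x y : Mc 𝓜) :
    (star (x + y) * (x + y)).op
      ≤ ((star x * x + star y * y) + (star x * x + star y * y)).op := by
  have h := sq_nonneg' (x - y)
  have h1 : ((star x * x + star y * y) + (star x * x + star y * y)).op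
      = (star (x + y) * (x + y)).op + (star (x - y) * (x - y)).op := by
    rw [← op_add]
    congr 1
    simp only [star_add, star_sub]
    noncomm_ring
  rw [h1]
  exact le_add_of_nonneg_right h

lemma sq_corner_le {g : Mc 𝓜} (hg : IsP g) (x : Mc 𝓜) :
    (star (g * x * g) * (g * x * g)).op ≤ (g * (star x * x) * g).op := by
  have h1 : star (g * x * g) * (g * x * g) = g * (star x * g * x) * g := by
    simp only [star_mul, isP_star hg]
    have := isP_mul hg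
    calc g * (star x * g) * (g * x * g) = g * star x * (g * g) * x * g := by noncomm_ring
      _ = g * (star x * g * x) * g := by rw [this]; noncomm_ring
  rw [h1]
  refine conj_le' ?_ hg
  have h2 : g.op ≤ (1 : Mc 𝓜).op := by
    rw [op_one]
    exact hg.le_one
  have h3 := conj_le h2 x
  rwa [mul_one] at h3

lemma zsum_le (h10 : A_E.{u}) {g : Mc 𝓜} (hg : IsP g) (hg0 : g.op ∈ F.N 0)
    (z z' : Mc 𝓜) (K K' N : ℕ) (hz : F.E K z = z) (hz' : F.E K' z' = z') :
    (∑ n ∈ range N, F.E n (star (g * (du F z n + du F z' n) * g)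
        * (g * (du F z n + du F z' n) * g))).op
      ≤ (g * ((sc2 F K z + sc2 F K' z') + (sc2 F K z + sc2 F K' z')) * g).op := by
  obtain ⟨-, -, -, -, -, h6, -⟩ := h10 H 𝓜 F
  have h1 : ∀ n, (F.E n (star (g * (du F z n + du F z' n) * g)
        * (g * (du F z n + du F z' n) * g))).op
      ≤ (g * ((F.E n (star (du F z n) * du F z n) + F.E n (star (du F z' n) * du F z' n))
        + (F.E n (star (du F z n) * du F z n) + F.E n (star (du F z' n) * du F z' n))) * g).op := by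
    intro n
    have h2 := (sq_corner_le hg (du F z n + du F z' n)).trans
      (conj_le' (sq_add_le (du F z n) (du F z' n)) hg)
    have h3 := h6 n _ _ h2
    rw [E_conj F hg0] at h3
    simpa only [map_add] using h3
  have h2 : (∑ n ∈ range N, F.E n (star (g * (du F z n + du F z' n) * g)
        * (g * (du F z n + du F z' n) * g))).op
      ≤ (g * (((∑ n ∈ range N, F.E n (star (du F z n) * du F z n))
        + (∑ n ∈ range N, F.E n (star (du F z' n) * du F z' n)))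
        + ((∑ n ∈ range N, F.E n (star (du F z n) * du F z n))
        + (∑ n ∈ range N, F.E n (star (du F z' n) * du F z' n)))) * g).op := by
    rw [op_sum]
    refine (Finset.sum_le_sum (fun n _ => h1 n)).trans (le_of_eq ?_)
    rw [← op_sum]
    congr 1
    rw [← Finset.sum_mul, ← Finset.mul_sum]
    simp only [Finset.sum_add_distrib]
  refine h2.trans (conj_le' ?_ hg)
  have h3 := sum_le_sc2 F h10 z K N hz
  have h4 := sum_le_sc2 F h10 z' K' N hz'
  simp only [op_add]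
  exact add_le_add (add_le_add h3 h4) (add_le_add h3 h4)

lemma sc2_nonneg (z : Mc 𝓜) (K : ℕ) : 0 ≤ (sc2 F K z).op := by
  unfold sc2
  rw [op_sum]
  exact Finset.sum_nonneg (fun n _ => F.E_nonneg _ _ (sq_nonneg' _))

end square

section bounds

variable {H : Type u} [NormedAddCommGroup H] [InnerProductSpace ℂ H] [CompleteSpace H]
  {𝓜 : TVN H} [UniformSpace (Mc 𝓜)] [IsTopologicalRing (Mc 𝓜)] [IsUniformAddGroup (Mc 𝓜)]

/-- the trace of the square function part -/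
lemma tr_z (h6 : C_mu.{u}) (h7 : C_layer.{u}) (h10 : A_E.{u}) (h12 : C_ball.{u})
    (h13 : A_tr.{u}) (h14 : A_cfc.{u}) (hmt : IsMT 𝓜) {Phi : ℝ → ℝ} {p1 q1 C0 : ℝ}
    (hG : Gr Phi p1 q1 C0) {K2 : ℝ} (hK2 : 0 < K2)
    (hadd : ∀ ξ η : Sm 𝓜, orl (fun s => Phi (Real.sqrt s)) (ξ + η)
      ≤ ENNReal.ofReal K2 * (orl (fun s => Phi (Real.sqrt s)) ξ
        + orl (fun s => Phi (Real.sqrt s)) η))
    (hctr : ∀ (ξ : Sm 𝓜) (x y : Mc 𝓜), ‖x.op‖ ≤ 1 → ‖y.op‖ ≤ 1 →
        orl (fun s => Phi (Real.sqrt s)) ((x : Sm 𝓜) * ξ * (y : Sm 𝓜))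
          ≤ orl (fun s => Phi (Real.sqrt s)) ξ)
    (F : Filtr 𝓜) {g : Mc 𝓜} (hg : IsP g) (hg0 : g.op ∈ F.N 0)
    (z z' : Mc 𝓜) (K K' N : ℕ) (hz : F.E K z = z) (hz' : F.E K' z' = z') :
    𝓜.tr (cfc (fun s : ℝ => Phi (Real.sqrt s))
        (∑ n ∈ range N, F.E n (star (g * (du F z n + du F z' n) * g)
          * (g * (du F z n + du F z' n) * g))).op)
      ≤ ENNReal.ofReal (2 * K2 * K2) * (bsc F Phi K z + bsc F Phi K' z') := by
  have hGs := gr_sqrt hG
  obtain ⟨hl1, -⟩ := h7 H 𝓜 hmt (fun s => Phi (Real.sqrt s)) hGs.cont hGs.mono hGs.zero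
  set f : ℝ → ℝ := fun s => Phi (Real.sqrt s) with hf
  set B : Mc 𝓜 := ∑ n ∈ range N, F.E n (star (g * (du F z n + du F z' n) * g)
          * (g * (du F z n + du F z' n) * g)) with hB
  have hB0 : 0 ≤ B.op := by
    rw [hB, op_sum]
    exact Finset.sum_nonneg (fun n _ => F.E_nonneg _ _ (sq_nonneg' _))
  have hle := zsum_le F h10 hg hg0 z z' K K' N hz hz'
  rw [← hB] at hle
  rw [hl1 B hB0]
  have e1 : bsc F Phi K z = orl f (sc2 F K z : Sm 𝓜) := hl1 _ (sc2_nonneg F z K)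
  have e2 : bsc F Phi K' z' = orl f (sc2 F K' z' : Sm 𝓜) := hl1 _ (sc2_nonneg F z' K')
  rw [e1, e2]
  set S := sc2 F K z
  set S' := sc2 F K' z'
  calc orl f (B : Sm 𝓜) ≤ orl f ((g * ((S + S') + (S + S')) * g : Mc 𝓜) : Sm 𝓜) :=
        orl_mono h6 hmt hGs.mono (fun t ht => mu_mono h7 h12 h13 h14 hmt h6 hB0 hle t ht)
    _ ≤ orl f (((S + S') + (S + S') : Mc 𝓜) : Sm 𝓜) := by
        have := hctr (((S + S') + (S + S') : Mc 𝓜) : Sm 𝓜) g g (isP_norm hg) (isP_norm hg)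
        rwa [← UniformSpace.Completion.coe_mul, ← UniformSpace.Completion.coe_mul] at this
    _ ≤ ENNReal.ofReal K2 * (orl f ((S + S' : Mc 𝓜) : Sm 𝓜) + orl f ((S + S' : Mc 𝓜) : Sm 𝓜)) := by
        rw [UniformSpace.Completion.coe_add (S + S') (S + S')]
        exact hadd _ _
    _ ≤ ENNReal.ofReal K2 * (ENNReal.ofReal K2 * (orl f (S : Sm 𝓜) + orl f (S' : Sm 𝓜))
          + ENNReal.ofReal K2 * (orl f (S : Sm 𝓜) + orl f (S' : Sm 𝓜))) := by
        rw [UniformSpace.Completion.coe_add S S']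
        gcongr <;> exact hadd _ _
    _ = ENNReal.ofReal (2 * K2 * K2) * (orl f (S : Sm 𝓜) + orl f (S' : Sm 𝓜)) := by
        rw [ENNReal.ofReal_mul (by positivity), ENNReal.ofReal_mul (by norm_num)]
        have : ENNReal.ofReal 2 = 2 := by norm_num
        rw [this]
        ring

/-- the trace of the majorant -/
lemma tr_A0 (h6 : C_mu.{u}) (h7 : C_layer.{u}) (h11 : C_star.{u}) (hmt : IsMT 𝓜) {Phi : ℝ → ℝ}
    {p1 q1 C0 : ℝ} (hG : Gr Phi p1 q1 C0) {K1 : ℝ}
    (hadd : ∀ ξ η : Sm 𝓜, orl Phi (ξ + η) ≤ ENNReal.ofReal K1 * (orl Phi ξ + orl Phi η))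
    (hctr : ∀ (ξ : Sm 𝓜) (x y : Mc 𝓜), ‖x.op‖ ≤ 1 → ‖y.op‖ ≤ 1 →
        orl Phi ((x : Sm 𝓜) * ξ * (y : Sm 𝓜)) ≤ orl Phi ξ)
    {g : Mc 𝓜} (hg : IsP g) (a b : Sm 𝓜) (e f α β : Mc 𝓜) (he : IsP e) (hf : IsP f)
    (hα : (e : Sm 𝓜) * a = (α : Sm 𝓜)) (hβ : b * (f : Sm 𝓜) = (β : Sm 𝓜)) :
    𝓜.tr (cfc Phi (g * (α * star α + star β * β) * g).op)
      ≤ ENNReal.ofReal K1 * (orl Phi (sst a * a) + orl Phi (sst b * b)) := by
  obtain ⟨hl1, -, hl3⟩ := h7 H 𝓜 hmt Phi hG.cont hG.mono hG.zero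
  obtain ⟨hs1, -⟩ := h11 H 𝓜 hmt
  have hA0 : 0 ≤ (g * (α * star α + star β * β) * g).op := by
    have h1 : (0 : Mc 𝓜).op ≤ (α * star α + star β * β).op := by
      rw [op_zero, op_add]
      exact add_nonneg (sq_nonneg'' _) (sq_nonneg' _)
    have h2 := conj_le' h1 hg
    rwa [mul_zero, zero_mul, op_zero] at h2
  rw [hl1 _ hA0]
  have h1 : orl Phi ((α * star α : Mc 𝓜) : Sm 𝓜) ≤ orl Phi (sst a * a) := by
    refine orl_mono h6 hmt hG.mono (fun t ht => ?_)
    obtain ⟨hn, -, -, -, hxy, hst, -, -, -, hsq, -⟩ := h6 H 𝓜 hmt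
    have h2 := hl3 (star α) t ht
    rw [star_star] at h2
    rw [h2, ← hs1 α, hst _ t ht]
    refine le_trans ?_ (hsq a t ht)
    refine pow_le_pow_left₀ (hn _ _) ?_ 2
    rw [← hα]
    have h3 := hxy a e 1 t ht
    have h4 := isP_norm he
    have h5 : ‖(1 : Mc 𝓜).op‖ ≤ 1 := isP_norm (IsStarProjection.one _)
    have h6 : ‖e.op‖ * ‖(1 : Mc 𝓜).op‖ ≤ 1 := by
      nlinarith [norm_nonneg e.op, norm_nonneg (1 : Mc 𝓜).op]
    have h7 := hn a t
    have h8 : ((1 : Mc 𝓜) : Sm 𝓜) = 1 := rfl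
    rw [h8, mul_one] at h3
    nlinarith
  have h2 : orl Phi ((star β * β : Mc 𝓜) : Sm 𝓜) ≤ orl Phi (sst b * b) := by
    refine orl_fact h6 h7 hmt hG.mono b β 1 f (IsStarProjection.one _) hf ?_
    have h8 : ((1 : Mc 𝓜) : Sm 𝓜) = 1 := rfl
    rw [h8, one_mul]
    exact hβ
  calc orl Phi ((g * (α * star α + star β * β) * g : Mc 𝓜) : Sm 𝓜)
      ≤ orl Phi ((α * star α + star β * β : Mc 𝓜) : Sm 𝓜) := by
        have := hctr ((α * star α + star β * β : Mc 𝓜) : Sm 𝓜) g g (isP_norm hg) (isP_norm hg)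
        rwa [← UniformSpace.Completion.coe_mul, ← UniformSpace.Completion.coe_mul] at this
    _ ≤ ENNReal.ofReal K1 * (orl Phi ((α * star α : Mc 𝓜) : Sm 𝓜)
          + orl Phi ((star β * β : Mc 𝓜) : Sm 𝓜)) := by
        rw [UniformSpace.Completion.coe_add]
        exact hadd _ _
    _ ≤ _ := by gcongr

/-- finiteness of `orl Phi (a y b)` -/
lemma orl_fin (h6 : C_mu.{u}) (hmt : IsMT 𝓜) {Phi : ℝ → ℝ}
    {p1 q1 C0 : ℝ} (hG : Gr Phi p1 q1 C0) (a b : Sm 𝓜) (y : Mc 𝓜) (hy : ‖y.op‖ ≤ 1)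
    (ha : orl Phi (sst a * a) < ⊤) (hb : orl Phi (sst b * b) < ⊤) :
    orl Phi (a * (y : Sm 𝓜) * b) < ⊤ := by
  obtain ⟨hn, hanti, -, hmul, hxy, hst, -, -, -, hsq, -⟩ := h6 H 𝓜 hmt
  have key : ∀ t, 0 < t → mu (a * (y : Sm 𝓜) * b) (t + t)
      ≤ max (mu (sst a * a) t) (mu (sst b * b) t) := by
    intro t ht
    have h1 := hmul a ((y : Sm 𝓜) * b) t t ht ht
    have h2 := hxy b y 1 t ht
    have h5 : ‖(1 : Mc 𝓜).op‖ ≤ 1 := isP_norm (IsStarProjection.one _)
    have h6 : ‖y.op‖ * ‖(1 : Mc 𝓜).op‖ ≤ 1 := by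
      nlinarith [norm_nonneg y.op, norm_nonneg (1 : Mc 𝓜).op]
    have h7 := hn b t
    have h8 : ((1 : Mc 𝓜) : Sm 𝓜) = 1 := rfl
    rw [h8, mul_one] at h2
    have h9 : mu ((y : Sm 𝓜) * b) t ≤ mu b t := by nlinarith
    have h10 := hn a t
    have h11 : mu (a * (y : Sm 𝓜) * b) (t + t) ≤ mu a t * mu b t := by
      rw [mul_assoc]
      exact h1.trans (mul_le_mul_of_nonneg_left h9 h10)
    have h12 := hsq a t ht
    have h13 := hsq b t ht
    have h14 := le_max_left (mu (sst a * a) t) (mu (sst b * b) t)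
    have h15 := le_max_right (mu (sst a * a) t) (mu (sst b * b) t)
    nlinarith [sq_nonneg (mu a t - mu b t)]
  have h1 : ∀ t ∈ Set.Ioi (0 : ℝ), ENNReal.ofReal (Phi (mu (a * (y : Sm 𝓜) * b) (2 * t)))
      ≤ ENNReal.ofReal (Phi (mu (sst a * a) t)) + ENNReal.ofReal (Phi (mu (sst b * b) t)) := by
    intro t ht
    have h2 := key t ht
    rw [← two_mul] at h2
    have h3 : Phi (mu (a * (y : Sm 𝓜) * b) (2 * t))
        ≤ Phi (max (mu (sst a * a) t) (mu (sst b * b) t)) :=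
      hG.mono (hn _ _) ((hn (sst a * a) t).trans (le_max_left _ _)) h2
    refine (ENNReal.ofReal_le_ofReal h3).trans ?_
    rcases max_choice (mu (sst a * a) t) (mu (sst b * b) t) with h | h
    · rw [h]; exact le_self_add
    · rw [h]; exact le_add_self
  have h2 : orl Phi (a * (y : Sm 𝓜) * b)
      = 2 * ∫⁻ t in Set.Ioi (0 : ℝ), ENNReal.ofReal (Phi (mu (a * (y : Sm 𝓜) * b) (2 * t))) := by
    unfold orl
    have h3 := MeasureTheory.lintegral_image_eq_lintegral_abs_deriv_mul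
      (s := Set.Ioi (0 : ℝ)) (f := fun t => 2 * t) (f' := fun _ => 2) measurableSet_Ioi
      (fun x _ => by
        have := ((hasDerivAt_id x).const_mul (2 : ℝ)).hasDerivWithinAt (s := Set.Ioi (0 : ℝ))
        simpa using this)
      (fun x _ y _ h => by simpa using h)
      (fun t => ENNReal.ofReal (Phi (mu (a * (y : Sm 𝓜) * b) t)))
    have h4 : (fun t : ℝ => 2 * t) '' Set.Ioi 0 = Set.Ioi 0 := by
      ext x
      simp only [Set.mem_image, Set.mem_Ioi]
      constructor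
      · rintro ⟨t, ht, rfl⟩
        linarith
      · intro hx
        exact ⟨x / 2, by linarith, by ring⟩
    rw [h4] at h3
    rw [h3, MeasureTheory.lintegral_const_mul' _ _ ENNReal.ofReal_ne_top]
    norm_num
  rw [h2]
  have h3 : ∫⁻ t in Set.Ioi (0 : ℝ), ENNReal.ofReal (Phi (mu (a * (y : Sm 𝓜) * b) (2 * t)))
      ≤ orl Phi (sst a * a) + orl Phi (sst b * b) := by
    refine (MeasureTheory.setLIntegral_mono' measurableSet_Ioi h1).trans ?_
    unfold orl
    rw [MeasureTheory.lintegral_add_left']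
    have h4 : AEMeasurable (fun t => mu (sst a * a) t)
        (MeasureTheory.volume.restrict (Set.Ioi (0 : ℝ))) := by
      refine aemeasurable_restrict_of_antitoneOn measurableSet_Ioi ?_
      intro s hs t ht hst
      exact hanti _ s t hs hst
    have h5 : AEMeasurable (fun t => Phi (mu (sst a * a) t))
        (MeasureTheory.volume.restrict (Set.Ioi (0 : ℝ))) := by
      refine aemeasurable_restrict_of_antitoneOn measurableSet_Ioi ?_
      intro s hs t ht hst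
      exact hG.mono (hn _ _) (hn _ _) (hanti _ s t hs hst)
    exact h5.ennreal_ofReal
  refine ENNReal.mul_lt_top (by norm_num) (h3.trans_lt ?_)
  exact ENNReal.add_lt_top.mpr ⟨ha, hb⟩

omit [IsTopologicalRing (Mc 𝓜)] [IsUniformAddGroup (Mc 𝓜)] in
lemma orl_add_tendsto {f : ℝ → ℝ} {K : ℝ}
    (hadd : ∀ ξ η : Sm 𝓜, orl f (ξ + η) ≤ ENNReal.ofReal K * (orl f ξ + orl f η))
    {ξ η : ℕ → Sm 𝓜} (h1 : Filter.Tendsto (fun k => orl f (ξ k)) Filter.atTop (𝓝 0))
    (h2 : Filter.Tendsto (fun k => orl f (η k)) Filter.atTop (𝓝 0)) :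
    Filter.Tendsto (fun k => orl f (ξ k + η k)) Filter.atTop (𝓝 0) := by
  have h3 : Filter.Tendsto (fun k => ENNReal.ofReal K * (orl f (ξ k) + orl f (η k)))
      Filter.atTop (𝓝 0) := by
    have h4 := h1.add h2
    rw [add_zero] at h4
    have h5 := ENNReal.Tendsto.const_mul (a := ENNReal.ofReal K) h4 (Or.inr ENNReal.ofReal_ne_top)
    rwa [mul_zero] at h5
  exact tendsto_of_tendsto_of_tendsto_of_le_of_le tendsto_const_nhds h3
    (fun _ => zero_le) (fun k => hadd _ _)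

/-- the pointwise limit in `J` -/
lemma limJ (h6 : C_mu.{u}) (hmt : IsMT 𝓜) {Phi : ℝ → ℝ} {p1 q1 C0 p C : ℝ}
    (hG : Gr Phi p1 q1 C0) (hp : 0 < p) (hC : 0 < C)
    (hJ : ∀ t : ℝ, 0 < t → ∃ J0 : ℕ, ∀ J : ℕ, J0 ≤ J → Phi t ≤ C * PJ Phi p J t)
    (X : Sm 𝓜) (R τ : ℝ≥0∞) (hτ : τ < ⊤)
    (h : ∀ J : ℕ, orl (PJ Phi p J) X
      ≤ R + ENNReal.ofReal (C * Phi ((2 : ℝ) ^ (-(J : ℤ)))) * τ) :
    orl Phi X ≤ ENNReal.ofReal C * R := by
  obtain ⟨hn, hanti, -⟩ := h6 H 𝓜 hmt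
  have h1 : orl Phi X ≤ ∫⁻ t in Set.Ioi (0 : ℝ),
      Filter.liminf (fun J : ℕ => ENNReal.ofReal C * ENNReal.ofReal (PJ Phi p J (mu X t)))
        Filter.atTop := by
    unfold orl
    refine MeasureTheory.setLIntegral_mono' measurableSet_Ioi (fun t ht => ?_)
    rcases (hn X t).eq_or_lt with h0 | h0
    · rw [← h0, hG.zero, ENNReal.ofReal_zero]
      exact zero_le
    · obtain ⟨J0, hJ0⟩ := hJ _ h0
      refine Filter.le_liminf_of_le (by isBoundedDefault) ?_
      filter_upwards [Filter.eventually_ge_atTop J0] with J hJ'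
      rw [← ENNReal.ofReal_mul hC.le]
      exact ENNReal.ofReal_le_ofReal (hJ0 J hJ')
  have h2 : (∫⁻ t in Set.Ioi (0 : ℝ),
      Filter.liminf (fun J : ℕ => ENNReal.ofReal C * ENNReal.ofReal (PJ Phi p J (mu X t)))
        Filter.atTop)
      ≤ Filter.liminf (fun J : ℕ => ∫⁻ t in Set.Ioi (0 : ℝ),
          ENNReal.ofReal C * ENNReal.ofReal (PJ Phi p J (mu X t))) Filter.atTop := by
    refine MeasureTheory.lintegral_liminf_le' (fun J => ?_)
    refine AEMeasurable.const_mul ?_ _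
    have h5 : AEMeasurable (fun t => PJ Phi p J (mu X t))
        (MeasureTheory.volume.restrict (Set.Ioi (0 : ℝ))) := by
      refine aemeasurable_restrict_of_antitoneOn measurableSet_Ioi ?_
      intro s hs t ht hst
      exact pj_mono hG hp J (hanti _ s t hs hst)
    exact h5.ennreal_ofReal
  have h3 : ∀ J : ℕ, (∫⁻ t in Set.Ioi (0 : ℝ),
          ENNReal.ofReal C * ENNReal.ofReal (PJ Phi p J (mu X t)))
      ≤ ENNReal.ofReal C * (R + ENNReal.ofReal (C * Phi ((2 : ℝ) ^ (-(J : ℤ)))) * τ) := by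
    intro J
    rw [MeasureTheory.lintegral_const_mul' _ _ ENNReal.ofReal_ne_top]
    gcongr
    exact h J
  have h4 : Filter.Tendsto (fun J : ℕ => ENNReal.ofReal C
      * (R + ENNReal.ofReal (C * Phi ((2 : ℝ) ^ (-(J : ℤ)))) * τ)) Filter.atTop
      (𝓝 (ENNReal.ofReal C * R)) := by
    have h5 := (phi_small hG).const_mul C
    rw [mul_zero] at h5
    have h6 := ENNReal.tendsto_ofReal h5
    rw [ENNReal.ofReal_zero] at h6
    have h7 := ENNReal.Tendsto.mul_const (b := τ) h6 (Or.inr hτ.ne)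
    rw [zero_mul] at h7
    have h8 := h7.const_add R
    rw [add_zero] at h8
    exact ENNReal.Tendsto.const_mul h8 (Or.inr ENNReal.ofReal_ne_top)
  refine h1.trans (h2.trans ?_)
  rw [← h4.liminf_eq]
  exact Filter.liminf_le_liminf (Filter.Eventually.of_forall h3)

end bounds

section core

variable {H : Type u} [NormedAddCommGroup H] [InnerProductSpace ℂ H] [CompleteSpace H]
  {𝓜 : TVN H}

/-- the corner inequality, for given bounded data -/
lemma step (h10 : A_E.{u}) {Phi : ℝ → ℝ} {p : ℝ} {C K : ℝ} {J N : ℕ}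
    (F : Filtr 𝓜) (g : Mc 𝓜) (hg : IsP g) (hg0 : g.op ∈ F.N 0)
    (hcore : ∀ (d z a : ℕ → Mc 𝓜) (A0 : Mc 𝓜),
    (∀ n, n < N → g * d n * g = d n) → (∀ n, n < N → g * z n * g = z n) →
    (∀ n, n < N → g * a n * g = a n) → g * A0 * g = A0 →
    (∀ n, n < N → star (d n) = d n) →
    (∀ n, n < N → F.E (n + 1) (d n) = d n) → (∀ n, n < N → F.E n (d n) = 0) →
    (∀ n, n < N → F.E (n + 1) (z n) = z n) → (∀ n, n < N → F.E n (z n) = 0) →
    0 ≤ A0.op →
    (∀ n, n < N → star (a n) = a n) → (∀ n, n < N → F.E (n + 1) (a n) = a n) →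
    (∀ n, n < N → (a n).op ≤ (F.E (n + 1) A0).op) →
    (∀ n, n < N → -(F.E (n + 1) A0).op ≤ (a n).op) →
    𝓜.tr (cfc (fun s : ℝ => PJ Phi p J |s|) (∑ n ∈ range N, d n).op)
      ≤ ENNReal.ofReal C * (𝓜.tr (cfc Phi A0.op)
          + 𝓜.tr (cfc (fun s : ℝ => Phi (Real.sqrt s))
              (∑ n ∈ range N, F.E n (star (z n) * z n)).op))
        + ENNReal.ofReal (C * Phi ((2 : ℝ) ^ (-(J : ℤ)))) * 𝓜.tr g.op
        + ENNReal.ofReal K * ∑ n ∈ range N,
            (bph 𝓜 (fun s => s ^ p) (d n - z n) + bph 𝓜 (fun s => s ^ p) (d n - a n)))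
    (w z z' : Mc 𝓜) (α β : Mc 𝓜) (y : ℕ → Mc 𝓜) (hy : ∀ n, ‖(y n).op‖ ≤ 1) :
    𝓜.tr (cfc (fun s : ℝ => PJ Phi p J |s|)
        (∑ n ∈ range N, g * (du F w n + star (du F w n)) * g).op)
      ≤ ENNReal.ofReal C * (𝓜.tr (cfc Phi (g * (α * star α + star β * β) * g).op)
          + 𝓜.tr (cfc (fun s : ℝ => Phi (Real.sqrt s))
              (∑ n ∈ range N, F.E n (star (g * (du F z n + du F z' n) * g)
                * (g * (du F z n + du F z' n) * g))).op))
        + ENNReal.ofReal (C * Phi ((2 : ℝ) ^ (-(J : ℤ)))) * 𝓜.tr g.op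
        + ENNReal.ofReal K * ∑ n ∈ range N,
            (bph 𝓜 (fun s => s ^ p) (g * (du F w n + star (du F w n)) * g
                - g * (du F z n + du F z' n) * g)
              + bph 𝓜 (fun s => s ^ p) (g * (du F w n + star (du F w n)) * g
                - F.E (n + 1) (g * (α * y n * β + star (α * y n * β)) * g))) := by
  obtain ⟨hst, hone, htow, htow', -, hmono, -⟩ := h10 H 𝓜 F
  have hgg := isP_mul hg
  have hgs := isP_star hg
  have gxg : ∀ x : Mc 𝓜, g * (g * x * g) * g = g * x * g := by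
    intro x
    calc g * (g * x * g) * g = (g * g) * x * (g * g) := by noncomm_ring
      _ = g * x * g := by rw [hgg]
  have Edu : ∀ (x : Mc 𝓜) n, F.E (n + 1) (du F x n) = du F x n := by
    intro x n
    rw [du_eq, map_sub, htow' (n + 1) (n + 1) x le_rfl, htow' n (n + 1) x (by omega)]
  have Edu0 : ∀ (x : Mc 𝓜) n, F.E n (du F x n) = 0 := by
    intro x n
    rw [du_eq, map_sub, htow n (n + 1) x (by omega), htow n n x le_rfl, sub_self]
  have hsa : ∀ x : Mc 𝓜, star (g * (x + star x) * g) = g * (x + star x) * g := by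
    intro x
    simp only [star_mul, star_add, star_star, hgs]
    rw [add_comm (star x) x]
    noncomm_ring
  have hA0 : 0 ≤ (g * (α * star α + star β * β) * g).op := by
    have h1 : (0 : Mc 𝓜).op ≤ (α * star α + star β * β).op := by
      rw [op_zero, op_add]
      exact add_nonneg (sq_nonneg'' _) (sq_nonneg' _)
    have h2 := conj_le' h1 hg
    rwa [mul_zero, zero_mul, op_zero] at h2
  refine hcore (fun n => g * (du F w n + star (du F w n)) * g)
    (fun n => g * (du F z n + du F z' n) * g)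
    (fun n => F.E (n + 1) (g * (α * y n * β + star (α * y n * β)) * g))
    (g * (α * star α + star β * β) * g)
    (fun n _ => gxg _) (fun n _ => gxg _) (fun n _ => ?_) (gxg _) (fun n _ => hsa _)
    (fun n _ => ?_) (fun n _ => ?_) (fun n _ => ?_) (fun n _ => ?_) hA0 (fun n _ => ?_)
    (fun n _ => ?_) (fun n _ => ?_) (fun n _ => ?_)
  · rw [← E_conj F hg0, gxg]
  · rw [E_conj F hg0, map_add, hst, Edu]
  · rw [E_conj F hg0, map_add, hst, Edu0, star_zero, add_zero, mul_zero, zero_mul]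
  · rw [E_conj F hg0, map_add, Edu, Edu]
  · rw [E_conj F hg0, map_add, Edu0, Edu0, add_zero, mul_zero, zero_mul]
  · rw [← hst, hsa]
  · exact htow' _ _ _ le_rfl
  · exact hmono _ _ _ (conj_le' (fact_le α (y n) β (hy n)) hg)
  · have h1 := fact_le' α (y n) β (hy n)
    have h2 : (-(α * star α + star β * β)).op ≤ (α * y n * β + star (α * y n * β)).op := h1
    have h3 := hmono (n + 1) _ _ (conj_le' h2 hg)
    have h4 : F.E (n + 1) (g * -(α * star α + star β * β) * g)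
        = -F.E (n + 1) (g * (α * star α + star β * β) * g) := by
      rw [mul_neg, neg_mul, map_neg]
    rw [h4] at h3
    exact h3

lemma T_eq (F : Filtr 𝓜) {g : Mc 𝓜} (hg : IsP g) (w : Mc 𝓜) (N : ℕ) :
    ∑ n ∈ range N, g * (du F w n + star (du F w n)) * g
      = g * (F.E N w - F.E 0 w) * g + star (g * (F.E N w - F.E 0 w) * g) := by
  have hgs := isP_star hg
  have h1 : ∑ n ∈ range N, du F w n = F.E N w - F.E 0 w := by
    simp only [du_eq]
    exact Finset.sum_range_sub (fun n => F.E n w) N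
  rw [← Finset.sum_mul, ← Finset.mul_sum, Finset.sum_add_distrib, ← star_sum, h1]
  simp only [star_mul, hgs]
  noncomm_ring

end core

section errors

variable {H : Type u} [NormedAddCommGroup H] [InnerProductSpace ℂ H] [CompleteSpace H]
  {𝓜 : TVN H} [UniformSpace (Mc 𝓜)] [IsTopologicalRing (Mc 𝓜)] [IsUniformAddGroup (Mc 𝓜)]

omit [IsTopologicalRing (Mc 𝓜)] [IsUniformAddGroup (Mc 𝓜)] in
lemma dif_succ (ξn : ℕ → Sm 𝓜) (n : ℕ) : dif ξn (n + 1) = ξn (n + 1) - ξn n := by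
  unfold dif
  simp

omit [IsTopologicalRing (Mc 𝓜)] in
lemma dif_coe (F : Filtr 𝓜) (x : Mc 𝓜) (n : ℕ) :
    dif (fun m => ((F.E m x : Mc 𝓜) : Sm 𝓜)) (n + 1) = ((du F x n : Mc 𝓜) : Sm 𝓜) := by
  rw [dif_succ, du_eq, UniformSpace.Completion.coe_sub]

/-- the first error term -/
lemma err1 (h7 : C_layer.{u}) (h11 : C_star.{u}) (hmt : IsMT 𝓜) {p K3 : ℝ} (hp : 0 < p)
    (hadd : ∀ ξ η : Sm 𝓜, orl (fun s => s ^ p) (ξ + η)
      ≤ ENNReal.ofReal K3 * (orl (fun s => s ^ p) ξ + orl (fun s => s ^ p) η))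
    (hneg : ∀ ξ : Sm 𝓜, orl (fun s => s ^ p) (-ξ) = orl (fun s => s ^ p) ξ)
    (hsst : ∀ ξ : Sm 𝓜, orl (fun s => s ^ p) (sst ξ) = orl (fun s => s ^ p) ξ)
    {g : Mc 𝓜} (hg : IsP g) (ζ : Sm 𝓜) (v r s : ℕ → Mc 𝓜)
    (hv : Filter.Tendsto (fun k => orl (fun s => s ^ p)
      ((g : Sm 𝓜) * (ζ - (v k : Sm 𝓜)) * (g : Sm 𝓜))) Filter.atTop (𝓝 0))
    (hr : Filter.Tendsto (fun k => orl (fun s => s ^ p)
      ((g : Sm 𝓜) * ζ * (g : Sm 𝓜) - (r k : Sm 𝓜))) Filter.atTop (𝓝 0))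
    (hs : Filter.Tendsto (fun k => orl (fun s => s ^ p)
      ((g : Sm 𝓜) * sst ζ * (g : Sm 𝓜) - (s k : Sm 𝓜))) Filter.atTop (𝓝 0)) :
    Filter.Tendsto (fun k => bph 𝓜 (fun s => s ^ p) (g * (v k + star (v k)) * g - (r k + s k)))
      Filter.atTop (𝓝 0) := by
  obtain ⟨hs1, hs2, hs3, hs4, hs5, -⟩ := h11 H 𝓜 hmt
  have hGp := gr_pow hp
  obtain ⟨-, hl2, -⟩ := h7 H 𝓜 hmt (fun s => s ^ p) hGp.cont hGp.mono hGp.zero
  have e : ∀ k, ((g * (v k + star (v k)) * g - (r k + s k) : Mc 𝓜) : Sm 𝓜)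
      = (-((g : Sm 𝓜) * (ζ - (v k : Sm 𝓜)) * (g : Sm 𝓜))
          + -sst ((g : Sm 𝓜) * (ζ - (v k : Sm 𝓜)) * (g : Sm 𝓜)))
        + (((g : Sm 𝓜) * ζ * (g : Sm 𝓜) - (r k : Sm 𝓜))
          + ((g : Sm 𝓜) * sst ζ * (g : Sm 𝓜) - (s k : Sm 𝓜))) := by
    intro k
    rw [hs4, hs4, hs3, hs1, hs1, isP_star hg]
    simp only [UniformSpace.Completion.coe_sub, UniformSpace.Completion.coe_mul,
      UniformSpace.Completion.coe_add]
    noncomm_ring
  have e2 : (fun k => bph 𝓜 (fun s => s ^ p) (g * (v k + star (v k)) * g - (r k + s k)))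
      = fun k => orl (fun s => s ^ p)
        ((-((g : Sm 𝓜) * (ζ - (v k : Sm 𝓜)) * (g : Sm 𝓜))
          + -sst ((g : Sm 𝓜) * (ζ - (v k : Sm 𝓜)) * (g : Sm 𝓜)))
        + (((g : Sm 𝓜) * ζ * (g : Sm 𝓜) - (r k : Sm 𝓜))
          + ((g : Sm 𝓜) * sst ζ * (g : Sm 𝓜) - (s k : Sm 𝓜)))) := by
    funext k
    rw [hl2, e k]
  rw [e2]
  refine orl_add_tendsto hadd (orl_add_tendsto hadd ?_ ?_) (orl_add_tendsto hadd hr hs)
  · simpa only [hneg] using hv
  · simpa only [hneg, hsst] using hv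

end errors

end H_E_R2re

open H_E_R2re in
theorem q_R2re (h1 : D_core.{u}) (h2 : E_seq.{u}) (h3 : E_errz.{u}) (h4 : E_erra.{u})
    (h5 : C_cut.{u}) (h6 : C_mu.{u}) (h7 : C_layer.{u}) (h8 : C_orl.{u}) (h9 : C_fatou.{u})
    (h10 : A_E.{u}) (h11 : C_star.{u}) (h12 : C_ball.{u}) (h13 : A_tr.{u})
    (h14 : A_cfc.{u}) : E_R2re.{u} := by
  intro Phi p1 q1 C0 hG hp1
  obtain ⟨p, hp1', hp2, hpp1, C, hC, hJ, hPJ, hcore⟩ := h1 Phi p1 q1 C0 hG hp1
  have hp0 : 0 < p := by linarith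
  obtain ⟨K1, hK1, hO1⟩ := h8 Phi p1 q1 C0 hG (by linarith)
  obtain ⟨K2, hK2, hO2⟩ := h8 (fun s => Phi (Real.sqrt s)) (p1 / 2) (q1 / 2) C0 (gr_sqrt hG)
    (by linarith)
  obtain ⟨K3, hK3, hO3⟩ := h8 (fun s => s ^ p) p p 1 (gr_pow hp0) hp0
  refine ⟨C * (C * max K1 (2 * K2 * K2)), by positivity, ?_⟩
  intro H _ _ _ 𝓜 _ _ _ hmt F ξ ξn hξ hCE a b y ha hb hy hab z z' K K' c c' hz hz' hc hc' N g
    hg hg0 hgt
  obtain ⟨hadd1, hneg1, hsst1, hctr1, hmem1, hconv1⟩ := hO1 H 𝓜 hmt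
  obtain ⟨hadd2, hneg2, hsst2, hctr2, hmem2, hconv2⟩ := hO2 H 𝓜 hmt
  obtain ⟨hadd3, hneg3, hsst3, hctr3, hmem3, hconv3⟩ := hO3 H 𝓜 hmt
  obtain ⟨hs1, hs2, hs3, hs4, hs5, hs6⟩ := h11 H 𝓜 hmt
  obtain ⟨hEst, hEone, hEtow, hEtow', hEsq, hEmono, hEnorm⟩ := h10 H 𝓜 F
  obtain ⟨w, hw, hwn⟩ := h2 Phi p1 q1 C0 hG hp1 H 𝓜 hmt F ξ ξn hξ hCE
  -- cutting the factors
  have hεk : ∀ k : ℕ, (0 : ℝ) < (1 / 2) ^ k := fun k => by positivity
  choose e α he het hα using fun k : ℕ => (h5 H 𝓜 hmt a _ (hεk k)).2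
  choose f β hf hft hβ using fun k : ℕ => (h5 H 𝓜 hmt b _ (hεk k)).1
  have hfin : ∀ n, orl Phi (dif ξn n) < ⊤ := by
    intro n
    rw [hab n]
    exact orl_fin h6 hmt hG a b (y n) (hy n) ((hmem1 _).mp ha) ((hmem1 _).mp hb)
  -- convergence of the differences
  have hdw : ∀ n, Filter.Tendsto (fun k => orl Phi (dif ξn (n + 1) - (du F (w k) n : Sm 𝓜)))
      Filter.atTop (𝓝 0) := by
    intro n
    have h := orl_add_tendsto hadd1 (ξ := fun k => ξn (n + 1) - (F.E (n + 1) (w k) : Sm 𝓜))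
      (η := fun k => -(ξn n - (F.E n (w k) : Sm 𝓜))) (hwn (n + 1))
      (by simpa only [hneg1] using hwn n)
    refine h.congr (fun k => ?_)
    rw [dif_succ, du_eq, UniformSpace.Completion.coe_sub]
    congr 1
    abel
  have hdv : ∀ n, Filter.Tendsto (fun k => orl (fun s => s ^ p)
      ((g : Sm 𝓜) * (dif ξn (n + 1) - (du F (w k) n : Sm 𝓜)) * (g : Sm 𝓜)))
      Filter.atTop (𝓝 0) := fun n =>
    corner_tendsto h6 hmt hp0 hpp1.le hG hg hgt _ (hdw n)
  have hE1 : ∀ n, Filter.Tendsto (fun k => bph 𝓜 (fun s => s ^ p)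
      (g * (du F (w k) n + star (du F (w k) n)) * g
        - g * (du F (z k) n + du F (z' k) n) * g)) Filter.atTop (𝓝 0) := by
    intro n
    have hr := h3 Phi p1 q1 C0 p hG hp1' hp2 hpp1 H 𝓜 hmt F _ z K hz g hg hg0 hgt n
    have hs := h3 Phi p1 q1 C0 p hG hp1' hp2 hpp1 H 𝓜 hmt F _ z' K' hz' g hg hg0 hgt n
    have hsd : dif (fun n => sst (ξn n)) (n + 1) = sst (dif ξn (n + 1)) := by
      rw [dif_succ, dif_succ, hs3]
    rw [hsd] at hs
    have h := err1 h7 h11 hmt hp0 hadd3 hneg3 hsst3 hg (dif ξn (n + 1)) (fun k => du F (w k) n)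
      (fun k => g * du F (z k) n * g) (fun k => g * du F (z' k) n * g) (hdv n)
      (hr.congr (fun k => by
        rw [dif_coe, UniformSpace.Completion.coe_mul, UniformSpace.Completion.coe_mul]
        congr 1
        noncomm_ring))
      (hs.congr (fun k => by
        rw [dif_coe, UniformSpace.Completion.coe_mul, UniformSpace.Completion.coe_mul]
        congr 1
        noncomm_ring))
    refine h.congr (fun k => ?_)
    congr 2
    noncomm_ring
  have hE2 : ∀ n, Filter.Tendsto (fun k => bph 𝓜 (fun s => s ^ p)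
      (g * (du F (w k) n + star (du F (w k) n)) * g
        - F.E (n + 1) (g * (α k * y (n + 1) * β k + star (α k * y (n + 1) * β k)) * g)))
      Filter.atTop (𝓝 0) := by
    intro n
    have hr := h4 Phi p1 q1 C0 p hG hp1' hp2 hpp1 H 𝓜 hmt F (n + 1) (dif ξn (n + 1))
      (fun k => du F (w k) n) (hfin (n + 1)) (fun k => by
        rw [du_eq, map_sub, hEtow' (n + 1) (n + 1) _ le_rfl, hEtow' n (n + 1) _ (by omega)])
      (hdw n) g hg hg0 hgt e f (fun k => α k * y (n + 1) * β k) he hf het hft (fun k => by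
        rw [hab (n + 1), UniformSpace.Completion.coe_mul, UniformSpace.Completion.coe_mul,
          ← hα k, ← hβ k]
        noncomm_ring)
    have hsr : ∀ k, (g : Sm 𝓜) * sst (dif ξn (n + 1)) * (g : Sm 𝓜)
        - (star (F.E (n + 1) (g * (α k * y (n + 1) * β k) * g)) : Mc 𝓜)
        = sst ((g : Sm 𝓜) * dif ξn (n + 1) * (g : Sm 𝓜)
          - (F.E (n + 1) (g * (α k * y (n + 1) * β k) * g) : Sm 𝓜)) := by
      intro k
      rw [hs3, hs4, hs4, hs1, hs1, isP_star hg, mul_assoc]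
    have h := err1 h7 h11 hmt hp0 hadd3 hneg3 hsst3 hg (dif ξn (n + 1)) (fun k => du F (w k) n)
      (fun k => F.E (n + 1) (g * (α k * y (n + 1) * β k) * g))
      (fun k => star (F.E (n + 1) (g * (α k * y (n + 1) * β k) * g))) (hdv n) hr
      (by simpa only [hsr, hsst3] using hr)
    refine h.congr (fun k => ?_)
    congr 2
    rw [← hEst, ← map_add]
    congr 1
    simp only [star_mul, isP_star hg]
    noncomm_ring
  -- convergence of the sums
  set X : Sm 𝓜 := (g : Sm 𝓜) * (ξn N - ξn 0) * (g : Sm 𝓜)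
            + sst ((g : Sm 𝓜) * (ξn N - ξn 0) * (g : Sm 𝓜)) with hX
  have hEw : ∀ n, Filter.Tendsto (fun k => (F.E n (w k) : Sm 𝓜)) Filter.atTop (𝓝 (ξn n)) := by
    intro n
    have h := hconv1 _ (hwn n)
    have h' := h.const_sub (ξn n)
    simpa using h'
  have hT : Filter.Tendsto (fun k => ((∑ n ∈ range N,
      g * (du F (w k) n + star (du F (w k) n)) * g : Mc 𝓜) : Sm 𝓜)) Filter.atTop (𝓝 X) := by
    have hG1 : Filter.Tendsto (fun k => (g : Sm 𝓜) * ((F.E N (w k) : Sm 𝓜) - (F.E 0 (w k) : Sm 𝓜))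
        * (g : Sm 𝓜)) Filter.atTop (𝓝 ((g : Sm 𝓜) * (ξn N - ξn 0) * (g : Sm 𝓜))) :=
      (((hEw N).sub (hEw 0)).const_mul _).mul_const _
    have hG2 := hG1.add ((hs6.tendsto _).comp hG1)
    refine hG2.congr (fun k => ?_)
    rw [T_eq F hg, UniformSpace.Completion.coe_add, ← hs1]
    simp only [Function.comp, UniformSpace.Completion.coe_sub, UniformSpace.Completion.coe_mul]
  -- the limit
  set Oa := orl Phi (sst a * a)
  set Ob := orl Phi (sst b * b)
  have hmain := limJ h6 hmt hG hp0 hC hJ X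
    (ENNReal.ofReal C * (ENNReal.ofReal K1 * (Oa + Ob)
      + ENNReal.ofReal (2 * K2 * K2) * ((c : ℝ≥0∞) + c'))) (𝓜.tr g.op) hgt (fun J => by
    obtain ⟨KJ, hKJ, hcoreJ⟩ := hcore J N
    have hstep := fun k => step (J := J) (N := N) h10 F g hg hg0
      (hcoreJ H 𝓜 F g hg hg0 hgt) (w k) (z k) (z' k) (α k) (β k) (fun n => y (n + 1))
      (fun n => hy (n + 1))
    have hPc := (pj_cont Phi hp0 J).continuousOn (s := Set.Ici 0)
    have hPm := (pj_mono hG hp0 J).monotoneOn (Set.Ici 0)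
    have hP0 := pj_zero Phi hp0 J
    have hfat := h9 H 𝓜 hmt (PJ Phi p J) hPc hPm hP0.ge _ X hT
    refine hfat.trans ?_
    set err : ℕ → ℝ≥0∞ := fun k => ∑ n ∈ range N,
            (bph 𝓜 (fun s => s ^ p) (g * (du F (w k) n + star (du F (w k) n)) * g
                - g * (du F (z k) n + du F (z' k) n) * g)
              + bph 𝓜 (fun s => s ^ p) (g * (du F (w k) n + star (du F (w k) n)) * g
                - F.E (n + 1) (g * (α k * y (n + 1) * β k
                  + star (α k * y (n + 1) * β k)) * g))) with herr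
    have herr0 : Filter.Tendsto err Filter.atTop (𝓝 0) := by
      have h := tendsto_finsetSum (range N) (fun n _ => (hE1 n).add (hE2 n))
      simpa only [add_zero, Finset.sum_const_zero] using h
    have hk : ∀ k, orl (PJ Phi p J) ((∑ n ∈ range N,
        g * (du F (w k) n + star (du F (w k) n)) * g : Mc 𝓜) : Sm 𝓜)
        ≤ ENNReal.ofReal C * (ENNReal.ofReal K1 * (Oa + Ob)
          + ENNReal.ofReal (2 * K2 * K2) * (bsc F Phi (K k) (z k) + bsc F Phi (K' k) (z' k)))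
          + ENNReal.ofReal (C * Phi ((2 : ℝ) ^ (-(J : ℤ)))) * 𝓜.tr g.op
          + ENNReal.ofReal KJ * err k := by
      intro k
      have hsa : star (∑ n ∈ range N, g * (du F (w k) n + star (du F (w k) n)) * g)
          = ∑ n ∈ range N, g * (du F (w k) n + star (du F (w k) n)) * g := by
        rw [T_eq F hg, star_add, star_star, add_comm]
      rw [← tr_abs h7 hmt hPc hPm hP0 hsa]
      refine (hstep k).trans ?_
      have hA := tr_A0 h6 h7 h11 hmt hG hadd1 hctr1 hg a b (e k) (f k) (α k) (β k) (he k) (hf k)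
        (hα k) (hβ k)
      have hZ := tr_z h6 h7 h10 h12 h13 h14 hmt hG hK2 hadd2 hctr2 F hg hg0 (z k) (z' k) (K k)
        (K' k) N (hz.fin k) (hz'.fin k)
      gcongr
    have hlim : Filter.Tendsto (fun k => ENNReal.ofReal C * (ENNReal.ofReal K1 * (Oa + Ob)
          + ENNReal.ofReal (2 * K2 * K2) * (bsc F Phi (K k) (z k) + bsc F Phi (K' k) (z' k)))
          + ENNReal.ofReal (C * Phi ((2 : ℝ) ^ (-(J : ℤ)))) * 𝓜.tr g.op
          + ENNReal.ofReal KJ * err k) Filter.atTop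
          (𝓝 (ENNReal.ofReal C * (ENNReal.ofReal K1 * (Oa + Ob)
          + ENNReal.ofReal (2 * K2 * K2) * ((c : ℝ≥0∞) + c'))
          + ENNReal.ofReal (C * Phi ((2 : ℝ) ^ (-(J : ℤ)))) * 𝓜.tr g.op)) := by
      have hl1 := ENNReal.Tendsto.const_mul (a := ENNReal.ofReal (2 * K2 * K2)) (hc.add hc')
        (Or.inr ENNReal.ofReal_ne_top)
      have hl2 := ENNReal.Tendsto.const_mul (a := ENNReal.ofReal C)
        (hl1.const_add (ENNReal.ofReal K1 * (Oa + Ob))) (Or.inr ENNReal.ofReal_ne_top)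
      have hl3 := hl2.add_const (ENNReal.ofReal (C * Phi ((2 : ℝ) ^ (-(J : ℤ)))) * 𝓜.tr g.op)
      have hl4 := ENNReal.Tendsto.const_mul (a := ENNReal.ofReal KJ) herr0
        (Or.inr ENNReal.ofReal_ne_top)
      have hl5 := hl3.add hl4
      rw [mul_zero, add_zero] at hl5
      exact hl5
    rw [← hlim.liminf_eq]
    exact Filter.liminf_le_liminf (Filter.Eventually.of_forall hk))
  refine hmain.trans ?_
  have hlast : ENNReal.ofReal K1 * (Oa + Ob) + ENNReal.ofReal (2 * K2 * K2) * ((c : ℝ≥0∞) + c')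
      ≤ ENNReal.ofReal (max K1 (2 * K2 * K2)) * (Oa + Ob + c + c') := by
    calc ENNReal.ofReal K1 * (Oa + Ob) + ENNReal.ofReal (2 * K2 * K2) * ((c : ℝ≥0∞) + c')
        ≤ ENNReal.ofReal (max K1 (2 * K2 * K2)) * (Oa + Ob)
          + ENNReal.ofReal (max K1 (2 * K2 * K2)) * ((c : ℝ≥0∞) + c') := by
          gcongr
          · exact le_max_left _ _
          · exact le_max_right _ _
      _ = _ := by ring
  calc _ ≤ ENNReal.ofReal C * (ENNReal.ofReal C
        * (ENNReal.ofReal (max K1 (2 * K2 * K2)) * (Oa + Ob + c + c'))) := by gcongr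
    _ = _ := by
        rw [ENNReal.ofReal_mul hC.le, ENNReal.ofReal_mul hC.le]
        ring

end MDB
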