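import Pool.Agent.MDB.Targets2

/-!
# MDB: existence and uniqueness of the conditional expectations on `L_Phi`
-/

open scoped ENNReal NNReal Topology
open Finset Filter MeasureTheory

namespace MDB

open Mc

universe u

namespace H_E_ce

section

variable {H : Type u} [NormedAddCommGroup H] [InnerProductSpace ℂ H] [CompleteSpace H]
variable {𝓜 : TVN H}

lemma op_sub (x y : Mc 𝓜) : (x - y).op = x.op - y.op := rfl

lemma op_one : (1 : Mc 𝓜).op = 1 := rfl

lemma isP_compl {e : Mc 𝓜} (he : IsP e) : IsP (1 - e) := by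
  unfold IsP at *
  rw [op_sub, op_one]
  exact he.one_sub

lemma norm_le_of_isP {e : Mc 𝓜} (he : IsP e) : ‖e.op‖ ≤ 1 := by
  unfold IsP at he
  exact he.norm_le

variable [UniformSpace (Mc 𝓜)] [IsTopologicalRing (Mc 𝓜)] [IsUniformAddGroup (Mc 𝓜)]

omit [IsTopologicalRing (Mc 𝓜)] [IsUniformAddGroup (Mc 𝓜)] in
lemma orl_cut_le {Phi : ℝ → ℝ} (hmono : MonotoneOn Phi (Set.Ici 0)) (h0 : Phi 0 = 0)
    {ξ ζ : Sm 𝓜} {a : ℝ}
    (hnn : ∀ (ξ : Sm 𝓜) (t : ℝ), 0 ≤ mu ξ t)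
    (hle : ∀ t : ℝ, 0 < t → mu ζ t ≤ mu ξ t) (hz : ∀ t : ℝ, 0 < t → a ≤ t → mu ζ t = 0) :
    orl Phi ζ ≤ ∫⁻ t in Set.Iio a, ENNReal.ofReal (Phi (mu ξ t))
      ∂(volume.restrict (Set.Ioi (0 : ℝ))) := by
  unfold orl
  rw [← lintegral_indicator measurableSet_Iio]
  apply setLIntegral_mono' measurableSet_Ioi
  intro t ht
  by_cases hta : t < a
  · rw [Set.indicator_of_mem (Set.mem_Iio.2 hta)]
    exact ENNReal.ofReal_le_ofReal (hmono (hnn ζ t) (hnn ξ t) (hle t ht))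
  · rw [Set.indicator_of_notMem (by simpa using hta), hz t ht (not_lt.1 hta), h0]
    simp

omit [IsTopologicalRing (Mc 𝓜)] [IsUniformAddGroup (Mc 𝓜)] in
lemma tendsto_cut {Phi : ℝ → ℝ} {ξ : Sm 𝓜} (hfin : orl Phi ξ < ⊤) :
    Tendsto (fun k : ℕ => ∫⁻ t in Set.Iio (1 / ((k : ℝ) + 1)), ENNReal.ofReal (Phi (mu ξ t))
      ∂(volume.restrict (Set.Ioi (0 : ℝ)))) atTop (𝓝 0) := by
  apply tendsto_setLIntegral_zero hfin.ne
  have h : ∀ k : ℕ, (volume.restrict (Set.Ioi (0 : ℝ))) (Set.Iio (1 / ((k : ℝ) + 1)))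
      = ENNReal.ofReal (1 / ((k : ℝ) + 1)) := by
    intro k
    rw [Measure.restrict_apply measurableSet_Iio, Set.Iio_inter_Ioi, Real.volume_Ioo, sub_zero]
  have h2 : (⇑(volume.restrict (Set.Ioi (0 : ℝ))) ∘ fun k : ℕ => Set.Iio (1 / ((k : ℝ) + 1)))
      = fun k : ℕ => ENNReal.ofReal (1 / ((k : ℝ) + 1)) := by
    funext k
    exact h k
  rw [h2]
  have := ENNReal.tendsto_ofReal (tendsto_one_div_add_atTop_nhds_zero_nat (𝕜 := ℝ))
  simpa using this

end

end H_E_ce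

open H_E_ce

theorem q_ce (h1 : C_cut.{u}) (h2 : C_mu.{u}) (h3 : C_orl.{u}) (h4 : C_E.{u})
    (h5 : C_fatou.{u}) : E_ce.{u} := by
  intro Phi p1 q1 C0 hG hp1 H _ _ _ 𝓜 _ _ _ hMT F n ξ hξ
  obtain ⟨K, hK, hK'⟩ := h3 Phi p1 q1 C0 hG (by linarith)
  obtain ⟨hadd, hneg, -, -, hmem, hlim⟩ := hK' H 𝓜 hMT
  obtain ⟨L, hL, hL'⟩ := h4 Phi p1 q1 C0 hG hp1
  have hE : ∀ x : Mc 𝓜, orl Phi (F.E n x : Sm 𝓜) ≤ ENNReal.ofReal L * orl Phi (x : Sm 𝓜) :=
    fun x => (hL' H 𝓜 hMT F n x).1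
  obtain ⟨hnn, -, -, -, hprod, -, -, -, hvan, -, -⟩ := h2 H 𝓜 hMT
  have hfin : orl Phi ξ < ⊤ := (hmem ξ).1 hξ
  have hcomm : ∀ ζ θ : Sm 𝓜, orl Phi (ζ - θ) = orl Phi (θ - ζ) := by
    intro ζ θ
    rw [← hneg (θ - ζ), neg_sub]
  have hsub : ∀ ζ θ : Sm 𝓜, orl Phi (ζ - θ) ≤ ENNReal.ofReal K * (orl Phi ζ + orl Phi θ) := by
    intro ζ θ
    rw [sub_eq_add_neg]
    refine (hadd ζ (-θ)).trans ?_
    rw [hneg θ]
  -- the difference of two conditional expectations
  have hdE : ∀ x y : Mc 𝓜, orl Phi ((F.E n x : Sm 𝓜) - (F.E n y : Sm 𝓜))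
      ≤ ENNReal.ofReal L * (ENNReal.ofReal K *
        (orl Phi (ξ - (y : Sm 𝓜)) + orl Phi (ξ - (x : Sm 𝓜)))) := by
    intro x y
    have e1 : (F.E n x : Sm 𝓜) - (F.E n y : Sm 𝓜) = ((F.E n (x - y) : Mc 𝓜) : Sm 𝓜) := by
      rw [map_sub, UniformSpace.Completion.coe_sub]
    rw [e1]
    refine (hE (x - y)).trans ?_
    gcongr
    have e2 : ((x - y : Mc 𝓜) : Sm 𝓜) = (ξ - (y : Sm 𝓜)) - (ξ - (x : Sm 𝓜)) := by
      rw [UniformSpace.Completion.coe_sub]
      abel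
    rw [e2]
    exact hsub _ _
  -- existence of the approximating sequence
  have hw : ∃ w : ℕ → Mc 𝓜, Tendsto (fun k => orl Phi (ξ - (w k : Sm 𝓜))) atTop (𝓝 0) := by
    have hc : ∀ k : ℕ, ∃ e y : Mc 𝓜, IsP e ∧
        𝓜.tr (1 - e).op ≤ ENNReal.ofReal (1 / ((k : ℝ) + 1)) ∧ ξ * (e : Sm 𝓜) = (y : Sm 𝓜) :=
      fun k => (h1 H 𝓜 hMT ξ (1 / ((k : ℝ) + 1)) (by positivity)).1
    choose e w he hetr hew using hc
    refine ⟨w, ?_⟩
    refine tendsto_of_tendsto_of_tendsto_of_le_of_le tendsto_const_nhds (tendsto_cut hfin)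
      (fun _ => zero_le) ?_
    intro k
    have hk : ξ - (w k : Sm 𝓜) = ξ * ((1 - e k : Mc 𝓜) : Sm 𝓜) := by
      rw [← hew k, UniformSpace.Completion.coe_sub, mul_sub, UniformSpace.Completion.coe_one,
        mul_one]
    refine orl_cut_le hG.mono hG.zero hnn ?_ ?_
    · intro t ht
      have h := hprod ξ 1 (1 - e k) t ht
      rw [UniformSpace.Completion.coe_one, one_mul] at h
      rw [hk]
      refine h.trans ?_
      have n1 : ‖(1 : Mc 𝓜).op‖ ≤ 1 := norm_le_of_isP (by unfold IsP; rw [op_one]; exact IsStarProjection.one _)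
      have n2 : ‖(1 - e k : Mc 𝓜).op‖ ≤ 1 := norm_le_of_isP (isP_compl (he k))
      have n3 : ‖(1 : Mc 𝓜).op‖ * ‖(1 - e k : Mc 𝓜).op‖ ≤ 1 :=
        mul_le_one₀ n1 (norm_nonneg _) n2
      calc ‖(1 : Mc 𝓜).op‖ * ‖(1 - e k : Mc 𝓜).op‖ * mu ξ t ≤ 1 * mu ξ t :=
            mul_le_mul_of_nonneg_right n3 (hnn ξ t)
        _ = mu ξ t := one_mul _
    · intro t ht hat
      rw [hk]
      exact (hvan ξ (1 - e k) t (isP_compl (he k)) ht
        ((hetr k).trans (ENNReal.ofReal_le_ofReal hat))).2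
  have hLK : ENNReal.ofReal L * ENNReal.ofReal K ≠ ⊤ :=
    ENNReal.mul_ne_top ENNReal.ofReal_ne_top ENNReal.ofReal_ne_top
  refine existsUnique_of_exists_of_unique ?_ ?_
  · obtain ⟨w, hw⟩ := hw
    -- the Cauchy property
    have hcau : CauchySeq (fun k => (F.E n (w k) : Sm 𝓜)) := by
      rw [cauchySeq_iff_tendsto, uniformity_eq_comap_nhds_zero, tendsto_comap_iff]
      apply tendsto_of_seq_tendsto
      intro u hu
      apply hlim
      have hu1 : Tendsto (fun j => (u j).1) atTop atTop := by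
        have := tendsto_fst.comp (by rwa [← prod_atTop_atTop_eq] at hu)
        exact this
      have hu2 : Tendsto (fun j => (u j).2) atTop atTop := by
        have := tendsto_snd.comp (by rwa [← prod_atTop_atTop_eq] at hu)
        exact this
      have hb : Tendsto (fun j => ENNReal.ofReal L * (ENNReal.ofReal K *
          (orl Phi (ξ - (w (u j).1 : Sm 𝓜)) + orl Phi (ξ - (w (u j).2 : Sm 𝓜)))))
          atTop (𝓝 0) := by
        have t1 := (hw.comp hu1).add (hw.comp hu2)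
        have t2 := ENNReal.Tendsto.const_mul (a := ENNReal.ofReal L * ENNReal.ofReal K) t1
          (Or.inr hLK)
        simpa [mul_assoc] using t2
      refine tendsto_of_tendsto_of_tendsto_of_le_of_le tendsto_const_nhds hb
        (fun _ => zero_le) ?_
      intro j
      exact hdE (w (u j).2) (w (u j).1)
    obtain ⟨η, hη⟩ := cauchySeq_tendsto_of_complete hcau
    refine ⟨η, w, hw, ?_⟩
    have hbound : ∀ k, orl Phi (η - (F.E n (w k) : Sm 𝓜))
        ≤ ENNReal.ofReal L * (ENNReal.ofReal K * (orl Phi (ξ - (w k : Sm 𝓜)))) := by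
      intro k
      have ht : Tendsto (fun l => (F.E n (w l) : Sm 𝓜) - (F.E n (w k) : Sm 𝓜)) atTop
          (𝓝 (η - (F.E n (w k) : Sm 𝓜))) := hη.sub_const _
      refine (h5 H 𝓜 hMT Phi hG.cont hG.mono hG.zero.ge _ _ ht).trans ?_
      have t1 : Tendsto (fun l => ENNReal.ofReal L * (ENNReal.ofReal K *
          (orl Phi (ξ - (w k : Sm 𝓜)) + orl Phi (ξ - (w l : Sm 𝓜))))) atTop
          (𝓝 (ENNReal.ofReal L * (ENNReal.ofReal K * (orl Phi (ξ - (w k : Sm 𝓜)) + 0)))) := by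
        have t2 := (tendsto_const_nhds (x := orl Phi (ξ - (w k : Sm 𝓜)))).add hw
        have t3 := ENNReal.Tendsto.const_mul (a := ENNReal.ofReal L * ENNReal.ofReal K) t2
          (Or.inr hLK)
        simpa only [mul_assoc] using t3
      rw [add_zero] at t1
      rw [← t1.liminf_eq]
      refine liminf_le_liminf (Eventually.of_forall fun l => ?_)
      exact hdE (w l) (w k)
    have hb : Tendsto (fun k => ENNReal.ofReal L * (ENNReal.ofReal K *
        (orl Phi (ξ - (w k : Sm 𝓜))))) atTop (𝓝 0) := by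
      have t3 := ENNReal.Tendsto.const_mul (a := ENNReal.ofReal L * ENNReal.ofReal K) hw
          (Or.inr hLK)
      simpa [mul_assoc] using t3
    exact tendsto_of_tendsto_of_tendsto_of_le_of_le tendsto_const_nhds hb
        (fun _ => zero_le) hbound
  · rintro η η' ⟨w, hw1, hw2⟩ ⟨w', hw1', hw2'⟩
    have hle : ∀ k, orl Phi (η - η') ≤ ENNReal.ofReal K * (orl Phi (η - (F.E n (w k) : Sm 𝓜)) +
        ENNReal.ofReal K * (ENNReal.ofReal L * (ENNReal.ofReal K *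
          (orl Phi (ξ - (w' k : Sm 𝓜)) + orl Phi (ξ - (w k : Sm 𝓜)))) +
          orl Phi (η' - (F.E n (w' k) : Sm 𝓜)))) := by
      intro k
      have e1 : η - η' = (η - (F.E n (w k) : Sm 𝓜)) + (((F.E n (w k) : Sm 𝓜) -
          (F.E n (w' k) : Sm 𝓜)) - (η' - (F.E n (w' k) : Sm 𝓜))) := by abel
      rw [e1]
      refine (hadd _ _).trans ?_
      gcongr
      refine (hsub _ _).trans ?_
      gcongr
      exact hdE (w k) (w' k)
    have hz : orl Phi (η - η') = 0 := by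
      have t0 := hw1'.add hw1
      have t1 := ENNReal.Tendsto.const_mul (a := ENNReal.ofReal K) t0
        (Or.inr ENNReal.ofReal_ne_top)
      have t2 := ENNReal.Tendsto.const_mul (a := ENNReal.ofReal L) t1
        (Or.inr ENNReal.ofReal_ne_top)
      have t3 := t2.add hw2'
      have t4 := ENNReal.Tendsto.const_mul (a := ENNReal.ofReal K) t3
        (Or.inr ENNReal.ofReal_ne_top)
      have t5 := hw2.add t4
      have t6 := ENNReal.Tendsto.const_mul (a := ENNReal.ofReal K) t5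
        (Or.inr ENNReal.ofReal_ne_top)
      have t7 := ge_of_tendsto' t6 hle
      simpa using t7
    have hconst := hlim (fun _ => η - η') (by rw [hz]; exact tendsto_const_nhds)
    have := tendsto_nhds_unique hconst tendsto_const_nhds
    exact sub_eq_zero.1 this.symm

end MDB
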