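import Pool.Agent.MDB.Targets2

/-!
Job MDB2-E_erra (helper43): `L_p`-convergence in a finite corner of truncated factorisations.
-/

open scoped ENNReal NNReal Topology
open Finset MeasureTheory

namespace MDB

open Mc

universe u

namespace H_E_erra

set_option linter.unusedSectionVars false

theorem gr_pow {p : ℝ} (hp : 1 < p) : Gr (fun s : ℝ => s ^ p) p p 1 where
  cont := fun s _ => (Real.continuousAt_rpow_const s p (Or.inr (by linarith))).continuousWithinAt
  mono := fun a ha b _ hab => Real.rpow_le_rpow ha hab (by linarith)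
  zero := Real.zero_rpow (by linarith)
  pos := fun s hs => Real.rpow_pos_of_pos hs p
  low := fun s hs r hr _ => by
    show (r * s) ^ p ≤ 1 * r ^ p * s ^ p
    rw [one_mul, Real.mul_rpow hr.le hs.le]
  up := fun s hs r hr => by
    show (r * s) ^ p ≤ 1 * r ^ p * s ^ p
    rw [one_mul, Real.mul_rpow (by linarith) hs.le]

/-- comparison of `s ^ p` with `Phi` -/
theorem pow_le {Phi : ℝ → ℝ} {p1 q1 C0 p : ℝ} (hG : Gr Phi p1 q1 C0) (hp : 1 < p) (hp1 : p < p1)
    {δ : ℝ} (hδ : 0 < δ) :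
    ∃ C : ℝ, 0 ≤ C ∧ ∀ s : ℝ, 0 ≤ s → s ^ p ≤ δ ^ p + C * Phi s := by
  have hPd : 0 < Phi δ := hG.pos δ hδ
  have hC0 : 0 < C0 := by
    have := hG.low 1 one_pos 1 one_pos le_rfl
    have h1 := hG.pos 1 one_pos
    simp only [mul_one, Real.one_rpow] at this
    nlinarith
  refine ⟨δ ^ p * C0 / Phi δ, by positivity, ?_⟩
  intro s hs
  rcases lt_or_ge s δ with h | h
  · have h1 : s ^ p ≤ δ ^ p := Real.rpow_le_rpow hs h.le (by linarith)
    have h2 : 0 ≤ Phi s := by
      rcases hs.lt_or_eq with h' | h'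
      · exact (hG.pos s h').le
      · rw [← h', hG.zero]
    have h3 : 0 ≤ δ ^ p * C0 / Phi δ * Phi s := by positivity
    linarith
  · have hs' : 0 < s := lt_of_lt_of_le hδ h
    have h1 := hG.low s hs' (δ / s) (by positivity) ((div_le_one hs').2 h)
    rw [div_mul_cancel₀ _ hs'.ne'] at h1
    have h2 : s ^ p = δ ^ p * (s / δ) ^ p := by
      rw [← Real.mul_rpow hδ.le (by positivity), mul_div_cancel₀ _ hδ.ne']
    have h3 : (s / δ) ^ p ≤ (s / δ) ^ p1 :=
      Real.rpow_le_rpow_of_exponent_le ((one_le_div hδ).2 h) hp1.le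
    have h4 : (s / δ) ^ p1 * (δ / s) ^ p1 = 1 := by
      rw [← Real.mul_rpow (by positivity) (by positivity)]
      have : s / δ * (δ / s) = 1 := by field_simp
      rw [this, Real.one_rpow]
    have h5 : (s / δ) ^ p1 ≤ C0 * Phi s / Phi δ := by
      rw [le_div_iff₀ hPd]
      calc (s / δ) ^ p1 * Phi δ ≤ (s / δ) ^ p1 * (C0 * (δ / s) ^ p1 * Phi s) := by gcongr
        _ = ((s / δ) ^ p1 * (δ / s) ^ p1) * (C0 * Phi s) := by ring
        _ = C0 * Phi s := by rw [h4, one_mul]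
    have h6 : s ^ p ≤ δ ^ p * (C0 * Phi s / Phi δ) := by
      rw [h2]
      gcongr
      exact h3.trans h5
    have h7 : 0 ≤ δ ^ p := by positivity
    calc s ^ p ≤ δ ^ p * (C0 * Phi s / Phi δ) := h6
      _ = δ ^ p * C0 / Phi δ * Phi s := by ring
      _ ≤ δ ^ p + δ ^ p * C0 / Phi δ * Phi s := by linarith

variable {H : Type u} [NormedAddCommGroup H] [InnerProductSpace ℂ H] [CompleteSpace H]
variable {𝓜 : TVN H}
variable [UniformSpace (Mc 𝓜)] [IsTopologicalRing (Mc 𝓜)] [IsUniformAddGroup (Mc 𝓜)]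

/-- an element with small support: the integral is over a short interval -/
theorem orl_short {p : ℝ} (hp : 1 < p) (η ζ : Sm 𝓜) (τ : ℝ)
    (h0 : ∀ t : ℝ, 0 < t → 0 ≤ mu η t) (h1 : ∀ t : ℝ, 0 < t → mu η t ≤ mu ζ t)
    (h2 : ∀ t : ℝ, 0 < t → τ ≤ t → mu η t = 0) :
    orl (fun s => s ^ p) η ≤ ∫⁻ t in Set.Ioo (0 : ℝ) τ, ENNReal.ofReal ((mu ζ t) ^ p) := by
  unfold orl
  have e : Set.Ioo (0 : ℝ) τ = Set.Ioi 0 ∩ Set.Iio τ := rfl
  rw [e, Set.inter_comm, ← Measure.restrict_restrict measurableSet_Iio,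
    ← lintegral_indicator measurableSet_Iio]
  apply setLIntegral_mono' measurableSet_Ioi
  intro t ht
  rcases lt_or_ge t τ with h | h
  · rw [Set.indicator_of_mem (show t ∈ Set.Iio τ from h)]
    exact ENNReal.ofReal_le_ofReal (Real.rpow_le_rpow (h0 t ht) (h1 t ht) (by linarith))
  · rw [h2 t ht h]
    simp [Real.zero_rpow (show p ≠ 0 by linarith)]

/-- `L_p` estimate on a finite corner -/
theorem orl_corner {Phi : ℝ → ℝ} {p C δ T : ℝ} (hp : 1 < p) (hC : 0 ≤ C)
    (hle : ∀ s : ℝ, 0 ≤ s → s ^ p ≤ δ ^ p + C * Phi s) (hΦ : ∀ s : ℝ, 0 ≤ s → 0 ≤ Phi s)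
    (hδ : 0 ≤ δ) (hmono : MonotoneOn Phi (Set.Ici 0))
    (η ζ : Sm 𝓜) 
    (h0 : ∀ t : ℝ, 0 < t → 0 ≤ mu η t) (h1 : ∀ t : ℝ, 0 < t → mu η t ≤ mu ζ t)
    (h2 : ∀ t : ℝ, 0 < t → T ≤ t → mu η t = 0) :
    orl (fun s => s ^ p) η ≤ ENNReal.ofReal (δ ^ p) * ENNReal.ofReal T
      + ENNReal.ofReal C * orl Phi ζ := by
  unfold orl
  have hb : ∫⁻ t in Set.Ioi (0 : ℝ), ENNReal.ofReal ((mu η t) ^ p)
      ≤ ∫⁻ t in Set.Ioi (0 : ℝ), ((Set.Iio T).indicator (fun _ => ENNReal.ofReal (δ ^ p)) t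
        + ENNReal.ofReal C * ENNReal.ofReal (Phi (mu ζ t))) := by
    apply setLIntegral_mono' measurableSet_Ioi
    intro t ht
    rcases lt_or_ge t T with h | h
    · rw [Set.indicator_of_mem (show t ∈ Set.Iio T from h)]
      have h3 := hle _ (h0 t ht)
      have h4 : Phi (mu η t) ≤ Phi (mu ζ t) :=
        hmono (h0 t ht) ((h0 t ht).trans (h1 t ht)) (h1 t ht)
      rw [← ENNReal.ofReal_mul hC, ← ENNReal.ofReal_add (by positivity)
        (mul_nonneg hC (hΦ _ ((h0 t ht).trans (h1 t ht))))]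
      apply ENNReal.ofReal_le_ofReal
      nlinarith
    · rw [h2 t ht h]
      simp [Real.zero_rpow (show p ≠ 0 by linarith)]
  refine hb.trans ?_
  rw [lintegral_add_left (measurable_const.indicator measurableSet_Iio),
    lintegral_const_mul' _ _ ENNReal.ofReal_ne_top]
  gcongr
  rw [lintegral_indicator measurableSet_Iio, lintegral_const,
    Measure.restrict_apply MeasurableSet.univ, Set.univ_inter,
    Measure.restrict_apply measurableSet_Iio]
  gcongr
  have e : Set.Iio T ∩ Set.Ioi (0 : ℝ) = Set.Ioo 0 T := by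
    rw [Set.inter_comm]; rfl
  rw [e, Real.volume_Ioo, sub_zero]

end H_E_erra

open H_E_erra in
/-- Job MDB2-E_erra. -/
theorem q_erra (h1 : C_E.{u}) (h2 : C_mu.{u}) (h3 : C_orl.{u}) : E_erra.{u} := by
  intro Phi p1 q1 C0 p hG hp hp2 hpp1
  have hGp := gr_pow hp
  obtain ⟨KE, hKE, hE⟩ := h1 _ p p 1 hGp hp
  obtain ⟨K, hK, hO⟩ := h3 _ p p 1 hGp (by linarith)
  have hC0 : 0 < C0 := by
    have := hG.low 1 one_pos 1 one_pos le_rfl
    have h1 := hG.pos 1 one_pos
    simp only [mul_one, Real.one_rpow] at this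
    nlinarith
  have hΦ : ∀ s : ℝ, 0 ≤ s → 0 ≤ Phi s := by
    intro s hs
    rcases hs.lt_or_eq with h' | h'
    · exact (hG.pos s h').le
    · rw [← h', hG.zero]
  intro H _ _ _ 𝓜 _ _ _ hMT F n ζ v hζ hv hvlim g hg hg0 hgt e f y he hf hetr hftr hy
  obtain ⟨m1, m2, m3, m4, m5, m6, m7, m8, m9, m10, m11⟩ := h2 H 𝓜 hMT
  obtain ⟨o1, o2, o3, o4, o5, o6⟩ := hO H 𝓜 hMT
  have hgn : ‖g.op‖ ≤ 1 := IsStarProjection.norm_le g.op hg
  -- (i) small Orlicz norm implies small L_p norm in the corner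
  have hi : Filter.Tendsto (fun k => orl (fun s => s ^ p)
      ((g : Sm 𝓜) * (ζ - (v k : Sm 𝓜)) * (g : Sm 𝓜))) Filter.atTop (𝓝 0) := by
    rw [ENNReal.tendsto_nhds_zero]
    intro ε hε
    set T : ℝ := (𝓜.tr g.op).toReal with hT
    have hTtr : 𝓜.tr g.op = ENNReal.ofReal T := (ENNReal.ofReal_toReal hgt.ne).symm
    obtain ⟨δ, hδ, hδε⟩ : ∃ δ : ℝ, 0 < δ ∧ ENNReal.ofReal (δ ^ p) * ENNReal.ofReal T ≤ ε / 2 := by
      have hc : Filter.Tendsto (fun δ : ℝ => ENNReal.ofReal (δ ^ p) * ENNReal.ofReal T) (𝓝[>] 0)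
          (𝓝 0) := by
        have h4 : Filter.Tendsto (fun δ : ℝ => δ ^ p) (𝓝[>] 0) (𝓝 0) := by
          have := (Real.continuousAt_rpow_const 0 p (Or.inr (by linarith))).tendsto
          rw [Real.zero_rpow (by linarith)] at this
          exact this.mono_left nhdsWithin_le_nhds
        have h5 := (ENNReal.tendsto_ofReal h4)
        rw [ENNReal.ofReal_zero] at h5
        have h6 := ENNReal.Tendsto.mul_const h5 (Or.inr (ENNReal.ofReal_ne_top (r := T)))
        rwa [zero_mul] at h6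
      have hev := (ENNReal.tendsto_nhds_zero.1 hc) (ε / 2) (ENNReal.half_pos hε.ne')
      have hpos : ∀ᶠ δ : ℝ in 𝓝[>] 0, 0 < δ := self_mem_nhdsWithin
      obtain ⟨δ, h7, h8⟩ := (hev.and hpos).exists
      exact ⟨δ, h8, h7⟩
    obtain ⟨C, hC, hle⟩ := pow_le hG hp hpp1 hδ
    have hsm : Filter.Tendsto (fun k => ENNReal.ofReal C * orl Phi (ζ - (v k : Sm 𝓜)))
        Filter.atTop (𝓝 0) := by
      have := ENNReal.Tendsto.const_mul hvlim (Or.inr (ENNReal.ofReal_ne_top (r := C)))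
      rwa [mul_zero] at this
    filter_upwards [(ENNReal.tendsto_nhds_zero.1 hsm) (ε / 2) (ENNReal.half_pos hε.ne')] with k hk
    have := orl_corner (T := T) hp hC hle hΦ hδ.le hG.mono
      ((g : Sm 𝓜) * (ζ - (v k : Sm 𝓜)) * (g : Sm 𝓜)) (ζ - (v k : Sm 𝓜))
      (fun t _ => m1 _ t)
      (fun t ht => by
        refine (m5 _ g g t ht).trans ?_
        have h9 : 0 ≤ mu (ζ - (v k : Sm 𝓜)) t := m1 _ t
        have h10 : ‖g.op‖ * ‖g.op‖ ≤ 1 := by nlinarith [norm_nonneg g.op]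
        nlinarith)
      (fun t ht htT => by
        rw [mul_assoc]
        exact (m9 _ g t hg ht (by rw [hTtr]; exact ENNReal.ofReal_le_ofReal htT)).1)
    refine this.trans ?_
    calc _ ≤ ε / 2 + ε / 2 := add_le_add hδε hk
      _ = ε := ENNReal.add_halves ε
  -- (ii) the truncation error
  have hii : Filter.Tendsto (fun k => orl (fun s => s ^ p)
      ((e k : Sm 𝓜) * ζ * (f k : Sm 𝓜) - ζ)) Filter.atTop (𝓝 0) := by
    set I : ℕ → ℝ≥0∞ := fun k => ∫⁻ t in Set.Ioo (0 : ℝ) ((1 / 2) ^ k),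
      ENNReal.ofReal ((mu ζ t) ^ p) with hI
    have hIlim : Filter.Tendsto I Filter.atTop (𝓝 0) := by
      have hfin : ∫⁻ t in Set.Ioo (0 : ℝ) 1, ENNReal.ofReal ((mu ζ t) ^ p) ≠ ⊤ := by
        obtain ⟨C, hC, hle⟩ := pow_le hG hp hpp1 one_pos
        have hb : ∫⁻ t in Set.Ioo (0 : ℝ) 1, ENNReal.ofReal ((mu ζ t) ^ p)
            ≤ ∫⁻ t in Set.Ioo (0 : ℝ) 1, ((1 : ℝ≥0∞)
              + ENNReal.ofReal C * ENNReal.ofReal (Phi (mu ζ t))) := by
          apply setLIntegral_mono' measurableSet_Ioo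
          intro t _
          have h3 := hle _ (m1 ζ t)
          rw [Real.one_rpow] at h3
          rw [← ENNReal.ofReal_mul hC, ← ENNReal.ofReal_one,
            ← ENNReal.ofReal_add zero_le_one (mul_nonneg hC (hΦ _ (m1 ζ t)))]
          exact ENNReal.ofReal_le_ofReal h3
        refine ne_of_lt (lt_of_le_of_lt hb ?_)
        rw [lintegral_add_left measurable_const, lintegral_const_mul' _ _ ENNReal.ofReal_ne_top]
        apply ENNReal.add_lt_top.2
        constructor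
        · simp
        · apply ENNReal.mul_lt_top ENNReal.ofReal_lt_top
          refine lt_of_le_of_lt ?_ hζ
          exact lintegral_mono_set (Set.Ioo_subset_Ioi_self)
      have hmeas : Filter.Tendsto ((volume.restrict (Set.Ioo (0 : ℝ) 1)) ∘
          (fun k : ℕ => Set.Ioo (0 : ℝ) ((1 / 2) ^ k))) Filter.atTop (𝓝 0) := by
        have hb : ∀ k : ℕ, (volume.restrict (Set.Ioo (0 : ℝ) 1)) (Set.Ioo (0 : ℝ) ((1 / 2) ^ k))
            ≤ ENNReal.ofReal ((1 / 2) ^ k) := by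
          intro k
          refine (Measure.restrict_apply_le _ _).trans ?_
          rw [Real.volume_Ioo, sub_zero]
        have hl : Filter.Tendsto (fun k : ℕ => ENNReal.ofReal ((1 / 2 : ℝ) ^ k)) Filter.atTop
            (𝓝 0) := by
          have := ENNReal.tendsto_ofReal
            (tendsto_pow_atTop_nhds_zero_of_lt_one (r := (1 / 2 : ℝ)) (by norm_num) (by norm_num))
          rwa [ENNReal.ofReal_zero] at this
        exact tendsto_of_tendsto_of_tendsto_of_le_of_le tendsto_const_nhds hl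
          (fun _ => zero_le) hb
      have := tendsto_setLIntegral_zero hfin hmeas
      refine this.congr fun k => ?_
      rw [Measure.restrict_restrict measurableSet_Ioo]
      congr 2
      apply Set.inter_eq_left.2
      apply Set.Ioo_subset_Ioo_right
      exact pow_le_one₀ (by norm_num) (by norm_num)
    have h1e : ∀ k, IsP (1 - e k) := fun k => (he k).one_sub
    have h1f : ∀ k, IsP (1 - f k) := fun k => (hf k).one_sub
    have hb : ∀ k, orl (fun s => s ^ p) ((e k : Sm 𝓜) * ζ * (f k : Sm 𝓜) - ζ)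
        ≤ ENNReal.ofReal K * (I k + I k) := by
      intro k
      have hek : ‖(e k).op‖ ≤ 1 := IsStarProjection.norm_le _ (he k)
      have hek' : ‖(1 - e k).op‖ ≤ 1 := IsStarProjection.norm_le _ (h1e k)
      have hfk' : ‖(1 - f k).op‖ ≤ 1 := IsStarProjection.norm_le _ (h1f k)
      have h1n : ‖(1 : Mc 𝓜).op‖ ≤ 1 := ContinuousLinearMap.norm_id_le
      have hdec : (e k : Sm 𝓜) * ζ * (f k : Sm 𝓜) - ζ
          = -(((1 - e k : Mc 𝓜) : Sm 𝓜) * ζ + (e k : Sm 𝓜) * ζ * ((1 - f k : Mc 𝓜) : Sm 𝓜)) := by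
        rw [UniformSpace.Completion.coe_sub, UniformSpace.Completion.coe_sub,
          UniformSpace.Completion.coe_one]
        noncomm_ring
      rw [hdec, o2]
      refine (o1 _ _).trans ?_
      gcongr
      · apply orl_short hp _ ζ _ (fun t _ => m1 _ t)
        · intro t ht
          have := m5 ζ (1 - e k) 1 t ht
          rw [UniformSpace.Completion.coe_one, mul_one] at this
          refine this.trans ?_
          have h9 : 0 ≤ mu ζ t := m1 _ t
          have h10 : ‖(1 - e k).op‖ * ‖(1 : Mc 𝓜).op‖ ≤ 1 := by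
            nlinarith [norm_nonneg (1 - e k).op, norm_nonneg (1 : Mc 𝓜).op]
          nlinarith
        · intro t ht htk
          exact (m9 ζ (1 - e k) t (h1e k) ht
            ((hetr k).trans (ENNReal.ofReal_le_ofReal htk))).1
      · apply orl_short hp _ ζ _ (fun t _ => m1 _ t)
        · intro t ht
          refine (m5 ζ (e k) (1 - f k) t ht).trans ?_
          have h9 : 0 ≤ mu ζ t := m1 _ t
          have h10 : ‖(e k).op‖ * ‖(1 - f k).op‖ ≤ 1 := by
            nlinarith [norm_nonneg (e k).op, norm_nonneg (1 - f k).op]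
          nlinarith
        · intro t ht htk
          exact (m9 _ (1 - f k) t (h1f k) ht
            ((hftr k).trans (ENNReal.ofReal_le_ofReal htk))).2
    have hlim2 : Filter.Tendsto (fun k => ENNReal.ofReal K * (I k + I k)) Filter.atTop (𝓝 0) := by
      have h4 := hIlim.add hIlim
      rw [add_zero] at h4
      have := ENNReal.Tendsto.const_mul h4 (Or.inr (ENNReal.ofReal_ne_top (r := K)))
      rwa [mul_zero] at this
    exact tendsto_of_tendsto_of_tendsto_of_le_of_le tendsto_const_nhds hlim2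
      (fun _ => zero_le) hb
  -- assembly
  have hgN : g.op ∈ F.N n := F.mono 0 n (Nat.zero_le n) hg0
  have hfix : ∀ k, F.E n (g * v k * g) = g * v k * g := fun k => by
    rw [F.E_bimod n g (v k) g hgN hgN, hv k]
  have hbound : ∀ k, orl (fun s => s ^ p)
      ((g : Sm 𝓜) * ζ * (g : Sm 𝓜) - ((F.E n (g * y k * g) : Mc 𝓜) : Sm 𝓜))
      ≤ ENNReal.ofReal K * (orl (fun s => s ^ p)
          ((g : Sm 𝓜) * (ζ - (v k : Sm 𝓜)) * (g : Sm 𝓜))
        + ENNReal.ofReal KE * (ENNReal.ofReal K * (orl (fun s => s ^ p)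
            ((e k : Sm 𝓜) * ζ * (f k : Sm 𝓜) - ζ)
          + orl (fun s => s ^ p) ((g : Sm 𝓜) * (ζ - (v k : Sm 𝓜)) * (g : Sm 𝓜))))) := by
    intro k
    have hdec : (g : Sm 𝓜) * ζ * (g : Sm 𝓜) - ((F.E n (g * y k * g) : Mc 𝓜) : Sm 𝓜)
        = (g : Sm 𝓜) * (ζ - (v k : Sm 𝓜)) * (g : Sm 𝓜)
          + -((F.E n (g * (y k - v k) * g) : Mc 𝓜) : Sm 𝓜) := by
      have h4 : g * (y k - v k) * g = g * y k * g - g * v k * g := by noncomm_ring
      rw [h4, map_sub, hfix, UniformSpace.Completion.coe_sub, UniformSpace.Completion.coe_mul,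
        UniformSpace.Completion.coe_mul]
      noncomm_ring
    rw [hdec]
    refine (o1 _ _).trans ?_
    rw [o2]
    gcongr
    refine (hE H 𝓜 hMT F n _).1.trans ?_
    gcongr
    have hdec2 : ((g * (y k - v k) * g : Mc 𝓜) : Sm 𝓜)
        = (g : Sm 𝓜) * ((e k : Sm 𝓜) * ζ * (f k : Sm 𝓜) - ζ) * (g : Sm 𝓜)
          + (g : Sm 𝓜) * (ζ - (v k : Sm 𝓜)) * (g : Sm 𝓜) := by
      rw [UniformSpace.Completion.coe_mul, UniformSpace.Completion.coe_mul,
        UniformSpace.Completion.coe_sub, hy k]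
      noncomm_ring
    rw [hdec2]
    refine (o1 _ _).trans ?_
    gcongr
    exact o4 _ g g hgn hgn
  have hlim3 : Filter.Tendsto (fun k => ENNReal.ofReal K * (orl (fun s => s ^ p)
          ((g : Sm 𝓜) * (ζ - (v k : Sm 𝓜)) * (g : Sm 𝓜))
        + ENNReal.ofReal KE * (ENNReal.ofReal K * (orl (fun s => s ^ p)
            ((e k : Sm 𝓜) * ζ * (f k : Sm 𝓜) - ζ)
          + orl (fun s => s ^ p) ((g : Sm 𝓜) * (ζ - (v k : Sm 𝓜)) * (g : Sm 𝓜))))))
      Filter.atTop (𝓝 0) := by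
    have a1 := hii.add hi
    rw [add_zero] at a1
    have a2 := ENNReal.Tendsto.const_mul a1 (Or.inr (ENNReal.ofReal_ne_top (r := K)))
    rw [mul_zero] at a2
    have a3 := ENNReal.Tendsto.const_mul a2 (Or.inr (ENNReal.ofReal_ne_top (r := KE)))
    rw [mul_zero] at a3
    have a4 := hi.add a3
    rw [add_zero] at a4
    have a5 := ENNReal.Tendsto.const_mul a4 (Or.inr (ENNReal.ofReal_ne_top (r := K)))
    rwa [mul_zero] at a5
  exact tendsto_of_tendsto_of_tendsto_of_le_of_le tendsto_const_nhds hlim3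
    (fun _ => zero_le) hbound

end MDB
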