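import Pool.Agent.MDB.Targets2
import Pool.Agent.MDB.Targets

/-!
# `L_p`-convergence in a finite corner of the approximants in the conditioned Hardy space
-/

open scoped ENNReal NNReal Topology
open Finset

namespace MDB

open Mc

universe u

namespace H_E_errz

variable {H : Type u} [NormedAddCommGroup H] [InnerProductSpace ℂ H] [CompleteSpace H]
variable {𝓜 : TVN H}

theorem op_mul (x y : Mc 𝓜) : (x * y).op = x.op * y.op := rfl
theorem op_add (x y : Mc 𝓜) : (x + y).op = x.op + y.op := rfl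
theorem op_sub (x y : Mc 𝓜) : (x - y).op = x.op - y.op := rfl
theorem op_zero : (0 : Mc 𝓜).op = 0 := rfl
theorem op_one : (1 : Mc 𝓜).op = 1 := rfl
theorem op_star (x : Mc 𝓜) : (star x).op = star x.op := rfl
theorem op_inj {x y : Mc 𝓜} (h : x.op = y.op) : x = y := Subtype.ext h
theorem op_mem (x : Mc 𝓜) : x.op ∈ 𝓜.M := x.2
theorem op_mk (x : H →L[ℂ] H) (hx : x ∈ 𝓜.M) : (Mc.mk x hx : Mc 𝓜).op = x := rfl

theorem op_sum {ι : Type*} (s : Finset ι) (f : ι → Mc 𝓜) :
    (∑ i ∈ s, f i).op = ∑ i ∈ s, (f i).op := by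
  classical
  induction s using Finset.induction_on with
  | empty => simp [op_zero]
  | insert a s ha ih => rw [Finset.sum_insert ha, Finset.sum_insert ha, op_add, ih]

theorem gr_one_le {Phi : ℝ → ℝ} {p1 q1 C0 : ℝ} (hG : Gr Phi p1 q1 C0) : 1 ≤ C0 := by
  have h := hG.low 1 one_pos 1 one_pos le_rfl
  rw [Real.one_rpow, mul_one, mul_one] at h
  have h1 := hG.pos 1 one_pos
  by_contra hc
  have h2 : C0 < 1 := not_le.1 hc
  nlinarith

/-- powers are dominated -/
theorem pow_le {Phi : ℝ → ℝ} {p1 q1 C0 p : ℝ} (hG : Gr Phi p1 q1 C0) (hp : 0 < p) (hpp : p < p1)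
    {del : ℝ} (hdel : 0 < del) :
    ∃ C : ℝ, 0 < C ∧ ∀ s : ℝ, 0 ≤ s → s ^ p ≤ del + C * Phi s := by
  set s0 : ℝ := del ^ (1 / p) with hs0
  have hs0p : 0 < s0 := Real.rpow_pos_of_pos hdel _
  have hs0e : s0 ^ p = del := by
    rw [hs0, ← Real.rpow_mul hdel.le, one_div, inv_mul_cancel₀ hp.ne', Real.rpow_one]
  have hC0 := gr_one_le hG
  have hP0 := hG.pos s0 hs0p
  refine ⟨C0 * del / Phi s0, by positivity, ?_⟩
  intro s hs
  have hPs : 0 ≤ Phi s := by
    rcases hs.eq_or_lt with h | h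
    · rw [← h, hG.zero]
    · exact (hG.pos s h).le
  rcases le_or_gt s s0 with h | h
  · have h1 : s ^ p ≤ s0 ^ p := Real.rpow_le_rpow hs h hp.le
    have h2 : 0 ≤ C0 * del / Phi s0 * Phi s := by positivity
    linarith
  · have hsp : 0 < s := hs0p.trans h
    have hr : 0 < s0 / s := div_pos hs0p hsp
    have hr1 : s0 / s ≤ 1 := (div_le_one hsp).2 h.le
    have h1 := hG.low s hsp (s0 / s) hr hr1
    rw [div_mul_cancel₀ _ hsp.ne'] at h1
    have h2 : (s0 / s) ^ p1 ≤ (s0 / s) ^ p := Real.rpow_le_rpow_of_exponent_ge hr hr1 hpp.le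
    have h3 : (s0 / s) ^ p = del / s ^ p := by
      rw [Real.div_rpow hs0p.le hs, hs0e]
    have hsP : 0 < s ^ p := Real.rpow_pos_of_pos hsp _
    have h4 : Phi s0 ≤ C0 * (del / s ^ p) * Phi s := by
      refine h1.trans ?_
      rw [← h3]
      have : C0 * (s0 / s) ^ p1 ≤ C0 * (s0 / s) ^ p :=
        mul_le_mul_of_nonneg_left h2 (by linarith)
      exact mul_le_mul_of_nonneg_right this hPs
    have h5 : s ^ p * Phi s0 ≤ C0 * del * Phi s := by
      have := mul_le_mul_of_nonneg_left h4 hsP.le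
      have e : s ^ p * (C0 * (del / s ^ p) * Phi s) = C0 * del * Phi s := by
        field_simp
      rwa [e] at this
    have h6 : s ^ p ≤ C0 * del / Phi s0 * Phi s := by
      rw [div_mul_eq_mul_div, le_div_iff₀ hP0]
      exact h5
    linarith

theorem dif_succ {α : Type*} [Sub α] (f : ℕ → α) (n : ℕ) : dif f (n + 1) = f (n + 1) - f n := by
  simp [dif]

theorem op_norm_le {g : Mc 𝓜} (hg : IsP g) : ‖g.op‖ ≤ 1 :=
  IsStarProjection.norm_le _ hg

section alg

variable (F : Filtr 𝓜)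

theorem sc2_nonneg (K : ℕ) (y : Mc 𝓜) : 0 ≤ (sc2 F K y).op := by
  rw [sc2, op_sum]
  refine Finset.sum_nonneg ?_
  intro i _
  refine F.E_nonneg _ _ ?_
  rw [op_mul, op_star]
  exact star_mul_self_nonneg _

theorem term_le_sc2 (K n : ℕ) (hn : n + 1 ≤ K) (y : Mc 𝓜) :
    (F.E n (star (dif (fun m => F.E m y) (n + 1)) * dif (fun m => F.E m y) (n + 1))).op
      ≤ (sc2 F K y).op := by
  rw [sc2, op_sum]
  have h : ∀ i ∈ range (K + 1), 0 ≤ (F.E (i - 1) (star (dif (fun m => F.E m y) i)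
      * dif (fun m => F.E m y) i)).op := by
    intro i _
    refine F.E_nonneg _ _ ?_
    rw [op_mul, op_star]
    exact star_mul_self_nonneg _
  have := Finset.single_le_sum h (Finset.mem_range.2 (show n + 1 < K + 1 by omega))
  simpa using this

theorem gg {g : Mc 𝓜} (hg : IsP g) : g * g = g := op_inj hg.isIdempotentElem.eq

theorem gs {g : Mc 𝓜} (hg : IsP g) : star g = g := op_inj hg.isSelfAdjoint.star_eq

theorem key (hE : A_E.{u}) {g : Mc 𝓜} (hg : IsP g) (hgN : g.op ∈ F.N 0) (K n : ℕ) (y : Mc 𝓜) (hy : F.E K y = y) :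
    ∀ w : Mc 𝓜, w = g * (dif (fun m => F.E m y) (n + 1)) * g →
      g * w * g = w ∧ F.E (n + 1) w = w ∧ F.E n w = 0 ∧
      0 ≤ (F.E n (star w * w)).op ∧
      (F.E n (star w * w)) * g = F.E n (star w * w) ∧
      (F.E n (star w * w)).op ≤ (g * sc2 F K y * g).op := by
  obtain ⟨hEs, hE1, hEt, hEt', -, hEm, -⟩ := hE H 𝓜 F
  have hgg : g * g = g := gg hg
  have hgs : star g = g := gs hg
  have hgn : ∀ m, g.op ∈ F.N m := fun m => F.mono 0 m (Nat.zero_le m) hgN
  intro w hw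
  set u : Mc 𝓜 := dif (fun m => F.E m y) (n + 1) with hu
  have hu' : u = F.E (n + 1) y - F.E n y := dif_succ _ n
  have hu1 : F.E (n + 1) u = u := by
    rw [hu', map_sub, hEt' (n + 1) (n + 1) y le_rfl, hEt' n (n + 1) y (Nat.le_succ n)]
  have hu0 : F.E n u = 0 := by
    rw [hu', map_sub, hEt n (n + 1) y (Nat.le_succ n), hEt n n y le_rfl, sub_self]
  have hws : star w = g * star u * g := by
    rw [hw, star_mul, star_mul, hgs, mul_assoc]
  have hX0 : 0 ≤ (F.E n (star w * w)).op := by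
    refine F.E_nonneg _ _ ?_
    rw [op_mul, op_star]
    exact star_mul_self_nonneg _
  have hXg : (F.E n (star w * w)) * g = F.E n (star w * w) := by
    have h1 : 1 * (star w * w) * g = star w * w := by
      rw [one_mul, mul_assoc]
      congr 1
      rw [hw, mul_assoc, hgg]
    have h2 := F.E_bimod n 1 (star w * w) g (by rw [op_one]; exact one_mem _) (hgn n)
    rw [h1, one_mul] at h2
    exact h2.symm
  refine ⟨?_, ?_, ?_, hX0, hXg, ?_⟩
  · rw [hw]
    calc g * (g * u * g) * g = (g * g) * u * (g * g) := by noncomm_ring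
      _ = g * u * g := by rw [hgg]
  · rw [hw, F.E_bimod (n + 1) g u g (hgn _) (hgn _), hu1]
  · rw [hw, F.E_bimod n g u g (hgn _) (hgn _), hu0, mul_zero, zero_mul]
  · rcases Nat.lt_or_ge K (n + 1) with hK | hK
    · -- the difference vanishes
      have h1 : F.E (n + 1) y = y := by
        have := hEt' K (n + 1) y hK.le
        rwa [hy] at this
      have h2 : F.E n y = y := by
        have := hEt' K n y (Nat.lt_succ_iff.1 hK)
        rwa [hy] at this
      have h3 : u = 0 := by rw [hu', h1, h2, sub_self]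
      have h4 : w = 0 := by rw [hw, h3, mul_zero, zero_mul]
      rw [h4, mul_zero, map_zero, op_zero, op_mul, op_mul]
      have h5 := star_right_conjugate_nonneg (sc2_nonneg F K y) g.op
      rwa [hg.isSelfAdjoint.star_eq] at h5
    · -- a term of the square function
      have h1 : (star w * w).op ≤ (g * (star u * u) * g).op := by
        have e : g * (star u * u) * g - star w * w
            = star ((1 - g) * (u * g)) * ((1 - g) * (u * g)) := by
          rw [hws, hw, star_mul, star_sub, star_one, star_mul, hgs]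
          have e1 : (1 - g) * (1 - g) = 1 - g := by
            have : (1 - g) * (1 - g) = 1 - g - g + g * g := by noncomm_ring
            rw [this, hgg]
            noncomm_ring
          calc g * (star u * u) * g - g * star u * g * (g * u * g)
              = g * star u * (1 - g * g) * (u * g) := by noncomm_ring
            _ = g * star u * (1 - g) * (u * g) := by rw [hgg]
            _ = g * star u * ((1 - g) * (1 - g)) * (u * g) := by rw [e1]
            _ = g * star u * (1 - g) * ((1 - g) * (u * g)) := by noncomm_ring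
        rw [← sub_nonneg, ← op_sub, e, op_mul, op_star]
        exact star_mul_self_nonneg _
      have h2 := hEm n _ _ h1
      rw [F.E_bimod n g (star u * u) g (hgn _) (hgn _)] at h2
      refine h2.trans ?_
      rw [op_mul, op_mul, op_mul, op_mul]
      have h3 := star_right_conjugate_le_conjugate (term_le_sc2 F K n hK y) g.op
      rw [hg.isSelfAdjoint.star_eq] at h3
      exact h3

end alg

section meas

variable [UniformSpace (Mc 𝓜)] [IsTopologicalRing (Mc 𝓜)] [IsUniformAddGroup (Mc 𝓜)]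

/-- the singular numbers are monotone on the positive cone of `M` -/
theorem mu_mono (hMT : IsMT 𝓜) (h5 : C_layer.{u}) (h7 : A_tr.{u}) (h8 : A_cfc.{u})
    (h9 : C_ball.{u}) (h3 : C_mu.{u}) (X Y : Mc 𝓜) (hX : 0 ≤ X.op) (hXY : X.op ≤ Y.op) (t : ℝ)
    (ht : 0 < t) :
    mu (X : Sm 𝓜) t ≤ mu (Y : Sm 𝓜) t := by
  have hY : 0 ≤ Y.op := hX.trans hXY
  have key : ∀ Z : Mc 𝓜, 0 ≤ Z.op → ∃ r : Mc 𝓜, star r * r = Z := by
    intro Z hZ
    refine ⟨Mc.mk (cfc Real.sqrt Z.op) (h8 H 𝓜.M Z.op Real.sqrt (op_mem Z)), ?_⟩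
    apply op_inj
    rw [op_mul, op_star, op_mk]
    have hsa : IsSelfAdjoint (cfc Real.sqrt Z.op) := cfc_predicate _ _
    rw [hsa.star_eq, ← cfc_mul Real.sqrt Real.sqrt Z.op (Real.continuous_sqrt.continuousOn)
      (Real.continuous_sqrt.continuousOn)]
    have hsp : Set.EqOn (fun x : ℝ => √x * √x) (fun x => x) (spectrum ℝ Z.op) := by
      intro x hx
      exact Real.mul_self_sqrt (spectrum_nonneg_of_nonneg hZ hx)
    rw [cfc_congr hsp]
    exact cfc_id' ℝ Z.op (IsSelfAdjoint.of_nonneg hZ)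
  obtain ⟨r, hr⟩ := key X hX
  obtain ⟨s, hs⟩ := key Y hY
  have hL := h5 H 𝓜 hMT (fun s => s) continuousOn_id (fun a _ b _ h => h) rfl
  have hr2 := hL.2.2 r t ht
  have hs2 := hL.2.2 s t ht
  rw [hr] at hr2
  rw [hs] at hs2
  rw [hr2, hs2]
  have hnn : 0 ≤ mu (r : Sm 𝓜) t := (h3 H 𝓜 hMT).1 _ _
  refine pow_le_pow_left₀ hnn ?_ 2
  have hinj := (h9 H 𝓜 hMT).1
  have hbdd : BddBelow {lam : ℝ | ∃ e y : Mc 𝓜, IsP e ∧ 𝓜.tr (1 - e).op ≤ ENNReal.ofReal t ∧
    (r : Sm 𝓜) * (e : Sm 𝓜) = (y : Sm 𝓜) ∧ ‖y.op‖ = lam} := by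
    refine ⟨0, ?_⟩
    rintro lam ⟨e, y, -, -, -, h⟩
    rw [← h]
    exact norm_nonneg _
  rw [mu, mu]
  refine le_csInf ?_ ?_
  · refine ⟨‖(s * 1 : Mc 𝓜).op‖, 1, s * 1, ?_, ?_, ?_, rfl⟩
    · rw [IsP, op_one]
      exact ⟨by rw [IsIdempotentElem, mul_one], IsSelfAdjoint.one _⟩
    · rw [sub_self, op_zero, (h7 H 𝓜).1]
      exact zero_le
    · rw [UniformSpace.Completion.coe_mul]
  · rintro lam ⟨e, y, he, hte, hey, hlam⟩
    have hy : y = s * e := by
      apply hinj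
      rw [← hey, UniformSpace.Completion.coe_mul]
    refine (csInf_le hbdd ⟨e, r * e, he, hte, by rw [UniformSpace.Completion.coe_mul], rfl⟩).trans ?_
    rw [← hlam, hy]
    have hcomp : ∀ q Z : Mc 𝓜, star q * q = Z → ‖(q * e).op‖ ^ 2 = ‖e.op * Z.op * e.op‖ := by
      intro q Z hq
      rw [sq, ← CStarRing.norm_star_mul_self, ← hq]
      congr 1
      rw [op_mul, op_mul, op_star, star_mul, he.isSelfAdjoint.star_eq]
      simp only [mul_assoc]
    have h1 := hcomp r X hr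
    have h2 := hcomp s Y hs
    have h3 : ‖e.op * X.op * e.op‖ ≤ ‖e.op * Y.op * e.op‖ := by
      have h4 := star_right_conjugate_le_conjugate hXY e.op
      have h5 := star_right_conjugate_nonneg hX e.op
      rw [he.isSelfAdjoint.star_eq] at h4 h5
      exact CStarAlgebra.norm_le_norm_of_nonneg_of_le h5 h4
    rw [← h1, ← h2] at h3
    exact (pow_le_pow_iff_left₀ (norm_nonneg _) (norm_nonneg _) two_ne_zero).1 h3

omit [IsTopologicalRing (Mc 𝓜)] [IsUniformAddGroup (Mc 𝓜)] in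
theorem orl_mono (f : ℝ → ℝ) (hf : MonotoneOn f (Set.Ici 0)) (ξ η : Sm 𝓜)
    (h0 : ∀ t, 0 ≤ mu ξ t) (h : ∀ t, 0 < t → mu ξ t ≤ mu η t) :
    orl f ξ ≤ orl f η := by
  rw [orl, orl]
  refine MeasureTheory.setLIntegral_mono' measurableSet_Ioi ?_
  intro t ht
  refine ENNReal.ofReal_le_ofReal (hf (h0 t) ((h0 t).trans (h t ht)) (h t ht))

/-- the main estimate -/
theorem est (hMT : IsMT 𝓜) {Phi : ℝ → ℝ} {p1 q1 C0 p : ℝ} (hG : Gr Phi p1 q1 C0)
    (hp1 : 1 < p) (hp2 : p ≤ 2)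
    (h1 : D_one.{u}) (h3 : C_mu.{u}) (h5 : C_layer.{u}) (h6 : A_E.{u}) (h7 : A_tr.{u})
    (h8 : A_cfc.{u}) (h9 : C_ball.{u})
    (F : Filtr 𝓜) (g : Mc 𝓜) (hg : IsP g) (hgN : g.op ∈ F.N 0) (hgt : 𝓜.tr g.op < ⊤)
    (K n : ℕ) (y : Mc 𝓜) (hy : F.E K y = y) (del C : ℝ) (hdel : 0 < del) (hC : 0 < C)
    (hdC : ∀ s : ℝ, 0 ≤ s → s ^ p ≤ del + C * Phi s) :
    orl (fun s => s ^ p) ((g * (dif (fun m => F.E m y) (n + 1)) * g : Mc 𝓜) : Sm 𝓜)
      ≤ ENNReal.ofReal (3 / 2) * (ENNReal.ofReal del * 𝓜.tr g.op)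
        + ENNReal.ofReal (3 / 2) * (ENNReal.ofReal C * bsc F Phi K y) := by
  have hp0 : 0 < p := one_pos.trans hp1
  obtain ⟨k1, k2, k3, k4, k5, k6⟩ := key F h6 hg hgN K n y hy _ rfl
  set w : Mc 𝓜 := g * (dif (fun m => F.E m y) (n + 1)) * g with hw
  set X : Mc 𝓜 := F.E n (star w * w) with hX
  have hM := h3 H 𝓜 hMT
  have hpowc : ContinuousOn (fun s : ℝ => s ^ p) (Set.Ici 0) :=
    (Real.continuous_rpow_const hp0.le).continuousOn
  have hpowm : MonotoneOn (fun s : ℝ => s ^ p) (Set.Ici 0) := by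
    intro a ha b hb hab
    exact Real.rpow_le_rpow ha hab hp0.le
  have hpow0 : (fun s : ℝ => s ^ p) 0 = 0 := Real.zero_rpow hp0.ne'
  have hspc : ContinuousOn (fun s : ℝ => (Real.sqrt s) ^ p) (Set.Ici 0) :=
    ((Real.continuous_rpow_const hp0.le).comp Real.continuous_sqrt).continuousOn
  have hspm : MonotoneOn (fun s : ℝ => (Real.sqrt s) ^ p) (Set.Ici 0) := by
    intro a ha b hb hab
    exact Real.rpow_le_rpow (Real.sqrt_nonneg _) (Real.sqrt_le_sqrt hab) hp0.le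
  have hsp0 : (fun s : ℝ => (Real.sqrt s) ^ p) 0 = 0 := by
    simp only [Real.sqrt_zero]
    exact Real.zero_rpow hp0.ne'
  have hPc : ContinuousOn (fun s : ℝ => Phi (Real.sqrt s)) (Set.Ici 0) :=
    hG.cont.comp Real.continuous_sqrt.continuousOn (fun x _ => Real.sqrt_nonneg x)
  have hPm : MonotoneOn (fun s : ℝ => Phi (Real.sqrt s)) (Set.Ici 0) := by
    intro a ha b hb hab
    exact hG.mono (Real.sqrt_nonneg _) (Real.sqrt_nonneg _) (Real.sqrt_le_sqrt hab)
  have hP0 : (fun s : ℝ => Phi (Real.sqrt s)) 0 = 0 := by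
    simp only [Real.sqrt_zero]
    exact hG.zero
  have e1 := ((h5 H 𝓜 hMT _ hpowc hpowm hpow0).2.1 w)
  have e2 := h1 p hp1 hp2 H 𝓜 F g hg hgN hgt n w k1 k2 k3
  have e3 := ((h5 H 𝓜 hMT _ hspc hspm hsp0).1 X k4)
  have e4 := ((h5 H 𝓜 hMT _ hPc hPm hP0).1 (sc2 F K y) (sc2_nonneg F K y))
  rw [← e1, ← mul_add]
  refine e2.trans (mul_le_mul_right ?_ _)
  rw [e3, bsc, e4]
  -- the singular numbers of `X`
  have hXS : ∀ t, 0 < t → mu (X : Sm 𝓜) t ≤ mu (sc2 F K y : Sm 𝓜) t := by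
    intro t ht
    refine (mu_mono hMT h5 h7 h8 h9 h3 X _ k4 k6 t ht).trans ?_
    rw [UniformSpace.Completion.coe_mul, UniformSpace.Completion.coe_mul]
    refine (hM.2.2.2.2.1 _ g g t ht).trans ?_
    have hgn := op_norm_le hg
    have h0 := hM.1 (sc2 F K y : Sm 𝓜) t
    have h2 : ‖g.op‖ * ‖g.op‖ ≤ 1 := mul_le_one₀ hgn (norm_nonneg _) hgn
    exact mul_le_of_le_one_left h0 h2
  have hX0 : ∀ t, 0 < t → (𝓜.tr g.op).toReal ≤ t → mu (X : Sm 𝓜) t = 0 := by
    intro t ht htt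
    have htr : 𝓜.tr g.op ≤ ENNReal.ofReal t := by
      rw [← ENNReal.ofReal_toReal hgt.ne]
      exact ENNReal.ofReal_le_ofReal htt
    have := (hM.2.2.2.2.2.2.2.2.1 (X : Sm 𝓜) g t hg ht htr).2
    rwa [← UniformSpace.Completion.coe_mul, k5] at this
  have step : orl (fun s : ℝ => (Real.sqrt s) ^ p) (X : Sm 𝓜)
      ≤ ENNReal.ofReal del * 𝓜.tr g.op
        + ENNReal.ofReal C * orl (fun s : ℝ => Phi (Real.sqrt s)) (X : Sm 𝓜) := by
    rw [orl, orl]
    have hpt : ∀ t ∈ Set.Ioi (0 : ℝ), ENNReal.ofReal ((Real.sqrt (mu (X : Sm 𝓜) t)) ^ p)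
        ≤ (Set.Iio (𝓜.tr g.op).toReal).indicator (fun _ => ENNReal.ofReal del) t
          + ENNReal.ofReal C * ENNReal.ofReal (Phi (Real.sqrt (mu (X : Sm 𝓜) t))) := by
      intro t ht
      rcases lt_or_ge t (𝓜.tr g.op).toReal with h | h
      · rw [Set.indicator_of_mem (show t ∈ Set.Iio (𝓜.tr g.op).toReal from h),
          ← ENNReal.ofReal_mul hC.le, ← ENNReal.ofReal_add hdel.le]
        · exact ENNReal.ofReal_le_ofReal (hdC _ (Real.sqrt_nonneg _))
        · refine mul_nonneg hC.le ?_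
          have := hG.mono (Set.mem_Ici.2 le_rfl) (Set.mem_Ici.2 (Real.sqrt_nonneg (mu (X : Sm 𝓜) t)))
            (Real.sqrt_nonneg _)
          rwa [hG.zero] at this
      · rw [hX0 t ht h, Real.sqrt_zero, Real.zero_rpow hp0.ne', ENNReal.ofReal_zero]
        exact zero_le
    refine (MeasureTheory.setLIntegral_mono' measurableSet_Ioi hpt).trans ?_
    rw [MeasureTheory.lintegral_add_left (measurable_const.indicator measurableSet_Iio),
      MeasureTheory.lintegral_const_mul' _ _ ENNReal.ofReal_ne_top]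
    refine add_le_add ?_ le_rfl
    rw [MeasureTheory.lintegral_indicator measurableSet_Iio,
      MeasureTheory.setLIntegral_const, MeasureTheory.Measure.restrict_apply measurableSet_Iio]
    have : (Set.Iio (𝓜.tr g.op).toReal) ∩ Set.Ioi (0 : ℝ) = Set.Ioo 0 (𝓜.tr g.op).toReal := by
      ext x; simp [and_comm]
    rw [this, Real.volume_Ioo, sub_zero, ENNReal.ofReal_toReal hgt.ne]
  refine step.trans (add_le_add le_rfl (mul_le_mul_right ?_ _))
  exact orl_mono _ hPm _ _ (hM.1 _) hXS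

end meas

end H_E_errz

open H_E_errz in
theorem q_errz (h1 : D_one.{u}) (h2 : C_fatou.{u}) (h3 : C_mu.{u}) (h4 : C_orl.{u})
    (h5 : C_layer.{u}) (h6 : A_E.{u}) (h7 : A_tr.{u}) (h8 : A_cfc.{u}) (h9 : C_ball.{u}) :
    E_errz.{u} := by
  intro Phi p1 q1 C0 p hG hp1 hp2 hpp H _ _ _ 𝓜 _ _ _ hMT F ζ z K hCA g hg hgN hgt n
  have hp0 : 0 < p := one_pos.trans hp1
  have hpowc : ContinuousOn (fun s : ℝ => s ^ p) (Set.Ici 0) :=
    (Real.continuous_rpow_const hp0.le).continuousOn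
  have hpowm : MonotoneOn (fun s : ℝ => s ^ p) (Set.Ici 0) := by
    intro a ha b hb hab
    exact Real.rpow_le_rpow ha hab hp0.le
  have hpow0 : 0 ≤ (fun s : ℝ => s ^ p) 0 := by
    simp only [Real.zero_rpow hp0.ne', le_refl]
  rw [ENNReal.tendsto_nhds_zero]
  intro ε hε
  have hε2 : 0 < ε / 2 := ENNReal.half_pos hε.ne'
  -- choose `del`
  obtain ⟨del, hdel, hdel2⟩ : ∃ del : ℝ, 0 < del ∧
      ENNReal.ofReal (3 / 2) * (ENNReal.ofReal del * 𝓜.tr g.op) ≤ ε / 2 := by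
    have ht : Filter.Tendsto (fun m : ℕ => ENNReal.ofReal (3 / 2) *
        (ENNReal.ofReal (1 / ((m : ℝ) + 1)) * 𝓜.tr g.op)) Filter.atTop
        (𝓝 (ENNReal.ofReal (3 / 2) * (ENNReal.ofReal 0 * 𝓜.tr g.op))) :=
      ENNReal.Tendsto.const_mul (ENNReal.Tendsto.mul_const
        (ENNReal.tendsto_ofReal tendsto_one_div_add_atTop_nhds_zero_nat) (Or.inr hgt.ne))
        (Or.inr ENNReal.ofReal_ne_top)
    rw [ENNReal.ofReal_zero, zero_mul, mul_zero, ENNReal.tendsto_nhds_zero] at ht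
    obtain ⟨m, hm⟩ := (ht (ε / 2) hε2).exists
    exact ⟨1 / ((m : ℝ) + 1), by positivity, hm⟩
  obtain ⟨C, hC, hdC⟩ := pow_le hG hp0 hpp hdel
  -- the Cauchy property
  have hca : Filter.Tendsto (fun kl : ℕ × ℕ => ENNReal.ofReal (3 / 2) * (ENNReal.ofReal C *
      bsc F Phi (max (K kl.2) (K kl.1)) (z kl.2 - z kl.1))) (Filter.atTop ×ˢ Filter.atTop)
      (𝓝 0) := by
    have hsw : Filter.Tendsto (fun kl : ℕ × ℕ => (kl.2, kl.1)) (Filter.atTop ×ˢ Filter.atTop)
        (Filter.atTop ×ˢ Filter.atTop) := Filter.tendsto_snd.prodMk Filter.tendsto_fst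
    have h := hCA.cauchy.comp hsw
    have h' : Filter.Tendsto (fun kl : ℕ × ℕ => ENNReal.ofReal (3 / 2) * (ENNReal.ofReal C *
      bsc F Phi (max (K kl.2) (K kl.1)) (z kl.2 - z kl.1))) (Filter.atTop ×ˢ Filter.atTop)
      (𝓝 (ENNReal.ofReal (3 / 2) * (ENNReal.ofReal C * 0))) :=
      ENNReal.Tendsto.const_mul (ENNReal.Tendsto.const_mul h (Or.inr ENNReal.ofReal_ne_top))
        (Or.inr ENNReal.ofReal_ne_top)
    simpa using h'
  have hev := ((ENNReal.tendsto_nhds_zero.1 hca) (ε / 2) hε2).curry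
  refine hev.mono ?_
  intro k hk
  -- the limit in the second variable
  have hlim : Filter.Tendsto (fun l => ((g * (dif (fun m => F.E m (z l - z k)) (n + 1)) * g :
      Mc 𝓜) : Sm 𝓜)) Filter.atTop
      (𝓝 ((g : Sm 𝓜) * (ζ (n + 1) - (dif (fun m => F.E m (z k)) (n + 1) : Sm 𝓜)) * (g : Sm 𝓜))) := by
    have e : ∀ l, ((g * (dif (fun m => F.E m (z l - z k)) (n + 1)) * g : Mc 𝓜) : Sm 𝓜)
        = (g : Sm 𝓜) * ((dif (fun m => F.E m (z l)) (n + 1) : Sm 𝓜)
          - (dif (fun m => F.E m (z k)) (n + 1) : Sm 𝓜)) * (g : Sm 𝓜) := by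
      intro l
      rw [dif_succ, dif_succ, dif_succ, ← UniformSpace.Completion.coe_sub,
        ← UniformSpace.Completion.coe_sub, ← UniformSpace.Completion.coe_sub,
        ← UniformSpace.Completion.coe_mul, ← UniformSpace.Completion.coe_mul, map_sub, map_sub]
      have e' : F.E (n + 1) (z l) - F.E (n + 1) (z k) - (F.E n (z l) - F.E n (z k))
          = F.E (n + 1) (z l) - F.E n (z l) - (F.E (n + 1) (z k) - F.E n (z k)) := by abel
      rw [e']
    simp only [e]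
    have hl := (hCA.lim (n + 1) g hg hgN hgt).sub
      (tendsto_const_nhds (x := (g : Sm 𝓜) * (dif (fun m => F.E m (z k)) (n + 1) : Sm 𝓜)
        * (g : Sm 𝓜)))
    have e2 : ∀ a b : Sm 𝓜, (g : Sm 𝓜) * a * (g : Sm 𝓜) - (g : Sm 𝓜) * b * (g : Sm 𝓜)
        = (g : Sm 𝓜) * (a - b) * (g : Sm 𝓜) := by
      intro a b
      rw [mul_sub, sub_mul]
    rw [e2] at hl
    exact hl.congr fun l => e2 _ _
  refine (h2 H 𝓜 hMT _ hpowc hpowm hpow0 _ _ hlim).trans ?_
  refine Filter.liminf_le_of_frequently_le' (Filter.Eventually.frequently ?_)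
  refine hk.mono ?_
  intro l hl
  have hfin : F.E (max (K l) (K k)) (z l - z k) = z l - z k := by
    obtain ⟨-, -, -, hEt', -, -, -⟩ := h6 H 𝓜 F
    rw [map_sub]
    congr 1
    · have := hEt' (K l) (max (K l) (K k)) (z l) (le_max_left _ _)
      rwa [hCA.fin l] at this
    · have := hEt' (K k) (max (K l) (K k)) (z k) (le_max_right _ _)
      rwa [hCA.fin k] at this
  refine (est hMT hG hp1 hp2 h1 h3 h5 h6 h7 h8 h9 F g hg hgN hgt (max (K l) (K k)) n (z l - z k)
    hfin del C hdel hC hdC).trans ?_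
  calc _ ≤ ε / 2 + ε / 2 := add_le_add hdel2 hl
    _ = ε := ENNReal.add_halves ε

end MDB
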