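import Pool.Agent.MDB.Targets2

/-!
# E_idx: indices give growth
-/

open scoped ENNReal NNReal Topology

namespace MDB

namespace H_E_idx

lemma aux1 (L : EReal) (c r : ℝ) (hc : c < 0) (h : (r : EReal) < L / (c : EReal)) :
    L ≤ ((r * c : ℝ) : EReal) := by
  induction L with
  | bot => exact bot_le
  | coe x =>
    rw [← EReal.coe_div, EReal.coe_lt_coe_iff, lt_div_iff_of_neg hc] at h
    exact EReal.coe_le_coe_iff.mpr h.le
  | top =>
    rw [EReal.top_div_of_neg_ne_bot (by exact_mod_cast hc) (EReal.coe_ne_bot c)] at h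
    exact absurd h not_lt_bot

lemma aux2 (L : EReal) (c r : ℝ) (hc : 0 < c) (h : L / (c : EReal) < (r : EReal)) :
    L ≤ ((r * c : ℝ) : EReal) := by
  induction L with
  | bot => exact bot_le
  | coe x =>
    rw [← EReal.coe_div, EReal.coe_lt_coe_iff, div_lt_iff₀ hc] at h
    exact EReal.coe_le_coe_iff.mpr h.le
  | top =>
    rw [EReal.top_div_of_pos_ne_top (by exact_mod_cast hc) (EReal.coe_ne_top c)] at h
    exact absurd h not_top_lt

lemma mt_bound (Phi : ℝ → ℝ) (t r : ℝ) (ht : 0 < t) (hnn : ∀ s, 0 ≤ s → 0 ≤ Phi s)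
    (h : (Mt Phi t).log ≤ ((r * Real.log t : ℝ) : EReal)) (s : ℝ) (hs : 0 < s) :
    Phi (t * s) ≤ t ^ r * Phi s := by
  have h1 : ((r * Real.log t : ℝ) : EReal) = (ENNReal.ofReal (t ^ r)).log := by
    rw [ENNReal.log_ofReal_of_pos (Real.rpow_pos_of_pos ht r), Real.log_rpow ht]
  rw [h1, ENNReal.log_le_log_iff] at h
  have h2 : ENNReal.ofReal (Phi (t * s)) / ENNReal.ofReal (Phi s) ≤ ENNReal.ofReal (t ^ r) :=
    le_trans (le_iSup₂ (f := fun (s : ℝ) (_ : 0 < s) =>
      ENNReal.ofReal (Phi (t * s)) / ENNReal.ofReal (Phi s)) s hs) h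
  rw [ENNReal.div_le_iff_le_mul (Or.inr ENNReal.ofReal_ne_top) (Or.inl ENNReal.ofReal_ne_top),
    ← ENNReal.ofReal_mul (Real.rpow_nonneg ht.le r)] at h2
  exact (ENNReal.ofReal_le_ofReal_iff
    (mul_nonneg (Real.rpow_nonneg ht.le r) (hnn s hs.le))).mp h2

end H_E_idx

open H_E_idx in
theorem q_idx : E_idx := by
  intro Phi p q hO hl hu hp hq
  have hnn : ∀ s, 0 ≤ s → 0 ≤ Phi s := fun s hs => by
    have := hO.mono (Set.mem_Ici.mpr le_rfl) (Set.mem_Ici.mpr hs) hs
    rwa [hO.zero] at this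
  obtain ⟨p1, hp1, hp1'⟩ := EReal.lt_iff_exists_real_btwn.mp hp
  obtain ⟨q0, hq0, -⟩ := EReal.lt_iff_exists_real_btwn.mp hq
  have hp1r : 1 < p1 := by exact_mod_cast hp1
  have hp1pos : 0 < p1 := by linarith
  set q1 := max q0 0 with hq1def
  have hq1 : q < (q1 : EReal) := lt_of_lt_of_le hq0 (by exact_mod_cast le_max_left q0 0)
  have hq1nn : 0 ≤ q1 := le_max_right _ _
  -- small t
  obtain ⟨t0, ht0, ht0', hlow⟩ : ∃ t0 : ℝ, 0 < t0 ∧ t0 < 1 ∧
      ∀ t, 0 < t → t ≤ t0 → ∀ s, 0 < s → Phi (t * s) ≤ t ^ p1 * Phi s := by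
    have e1 : ∀ᶠ t in 𝓝[>] (0 : ℝ), (p1 : EReal) < (Mt Phi t).log / ((Real.log t : ℝ) : EReal) :=
      hl.eventually_const_lt hp1'
    have e2 : ∀ᶠ t in 𝓝[>] (0 : ℝ), t ∈ Set.Ioo (0 : ℝ) 1 :=
      Ioo_mem_nhdsGT one_pos
    have e3 := e1.and e2
    rw [Filter.Eventually, mem_nhdsGT_iff_exists_Ioo_subset] at e3
    obtain ⟨u, hu0, hu1⟩ := e3
    have hu0' : 0 < u := hu0
    have hm : u / 2 ∈ Set.Ioo 0 u := ⟨by linarith, by linarith⟩
    refine ⟨u / 2, by linarith, (hu1 hm).2.2, ?_⟩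
    intro t ht ht' s hs
    have hmt := hu1 (show t ∈ Set.Ioo 0 u from ⟨ht, by linarith⟩)
    have hlog : Real.log t < 0 := Real.log_neg hmt.2.1 hmt.2.2
    exact mt_bound Phi t p1 ht hnn (aux1 _ _ _ hlog hmt.1) s hs
  -- large t
  obtain ⟨t1, ht1, hup⟩ : ∃ t1 : ℝ, 1 < t1 ∧
      ∀ t, t1 ≤ t → ∀ s, 0 < s → Phi (t * s) ≤ t ^ q1 * Phi s := by
    have e1 : ∀ᶠ t in Filter.atTop, (Mt Phi t).log / ((Real.log t : ℝ) : EReal) < (q1 : EReal) :=
      hu.eventually_lt_const hq1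
    obtain ⟨u, hu1⟩ := Filter.eventually_atTop.mp e1
    refine ⟨max u 2, by have := le_max_right u 2; linarith, ?_⟩
    intro t ht s hs
    have ht2 : 2 ≤ t := le_trans (le_max_right _ _) ht
    have hlog : 0 < Real.log t := Real.log_pos (by linarith)
    exact mt_bound Phi t q1 (by linarith) hnn
      (aux2 _ _ _ hlog (hu1 t (le_trans (le_max_left _ _) ht))) s hs
  have ht1pos : 0 < t1 := by linarith
  -- positivity
  have hpos : ∀ s, 0 < s → 0 < Phi s := by
    intro s hs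
    rcases lt_or_eq_of_le (hnn s hs.le) with h | h
    · exact h
    · exfalso
      have hz : ∀ n : ℕ, Phi (t1 ^ n * s) = 0 := by
        intro n
        induction n with
        | zero => simpa using h.symm
        | succ n ih =>
          have h1 := hup t1 le_rfl (t1 ^ n * s) (by positivity)
          rw [ih, mul_zero] at h1
          have h2 := hnn (t1 ^ (n + 1) * s) (by positivity)
          have h3 : t1 * (t1 ^ n * s) = t1 ^ (n + 1) * s := by ring
          rw [h3] at h1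
          linarith
      obtain ⟨T, hT⟩ := Filter.eventually_atTop.mp (hO.top.eventually_ge_atTop 1)
      obtain ⟨n, hn⟩ := pow_unbounded_of_one_lt (T / s) ht1
      have h4 : T ≤ t1 ^ n * s := by
        rw [div_lt_iff₀ hs] at hn
        exact hn.le
      have h5 := hT _ h4
      rw [hz n] at h5
      linarith
  refine ⟨p1, q1, max (t0 ^ (-p1)) (t1 ^ q1), hp1r, ?_⟩
  constructor
  · exact hO.cont
  · exact hO.mono
  · exact hO.zero
  · exact hpos
  · intro s hs r hr hr1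
    have hP := hnn s hs.le
    have hC : t0 ^ (-p1) ≤ max (t0 ^ (-p1)) (t1 ^ q1) := le_max_left _ _
    have hrp : 0 < r ^ p1 := Real.rpow_pos_of_pos hr _
    have h1le : 1 ≤ t0 ^ (-p1) := by
      rw [Real.rpow_neg ht0.le]
      exact one_le_inv_iff₀.mpr ⟨Real.rpow_pos_of_pos ht0 _,
        Real.rpow_le_one ht0.le ht0'.le hp1pos.le⟩
    rcases le_or_gt r t0 with h | h
    · refine le_trans (hlow r hr h s hs) ?_
      apply mul_le_mul_of_nonneg_right _ hP
      calc r ^ p1 = 1 * r ^ p1 := (one_mul _).symm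
        _ ≤ max (t0 ^ (-p1)) (t1 ^ q1) * r ^ p1 :=
          mul_le_mul_of_nonneg_right (le_trans h1le hC) hrp.le
    · have h2 : Phi (r * s) ≤ Phi s := by
        apply hO.mono (Set.mem_Ici.mpr (by positivity)) (Set.mem_Ici.mpr hs.le)
        calc r * s ≤ 1 * s := mul_le_mul_of_nonneg_right hr1 hs.le
          _ = s := one_mul s
      refine le_trans h2 ?_
      have h3 : 1 ≤ t0 ^ (-p1) * r ^ p1 := by
        rw [Real.rpow_neg ht0.le, ← div_eq_inv_mul, one_le_div (Real.rpow_pos_of_pos ht0 _)]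
        exact Real.rpow_le_rpow ht0.le h.le hp1pos.le
      have h4 : 1 ≤ max (t0 ^ (-p1)) (t1 ^ q1) * r ^ p1 :=
        le_trans h3 (mul_le_mul_of_nonneg_right hC hrp.le)
      calc Phi s = 1 * Phi s := (one_mul _).symm
        _ ≤ _ := mul_le_mul_of_nonneg_right h4 hP
  · intro s hs r hr
    have hP := hnn s hs.le
    have hr0 : 0 < r := by linarith
    have hC : t1 ^ q1 ≤ max (t0 ^ (-p1)) (t1 ^ q1) := le_max_right _ _
    have hrp : 1 ≤ r ^ q1 := Real.one_le_rpow hr hq1nn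
    have h1le : 1 ≤ t1 ^ q1 := Real.one_le_rpow ht1.le hq1nn
    rcases le_or_gt t1 r with h | h
    · refine le_trans (hup r h s hs) ?_
      apply mul_le_mul_of_nonneg_right _ hP
      calc r ^ q1 = 1 * r ^ q1 := (one_mul _).symm
        _ ≤ max (t0 ^ (-p1)) (t1 ^ q1) * r ^ q1 :=
          mul_le_mul_of_nonneg_right (le_trans h1le hC) (by linarith)
    · have h2 : Phi (r * s) ≤ Phi (t1 * s) := by
        apply hO.mono (Set.mem_Ici.mpr (by positivity)) (Set.mem_Ici.mpr (by positivity))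
        exact mul_le_mul_of_nonneg_right h.le hs.le
      refine le_trans h2 (le_trans (hup t1 le_rfl s hs) ?_)
      apply mul_le_mul_of_nonneg_right _ hP
      calc t1 ^ q1 ≤ max (t0 ^ (-p1)) (t1 ^ q1) := hC
        _ = max (t0 ^ (-p1)) (t1 ^ q1) * 1 := (mul_one _).symm
        _ ≤ _ := mul_le_mul_of_nonneg_left hrp (by linarith)

end MDB
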