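import Pool.Agent.MDB.Targets2

/-!
# The main theorem for a given model of the measure topology
-/

open scoped ENNReal NNReal Topology
open Finset

namespace MDB

universe u

namespace H_E_main

/-- a subsequence converging to the liminf -/
lemma exists_subseq_liminf (u : ℕ → ℝ≥0∞) :
    ∃ φ : ℕ → ℕ, StrictMono φ ∧
      Filter.Tendsto (fun k => u (φ k)) Filter.atTop (𝓝 (Filter.liminf u Filter.atTop)) := by
  set c := Filter.liminf u Filter.atTop with hc
  have hev : ∀ l, l < c → ∀ᶠ k in Filter.atTop, l < u k := fun l hl =>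
    Filter.eventually_lt_of_lt_liminf (hc ▸ hl)
  have hmc : MapClusterPt c Filter.atTop u := by
    rw [mapClusterPt_iff_frequently]
    intro s hs
    by_contra hcon
    rw [Filter.not_frequently] at hcon
    rcases eq_or_ne c ⊤ with htop | htop
    · -- eventually above any number
      rw [htop] at hs hev
      obtain ⟨l, hl, hls⟩ := (ENNReal.nhds_top_basis.mem_iff).mp hs
      obtain ⟨k, hk1, hk2⟩ := ((hev l hl).and hcon).exists
      exact hk2 (hls hk1)
    · obtain ⟨a, ha⟩ : ∃ a, c < a := ⟨⊤, lt_top_iff_ne_top.mpr htop⟩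
      obtain ⟨v, hv, hvs⟩ := exists_Ico_subset_of_mem_nhds hs ⟨a, ha⟩
      have hfr : ∃ᶠ k in Filter.atTop, u k < v := by
        intro hnot
        have h2 : v ≤ c := by
          rw [hc]
          apply Filter.le_liminf_of_le
          · isBoundedDefault
          · filter_upwards [hnot] with k hk
            exact not_lt.mp hk
        exact absurd hv (not_lt.mpr h2)
      rcases eq_or_ne c 0 with h0 | h0
      · obtain ⟨k, hk1, hk2⟩ := (hfr.and_eventually hcon).exists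
        exact hk2 (hvs ⟨by rw [h0]; exact bot_le, hk1⟩)
      · obtain ⟨l, hl, hls⟩ := exists_Ioc_subset_of_mem_nhds hs ⟨0, pos_iff_ne_zero.mpr h0⟩
        obtain ⟨k, hk1, hk2, hk3⟩ := (hfr.and_eventually ((hev l hl).and hcon)).exists
        rcases le_total (u k) c with h | h
        · exact hk3 (hls ⟨hk2, h⟩)
        · exact hk3 (hvs ⟨h, hk1⟩)
  exact hmc.tendsto_subseq

section

variable {H : Type u} [NormedAddCommGroup H] [InnerProductSpace ℂ H] [CompleteSpace H]
  {𝓜 : TVN H} [UniformSpace (Mc 𝓜)] [IsTopologicalRing (Mc 𝓜)] [IsUniformAddGroup (Mc 𝓜)]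

/-- scalars are central in the measurable operators -/
lemma central (c : ℂ) (ξ : Sm 𝓜) :
    (((c • (1 : Mc 𝓜)) : Mc 𝓜) : Sm 𝓜) * ξ = ξ * (((c • (1 : Mc 𝓜)) : Mc 𝓜) : Sm 𝓜) := by
  induction ξ using UniformSpace.Completion.induction_on with
  | hp => exact isClosed_eq (continuous_const.mul continuous_id) (continuous_id.mul continuous_const)
  | ih x =>
    rw [← UniformSpace.Completion.coe_mul, ← UniformSpace.Completion.coe_mul]
    congr 1
    rw [smul_mul_assoc, mul_smul_comm, one_mul, mul_one]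

omit [IsTopologicalRing (Mc 𝓜)] [IsUniformAddGroup (Mc 𝓜)] in
/-- subsequences of approximations -/
lemma capprox_subseq {F : Filtr 𝓜} {Phi : ℝ → ℝ} {ζ : ℕ → Sm 𝓜} {z : ℕ → Mc 𝓜} {K : ℕ → ℕ}
    (h : CApprox F Phi ζ z K) {φ : ℕ → ℕ} (hφ : StrictMono φ) :
    CApprox F Phi ζ (fun k => z (φ k)) (fun k => K (φ k)) := by
  refine ⟨fun k => h.fin _, fun k => h.l2 _, fun n g hg hg0 hgt => ?_, ?_⟩
  · have h2 := h.lim n g hg hg0 hgt
    exact Filter.Tendsto.comp
      (g := fun k => (g : Sm 𝓜) * (dif (fun m => F.E m (z k)) n : Sm 𝓜) * (g : Sm 𝓜)) (f := φ) h2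
      hφ.tendsto_atTop
  · have h1 : Filter.Tendsto (Prod.map φ φ) (Filter.atTop ×ˢ Filter.atTop)
        (Filter.atTop ×ˢ Filter.atTop) := hφ.tendsto_atTop.prodMap hφ.tendsto_atTop
    exact Filter.Tendsto.comp (g := fun kl : ℕ × ℕ =>
      bsc F Phi (max (K kl.1) (K kl.2)) (z kl.1 - z kl.2)) (f := Prod.map φ φ) h.cauchy h1

lemma phi_scale {Phi : ℝ → ℝ} (hO : Orlicz Phi) {s m : ℝ} (hs0 : 0 ≤ s) (hs1 : s ≤ 1)
    (hm : 0 ≤ m) : Phi (s * m) ≤ s * Phi m := by
  have h := hO.conv.2 (Set.mem_Ici.mpr hm) (Set.mem_Ici.mpr (le_refl (0 : ℝ))) hs0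
    (by linarith : (0 : ℝ) ≤ 1 - s) (by ring)
  simpa [hO.zero] using h

omit [IsTopologicalRing (Mc 𝓜)] [IsUniformAddGroup (Mc 𝓜)] in
lemma orl_conj_le (hmul : ∀ (ξ : Sm 𝓜) (x y : Mc 𝓜) (t : ℝ), 0 < t →
      mu ((x : Sm 𝓜) * ξ * (y : Sm 𝓜)) t ≤ ‖x.op‖ * ‖y.op‖ * mu ξ t)
    (hmu0 : ∀ (ξ : Sm 𝓜) (t : ℝ), 0 ≤ mu ξ t) {Phi : ℝ → ℝ} (hO : Orlicz Phi) {s : ℝ}
    (hs0 : 0 ≤ s) (hs1 : s ≤ 1) (x : Mc 𝓜) (hx : ‖x.op‖ ≤ Real.sqrt s) (ξ : Sm 𝓜) :
    orl Phi ((x : Sm 𝓜) * ξ * (x : Sm 𝓜)) ≤ ENNReal.ofReal s * orl Phi ξ := by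
  unfold orl
  rw [← MeasureTheory.lintegral_const_mul' _ _ ENNReal.ofReal_ne_top]
  refine MeasureTheory.setLIntegral_mono' measurableSet_Ioi ?_
  intro t ht
  rw [← ENNReal.ofReal_mul hs0]
  apply ENNReal.ofReal_le_ofReal
  have h1 := hmul ξ x x t ht
  have h2 : ‖x.op‖ * ‖x.op‖ ≤ s := by
    have := mul_le_mul hx hx (norm_nonneg _) (Real.sqrt_nonneg _)
    rwa [Real.mul_self_sqrt hs0] at this
  have h3 : mu ((x : Sm 𝓜) * ξ * (x : Sm 𝓜)) t ≤ s * mu ξ t :=
    h1.trans (mul_le_mul_of_nonneg_right h2 (hmu0 ξ t))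
  refine le_trans (hO.mono (Set.mem_Ici.mpr (hmu0 _ _))
    (Set.mem_Ici.mpr (mul_nonneg hs0 (hmu0 _ _))) h3) ?_
  exact phi_scale hO hs0 hs1 (hmu0 _ _)

end

end H_E_main

open H_E_main in
theorem q_main (h1 : E_idx) (h2 : E_R1.{u}) (h3 : E_R2.{u}) (h4 : C_orl.{u}) (h5 : C_mu.{u})
    (h6 : C_star.{u}) : E_main.{u} := by
  intro Phi p q hO hp hq hp1 hq1
  obtain ⟨p1, q1, C0, hp11, hGr⟩ := h1 Phi p q hO hp hq hp1 hq1
  obtain ⟨K, hK, hKH⟩ := h4 Phi p1 q1 C0 hGr (by linarith)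
  obtain ⟨C, hC, hCH⟩ := h3 Phi p1 q1 C0 hGr hp11
  refine ⟨Real.toNNReal (2 * K * C), ?_⟩
  intro H _ _ _ 𝓜 _ _ _ hMT F ξ ξn hξ hce
  obtain ⟨hadd, hneg, hsst, hcon, hMem, -⟩ := hKH H 𝓜 hMT
  obtain ⟨hmu0, -, -, -, hmul, -⟩ := h5 H 𝓜 hMT
  obtain ⟨hs1, hs2, hs3, hs4, hs5, -⟩ := h6 H 𝓜 hMT
  -- the estimate for one choice of all the data
  have key : ∀ (a b : Sm 𝓜) (y : ℕ → Mc 𝓜), MemL Phi (sst a * a) → MemL Phi (sst b * b) →
      (∀ n, ‖(y n).op‖ ≤ 1) → (∀ n, dif ξn n = a * (y n : Sm 𝓜) * b) →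
      ∀ (z : ℕ → Mc 𝓜) (K1 : ℕ → ℕ), CApprox F Phi (dif ξn) z K1 →
      ∀ (z' : ℕ → Mc 𝓜) (K2 : ℕ → ℕ), CApprox F Phi (dif (fun n => sst (ξn n))) z' K2 →
      orl Phi ξ ≤ ENNReal.ofReal (2 * K * C) * ((orl Phi (sst a * a) + orl Phi (sst b * b)) / 2 *
        (⨆ n, ENNReal.ofReal ‖(y n).op‖) +
        Filter.liminf (fun k => bsc F Phi (K1 k) (z k)) Filter.atTop +
        Filter.liminf (fun k => bsc F Phi (K2 k) (z' k)) Filter.atTop) := by
    intro a b y ha hb hy hdif z K1 hz z' K2 hz'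
    set S : ℝ≥0∞ := ⨆ n, ENNReal.ofReal ‖(y n).op‖ with hS
    have hS1 : S ≤ 1 := by
      apply iSup_le
      intro n
      rw [← ENNReal.ofReal_one]
      exact ENNReal.ofReal_le_ofReal (hy n)
    have hStop : S ≠ ⊤ := ne_top_of_le_ne_top ENNReal.one_ne_top hS1
    set s : ℝ := S.toReal with hs
    have hsS : ENNReal.ofReal s = S := ENNReal.ofReal_toReal hStop
    have hs0 : 0 ≤ s := ENNReal.toReal_nonneg
    have hs1' : s ≤ 1 := by
      have := ENNReal.toReal_mono ENNReal.one_ne_top hS1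
      simpa using this
    have hyS : ∀ n, ‖(y n).op‖ ≤ s := by
      intro n
      have h : ENNReal.ofReal ‖(y n).op‖ ≤ ENNReal.ofReal s := by
        rw [hsS, hS]
        exact le_iSup (fun n => ENNReal.ofReal ‖(y n).op‖) n
      exact (ENNReal.ofReal_le_ofReal_iff hs0).mp h
    rcases hs0.eq_or_lt with hs00 | hspos
    · -- the martingale vanishes
      have hy0 : ∀ n, y n = 0 := by
        intro n
        have h := hyS n
        rw [← hs00] at h
        have h' : (y n).op = 0 := norm_le_zero_iff.mp h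
        exact Subtype.ext h'
      have hd0 : ∀ n, dif ξn n = 0 := by
        intro n
        rw [hdif n, hy0 n, UniformSpace.Completion.coe_zero, mul_zero, zero_mul]
      have hξ0 : ∀ n, ξn n = 0 := by
        intro n
        induction n with
        | zero =>
          have := hd0 0
          simpa [dif] using this
        | succ n ih =>
          have := hd0 (n + 1)
          simp only [dif, Nat.succ_ne_zero, if_false, Nat.add_sub_cancel] at this
          rw [ih, sub_zero] at this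
          exact this
      have h0 : orl Phi ξ ≤ 0 := by
        apply ENNReal.le_of_forall_pos_le_add
        intro ε hε _
        obtain ⟨N, g, hg1, hg2, hg3, hg4⟩ := h2 Phi p1 q1 C0 hGr hp11 H 𝓜 hMT F ξ ξn hξ hce ε hε
        rw [hξ0 N, mul_zero, zero_mul, sub_zero] at hg4
        rw [zero_add]
        simpa using hg4.le
      exact h0.trans bot_le
    · -- scaling
      set x : Mc 𝓜 := ((Real.sqrt s : ℝ) : ℂ) • (1 : Mc 𝓜) with hx
      have hxop : x.op = ((Real.sqrt s : ℝ) : ℂ) • (1 : H →L[ℂ] H) := rfl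
      have hxn : ‖x.op‖ ≤ Real.sqrt s := by
        rw [hxop, norm_smul]
        have e1 : ‖((Real.sqrt s : ℝ) : ℂ)‖ = Real.sqrt s := by
          rw [Complex.norm_real, Real.norm_of_nonneg (Real.sqrt_nonneg _)]
        have e2 : ‖(1 : H →L[ℂ] H)‖ ≤ 1 := ContinuousLinearMap.norm_id_le
        rw [e1]
        nlinarith [Real.sqrt_nonneg s]
      have hxstar : star x = x := by
        rw [hx, star_smul, star_one]
        simp
      have hxc : ∀ η : Sm 𝓜, (x : Sm 𝓜) * η = η * (x : Sm 𝓜) := fun η => central _ η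
      set y' : ℕ → Mc 𝓜 := fun n => ((s⁻¹ : ℝ) : ℂ) • y n with hy'
      have hy'n : ∀ n, ‖(y' n).op‖ ≤ 1 := by
        intro n
        have e0 : (y' n).op = ((s⁻¹ : ℝ) : ℂ) • (y n).op := rfl
        rw [e0, norm_smul, Complex.norm_real, Real.norm_of_nonneg (inv_nonneg.mpr hs0)]
        rw [inv_mul_le_iff₀ hspos, mul_one]
        exact hyS n
      have hxyx : ∀ n, x * y' n * x = y n := by
        intro n
        rw [hx, hy']
        simp only [smul_mul_assoc, mul_smul_comm, one_mul, mul_one, smul_smul]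
        have : ((Real.sqrt s : ℝ) : ℂ) * (((s⁻¹ : ℝ) : ℂ) * ((Real.sqrt s : ℝ) : ℂ)) = 1 := by
          rw [mul_comm (((s⁻¹ : ℝ) : ℂ)), ← Complex.ofReal_mul, ← Complex.ofReal_mul, ← mul_assoc,
            Real.mul_self_sqrt hs0, mul_inv_cancel₀ hspos.ne', Complex.ofReal_one]
        rw [this, one_smul]
      have hdif' : ∀ n, dif ξn n = (a * (x : Sm 𝓜)) * (y' n : Sm 𝓜) * (b * (x : Sm 𝓜)) := by
        intro n
        rw [hdif n, ← hxyx n, UniformSpace.Completion.coe_mul, UniformSpace.Completion.coe_mul,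
          ← hxc b]
        simp only [mul_assoc]
      have hsq : ∀ c : Sm 𝓜, sst (c * (x : Sm 𝓜)) * (c * (x : Sm 𝓜))
          = (x : Sm 𝓜) * (sst c * c) * (x : Sm 𝓜) := by
        intro c
        rw [hs4, hs1, hxstar]
        simp only [mul_assoc]
      have hbd : ∀ c : Sm 𝓜, orl Phi (sst (c * (x : Sm 𝓜)) * (c * (x : Sm 𝓜)))
          ≤ S * orl Phi (sst c * c) := by
        intro c
        rw [hsq, ← hsS]
        exact orl_conj_le hmul hmu0 hO hs0 hs1' x hxn _
      have hmemb : ∀ c : Sm 𝓜, MemL Phi (sst c * c) →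
          MemL Phi (sst (c * (x : Sm 𝓜)) * (c * (x : Sm 𝓜))) := by
        intro c hc
        rw [hMem] at hc ⊢
        refine lt_of_le_of_lt (hbd c) ?_
        exact ENNReal.mul_lt_top (lt_top_iff_ne_top.mpr hStop) hc
      obtain ⟨φ, hφ, hφt⟩ := exists_subseq_liminf (fun k => bsc F Phi (K1 k) (z k))
      obtain ⟨ψ, hψ, hψt⟩ := exists_subseq_liminf (fun k => bsc F Phi (K2 k) (z' k))
      set c1 := Filter.liminf (fun k => bsc F Phi (K1 k) (z k)) Filter.atTop with hc1
      set c2 := Filter.liminf (fun k => bsc F Phi (K2 k) (z' k)) Filter.atTop with hc2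
      have hR2 := hCH H 𝓜 hMT F ξ ξn hξ hce (a * (x : Sm 𝓜)) (b * (x : Sm 𝓜)) y' (hmemb a ha)
        (hmemb b hb) hy'n hdif' (fun k => z (φ k)) (fun k => z' (ψ k)) (fun k => K1 (φ k))
        (fun k => K2 (ψ k)) c1 c2 (capprox_subseq hz hφ) (capprox_subseq hz' hψ) hφt hψt
      set A := orl Phi (sst a * a) with hA
      set B := orl Phi (sst b * b) with hB
      have hmain : orl Phi ξ ≤ ENNReal.ofReal K * (ENNReal.ofReal C * (S * A + S * B + c1 + c2)) := by
        apply ENNReal.le_of_forall_pos_le_add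
        intro ε hε _
        have hεK : 0 < (ε : ℝ) / K := div_pos hε hK
        obtain ⟨N, g, hg1, hg2, hg3, hg4⟩ :=
          h2 Phi p1 q1 C0 hGr hp11 H 𝓜 hMT F ξ ξn hξ hce ((ε : ℝ) / K) hεK
        have e1 := hadd (ξ - (g : Sm 𝓜) * ξn N * (g : Sm 𝓜)) ((g : Sm 𝓜) * ξn N * (g : Sm 𝓜))
        rw [sub_add_cancel] at e1
        refine e1.trans ?_
        have e2 : orl Phi ((g : Sm 𝓜) * ξn N * (g : Sm 𝓜)) ≤
            ENNReal.ofReal C * (S * A + S * B + c1 + c2) := by
          refine (hR2 N g hg1 hg2 hg3).trans ?_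
          gcongr
          · exact hbd a
          · exact hbd b
        have e3 : ENNReal.ofReal K * ENNReal.ofReal ((ε : ℝ) / K) = (ε : ℝ≥0∞) := by
          rw [← ENNReal.ofReal_mul hK.le, mul_div_cancel₀ _ hK.ne', ENNReal.ofReal_coe_nnreal]
        calc ENNReal.ofReal K * (orl Phi (ξ - (g : Sm 𝓜) * ξn N * (g : Sm 𝓜))
              + orl Phi ((g : Sm 𝓜) * ξn N * (g : Sm 𝓜)))
            ≤ ENNReal.ofReal K * (ENNReal.ofReal ((ε : ℝ) / K)
              + ENNReal.ofReal C * (S * A + S * B + c1 + c2)) := by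
              gcongr
          _ = ENNReal.ofReal K * (ENNReal.ofReal C * (S * A + S * B + c1 + c2)) + ε := by
              rw [mul_add, e3, add_comm]
      refine hmain.trans ?_
      have hconst : ENNReal.ofReal (2 * K * C) = ENNReal.ofReal K * ENNReal.ofReal C * 2 := by
        rw [mul_assoc, ENNReal.ofReal_mul (by norm_num : (0 : ℝ) ≤ 2), ENNReal.ofReal_mul hK.le,
          ENNReal.ofReal_ofNat, mul_comm]
      rw [hconst, mul_assoc, mul_assoc]
      gcongr
      have h2AB : 2 * ((A + B) / 2 * S) = S * A + S * B := by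
        rw [← mul_assoc, ENNReal.mul_div_cancel (by norm_num) (by norm_num), mul_comm, mul_add]
      rw [mul_add, mul_add, h2AB]
      gcongr
      · exact le_mul_of_one_le_left' (by norm_num)
      · exact le_mul_of_one_le_left' (by norm_num)
  -- infimum over all choices
  have hD0 : ENNReal.ofReal (2 * K * C) ≠ 0 := by
    have : 0 < 2 * K * C := by positivity
    simpa using this
  have hDt : ENNReal.ofReal (2 * K * C) ≠ ⊤ := ENNReal.ofReal_ne_top
  have hfin : orl Phi ξ / ENNReal.ofReal (2 * K * C) ≤ supP Phi (dif ξn) + condC F Phi (dif ξn)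
      + condC F Phi (dif (fun n => sst (ξn n))) := by
    simp only [supP, condC, ENNReal.iInf_add, ENNReal.add_iInf]
    refine le_iInf fun z' => le_iInf fun K2 => le_iInf fun hz' => le_iInf fun z => le_iInf fun K1 =>
      le_iInf fun hz => le_iInf fun a => le_iInf fun b => le_iInf fun y => le_iInf fun ha =>
      le_iInf fun hb => le_iInf fun hy => le_iInf fun hdif => ?_
    rw [ENNReal.div_le_iff hD0 hDt, mul_comm]
    exact key a b y ha hb hy hdif z K1 hz z' K2 hz'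
  rw [ENNReal.div_le_iff hD0 hDt, mul_comm] at hfin
  exact hfin

end MDB
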