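import Pool.Agent.MDB.Targets2

set_option autoImplicit false

open scoped ENNReal NNReal Topology
open Finset

namespace MDB

open Mc

universe u

theorem q_seq (h1 : C_orl.{u}) (h2 : C_E.{u}) : E_seq.{u} := by
  intro Phi p1 q1 C0 hG hp1 H _ _ _ 𝓜 _ _ _ hMT F ξ ξn hξ hCE
  obtain ⟨K, hK, hO⟩ := h1 Phi p1 q1 C0 hG (by linarith)
  obtain ⟨K', hK', hE⟩ := h2 Phi p1 q1 C0 hG hp1
  obtain ⟨hadd, hneg, -, -, -, -⟩ := hO H 𝓜 hMT
  have hE' := hE H 𝓜 hMT F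
  obtain ⟨w, hw, hw0⟩ := hCE 0
  refine ⟨w, hw, ?_⟩
  intro n
  obtain ⟨v, hv, hvn⟩ := hCE n
  have hbound : ∀ k, orl Phi (ξn n - (F.E n (w k) : Sm 𝓜)) ≤
      ENNReal.ofReal K * (orl Phi (ξn n - (F.E n (v k) : Sm 𝓜)) +
        ENNReal.ofReal K' * (ENNReal.ofReal K * (orl Phi (ξ - (w k : Sm 𝓜)) +
          orl Phi (ξ - (v k : Sm 𝓜))))) := by
    intro k
    have e1 : ξn n - (F.E n (w k) : Sm 𝓜) = (ξn n - (F.E n (v k) : Sm 𝓜)) +
        ((F.E n (v k - w k) : Mc 𝓜) : Sm 𝓜) := by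
      rw [map_sub, UniformSpace.Completion.coe_sub]
      abel
    have e2 : ((v k - w k : Mc 𝓜) : Sm 𝓜) = (ξ - (w k : Sm 𝓜)) + (-(ξ - (v k : Sm 𝓜))) := by
      rw [UniformSpace.Completion.coe_sub]
      abel
    rw [e1]
    refine (hadd _ _).trans ?_
    gcongr
    refine (hE' n _).1.trans ?_
    gcongr
    rw [e2]
    refine (hadd _ _).trans ?_
    rw [hneg]
  have hlim : Filter.Tendsto (fun k => ENNReal.ofReal K * (orl Phi (ξn n - (F.E n (v k) : Sm 𝓜)) +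
        ENNReal.ofReal K' * (ENNReal.ofReal K * (orl Phi (ξ - (w k : Sm 𝓜)) +
          orl Phi (ξ - (v k : Sm 𝓜)))))) Filter.atTop (𝓝 0) := by
    have a1 := hw.add hv
    have a2 := ENNReal.Tendsto.const_mul (a := ENNReal.ofReal K) a1 (Or.inr ENNReal.ofReal_ne_top)
    have a3 := ENNReal.Tendsto.const_mul (a := ENNReal.ofReal K') a2 (Or.inr ENNReal.ofReal_ne_top)
    have a4 := hvn.add a3
    have a5 := ENNReal.Tendsto.const_mul (a := ENNReal.ofReal K) a4 (Or.inr ENNReal.ofReal_ne_top)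
    simpa using a5
  exact tendsto_of_tendsto_of_tendsto_of_le_of_le tendsto_const_nhds hlim (fun _ => bot_le) hbound

end MDB
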