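import Pool.Agent.MDB.AllI
import Pool.Agent.MDB.A_rp
import Pool.Agent.MDB.A_tr
import Pool.Agent.MDB.A_rptr
import Pool.Agent.MDB.A_meet
import Pool.Agent.MDB.A_spec
import Pool.Agent.MDB.A_fin
import Pool.Agent.MDB.A_norm
import Pool.Agent.MDB.A_dense
import Pool.Agent.MDB.A_supg
import Pool.Agent.MDB.A_E
import Pool.Agent.MDB.A_mgl
import Pool.Agent.MDB.B_mt
import Pool.Agent.MDB.C_cut
import Pool.Agent.MDB.C_ball
import Pool.Agent.MDB.C_star
import Pool.Agent.MDB.C_mu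
import Pool.Agent.MDB.C_fatou
import Pool.Agent.MDB.C_layer
import Pool.Agent.MDB.C_orl
import Pool.Agent.MDB.C_E
import Pool.Agent.MDB.C_trunc
import Pool.Agent.MDB.D_core
import Pool.Agent.MDB.D_one
import Pool.Agent.MDB.E_idx
import Pool.Agent.MDB.E_ce
import Pool.Agent.MDB.E_seq
import Pool.Agent.MDB.E_R1
import Pool.Agent.MDB.E_errz
import Pool.Agent.MDB.E_erra
import Pool.Agent.MDB.E_R2re
import Pool.Agent.MDB.E_R2
import Pool.Agent.MDB.E_main

/-!
# Assembly of parts II-IV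
-/

namespace MDB

universe u

theorem f_rp : A_rp.{u} := q_rp
theorem f_cfc : A_cfc.{u} := q_cfc
theorem f_tr : A_tr.{u} := q_tr f_cfc
theorem f_rptr : A_rptr.{u} := q_rptr f_rp f_cfc f_tr
theorem f_meet : A_meet.{u} := q_meet f_rp f_rptr f_tr
theorem f_spec : A_spec.{u} := q_spec f_rp f_cfc
theorem f_fin : A_fin.{u} := q_fin f_tr f_cfc
theorem f_normle : A_normle.{u} := q_normle f_spec f_tr
theorem f_dense : A_dense.{u} := q_dense f_normle
theorem f_supg : A_supg.{u} := q_supg f_rp f_spec f_meet f_tr f_cfc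
theorem f_E : A_E.{u} := q_E f_tr f_fin f_supg f_cfc
theorem f_mgl : A_mgl.{u} := q_mgl f_dense f_supg f_E f_fin f_tr
theorem f_mt : B_mt.{u} := q_mt f_rp f_rptr f_meet f_tr
theorem f_star : C_star.{u} := q_star f_rp f_rptr f_tr
theorem f_cut : C_cut.{u} := q_cut f_meet f_star
theorem f_ball : C_ball.{u} := q_ball f_meet f_rp f_tr
theorem f_mu : C_mu.{u} := q_mu f_cut f_ball f_star f_meet f_rp f_rptr f_tr
theorem f_fatou : C_fatou.{u} := q_fatou f_mu
theorem f_layer : C_layer.{u} := q_layer f_mu f_ball f_spec f_tr f_cfc f_rp f_rptr f_meet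
theorem f_orl : C_orl.{u} := q_orl f_mu
theorem f_CE : C_E.{u} := q_CE f_E f_layer f_orl f_spec f_tr f_cfc f_mu f_star
theorem f_trunc : C_trunc.{u} := q_trunc f_layer f_orl f_mu f_cfc
theorem f_core : D_core.{u} := q_core all_core f_fin f_spec f_cfc f_E f_tr
theorem f_one : D_one.{u} := q_one all_I1 f_fin f_cfc f_E f_tr
theorem f_ce : E_ce.{u} := q_ce f_cut f_mu f_orl f_CE f_fatou
theorem f_seq : E_seq.{u} := q_seq f_orl f_CE
theorem f_R1 : E_R1.{u} := q_R1 f_seq f_trunc f_mgl f_CE f_orl f_layer f_mu f_E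
theorem f_errz : E_errz.{u} := q_errz f_one f_fatou f_mu f_orl f_layer f_E f_tr f_cfc f_ball
theorem f_erra : E_erra.{u} := q_erra f_CE f_mu f_orl
theorem f_R2re : E_R2re.{u} :=
  q_R2re f_core f_seq f_errz f_erra f_cut f_mu f_layer f_orl f_fatou f_E f_star f_ball f_tr f_cfc
theorem f_R2 : E_R2.{u} := q_R2 f_R2re f_mu f_layer f_orl f_fatou f_E f_star f_ball
theorem f_main : E_main.{u} := q_main q_idx f_R1 f_R2 f_orl f_mu f_star

end MDB
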