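import Pool.Agent.MDB.Targets2

/-!
# Generalised singular numbers
-/

open scoped ENNReal NNReal Topology
open Finset

namespace MDB

open Mc

universe u

namespace H_C_mu

section alg

variable {H : Type u} [NormedAddCommGroup H] [InnerProductSpace ℂ H] [CompleteSpace H]
variable {𝓜 : TVN H}

lemma ext' {x y : Mc 𝓜} (h : x.op = y.op) : x = y := Subtype.ext h

lemma op_mul (x y : Mc 𝓜) : (x * y).op = x.op * y.op := rfl
lemma op_add (x y : Mc 𝓜) : (x + y).op = x.op + y.op := rfl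
lemma op_sub (x y : Mc 𝓜) : (x - y).op = x.op - y.op := rfl
lemma op_neg (x : Mc 𝓜) : (-x).op = -x.op := rfl
lemma op_star (x : Mc 𝓜) : (star x).op = star x.op := rfl
lemma op_one : (1 : Mc 𝓜).op = 1 := rfl
lemma op_zero : (0 : Mc 𝓜).op = 0 := rfl
lemma op_mem (x : Mc 𝓜) : x.op ∈ 𝓜.M := x.2
lemma op_mk (x : H →L[ℂ] H) (hx : x ∈ 𝓜.M) : (Mc.mk (𝓜 := 𝓜) x hx).op = x := rfl

lemma isP_mul {e : Mc 𝓜} (he : IsP e) : e * e = e := ext' he.isIdempotentElem.eq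
lemma isP_star {e : Mc 𝓜} (he : IsP e) : star e = e := ext' he.isSelfAdjoint.star_eq
lemma isP_one : IsP (1 : Mc 𝓜) := IsStarProjection.one _
lemma isP_sub {e : Mc 𝓜} (he : IsP e) : IsP (1 - e) := he.one_sub

lemma isP_norm {e : Mc 𝓜} (he : IsP e) : ‖e.op‖ ≤ 1 := IsStarProjection.norm_le e.op he

lemma norm_mul_P (x e : Mc 𝓜) (he : IsP e) : ‖(x * e).op‖ ≤ ‖x.op‖ := by
  rw [op_mul]
  calc _ ≤ ‖x.op‖ * ‖e.op‖ := norm_mul_le _ _
    _ ≤ ‖x.op‖ * 1 := by gcongr; exact isP_norm he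
    _ = ‖x.op‖ := mul_one _

lemma norm_P_mul (e x : Mc 𝓜) (he : IsP e) : ‖(e * x).op‖ ≤ ‖x.op‖ := by
  rw [op_mul]
  calc _ ≤ ‖e.op‖ * ‖x.op‖ := norm_mul_le _ _
    _ ≤ 1 * ‖x.op‖ := by gcongr; exact isP_norm he
    _ = ‖x.op‖ := one_mul _

lemma ex_meet (h4 : A_meet.{u}) (e f : Mc 𝓜) (he : IsP e) (hf : IsP f) :
    ∃ h : Mc 𝓜, IsP h ∧ e * h = h ∧ f * h = h ∧
      𝓜.tr (1 - h).op ≤ 𝓜.tr (1 - e).op + 𝓜.tr (1 - f).op := by
  obtain ⟨h, hM, hP, h1, h2, h3⟩ := (h4 H 𝓜).1 e.op f.op e.2 f.2 he hf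
  exact ⟨Mc.mk h hM, hP, ext' h1, ext' h2, h3⟩

/-- range projection bounded by a projection -/
lemma rp_le (h5 : A_rp.{u}) (e w : H →L[ℂ] H) (he : IsStarProjection e) (h : e * w = w) :
    rp w ≤ e := by
  obtain ⟨hP, -, hb, -⟩ := h5 H w
  have h0 : (1 - e) * w = 0 := by rw [sub_mul, one_mul, h, sub_self]
  have h2 := hb _ h0
  have h3 : e * rp w = rp w := by
    rw [sub_mul, one_mul, sub_eq_zero] at h2
    exact h2.symm
  have h4 : IsStarProjection (e - rp w) := IsStarProjection.sub_of_mul_eq_right hP he h3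
  have := h4.nonneg
  exact sub_nonneg.mp this

lemma tr_rp_le (h5 : A_rp.{u}) (h7 : A_tr.{u}) (e w : Mc 𝓜) (he : IsP e) (h : e * w = w) :
    𝓜.tr (rp w.op) ≤ 𝓜.tr e.op :=
  (h7 H 𝓜).2.1 _ _ ((h5 H w.op).2.2.2 𝓜.M w.2) e.2 (h5 H w.op).1.nonneg
    (rp_le h5 e.op w.op he (congrArg Mc.op h))

/-- for every `x` and every projection `e` a projection `k` with `(1 - e) x k = 0` -/
lemma ex_pull (h5 : A_rp.{u}) (h6 : A_rptr.{u}) (h7 : A_tr.{u}) (e x : Mc 𝓜) (he : IsP e) :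
    ∃ k : Mc 𝓜, IsP k ∧ (1 - e) * x * k = 0 ∧ 𝓜.tr (1 - k).op ≤ 𝓜.tr (1 - e).op := by
  obtain ⟨hP, ha, -, hM⟩ := h5 H (star ((1 - e) * x).op)
  have hm : rp (star ((1 - e) * x).op) ∈ 𝓜.M := hM _ (star_mem ((1 - e) * x).2)
  refine ⟨1 - Mc.mk _ hm, isP_sub hP, ?_, ?_⟩
  · apply ext'
    rw [op_mul, op_sub, op_one, op_mk, op_zero, mul_sub, mul_one, sub_eq_zero]
    have := congrArg star ha
    rw [star_mul, star_star, hP.isSelfAdjoint.star_eq] at this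
    exact this.symm
  · have : (1 - (1 - Mc.mk _ hm) : Mc 𝓜).op = rp (star ((1 - e) * x).op) := by
      rw [sub_sub_cancel, op_mk]
    rw [this, ← h6 H 𝓜 ((1 - e) * x).op ((1 - e) * x).2]
    apply tr_rp_le h5 h7 _ _ (isP_sub he)
    rw [← mul_assoc, isP_mul (isP_sub he)]

end alg

section sm

variable {H : Type u} [NormedAddCommGroup H] [InnerProductSpace ℂ H] [CompleteSpace H]
variable {𝓜 : TVN H} [UniformSpace (Mc 𝓜)] [IsTopologicalRing (Mc 𝓜)] [IsUniformAddGroup (Mc 𝓜)]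

open UniformSpace.Completion in
lemma c_mul (x y : Mc 𝓜) : ((x * y : Mc 𝓜) : Sm 𝓜) = (x : Sm 𝓜) * (y : Sm 𝓜) := coe_mul x y

open UniformSpace.Completion in
lemma c_add (x y : Mc 𝓜) : ((x + y : Mc 𝓜) : Sm 𝓜) = (x : Sm 𝓜) + (y : Sm 𝓜) := coe_add x y

open UniformSpace.Completion in
lemma c_sub (x y : Mc 𝓜) : ((x - y : Mc 𝓜) : Sm 𝓜) = (x : Sm 𝓜) - (y : Sm 𝓜) := coe_sub x y

open UniformSpace.Completion in
lemma c_neg (x : Mc 𝓜) : ((-x : Mc 𝓜) : Sm 𝓜) = -(x : Sm 𝓜) := coe_neg x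

open UniformSpace.Completion in
lemma c_one : ((1 : Mc 𝓜) : Sm 𝓜) = 1 := coe_one _

open UniformSpace.Completion in
lemma c_zero : ((0 : Mc 𝓜) : Sm 𝓜) = 0 := coe_zero

/-- admissible pairs -/
def Ad (ξ : Sm 𝓜) (t : ℝ) (e y : Mc 𝓜) : Prop :=
  IsP e ∧ 𝓜.tr (1 - e).op ≤ ENNReal.ofReal t ∧ ξ * (e : Sm 𝓜) = (y : Sm 𝓜)

lemma mu_le {ξ : Sm 𝓜} {t : ℝ} {e y : Mc 𝓜} (h : Ad ξ t e y) : mu ξ t ≤ ‖y.op‖ := by
  apply csInf_le
  · refine ⟨0, ?_⟩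
    rintro _ ⟨_, _, _, _, _, rfl⟩
    exact norm_nonneg _
  · exact ⟨e, y, h.1, h.2.1, h.2.2, rfl⟩

lemma mu_nonneg (ξ : Sm 𝓜) (t : ℝ) : 0 ≤ mu ξ t := by
  apply Real.sInf_nonneg
  rintro _ ⟨_, _, _, _, _, rfl⟩
  exact norm_nonneg _

lemma ex_ad (h1 : C_cut.{u}) (hT : IsMT 𝓜) (ξ : Sm 𝓜) {t : ℝ} (ht : 0 < t) :
    ∃ e y : Mc 𝓜, Ad ξ t e y := by
  obtain ⟨⟨e, y, a, b, c⟩, -⟩ := h1 H 𝓜 hT ξ t ht
  exact ⟨e, y, a, b, c⟩

lemma ex_lt (h1 : C_cut.{u}) (hT : IsMT 𝓜) (ξ : Sm 𝓜) {t : ℝ} (ht : 0 < t) {c : ℝ}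
    (h : mu ξ t < c) : ∃ e y : Mc 𝓜, Ad ξ t e y ∧ ‖y.op‖ < c := by
  obtain ⟨e0, y0, a0, b0, c0⟩ := ex_ad h1 hT ξ ht
  have hne : {lam : ℝ | ∃ e y : Mc 𝓜, IsP e ∧ 𝓜.tr (1 - e).op ≤ ENNReal.ofReal t ∧
    ξ * (e : Sm 𝓜) = (y : Sm 𝓜) ∧ ‖y.op‖ = lam}.Nonempty := ⟨_, e0, y0, a0, b0, c0, rfl⟩
  obtain ⟨_, ⟨e, y, a, b, c, rfl⟩, h2⟩ := exists_lt_of_csInf_lt hne h
  exact ⟨e, y, ⟨a, b, c⟩, h2⟩

lemma mu_anti (h1 : C_cut.{u}) (hT : IsMT 𝓜) (ξ : Sm 𝓜) {s t : ℝ} (hs : 0 < s) (hst : s ≤ t) :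
    mu ξ t ≤ mu ξ s := by
  refine le_of_forall_gt_imp_ge_of_dense (fun c hc => ?_)
  obtain ⟨e, y, ⟨a, b, c'⟩, h2⟩ := ex_lt h1 hT ξ hs hc
  exact (mu_le (t := t) ⟨a, b.trans (ENNReal.ofReal_le_ofReal hst), c'⟩).trans h2.le

lemma mu_add (h1 : C_cut.{u}) (h4 : A_meet.{u}) (hT : IsMT 𝓜) (ξ η : Sm 𝓜) {s t : ℝ}
    (hs : 0 < s) (ht : 0 < t) : mu (ξ + η) (s + t) ≤ mu ξ s + mu η t := by
  refine le_of_forall_pos_le_add (fun ε hε => ?_)
  obtain ⟨e, y, ⟨a, b, c⟩, h2⟩ := ex_lt h1 hT ξ hs (c := mu ξ s + ε / 2) (by linarith)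
  obtain ⟨f, z, ⟨a', b', c'⟩, h2'⟩ := ex_lt h1 hT η ht (c := mu η t + ε / 2) (by linarith)
  obtain ⟨h, hP, he, hf, htr⟩ := ex_meet h4 e f a a'
  have hA : Ad (ξ + η) (s + t) h (y * h + z * h) := by
    refine ⟨hP, ?_, ?_⟩
    · rw [ENNReal.ofReal_add hs.le ht.le]
      exact htr.trans (add_le_add b b')
    · rw [c_add, c_mul, c_mul, ← c, ← c', mul_assoc, mul_assoc, ← c_mul, ← c_mul, he, hf, add_mul]
  calc mu (ξ + η) (s + t) ≤ ‖(y * h + z * h).op‖ := mu_le hA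
    _ ≤ ‖(y * h).op‖ + ‖(z * h).op‖ := norm_add_le _ _
    _ ≤ ‖y.op‖ + ‖z.op‖ := add_le_add (norm_mul_P y h hP) (norm_mul_P z h hP)
    _ ≤ mu ξ s + mu η t + ε := by linarith

lemma split_eq (e z h : Mc 𝓜) (hz : (1 - e) * z * h = 0) : e * z * h = z * h := by
  have : (1 - e) * z * h = z * h - e * z * h := by noncomm_ring
  rw [this, sub_eq_zero] at hz
  exact hz.symm

lemma mu_mul (h1 : C_cut.{u}) (h4 : A_meet.{u}) (h5 : A_rp.{u}) (h6 : A_rptr.{u})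
    (h7 : A_tr.{u}) (hT : IsMT 𝓜) (ξ η : Sm 𝓜) {s t : ℝ}
    (hs : 0 < s) (ht : 0 < t) : mu (ξ * η) (s + t) ≤ mu ξ s * mu η t := by
  refine le_mul_of_forall_lt₀ (fun c1 hc1 c2 hc2 => ?_)
  obtain ⟨e, y, ⟨a, b, c⟩, h2⟩ := ex_lt h1 hT ξ hs hc1
  obtain ⟨f, z, ⟨a', b', c'⟩, h2'⟩ := ex_lt h1 hT η ht hc2
  obtain ⟨k, kP, k0, ktr⟩ := ex_pull h5 h6 h7 e z a
  obtain ⟨h, hP, hf, hk, htr⟩ := ex_meet h4 f k a' kP
  have h0 : (1 - e) * z * h = 0 := by rw [← hk, ← mul_assoc, k0, zero_mul]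
  have h00 := split_eq e z h h0
  have hA : Ad (ξ * η) (s + t) h (y * z * h) := by
    refine ⟨hP, ?_, ?_⟩
    · rw [ENNReal.ofReal_add hs.le ht.le, add_comm (ENNReal.ofReal s)]
      exact htr.trans (add_le_add b' (ktr.trans b))
    · have e1 : η * (h : Sm 𝓜) = ((z * h : Mc 𝓜) : Sm 𝓜) := by
        rw [c_mul, ← c', mul_assoc, ← c_mul, hf]
      rw [mul_assoc, e1, ← h00, mul_assoc e, c_mul, ← mul_assoc, c, ← c_mul, mul_assoc]
  calc mu (ξ * η) (s + t) ≤ ‖(y * z * h).op‖ := mu_le hA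
    _ ≤ ‖(y * z).op‖ := norm_mul_P _ h hP
    _ ≤ ‖y.op‖ * ‖z.op‖ := norm_mul_le _ _
    _ ≤ c1 * c2 := by gcongr; exact (norm_nonneg _).trans h2.le

lemma mu_bd (h1 : C_cut.{u}) (h5 : A_rp.{u}) (h6 : A_rptr.{u})
    (h7 : A_tr.{u}) (hT : IsMT 𝓜) (ξ : Sm 𝓜) (x y : Mc 𝓜) {t : ℝ} (ht : 0 < t) :
    mu ((x : Sm 𝓜) * ξ * (y : Sm 𝓜)) t ≤ ‖x.op‖ * ‖y.op‖ * mu ξ t := by
  have key : ∀ c, mu ξ t < c → mu ((x : Sm 𝓜) * ξ * (y : Sm 𝓜)) t ≤ ‖x.op‖ * ‖y.op‖ * c := by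
    intro c0 hc0
    obtain ⟨e, z, ⟨a, b, c⟩, h2⟩ := ex_lt h1 hT ξ ht hc0
    obtain ⟨k, kP, k0, ktr⟩ := ex_pull h5 h6 h7 e y a
    have h00 := split_eq e y k k0
    have hA : Ad ((x : Sm 𝓜) * ξ * (y : Sm 𝓜)) t k (x * z * y * k) := by
      refine ⟨kP, ktr.trans b, ?_⟩
      rw [c_mul, c_mul, c_mul, ← c, mul_assoc _ (y : Sm 𝓜), mul_assoc _ (y : Sm 𝓜),
        ← c_mul, ← h00, c_mul, c_mul]
      simp only [mul_assoc]
      rw [← mul_assoc (e : Sm 𝓜) (e : Sm 𝓜), ← c_mul e e, isP_mul a]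
    calc _ ≤ ‖(x * z * y * k).op‖ := mu_le hA
      _ ≤ ‖(x * z * y).op‖ := norm_mul_P _ k kP
      _ ≤ ‖(x * z).op‖ * ‖y.op‖ := norm_mul_le _ _
      _ ≤ ‖x.op‖ * ‖z.op‖ * ‖y.op‖ := by gcongr; exact norm_mul_le _ _
      _ = ‖x.op‖ * ‖y.op‖ * ‖z.op‖ := by ring
      _ ≤ ‖x.op‖ * ‖y.op‖ * c0 := by gcongr
  have hlim : Filter.Tendsto (fun c : ℝ => ‖x.op‖ * ‖y.op‖ * c) (𝓝[>] (mu ξ t))
      (𝓝 (‖x.op‖ * ‖y.op‖ * mu ξ t)) :=
    (continuous_const.mul continuous_id).continuousWithinAt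
  exact ge_of_tendsto hlim (Filter.eventually_of_mem self_mem_nhdsWithin (fun c hc => key c hc))

lemma mu_neg (ξ : Sm 𝓜) (t : ℝ) : mu (-ξ) t = mu ξ t := by
  unfold mu
  congr 1
  ext lam
  constructor
  · rintro ⟨e, y, a, b, c, rfl⟩
    refine ⟨e, -y, a, b, ?_, ?_⟩
    · rw [c_neg, ← c, neg_mul, neg_neg]
    · rw [op_neg, norm_neg]
  · rintro ⟨e, y, a, b, c, rfl⟩
    refine ⟨e, -y, a, b, ?_, ?_⟩
    · rw [c_neg, ← c, neg_mul]
    · rw [op_neg, norm_neg]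

lemma mu_coe (h7 : A_tr.{u}) (x : Mc 𝓜) (t : ℝ) : mu (x : Sm 𝓜) t ≤ ‖x.op‖ := by
  refine mu_le (e := 1) ⟨isP_one, ?_, ?_⟩
  · rw [sub_self, op_zero, (h7 H 𝓜).1]
    simp
  · rw [c_one, mul_one]

lemma mu_zero_r (ξ : Sm 𝓜) (e : Mc 𝓜) (t : ℝ) (he : IsP e) (h : 𝓜.tr e.op ≤ ENNReal.ofReal t) :
    mu (ξ * (e : Sm 𝓜)) t = 0 := by
  refine le_antisymm ?_ (mu_nonneg _ _)
  have hA : Ad (ξ * (e : Sm 𝓜)) t (1 - e) 0 := by
    refine ⟨isP_sub he, ?_, ?_⟩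
    · rw [sub_sub_cancel]; exact h
    · rw [mul_assoc, ← c_mul, mul_sub, mul_one, isP_mul he, sub_self, c_zero, mul_zero]
  have := mu_le hA
  rwa [op_zero, norm_zero] at this

lemma Nb_one (h7 : A_tr.{u}) {x : Mc 𝓜} {ε : ℝ} (h : ‖x.op‖ ≤ ε) : x ∈ Nb 𝓜 ε := by
  refine ⟨1, isP_one, ?_, ?_⟩
  · rw [mul_one]; exact h
  · rw [sub_self, op_zero, (h7 H 𝓜).1]
    simp

lemma Nb_mono {ε δ : ℝ} (h : ε ≤ δ) : Nb 𝓜 ε ⊆ Nb 𝓜 δ := by
  rintro x ⟨e, a, b, c⟩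
  exact ⟨e, a, b.trans h, c.trans (ENNReal.ofReal_le_ofReal h)⟩

lemma Nb_proj {e : Mc 𝓜} {ε : ℝ} (hε : 0 ≤ ε) (he : IsP e)
    (h : 𝓜.tr (1 - e).op ≤ ENNReal.ofReal ε) : 1 - e ∈ Nb 𝓜 ε := by
  refine ⟨e, he, ?_, h⟩
  rw [sub_mul, one_mul, isP_mul he, sub_self, op_zero, norm_zero]
  exact hε

lemma tendsto_zero_of_norm (h7 : A_tr.{u}) (hT : IsMT 𝓜) (w : ℕ → Mc 𝓜)
    (h : Filter.Tendsto (fun k => ‖(w k).op‖) Filter.atTop (𝓝 0)) :
    Filter.Tendsto w Filter.atTop (𝓝 0) := by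
  rw [hT.tendsto_right_iff]
  intro ε hε
  filter_upwards [h.eventually (gt_mem_nhds hε)] with k hk
  exact Nb_one h7 hk.le

lemma tendsto_of_norm (h7 : A_tr.{u}) (hT : IsMT 𝓜) (w : ℕ → Mc 𝓜) (x : Mc 𝓜)
    (h : Filter.Tendsto (fun k => (w k).op) Filter.atTop (𝓝 x.op)) :
    Filter.Tendsto w Filter.atTop (𝓝 x) := by
  have h0 : Filter.Tendsto (fun k => w k - x) Filter.atTop (𝓝 0) := by
    apply tendsto_zero_of_norm h7 hT
    have := (h.sub_const x.op).norm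
    simp only [op_sub]
    simpa using this
  simpa using h0.add_const x

lemma tendsto_one_of_tr (hT : IsMT 𝓜) (f : ℕ → Mc 𝓜) (hf : ∀ k, IsP (f k)) (δ : ℕ → ℝ)
    (hδ0 : ∀ k, 0 ≤ δ k) (hδ : Filter.Tendsto δ Filter.atTop (𝓝 0))
    (h : ∀ k, 𝓜.tr (1 - f k).op ≤ ENNReal.ofReal (δ k)) :
    Filter.Tendsto f Filter.atTop (𝓝 1) := by
  have h0 : Filter.Tendsto (fun k => 1 - f k) Filter.atTop (𝓝 0) := by
    rw [hT.tendsto_right_iff]
    intro ε hε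
    filter_upwards [hδ.eventually (gt_mem_nhds hε)] with k hk
    exact Nb_mono hk.le (Nb_proj (hδ0 k) (hf k) (h k))
  simpa using h0.const_sub 1

lemma c_tendsto {w : ℕ → Mc 𝓜} {x : Mc 𝓜} (h : Filter.Tendsto w Filter.atTop (𝓝 x)) :
    Filter.Tendsto (fun k => (w k : Sm 𝓜)) Filter.atTop (𝓝 (x : Sm 𝓜)) :=
  ((UniformSpace.Completion.continuous_coe (Mc 𝓜)).tendsto x).comp h

lemma M_closed (V : VonNeumannAlgebra H) : IsClosed {x : H →L[ℂ] H | x ∈ V} := by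
  have : {x : H →L[ℂ] H | x ∈ V} = Set.centralizer (Set.centralizer (V : Set (H →L[ℂ] H))) := by
    rw [VonNeumannAlgebra.centralizer_centralizer]
    rfl
  rw [this]
  exact Set.isClosed_centralizer _

/-- a summable family of elements of `M` -/
lemma ex_sum (w : ℕ → Mc 𝓜) (h : Summable (fun k => (w k).op)) :
    ∃ x : Mc 𝓜, HasSum (fun k => (w k).op) x.op := by
  have hm : ∑' k, (w k).op ∈ 𝓜.M := by
    have h2 := h.hasSum.tendsto_sum_nat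
    refine (M_closed 𝓜.M).mem_of_tendsto h2 (Filter.Eventually.of_forall (fun n => ?_))
    exact sum_mem (fun k _ => (w k).2)
  exact ⟨Mc.mk _ hm, h.hasSum⟩

lemma op_sum (w : ℕ → Mc 𝓜) (n : ℕ) : (∑ k ∈ range n, w k).op = ∑ k ∈ range n, (w k).op := by
  induction n with
  | zero => rfl
  | succ n ih => rw [sum_range_succ, sum_range_succ, op_add, ih]

lemma c_sum (w : ℕ → Mc 𝓜) (n : ℕ) :
    ((∑ k ∈ range n, w k : Mc 𝓜) : Sm 𝓜) = ∑ k ∈ range n, (w k : Sm 𝓜) := by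
  induction n with
  | zero => simp [c_zero]
  | succ n ih => rw [sum_range_succ, sum_range_succ, c_add, ih]

lemma c_smul (r : ℝ) (η : Sm 𝓜) (x y : Mc 𝓜) (h : η * (x : Sm 𝓜) = (y : Sm 𝓜)) :
    η * ((((r : ℂ) • x : Mc 𝓜)) : Sm 𝓜) = (((r : ℂ) • y : Mc 𝓜) : Sm 𝓜) := by
  have e1 : (r : ℂ) • x = x * ((r : ℂ) • (1 : Mc 𝓜)) := by
    rw [mul_smul_comm, mul_one]
  have e2 : (r : ℂ) • y = y * ((r : ℂ) • (1 : Mc 𝓜)) := by
    rw [mul_smul_comm, mul_one]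
  rw [e1, e2, c_mul, c_mul, ← mul_assoc, h]

/-- the kernel of a weighted sum of projections with small complements is trivial -/
lemma ker_zero (g : H →L[ℂ] H) (e : ℕ → H →L[ℂ] H) (c : ℕ → ℝ) (hc : ∀ k, 0 < c k)
    (he : ∀ k, IsStarProjection (e k)) (hs : HasSum (fun k => ((c k : ℝ) : ℂ) • e k) g) (v : H)
    (hv : g v = 0) (k : ℕ) : e k v = 0 := by
  have h1 : HasSum (fun k => (inner ℂ v ((((c k : ℝ) : ℂ) • e k) v)).re) (inner ℂ v (g v)).re := by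
    let L : (H →L[ℂ] H) →+ ℝ :=
      { toFun := fun T => (inner ℂ v (T v)).re
        map_zero' := by simp
        map_add' := fun S T => by simp }
    have hL : Continuous L := by
      change Continuous (fun T : H →L[ℂ] H => (inner ℂ v (T v)).re)
      have h0 : Continuous (fun T : H →L[ℂ] H => T v) := by fun_prop
      exact Complex.continuous_re.comp (continuous_const.inner h0)
    exact hs.map L hL
  have h5 : ∀ k, (inner ℂ v ((((c k : ℝ) : ℂ) • e k) v)).re = c k * ‖e k v‖ ^ 2 := by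
    intro k
    have hid : e k * e k = e k := (he k).isIdempotentElem.eq
    have hsa : star (e k) = e k := (he k).isSelfAdjoint.star_eq
    have h6 : (inner ℂ v (e k v)) = (inner ℂ (e k v) (e k v) : ℂ) := by
      have : e k v = e k (e k v) := by
        conv_lhs => rw [← hid]
        rfl
      conv_lhs => rw [this]
      rw [← ContinuousLinearMap.adjoint_inner_left]
      rw [← ContinuousLinearMap.star_eq_adjoint, hsa]
    rw [_root_.smul_apply, inner_smul_right, h6, inner_self_eq_norm_sq_to_K]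
    have h9 : ((c k : ℝ) : ℂ) * ((‖(e k) v‖ : ℝ) : ℂ) ^ 2 = ((c k * ‖(e k) v‖ ^ 2 : ℝ) : ℂ) := by
      push_cast
      ring
    exact (congrArg Complex.re h9).trans (Complex.ofReal_re _)
  rw [hv, inner_zero_right, Complex.zero_re] at h1
  simp only [h5] at h1
  have h7 := (hasSum_zero_iff_of_nonneg (fun k => by
    have := hc k
    positivity)).mp h1
  have h8 := congrFun h7 k
  simp only [Pi.zero_apply, mul_eq_zero, (hc k).ne', false_or] at h8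
  simpa using h8

/-- the key to the adjoint formula -/
lemma ex_left (h1 : C_cut.{u}) (h2 : C_ball.{u}) (h5 : A_rp.{u}) (h6 : A_rptr.{u})
    (h7 : A_tr.{u}) (hT : IsMT 𝓜) (ξ : Sm 𝓜) (e : Mc 𝓜) (he : IsP e) :
    ∃ f : Mc 𝓜, IsP f ∧ 𝓜.tr (1 - f).op ≤ 𝓜.tr (1 - e).op ∧
      (f : Sm 𝓜) * ξ * ((1 - e : Mc 𝓜) : Sm 𝓜) = 0 := by
  set η : Sm 𝓜 := ξ * ((1 - e : Mc 𝓜) : Sm 𝓜) with hη
  have hinj := (h2 H 𝓜 hT).1
  have hd : ∀ k : ℕ, (0 : ℝ) < (1 / 2 : ℝ) ^ k := fun k => by positivity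
  choose E Y hE1 hE2 hE3 using fun k : ℕ => (h1 H 𝓜 hT η ((1 / 2 : ℝ) ^ k) (hd k)).1
  set c : ℕ → ℝ := fun k => (1 / 2 : ℝ) ^ k / (1 + ‖(Y k).op‖) with hc
  have hcpos : ∀ k, 0 < c k := fun k => by
    have := norm_nonneg (Y k).op
    simp only [hc]
    positivity
  have hcle : ∀ k, c k ≤ (1 / 2 : ℝ) ^ k := fun k => by
    have := norm_nonneg (Y k).op
    simp only [hc]
    exact div_le_self (hd k).le (by linarith)
  have hcY : ∀ k, c k * ‖(Y k).op‖ ≤ (1 / 2 : ℝ) ^ k := fun k => by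
    have := norm_nonneg (Y k).op
    simp only [hc]
    rw [div_mul_eq_mul_div, div_le_iff₀ (by positivity)]
    nlinarith [hd k]
  have hgeo : Summable (fun k : ℕ => (1 / 2 : ℝ) ^ k) := summable_geometric_two
  have hsE : Summable (fun k => ((((c k : ℝ) : ℂ) • E k : Mc 𝓜)).op) := by
    refine Summable.of_norm_bounded hgeo (fun k => ?_)
    have : ((((c k : ℝ) : ℂ) • E k : Mc 𝓜)).op = ((c k : ℝ) : ℂ) • (E k).op := rfl
    rw [this, norm_smul, Complex.norm_real, Real.norm_of_nonneg (hcpos k).le]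
    calc c k * ‖(E k).op‖ ≤ c k * 1 := by
          gcongr
          exact isP_norm (hE1 k)
      _ ≤ _ := by rw [mul_one]; exact hcle k
  have hsY : Summable (fun k => ((((c k : ℝ) : ℂ) • Y k : Mc 𝓜)).op) := by
    refine Summable.of_norm_bounded hgeo (fun k => ?_)
    have : ((((c k : ℝ) : ℂ) • Y k : Mc 𝓜)).op = ((c k : ℝ) : ℂ) • (Y k).op := rfl
    rw [this, norm_smul, Complex.norm_real, Real.norm_of_nonneg (hcpos k).le]
    exact hcY k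
  obtain ⟨g, hg⟩ := ex_sum _ hsE
  obtain ⟨y, hy⟩ := ex_sum _ hsY
  -- `η g = y`
  have hgy : η * (g : Sm 𝓜) = (y : Sm 𝓜) := by
    have t1 : Filter.Tendsto (fun n => ((∑ k ∈ range n, ((c k : ℝ) : ℂ) • E k : Mc 𝓜) : Sm 𝓜))
        Filter.atTop (𝓝 (g : Sm 𝓜)) := by
      apply c_tendsto
      apply tendsto_of_norm h7 hT
      simp only [op_sum]
      exact hg.tendsto_sum_nat
    have t2 : Filter.Tendsto (fun n => ((∑ k ∈ range n, ((c k : ℝ) : ℂ) • Y k : Mc 𝓜) : Sm 𝓜))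
        Filter.atTop (𝓝 (y : Sm 𝓜)) := by
      apply c_tendsto
      apply tendsto_of_norm h7 hT
      simp only [op_sum]
      exact hy.tendsto_sum_nat
    have t3 := (t1.const_mul η)
    refine tendsto_nhds_unique t3 (t2.congr (fun n => ?_))
    rw [c_sum, c_sum, mul_sum]
    refine sum_congr rfl (fun k _ => ?_)
    exact (c_smul (c k) η _ _ (hE3 k)).symm
  -- the range projection of `y`
  obtain ⟨yP, ya, -, yM⟩ := h5 H y.op
  have hm : rp y.op ∈ 𝓜.M := yM 𝓜.M y.2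
  set r : Mc 𝓜 := Mc.mk (rp y.op) hm with hr
  have hrP : IsP r := yP
  have hry : r * y = y := ext' ya
  refine ⟨1 - r, isP_sub hrP, ?_, ?_⟩
  · -- the trace
    obtain ⟨k, kP, k0, ktr⟩ := ex_pull h5 h6 h7 e g he
    refine le_trans ?_ ktr
    rw [sub_sub_cancel, hr, op_mk, h6 H 𝓜 y.op y.2, ← op_star]
    apply tr_rp_le h5 h7 _ _ (isP_sub kP)
    have hyk : y * k = 0 := by
      apply hinj
      rw [c_mul, ← hgy, hη, mul_assoc, mul_assoc, ← c_mul, ← c_mul, ← mul_assoc, k0, c_zero,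
        mul_zero]
    have := congrArg star hyk
    rw [star_mul, star_zero, isP_star kP] at this
    rw [sub_mul, one_mul, this, sub_zero]
  · -- `(1 - r) η = 0`
    rw [mul_assoc, ← hη]
    set ζ : Sm 𝓜 := ((1 - r : Mc 𝓜) : Sm 𝓜) * η with hζ
    have hζg : ζ * (g : Sm 𝓜) = 0 := by
      rw [hζ, mul_assoc, hgy, ← c_mul, sub_mul, one_mul, hry, sub_self, c_zero]
    -- `rp g = 1`
    have hgsa : star g.op = g.op := by
      have h8 := hg.star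
      have h9 : (fun k => star (((((c k : ℝ) : ℂ) • E k : Mc 𝓜)).op)) =
          fun k => ((((c k : ℝ) : ℂ) • E k : Mc 𝓜)).op := by
        funext k
        have : ((((c k : ℝ) : ℂ) • E k : Mc 𝓜)).op = ((c k : ℝ) : ℂ) • (E k).op := rfl
        rw [this, star_smul, (hE1 k).isSelfAdjoint.star_eq, Complex.star_def, Complex.conj_ofReal]
      rw [h9] at h8
      exact h8.unique hg
    obtain ⟨gP, ga, gb, gM⟩ := h5 H g.op
    have hgm : rp g.op ∈ 𝓜.M := gM 𝓜.M g.2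
    set q : Mc 𝓜 := 1 - Mc.mk (rp g.op) hgm with hq
    have hqP : IsP q := isP_sub gP
    have hgq : g * q = 0 := by
      apply ext'
      rw [op_mul, hq, op_sub, op_one, op_mk, op_zero, mul_sub, mul_one, sub_eq_zero]
      have := congrArg star ga
      rw [star_mul, hgsa, gP.isSelfAdjoint.star_eq] at this
      exact this.symm
    have hEq : ∀ k, E k * q = 0 := by
      intro k
      apply ext'
      rw [op_mul, op_zero]
      ext v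
      have hv : g.op (q.op v) = 0 := by
        have := congrArg (fun T : Mc 𝓜 => T.op v) hgq
        exact this
      exact ker_zero g.op (fun k => (E k).op) c hcpos hE1 hg (q.op v) hv k
    have hqtr : ∀ k, 𝓜.tr q.op ≤ ENNReal.ofReal ((1 / 2 : ℝ) ^ k) := by
      intro k
      refine le_trans ?_ (hE2 k)
      have h10 : (1 - E k) * q = q := by rw [sub_mul, one_mul, hEq k, sub_zero]
      refine (h7 H 𝓜).2.1 _ _ q.2 (1 - E k).2 hqP.nonneg ?_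
      have h11 : IsStarProjection ((1 - E k).op - q.op) :=
        IsStarProjection.sub_of_mul_eq_right hqP (isP_sub (hE1 k)) (congrArg Mc.op h10)
      exact sub_nonneg.mp h11.nonneg
    have hq0 : 𝓜.tr q.op = 0 := by
      have ht : Filter.Tendsto (fun k : ℕ => ENNReal.ofReal ((1 / 2 : ℝ) ^ k)) Filter.atTop
          (𝓝 (ENNReal.ofReal 0)) :=
        ENNReal.tendsto_ofReal (tendsto_pow_atTop_nhds_zero_of_lt_one (by norm_num) (by norm_num))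
      rw [ENNReal.ofReal_zero] at ht
      exact le_antisymm (ge_of_tendsto' ht hqtr) (by simp)
    have hq1 : q.op = 0 := 𝓜.tr_faithful q.op q.2 hqP.nonneg hq0
    have hrpg : rp g.op = 1 := by
      rw [hq, op_sub, op_one, op_mk, sub_eq_zero] at hq1
      exact hq1.symm
    -- cut on the left
    choose F Z hF1 hF2 hF3 using fun k : ℕ => (h1 H 𝓜 hT ζ ((1 / 2 : ℝ) ^ k) (hd k)).2
    have hZ : ∀ k, Z k = 0 := by
      intro k
      have h12 : Z k * g = 0 := by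
        apply hinj
        rw [c_mul, ← hF3 k, mul_assoc, hζg, mul_zero, c_zero]
      have h13 := gb (Z k).op (congrArg Mc.op h12)
      rw [hrpg, mul_one] at h13
      exact ext' h13
    have hF : Filter.Tendsto F Filter.atTop (𝓝 1) :=
      tendsto_one_of_tr hT F hF1 (fun k => (1 / 2 : ℝ) ^ k) (fun k => (hd k).le)
        (tendsto_pow_atTop_nhds_zero_of_lt_one (by norm_num) (by norm_num)) hF2
    have h14 := (c_tendsto hF).mul_const ζ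
    rw [c_one, one_mul] at h14
    refine tendsto_nhds_unique h14 ?_
    simp only [hF3, hZ, c_zero]
    exact tendsto_const_nhds

lemma mu_star_le (h1 : C_cut.{u}) (h2 : C_ball.{u}) (h3 : C_star.{u}) (h5 : A_rp.{u})
    (h6 : A_rptr.{u}) (h7 : A_tr.{u}) (hT : IsMT 𝓜) (ξ : Sm 𝓜) {t : ℝ} (ht : 0 < t) :
    mu (sst ξ) t ≤ mu ξ t := by
  refine le_of_forall_gt_imp_ge_of_dense (fun c hc => ?_)
  obtain ⟨e, y, ⟨a, b, c'⟩, h2'⟩ := ex_lt h1 hT ξ ht hc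
  obtain ⟨f, fP, ftr, f0⟩ := ex_left h1 h2 h5 h6 h7 hT ξ e a
  obtain ⟨s1, s2, s3, s4, s5, s6⟩ := h3 H 𝓜 hT
  have hz : sst (0 : Sm 𝓜) = 0 := by
    rw [← c_zero, s1, star_zero]
  have hA : Ad (sst ξ) t f (star y * f) := by
    refine ⟨fP, ftr.trans b, ?_⟩
    have e1 := congrArg sst f0
    rw [s4, s4, hz, s1, s1, isP_star fP, isP_star (isP_sub a)] at e1
    have e2 := congrArg sst c'
    rw [s4, s1, s1, isP_star a] at e2
    rw [c_mul, ← e2]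
    have e3 : sst ξ * (f : Sm 𝓜) - (e : Sm 𝓜) * sst ξ * (f : Sm 𝓜) = 0 := by
      rw [← e1, c_sub, c_one]
      noncomm_ring
    exact sub_eq_zero.mp e3
  calc _ ≤ ‖(star y * f).op‖ := mu_le hA
    _ ≤ ‖(star y).op‖ := norm_mul_P _ f fP
    _ = ‖y.op‖ := by rw [op_star, norm_star]
    _ ≤ c := h2'.le

lemma mu_star (h1 : C_cut.{u}) (h2 : C_ball.{u}) (h3 : C_star.{u}) (h5 : A_rp.{u})
    (h6 : A_rptr.{u}) (h7 : A_tr.{u}) (hT : IsMT 𝓜) (ξ : Sm 𝓜) {t : ℝ} (ht : 0 < t) :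
    mu (sst ξ) t = mu ξ t := by
  refine le_antisymm (mu_star_le h1 h2 h3 h5 h6 h7 hT ξ ht) ?_
  have := mu_star_le h1 h2 h3 h5 h6 h7 hT (sst ξ) ht
  rwa [(h3 H 𝓜 hT).2.2.2.2.1 ξ] at this

lemma mu_zero_l (h1 : C_cut.{u}) (h2 : C_ball.{u}) (h3 : C_star.{u}) (h5 : A_rp.{u})
    (h6 : A_rptr.{u}) (h7 : A_tr.{u}) (hT : IsMT 𝓜) (ξ : Sm 𝓜) (e : Mc 𝓜) {t : ℝ} (ht : 0 < t)
    (he : IsP e) (h : 𝓜.tr e.op ≤ ENNReal.ofReal t) :
    mu ((e : Sm 𝓜) * ξ) t = 0 := by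
  obtain ⟨s1, s2, s3, s4, s5, s6⟩ := h3 H 𝓜 hT
  rw [← mu_star h1 h2 h3 h5 h6 h7 hT _ ht, s4, s1, isP_star he]
  exact mu_zero_r _ e t he h

lemma mu_sq (h1 : C_cut.{u}) (h2 : C_ball.{u}) (h3 : C_star.{u}) (hT : IsMT 𝓜) (ξ : Sm 𝓜)
    {t : ℝ} (ht : 0 < t) : (mu ξ t) ^ 2 ≤ mu (sst ξ * ξ) t := by
  refine le_of_forall_gt_imp_ge_of_dense (fun c hc => ?_)
  obtain ⟨e, y, ⟨a, b, c'⟩, h2'⟩ := ex_lt h1 hT (sst ξ * ξ) ht hc
  obtain ⟨s1, s2, s3, s4, s5, s6⟩ := h3 H 𝓜 hT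
  have hinj := (h2 H 𝓜 hT).1
  have hd : ∀ k : ℕ, (0 : ℝ) < (1 / 2 : ℝ) ^ k := fun k => by positivity
  choose F X hF1 hF2 hF3 using
    fun k : ℕ => (h1 H 𝓜 hT (ξ * (e : Sm 𝓜)) ((1 / 2 : ℝ) ^ k) (hd k)).1
  have hF : Filter.Tendsto F Filter.atTop (𝓝 1) :=
    tendsto_one_of_tr hT F hF1 (fun k => (1 / 2 : ℝ) ^ k) (fun k => (hd k).le)
      (tendsto_pow_atTop_nhds_zero_of_lt_one (by norm_num) (by norm_num)) hF2
  have hX : Filter.Tendsto (fun k => (X k : Sm 𝓜)) Filter.atTop (𝓝 (ξ * (e : Sm 𝓜))) := by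
    have h14 := (c_tendsto hF).const_mul (ξ * (e : Sm 𝓜))
    rw [c_one, mul_one] at h14
    exact h14.congr hF3
  have hXn : ∀ k, ‖(X k).op‖ ≤ Real.sqrt ‖y.op‖ := by
    intro k
    have e1 : star (X k) * X k = F k * (e * y) * F k := by
      apply hinj
      rw [c_mul, ← s1, ← hF3 k, s4, s4, s1, s1, isP_star a, isP_star (hF1 k), c_mul, c_mul, c_mul,
        ← c']
      simp only [mul_assoc]
    have e2 : ‖(star (X k) * X k).op‖ ≤ ‖y.op‖ := by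
      rw [e1]
      exact (norm_mul_P _ _ (hF1 k)).trans ((norm_P_mul _ _ (hF1 k)).trans (norm_P_mul _ _ a))
    rw [op_mul, op_star, CStarRing.norm_star_mul_self] at e2
    apply Real.le_sqrt_of_sq_le
    rw [sq]
    exact e2
  obtain ⟨x, hx, hxn⟩ := (h2 H 𝓜 hT).2 _ X _ hXn hX
  have hA : Ad ξ t e x := ⟨a, b, hx⟩
  have h3' : mu ξ t ≤ Real.sqrt ‖y.op‖ := (mu_le hA).trans hxn
  calc (mu ξ t) ^ 2 ≤ (Real.sqrt ‖y.op‖) ^ 2 := by
        gcongr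
        exact mu_nonneg _ _
    _ = ‖y.op‖ := Real.sq_sqrt (norm_nonneg _)
    _ ≤ c := h2'.le

lemma mem_closure_Nb (h1 : C_cut.{u}) (h2 : C_ball.{u}) (hT : IsMT 𝓜) (ζ : Sm 𝓜) {ε : ℝ}
    (hε : 0 < ε) (h : mu ζ ε < ε) :
    ζ ∈ closure ((fun x : Mc 𝓜 => (x : Sm 𝓜)) '' Nb 𝓜 ε) := by
  obtain ⟨e, y, ⟨a, b, c⟩, hy⟩ := ex_lt h1 hT ζ hε h
  have hinj := (h2 H 𝓜 hT).1
  have hye : y * e = y := by
    apply hinj
    rw [c_mul, ← c, mul_assoc, ← c_mul, isP_mul a]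
  let ψ : Sm 𝓜 → Sm 𝓜 := fun α => α * ((1 - e : Mc 𝓜) : Sm 𝓜) + (y : Sm 𝓜)
  have hψ : Continuous ψ := (continuous_id.mul continuous_const).add continuous_const
  have hψζ : ψ ζ = ζ := by
    change ζ * ((1 - e : Mc 𝓜) : Sm 𝓜) + (y : Sm 𝓜) = ζ
    rw [c_sub, c_one, ← c]
    noncomm_ring
  have hd : ζ ∈ closure (Set.range (fun x : Mc 𝓜 => (x : Sm 𝓜))) :=
    UniformSpace.Completion.denseRange_coe ζ
  have h3 : ψ ζ ∈ closure (ψ '' (Set.range (fun x : Mc 𝓜 => (x : Sm 𝓜)))) :=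
    image_closure_subset_closure_image hψ ⟨ζ, hd, rfl⟩
  rw [hψζ] at h3
  refine closure_mono ?_ h3
  rintro _ ⟨_, ⟨x, rfl⟩, rfl⟩
  refine ⟨x * (1 - e) + y, ⟨e, a, ?_, b⟩, ?_⟩
  · have : (x * (1 - e) + y) * e = y := by
      rw [add_mul, mul_assoc, sub_mul, one_mul, isP_mul a, sub_self, mul_zero, zero_add, hye]
    rw [this]
    exact hy.le
  · change ((x * (1 - e) + y : Mc 𝓜) : Sm 𝓜) = _
    rw [c_add, c_mul]

lemma Nb_mul_P (h5 : A_rp.{u}) (h6 : A_rptr.{u}) (h7 : A_tr.{u}) {ε : ℝ} {x f : Mc 𝓜}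
    (hx : x ∈ Nb 𝓜 ε) (hf : IsP f) : x * f ∈ Nb 𝓜 ε := by
  obtain ⟨e, a, b, c⟩ := hx
  obtain ⟨k, kP, k0, ktr⟩ := ex_pull h5 h6 h7 e f a
  refine ⟨k, kP, ?_, ktr.trans c⟩
  have h00 := split_eq e f k k0
  have : x * f * k = x * e * f * k := by
    rw [mul_assoc x f k, ← h00]
    noncomm_ring
  rw [this]
  exact (norm_mul_P _ k kP).trans ((norm_mul_P _ f hf).trans b)

lemma tendsto_iff (h1 : C_cut.{u}) (h2 : C_ball.{u}) (h4 : A_meet.{u}) (h5 : A_rp.{u})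
    (h6 : A_rptr.{u}) (h7 : A_tr.{u}) (hT : IsMT 𝓜) {ι : Type} (l : Filter ι) (ζ : ι → Sm 𝓜) :
    Filter.Tendsto ζ l (𝓝 0) ↔ ∀ t : ℝ, 0 < t → Filter.Tendsto (fun i => mu (ζ i) t) l (𝓝 0) := by
  constructor
  · intro h t ht
    rw [Metric.tendsto_nhds]
    intro ε hε
    -- a small parameter
    obtain ⟨δ, hδ, hδt, hδε⟩ : ∃ δ : ℝ, 0 < δ ∧ 2 * δ ≤ t ∧ δ < ε := by
      refine ⟨min (t / 2) (ε / 2), by positivity, ?_, ?_⟩
      · have := min_le_left (t / 2) (ε / 2)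
        linarith
      · have := min_le_right (t / 2) (ε / 2)
        linarith
    -- a neighbourhood of zero in the completion whose trace is contained in `Nb δ`
    have hi : Topology.IsInducing (fun x : Mc 𝓜 => (x : Sm 𝓜)) :=
      (UniformSpace.Completion.isUniformInducing_coe (Mc 𝓜)).isInducing
    have hN : Nb 𝓜 δ ∈ 𝓝 (0 : Mc 𝓜) := hT.mem_of_mem hδ
    rw [hi.nhds_eq_comap, Filter.mem_comap] at hN
    obtain ⟨U, hU, hUN⟩ := hN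
    rw [c_zero] at hU
    obtain ⟨U', hU', hU'c, hU'U⟩ := exists_mem_nhds_isClosed_subset hU
    have hN' : (fun x : Mc 𝓜 => (x : Sm 𝓜)) ⁻¹' U' ∈ 𝓝 (0 : Mc 𝓜) := by
      rw [hi.nhds_eq_comap, Filter.mem_comap]
      exact ⟨U', by rw [c_zero]; exact hU', subset_rfl⟩
    obtain ⟨ε', hε', hNε⟩ := hT.mem_iff.mp hN'
    have hV : closure ((fun x : Mc 𝓜 => (x : Sm 𝓜)) '' Nb 𝓜 ε') ∈ 𝓝 (0 : Sm 𝓜) := by
      have := (UniformSpace.Completion.isDenseInducing_coe (α := Mc 𝓜)).closure_image_mem_nhds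
        (hT.mem_of_mem hε')
      rw [c_zero] at this
      exact this
    filter_upwards [h.eventually hV] with i hi'
    obtain ⟨e, y, a, b, c⟩ := ex_ad h1 hT (ζ i) hδ
    have hmul : ζ i * (e : Sm 𝓜) ∈ U' := by
      have hc : Continuous (fun α : Sm 𝓜 => α * (e : Sm 𝓜)) := continuous_id.mul continuous_const
      have h3 := image_closure_subset_closure_image hc ⟨ζ i, hi', rfl⟩
      have h4' : (fun α : Sm 𝓜 => α * (e : Sm 𝓜)) '' ((fun x : Mc 𝓜 => (x : Sm 𝓜)) '' Nb 𝓜 ε')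
          ⊆ U' := by
        rintro _ ⟨_, ⟨x, hx, rfl⟩, rfl⟩
        have := hNε (Nb_mul_P h5 h6 h7 hx a)
        simp only [Set.mem_preimage, c_mul] at this
        exact this
      exact (closure_minimal h4' hU'c) h3
    rw [c] at hmul
    obtain ⟨f, fP, fn, ftr⟩ := hUN (hU'U hmul)
    obtain ⟨k, kP, hk1, hk2, hk3⟩ := ex_meet h4 e f a fP
    have hA : Ad (ζ i) t k (y * f * k) := by
      refine ⟨kP, ?_, ?_⟩
      · refine hk3.trans ((add_le_add b ftr).trans ?_)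
        rw [← ENNReal.ofReal_add hδ.le hδ.le]
        apply ENNReal.ofReal_le_ofReal
        linarith
      · rw [mul_assoc y, hk2, c_mul, ← c, mul_assoc, ← c_mul, hk1]
    have h8 := (mu_le hA).trans ((norm_mul_P _ k kP).trans fn)
    rw [Real.dist_eq, sub_zero, abs_of_nonneg (mu_nonneg _ _)]
    linarith
  · intro h
    rw [Filter.tendsto_def]
    intro U hU
    obtain ⟨U', hU', hU'c, hU'U⟩ := exists_mem_nhds_isClosed_subset hU
    have hi : Topology.IsInducing (fun x : Mc 𝓜 => (x : Sm 𝓜)) :=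
      (UniformSpace.Completion.isUniformInducing_coe (Mc 𝓜)).isInducing
    have hN' : (fun x : Mc 𝓜 => (x : Sm 𝓜)) ⁻¹' U' ∈ 𝓝 (0 : Mc 𝓜) := by
      rw [hi.nhds_eq_comap, Filter.mem_comap]
      exact ⟨U', by rw [c_zero]; exact hU', subset_rfl⟩
    obtain ⟨ε', hε', hNε⟩ := hT.mem_iff.mp hN'
    filter_upwards [(h ε' hε').eventually (gt_mem_nhds hε')] with i hi'
    apply hU'U
    have h3 := mem_closure_Nb h1 h2 hT (ζ i) hε' hi'
    refine (closure_minimal ?_ hU'c) h3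
    rintro _ ⟨x, hx, rfl⟩
    exact hNε hx

end sm

end H_C_mu

open H_C_mu in
theorem q_mu (h1 : C_cut.{u}) (h2 : C_ball.{u}) (h3 : C_star.{u}) (h4 : A_meet.{u})
    (h5 : A_rp.{u}) (h6 : A_rptr.{u}) (h7 : A_tr.{u}) : C_mu.{u} := by
  intro H _ _ _ 𝓜 _ _ _ hT
  refine ⟨mu_nonneg, fun ξ s t hs hst => mu_anti h1 hT ξ hs hst,
    fun ξ η s t hs ht => mu_add h1 h4 hT ξ η hs ht,
    fun ξ η s t hs ht => mu_mul h1 h4 h5 h6 h7 hT ξ η hs ht,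
    fun ξ x y t ht => mu_bd h1 h5 h6 h7 hT ξ x y ht,
    fun ξ t ht => mu_star h1 h2 h3 h5 h6 h7 hT ξ ht,
    fun ξ t => mu_neg ξ t, fun x t _ => mu_coe h7 x t,
    fun ξ e t he ht htr => ⟨mu_zero_l h1 h2 h3 h5 h6 h7 hT ξ e ht he htr,
      mu_zero_r ξ e t he htr⟩,
    fun ξ t ht => mu_sq h1 h2 h3 hT ξ ht, ?_⟩
  intro ι l ξ η
  have h8 := tendsto_iff h1 h2 h4 h5 h6 h7 hT l (fun i => ξ i - η)
  rw [← h8]
  constructor
  · intro h
    have := h.sub_const η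
    rwa [sub_self] at this
  · intro h
    have := h.add_const η
    simpa using this

end MDB
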