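import Mathlib

/-!
# Mixed Doob-Burkholder: the tracial core

Abstract setting: a unital C*-algebra `A` with a (not necessarily faithful, not normalised) finite
positive tracial functional, and a sequence of trace preserving conditional expectations.
-/

open Finset

namespace MDB

universe u

/-- The real part of a finite positive tracial functional on a unital C*-algebra. -/
structure TrFun (A : Type u) [CStarAlgebra A] [PartialOrder A] [StarOrderedRing A] where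
  /-- the functional -/
  t : A →ₗ[ℝ] ℝ
  comm : ∀ a b : A, t (a * b) = t (b * a)
  star_eq : ∀ a : A, t (star a) = t a
  nonneg : ∀ a : A, 0 ≤ a → 0 ≤ t a

section

variable {A : Type u} [CStarAlgebra A] [PartialOrder A] [StarOrderedRing A]

/-- `pw T r a = trace of a ^ r` for `0 ≤ a`. -/
noncomputable def TrFun.pw (T : TrFun A) (r : ℝ) (a : A) : ℝ :=
  T.t (cfc (fun s : ℝ => s ^ r) a)

/-- `T.nrm p x = trace of |x| ^ p`. -/
noncomputable def TrFun.nrm (T : TrFun A) (p : ℝ) (x : A) : ℝ :=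
  T.pw (p / 2) (star x * x)

/-- A filtration: trace preserving conditional expectations `E n` onto increasing subalgebras
`{a | E n a = a}`. -/
structure Filt (T : TrFun A) where
  /-- the conditional expectations -/
  E : ℕ → A →ₗ[ℝ] A
  E_star : ∀ n a, E n (star a) = star (E n a)
  E_nonneg : ∀ n a, 0 ≤ a → 0 ≤ E n a
  E_tr : ∀ n a, T.t (E n a) = T.t a
  E_one : ∀ n, E n 1 = 1
  E_mul_left : ∀ n a b, E n a = a → E n (a * b) = a * E n b
  E_mul_right : ∀ n a b, E n b = b → E n (a * b) = E n a * b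
  E_tower : ∀ m n a, m ≤ n → E m (E n a) = E m a
  E_tower' : ∀ m n a, m ≤ n → E n (E m a) = E m a

/-- Spectral projections of the self-adjoint elements of the subalgebras, at the level `lam`. -/
def HasSP {T : TrFun A} (F : Filt T) : Prop :=
  ∀ (n : ℕ) (y : A), IsSelfAdjoint y → F.E n y = y → ∀ lam : ℝ, 0 < lam →
    ∃ P Q : A, IsStarProjection P ∧ IsStarProjection Q ∧ P * Q = 0 ∧
      F.E n P = P ∧ F.E n Q = Q ∧ P * y = y * P ∧ Q * y = y * Q ∧
      lam • P ≤ P * y * P ∧ Q * y * Q ≤ -(lam • Q) ∧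
      (1 - P - Q) * y * (1 - P - Q) ≤ lam • (1 : A) ∧
      -(lam • (1 : A)) ≤ (1 - P - Q) * y * (1 - P - Q)

/-- partial sums of the differences `d` -/
noncomputable def ps (d : ℕ → A) (n : ℕ) : A := ∑ k ∈ range n, d k

/-- Cuculescu projections of the self-adjoint martingale `ps d n`, `n ≤ N`, at level `lam`. -/
structure Cuc {T : TrFun A} (F : Filt T) (N : ℕ) (d : ℕ → A) (lam : ℝ) where
  /-- the decreasing projections -/
  R : ℕ → A
  /-- the jumps, positive part -/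
  P : ℕ → A
  /-- the jumps, negative part -/
  Q : ℕ → A
  R_zero : R 0 = 1
  R_succ : ∀ n, R (n + 1) = R n - P n - Q n
  proj_R : ∀ n, IsStarProjection (R n)
  proj_P : ∀ n, IsStarProjection (P n)
  proj_Q : ∀ n, IsStarProjection (Q n)
  PQ : ∀ n, P n * Q n = 0
  RP : ∀ n, R n * P n = P n
  RQ : ∀ n, R n * Q n = Q n
  mem_R : ∀ n, F.E n (R n) = R n
  mem_P : ∀ n, F.E (n + 1) (P n) = P n
  mem_Q : ∀ n, F.E (n + 1) (Q n) = Q n
  comm_P : ∀ n, n < N → P n * (R n * ps d (n + 1) * R n) = (R n * ps d (n + 1) * R n) * P n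
  comm_Q : ∀ n, n < N → Q n * (R n * ps d (n + 1) * R n) = (R n * ps d (n + 1) * R n) * Q n
  low_P : ∀ n, n < N → lam • P n ≤ P n * ps d (n + 1) * P n
  low_Q : ∀ n, n < N → Q n * ps d (n + 1) * Q n ≤ -(lam • Q n)
  bdd : ∀ n, n ≤ N → R n * ps d n * R n ≤ lam • (1 : A)
  bdd' : ∀ n, n ≤ N → -(lam • (1 : A)) ≤ R n * ps d n * R n

end

/-- `q = 2 ^ (j+1)` -/
noncomputable def qj (j : ℕ) : ℝ := 2 ^ (j + 1)

/-- the conjugate exponent `p = q / (q - 1)` -/
noncomputable def pj (j : ℕ) : ℝ := qj j / (qj j - 1)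

/-- Growth of an Orlicz function with indices in `(p1, q1)`. -/
structure Gr (Phi : ℝ → ℝ) (p1 q1 C0 : ℝ) : Prop where
  cont : ContinuousOn Phi (Set.Ici 0)
  mono : MonotoneOn Phi (Set.Ici 0)
  zero : Phi 0 = 0
  pos : ∀ s, 0 < s → 0 < Phi s
  low : ∀ s, 0 < s → ∀ r, 0 < r → r ≤ 1 → Phi (r * s) ≤ C0 * r ^ p1 * Phi s
  up : ∀ s, 0 < s → ∀ r, 1 ≤ r → Phi (r * s) ≤ C0 * r ^ q1 * Phi s

/-- The truncated dyadic model of `Phi`:
`PJ Phi p J t = sum over |i| ≤ J of Phi(2^i) 2^(-ip) (t - 2^i)_+ ^ p`. -/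
noncomputable def PJ (Phi : ℝ → ℝ) (p : ℝ) (J : ℕ) (t : ℝ) : ℝ :=
  ∑ i ∈ Finset.Icc (-(J : ℤ)) (J : ℤ),
    Phi ((2 : ℝ) ^ i) * ((2 : ℝ) ^ i) ^ (-p) * (max (t - (2 : ℝ) ^ i) 0) ^ p

end MDB
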