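import Mathlib

/-!
# Mixed Doob-Burkholder: semifinite von Neumann algebras, measurable operators, Orlicz spaces
-/

open scoped ENNReal NNReal Topology
open Finset

namespace MDB

universe u

/-- A von Neumann algebra `M` on `H` with a normal semifinite faithful trace `tr` (only the values of
`tr` on the positive cone of `M` matter). -/
structure TVN (H : Type u) [NormedAddCommGroup H] [InnerProductSpace ℂ H] [CompleteSpace H] where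
  /-- the von Neumann algebra -/
  M : VonNeumannAlgebra H
  /-- the trace on the positive cone -/
  tr : (H →L[ℂ] H) → ℝ≥0∞
  tr_add : ∀ x y, x ∈ M → y ∈ M → 0 ≤ x → 0 ≤ y → tr (x + y) = tr x + tr y
  tr_smul : ∀ (c : ℝ≥0) (x : H →L[ℂ] H), x ∈ M → 0 ≤ x → tr (((c : ℝ) : ℂ) • x) = c * tr x
  tr_star : ∀ x, x ∈ M → tr (star x * x) = tr (x * star x)
  tr_normal : ∀ (D : Set (H →L[ℂ] H)) (s : H →L[ℂ] H), D.Nonempty → DirectedOn (· ≤ ·) D →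
    (∀ x ∈ D, x ∈ M ∧ 0 ≤ x) → IsLUB D s → tr s = ⨆ x ∈ D, tr x
  tr_semifinite : ∀ x, x ∈ M → 0 ≤ x → x ≠ 0 →
    ∃ y, y ∈ M ∧ 0 ≤ y ∧ y ≤ x ∧ y ≠ 0 ∧ tr y < ⊤
  tr_faithful : ∀ x, x ∈ M → 0 ≤ x → tr x = 0 → x = 0

variable {H : Type u} [NormedAddCommGroup H] [InnerProductSpace ℂ H] [CompleteSpace H]

/-- The elements of `M`, as a bare star algebra (no norm topology: it will carry the measure
topology). -/
def Mc (𝓜 : TVN H) : Type u := ↥(𝓜.M.toStarSubalgebra)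

namespace Mc

variable (𝓜 : TVN H)

noncomputable instance : Ring (Mc 𝓜) := inferInstanceAs (Ring ↥(𝓜.M.toStarSubalgebra))
noncomputable instance : StarRing (Mc 𝓜) := inferInstanceAs (StarRing ↥(𝓜.M.toStarSubalgebra))
noncomputable instance : Algebra ℂ (Mc 𝓜) :=
  inferInstanceAs (Algebra ℂ ↥(𝓜.M.toStarSubalgebra))
noncomputable instance : StarModule ℂ (Mc 𝓜) :=
  inferInstanceAs (StarModule ℂ ↥(𝓜.M.toStarSubalgebra))

variable {𝓜}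

/-- the operator on `H` -/
def op (x : Mc 𝓜) : H →L[ℂ] H := x.1

/-- an operator belonging to `M`, as an element of `Mc` -/
def mk (x : H →L[ℂ] H) (hx : x ∈ 𝓜.M) : Mc 𝓜 := ⟨x, hx⟩

/-- projections of `M` -/
def IsP (e : Mc 𝓜) : Prop := IsStarProjection e.op

end Mc

open Mc

/-- The basic neighbourhoods of zero of the measure topology:
`x` with `‖x e‖ ≤ ε` and `tr (1 - e) ≤ ε` for some projection `e` of `M`. -/
def Nb (𝓜 : TVN H) (ε : ℝ) : Set (Mc 𝓜) :=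
  {x | ∃ e : Mc 𝓜, IsP e ∧ ‖(x * e).op‖ ≤ ε ∧ 𝓜.tr (1 - e).op ≤ ENNReal.ofReal ε}

/-- `trace of Phi (|x|)` for a bounded operator `x` of `M`, by functional calculus. -/
noncomputable def bph (𝓜 : TVN H) (Phi : ℝ → ℝ) (x : Mc 𝓜) : ℝ≥0∞ :=
  𝓜.tr (cfc (fun s : ℝ => Phi (Real.sqrt s)) (star x * x).op)

/-- A filtration `(N n)`, `n ≥ 0`, generating `M`, with semifinite restrictions of the trace, and its
trace preserving conditional expectations `E n`. -/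
structure Filtr (𝓜 : TVN H) where
  /-- the subalgebras -/
  N : ℕ → VonNeumannAlgebra H
  /-- the conditional expectations -/
  E : ℕ → Mc 𝓜 →ₗ[ℂ] Mc 𝓜
  mono : ∀ m n, m ≤ n → N m ≤ N n
  le : ∀ n, N n ≤ 𝓜.M
  gen : ∀ V : VonNeumannAlgebra H, (∀ n, N n ≤ V) → 𝓜.M ≤ V
  semifinite : ∀ n, ∀ x, x ∈ N n → 0 ≤ x → x ≠ 0 →
    ∃ y, y ∈ N n ∧ 0 ≤ y ∧ y ≤ x ∧ y ≠ 0 ∧ 𝓜.tr y < ⊤
  E_mem : ∀ n (x : Mc 𝓜), (E n x).op ∈ N n
  E_fix : ∀ n (x : Mc 𝓜), x.op ∈ N n → E n x = x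
  E_nonneg : ∀ n (x : Mc 𝓜), 0 ≤ x.op → 0 ≤ (E n x).op
  E_bimod : ∀ n (a x b : Mc 𝓜), a.op ∈ N n → b.op ∈ N n → E n (a * x * b) = a * E n x * b
  E_tr : ∀ n (x : Mc 𝓜), 0 ≤ x.op → 𝓜.tr (E n x).op = 𝓜.tr x.op

/-- differences of a sequence (`dif ξ 0 = ξ 0`, `dif ξ (n+1) = ξ (n+1) - ξ n`) -/
def dif {α : Type*} [Sub α] (ξ : ℕ → α) (n : ℕ) : α := if n = 0 then ξ 0 else ξ n - ξ (n - 1)

/-- The square of the conditioned column square function of `z`, differences up to `K`: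
`E_0 |dz_0|^2 + sum over 1 ≤ n ≤ K of E_(n-1) |dz_n|^2`. -/
noncomputable def sc2 {𝓜 : TVN H} (F : Filtr 𝓜) (K : ℕ) (z : Mc 𝓜) : Mc 𝓜 :=
  ∑ n ∈ range (K + 1),
    F.E (n - 1) (star (dif (fun m => F.E m z) n) * dif (fun m => F.E m z) n)

/-- `trace of Phi (s^c (z))`, `s^c (z) = (sc2 z)^(1/2)`, for a bounded finite martingale. -/
noncomputable def bsc {𝓜 : TVN H} (F : Filtr 𝓜) (Phi : ℝ → ℝ) (K : ℕ) (z : Mc 𝓜) : ℝ≥0∞ :=
  𝓜.tr (cfc (fun s : ℝ => Phi (Real.sqrt s)) (sc2 F K z).op)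

section measurable

variable (𝓜 : TVN H) [UniformSpace (Mc 𝓜)]

/-- The measurable operators: completion of `M` for the measure topology. -/
abbrev Sm : Type u := UniformSpace.Completion (Mc 𝓜)

variable {𝓜}

/-- the adjoint on measurable operators -/
noncomputable def sst (ξ : Sm 𝓜) : Sm 𝓜 := UniformSpace.Completion.map star ξ

variable [IsTopologicalRing (Mc 𝓜)] [IsUniformAddGroup (Mc 𝓜)]

/-- generalised singular numbers: `mu ξ t = inf {‖ξ e‖ : tr (1 - e) ≤ t}` -/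
noncomputable def mu (ξ : Sm 𝓜) (t : ℝ) : ℝ :=
  sInf {lam : ℝ | ∃ e y : Mc 𝓜, IsP e ∧ 𝓜.tr (1 - e).op ≤ ENNReal.ofReal t ∧
    ξ * (e : Sm 𝓜) = (y : Sm 𝓜) ∧ ‖y.op‖ = lam}

/-- `trace of Phi (|ξ|)` for a measurable operator -/
noncomputable def orl (Phi : ℝ → ℝ) (ξ : Sm 𝓜) : ℝ≥0∞ :=
  ∫⁻ t in Set.Ioi (0 : ℝ), ENNReal.ofReal (Phi (mu ξ t))

/-- the Orlicz space `L_Phi (M)` -/
def MemL (Phi : ℝ → ℝ) (ξ : Sm 𝓜) : Prop :=
  ∃ c : ℝ, 0 < c ∧ orl (fun s => Phi (s / c)) ξ < ⊤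

/-- `η = E_n ξ` for `ξ ∈ L_Phi`: the continuous extension of `E_n` from the bounded elements of
`L_Phi`. -/
def IsCE (F : Filtr 𝓜) (Phi : ℝ → ℝ) (n : ℕ) (ξ η : Sm 𝓜) : Prop :=
  ∃ w : ℕ → Mc 𝓜,
    Filter.Tendsto (fun k => orl Phi (ξ - (w k : Sm 𝓜))) Filter.atTop (𝓝 0) ∧
    Filter.Tendsto (fun k => orl Phi (η - (F.E n (w k) : Sm 𝓜))) Filter.atTop (𝓝 0)

/-- The quantity `trace of Phi (sup_n^+ ζ_n)`. -/
noncomputable def supP (Phi : ℝ → ℝ) (ζ : ℕ → Sm 𝓜) : ℝ≥0∞ :=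
  ⨅ (a : Sm 𝓜) (b : Sm 𝓜) (y : ℕ → Mc 𝓜) (_ : MemL Phi (sst a * a)) (_ : MemL Phi (sst b * b))
    (_ : ∀ n, ‖(y n).op‖ ≤ 1) (_ : ∀ n, ζ n = a * (y n : Sm 𝓜) * b),
    (orl Phi (sst a * a) + orl Phi (sst b * b)) / 2 * ⨆ n, ENNReal.ofReal ‖(y n).op‖

/-- `z` (finite bounded `L_2`-martingales, `z k = E_(K k) (z k)`) approximates the martingale with
differences `ζ` in the conditioned column Hardy space `h_Phi^c`: the sequence is Cauchy there, and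
the differences converge to `ζ` locally in measure (after cutting by any projection of finite trace
of the first algebra, the weakest reasonable sense). -/
structure CApprox (F : Filtr 𝓜) (Phi : ℝ → ℝ) (ζ : ℕ → Sm 𝓜) (z : ℕ → Mc 𝓜) (K : ℕ → ℕ) :
    Prop where
  fin : ∀ k, F.E (K k) (z k) = z k
  l2 : ∀ k, 𝓜.tr (star (z k) * z k).op < ⊤
  lim : ∀ (n : ℕ) (g : Mc 𝓜), IsP g → g.op ∈ F.N 0 → 𝓜.tr g.op < ⊤ →
    Filter.Tendsto
      (fun k => (g : Sm 𝓜) * (dif (fun m => F.E m (z k)) n : Sm 𝓜) * (g : Sm 𝓜)) Filter.atTop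
      (𝓝 ((g : Sm 𝓜) * ζ n * (g : Sm 𝓜)))
  cauchy : Filter.Tendsto (fun kl : ℕ × ℕ => bsc F Phi (max (K kl.1) (K kl.2)) (z kl.1 - z kl.2))
    (Filter.atTop ×ˢ Filter.atTop) (𝓝 0)

/-- The quantity `trace of Phi (s^c)` of the martingale with differences `ζ`, extended by continuity
to `h_Phi^c`, and `⊤` outside. -/
noncomputable def condC (F : Filtr 𝓜) (Phi : ℝ → ℝ) (ζ : ℕ → Sm 𝓜) : ℝ≥0∞ :=
  ⨅ (z : ℕ → Mc 𝓜) (K : ℕ → ℕ) (_ : CApprox F Phi ζ z K),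
    Filter.liminf (fun k => bsc F Phi (K k) (z k)) Filter.atTop

end measurable

/-- Orlicz functions. -/
structure Orlicz (Phi : ℝ → ℝ) : Prop where
  cont : ContinuousOn Phi (Set.Ici 0)
  conv : ConvexOn ℝ (Set.Ici 0) Phi
  mono : MonotoneOn Phi (Set.Ici 0)
  zero : Phi 0 = 0
  top : Filter.Tendsto Phi Filter.atTop Filter.atTop

/-- `M(t, Phi) = sup_{s > 0} Phi (t s) / Phi (s)` -/
noncomputable def Mt (Phi : ℝ → ℝ) (t : ℝ) : ℝ≥0∞ :=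
  ⨆ (s : ℝ) (_ : 0 < s), ENNReal.ofReal (Phi (t * s)) / ENNReal.ofReal (Phi s)

/-- `p` is the lower Matuszewska-Orlicz index of `Phi` -/
def IsLowerIndex (Phi : ℝ → ℝ) (p : EReal) : Prop :=
  Filter.Tendsto (fun t : ℝ => (Mt Phi t).log / ((Real.log t : ℝ) : EReal)) (𝓝[>] 0) (𝓝 p)

/-- `q` is the upper Matuszewska-Orlicz index of `Phi` -/
def IsUpperIndex (Phi : ℝ → ℝ) (q : EReal) : Prop :=
  Filter.Tendsto (fun t : ℝ => (Mt Phi t).log / ((Real.log t : ℝ) : EReal)) Filter.atTop (𝓝 q)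

end MDB
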