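import Pool.Agent.MDB.Defs
import Pool.Agent.MDB.Defs2

/-!
# Exact targets of parts II-IV (von Neumann algebras, measurable operators, final assembly)
-/

open scoped ENNReal NNReal Topology
open Finset

namespace MDB

open Mc

universe u

/-- projection onto the closure of the range of `a` -/
noncomputable def rp {H : Type u} [NormedAddCommGroup H] [InnerProductSpace ℂ H] [CompleteSpace H]
    (a : H →L[ℂ] H) : H →L[ℂ] H :=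
  (LinearMap.range (a : H →ₗ[ℂ] H)).topologicalClosure.starProjection

/-! ## A. von Neumann algebras and the trace -/

/-- Range projections. -/
def A_rp : Prop :=
  ∀ (H : Type u) [NormedAddCommGroup H] [InnerProductSpace ℂ H] [CompleteSpace H]
    (a : H →L[ℂ] H), IsStarProjection (rp a) ∧ rp a * a = a ∧
      (∀ b : H →L[ℂ] H, b * a = 0 → b * rp a = 0) ∧
      (∀ V : VonNeumannAlgebra H, a ∈ V → rp a ∈ V)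

/-- Continuous functional calculus in a von Neumann algebra. -/
def A_cfc : Prop :=
  ∀ (H : Type u) [NormedAddCommGroup H] [InnerProductSpace ℂ H] [CompleteSpace H]
    (V : VonNeumannAlgebra H) (a : H →L[ℂ] H) (f : ℝ → ℝ), a ∈ V → cfc f a ∈ V

/-- Basic facts on the trace. -/
def A_tr : Prop :=
  ∀ (H : Type u) [NormedAddCommGroup H] [InnerProductSpace ℂ H] [CompleteSpace H]
    (𝓜 : TVN H), 𝓜.tr 0 = 0 ∧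
      (∀ x y, x ∈ 𝓜.M → y ∈ 𝓜.M → 0 ≤ x → x ≤ y → 𝓜.tr x ≤ 𝓜.tr y) ∧
      (∀ x y, x ∈ 𝓜.M → y ∈ 𝓜.M →
        𝓜.tr (star (y * x) * (y * x)) ≤ ENNReal.ofReal (‖y‖ ^ 2) * 𝓜.tr (star x * x)) ∧
      (∀ x y, x ∈ 𝓜.M → y ∈ 𝓜.M →
        𝓜.tr (star (x * y) * (x * y)) ≤ ENNReal.ofReal (‖y‖ ^ 2) * 𝓜.tr (star x * x)) ∧
      (∀ (f : ℝ → ℝ) (x), x ∈ 𝓜.M → ContinuousOn f (Set.Ici 0) → f 0 = 0 → (∀ s, 0 ≤ s → 0 ≤ f s) →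
        𝓜.tr (cfc f (star x * x)) = 𝓜.tr (cfc f (x * star x)))

/-- Range projection and support projection have the same trace. -/
def A_rptr : Prop :=
  ∀ (H : Type u) [NormedAddCommGroup H] [InnerProductSpace ℂ H] [CompleteSpace H]
    (𝓜 : TVN H) (a : H →L[ℂ] H), a ∈ 𝓜.M → 𝓜.tr (rp a) = 𝓜.tr (rp (star a))

/-- Intersections of projections. -/
def A_meet : Prop :=
  ∀ (H : Type u) [NormedAddCommGroup H] [InnerProductSpace ℂ H] [CompleteSpace H]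
    (𝓜 : TVN H),
    (∀ e f : H →L[ℂ] H, e ∈ 𝓜.M → f ∈ 𝓜.M → IsStarProjection e → IsStarProjection f →
      ∃ h : H →L[ℂ] H, h ∈ 𝓜.M ∧ IsStarProjection h ∧ e * h = h ∧ f * h = h ∧
        𝓜.tr (1 - h) ≤ 𝓜.tr (1 - e) + 𝓜.tr (1 - f)) ∧
    (∀ e : ℕ → (H →L[ℂ] H), (∀ k, e k ∈ 𝓜.M) → (∀ k, IsStarProjection (e k)) →
      ∃ h : H →L[ℂ] H, h ∈ 𝓜.M ∧ IsStarProjection h ∧ (∀ k, e k * h = h) ∧
        𝓜.tr (1 - h) ≤ ∑' k, 𝓜.tr (1 - e k))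

/-- Spectral projections of a self-adjoint operator. -/
def A_spec : Prop :=
  ∀ (H : Type u) [NormedAddCommGroup H] [InnerProductSpace ℂ H] [CompleteSpace H]
    (y : H →L[ℂ] H) (lam : ℝ), IsSelfAdjoint y →
    ∃ P : H →L[ℂ] H, IsStarProjection P ∧ P * y = y * P ∧
      (lam : ℂ) • P ≤ P * y * P ∧ (1 - P) * y * (1 - P) ≤ (lam : ℂ) • (1 - P) ∧
      (∀ c : H →L[ℂ] H, c * y = y * c → c * P = P * c) ∧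
      (∀ V : VonNeumannAlgebra H, y ∈ V → P ∈ V) ∧
      (∀ e : H →L[ℂ] H, IsStarProjection e → e * y = y * e → ∀ c : ℝ, y * e = (c : ℂ) • e →
        P * e = 0 ∨ P * e = e)

/-- The finite functional of a projection of finite trace. -/
def A_fin : Prop :=
  ∀ (H : Type u) [NormedAddCommGroup H] [InnerProductSpace ℂ H] [CompleteSpace H]
    (𝓜 : TVN H) (g : Mc 𝓜), IsP g → 𝓜.tr g.op < ⊤ →
    ∃ t : Mc 𝓜 →ₗ[ℝ] ℝ,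
      (∀ x : Mc 𝓜, 0 ≤ x.op → t x = (𝓜.tr (g * x * g).op).toReal ∧ 𝓜.tr (g * x * g).op < ⊤) ∧
      (∀ x : Mc 𝓜, t (star x) = t x) ∧
      (∀ x y : Mc 𝓜, g * x = x * g → g * y = y * g → t (x * y) = t (y * x))

/-- The trace of a finite projection as a sum of vector functionals. -/
def A_norm : Prop :=
  ∀ (H : Type u) [NormedAddCommGroup H] [InnerProductSpace ℂ H] [CompleteSpace H]
    (𝓜 : TVN H) (g : H →L[ℂ] H), g ∈ 𝓜.M → IsStarProjection g → 𝓜.tr g < ⊤ →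
    ∃ v : ℕ → H, Summable (fun i => ‖v i‖ ^ 2) ∧
      ∀ x, x ∈ 𝓜.M → 𝓜.tr (star (x * g) * (x * g)) = ∑' i, ENNReal.ofReal (‖x (v i)‖ ^ 2)

/-- Density of the subalgebras. -/
def A_dense : Prop :=
  ∀ (H : Type u) [NormedAddCommGroup H] [InnerProductSpace ℂ H] [CompleteSpace H]
    (𝓜 : TVN H) (F : Filtr 𝓜) (g x : Mc 𝓜), IsP g → g.op ∈ F.N 0 → 𝓜.tr g.op < ⊤ →
    ∀ ε : ℝ, 0 < ε → ∃ (n : ℕ) (b : Mc 𝓜), b.op ∈ F.N n ∧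
      𝓜.tr (star ((x - b) * g) * ((x - b) * g)).op < ENNReal.ofReal ε

/-- Cutting by finite projections of the first algebra. -/
def A_supg : Prop :=
  ∀ (H : Type u) [NormedAddCommGroup H] [InnerProductSpace ℂ H] [CompleteSpace H]
    (𝓜 : TVN H) (F : Filtr 𝓜) (x : Mc 𝓜), 𝓜.tr (star x * x).op < ⊤ →
    ∀ ε : ℝ, 0 < ε → ∃ g : Mc 𝓜, IsP g ∧ g.op ∈ F.N 0 ∧ 𝓜.tr g.op < ⊤ ∧
      𝓜.tr (star (x - g * x * g) * (x - g * x * g)).op < ENNReal.ofReal ε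

/-- Martingale convergence in `L_2`, with cutting. -/
def A_mgl : Prop :=
  ∀ (H : Type u) [NormedAddCommGroup H] [InnerProductSpace ℂ H] [CompleteSpace H]
    (𝓜 : TVN H) (F : Filtr 𝓜) (x : Mc 𝓜), 𝓜.tr (star x * x).op < ⊤ →
    ∀ ε : ℝ, 0 < ε → ∃ g : Mc 𝓜, IsP g ∧ g.op ∈ F.N 0 ∧ 𝓜.tr g.op < ⊤ ∧ ∃ n0 : ℕ, ∀ n, n0 ≤ n →
      𝓜.tr (star (x - g * F.E n x * g) * (x - g * F.E n x * g)).op < ENNReal.ofReal ε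

/-- Basic facts on the conditional expectations. -/
def A_E : Prop :=
  ∀ (H : Type u) [NormedAddCommGroup H] [InnerProductSpace ℂ H] [CompleteSpace H]
    (𝓜 : TVN H) (F : Filtr 𝓜),
    (∀ n (x : Mc 𝓜), F.E n (star x) = star (F.E n x)) ∧
    (∀ n, F.E n 1 = 1) ∧
    (∀ m n (x : Mc 𝓜), m ≤ n → F.E m (F.E n x) = F.E m x) ∧
    (∀ m n (x : Mc 𝓜), m ≤ n → F.E n (F.E m x) = F.E m x) ∧
    (∀ n (x : Mc 𝓜), (star (F.E n x) * F.E n x).op ≤ (F.E n (star x * x)).op) ∧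
    (∀ n (x y : Mc 𝓜), x.op ≤ y.op → (F.E n x).op ≤ (F.E n y).op) ∧
    (∀ n (x : Mc 𝓜), ‖(F.E n x).op‖ ≤ ‖x.op‖)

/-! ## B. the measure topology -/

/-- The given uniform structure of `Mc 𝓜` is the one of the measure topology. -/
def IsMT {H : Type u} [NormedAddCommGroup H] [InnerProductSpace ℂ H] [CompleteSpace H]
    (𝓜 : TVN H) [UniformSpace (Mc 𝓜)] : Prop :=
  (𝓝 (0 : Mc 𝓜)).HasBasis (fun ε : ℝ => 0 < ε) (Nb 𝓜)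

/-- Existence of the measure topology as a ring topology (to be turned into instances). -/
def B_mt : Prop :=
  ∀ (H : Type u) [NormedAddCommGroup H] [InnerProductSpace ℂ H] [CompleteSpace H]
    (𝓜 : TVN H), ∃ _ : UniformSpace (Mc 𝓜),
      IsTopologicalRing (Mc 𝓜) ∧ IsUniformAddGroup (Mc 𝓜) ∧ IsMT 𝓜

/-! ## C. measurable operators -/

/-- Cutting a measurable operator down to a bounded one. -/
def C_cut : Prop :=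
  ∀ (H : Type u) [NormedAddCommGroup H] [InnerProductSpace ℂ H] [CompleteSpace H]
    (𝓜 : TVN H) [UniformSpace (Mc 𝓜)] [IsTopologicalRing (Mc 𝓜)] [IsUniformAddGroup (Mc 𝓜)],
    IsMT 𝓜 → ∀ (ξ : Sm 𝓜) (ε : ℝ), 0 < ε →
      (∃ e y : Mc 𝓜, IsP e ∧ 𝓜.tr (1 - e).op ≤ ENNReal.ofReal ε ∧ ξ * (e : Sm 𝓜) = (y : Sm 𝓜)) ∧
      (∃ e y : Mc 𝓜, IsP e ∧ 𝓜.tr (1 - e).op ≤ ENNReal.ofReal ε ∧ (e : Sm 𝓜) * ξ = (y : Sm 𝓜))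

/-- Bounded sequences converging in measure, and injectivity. -/
def C_ball : Prop :=
  ∀ (H : Type u) [NormedAddCommGroup H] [InnerProductSpace ℂ H] [CompleteSpace H]
    (𝓜 : TVN H) [UniformSpace (Mc 𝓜)] [IsTopologicalRing (Mc 𝓜)] [IsUniformAddGroup (Mc 𝓜)],
    IsMT 𝓜 →
      (∀ x y : Mc 𝓜, (x : Sm 𝓜) = (y : Sm 𝓜) → x = y) ∧
      (∀ (ξ : Sm 𝓜) (y : ℕ → Mc 𝓜) (c : ℝ), (∀ k, ‖(y k).op‖ ≤ c) →
        Filter.Tendsto (fun k => (y k : Sm 𝓜)) Filter.atTop (𝓝 ξ) →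
        ∃ x : Mc 𝓜, ξ = (x : Sm 𝓜) ∧ ‖x.op‖ ≤ c)

/-- The adjoint. -/
def C_star : Prop :=
  ∀ (H : Type u) [NormedAddCommGroup H] [InnerProductSpace ℂ H] [CompleteSpace H]
    (𝓜 : TVN H) [UniformSpace (Mc 𝓜)] [IsTopologicalRing (Mc 𝓜)] [IsUniformAddGroup (Mc 𝓜)],
    IsMT 𝓜 →
      (∀ x : Mc 𝓜, sst (x : Sm 𝓜) = ((star x : Mc 𝓜) : Sm 𝓜)) ∧
      (∀ ξ η : Sm 𝓜, sst (ξ + η) = sst ξ + sst η) ∧
      (∀ ξ η : Sm 𝓜, sst (ξ - η) = sst ξ - sst η) ∧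
      (∀ ξ η : Sm 𝓜, sst (ξ * η) = sst η * sst ξ) ∧
      (∀ ξ : Sm 𝓜, sst (sst ξ) = ξ) ∧
      Continuous (sst : Sm 𝓜 → Sm 𝓜)

/-- Generalised singular numbers. -/
def C_mu : Prop :=
  ∀ (H : Type u) [NormedAddCommGroup H] [InnerProductSpace ℂ H] [CompleteSpace H]
    (𝓜 : TVN H) [UniformSpace (Mc 𝓜)] [IsTopologicalRing (Mc 𝓜)] [IsUniformAddGroup (Mc 𝓜)],
    IsMT 𝓜 →
      (∀ (ξ : Sm 𝓜) (t : ℝ), 0 ≤ mu ξ t) ∧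
      (∀ (ξ : Sm 𝓜) (s t : ℝ), 0 < s → s ≤ t → mu ξ t ≤ mu ξ s) ∧
      (∀ (ξ η : Sm 𝓜) (s t : ℝ), 0 < s → 0 < t → mu (ξ + η) (s + t) ≤ mu ξ s + mu η t) ∧
      (∀ (ξ η : Sm 𝓜) (s t : ℝ), 0 < s → 0 < t → mu (ξ * η) (s + t) ≤ mu ξ s * mu η t) ∧
      (∀ (ξ : Sm 𝓜) (x y : Mc 𝓜) (t : ℝ), 0 < t →
        mu ((x : Sm 𝓜) * ξ * (y : Sm 𝓜)) t ≤ ‖x.op‖ * ‖y.op‖ * mu ξ t) ∧
      (∀ (ξ : Sm 𝓜) (t : ℝ), 0 < t → mu (sst ξ) t = mu ξ t) ∧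
      (∀ (ξ : Sm 𝓜) (t : ℝ), mu (-ξ) t = mu ξ t) ∧
      (∀ (x : Mc 𝓜) (t : ℝ), 0 < t → mu (x : Sm 𝓜) t ≤ ‖x.op‖) ∧
      (∀ (ξ : Sm 𝓜) (e : Mc 𝓜) (t : ℝ), IsP e → 0 < t → 𝓜.tr e.op ≤ ENNReal.ofReal t →
        mu ((e : Sm 𝓜) * ξ) t = 0 ∧ mu (ξ * (e : Sm 𝓜)) t = 0) ∧
      (∀ (ξ : Sm 𝓜) (t : ℝ), 0 < t → (mu ξ t) ^ 2 ≤ mu (sst ξ * ξ) t) ∧
      (∀ (ι : Type) (l : Filter ι) (ξ : ι → Sm 𝓜) (η : Sm 𝓜),
        Filter.Tendsto ξ l (𝓝 η) ↔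
          ∀ t : ℝ, 0 < t → Filter.Tendsto (fun i => mu (ξ i - η) t) l (𝓝 0))

/-- Fatou. -/
def C_fatou : Prop :=
  ∀ (H : Type u) [NormedAddCommGroup H] [InnerProductSpace ℂ H] [CompleteSpace H]
    (𝓜 : TVN H) [UniformSpace (Mc 𝓜)] [IsTopologicalRing (Mc 𝓜)] [IsUniformAddGroup (Mc 𝓜)],
    IsMT 𝓜 → ∀ (f : ℝ → ℝ), ContinuousOn f (Set.Ici 0) → MonotoneOn f (Set.Ici 0) → 0 ≤ f 0 →
      ∀ (ξ : ℕ → Sm 𝓜) (η : Sm 𝓜), Filter.Tendsto ξ Filter.atTop (𝓝 η) →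
        orl f η ≤ Filter.liminf (fun k => orl f (ξ k)) Filter.atTop

/-- The trace of a function of a positive bounded operator in terms of its singular numbers. -/
def C_layer : Prop :=
  ∀ (H : Type u) [NormedAddCommGroup H] [InnerProductSpace ℂ H] [CompleteSpace H]
    (𝓜 : TVN H) [UniformSpace (Mc 𝓜)] [IsTopologicalRing (Mc 𝓜)] [IsUniformAddGroup (Mc 𝓜)],
    IsMT 𝓜 → ∀ (f : ℝ → ℝ), ContinuousOn f (Set.Ici 0) → MonotoneOn f (Set.Ici 0) → f 0 = 0 →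
      (∀ b : Mc 𝓜, 0 ≤ b.op → 𝓜.tr (cfc f b.op) = orl f (b : Sm 𝓜)) ∧
      (∀ x : Mc 𝓜, bph 𝓜 f x = orl f (x : Sm 𝓜)) ∧
      (∀ (x : Mc 𝓜) (t : ℝ), 0 < t → mu ((star x * x : Mc 𝓜) : Sm 𝓜) t = (mu (x : Sm 𝓜) t) ^ 2)

/-- Quasi-triangle inequality etc. for `orl Phi`. -/
def C_orl : Prop :=
  ∀ (Phi : ℝ → ℝ) (p1 q1 C0 : ℝ), Gr Phi p1 q1 C0 → 0 < p1 → ∃ K : ℝ, 0 < K ∧
  ∀ (H : Type u) [NormedAddCommGroup H] [InnerProductSpace ℂ H] [CompleteSpace H]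
    (𝓜 : TVN H) [UniformSpace (Mc 𝓜)] [IsTopologicalRing (Mc 𝓜)] [IsUniformAddGroup (Mc 𝓜)],
    IsMT 𝓜 →
      (∀ ξ η : Sm 𝓜, orl Phi (ξ + η) ≤ ENNReal.ofReal K * (orl Phi ξ + orl Phi η)) ∧
      (∀ ξ : Sm 𝓜, orl Phi (-ξ) = orl Phi ξ) ∧
      (∀ ξ : Sm 𝓜, orl Phi (sst ξ) = orl Phi ξ) ∧
      (∀ (ξ : Sm 𝓜) (x y : Mc 𝓜), ‖x.op‖ ≤ 1 → ‖y.op‖ ≤ 1 →
        orl Phi ((x : Sm 𝓜) * ξ * (y : Sm 𝓜)) ≤ orl Phi ξ) ∧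
      (∀ ξ : Sm 𝓜, MemL Phi ξ ↔ orl Phi ξ < ⊤) ∧
      (∀ (ξ : ℕ → Sm 𝓜), Filter.Tendsto (fun k => orl Phi (ξ k)) Filter.atTop (𝓝 0) →
        Filter.Tendsto ξ Filter.atTop (𝓝 0))

/-- Contractivity of the conditional expectations in Orlicz spaces, up to a constant. -/
def C_E : Prop :=
  ∀ (Phi : ℝ → ℝ) (p1 q1 C0 : ℝ), Gr Phi p1 q1 C0 → 1 < p1 → ∃ K : ℝ, 0 < K ∧
  ∀ (H : Type u) [NormedAddCommGroup H] [InnerProductSpace ℂ H] [CompleteSpace H]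
    (𝓜 : TVN H) [UniformSpace (Mc 𝓜)] [IsTopologicalRing (Mc 𝓜)] [IsUniformAddGroup (Mc 𝓜)],
    IsMT 𝓜 → ∀ (F : Filtr 𝓜) (n : ℕ) (x : Mc 𝓜),
      orl Phi (F.E n x : Sm 𝓜) ≤ ENNReal.ofReal K * orl Phi (x : Sm 𝓜) ∧
      orl (fun s => s) (F.E n x : Sm 𝓜) ≤ ENNReal.ofReal K * orl (fun s => s) (x : Sm 𝓜)

/-- Truncation: elements of `M` of finite `L_1`-norm are dense. -/
def C_trunc : Prop :=
  ∀ (Phi : ℝ → ℝ) (p1 q1 C0 : ℝ), Gr Phi p1 q1 C0 → 1 < p1 →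
  ∀ (H : Type u) [NormedAddCommGroup H] [InnerProductSpace ℂ H] [CompleteSpace H]
    (𝓜 : TVN H) [UniformSpace (Mc 𝓜)] [IsTopologicalRing (Mc 𝓜)] [IsUniformAddGroup (Mc 𝓜)],
    IsMT 𝓜 → ∀ (x : Mc 𝓜), orl Phi (x : Sm 𝓜) < ⊤ → ∀ ε : ℝ, 0 < ε →
      ∃ y : Mc 𝓜, orl (fun s => s) (y : Sm 𝓜) < ⊤ ∧ 𝓜.tr (star y * y).op < ⊤ ∧
        orl Phi ((x - y : Mc 𝓜) : Sm 𝓜) < ENNReal.ofReal ε

/-! ## D. corners: the core inequality in a semifinite algebra -/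

/-- The core inequality inside a finite corner. -/
def D_core : Prop :=
  ∀ (Phi : ℝ → ℝ) (p1 q1 C0 : ℝ), Gr Phi p1 q1 C0 → 1 < p1 →
  ∃ p : ℝ, 1 < p ∧ p ≤ 2 ∧ p < p1 ∧ ∃ C : ℝ, 0 < C ∧
    (∀ t : ℝ, 0 < t → ∃ J0 : ℕ, ∀ J : ℕ, J0 ≤ J → Phi t ≤ C * PJ Phi p J t) ∧
    (∀ (J : ℕ) (t : ℝ), 0 ≤ t → PJ Phi p J t ≤ C * Phi t) ∧
    ∀ J N : ℕ, ∃ K : ℝ, 0 < K ∧
  ∀ (H : Type u) [NormedAddCommGroup H] [InnerProductSpace ℂ H] [CompleteSpace H]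
    (𝓜 : TVN H) (F : Filtr 𝓜) (g : Mc 𝓜), IsP g → g.op ∈ F.N 0 → 𝓜.tr g.op < ⊤ →
    ∀ (d z a : ℕ → Mc 𝓜) (A0 : Mc 𝓜),
    (∀ n, n < N → g * d n * g = d n) → (∀ n, n < N → g * z n * g = z n) →
    (∀ n, n < N → g * a n * g = a n) → g * A0 * g = A0 →
    (∀ n, n < N → star (d n) = d n) →
    (∀ n, n < N → F.E (n + 1) (d n) = d n) → (∀ n, n < N → F.E n (d n) = 0) →
    (∀ n, n < N → F.E (n + 1) (z n) = z n) → (∀ n, n < N → F.E n (z n) = 0) →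
    0 ≤ A0.op →
    (∀ n, n < N → star (a n) = a n) → (∀ n, n < N → F.E (n + 1) (a n) = a n) →
    (∀ n, n < N → (a n).op ≤ (F.E (n + 1) A0).op) →
    (∀ n, n < N → -(F.E (n + 1) A0).op ≤ (a n).op) →
    𝓜.tr (cfc (fun s : ℝ => PJ Phi p J |s|) (∑ n ∈ range N, d n).op)
      ≤ ENNReal.ofReal C * (𝓜.tr (cfc Phi A0.op)
          + 𝓜.tr (cfc (fun s : ℝ => Phi (Real.sqrt s))
              (∑ n ∈ range N, F.E n (star (z n) * z n)).op))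
        + ENNReal.ofReal (C * Phi ((2 : ℝ) ^ (-(J : ℤ)))) * 𝓜.tr g.op
        + ENNReal.ofReal K * ∑ n ∈ range N,
            (bph 𝓜 (fun s => s ^ p) (d n - z n) + bph 𝓜 (fun s => s ^ p) (d n - a n))

/-- One step estimate inside a finite corner. -/
def D_one : Prop :=
  ∀ (p : ℝ), 1 < p → p ≤ 2 →
  ∀ (H : Type u) [NormedAddCommGroup H] [InnerProductSpace ℂ H] [CompleteSpace H]
    (𝓜 : TVN H) (F : Filtr 𝓜) (g : Mc 𝓜), IsP g → g.op ∈ F.N 0 → 𝓜.tr g.op < ⊤ →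
    ∀ (n : ℕ) (w : Mc 𝓜), g * w * g = w → F.E (n + 1) w = w → F.E n w = 0 →
      bph 𝓜 (fun s => s ^ p) w
        ≤ ENNReal.ofReal (3 / 2) * 𝓜.tr (cfc (fun s : ℝ => (Real.sqrt s) ^ p) (F.E n (star w * w)).op)

/-! ## E. final assembly -/

/-- Indices give growth. -/
def E_idx : Prop :=
  ∀ (Phi : ℝ → ℝ) (p q : EReal), Orlicz Phi → IsLowerIndex Phi p → IsUpperIndex Phi q →
    1 < p → q < ⊤ → ∃ p1 q1 C0 : ℝ, 1 < p1 ∧ Gr Phi p1 q1 C0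

/-- The sequence of conditional expectations through one approximating sequence. -/
def E_seq : Prop :=
  ∀ (Phi : ℝ → ℝ) (p1 q1 C0 : ℝ), Gr Phi p1 q1 C0 → 1 < p1 →
  ∀ (H : Type u) [NormedAddCommGroup H] [InnerProductSpace ℂ H] [CompleteSpace H]
    (𝓜 : TVN H) [UniformSpace (Mc 𝓜)] [IsTopologicalRing (Mc 𝓜)] [IsUniformAddGroup (Mc 𝓜)],
    IsMT 𝓜 → ∀ (F : Filtr 𝓜) (ξ : Sm 𝓜) (ξn : ℕ → Sm 𝓜), MemL Phi ξ →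
      (∀ n, IsCE F Phi n ξ (ξn n)) →
      ∃ w : ℕ → Mc 𝓜,
        Filter.Tendsto (fun k => orl Phi (ξ - (w k : Sm 𝓜))) Filter.atTop (𝓝 0) ∧
        ∀ n, Filter.Tendsto (fun k => orl Phi (ξn n - (F.E n (w k) : Sm 𝓜))) Filter.atTop (𝓝 0)

/-- Martingale convergence with cutting, in the Orlicz space. -/
def E_R1 : Prop :=
  ∀ (Phi : ℝ → ℝ) (p1 q1 C0 : ℝ), Gr Phi p1 q1 C0 → 1 < p1 →
  ∀ (H : Type u) [NormedAddCommGroup H] [InnerProductSpace ℂ H] [CompleteSpace H]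
    (𝓜 : TVN H) [UniformSpace (Mc 𝓜)] [IsTopologicalRing (Mc 𝓜)] [IsUniformAddGroup (Mc 𝓜)],
    IsMT 𝓜 → ∀ (F : Filtr 𝓜) (ξ : Sm 𝓜) (ξn : ℕ → Sm 𝓜), MemL Phi ξ →
      (∀ n, IsCE F Phi n ξ (ξn n)) → ∀ ε : ℝ, 0 < ε →
      ∃ (N : ℕ) (g : Mc 𝓜), IsP g ∧ g.op ∈ F.N 0 ∧ 𝓜.tr g.op < ⊤ ∧
        orl Phi (ξ - (g : Sm 𝓜) * ξn N * (g : Sm 𝓜)) < ENNReal.ofReal ε

/-- `L_p`-convergence in a finite corner of the approximants in the conditioned Hardy space. -/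
def E_errz : Prop :=
  ∀ (Phi : ℝ → ℝ) (p1 q1 C0 p : ℝ), Gr Phi p1 q1 C0 → 1 < p → p ≤ 2 → p < p1 →
  ∀ (H : Type u) [NormedAddCommGroup H] [InnerProductSpace ℂ H] [CompleteSpace H]
    (𝓜 : TVN H) [UniformSpace (Mc 𝓜)] [IsTopologicalRing (Mc 𝓜)] [IsUniformAddGroup (Mc 𝓜)],
    IsMT 𝓜 → ∀ (F : Filtr 𝓜) (ζ : ℕ → Sm 𝓜) (z : ℕ → Mc 𝓜) (K : ℕ → ℕ), CApprox F Phi ζ z K →
      ∀ g : Mc 𝓜, IsP g → g.op ∈ F.N 0 → 𝓜.tr g.op < ⊤ → ∀ n : ℕ,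
        Filter.Tendsto (fun k => orl (fun s => s ^ p)
          ((g : Sm 𝓜) * (ζ (n + 1) - (dif (fun m => F.E m (z k)) (n + 1) : Sm 𝓜)) * (g : Sm 𝓜)))
          Filter.atTop (𝓝 0)

/-- `L_p`-convergence in a finite corner of the truncated factorisations. -/
def E_erra : Prop :=
  ∀ (Phi : ℝ → ℝ) (p1 q1 C0 p : ℝ), Gr Phi p1 q1 C0 → 1 < p → p ≤ 2 → p < p1 →
  ∀ (H : Type u) [NormedAddCommGroup H] [InnerProductSpace ℂ H] [CompleteSpace H]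
    (𝓜 : TVN H) [UniformSpace (Mc 𝓜)] [IsTopologicalRing (Mc 𝓜)] [IsUniformAddGroup (Mc 𝓜)],
    IsMT 𝓜 → ∀ (F : Filtr 𝓜) (n : ℕ) (ζ : Sm 𝓜) (v : ℕ → Mc 𝓜), orl Phi ζ < ⊤ →
      (∀ k, F.E n (v k) = v k) →
      Filter.Tendsto (fun k => orl Phi (ζ - (v k : Sm 𝓜))) Filter.atTop (𝓝 0) →
      ∀ g : Mc 𝓜, IsP g → g.op ∈ F.N 0 → 𝓜.tr g.op < ⊤ →
      ∀ (e f y : ℕ → Mc 𝓜), (∀ k, IsP (e k)) → (∀ k, IsP (f k)) →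
        (∀ k, 𝓜.tr (1 - e k).op ≤ ENNReal.ofReal ((1 / 2) ^ k)) →
        (∀ k, 𝓜.tr (1 - f k).op ≤ ENNReal.ofReal ((1 / 2) ^ k)) →
        (∀ k, (y k : Sm 𝓜) = (e k : Sm 𝓜) * ζ * (f k : Sm 𝓜)) →
        Filter.Tendsto (fun k => orl (fun s => s ^ p)
          ((g : Sm 𝓜) * ζ * (g : Sm 𝓜) - (F.E n (g * y k * g) : Sm 𝓜))) Filter.atTop (𝓝 0)

/-- The inequality for the real part in a finite corner. -/
def E_R2re : Prop :=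
  ∀ (Phi : ℝ → ℝ) (p1 q1 C0 : ℝ), Gr Phi p1 q1 C0 → 1 < p1 → ∃ C : ℝ, 0 < C ∧
  ∀ (H : Type u) [NormedAddCommGroup H] [InnerProductSpace ℂ H] [CompleteSpace H]
    (𝓜 : TVN H) [UniformSpace (Mc 𝓜)] [IsTopologicalRing (Mc 𝓜)] [IsUniformAddGroup (Mc 𝓜)],
    IsMT 𝓜 → ∀ (F : Filtr 𝓜) (ξ : Sm 𝓜) (ξn : ℕ → Sm 𝓜), MemL Phi ξ →
      (∀ n, IsCE F Phi n ξ (ξn n)) →
      ∀ (a b : Sm 𝓜) (y : ℕ → Mc 𝓜), MemL Phi (sst a * a) → MemL Phi (sst b * b) →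
        (∀ n, ‖(y n).op‖ ≤ 1) → (∀ n, dif ξn n = a * (y n : Sm 𝓜) * b) →
      ∀ (z z' : ℕ → Mc 𝓜) (K K' : ℕ → ℕ) (c c' : ℝ≥0∞), CApprox F Phi (dif ξn) z K →
        CApprox F Phi (dif (fun n => sst (ξn n))) z' K' →
        Filter.Tendsto (fun k => bsc F Phi (K k) (z k)) Filter.atTop (𝓝 c) →
        Filter.Tendsto (fun k => bsc F Phi (K' k) (z' k)) Filter.atTop (𝓝 c') →
      ∀ (N : ℕ) (g : Mc 𝓜), IsP g → g.op ∈ F.N 0 → 𝓜.tr g.op < ⊤ →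
        orl Phi ((g : Sm 𝓜) * (ξn N - ξn 0) * (g : Sm 𝓜)
            + sst ((g : Sm 𝓜) * (ξn N - ξn 0) * (g : Sm 𝓜)))
          ≤ ENNReal.ofReal C * (orl Phi (sst a * a) + orl Phi (sst b * b) + c + c')

/-- The inequality in a finite corner. -/
def E_R2 : Prop :=
  ∀ (Phi : ℝ → ℝ) (p1 q1 C0 : ℝ), Gr Phi p1 q1 C0 → 1 < p1 → ∃ C : ℝ, 0 < C ∧
  ∀ (H : Type u) [NormedAddCommGroup H] [InnerProductSpace ℂ H] [CompleteSpace H]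
    (𝓜 : TVN H) [UniformSpace (Mc 𝓜)] [IsTopologicalRing (Mc 𝓜)] [IsUniformAddGroup (Mc 𝓜)],
    IsMT 𝓜 → ∀ (F : Filtr 𝓜) (ξ : Sm 𝓜) (ξn : ℕ → Sm 𝓜), MemL Phi ξ →
      (∀ n, IsCE F Phi n ξ (ξn n)) →
      ∀ (a b : Sm 𝓜) (y : ℕ → Mc 𝓜), MemL Phi (sst a * a) → MemL Phi (sst b * b) →
        (∀ n, ‖(y n).op‖ ≤ 1) → (∀ n, dif ξn n = a * (y n : Sm 𝓜) * b) →
      ∀ (z z' : ℕ → Mc 𝓜) (K K' : ℕ → ℕ) (c c' : ℝ≥0∞), CApprox F Phi (dif ξn) z K →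
        CApprox F Phi (dif (fun n => sst (ξn n))) z' K' →
        Filter.Tendsto (fun k => bsc F Phi (K k) (z k)) Filter.atTop (𝓝 c) →
        Filter.Tendsto (fun k => bsc F Phi (K' k) (z' k)) Filter.atTop (𝓝 c') →
      ∀ (N : ℕ) (g : Mc 𝓜), IsP g → g.op ∈ F.N 0 → 𝓜.tr g.op < ⊤ →
        orl Phi ((g : Sm 𝓜) * ξn N * (g : Sm 𝓜))
          ≤ ENNReal.ofReal C * (orl Phi (sst a * a) + orl Phi (sst b * b) + c + c')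

/-- The main theorem, for a given model of the measure topology. -/
def E_main : Prop :=
  ∀ (Phi : ℝ → ℝ) (p q : EReal), Orlicz Phi → IsLowerIndex Phi p → IsUpperIndex Phi q →
    1 < p → q < ⊤ → ∃ C : ℝ≥0,
  ∀ (H : Type u) [NormedAddCommGroup H] [InnerProductSpace ℂ H] [CompleteSpace H]
    (𝓜 : TVN H) [UniformSpace (Mc 𝓜)] [IsTopologicalRing (Mc 𝓜)] [IsUniformAddGroup (Mc 𝓜)],
    IsMT 𝓜 → ∀ (F : Filtr 𝓜) (ξ : Sm 𝓜) (ξn : ℕ → Sm 𝓜), MemL Phi ξ →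
      (∀ n, IsCE F Phi n ξ (ξn n)) →
      orl Phi ξ ≤ C * (supP Phi (dif ξn) + condC F Phi (dif ξn)
        + condC F Phi (dif (fun n => sst (ξn n))))

/-- Existence and uniqueness of `E_n ξ`, for `ξ ∈ L_Phi`. -/
def E_ce : Prop :=
  ∀ (Phi : ℝ → ℝ) (p1 q1 C0 : ℝ), Gr Phi p1 q1 C0 → 1 < p1 →
  ∀ (H : Type u) [NormedAddCommGroup H] [InnerProductSpace ℂ H] [CompleteSpace H]
    (𝓜 : TVN H) [UniformSpace (Mc 𝓜)] [IsTopologicalRing (Mc 𝓜)] [IsUniformAddGroup (Mc 𝓜)],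
    IsMT 𝓜 → ∀ (F : Filtr 𝓜) (n : ℕ) (ξ : Sm 𝓜), MemL Phi ξ → ∃! η : Sm 𝓜, IsCE F Phi n ξ η

end MDB
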