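import Pool.Agent.MDB.Targets

set_option autoImplicit false

open Finset Filter
open scoped Topology unitInterval

namespace MDB

universe u

namespace MDB_TWO

section

variable {A : Type u} [CStarAlgebra A] [PartialOrder A] [StarOrderedRing A]

theorem t_mono (T : TrFun A) {a b : A} (h : a ≤ b) : T.t a ≤ T.t b := by
  have h1 := T.nonneg (b - a) (sub_nonneg.2 h)
  rw [map_sub] at h1
  linarith

theorem t_algebraMap (T : TrFun A) (r : ℝ) : T.t (algebraMap ℝ A r) = r * T.t 1 := by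
  rw [Algebra.algebraMap_eq_smul_one, map_smul, smul_eq_mul]

theorem t_one_nonneg (T : TrFun A) : 0 ≤ T.t 1 := T.nonneg 1 zero_le_one

theorem t_bound_sa (T : TrFun A) (x : A) (hx : IsSelfAdjoint x) : |T.t x| ≤ T.t 1 * ‖x‖ := by
  rw [abs_le]
  constructor
  · have h1 := t_mono T hx.neg_algebraMap_norm_le_self
    rw [map_neg, t_algebraMap] at h1
    linarith
  · have h1 := t_mono T hx.le_algebraMap_norm_self
    rw [t_algebraMap] at h1
    linarith

theorem t_bound (T : TrFun A) (x : A) : ‖T.t x‖ ≤ T.t 1 * ‖x‖ := by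
  have hsa : IsSelfAdjoint ((1 / 2 : ℝ) • (x + star x)) := by
    rw [isSelfAdjoint_iff, star_smul, star_add, star_star, star_trivial, add_comm]
  have h1 : T.t ((1 / 2 : ℝ) • (x + star x)) = T.t x := by
    rw [map_smul, map_add, T.star_eq, smul_eq_mul]
    ring
  have h2 := t_bound_sa T _ hsa
  rw [h1] at h2
  rw [Real.norm_eq_abs]
  refine h2.trans (mul_le_mul_of_nonneg_left ?_ (t_one_nonneg T))
  rw [norm_smul]
  have h3 : ‖x + star x‖ ≤ ‖x‖ + ‖x‖ := (norm_add_le _ _).trans (by rw [norm_star])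
  rw [Real.norm_eq_abs, abs_of_pos (by norm_num : (0 : ℝ) < 1 / 2)]
  linarith

theorem t_continuous (T : TrFun A) : Continuous T.t := by
  have h := (LinearMap.mkContinuous T.t (T.t 1) (t_bound T)).continuous
  exact h

theorem t_mul_nonneg (T : TrFun A) {c d : A} (hc : 0 ≤ c) (hd : 0 ≤ d) : 0 ≤ T.t (c * d) := by
  obtain ⟨e, he⟩ := CStarAlgebra.nonneg_iff_eq_star_mul_self.1 hd
  rw [he, ← mul_assoc, T.comm, ← mul_assoc]
  exact T.nonneg _ (star_right_conjugate_nonneg hc e)

end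

/-- the affine change of variable -/
noncomputable def uu (α β s : ℝ) : ℝ := (s - α) / (β - α)

theorem uu_mem {α β s : ℝ} (hs : s ∈ Set.Icc α β) : 0 ≤ uu α β s ∧ uu α β s ≤ 1 := by
  unfold uu
  have h1 : 0 ≤ s - α := by linarith [hs.1]
  have h2 : 0 ≤ β - α := by linarith [hs.1, hs.2]
  exact ⟨div_nonneg h1 h2, div_le_one_of_le₀ (by linarith [hs.2]) h2⟩

theorem uu_spec {α β s : ℝ} (hs : s ∈ Set.Icc α β) : α + uu α β s * (β - α) = s := by
  unfold uu
  by_cases h : β - α = 0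
  · have : s = α := le_antisymm (by linarith [hs.2]) hs.1
    rw [h, this]
    simp
  · rw [div_mul_cancel₀ _ h]
    ring

/-- the Bernstein polynomials on `[α, β]` -/
noncomputable def ph (α β : ℝ) (n : ℕ) (k : ℕ) (s : ℝ) : ℝ :=
  (n.choose k : ℝ) * (uu α β s) ^ k * (1 - uu α β s) ^ (n - k)

theorem ph_continuous (α β : ℝ) (n k : ℕ) : Continuous (ph α β n k) := by
  unfold ph uu
  fun_prop

theorem ph_nonneg (α β : ℝ) (n k : ℕ) {s : ℝ} (hs : s ∈ Set.Icc α β) : 0 ≤ ph α β n k s := by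
  have h1 := uu_mem hs
  unfold ph
  have h2 : 0 ≤ 1 - uu α β s := by linarith [h1.2]
  have h3 := h1.1
  positivity

/-- the nodes -/
noncomputable def pt (α β : ℝ) (n : ℕ) (k : ℕ) : ℝ := α + (k / n : ℝ) * (β - α)

theorem pt_mem {α β : ℝ} (h : α ≤ β) {n k : ℕ} (hk : k ≤ n) : pt α β n k ∈ Set.Icc α β := by
  unfold pt
  have h1 : (0 : ℝ) ≤ (k : ℝ) / n := by positivity
  have h2 : (k : ℝ) / n ≤ 1 := div_le_one_of_le₀ (by exact_mod_cast hk) (by positivity)
  have h3 : 0 ≤ β - α := by linarith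
  constructor
  · nlinarith
  · nlinarith

/-- the Bernstein approximation on `[α, β]` -/
noncomputable def ap (α β : ℝ) (f : ℝ → ℝ) (n : ℕ) (s : ℝ) : ℝ :=
  ∑ k : Fin (n + 1), f (pt α β n k) * ph α β n k s

theorem approx {α β : ℝ} (h : α ≤ β) (f : ℝ → ℝ) (hf : ContinuousOn f (Set.Icc α β)) {ε : ℝ}
    (hε : 0 < ε) : ∀ᶠ n : ℕ in atTop, ∀ s ∈ Set.Icc α β, |ap α β f n s - f s| < ε := by
  have hmem : ∀ x : I, α + (x : ℝ) * (β - α) ∈ Set.Icc α β := by
    intro x
    have h3 : 0 ≤ β - α := by linarith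
    have h4 := x.2.1
    have h5 := x.2.2
    constructor
    · nlinarith
    · nlinarith
  have hc : Continuous fun x : I => f (α + (x : ℝ) * (β - α)) := by
    refine hf.comp_continuous (by fun_prop) hmem
  let F : C(I, ℝ) := ⟨fun x : I => f (α + (x : ℝ) * (β - α)), hc⟩
  have ht := bernsteinApproximation_uniform F
  have ht' := (Metric.tendsto_nhds.1 ht) ε hε
  filter_upwards [ht'] with n hn
  intro s hs
  let x : I := ⟨uu α β s, uu_mem hs⟩
  have h6 := (ContinuousMap.dist_lt_iff hε).1 hn x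
  rw [bernsteinApproximation.apply, Real.dist_eq] at h6
  have h7 : F x = f s := by
    change f (α + (uu α β s) * (β - α)) = f s
    rw [uu_spec hs]
  rw [h7] at h6
  have h8 : ap α β f n s = ∑ k : Fin (n + 1), bernstein n k x • F (bernstein.z k) := by
    unfold ap
    refine Finset.sum_congr rfl fun k _ => ?_
    rw [bernstein_apply, smul_eq_mul, mul_comm]
    rfl
  rw [h8]
  exact h6

section

variable {A : Type u} [CStarAlgebra A] [PartialOrder A] [StarOrderedRing A]

theorem cfc_ap (α β : ℝ) (f : ℝ → ℝ) (n : ℕ) (a : A) :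
    cfc (ap α β f n) a = ∑ k : Fin (n + 1), f (pt α β n k) • cfc (ph α β n k) a := by
  have h1 : ap α β f n = ∑ k : Fin (n + 1), fun s => f (pt α β n k) * ph α β n k s := by
    ext s
    simp [ap]
  rw [h1, cfc_sum_univ (fun (k : Fin (n + 1)) (s : ℝ) => f (pt α β n k) * ph α β n k s) a
    (fun k => (continuous_const.mul (ph_continuous α β n k)).continuousOn)]
  refine Finset.sum_congr rfl fun k _ => ?_
  exact cfc_const_mul _ _ a (ph_continuous α β n k).continuousOn

theorem cfc_ap_tendsto {α β : ℝ} (h : α ≤ β) (f : ℝ → ℝ) (hf : ContinuousOn f (Set.Icc α β))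
    (a : A) (ha : IsSelfAdjoint a) (hs : spectrum ℝ a ⊆ Set.Icc α β) :
    Tendsto (fun n => cfc (ap α β f n) a) atTop (𝓝 (cfc f a)) := by
  rw [Metric.tendsto_nhds]
  intro ε hε
  filter_upwards [approx h f hf (half_pos hε)] with n hn
  have hc : ContinuousOn (ap α β f n) (spectrum ℝ a) := by
    have : Continuous (ap α β f n) := by
      unfold ap
      exact continuous_finsetSum _ fun k _ => continuous_const.mul (ph_continuous α β n k)
    exact this.continuousOn
  rw [dist_eq_norm, ← cfc_sub (ap α β f n) f a hc (hf.mono hs)]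
  refine lt_of_le_of_lt (norm_cfc_le (half_pos hε).le fun x hx => ?_) (half_lt_self hε)
  exact (hn x (hs hx)).le

theorem cfc_ph_nonneg (α β : ℝ) (n k : ℕ) (a : A) (hs : spectrum ℝ a ⊆ Set.Icc α β) :
    0 ≤ cfc (ph α β n k) a :=
  cfc_nonneg fun _ hx => ph_nonneg α β n k (hs hx)

end

end MDB_TWO

open MDB_TWO

theorem p_two : T_two.{u} := by
  intro A _ _ _ T ι S f g a b α β α' β' ha hb hsa hsb hf hg hpos
  rcases subsingleton_or_nontrivial A with hA | hA
  · have : ∀ i, cfc (f i) a * cfc (g i) b = 0 := fun i => Subsingleton.elim _ _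
    simp [this]
  have hne : ∀ (c : A) (γ δ : ℝ), IsSelfAdjoint c → spectrum ℝ c ⊆ Set.Icc γ δ → γ ≤ δ := by
    intro c γ δ hc hsc
    obtain ⟨x, hx⟩ := ContinuousFunctionalCalculus.spectrum_nonempty (R := ℝ) c hc
    exact (hsc hx).1.trans (hsc hx).2
  have h1 := hne a α β ha hsa
  have h2 := hne b α' β' hb hsb
  have hlim : Tendsto (fun n => ∑ i ∈ S, T.t (cfc (ap α β (f i) n) a * cfc (ap α' β' (g i) n) b))
      atTop (𝓝 (∑ i ∈ S, T.t (cfc (f i) a * cfc (g i) b))) := by
    refine tendsto_finsetSum _ fun i hi => ?_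
    exact ((t_continuous T).tendsto _).comp
      ((cfc_ap_tendsto h1 (f i) (hf i hi) a ha hsa).mul
        (cfc_ap_tendsto h2 (g i) (hg i hi) b hb hsb))
  refine ge_of_tendsto' hlim fun n => ?_
  have hexp : ∑ i ∈ S, T.t (cfc (ap α β (f i) n) a * cfc (ap α' β' (g i) n) b) =
      ∑ k : Fin (n + 1), ∑ l : Fin (n + 1),
        (∑ i ∈ S, f i (pt α β n k) * g i (pt α' β' n l)) *
          T.t (cfc (ph α β n k) a * cfc (ph α' β' n l) b) := by
    simp_rw [cfc_ap, Finset.sum_mul_sum, smul_mul_smul_comm, map_sum, map_smul, smul_eq_mul,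
      Finset.sum_mul]
    rw [Finset.sum_comm]
    refine Finset.sum_congr rfl fun k _ => ?_
    rw [Finset.sum_comm]
  rw [hexp]
  refine Finset.sum_nonneg fun k _ => Finset.sum_nonneg fun l _ => mul_nonneg ?_ ?_
  · exact hpos _ (pt_mem h1 (Nat.lt_succ_iff.1 k.2)) _ (pt_mem h2 (Nat.lt_succ_iff.1 l.2))
  · exact t_mul_nonneg T (cfc_ph_nonneg α β n k a hsa) (cfc_ph_nonneg α' β' n l b hsb)

end MDB
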